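import Pool.Agent.Lib.MP_1ef7cf_nt_r.Df

section

/-!
# TASK V7: extension of homomorphisms

PROOF. `scale_hom`: let `x_1, ..., x_r` generate `Λ`, `N` a common denominator of the rational numbers `c x_i`.
`ext_hom`: `Λ' / Λ` is a finitely generated abelian group, torsion free by `hsat`, hence free
(`Module.free_of_finite_type_torsion_free'` or similar), so the map `Λ' → Λ'/Λ` splits and `c|Λ : Λ → ℤ` extends to a
homomorphism `φ : Λ' → ℤ`. `Λ'` is finitely generated and torsion free (a subgroup of `ℝ`), hence free over `ℤ`; a `ℤ`-basis `b` of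
`Λ'` is linearly independent over `ℚ` in `ℝ` (`LinearIndependent.iff_fractionRing ℤ ℚ`), so there is a `ℚ`-linear map `c' : ℝ → ℚ` with
`c' (b i) = φ (b i)` (extend `b` to a basis, or: a linear map defined on a subspace extends, `LinearMap.exists_extend`). Then `c' = φ`
on `Λ'`.
(Alternative for the last step: the `ℚ`-span of `Λ'` is `{q x}`; define `c'` there and extend.)
-/

set_option autoImplicit false

namespace Pool.Agent.STr

theorem scale_hom {Λ : AddSubgroup ℝ} (hfg : Λ.FG) (c : ℝ →ₗ[ℚ] ℚ) :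
    ∃ N : ℕ, N ≠ 0 ∧ ∀ x ∈ Λ, ∃ z : ℤ, (N : ℚ) * c x = z := by
  obtain ⟨S, hS⟩ := hfg
  refine ⟨∏ x ∈ S, (c x).den, Finset.prod_ne_zero_iff.2 fun x _ => (c x).den_ne_zero, ?_⟩
  intro x hx
  rw [← hS] at hx
  induction hx using AddSubgroup.closure_induction with
  | mem y hy =>
    have hy' : y ∈ S := hy
    obtain ⟨m, hm⟩ := Finset.dvd_prod_of_mem (fun x => (c x).den) hy'
    refine ⟨(c y).num * m, ?_⟩
    have h1 : ((c y).den : ℚ) * c y = (c y).num := by
      rw [mul_comm]; exact Rat.mul_den_eq_num (c y)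
    have hm' : (∏ x ∈ S, (c x).den) = (c y).den * m := hm
    rw [hm']
    push_cast
    rw [← h1]; ring
  | zero => exact ⟨0, by simp⟩
  | add a b _ _ ha hb =>
    obtain ⟨z, hz⟩ := ha
    obtain ⟨w, hw⟩ := hb
    exact ⟨z + w, by rw [map_add, mul_add, hz, hw]; push_cast; ring⟩
  | neg a _ ha =>
    obtain ⟨z, hz⟩ := ha
    exact ⟨-z, by rw [map_neg, mul_neg, hz]; push_cast; ring⟩

theorem ext_hom {Λ Λ' : AddSubgroup ℝ} (hle : Λ ≤ Λ') (hfg : Λ'.FG)
    (hsat : ∀ x ∈ Λ', ∀ k : ℕ, k ≠ 0 → (k : ℝ) * x ∈ Λ → x ∈ Λ) (c : ℝ →ₗ[ℚ] ℚ)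
    (hc : ∀ x ∈ Λ, ∃ z : ℤ, c x = z) :
    ∃ c' : ℝ →ₗ[ℚ] ℚ, (∀ x ∈ Λ, c' x = c x) ∧ ∀ x ∈ Λ', ∃ z : ℤ, c' x = z := by
  classical
  -- work with submodules of ℝ over ℤ
  let L' : Submodule ℤ ℝ := AddSubgroup.toIntSubmodule Λ'
  let L0 : Submodule ℤ ℝ := AddSubgroup.toIntSubmodule Λ
  have hfgL : L'.FG := by
    rw [Submodule.fg_iff_addSubgroup_fg]
    exact hfg
  have : Module.Finite ℤ L' := Module.Finite.iff_fg.2 hfgL
  let L : Submodule ℤ L' := L0.comap L'.subtype
  have hmemL : ∀ x : L', x ∈ L ↔ (x : ℝ) ∈ Λ := fun x => Iff.rfl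
  -- quotient is torsion free
  have : Module.IsTorsionFree ℤ (L' ⧸ L) := by
    refine ⟨fun n hn => ?_⟩
    have hn0 : n ≠ 0 := hn.ne_zero
    intro a b hab
    obtain ⟨x, rfl⟩ := Submodule.mkQ_surjective L a
    obtain ⟨y, rfl⟩ := Submodule.mkQ_surjective L b
    have hab' : n • (L.mkQ x) = n • (L.mkQ y) := hab
    rw [← map_smul, ← map_smul] at hab'
    rw [Submodule.mkQ_apply, Submodule.mkQ_apply, Submodule.Quotient.eq, ← smul_sub] at hab'
    rw [Submodule.mkQ_apply, Submodule.mkQ_apply, Submodule.Quotient.eq]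
    have h1 : ((n • (x - y) : L') : ℝ) ∈ Λ := (hmemL _).1 hab'
    have h2 : ((n • (x - y) : L') : ℝ) = (n : ℝ) * ((x - y : L') : ℝ) := by
      rw [Submodule.coe_smul, zsmul_eq_mul]
    rw [h2] at h1
    refine (hmemL _).2 (hsat _ (x - y).2 n.natAbs (by simpa using hn0) ?_)
    have h3 : ((n.natAbs : ℕ) : ℝ) = |(n : ℝ)| := by
      rw [Nat.cast_natAbs, Int.cast_abs]
    rw [h3]
    rcases abs_choice (n : ℝ) with h | h
    · rw [h]; exact h1
    · rw [h, neg_mul]; exact Λ.neg_mem h1
  have : Module.Free ℤ (L' ⧸ L) := Module.free_of_finite_type_torsion_free'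
  obtain ⟨s, hs⟩ := L.mkQ.exists_rightInverse_of_surjective (LinearMap.range_eq_top.2 L.mkQ_surjective)
  let p : L' →ₗ[ℤ] L' := LinearMap.id - s.comp L.mkQ
  have hp : ∀ x : L', p x ∈ L := by
    intro x
    have h1 : L.mkQ (p x) = 0 := by
      have : L.mkQ (s (L.mkQ x)) = L.mkQ x := by
        rw [← LinearMap.comp_apply, hs, LinearMap.id_apply]
      simp only [p, LinearMap.sub_apply, LinearMap.id_apply, LinearMap.comp_apply, map_sub]
      rw [this, sub_self]
    rwa [← LinearMap.mem_ker, Submodule.ker_mkQ] at h1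
  have hpL : ∀ x : L', x ∈ L → p x = x := by
    intro x hx
    have h1 : L.mkQ x = 0 := by rwa [← LinearMap.mem_ker, Submodule.ker_mkQ]
    simp only [p, LinearMap.sub_apply, LinearMap.id_apply, LinearMap.comp_apply]
    rw [h1, map_zero, sub_zero]
  let c1 : L' →+ ℚ := (c.toAddMonoidHom.comp L'.subtype.toAddMonoidHom).comp p.toAddMonoidHom
  have hc1 : ∀ x : L', c1 x = c ((p x : L') : ℝ) := fun _ => rfl
  have : Module.IsTorsionFree ℤ L' :=
    Function.Injective.moduleIsTorsionFree (N := ℝ) (fun x : L' => (x : ℝ)) Subtype.val_injective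
      (fun _ _ => rfl)
  have : Module.Free ℤ L' := Module.free_of_finite_type_torsion_free'
  let b := Module.Free.chooseBasis ℤ L'
  have hbZ : LinearIndependent ℤ (fun i => ((b i : L') : ℝ)) := by
    have := b.linearIndependent.map' L'.subtype (Submodule.ker_subtype _)
    exact this
  have hbQ : LinearIndependent ℚ (fun i => ((b i : L') : ℝ)) :=
    (LinearIndependent.iff_fractionRing ℤ ℚ).1 hbZ
  let B := Module.Basis.span hbQ
  let g : Submodule.span ℚ (Set.range fun i => ((b i : L') : ℝ)) →ₗ[ℚ] ℚ := B.constr ℚ (fun i => c1 (b i))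
  obtain ⟨c', hc'⟩ := LinearMap.exists_extend g
  have hcb : ∀ i, c' ((b i : L') : ℝ) = c1 (b i) := by
    intro i
    have h1 : ((B i : Submodule.span ℚ (Set.range fun i => ((b i : L') : ℝ))) : ℝ) = ((b i : L') : ℝ) :=
      congrArg Subtype.val (Module.Basis.span_apply hbQ i) |>.trans rfl
    have h2 : c' ((B i : Submodule.span ℚ (Set.range fun i => ((b i : L') : ℝ))) : ℝ) = g (B i) := by
      rw [← hc']; rfl
    rw [← h1, h2]
    exact B.constr_basis ℚ _ i
  have hall : ∀ x : L', c' (x : ℝ) = c1 x := by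
    have h1 : (c'.toAddMonoidHom.comp L'.subtype.toAddMonoidHom).toIntLinearMap = c1.toIntLinearMap := by
      refine b.ext fun i => ?_
      exact hcb i
    intro x
    exact LinearMap.congr_fun h1 x
  refine ⟨c', ?_, ?_⟩
  · intro x hx
    have h1 := hall ⟨x, hle hx⟩
    rw [hc1, hpL ⟨x, hle hx⟩ hx] at h1
    exact h1
  · intro x hx
    have h1 := hall ⟨x, hx⟩
    obtain ⟨z, hz⟩ := hc _ ((hmemL _).1 (hp ⟨x, hx⟩))
    exact ⟨z, by rw [← hz]; exact h1⟩

end Pool.Agent.STr
end

section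

/-!
# TASK A5a: characters with equal kernels; generation by elements of prime power order; twists

PROOF. `pow_of_ker`: the range of `ψ` is a finite subgroup of `ℂˣ`, hence cyclic; let `c : C` be such that `ψ c` generates it and let
`N` be its order, `N = orderOf (ψ c) = orderOf ψ` (`orderOf ψ` is the exponent of the range). Since `χ.ker = ψ.ker`, the order of `χ c`
is also `N` (`χ (c ^ j) = 1 ↔ ψ (c ^ j) = 1`), so `χ c` and `ψ c` are primitive `N`-th roots of unity and `χ c = ψ c ^ b` for some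
`b` (`IsPrimitiveRoot.eq_pow_of_pow_eq_one`). For `g : C`: `ψ g = ψ (c ^ j)`, so `g = c ^ j * k` with `k` in the common kernel and
`χ g = χ c ^ j = ψ c ^ (b j) = ψ g ^ b`.
`le_of_primePow`: strong induction on `orderOf x`, `x ∈ A`. If `orderOf x` is `1` or a prime power: `h` (`1 = p ^ 0`).
Otherwise `orderOf x = a * b` with `a, b > 1` coprime; `x` is a product of a power of `x ^ a` (order `b`) and a power of
`x ^ b` (order `a`) (Bezout); both are in `A`, of smaller order.
`twist`: `b ≡ 1 mod l ^ i`: for `g ∈ V` the hypothesis `χη = (ψη)^b` gives `η g = η g ^ b`; so the restriction of `η ^ (b-1)` (use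
integer exponents or `b ≥ 1`, replace `b` by `b + orderOf` if necessary: the statement is with natural numbers, `b` may be `0` only if
everything is trivial) to `V` is trivial, and since the restriction of `η` to `V` has order `l ^ i` we get `l ^ i ∣ b - 1`
(in `ℤ`), hence `η ^ b = η` on the whole group (`orderOf η = l ^ i`), `χ = ψ ^ b`, `χ * ψ⁻¹ = ψ ^ (b - 1)` (`zpow`). The order `N` of
`ψ` satisfies `¬ l ^ (i + 1) ∣ N`; write `N = l ^ j * N'`, `j ≤ i`, `¬ l ∣ N'`: `(ψ ^ (b - 1)) ^ N' = 1` since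
`l ^ j N' ∣ (b - 1) N'`. So `orderOf (χ * ψ⁻¹) ∣ N'`.
(This file: pow_of_ker.)
-/

set_option autoImplicit false

namespace Pool.Agent.STr

variable {C : Type*} [CommGroup C]

theorem pow_of_ker [Finite C] {χ ψ : C →* ℂˣ} (h : χ.ker = ψ.ker) : ∃ b : ℕ, χ = ψ ^ b := by
  have hfr : Finite ψ.range := Finite.of_surjective ψ.rangeRestrict ψ.rangeRestrict_surjective
  have hcy : IsCyclic ψ.range := isCyclic_subgroup_units ψ.range
  obtain ⟨g, hg⟩ := IsCyclic.exists_generator (α := ψ.range)
  obtain ⟨c, hc⟩ := g.2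
  have hfin : IsOfFinOrder (ψ c) := by
    have h1 : IsOfFinOrder c := isOfFinOrder_of_finite c
    exact ψ.isOfFinOrder h1
  have hN : 0 < orderOf (ψ c) := hfin.orderOf_pos
  have hne : NeZero (orderOf (ψ c)) := ⟨hN.ne'⟩
  have hpow : (χ c) ^ orderOf (ψ c) = 1 := by
    have h1 : c ^ orderOf (ψ c) ∈ ψ.ker := by
      rw [MonoidHom.mem_ker, map_pow, pow_orderOf_eq_one]
    rw [← h, MonoidHom.mem_ker, map_pow] at h1
    exact h1
  have hprim : IsPrimitiveRoot ((ψ c : ℂˣ) : ℂ) (orderOf (ψ c)) :=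
    IsPrimitiveRoot.coe_units_iff.mpr (IsPrimitiveRoot.orderOf (ψ c))
  obtain ⟨b, _, hb⟩ := hprim.eq_pow_of_pow_eq_one (ξ := ((χ c : ℂˣ) : ℂ)) (by
    rw [← Units.val_pow_eq_pow_val, hpow, Units.val_one])
  have hb' : (ψ c) ^ b = χ c := by
    apply Units.ext
    rw [Units.val_pow_eq_pow_val]
    exact hb
  refine ⟨b, ?_⟩
  ext1 a
  obtain ⟨j, hj⟩ := Subgroup.mem_zpowers_iff.mp (hg ⟨ψ a, a, rfl⟩)
  have hj' : (ψ c) ^ j = ψ a := by
    have h1 := congrArg Subtype.val hj
    simp only [SubgroupClass.coe_zpow] at h1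
    rw [← hc] at h1
    exact h1
  have hk : a * (c ^ j)⁻¹ ∈ ψ.ker := by
    rw [MonoidHom.mem_ker, map_mul, map_inv, map_zpow, hj', mul_inv_cancel]
  rw [← h, MonoidHom.mem_ker, map_mul, map_inv, map_zpow] at hk
  have hk' : χ a = χ c ^ j := mul_inv_eq_one.mp hk
  rw [MonoidHom.pow_apply, hk', ← hb', ← hj', ← zpow_natCast, ← zpow_natCast, ← zpow_mul,
    ← zpow_mul, mul_comm]

end Pool.Agent.STr
end

section

/-!
# TASK A5b: characters with equal kernels; generation by elements of prime power order; twists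

PROOF. `pow_of_ker`: the range of `ψ` is a finite subgroup of `ℂˣ`, hence cyclic; let `c : C` be such that `ψ c` generates it and let
`N` be its order, `N = orderOf (ψ c) = orderOf ψ` (`orderOf ψ` is the exponent of the range). Since `χ.ker = ψ.ker`, the order of `χ c`
is also `N` (`χ (c ^ j) = 1 ↔ ψ (c ^ j) = 1`), so `χ c` and `ψ c` are primitive `N`-th roots of unity and `χ c = ψ c ^ b` for some
`b` (`IsPrimitiveRoot.eq_pow_of_pow_eq_one`). For `g : C`: `ψ g = ψ (c ^ j)`, so `g = c ^ j * k` with `k` in the common kernel and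
`χ g = χ c ^ j = ψ c ^ (b j) = ψ g ^ b`.
`le_of_primePow`: strong induction on `orderOf x`, `x ∈ A`. If `orderOf x` is `1` or a prime power: `h` (`1 = p ^ 0`).
Otherwise `orderOf x = a * b` with `a, b > 1` coprime; `x` is a product of a power of `x ^ a` (order `b`) and a power of
`x ^ b` (order `a`) (Bezout); both are in `A`, of smaller order.
`twist`: `b ≡ 1 mod l ^ i`: for `g ∈ V` the hypothesis `χη = (ψη)^b` gives `η g = η g ^ b`; so the restriction of `η ^ (b-1)` (use
integer exponents or `b ≥ 1`, replace `b` by `b + orderOf` if necessary: the statement is with natural numbers, `b` may be `0` only if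
everything is trivial) to `V` is trivial, and since the restriction of `η` to `V` has order `l ^ i` we get `l ^ i ∣ b - 1`
(in `ℤ`), hence `η ^ b = η` on the whole group (`orderOf η = l ^ i`), `χ = ψ ^ b`, `χ * ψ⁻¹ = ψ ^ (b - 1)` (`zpow`). The order `N` of
`ψ` satisfies `¬ l ^ (i + 1) ∣ N`; write `N = l ^ j * N'`, `j ≤ i`, `¬ l ∣ N'`: `(ψ ^ (b - 1)) ^ N' = 1` since
`l ^ j N' ∣ (b - 1) N'`. So `orderOf (χ * ψ⁻¹) ∣ N'`.
(This file: le_of_primePow.)
-/

set_option autoImplicit false

namespace Pool.Agent.STr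

variable {C : Type*} [CommGroup C]

theorem le_of_primePow {G : Type*} [Group G] [Finite G] (A B : Subgroup G)
    (h : ∀ x ∈ A, ∀ p k : ℕ, p.Prime → orderOf x = p ^ k → x ∈ B) : A ≤ B := by
  intro x hx
  induction hn : orderOf x using Nat.strong_induction_on generalizing x with
  | _ n ih =>
    have hpos : 0 < n := hn ▸ orderOf_pos x
    rcases Nat.eq_or_lt_of_le hpos with h1 | h1
    · exact h x hx 2 0 Nat.prime_two (by rw [hn, ← h1]; rfl)
    · -- take a prime factor
      have hn1 : n ≠ 1 := by omega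
      obtain ⟨p, hp, hpn⟩ := Nat.exists_prime_and_dvd hn1
      obtain ⟨k, b, hb, hkb⟩ := Nat.exists_eq_pow_mul_and_not_dvd hpos.ne' p hp.ne_one
      by_cases hb1 : b = 1
      · exact h x hx p k hp (by rw [hn, hkb, hb1, mul_one])
      · have hk : k ≠ 0 := by
          rintro rfl
          apply hb
          rw [pow_zero, one_mul] at hkb
          rwa [hkb] at hpn
        have hb0 : 0 < b := by
          rcases Nat.eq_zero_or_pos b with h0 | h0
          · subst h0
            exact absurd (dvd_zero p) hb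
          · exact h0
        have ha1 : 1 < p ^ k := Nat.one_lt_pow hk hp.one_lt
        have hcop : Nat.Coprime (p ^ k) b := (hp.coprime_iff_not_dvd.mpr hb).pow_left k
        have hlt1 : p ^ k < n := by
          rw [hkb]
          have : 1 < b := by omega
          nlinarith
        have hlt2 : b < n := by
          rw [hkb]
          nlinarith
        have o1 : orderOf (x ^ (p ^ k)) = b := by
          rw [orderOf_pow_of_dvd (by positivity) (by rw [hn, hkb]; exact dvd_mul_right _ _), hn, hkb]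
          exact Nat.mul_div_cancel_left b (by positivity)
        have o2 : orderOf (x ^ b) = p ^ k := by
          rw [orderOf_pow_of_dvd hb0.ne' (by rw [hn, hkb]; exact dvd_mul_left _ _), hn, hkb]
          exact Nat.mul_div_cancel _ hb0
        have m1 : x ^ (p ^ k) ∈ B := ih b hlt2 (A.pow_mem hx _) o1
        have m2 : x ^ b ∈ B := ih (p ^ k) hlt1 (A.pow_mem hx _) o2
        have hbez : ((1 : ℕ) : ℤ) = (p ^ k : ℕ) * Nat.gcdA (p ^ k) b + b * Nat.gcdB (p ^ k) b := by
          rw [← Nat.gcd_eq_gcd_ab, hcop.gcd_eq_one]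
        have hx' : x = (x ^ (p ^ k)) ^ (Nat.gcdA (p ^ k) b) * (x ^ b) ^ (Nat.gcdB (p ^ k) b) := by
          rw [← zpow_natCast x (p ^ k), ← zpow_natCast x b, ← zpow_mul, ← zpow_mul, ← zpow_add, ← hbez]
          simp
        rw [hx']
        exact B.mul_mem (B.zpow_mem m1 _) (B.zpow_mem m2 _)

end Pool.Agent.STr
end
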