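import Pool.Agent.Lib.MP_1ef7cf_nt_r.Df
import Pool.Agent.Lib.MP_1ef7cf_nt.LowDens
import Pool.Agent.Lib.MP_1ef7cf_nt_d.CC
import Pool.Agent.Lib.MP_1ef7cf_nt_r.Ba0
import Pool.Agent.Lib.MP_1ef7cf_nt_h.F08
import Pool.Agent.Lib.MP_1ef7cf_nt_h.Mg.G002

section

/-!
# TASK D1a: a prime outside of the completely split primes of several extensions

PROOF of `deg_dens`. If `pn P ≠ pn (und K P)` then `pn P ≥ pn (und K P) ^ 2` (`pn_sq_le`), so `px s P ≤ pn (und K P) ^ (-2)` for `s > 1`, and the sum over `P` is at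
most `[F : K] ∑_p pn(p) ^ (-2)` (`sum_und_le` with `g p = px 2 p`; summable).
PROOF of `exists_good_prime`. Let `B'` be `B` together with the finite set of the primes `P` of `F` below a prime of some `E i`, `i ∈ s`, ramified over `F`
(`finite_ramified`). For `i ∈ s` let `G i = {P ∉ B' | all Q over P have trivial Frobenius}`. `split_upper` (`MP_1ef7cf_nt/LowDens.lean`):
`∑' P, (G i).indicator (px s) P ≤ (log (1 / (s - 1)) + C) / [E i : F]` for `s → 1+`. If the claim fails, every prime of `F` is in `B'`, or in some `G i`, or in the set of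
`deg_dens`, so `primeSum F s ≤ (∑ i ∈ s, 1 / [E i : F]) log (1 / (s - 1)) + C'`, while `primeSum_asymp` gives `primeSum F s ≥ log (1 / (s - 1)) - C''`:
contradiction for `s → 1+` (the coefficient is `< 1`; `tendsto_log_one_div` in `MP_1ef7cf_nt_d/CC.lean`). (Indicator sums: `px s` is summable for `s > 1`; the indicator of a union
is at most the sum of the indicators.) If `P ∉ B'`, not in `G i`: there is `Q` over `P` with nontrivial Frobenius, and `Q` is unramified.
(This file: deg_dens.)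
-/

set_option autoImplicit false

open NumberField IsDedekindDomain nonZeroDivisors Filter Topology

namespace Pool.Agent.STr

open Pool.Agent.ST

theorem D1a_ncard_le (K : Type*) {F : Type*} [Field K] [NumberField K] [Field F] [NumberField F] [Algebra K F]
    (p : PrI K) : (ovr K (E := F) p).ncard ≤ Module.finrank K F := by
  haveI := p.isMaximal
  rw [ncard_ovr, ← IsDedekindDomain.coe_primesOverFinset p.ne_bot (𝓞 F), Set.ncard_coe_finset]
  haveI : NoZeroSMulDivisors (𝓞 K) (𝓞 F) := ⟨fun {c x} h => by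
    rw [Algebra.smul_def, mul_eq_zero] at h
    refine h.imp_left fun h1 => ?_
    exact (map_eq_zero_iff _ (FaithfulSMul.algebraMap_injective (𝓞 K) (𝓞 F))).1 h1⟩
  exact Ideal.card_primesOverFinset_le_finrank (𝓞 F) K F p.ne_bot

theorem D1a_sum_le (K : Type*) {F : Type*} [Field K] [NumberField K] [Field F] [NumberField F] [Algebra K F]
    (g : PrI K → ℝ) (hg : ∀ p, 0 ≤ g p) (hs : Summable g) (A : Finset (PrI F)) :
    ∑ P ∈ A, g (und K P) ≤ Module.finrank K F * ∑' p, g p := by
  classical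
  rw [Finset.sum_comp g (und K)]
  have h1 : ∀ p ∈ A.image (und K), (A.filter fun P => und K P = p).card • g p ≤
      Module.finrank K F * g p := by
    intro p _
    rw [nsmul_eq_mul]
    apply mul_le_mul_of_nonneg_right _ (hg p)
    have h2 : (A.filter fun P => und K P = p).card ≤ (ovr K (E := F) p).ncard := by
      rw [← Set.ncard_coe_finset]
      apply Set.ncard_le_ncard _ (finite_ovr K p)
      intro P hP
      simp only [Finset.coe_filter, Set.mem_ofPred_eq] at hP
      exact hP.2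
    exact_mod_cast h2.trans (D1a_ncard_le K p)
  refine (Finset.sum_le_sum h1).trans ?_
  rw [← Finset.mul_sum]
  apply mul_le_mul_of_nonneg_left _ (Nat.cast_nonneg _)
  exact hs.sum_le_tsum _ fun p _ => hg p

theorem deg_dens (K F : Type*) [Field K] [NumberField K] [Field F] [NumberField F] [Algebra K F] :
    ∃ C : ℝ, ∀ s : ℝ, 1 < s → ∑' P, {P : PrI F | pn P ≠ pn (und K P)}.indicator (px s) P ≤ C := by
  classical
  refine ⟨Module.finrank K F * ∑' p : PrI K, px 2 p, fun s hs => ?_⟩
  have hsum : Summable fun P : PrI F => {P : PrI F | pn P ≠ pn (und K P)}.indicator (px s) P :=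
    (summable_px hs).indicator _
  refine hsum.tsum_le_of_sum_le fun A => ?_
  refine le_trans (Finset.sum_le_sum (g := fun P => px 2 (und K P)) fun P _ => ?_)
    (D1a_sum_le K (px 2) (fun p => (px_pos 2 p).le) (summable_px one_lt_two) A)
  by_cases hP : P ∈ {P : PrI F | pn P ≠ pn (und K P)}
  · rw [Set.indicator_of_mem hP]
    have h5 := pn_sq_le K (hP : pn P ≠ pn (und K P))
    have h7 := two_le_pn (und K P)
    have h8 : (2 : ℝ) ≤ (pn (und K P) : ℝ) := by exact_mod_cast h7
    have h9 : ((pn (und K P) : ℝ)) ^ 2 ≤ (pn P : ℝ) := by exact_mod_cast h5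
    unfold px
    calc (pn P : ℝ) ^ (-s) ≤ ((pn (und K P) : ℝ) ^ 2) ^ (-s) := by
          apply Real.rpow_le_rpow_of_nonpos (by positivity) h9 (by linarith)
      _ = (pn (und K P) : ℝ) ^ (-(2 * s)) := by
          rw [← Real.rpow_natCast, ← Real.rpow_mul (by positivity)]
          congr 1
          push_cast
          ring
      _ ≤ (pn (und K P) : ℝ) ^ (-2 : ℝ) := by
          apply Real.rpow_le_rpow_of_exponent_le (by linarith) (by linarith)
  · rw [Set.indicator_of_notMem hP]
    exact (px_pos 2 _).le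

end Pool.Agent.STr
end

section

/-!
# TASK D1: a prime outside of the completely split primes of several extensions

PROOF of `deg_dens`. If `pn P ≠ pn (und K P)` then `pn P ≥ pn (und K P) ^ 2` (`pn_sq_le`), so `px s P ≤ pn (und K P) ^ (-2)` for `s > 1`, and the sum over `P` is at
most `[F : K] ∑_p pn(p) ^ (-2)` (`sum_und_le` with `g p = px 2 p`; summable).
PROOF of `exists_good_prime`. Let `B'` be `B` together with the finite set of the primes `P` of `F` below a prime of some `E i`, `i ∈ s`, ramified over `F`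
(`finite_ramified`). For `i ∈ s` let `G i = {P ∉ B' | all Q over P have trivial Frobenius}`. `split_upper` (`MP_1ef7cf_nt/LowDens.lean`):
`∑' P, (G i).indicator (px s) P ≤ (log (1 / (s - 1)) + C) / [E i : F]` for `s → 1+`. If the claim fails, every prime of `F` is in `B'`, or in some `G i`, or in the set of
`deg_dens`, so `primeSum F s ≤ (∑ i ∈ s, 1 / [E i : F]) log (1 / (s - 1)) + C'`, while `primeSum_asymp` gives `primeSum F s ≥ log (1 / (s - 1)) - C''`:
contradiction for `s → 1+` (the coefficient is `< 1`; `tendsto_log_one_div` in `MP_1ef7cf_nt_d/CC.lean`). (Indicator sums: `px s` is summable for `s > 1`; the indicator of a union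
is at most the sum of the indicators.) If `P ∉ B'`, not in `G i`: there is `Q` over `P` with nontrivial Frobenius, and `Q` is unramified.
(This file: exists_good_prime.)
-/

set_option autoImplicit false

open NumberField IsDedekindDomain nonZeroDivisors Filter Topology

namespace Pool.Agent.STr

open Pool.Agent.ST

theorem exists_good_prime {K F : Type*} [Field K] [NumberField K] [Field F] [NumberField F] [Algebra K F]
    {ι : Type*} (s : Finset ι) (E : ι → Type) [∀ i, Field (E i)] [∀ i, NumberField (E i)] [∀ i, Algebra F (E i)]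
    [∀ i, IsGalois F (E i)] (h : ∑ i ∈ s, (1 / (Module.finrank F (E i) : ℝ)) < 1) (B : Set (PrI F)) (hB : B.Finite) :
    ∃ P : PrI F, P ∉ B ∧ pn P = pn (und K P) ∧ ∀ i ∈ s, ∃ Q : PrI (E i), und F Q = P ∧
      Algebra.IsUnramifiedAt (𝓞 F) Q.asIdeal ∧ ¬ IsFrob F Q (1 : E i ≃ₐ[F] E i) := by
  classical
  by_contra hcon
  push Not at hcon
  set R : ∀ i, Set (PrI (E i)) := fun i => {Q | ¬ Algebra.IsUnramifiedAt (𝓞 F) Q.asIdeal} with hR
  set B' : Set (PrI F) := B ∪ ⋃ i ∈ s, und F '' (R i) with hB'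
  have hB'fin : B'.Finite :=
    hB.union (s.finite_toSet.biUnion fun i _ => (finite_ramified F).image _)
  set G : ι → Set (PrI F) :=
    fun i => {P | P ∉ B' ∧ ∀ Q : PrI (E i), und F Q = P → IsFrob F Q (1 : E i ≃ₐ[F] E i)} with hG
  set Z : Set (PrI F) := {P : PrI F | pn P ≠ pn (und K P)} with hZ
  have hcover : ∀ P : PrI F, P ∈ B' ∨ P ∈ Z ∨ ∃ i ∈ s, P ∈ G i := by
    intro P
    by_cases h1 : P ∈ B'
    · exact Or.inl h1
    by_cases h2 : P ∈ Z
    · exact Or.inr (Or.inl h2)
    refine Or.inr (Or.inr ?_)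
    have h2' : pn P = pn (und K P) := by
      by_contra h; exact h2 h
    obtain ⟨i, hi, hi'⟩ := hcon P (fun h => h1 (Or.inl h)) h2'
    refine ⟨i, hi, h1, fun Q hQ => hi' Q hQ ?_⟩
    by_contra hn
    apply h1
    refine Or.inr (Set.mem_iUnion₂.2 ⟨i, hi, Q, hn, hQ⟩)
  have hun : ∀ i ∈ s, ∀ P ∈ G i, ∀ Q : PrI (E i), und F Q = P →
      Algebra.IsUnramifiedAt (𝓞 F) Q.asIdeal ∧ IsFrob F Q (1 : E i ≃ₐ[F] E i) := by
    intro i hi P hP Q hQ
    refine ⟨?_, hP.2 Q hQ⟩
    by_contra hn
    exact hP.1 (Or.inr (Set.mem_iUnion₂.2 ⟨i, hi, Q, hn, hQ⟩))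
  obtain ⟨D, hD⟩ := (DensLe.of_finite hB'fin).tsum_le
  obtain ⟨C₁, hC₁⟩ := deg_dens K F
  obtain ⟨C₂, hC₂⟩ := primeSum_asymp F
  have hsp : ∀ i, ∃ C : ℝ, i ∈ s → ∀ᶠ t in 𝓝[>] (1 : ℝ),
      Module.finrank F (E i) * ∑' q, (G i).indicator (px t) q ≤ Real.log (1 / (t - 1)) + C := by
    intro i
    by_cases hi : i ∈ s
    · obtain ⟨C, hC⟩ := split_upper (K := F) (L := E i) (G i) (hun i hi)
      exact ⟨C, fun _ => hC⟩
    · exact ⟨0, fun h => absurd h hi⟩
  choose C₃ hC₃ using hsp
  have hall : ∀ᶠ t in 𝓝[>] (1 : ℝ), ∀ i ∈ s,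
      Module.finrank F (E i) * ∑' q, (G i).indicator (px t) q ≤
        Real.log (1 / (t - 1)) + C₃ i := by
    rw [Filter.eventually_all_finset]
    exact fun i hi => hC₃ i hi
  set a : ℝ := ∑ i ∈ s, (1 / (Module.finrank F (E i) : ℝ)) with ha
  set b : ℝ := ∑ i ∈ s, (1 / (Module.finrank F (E i) : ℝ)) * C₃ i with hb
  have hs2 : ∀ᶠ t in 𝓝[>] (1 : ℝ), t < 2 :=
    mem_nhdsWithin_of_mem_nhds (Iio_mem_nhds (by norm_num))
  have hev := (Pool.Agent.STd.tendsto_log_one_div.eventually_gt_atTop
    ((D + C₁ + C₂ + b) / (1 - a))).and (hall.and (hC₂.and (hs2.and self_mem_nhdsWithin)))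
  obtain ⟨t, ht0, hta, htp, ht2, ht1⟩ := hev.exists
  have ht1' : (1 : ℝ) < t := ht1
  have hsm : ∀ T : Set (PrI F), Summable (T.indicator (px t) : PrI F → ℝ) :=
    fun T => (summable_px ht1').indicator T
  have hnn : ∀ (T : Set (PrI F)) (q : PrI F), 0 ≤ T.indicator (px t) q :=
    fun T q => Set.indicator_nonneg (fun x _ => (px_pos t x).le) q
  have hsmS : Summable fun q => ∑ i ∈ s, (G i).indicator (px t) q :=
    summable_sum fun i _ => hsm (G i)
  have e1 : primeSum F t ≤ ∑' q, B'.indicator (px t) q + ∑' q, Z.indicator (px t) q +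
      ∑ i ∈ s, ∑' q, (G i).indicator (px t) q := by
    rw [← Summable.tsum_finsetSum (fun i _ => hsm (G i)), ← (hsm _).tsum_add (hsm _),
      ← ((hsm _).add (hsm _)).tsum_add hsmS]
    apply (summable_px ht1').tsum_le_tsum _ (((hsm _).add (hsm _)).add hsmS)
    intro q
    have n1 := hnn B' q
    have n2 := hnn Z q
    have n3 : 0 ≤ ∑ i ∈ s, (G i).indicator (px t) q := Finset.sum_nonneg fun i _ => hnn (G i) q
    rcases hcover q with h1 | h1 | ⟨i, hi, h1⟩
    · rw [Set.indicator_of_mem h1]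
      linarith
    · rw [Set.indicator_of_mem h1 (f := px t)]
      linarith
    · have h4 : (G i).indicator (px t) q ≤ ∑ i ∈ s, (G i).indicator (px t) q :=
        Finset.single_le_sum (f := fun i => (G i).indicator (px t) q) (fun j _ => hnn (G j) q) hi
      rw [Set.indicator_of_mem h1] at h4
      linarith
  have e2 := hD t ht1' ht2
  rw [zero_mul, zero_add] at e2
  have e3 := hC₁ t ht1'
  have e4 : ∑ i ∈ s, ∑' q, (G i).indicator (px t) q ≤ a * Real.log (1 / (t - 1)) + b := by
    rw [ha, hb, Finset.sum_mul, ← Finset.sum_add_distrib]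
    apply Finset.sum_le_sum
    intro i hi
    have h5 := hta i hi
    have h6 : (0 : ℝ) < (Module.finrank F (E i) : ℝ) := by
      haveI : FiniteDimensional F (E i) := inferInstance
      exact_mod_cast (Module.finrank_pos : 0 < Module.finrank F (E i))
    rw [← mul_add, one_div, inv_mul_eq_div, le_div_iff₀ h6]
    linarith
  rw [abs_le] at htp
  have e5 : Real.log (1 / (t - 1)) - C₂ ≤ primeSum F t := by
    rw [log_one_div_sub]
    linarith [htp.1]
  have h1a : 0 < 1 - a := by linarith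
  rw [div_lt_iff₀ h1a] at ht0
  have e6 : Real.log (1 / (t - 1)) * (1 - a) = Real.log (1 / (t - 1)) - a * Real.log (1 / (t - 1)) := by ring
  rw [e6] at ht0
  linarith

end Pool.Agent.STr
end

section

/-!
# TASK Ba7a: `κ` as multiplicative character of `ℤ[i] / f`

PROOF. `coprime_iff`: `f ∣ Q` gives one direction (`IsCoprime.of_isCoprime_of_dvd_right`). For the other one: if `a` is coprime to `f` but not to `Q` there is a Gaussian prime `π` with `π ∣ a`, `π ∣ Q` (`isCoprime_of_prime_dvd` in the principal ideal domain `ℤ[i]`,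
`Q ≠ 0`), so `π ∣ f` (`Cd.pr`), contradiction.
`ch_congr`: if `f ∣ a - b` then `a` is coprime to `f` iff `b` is; `Cd.per`. `exists_mulChar`: `toFun r = ch Q κ (Quotient.out r)`; `ch Q κ` is multiplicative (`GC.mul`; an element coprime to `Q` is not `0`, `Q` is not a unit because `f ∣ Q` is not; a product is coprime to `Q` iff both factors are)
and `ch Q κ 1 = 1`; a class which is not a unit consists of elements not coprime to `f` (`Ideal.Quotient.mk a` is a unit iff `a` is coprime to `f`).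
`GaussianInt ⧸ Ideal.span {f}` is finite for `f ≠ 0`: `quot_finite` (every class has a representative of norm `< gN f`, `Int`-lattice; or `Ideal.finiteQuotientOfFreeOfNeBot`-like theorems: `GaussianInt` is a free `ℤ`-module of rank 2; or
divide: `gN f ∈ span {f}` and `GaussianInt ⧸ span {N}` is covered by the `N ^ 2` elements `x + y i`, `0 ≤ x, y < N`).
-/

set_option autoImplicit false

namespace Pool.Agent.STr

open Pool.Agent.STg (gN gOdd Prim)

variable {Q : ℕ} {κ : GaussianInt → GaussianIntˣ} {f : GaussianInt}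

theorem quot_finite (hf : f ≠ 0) : Finite (GaussianInt ⧸ Ideal.span {f}) := by
  let e : ℤ × ℤ ≃+ GaussianInt :=
    { toFun := fun p => ⟨p.1, p.2⟩
      invFun := fun z => (z.re, z.im)
      left_inv := fun p => rfl
      right_inv := fun z => rfl
      map_add' := fun p q => rfl }
  have h1 : Module.Free ℤ GaussianInt := Module.Free.of_equiv e.toIntLinearEquiv
  have h2 : Module.Finite ℤ GaussianInt := Module.Finite.equiv e.toIntLinearEquiv
  apply Ideal.finiteQuotientOfFreeOfNeBot
  intro h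
  exact hf (Ideal.span_singleton_eq_bot.mp h)

theorem coprime_iff (hQ : Q ≠ 0) (c : Cd Q κ f) (a : GaussianInt) :
    IsCoprime a ((Q : ℕ) : GaussianInt) ↔ IsCoprime a f := by
  constructor
  · intro h
    exact IsCoprime.of_isCoprime_of_dvd_right h c.dvd
  · intro h
    apply isCoprime_of_prime_dvd
    · rintro ⟨_, h2⟩
      exact hQ (by exact_mod_cast h2)
    · intro π hπ h1 h2
      have h3 : π ∣ f := c.pr π hπ h2
      exact hπ.not_unit (h.isUnit_of_dvd' h1 h3)

theorem ch_congr (hQ : Q ≠ 0) (c : Cd Q κ f) {a b : GaussianInt} (hab : f ∣ a - b) : ch Q κ a = ch Q κ b := by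
  have hab' : IsCoprime a f ↔ IsCoprime b f := by
    obtain ⟨k, hk⟩ := hab
    have h1 : a = b + f * k := by
      rw [← hk]
      ring
    rw [h1]
    exact IsCoprime.add_mul_left_left_iff
  by_cases h : IsCoprime a ((Q : ℕ) : GaussianInt)
  · have h2 : IsCoprime b ((Q : ℕ) : GaussianInt) :=
      (coprime_iff hQ c b).mpr (hab'.mp ((coprime_iff hQ c a).mp h))
    rw [ch_of h, ch_of h2, c.per a b h h2 hab]
  · have h2 : ¬ IsCoprime b ((Q : ℕ) : GaussianInt) := by
      intro h3
      exact h ((coprime_iff hQ c a).mpr (hab'.mpr ((coprime_iff hQ c b).mp h3)))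
    rw [ch_not h, ch_not h2]

theorem exists_mulChar (hQ : Q ≠ 0) (h : GC Q κ) (c : Cd Q κ f) :
    ∃ χ : MulChar (GaussianInt ⧸ Ideal.span {f}) ℂ, ∀ a : GaussianInt,
      χ (Ideal.Quotient.mk (Ideal.span {f}) a) = ch Q κ a := by
  classical
  have hsurj : Function.Surjective (Ideal.Quotient.mk (Ideal.span {f})) := Ideal.Quotient.mk_surjective
  let g : GaussianInt ⧸ Ideal.span {f} → ℂ := fun r => ch Q κ (Function.surjInv hsurj r)
  have hg : ∀ a : GaussianInt, g (Ideal.Quotient.mk (Ideal.span {f}) a) = ch Q κ a := by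
    intro a
    apply ch_congr hQ c
    have h1 : Ideal.Quotient.mk (Ideal.span {f}) (Function.surjInv hsurj
        (Ideal.Quotient.mk (Ideal.span {f}) a)) = Ideal.Quotient.mk (Ideal.span {f}) a :=
      Function.surjInv_eq hsurj _
    exact Ideal.mem_span_singleton.mp (Ideal.Quotient.eq.mp h1)
  have hne : ∀ a : GaussianInt, IsCoprime a ((Q : ℕ) : GaussianInt) → a ≠ 0 := by
    rintro a ha rfl
    have h1 : IsUnit ((Q : ℕ) : GaussianInt) := isCoprime_zero_left.mp ha
    exact c.nu (isUnit_of_dvd_unit c.dvd h1)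
  refine ⟨{ toFun := g, map_one' := ?_, map_mul' := ?_, map_nonunit' := ?_ }, hg⟩
  · have h1 := hg 1
    rw [map_one] at h1
    rw [h1, ch_of isCoprime_one_left, h.unit 1 isUnit_one]
    simp
  · intro r s
    obtain ⟨a, rfl⟩ := hsurj r
    obtain ⟨b, rfl⟩ := hsurj s
    rw [← map_mul, hg, hg, hg]
    by_cases ha : IsCoprime a ((Q : ℕ) : GaussianInt)
    · by_cases hb : IsCoprime b ((Q : ℕ) : GaussianInt)
      · rw [ch_of ha, ch_of hb, ch_of (ha.mul_left hb), h.mul a b (hne a ha) (hne b hb)]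
        simp
      · rw [ch_not hb, mul_zero, ch_not]
        intro h1
        exact hb (IsCoprime.mul_left_iff.mp h1).2
    · rw [ch_not ha, zero_mul, ch_not]
      intro h1
      exact ha (IsCoprime.mul_left_iff.mp h1).1
  · intro r hr
    obtain ⟨a, rfl⟩ := hsurj r
    show g (Ideal.Quotient.mk (Ideal.span {f}) a) = 0
    rw [hg]
    apply ch_not
    intro ha
    apply hr
    obtain ⟨u, v, huv⟩ := (coprime_iff hQ c a).mp ha
    have h1 : Ideal.Quotient.mk (Ideal.span {f}) a * Ideal.Quotient.mk (Ideal.span {f}) u = 1 := by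
      rw [← map_mul, ← map_one (Ideal.Quotient.mk (Ideal.span {f}))]
      apply Ideal.Quotient.eq.mpr
      apply Ideal.mem_span_singleton.mpr
      refine ⟨-v, ?_⟩
      linear_combination huv
    exact IsUnit.of_mul_eq_one _ h1

end Pool.Agent.STr
end

section

/-!
# TASK Ba7b: the additive character of `ℤ[i] / f`

PROOF. `pe_add`, `pe_int`: `exp` is additive, `exp (2 π i n) = 1`. `exists_addChar`: `toFun r = pe (out r / f)`; if `a - b = f c` then `a / f - b / f = c` is a Gaussian integer, its real part is an integer, so `pe (a / f) = pe (b / f)`.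
Primitive: `ψ.mulShift r ≠ 1` for `r = mk a ≠ 0`: if `pe (a s / f) = 1` for all Gaussian integers `s` then (`s = 1`) `Re (a / f) ∈ ℤ` (`Complex.exp_eq_one_iff`) and (`s = i`) `Re (i a / f) = - Im (a / f) ∈ ℤ`, so `a / f` is a Gaussian integer and `f ∣ a`, `r = 0`.
-/

set_option autoImplicit false

open Complex

namespace Pool.Agent.STr

variable {f : GaussianInt}

theorem pe_add (z w : ℂ) : pe (z + w) = pe z * pe w := by
  unfold pe
  rw [← Complex.exp_add, Complex.add_re]
  congr 1
  push_cast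
  ring

theorem pe_int (a : GaussianInt) : pe (a : ℂ) = 1 := by
  unfold pe
  have h : ((a : ℂ).re : ℂ) = ((a.re : ℤ) : ℂ) := by
    rw [← GaussianInt.intCast_re]
    norm_cast
  rw [h, mul_comm, Complex.exp_int_mul_two_pi_mul_I]

private lemma Ba7b_re {z : ℂ} (h : pe z = 1) : ∃ n : ℤ, z.re = n := by
  unfold pe at h
  rw [Complex.exp_eq_one_iff] at h
  obtain ⟨n, hn⟩ := h
  refine ⟨n, ?_⟩
  have h2 : (2 * Real.pi * I : ℂ) ≠ 0 := Complex.two_pi_I_ne_zero
  have h3 : (2 * Real.pi * I : ℂ) * (z.re : ℂ) = (2 * Real.pi * I : ℂ) * (n : ℂ) := by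
    rw [hn]
    ring
  have h4 : (z.re : ℂ) = (n : ℂ) := mul_left_cancel₀ h2 h3
  exact_mod_cast h4

private lemma Ba7b_congr (hf : f ≠ 0) {a b : GaussianInt}
    (h : Ideal.Quotient.mk (Ideal.span {f}) a = Ideal.Quotient.mk (Ideal.span {f}) b) :
    pe ((a : ℂ) / (f : ℂ)) = pe ((b : ℂ) / (f : ℂ)) := by
  rw [Ideal.Quotient.eq, Ideal.mem_span_singleton] at h
  obtain ⟨c, hc⟩ := h
  have hf' : (f : ℂ) ≠ 0 := by
    rw [Ne, GaussianInt.toComplex_eq_zero]
    exact hf
  have h1 : (a : ℂ) - (b : ℂ) = (f : ℂ) * (c : ℂ) := by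
    rw [← GaussianInt.toComplex_sub, hc, GaussianInt.toComplex_mul]
  have h2 : (a : ℂ) / (f : ℂ) = (b : ℂ) / (f : ℂ) + (c : ℂ) := by
    field_simp
    linear_combination h1
  rw [h2, pe_add, pe_int, mul_one]

theorem exists_addChar (hf : f ≠ 0) : ∃ ψ : AddChar (GaussianInt ⧸ Ideal.span {f}) ℂ, ψ.IsPrimitive ∧
    ∀ a : GaussianInt, ψ (Ideal.Quotient.mk (Ideal.span {f}) a) = pe ((a : ℂ) / (f : ℂ)) := by
  classical
  have hf' : (f : ℂ) ≠ 0 := by
    rw [Ne, GaussianInt.toComplex_eq_zero]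
    exact hf
  have hsur : Function.Surjective (Ideal.Quotient.mk (Ideal.span {f})) :=
    Ideal.Quotient.mk_surjective
  let out : (GaussianInt ⧸ Ideal.span {f}) → GaussianInt := fun r => (hsur r).choose
  have hout : ∀ r, Ideal.Quotient.mk (Ideal.span {f}) (out r) = r := fun r => (hsur r).choose_spec
  have hval : ∀ a : GaussianInt, pe ((out (Ideal.Quotient.mk (Ideal.span {f}) a) : ℂ) / (f : ℂ)) =
      pe ((a : ℂ) / (f : ℂ)) := fun a => Ba7b_congr hf (hout _)
  let ψ : AddChar (GaussianInt ⧸ Ideal.span {f}) ℂ :=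
    { toFun := fun r => pe ((out r : ℂ) / (f : ℂ))
      map_zero_eq_one' := by
        have h := hval 0
        rw [map_zero] at h
        rw [h, GaussianInt.toComplex_zero, zero_div]
        have h2 := pe_int (0 : GaussianInt)
        rwa [GaussianInt.toComplex_zero] at h2
      map_add_eq_mul' := by
        intro r s
        obtain ⟨a, rfl⟩ := hsur r
        obtain ⟨b, rfl⟩ := hsur s
        rw [← map_add, hval, hval, hval, GaussianInt.toComplex_add, add_div, pe_add] }
  have hψ : ∀ a : GaussianInt, ψ (Ideal.Quotient.mk (Ideal.span {f}) a) =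
      pe ((a : ℂ) / (f : ℂ)) := fun a => hval a
  refine ⟨ψ, ?_, hψ⟩
  intro r hr hcon
  obtain ⟨a, rfl⟩ := hsur r
  have key : ∀ s : GaussianInt, pe (((a * s : GaussianInt) : ℂ) / (f : ℂ)) = 1 := by
    intro s
    rw [← hψ, map_mul]
    have h := DFunLike.congr_fun hcon (Ideal.Quotient.mk (Ideal.span {f}) s)
    rw [AddChar.mulShift_apply, AddChar.one_apply] at h
    exact h
  obtain ⟨m, hm⟩ := Ba7b_re (key 1)
  obtain ⟨n, hn⟩ := Ba7b_re (key ⟨0, 1⟩)
  rw [mul_one] at hm
  have hI : (((⟨0, 1⟩ : GaussianInt)) : ℂ) = I := by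
    rw [GaussianInt.toComplex_def']
    simp
  have hn2 : -((a : ℂ) / (f : ℂ)).im = n := by
    rw [← hn, GaussianInt.toComplex_mul, hI, mul_div_right_comm, Complex.mul_re, Complex.I_re,
      Complex.I_im]
    ring
  have h5 : (a : ℂ) / (f : ℂ) = ((⟨m, -n⟩ : GaussianInt) : ℂ) := by
    have h6 : ((a : ℂ) / (f : ℂ)).im = -(n : ℝ) := by linarith
    apply Complex.ext
    · rw [hm, GaussianInt.re_toComplex]
    · rw [h6, GaussianInt.im_toComplex]
      push_cast
      rfl
  have h7 : (a : ℂ) = (((f * ⟨m, -n⟩ : GaussianInt)) : ℂ) := by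
    rw [GaussianInt.toComplex_mul, ← h5]
    field_simp
  have h8 : a = f * ⟨m, -n⟩ := GaussianInt.toComplex_inj.1 h7
  apply hr
  rw [Ideal.Quotient.eq_zero_iff_mem, Ideal.mem_span_singleton]
  exact ⟨_, h8⟩

end Pool.Agent.STr
end

section

/-!
# TASK Bb5: a lower bound for the prime sum of `κ`

PROOF. Let `M = K⟮se a⟯`, a number field, finite over `K` (`ab_se` in `MP_1ef7cf_nt_h/F08.lean`) of degree `≤ 2` (`se a ^ 2 = a`: `D.se_sq`). Let `B` be the finite set of the primes `q` of `K` dividing `m`. For `q ∉ B`: `2 ∉ q` and `a ∉ q` (`hab`), `chiK a m q = chiP a q = ± 1`.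
(1) If `chiK a m q = -1` and `P` is a prime of `M` over `q` then `pn P ≠ pn q`: otherwise `𝓞 K / q → 𝓞 M / P` is surjective, so `√a ≡ b mod P` with `b ∈ 𝓞 K`, `a ≡ b ^ 2 mod q` (`P ∩ 𝓞 K = q`), and `a` would be a square modulo `q`.
(2) By `deg_dens` (D1a) the sum of `px s P` over the `P` with `pn P ≠ pn (und K P)` is bounded by `C₁`. The number of `P` over `q` is at most `[M : K] ≤ 2`, and `pn P ≥ pn q`; so the sum over the `P` over the `q` with `chiK = 1` is at most `2 ∑ (q : chiK = 1) px s q` (cf. `sum_und_le`, `le_primeSum_of` in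
`MP_1ef7cf_nt/Dens.lean`, `Uniform.lean`), and the primes over `B` are finitely many. So `primeSum M s ≤ 2 ∑ (q : chiK = 1) px s q + C₂`.
(3) `primeSum_asymp` (`MP_1ef7cf_nt/PrimeSum2.lean`) for `M` and for `K`: `∑ q, chiK q px s q ≥ 2 ∑ (q : chiK = 1) px s q - primeSum K s ≥ (primeSum M s - C₂) - primeSum K s ≥ -C` for `s → 1+`.
-/

set_option autoImplicit false

open NumberField IsDedekindDomain nonZeroDivisors IntermediateField Filter Topology

namespace Pool.Agent.STr

open Pool.Agent.ST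
open Pool.Agent.STh.F (FD se chiI chiK)

theorem Bb5_surj {K : Type*} {E : Type*} [Field K] [NumberField K] [Field E] [NumberField E] [Algebra K E]
    (P : PrI E) (h : pn P = pn (und K P)) (x : 𝓞 E) :
    ∃ b : 𝓞 K, algebraMap (𝓞 K) (𝓞 E) b - x ∈ P.asIdeal := by
  have : Finite (𝓞 E ⧸ P.asIdeal) := Ideal.finiteQuotientOfFreeOfNeBot P.asIdeal P.ne_bot
  let f : (𝓞 K ⧸ (und K P).asIdeal) →+* (𝓞 E ⧸ P.asIdeal) :=
    Ideal.quotientMap P.asIdeal (algebraMap (𝓞 K) (𝓞 E)) le_rfl
  have hf : Function.Injective f := Ideal.quotientMap_injective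
  have hb : Function.Bijective f := by
    apply hf.bijective_of_nat_card_le
    have e1 : Nat.card (𝓞 E ⧸ P.asIdeal) = pn P := by
      unfold pn
      rw [Ideal.absNorm_apply, Submodule.cardQuot_apply]
    have e2 : Nat.card (𝓞 K ⧸ (und K P).asIdeal) = pn (und K P) := by
      unfold pn
      rw [Ideal.absNorm_apply, Submodule.cardQuot_apply]
    rw [e1, e2, h]
  obtain ⟨y, hy⟩ := hb.2 (Ideal.Quotient.mk _ x)
  obtain ⟨b, rfl⟩ := Ideal.Quotient.mk_surjective y
  refine ⟨b, ?_⟩
  rw [← Ideal.Quotient.eq]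
  exact hy

theorem Bb5_sq {K : Type*} {E : Type*} [Field K] [NumberField K] [Field E] [NumberField E] [Algebra K E]
    (P : PrI E) (h : pn P = pn (und K P)) {a : 𝓞 K} {x : 𝓞 E} (hx : x ^ 2 = algebraMap (𝓞 K) (𝓞 E) a) :
    IsSquare (Ideal.Quotient.mk (und K P).asIdeal a) := by
  obtain ⟨b, hb⟩ := Bb5_surj P h x
  refine ⟨Ideal.Quotient.mk _ b, ?_⟩
  rw [← map_mul, Ideal.Quotient.eq]
  change algebraMap (𝓞 K) (𝓞 E) (a - b * b) ∈ P.asIdeal
  have : algebraMap (𝓞 K) (𝓞 E) (a - b * b) =
      -(algebraMap (𝓞 K) (𝓞 E) b + x) * (algebraMap (𝓞 K) (𝓞 E) b - x) := by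
    rw [map_sub, map_mul, ← hx]; ring
  rw [this]
  exact Ideal.mul_mem_left _ _ hb

variable {K : Type*} [Field K] [NumberField K] [Algebra K ℝ] {σ₂ : K →+* ℝ} {m : Ideal (𝓞 K)} {d : ℕ} {a : 𝓞 K}

theorem Bb5_chiK (a : 𝓞 K) (m : Ideal (𝓞 K)) (P : PrI K) (h : ¬ P.asIdeal ∣ m) :
    chiK a m P.asIdeal = STh.F.chiP a P.asIdeal := by
  have : IsCoprime P.asIdeal m := coprime_prime_iff.2 h
  rw [STh.F.chiK_of P.ne_bot this, STh.F.chiI_prime]

theorem Bb5_finrank (D : FD σ₂ d a) : Module.finrank K K⟮se a⟯ ≤ 2 := by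
  have hse : se a ^ 2 = algebraMap K ℝ (a : K) := D.se_sq
  have hint : IsIntegral K (se a) := by
    apply IsIntegral.of_pow (n := 2) (by norm_num)
    rw [hse]
    exact isIntegral_algebraMap
  rw [IntermediateField.adjoin.finrank hint]
  have h1 : minpoly K (se a) ∣ Polynomial.X ^ 2 - Polynomial.C (a : K) := by
    apply minpoly.dvd
    simp [hse]
  have h2 : (Polynomial.X ^ 2 - Polynomial.C (a : K)) ≠ 0 := Polynomial.X_pow_sub_C_ne_zero (by norm_num) _
  have h3 := Polynomial.natDegree_le_of_dvd h1 h2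
  rwa [Polynomial.natDegree_X_pow_sub_C] at h3

theorem chi_sum_lower (D : FD σ₂ d a) (hm : m ≠ ⊥)
    (hab : ∀ v : PrI K, (2 * d : 𝓞 K) ∈ v.asIdeal → v.asIdeal ∣ m) :
    ∃ C : ℝ, ∀ᶠ s in 𝓝[>] (1 : ℝ), -C ≤ ∑' P : PrI K, ((chiK a m P.asIdeal : ℤ) : ℝ) * px s P := by
  have hfd := (STh.F.ab_se a).1
  have hgal := (STh.F.ab_se a).2
  have hE := numberField_of_fd K⟮se a⟯
  have hse : se a ^ 2 = algebraMap K ℝ (a : K) := D.se_sq
  -- the square root of `a` in the ring of integers
  obtain ⟨x, hx⟩ : ∃ x : 𝓞 K⟮se a⟯, x ^ 2 = algebraMap (𝓞 K) (𝓞 K⟮se a⟯) a := by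
    have hmem : se a ∈ K⟮se a⟯ := mem_adjoin_simple_self K (se a)
    have e1 : (⟨se a, hmem⟩ : K⟮se a⟯) ^ 2 = algebraMap K K⟮se a⟯ (a : K) := by
      apply Subtype.ext
      exact hse
    have hi : IsIntegral ℤ (⟨se a, hmem⟩ : K⟮se a⟯) := by
      apply IsIntegral.of_pow (n := 2) (by norm_num)
      rw [e1]
      exact (RingOfIntegers.isIntegral_coe a).algebraMap
    refine ⟨⟨_, hi⟩, ?_⟩
    apply RingOfIntegers.ext
    exact e1
  set B' : Set (PrI K) := {q | q.asIdeal ∣ m} with hB'
  have hB'f : B'.Finite := Ideal.finite_factors hm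
  set T : Set (PrI K) := {q | chiK a m q.asIdeal = 1} with hT
  have hsumB : ∀ s : ℝ, 1 < s → Summable (B'.indicator (px s) : PrI K → ℝ) :=
    fun s hs => (summable_px hs).indicator B'
  have hsumT : ∀ s : ℝ, 1 < s → Summable (T.indicator (px s) : PrI K → ℝ) :=
    fun s hs => (summable_px hs).indicator T
  set g : ℝ → PrI K → ℝ := fun s p => T.indicator (px s) p + px 2 p + B'.indicator (px s) p
    with hg
  have hg0 : ∀ s p, 0 ≤ g s p := by
    intro s p
    have h1 : 0 ≤ T.indicator (px s) p := Set.indicator_nonneg (fun x _ => (px_pos s x).le) p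
    have h2 : (0 : ℝ) ≤ B'.indicator (px s) p :=
      Set.indicator_nonneg (fun x _ => (px_pos s x).le) p
    have h3 := (px_pos 2 p).le
    simp only [hg]
    linarith
  have hgs : ∀ s : ℝ, 1 < s → Summable (g s) := fun s hs =>
    ((hsumT s hs).add (summable_px one_lt_two)).add (hsumB s hs)
  have claim2 : ∀ s : ℝ, 1 < s → ∀ q : PrI K⟮se a⟯, px s q ≤ g s (und K q) := by
    intro s hs q
    have h1 : 0 ≤ T.indicator (px s) (und K q) :=
      Set.indicator_nonneg (fun x _ => (px_pos s x).le) _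
    have h2 : (0 : ℝ) ≤ B'.indicator (px s) (und K q) :=
      Set.indicator_nonneg (fun x _ => (px_pos s x).le) _
    have h3 := (px_pos 2 (und K q)).le
    simp only [hg]
    by_cases hb : und K q ∈ B'
    · have h4 : px s q ≤ px s (und K q) := by
        have h7 := two_le_pn (und K q)
        have h8 : (2 : ℝ) ≤ (pn (und K q) : ℝ) := by exact_mod_cast h7
        have h9 : (pn (und K q) : ℝ) ≤ (pn q : ℝ) := by exact_mod_cast pn_und_le K q
        unfold px
        apply Real.rpow_le_rpow_of_nonpos (by positivity) h9 (by linarith)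
      rw [Set.indicator_of_mem hb]
      linarith
    · by_cases hq : pn q = pn (und K q)
      · have h5 : und K q ∈ T := by
          change chiK a m (und K q).asIdeal = 1
          rw [Bb5_chiK a m _ hb]
          unfold STh.F.chiP
          rw [if_pos (Bb5_sq q hq hx)]
        rw [Set.indicator_of_mem h5]
        have h6 : px s q = px s (und K q) := by rw [px, px, hq]
        linarith
      · have h5 := pn_sq_le K hq
        have h6 : px s q ≤ px 2 (und K q) := by
          have h7 := two_le_pn (und K q)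
          have h8 : (2 : ℝ) ≤ (pn (und K q) : ℝ) := by exact_mod_cast h7
          have h9 : ((pn (und K q) : ℝ)) ^ 2 ≤ (pn q : ℝ) := by exact_mod_cast h5
          unfold px
          calc (pn q : ℝ) ^ (-s) ≤ ((pn (und K q) : ℝ) ^ 2) ^ (-s) := by
                apply Real.rpow_le_rpow_of_nonpos (by positivity) h9 (by linarith)
            _ = (pn (und K q) : ℝ) ^ (-(2 * s)) := by
                rw [← Real.rpow_natCast, ← Real.rpow_mul (by positivity)]
                congr 1
                push_cast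
                ring
            _ ≤ (pn (und K q) : ℝ) ^ (-2 : ℝ) := by
                apply Real.rpow_le_rpow_of_exponent_le (by linarith) (by linarith)
        linarith
  have up : ∀ s : ℝ, 1 < s → primeSum K⟮se a⟯ s ≤ Module.finrank K K⟮se a⟯ *
      (∑' p, T.indicator (px s) p + primeSum K 2 + ∑' p, B'.indicator (px s) p) := by
    intro s hs
    have h1 := primeSum_le_of K (E := K⟮se a⟯) (g s) (hg0 s) (hgs s hs) (claim2 s hs)
    have h2 : ∑' p, g s p = ∑' p, T.indicator (px s) p + primeSum K 2 +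
        ∑' p, B'.indicator (px s) p := by
      simp only [hg]
      rw [((hsumT s hs).add (summable_px one_lt_two)).tsum_add (hsumB s hs),
        (hsumT s hs).tsum_add (summable_px one_lt_two)]
      rfl
    rwa [h2] at h1
  obtain ⟨CE, hCE⟩ := primeSum_asymp K⟮se a⟯
  obtain ⟨CK, hCK⟩ := primeSum_asymp K
  obtain ⟨Cβ, hCβ⟩ := (DensLe.of_finite hB'f).tsum_le
  have hdeg : (Module.finrank K K⟮se a⟯ : ℝ) ≤ 2 := by exact_mod_cast Bb5_finrank D
  have hs2 : ∀ᶠ s in 𝓝[>] (1 : ℝ), s < 2 :=
    mem_nhdsWithin_of_mem_nhds (Iio_mem_nhds (by norm_num))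
  refine ⟨CE + CK + 2 * primeSum K 2 + 2 * Cβ, ?_⟩
  filter_upwards [hs2, hCE, hCK, self_mem_nhdsWithin] with s h1 h2 h3 h4
  have hs1 : (1 : ℝ) < s := h4
  have e1 := up s hs1
  have e2 := hCβ s hs1 h1
  rw [zero_mul, zero_add] at e2
  rw [abs_le] at h2 h3
  set S : ℝ := ∑' p, T.indicator (px s) p with hS
  have hS0 : 0 ≤ S := tsum_nonneg fun p => Set.indicator_nonneg (fun x _ => (px_pos s x).le) p
  have hB0 : 0 ≤ ∑' p, B'.indicator (px s) p :=
    tsum_nonneg fun p => Set.indicator_nonneg (fun x _ => (px_pos s x).le) p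
  have hK0 : 0 ≤ primeSum K 2 := tsum_nonneg fun p => (px_pos 2 p).le
  have e3 : (Module.finrank K K⟮se a⟯ : ℝ) * (S + primeSum K 2 + ∑' p, B'.indicator (px s) p) ≤
      2 * (S + primeSum K 2 + ∑' p, B'.indicator (px s) p) :=
    mul_le_mul_of_nonneg_right hdeg (by positivity)
  -- the sum of `chiK`
  have hk : ∀ q : PrI K, (q.asIdeal ∣ m ∧ chiK a m q.asIdeal = 0) ∨ chiK a m q.asIdeal = 1 ∨
      chiK a m q.asIdeal = -1 := by
    intro q
    by_cases hq : q.asIdeal ∣ m
    · refine Or.inl ⟨hq, STh.F.chiK_of_not fun h => ?_⟩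
      exact coprime_prime_iff.1 h.2 hq
    · right
      rw [Bb5_chiK a m q hq]
      exact STh.F.chiP_sq a _
  have hsumK : Summable fun q : PrI K => ((chiK a m q.asIdeal : ℤ) : ℝ) * px s q := by
    refine Summable.of_norm_bounded (summable_px hs1) fun q => ?_
    rw [norm_mul, Real.norm_eq_abs, Real.norm_eq_abs, abs_of_pos (px_pos s q)]
    have : |((chiK a m q.asIdeal : ℤ) : ℝ)| ≤ 1 := by
      rcases hk q with ⟨-, h⟩ | h | h <;> rw [h] <;> simp
    have h5 := (px_pos s q).le
    nlinarith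
  have e4 : 2 * S - primeSum K s ≤ ∑' q : PrI K, ((chiK a m q.asIdeal : ℤ) : ℝ) * px s q := by
    have h5 : 2 * S - primeSum K s = ∑' q : PrI K, (2 * T.indicator (px s) q - px s q) := by
      rw [((hsumT s hs1).mul_left 2).tsum_sub (summable_px hs1), tsum_mul_left]
      rfl
    rw [h5]
    refine (((hsumT s hs1).mul_left 2).sub (summable_px hs1)).tsum_le_tsum (fun q => ?_) hsumK
    have h6 := (px_pos s q).le
    rcases hk q with ⟨-, h⟩ | h | h
    · have : q ∉ T := by
        change ¬ chiK a m q.asIdeal = 1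
        rw [h]; norm_num
      rw [Set.indicator_of_notMem this, h]
      push_cast
      linarith
    · have : q ∈ T := h
      rw [Set.indicator_of_mem this, h]
      push_cast
      linarith
    · have : q ∉ T := by
        change ¬ chiK a m q.asIdeal = 1
        rw [h]; norm_num
      rw [Set.indicator_of_notMem this, h]
      push_cast
      linarith
  linarith [h2.1, h3.2]

end Pool.Agent.STr
end
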