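import Pool.Agent.Lib.MP_1ef7cf_nt_r.Df
import Pool.Agent.Lib.MP_1ef7cf_nt_c.Mg.G007

section

/-!
# TASK E1: units which are powers modulo the units of `K`

PROOF. `finite_pow`: let `w ∈ H` be a unit, `w > 0`, `w ≠ 1`. If `w = z ^ l` with `z ∈ H`, `l` an odd prime, then `z` is an algebraic integer and all its
conjugates (embeddings `H → ℂ`) have absolute value `≤ max 1 (max of the absolute values of the conjugates of w) =: b`. There are only finitely many such `z`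
(`NumberField.Embeddings.finite_of_norm_le`). `z > 0` (if `z ≤ 0`: `z ^ l ≤ 0`). If there were infinitely many such primes `l`, two different ones
`l < l'` would have the same `z`: `z ^ l = z ^ l'`, `z ^ (l' - l) = 1`, `z = 1`, `w = 1`.
`not_pow`: let `l > N₀` be a prime not dividing `[H : K]`, and suppose `w = e ^ k z ^ l`, `e = ε₀`, `z ∈ H`. Taking the product over the conjugates (`hN`):
`1 = e ^ (k [H : K]) * x ^ l` with `x = ∏ g, act g z ∈ K` (fixed by the group). `x` is integral together with its inverse (`x ^ l` is a unit of `K`): `x = ± e ^ s`, so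
`e ^ (k [H : K] + s l) = ±1` and by `hε₁` `k [H : K] = - s l`. So `l ∣ k`, `k = l k'`, `w = (e ^ k' z) ^ l` with `e ^ k' z ∈ H`, contradiction to
`finite_pow` if `l > N₀` (take `N₀ ≥ 2`, `≥ [H : K]`, and `≥` all primes of `finite_pow`).
-/

set_option autoImplicit false

open NumberField IsDedekindDomain nonZeroDivisors IntermediateField

namespace Pool.Agent.STr

open Pool.Agent.ST
open Pool.Agent.STc (IsInt rd IsUn)

variable {K : Type*} [Field K] [NumberField K] [Algebra K ℝ] {H : IntermediateField K ℝ}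

private theorem E1_cop {l d : ℕ} (hl : l.Prime) (hd : 0 < d) (h : d < l) : l.Coprime d :=
  (Nat.Prime.coprime_iff_not_dvd hl).2 fun h1 => absurd (Nat.le_of_dvd hd h1) (not_le.2 h)

theorem finite_pow [FiniteDimensional K H] {w : ℝ} (hw : IsUn H w) (h0 : 0 < w) (h1 : w ≠ 1) :
    ∃ N₀ : ℕ, ∀ l : ℕ, l.Prime → N₀ < l → ∀ z ∈ H, w ≠ z ^ l := by
  classical
  have : NumberField H := numberField_of_fd H
  obtain ⟨W, hW⟩ : ∃ W : H, W = ⟨w, hw.int.1⟩ := ⟨_, rfl⟩
  obtain ⟨B, hB1, hB⟩ : ∃ B : ℝ, 1 ≤ B ∧ ∀ φ : H →+* ℂ, ‖φ W‖ ≤ B := by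
    have hf : (Set.range fun φ : H →+* ℂ => ‖φ W‖).Finite := Set.finite_range _
    obtain ⟨b, hb⟩ := hf.bddAbove
    exact ⟨max 1 b, le_max_left _ _, fun φ => (hb ⟨φ, rfl⟩).trans (le_max_right _ _)⟩
  have hfin := NumberField.Embeddings.finite_of_norm_le H ℂ B
  by_contra hcon
  push Not at hcon
  obtain ⟨T, hT⟩ : ∃ T : Set ℕ, T = {l : ℕ | l.Prime ∧ ∃ z : H, W = z ^ l} := ⟨_, rfl⟩
  have hTinf : T.Infinite := by
    refine Set.infinite_of_forall_exists_gt fun N => ?_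
    obtain ⟨l, hl, hNl, z, hz, hwz⟩ := hcon N
    refine ⟨l, ?_, hNl⟩
    rw [hT]
    exact ⟨hl, ⟨z, hz⟩, by rw [hW]; exact Subtype.ext hwz⟩
  obtain ⟨F, hF⟩ : ∃ F : ℕ → H, F = fun l => if h : ∃ z : H, W = z ^ l then h.choose else 0 :=
    ⟨_, rfl⟩
  have hFl : ∀ l ∈ T, W = F l ^ l := by
    intro l hl
    rw [hT] at hl
    have h2 : F l = hl.2.choose := by rw [hF]; exact dif_pos hl.2
    rw [h2]
    exact hl.2.choose_spec
  have hmaps : Set.MapsTo F T {x : H | IsIntegral ℤ x ∧ ∀ φ : H →+* ℂ, ‖φ x‖ ≤ B} := by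
    intro l hl
    have h2 := hFl l hl
    rw [hT] at hl
    have hl0 : l ≠ 0 := hl.1.ne_zero
    refine ⟨IsIntegral.of_pow (Nat.pos_of_ne_zero hl0) ?_, fun φ => ?_⟩
    · rw [← h2, hW]
      exact hw.int.isIntegral'
    · by_contra h3
      have h3' := not_le.mp h3
      have h4 : ‖φ (F l)‖ ≤ ‖φ (F l)‖ ^ l := le_self_pow₀ (hB1.trans h3'.le) hl0
      rw [← norm_pow, ← map_pow, ← h2] at h4
      linarith [hB φ]
  obtain ⟨x, hx, y, hy, hxy, hFxy⟩ := hTinf.exists_ne_map_eq_of_mapsTo hmaps hfin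
  have h2 : w = ((F x : H) : ℝ) ^ x := by
    have := congrArg (fun t : H => (t : ℝ)) (hFl x hx)
    rw [hW] at this
    simpa using this
  have h3 : w = ((F x : H) : ℝ) ^ y := by
    have := congrArg (fun t : H => (t : ℝ)) (hFl y hy)
    rw [hW, ← hFxy] at this
    simpa using this
  have h4 : |((F x : H) : ℝ)| ^ x = w := by
    rw [← abs_pow, ← h2, abs_of_pos h0]
  have h5 : |((F x : H) : ℝ)| ^ y = w := by
    rw [← abs_pow, ← h3, abs_of_pos h0]
  have hx0 : x ≠ 0 := by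
    rw [hT] at hx
    exact hx.1.ne_zero
  have h6 : 0 < |((F x : H) : ℝ)| := by
    rcases (abs_nonneg ((F x : H) : ℝ)).lt_or_eq with h7 | h7
    · exact h7
    · rw [← h7, zero_pow hx0] at h4
      exact absurd h4 h0.ne
  by_cases h7 : |((F x : H) : ℝ)| = 1
  · rw [h7, one_pow] at h4
    exact h1 h4.symm
  · exact hxy (pow_right_injective₀ h6 h7 (h4.trans h5.symm))

theorem not_pow [FiniteDimensional K H] [IsGalois K H] {ε₀ : (𝓞 K)ˣ}
    (hε₀ : ∀ w : (𝓞 K)ˣ, ∃ k : ℤ, w = ε₀ ^ k ∨ w = -ε₀ ^ k)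
    (hε₁ : ∀ k : ℤ, (ε₀ ^ k = 1 ∨ ε₀ ^ k = -1) → k = 0) {w : ℝ} (hw : IsUn H w) (h0 : 0 < w) (h1 : w ≠ 1)
    (hN : ∏ g : H ≃ₐ[K] H, act g w = 1) :
    ∃ N₀ : ℕ, ∀ l : ℕ, l.Prime → N₀ < l → ∀ (k : ℤ), ∀ z ∈ H, w ≠ algebraMap K ℝ ((ε₀ : 𝓞 K) : K) ^ k * z ^ l := by
  classical
  obtain ⟨N₁, hN₁⟩ := finite_pow hw h0 h1
  refine ⟨max N₁ (Fintype.card (H ≃ₐ[K] H)), fun l hl hlN k z hz hwz => ?_⟩
  have hl1 : N₁ < l := (le_max_left _ _).trans_lt hlN
  have hl2 : Fintype.card (H ≃ₐ[K] H) < l := (le_max_right _ _).trans_lt hlN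
  obtain ⟨e, he⟩ : ∃ e : K, e = ((ε₀ : 𝓞 K) : K) := ⟨_, rfl⟩
  have he0 : e ≠ 0 := by
    rw [he]
    exact RingOfIntegers.coe_ne_zero_iff.2 ε₀.ne_zero
  rw [← he] at hwz
  have hact : ∀ g : H ≃ₐ[K] H, act g w = algebraMap K ℝ (e ^ k) * act g z ^ l := by
    intro g
    rw [hwz, ← map_zpow₀, act_mul g (H.algebraMap_mem _) (pow_mem hz l), act_algebraMap,
      act_pow g hz]
  obtain ⟨x, hx⟩ : ∃ x : ℝ, x = ∏ g : H ≃ₐ[K] H, act g z := ⟨_, rfl⟩
  obtain ⟨d, hd⟩ : ∃ d : ℕ, d = Fintype.card (H ≃ₐ[K] H) := ⟨_, rfl⟩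
  have hd0 : 0 < d := by rw [hd]; exact Fintype.card_pos
  have hprod : algebraMap K ℝ (e ^ k) ^ d * x ^ l = 1 := by
    rw [← hN, Finset.prod_congr rfl fun g _ => hact g, Finset.prod_mul_distrib, Finset.prod_const,
      Finset.prod_pow, Finset.card_univ, hx, hd]
  have hxH : x ∈ H := by
    rw [hx]
    exact prod_mem fun g _ => act_mem g hz
  have hxK : x ∈ (⊥ : IntermediateField K ℝ) := by
    refine mem_of_fixed bot_le hxH fun γ _ => ?_
    rw [hx, act_prod γ _ _ fun g _ => act_mem g hz]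
    refine Fintype.prod_equiv (Equiv.mulLeft γ) _ _ fun g => ?_
    rw [Equiv.coe_mulLeft, act_comp γ g hz]
  rw [IntermediateField.mem_bot] at hxK
  obtain ⟨a, ha⟩ := hxK
  have hK : (e ^ k) ^ d * a ^ l = 1 := by
    apply (algebraMap K ℝ).injective
    rw [map_mul, map_pow, map_pow, ha, map_one]
    exact hprod
  have hl0 : l ≠ 0 := hl.ne_zero
  have heu : ∀ j : ℤ, e ^ j = (((ε₀ ^ j : (𝓞 K)ˣ) : 𝓞 K) : K) := by
    intro j
    rw [he]
    exact (NumberField.Units.coe_zpow ε₀ j).symm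
  have h2 : a ^ l = (((ε₀ ^ (-(k * d)) : (𝓞 K)ˣ) : 𝓞 K) : K) := by
    rw [← heu, zpow_neg, zpow_mul, zpow_natCast]
    exact eq_inv_of_mul_eq_one_right hK
  have haint : IsIntegral ℤ a :=
    IsIntegral.of_pow (Nat.pos_of_ne_zero hl0) (by rw [h2]; exact RingOfIntegers.isIntegral_coe _)
  obtain ⟨α, hα⟩ : ∃ α : 𝓞 K, (α : K) = a := ⟨⟨a, haint⟩, rfl⟩
  have h3 : α ^ l = ((ε₀ ^ (-(k * d)) : (𝓞 K)ˣ) : 𝓞 K) := by
    apply RingOfIntegers.ext
    rw [← h2, ← hα]
    exact map_pow (algebraMap (𝓞 K) K) α l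
  have h4 : IsUnit α := by
    rw [← isUnit_pow_iff hl0, h3]
    exact Units.isUnit _
  obtain ⟨u, hu⟩ := h4
  have h5 : u ^ l = ε₀ ^ (-(k * d)) := by
    apply Units.ext
    rw [Units.val_pow_eq_pow_val, hu, h3]
  have h6 : ∃ s : ℤ, s * l + k * d = 0 := by
    obtain ⟨s, hs⟩ := hε₀ u
    refine ⟨s, hε₁ _ ?_⟩
    have h7 : ε₀ ^ (s * l + k * d) = ε₀ ^ (s * (l : ℤ)) * (u ^ l)⁻¹ := by
      rw [h5, zpow_add, ← zpow_neg, neg_neg]
    have h8 : ε₀ ^ (s * (l : ℤ)) = (ε₀ ^ s) ^ l := by rw [zpow_mul, zpow_natCast]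
    rcases hs with hs | hs
    · left
      rw [h7, h8, hs, mul_inv_cancel]
    · rw [h7, h8, hs, neg_pow]
      rcases neg_one_pow_eq_or (𝓞 K)ˣ l with h9 | h9
      · left
        rw [h9, one_mul, mul_inv_cancel]
      · right
        rw [h9, neg_one_mul, inv_neg, mul_neg, mul_inv_cancel]
  obtain ⟨s, hs⟩ := h6
  have h7 : (l : ℤ) ∣ k * d := ⟨-s, by linarith⟩
  have h8 : IsCoprime (l : ℤ) (d : ℤ) := by
    rw [Nat.isCoprime_iff_coprime]
    exact E1_cop hl hd0 (by rw [hd]; exact hl2)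
  obtain ⟨k', hk'⟩ := h8.dvd_of_dvd_mul_right h7
  refine hN₁ l hl hl1 (algebraMap K ℝ e ^ k' * z)
    (mul_mem (zpow_mem (H.algebraMap_mem e) k') hz) ?_
  rw [hwz, mul_pow, hk', mul_comm (l : ℤ) k', zpow_mul, zpow_natCast]

end Pool.Agent.STr
end

section

/-!
# TASK D2a: Kummer extensions and Frobenius elements

PROOF of `kummer_frob`. `σ y / y` is an `l`-th root of unity `ζ ^ j` (`y ≠ 0` as `w ∉ P = und F Q`). `y` is integral (`y ^ l` is), let `y' ∈ 𝓞 E`; `σ y' ≡ y' ^ (pn P) =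
y' * (w) ^ ((pn P - 1) / l) ≡ y' mod Q` (`IsFrob`, and the hypothesis `hc`, an element of `P` is in `Q`). So `(ζ ^ j - 1) y' ∈ Q`, `y' ∉ Q` (since `w ∉ P`), so `ζ ^ j ≡ 1 mod Q`. If
`l ∤ j`: `ζ ^ j` is a primitive `l`-th root of unity, and `1 - ζ ^ j` divides `l` (`l = ∏_{0<i<l} (1 - ζ^i)`, or the template `eq_one_of_sub_one_mem` in RED), so `l ∈ Q`,
contradiction. So `σ y = y`, `σ = 1` since `y` generates.
`kummer_degree`: `X ^ l - w` is irreducible over `F` (`X_pow_sub_C_irreducible_iff_of_prime`), it is the minimal polynomial of `y`, `adjoin F {y} = ⊤`.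
(This file: kummer_frob.)
-/

set_option autoImplicit false

open NumberField IsDedekindDomain nonZeroDivisors

namespace Pool.Agent.STr

open Pool.Agent.ST

variable {F E : Type*} [Field F] [NumberField F] [Field E] [NumberField E] [Algebra F E]

theorem kummer_frob {l : ℕ} (hl : l.Prime) {ζ : F} (hζ : IsPrimitiveRoot ζ l) {w : 𝓞 F} {y : E}
    (hy : y ^ l = algebraMap F E (w : F)) (htop : IntermediateField.adjoin F {y} = ⊤) {Q : PrI E}
    (hlQ : (l : 𝓞 F) ∉ (und F Q).asIdeal) (hwQ : w ∉ (und F Q).asIdeal) (hd : l ∣ pn (und F Q) - 1)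
    (hc : (Ideal.Quotient.mk (und F Q).asIdeal w) ^ ((pn (und F Q) - 1) / l) = 1) {σ : E ≃ₐ[F] E}
    (hσ : IsFrob F Q σ) : σ = 1 := by
  have _ := hζ
  obtain ⟨s, hs⟩ := hd
  rw [hs, Nat.mul_div_cancel_left s hl.pos] at hc
  have hlQ' : (l : 𝓞 E) ∉ Q.asIdeal := by
    intro h
    apply hlQ
    rw [Pool.Agent.STd.mem_und, map_natCast]
    exact h
  have hint : IsIntegral ℤ y := by
    apply IsIntegral.of_pow (n := l) hl.pos
    rw [hy]
    exact (RingOfIntegers.isIntegral_coe w).map (algebraMap F E).toIntAlgHom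
  obtain ⟨y, rfl⟩ : ∃ y' : 𝓞 E, algebraMap (𝓞 E) E y' = y := ⟨⟨y, hint⟩, rfl⟩
  have hy' : y ^ l = algebraMap (𝓞 F) (𝓞 E) w := by
    apply RingOfIntegers.coe_injective
    rw [map_pow, hy]
    rfl
  have hyQ : y ∉ Q.asIdeal := by
    intro h
    apply hwQ
    rw [Pool.Agent.STd.mem_und, ← hy']
    exact Q.asIdeal.pow_mem_of_mem h _ hl.pos
  have hcQ : (algebraMap (𝓞 F) (𝓞 E) w) ^ s - 1 ∈ Q.asIdeal := by
    rw [← map_pow, ← map_one (Ideal.Quotient.mk _), Ideal.Quotient.eq, Pool.Agent.STd.mem_und,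
      map_sub, map_pow, map_one] at hc
    exact hc
  have hF := hσ y
  have hpn : pn (und F Q) = l * s + 1 := by
    have := two_le_pn (und F Q); omega
  rw [hpn, pow_succ, pow_mul, hy'] at hF
  have hsm : σ (algebraMap (𝓞 E) E y) = algebraMap (𝓞 E) E (σ • y) := rfl
  have h5 : σ • y - y ∈ Q.asIdeal := by
    have : σ • y - y = (σ • y - (algebraMap (𝓞 F) (𝓞 E) w) ^ s * y) +
        ((algebraMap (𝓞 F) (𝓞 E) w) ^ s - 1) * y := by ring
    rw [this]
    exact Q.asIdeal.add_mem hF (Q.asIdeal.mul_mem_right _ hcQ)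
  have hy0 : algebraMap (𝓞 E) E y ≠ 0 := by
    intro h0
    apply hyQ
    have : y = 0 := RingOfIntegers.coe_injective (by rw [h0, map_zero])
    rw [this]; exact Q.asIdeal.zero_mem
  have htpow : (σ (algebraMap (𝓞 E) E y) / algebraMap (𝓞 E) E y) ^ l = 1 := by
    rw [div_pow, ← map_pow, hy, AlgEquiv.commutes, div_self]
    rw [← hy]; exact pow_ne_zero _ hy0
  have htint : IsIntegral ℤ (σ (algebraMap (𝓞 E) E y) / algebraMap (𝓞 E) E y) :=
    IsIntegral.of_pow (n := l) hl.pos (by rw [htpow]; exact isIntegral_one)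
  obtain ⟨t, ht⟩ : ∃ t : 𝓞 E, algebraMap (𝓞 E) E t =
      σ (algebraMap (𝓞 E) E y) / algebraMap (𝓞 E) E y := ⟨⟨_, htint⟩, rfl⟩
  have hmul : t * y = σ • y := by
    apply RingOfIntegers.coe_injective
    rw [map_mul, ht, div_mul_cancel₀ _ hy0]
    rfl
  have ht1 : t - 1 ∈ Q.asIdeal := by
    have h6 : (t - 1) * y ∈ Q.asIdeal := by
      have : (t - 1) * y = σ • y - y := by rw [sub_mul, hmul, one_mul]
      rw [this]; exact h5
    exact (Q.isPrime.mem_or_mem h6).resolve_right hyQ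
  have htl : t ^ l = 1 := by
    apply RingOfIntegers.coe_injective
    rw [map_pow, ht, htpow, map_one]
  have h7 : t = 1 := by
    by_contra hne
    apply hlQ'
    have h8 : (∑ i ∈ Finset.range l, t ^ i) = 0 := by
      have h9 : (∑ i ∈ Finset.range l, t ^ i) * (t - 1) = 0 := by
        rw [geom_sum_mul, htl, sub_self]
      exact (mul_eq_zero.1 h9).resolve_right (sub_ne_zero.2 hne)
    have h10 : (l : 𝓞 E) = -(∑ i ∈ Finset.range l, (t ^ i - 1)) := by
      rw [Finset.sum_sub_distrib, h8, Finset.sum_const, Finset.card_range, nsmul_eq_mul, mul_one,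
        zero_sub, neg_neg]
    rw [h10]
    refine Q.asIdeal.neg_mem (Q.asIdeal.sum_mem fun i _ => ?_)
    obtain ⟨c, hc'⟩ := sub_one_dvd_pow_sub_one t i
    rw [hc']
    exact Q.asIdeal.mul_mem_right _ ht1
  have h11 : σ (algebraMap (𝓞 E) E y) = algebraMap (𝓞 E) E y := by
    rw [hsm, ← hmul, h7, one_mul]
  ext x
  have hx : x ∈ IntermediateField.adjoin F {algebraMap (𝓞 E) E y} := by
    rw [htop]; exact IntermediateField.mem_top
  rw [AlgEquiv.one_apply]
  induction hx using IntermediateField.adjoin_induction with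
  | mem x hx => rw [Set.mem_singleton_iff.1 hx, h11]
  | algebraMap x => exact σ.commutes x
  | add x y hx hy hx' hy' => rw [map_add, hx', hy']
  | inv x hx hx' => rw [map_inv₀, hx']
  | mul x y hx hy hx' hy' => rw [map_mul, hx', hy']

end Pool.Agent.STr
end

section

/-!
# TASK D2: Kummer extensions and Frobenius elements

PROOF of `kummer_frob`. `σ y / y` is an `l`-th root of unity `ζ ^ j` (`y ≠ 0` as `w ∉ P = und F Q`). `y` is integral (`y ^ l` is), let `y' ∈ 𝓞 E`; `σ y' ≡ y' ^ (pn P) =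
y' * (w) ^ ((pn P - 1) / l) ≡ y' mod Q` (`IsFrob`, and the hypothesis `hc`, an element of `P` is in `Q`). So `(ζ ^ j - 1) y' ∈ Q`, `y' ∉ Q` (since `w ∉ P`), so `ζ ^ j ≡ 1 mod Q`. If
`l ∤ j`: `ζ ^ j` is a primitive `l`-th root of unity, and `1 - ζ ^ j` divides `l` (`l = ∏_{0<i<l} (1 - ζ^i)`, or the template `eq_one_of_sub_one_mem` in RED), so `l ∈ Q`,
contradiction. So `σ y = y`, `σ = 1` since `y` generates.
`kummer_degree`: `X ^ l - w` is irreducible over `F` (`X_pow_sub_C_irreducible_iff_of_prime`), it is the minimal polynomial of `y`, `adjoin F {y} = ⊤`.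
(This file: kummer_degree.)
-/

set_option autoImplicit false

open NumberField IsDedekindDomain nonZeroDivisors

namespace Pool.Agent.STr

open Pool.Agent.ST

variable {F E : Type*} [Field F] [NumberField F] [Field E] [NumberField E] [Algebra F E]

theorem kummer_degree {l : ℕ} (hl : l.Prime) {w : F} {y : E} (hy : y ^ l = algebraMap F E w)
    (htop : IntermediateField.adjoin F {y} = ⊤) (hw : ∀ z : F, z ^ l ≠ w) : Module.finrank F E = l := by
  have hirr : Irreducible (Polynomial.X ^ l - Polynomial.C w : Polynomial F) :=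
    X_pow_sub_C_irreducible_of_prime hl hw
  have hmon : (Polynomial.X ^ l - Polynomial.C w : Polynomial F).Monic :=
    Polynomial.monic_X_pow_sub_C w hl.ne_zero
  have hroot : Polynomial.aeval y (Polynomial.X ^ l - Polynomial.C w : Polynomial F) = 0 := by
    simp [hy]
  have hmin : Polynomial.X ^ l - Polynomial.C w = minpoly F y :=
    minpoly.eq_of_irreducible_of_monic hirr hroot hmon
  have hint : IsIntegral F y := ⟨_, hmon, by simpa [Polynomial.aeval_def] using hroot⟩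
  have h1 : Module.finrank F (IntermediateField.adjoin F {y}) = l := by
    rw [IntermediateField.adjoin.finrank hint, ← hmin, Polynomial.natDegree_X_pow_sub_C]
  rw [htop] at h1
  rw [← h1]
  exact (IntermediateField.finrank_top').symm

end Pool.Agent.STr
end
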