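import Pool.Agent.Lib.MP_1ef7cf_nt_r.Df
import Pool.Agent.Lib.MP_1ef7cf_nt_r.V1

section

/-!
# Characters of a finite abelian group
-/

set_option autoImplicit false

namespace Pool.Agent.STr

variable {C : Type*} [CommGroup C]

theorem SS_eq [Fintype C] (c : ℝ →ₗ[ℚ] ℚ) (f : C → ℝ) (χ : C →* ℂˣ) :
    SS c f χ = ∑ B : C, (((χ B)⁻¹ : ℂˣ) : ℂ) * ((c (f B) : ℚ) : ℂ) := by
  unfold SS
  rw [finsum_eq_sum_of_fintype]

theorem finite_dual (C : Type*) [CommGroup C] [Finite C] : Finite (C →* ℂˣ) := by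
  obtain ⟨e⟩ := CommGroup.monoidHom_mulEquiv_of_hasEnoughRootsOfUnity C ℂ
  exact Finite.of_equiv C e.symm.toEquiv

theorem sum_char [Finite C] [Fintype (C →* ℂˣ)] {g : C} (hg : g ≠ 1) :
    ∑ χ : C →* ℂˣ, ((χ g : ℂˣ) : ℂ) = 0 := by
  obtain ⟨ψ, hψ⟩ := CommGroup.exists_apply_ne_one_of_hasEnoughRootsOfUnity C ℂ hg
  have h1 : ∑ χ : C →* ℂˣ, ((χ g : ℂˣ) : ℂ) = ((ψ g : ℂˣ) : ℂ) * ∑ χ : C →* ℂˣ, ((χ g : ℂˣ) : ℂ) := by
    rw [Finset.mul_sum]
    rw [← Equiv.sum_comp (Equiv.mulLeft ψ)]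
    refine Finset.sum_congr rfl fun χ _ => ?_
    simp
  have h2 : (((ψ g : ℂˣ) : ℂ) - 1) * ∑ χ : C →* ℂˣ, ((χ g : ℂˣ) : ℂ) = 0 := by
    rw [sub_mul, one_mul, ← h1, sub_self]
  rcases mul_eq_zero.1 h2 with h3 | h3
  · exfalso
    apply hψ
    apply Units.ext
    rw [Units.val_one]
    exact sub_eq_zero.1 h3
  · exact h3

theorem sum_one [Fintype C] {χ : C →* ℂˣ} (h : χ ≠ 1) : ∑ g : C, ((χ g : ℂˣ) : ℂ) = 0 := by
  obtain ⟨k, hk⟩ : ∃ k, χ k ≠ 1 := by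
    by_contra hcon
    push Not at hcon
    exact h (MonoidHom.ext hcon)
  have h1 : ∑ g : C, ((χ g : ℂˣ) : ℂ) = ((χ k : ℂˣ) : ℂ) * ∑ g : C, ((χ g : ℂˣ) : ℂ) := by
    rw [Finset.mul_sum]
    rw [← Equiv.sum_comp (Equiv.mulLeft k)]
    refine Finset.sum_congr rfl fun g _ => ?_
    simp
  have h2 : (((χ k : ℂˣ) : ℂ) - 1) * ∑ g : C, ((χ g : ℂˣ) : ℂ) = 0 := by
    rw [sub_mul, one_mul, ← h1, sub_self]
  rcases mul_eq_zero.1 h2 with h3 | h3
  · exfalso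
    apply hk
    apply Units.ext
    rw [Units.val_one]
    exact sub_eq_zero.1 h3
  · exact h3

/-- a function all of whose Fourier coefficients vanish is zero -/
theorem fourier_zero [Fintype C] (v : C → ℂ)
    (h : ∀ χ : C →* ℂˣ, ∑ A : C, (((χ A)⁻¹ : ℂˣ) : ℂ) * v A = 0) : v = 0 := by
  classical
  have := finite_dual C
  have := Fintype.ofFinite (C →* ℂˣ)
  funext A₀
  have h1 : ∑ χ : C →* ℂˣ, ((χ A₀ : ℂˣ) : ℂ) * ∑ A : C, (((χ A)⁻¹ : ℂˣ) : ℂ) * v A = 0 := by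
    refine Finset.sum_eq_zero fun χ _ => ?_
    rw [h χ, mul_zero]
  have h2 : ∑ χ : C →* ℂˣ, ((χ A₀ : ℂˣ) : ℂ) * ∑ A : C, (((χ A)⁻¹ : ℂˣ) : ℂ) * v A =
      ∑ A : C, v A * ∑ χ : C →* ℂˣ, ((χ (A₀ * A⁻¹) : ℂˣ) : ℂ) := by
    simp_rw [Finset.mul_sum]
    rw [Finset.sum_comm]
    refine Finset.sum_congr rfl fun A _ => Finset.sum_congr rfl fun χ _ => ?_
    rw [map_mul, map_inv, Units.val_mul]
    ring
  rw [h2, Finset.sum_eq_single A₀] at h1
  · rw [mul_inv_cancel] at h1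
    simp only [map_one, Units.val_one, Finset.sum_const, Finset.card_univ, nsmul_eq_mul, mul_one] at h1
    rcases mul_eq_zero.1 h1 with h3 | h3
    · exact h3
    · exfalso
      have h4 : Fintype.card (C →* ℂˣ) ≠ 0 := Fintype.card_ne_zero
      exact h4 (by exact_mod_cast h3)
  · intro A _ hA
    rw [sum_char, mul_zero]
    intro h3
    exact hA (mul_inv_eq_one.1 h3).symm
  · intro h3
    exact absurd (Finset.mem_univ _) h3

end Pool.Agent.STr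
end

section

/-!
# Relations and the set `X`
-/

set_option autoImplicit false

namespace Pool.Agent.STr

variable {C : Type*} [CommGroup C]

/-- translation of the argument -/
lemma A2_shift [Fintype C] (c : ℝ →ₗ[ℚ] ℚ) (f : C → ℝ) (χ : C →* ℂˣ) (g : C) :
    ∑ A : C, (((χ A)⁻¹ : ℂˣ) : ℂ) * ((c (f (A * g)) : ℚ) : ℂ) = ((χ g : ℂˣ) : ℂ) * SS c f χ := by
  rw [SS_eq, Finset.mul_sum, ← Equiv.sum_comp (Equiv.mulRight g⁻¹)]
  refine Finset.sum_congr rfl fun A _ => ?_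
  rw [Equiv.coe_mulRight, inv_mul_cancel_right, map_mul, map_inv, mul_inv, inv_inv, Units.val_mul]
  ring

theorem X_rel [Finite C] {f : C → ℝ} {χ : C →* ℂˣ} (hχ : InX f χ) {ι ι' : Type*} (s : Finset ι) (s' : Finset ι')
    (w : ι → C) (w' : ι' → C) (h : ∀ A, ∑ i ∈ s, f (A * w i) = ∑ j ∈ s', f (A * w' j)) :
    ∑ i ∈ s, ((χ (w i) : ℂˣ) : ℂ) = ∑ j ∈ s', ((χ (w' j) : ℂˣ) : ℂ) := by
  have := Fintype.ofFinite C
  obtain ⟨c, hc⟩ := hχ
  have key : ∀ {κ : Type _} (t : Finset κ) (u : κ → C), (∑ i ∈ t, ((χ (u i) : ℂˣ) : ℂ)) * SS c f χ =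
      ∑ A : C, (((χ A)⁻¹ : ℂˣ) : ℂ) * ((c (∑ i ∈ t, f (A * u i)) : ℚ) : ℂ) := by
    intro κ t u
    rw [Finset.sum_mul]
    have h1 : ∀ A : C, (((χ A)⁻¹ : ℂˣ) : ℂ) * ((c (∑ i ∈ t, f (A * u i)) : ℚ) : ℂ) =
        ∑ i ∈ t, (((χ A)⁻¹ : ℂˣ) : ℂ) * ((c (f (A * u i)) : ℚ) : ℂ) := by
      intro A
      rw [map_sum, Rat.cast_sum, Finset.mul_sum]
    simp_rw [h1]
    rw [Finset.sum_comm]
    refine Finset.sum_congr rfl fun i _ => ?_
    rw [A2_shift]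
  have key' : ∀ {κ : Type _} (t : Finset κ) (u : κ → C), (∑ i ∈ t, ((χ (u i) : ℂˣ) : ℂ)) * SS c f χ =
      ∑ A : C, (((χ A)⁻¹ : ℂˣ) : ℂ) * ((c (∑ i ∈ t, f (A * u i)) : ℚ) : ℂ) := by
    intro κ t u
    rw [Finset.sum_mul]
    have h1 : ∀ A : C, (((χ A)⁻¹ : ℂˣ) : ℂ) * ((c (∑ i ∈ t, f (A * u i)) : ℚ) : ℂ) =
        ∑ i ∈ t, (((χ A)⁻¹ : ℂˣ) : ℂ) * ((c (f (A * u i)) : ℚ) : ℂ) := by
      intro A
      rw [map_sum, Rat.cast_sum, Finset.mul_sum]
    simp_rw [h1]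
    rw [Finset.sum_comm]
    refine Finset.sum_congr rfl fun i _ => ?_
    rw [A2_shift]
  have h1 := key s w
  have h2 := key' s' w'
  have h3 : ∑ A : C, (((χ A)⁻¹ : ℂˣ) : ℂ) * ((c (∑ i ∈ s, f (A * w i)) : ℚ) : ℂ) =
      ∑ A : C, (((χ A)⁻¹ : ℂˣ) : ℂ) * ((c (∑ j ∈ s', f (A * w' j)) : ℚ) : ℂ) := by
    refine Finset.sum_congr rfl fun A _ => ?_
    rw [h A]
  rw [← h1, ← h2] at h3
  exact mul_right_cancel₀ hc h3

theorem eq_of_X [Finite C] {f : C → ℝ} {P Q : C} (h : ∀ χ : C →* ℂˣ, InX f χ → χ P = χ Q) (A : C) :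
    f (A * P) = f (A * Q) := by
  have := Fintype.ofFinite C
  by_contra hne
  have h0 : f (A * P) - f (A * Q) ≠ 0 := sub_ne_zero.2 hne
  obtain ⟨c, hc⟩ : ∃ c : ℝ →ₗ[ℚ] ℚ, c (f (A * P) - f (A * Q)) ≠ 0 := by
    by_contra hcon
    push Not at hcon
    exact h0 ((Module.forall_dual_apply_eq_zero_iff ℚ _).1 hcon)
  have hz : (fun B : C => (((c (f (B * P)) : ℚ) : ℂ) - ((c (f (B * Q)) : ℚ) : ℂ))) = 0 := by
    apply fourier_zero
    intro χ
    have h1 : ∑ B : C, (((χ B)⁻¹ : ℂˣ) : ℂ) * (((c (f (B * P)) : ℚ) : ℂ) - ((c (f (B * Q)) : ℚ) : ℂ)) =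
        ((χ P : ℂˣ) : ℂ) * SS c f χ - ((χ Q : ℂˣ) : ℂ) * SS c f χ := by
      rw [← A2_shift, ← A2_shift, ← Finset.sum_sub_distrib]
      refine Finset.sum_congr rfl fun B _ => ?_
      rw [mul_sub]
    rw [h1]
    by_cases hS : SS c f χ = 0
    · rw [hS]; ring
    · rw [h χ ⟨c, hS⟩, sub_self]
  have h1 := congrFun hz A
  apply hc
  have h2 : ((c (f (A * P)) : ℚ) : ℂ) - ((c (f (A * Q)) : ℚ) : ℂ) = 0 := h1
  rw [map_sub]
  have h3 : ((c (f (A * P)) - c (f (A * Q)) : ℚ) : ℂ) = 0 := by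
    push_cast
    exact h2
  exact_mod_cast h3

theorem exists_X [Finite C] {f : C → ℝ} (V : Subgroup C) {T : Finset C} (hT : ∀ g, g ∈ T ↔ g ∈ V) {A₀ : C}
    (h : ∑ b ∈ T, f (A₀ * b) ≠ 0) : ∃ χ : C →* ℂˣ, InX f χ ∧ ∀ b ∈ V, χ b = 1 := by
  have := Fintype.ofFinite C
  obtain ⟨c, hc⟩ : ∃ c : ℝ →ₗ[ℚ] ℚ, c (∑ b ∈ T, f (A₀ * b)) ≠ 0 := by
    by_contra hcon
    push Not at hcon
    exact h ((Module.forall_dual_apply_eq_zero_iff ℚ _).1 hcon)
  have key : ∀ χ : C →* ℂˣ, ∑ A : C, (((χ A)⁻¹ : ℂˣ) : ℂ) * ((c (∑ b ∈ T, f (A * b)) : ℚ) : ℂ) =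
      (∑ b ∈ T, ((χ b : ℂˣ) : ℂ)) * SS c f χ := by
    intro χ
    rw [Finset.sum_mul]
    have h1 : ∀ A : C, (((χ A)⁻¹ : ℂˣ) : ℂ) * ((c (∑ b ∈ T, f (A * b)) : ℚ) : ℂ) =
        ∑ b ∈ T, (((χ A)⁻¹ : ℂˣ) : ℂ) * ((c (f (A * b)) : ℚ) : ℂ) := by
      intro A
      rw [map_sum, Rat.cast_sum, Finset.mul_sum]
    simp_rw [h1]
    rw [Finset.sum_comm]
    refine Finset.sum_congr rfl fun i _ => ?_
    rw [A2_shift]
  obtain ⟨χ, hχ⟩ : ∃ χ : C →* ℂˣ, (∑ b ∈ T, ((χ b : ℂˣ) : ℂ)) * SS c f χ ≠ 0 := by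
    by_contra hcon
    push Not at hcon
    have hz : (fun B : C => ((c (∑ b ∈ T, f (B * b)) : ℚ) : ℂ)) = 0 := by
      apply fourier_zero
      intro χ
      rw [key χ, hcon χ]
    have h1 : ((c (∑ b ∈ T, f (A₀ * b)) : ℚ) : ℂ) = 0 := congrFun hz A₀
    exact hc (by exact_mod_cast h1)
  have hS : SS c f χ ≠ 0 := right_ne_zero_of_mul hχ
  have hs : ∑ b ∈ T, ((χ b : ℂˣ) : ℂ) ≠ 0 := left_ne_zero_of_mul hχ
  refine ⟨χ, ⟨c, hS⟩, ?_⟩
  by_contra hcon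
  push Not at hcon
  obtain ⟨k, hk, hk1⟩ := hcon
  apply hs
  have h1 : ∑ b ∈ T, ((χ b : ℂˣ) : ℂ) = ((χ k : ℂˣ) : ℂ) * ∑ b ∈ T, ((χ b : ℂˣ) : ℂ) := by
    rw [Finset.mul_sum]
    refine Finset.sum_bij' (fun b _ => k⁻¹ * b) (fun b _ => k * b) ?_ ?_ ?_ ?_ ?_
    · intro b hb
      rw [hT] at hb ⊢
      exact V.mul_mem (V.inv_mem hk) hb
    · intro b hb
      rw [hT] at hb ⊢
      exact V.mul_mem hk hb
    · intro b _
      rw [mul_inv_cancel_left]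
    · intro b _
      rw [inv_mul_cancel_left]
    · intro b _
      rw [← Units.val_mul, ← map_mul, mul_inv_cancel_left]
  have h2 : (((χ k : ℂˣ) : ℂ) - 1) * ∑ b ∈ T, ((χ b : ℂˣ) : ℂ) = 0 := by
    rw [sub_mul, one_mul, ← h1, sub_self]
  rcases mul_eq_zero.1 h2 with h3 | h3
  · exfalso
    apply hk1
    apply Units.ext
    rw [Units.val_one]
    exact sub_eq_zero.1 h3
  · exact h3

theorem InX.neg_one [Finite C] {f : C → ℝ} {χ : C →* ℂˣ} (hχ : InX f χ) {c₀ : C}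
    (h : ∀ A, f A + f (A * c₀) = 0) : χ c₀ = -1 := by
  have h1 := X_rel hχ (Finset.univ : Finset Bool) (∅ : Finset Bool) (fun b => if b then c₀ else 1) (fun _ => 1)
    (fun A => by
      rw [Finset.sum_empty, Fintype.sum_bool]
      simp only [if_true, if_false, Bool.false_eq_true, mul_one]
      rw [add_comm]
      exact h A)
  rw [Finset.sum_empty, Fintype.sum_bool] at h1
  simp only [if_true, if_false, Bool.false_eq_true, map_one, Units.val_one] at h1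
  apply Units.ext
  rw [Units.val_neg, Units.val_one]
  linear_combination h1

end Pool.Agent.STr
end

section

/-!
# A quadratic character with nonzero sum is in `X`
-/

set_option autoImplicit false

open NumberField IsDedekindDomain nonZeroDivisors IntermediateField

namespace Pool.Agent.STr

open Pool.Agent.ST

variable {K : Type*} [Field K] [NumberField K] [Algebra K ℝ] {σ₂ : K →+* ℝ} {n m : Ideal (𝓞 K)}

theorem inX_of_sum (hy : Hy σ₂ n) (hm : m ≠ ⊥) (hnm : n ∣ m) {κ : RayClassGroup σ₂ m →* ℂˣ} (hκ2 : κ ^ 2 = 1)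
    (h : ∑ᶠ B, ((κ B : ℂˣ) : ℂ) * (zd σ₂ m B : ℂ) ≠ 0) : InX (Lz σ₂ m) κ := by
  classical
  have f0 := hy.finite_cl hm hnm
  have := Fintype.ofFinite (RayClassGroup σ₂ m)
  have hpm : ∀ B, ∃ e : ℤ, ((κ B : ℂˣ) : ℂ) = (e : ℂ) ∧ (((κ B)⁻¹ : ℂˣ) : ℂ) = (e : ℂ) := by
    intro B
    have h1 : (κ B) ^ 2 = 1 := by
      have := DFunLike.congr_fun hκ2 B
      simpa using this
    have h2 : ((κ B : ℂˣ) : ℂ) * ((κ B : ℂˣ) : ℂ) = 1 := by
      rw [← Units.val_mul, ← sq, h1, Units.val_one]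
    rcases mul_self_eq_one_iff.1 h2 with h3 | h3
    · refine ⟨1, by rw [h3]; simp, ?_⟩
      rw [Units.val_inv_eq_inv_val, h3]
      simp
    · refine ⟨-1, by rw [h3]; simp, ?_⟩
      rw [Units.val_inv_eq_inv_val, h3]
      norm_num
  choose e he he' using hpm
  set Λ : ℝ := ∑ B, (e B : ℝ) * Lz σ₂ m B with hΛ
  have hΛ0 : Λ ≠ 0 := by
    intro h0
    apply h
    rw [finsum_eq_sum_of_fintype]
    have h1 : (Λ : ℂ) = -2 * ∑ B, ((κ B : ℂˣ) : ℂ) * (zd σ₂ m B : ℂ) := by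
      rw [hΛ]
      push_cast
      rw [Finset.mul_sum]
      refine Finset.sum_congr rfl fun B _ => ?_
      rw [he B]
      unfold Lz
      push_cast
      ring
    rw [h0, Complex.ofReal_zero] at h1
    have h2 := h1.symm
    rcases mul_eq_zero.1 h2 with h3 | h3
    · norm_num at h3
    · exact h3
  obtain ⟨c, hc⟩ : ∃ c : ℝ →ₗ[ℚ] ℚ, c Λ ≠ 0 := by
    by_contra hcon
    push Not at hcon
    exact hΛ0 ((Module.forall_dual_apply_eq_zero_iff ℚ _).1 hcon)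
  refine ⟨c, ?_⟩
  rw [SS_eq]
  have h1 : ∑ B, (((κ B)⁻¹ : ℂˣ) : ℂ) * ((c (Lz σ₂ m B) : ℚ) : ℂ) = ((c Λ : ℚ) : ℂ) := by
    rw [hΛ, map_sum, Rat.cast_sum]
    refine Finset.sum_congr rfl fun B _ => ?_
    have h2 : (e B : ℝ) * Lz σ₂ m B = e B • Lz σ₂ m B := by
      rw [zsmul_eq_mul]
    rw [h2, map_zsmul, zsmul_eq_mul, he' B]
    push_cast
    ring
  rw [h1]
  exact_mod_cast hc

end Pool.Agent.STr
end

section

/-!
# TASK A3: the layer lemma (Lemma 5.0 of the paper)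

PROOF. For `0 ≤ i ≤ k` let `V_i = {B | ω (B) ^ (l ^ (k - i)) = 1}` (`V_0 = C`, `V_i ⊆ V_(i-1)`) and
`t_i g = ∑ B ∈ V_i, (χ B)⁻¹ F (g B)`, an algebraic integer.
(1) `l ^ i * t_i g = ∑ η, (χ η) g * S (χ η)`, sum over the `l ^ i` powers `η = ω ^ (l ^ (k - i) * j)`, `j < l ^ i`, where
`S ψ = ∑ B, (ψ B)⁻¹ F B`: indeed `∑_η η(B)⁻¹ = l ^ i` if `B ∈ V_i`, and `0` otherwise (geometric sum of the `l ^ i`-th root of
unity `ω(B) ^ (-l ^ (k - i))`), and `∑ B, (χ η)(B)⁻¹ F (g B) = (χ η) g * S (χ η)`.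
(2) If `i` is in `T` (bad): in (1) for `i` the terms with `η` of exact order `l ^ i` vanish; the other ones are the powers of
`ω ^ (l ^ (k - i + 1))`, i.e. the terms in (1) for `i - 1`. So `l ^ i * t_i g = l ^ (i - 1) * t_(i-1) g`, `t_(i-1) g = l * t_i g`.
(3) Always: `t_(i-1) g` is a sum of terms `(χ τ)⁻¹ t_i (g τ)`, `τ` in a set of representatives of `V_(i-1) / V_i`.
By induction (downwards) on `i`: `t_i g = l ^ (number of j ∈ T with j > i) * (algebraic integer)` for all `g`. For `i = 0`, `g = 1` this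
is the claim.
-/

set_option autoImplicit false

namespace Pool.Agent.STr

variable {C : Type*} [CommGroup C]

/-- `x = l ^ c * (algebraic integer)` -/
def A3_D (l c : ℕ) (x : ℂ) : Prop := ∃ y : ℂ, IsIntegral ℤ y ∧ x = (l : ℂ) ^ c * y

theorem A3_D_sum {ι : Type*} {l c : ℕ} (s : Finset ι) (x : ι → ℂ) (h : ∀ i ∈ s, A3_D l c (x i)) :
    A3_D l c (∑ i ∈ s, x i) := by
  classical
  induction s using Finset.induction_on with
  | empty => exact ⟨0, isIntegral_zero, by simp⟩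
  | insert a s ha ih =>
    obtain ⟨y, hy, hxy⟩ := h a (Finset.mem_insert_self a s)
    obtain ⟨z, hz, hxz⟩ := ih (fun i hi => h i (Finset.mem_insert_of_mem hi))
    refine ⟨y + z, hy.add hz, ?_⟩
    rw [Finset.sum_insert ha, hxy, hxz]; ring

theorem A3_D_mul {l c : ℕ} {x z : ℂ} (hz : IsIntegral ℤ z) (h : A3_D l c x) : A3_D l c (z * x) := by
  obtain ⟨y, hy, hxy⟩ := h
  exact ⟨z * y, hz.mul hy, by rw [hxy]; ring⟩

theorem A3_int_char [Finite C] (χ : C →* ℂˣ) (B : C) : IsIntegral ℤ (((χ B : ℂˣ) : ℂ)) := by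
  have h : (((χ B : ℂˣ) : ℂ)) ^ (Nat.card C) = 1 := by
    rw [← Units.val_pow_eq_pow_val, ← map_pow, pow_card_eq_one', map_one, Units.val_one]
  exact IsIntegral.of_pow (Nat.card_pos) (by rw [h]; exact isIntegral_one)

theorem A3_int_inv [Finite C] (χ : C →* ℂˣ) (B : C) : IsIntegral ℤ ((((χ B)⁻¹ : ℂˣ) : ℂ)) := by
  rw [← map_inv]; exact A3_int_char χ B⁻¹

/-- the partial sum over the kernel of `ω ^ a` -/
noncomputable def A3_t [Fintype C] (F : C → ℤ) (χ ω : C →* ℂˣ) (a : ℕ) (g : C) : ℂ :=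
  open Classical in ∑ B ∈ Finset.univ.filter (fun B : C => ω B ^ a = 1), (((χ B)⁻¹ : ℂˣ) : ℂ) * (F (g * B) : ℂ)

theorem A3_geom {x : ℂ} {n : ℕ} (hx : x ^ n = 1) :
    ∑ j ∈ Finset.range n, x ^ j = if x = 1 then (n : ℂ) else 0 := by
  split_ifs with h
  · subst h; simp
  · rw [geom_sum_eq h, hx]; simp

/-- substitution -/
theorem A3_shift [Fintype C] (F : C → ℤ) (ψ : C →* ℂˣ) (g : C) :
    ∑ B : C, (((ψ B)⁻¹ : ℂˣ) : ℂ) * (F (g * B) : ℂ) = ((ψ g : ℂˣ) : ℂ) * ∑ B : C, (((ψ B)⁻¹ : ℂˣ) : ℂ) * (F B : ℂ) := by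
  rw [Finset.mul_sum]
  refine Fintype.sum_equiv (Equiv.mulLeft g) _ _ (fun B => ?_)
  simp only [Equiv.coe_mulLeft, map_mul, mul_inv, Units.val_mul]
  rw [← mul_assoc, ← mul_assoc]
  simp

/-- formula (1) -/
theorem A3_one [Fintype C] (F : C → ℤ) (χ ω : C →* ℂˣ) {a n : ℕ} (hn : (ω ^ a) ^ n = 1) (g : C) :
    (n : ℂ) * A3_t F χ ω a g =
      ∑ j ∈ Finset.range n, (((χ * (ω ^ a) ^ j) g : ℂˣ) : ℂ) *
        ∑ B : C, ((((χ * (ω ^ a) ^ j) B)⁻¹ : ℂˣ) : ℂ) * (F B : ℂ) := by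
  classical
  have h1 : ∀ j ∈ Finset.range n, (((χ * (ω ^ a) ^ j) g : ℂˣ) : ℂ) *
        ∑ B : C, ((((χ * (ω ^ a) ^ j) B)⁻¹ : ℂˣ) : ℂ) * (F B : ℂ) =
        ∑ B : C, ((((χ * (ω ^ a) ^ j) B)⁻¹ : ℂˣ) : ℂ) * (F (g * B) : ℂ) := by
    intro j _
    rw [A3_shift]
  rw [Finset.sum_congr rfl h1, Finset.sum_comm]
  have h2 : ∀ B : C, ∑ j ∈ Finset.range n, ((((χ * (ω ^ a) ^ j) B)⁻¹ : ℂˣ) : ℂ) * (F (g * B) : ℂ) =
      if ω B ^ a = 1 then (n : ℂ) * ((((χ B)⁻¹ : ℂˣ) : ℂ) * (F (g * B) : ℂ)) else 0 := by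
    intro B
    set x : ℂ := ((((ω ^ a) B)⁻¹ : ℂˣ) : ℂ) with hx
    have hxn : x ^ n = 1 := by
      rw [hx, ← Units.val_pow_eq_pow_val, inv_pow, ← MonoidHom.pow_apply, hn, MonoidHom.one_apply, inv_one, Units.val_one]
    have hx1 : x = 1 ↔ ω B ^ a = 1 := by
      rw [hx, Units.val_eq_one, inv_eq_one, MonoidHom.pow_apply]
    have h3 : ∀ j ∈ Finset.range n, ((((χ * (ω ^ a) ^ j) B)⁻¹ : ℂˣ) : ℂ) * (F (g * B) : ℂ) =
        x ^ j * ((((χ B)⁻¹ : ℂˣ) : ℂ) * (F (g * B) : ℂ)) := by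
      intro j _
      rw [hx, ← Units.val_pow_eq_pow_val, inv_pow, MonoidHom.mul_apply, MonoidHom.pow_apply, mul_inv, Units.val_mul]
      ring
    rw [Finset.sum_congr rfl h3, ← Finset.sum_mul, A3_geom hxn]
    by_cases h : ω B ^ a = 1
    · rw [if_pos h, if_pos (hx1.2 h)]
    · rw [if_neg h, if_neg (fun h' => h (hx1.1 h')), zero_mul]
  rw [Finset.sum_congr rfl (fun B _ => h2 B), ← Finset.sum_filter, A3_t, Finset.mul_sum]

/-- sum over the multiples of `l` -/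
theorem A3_range {l n : ℕ} (hl : 0 < l) (f : ℕ → ℂ) (hf : ∀ j < l * n, ¬ l ∣ j → f j = 0) :
    ∑ j ∈ Finset.range (l * n), f j = ∑ j ∈ Finset.range n, f (l * j) := by
  classical
  have hinj : Set.InjOn (fun j : ℕ => l * j) (Finset.range n : Finset ℕ) := by
    intro a _ b _ h
    exact Nat.eq_of_mul_eq_mul_left hl h
  rw [← Finset.sum_image (f := f) (g := fun j : ℕ => l * j) (by intro a ha b hb h; exact hinj ha hb h)]
  symm
  apply Finset.sum_subset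
  · intro j hj
    obtain ⟨m, hm, rfl⟩ := Finset.mem_image.1 hj
    exact Finset.mem_range.2 (Nat.mul_lt_mul_of_pos_left (Finset.mem_range.1 hm) hl)
  · intro j hj hj'
    apply hf j (Finset.mem_range.1 hj)
    rintro ⟨m, rfl⟩
    apply hj'
    exact Finset.mem_image.2 ⟨m, Finset.mem_range.2 (Nat.lt_of_mul_lt_mul_left (Finset.mem_range.1 hj)), rfl⟩

/-- step (2) -/
theorem A3_bad [Fintype C] (F : C → ℤ) (χ ω : C →* ℂˣ) {l a i : ℕ} (hl : l.Prime) (hω : orderOf (ω ^ a) = l ^ (i + 1))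
    (hbad : ∀ η ∈ Subgroup.zpowers ω, orderOf η = l ^ (i + 1) →
      ∑ g : C, ((((χ * η) g)⁻¹ : ℂˣ) : ℂ) * (F g : ℂ) = 0) (g : C) :
    A3_t F χ ω (a * l) g = (l : ℂ) * A3_t F χ ω a g := by
  have hl0 : (l : ℂ) ≠ 0 := by exact_mod_cast hl.ne_zero
  have h1 := A3_one F χ ω (a := a) (n := l * l ^ i) (by rw [← pow_succ', ← hω, pow_orderOf_eq_one]) g
  have h2 := A3_one F χ ω (a := a * l) (n := l ^ i)
    (by rw [pow_mul ω a l, ← pow_mul (ω ^ a) l (l ^ i), ← pow_succ', ← hω, pow_orderOf_eq_one]) g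
  rw [A3_range hl.pos] at h1
  · have h3 : ∀ j ∈ Finset.range (l ^ i), (((χ * (ω ^ (a * l)) ^ j) g : ℂˣ) : ℂ) *
        ∑ B : C, ((((χ * (ω ^ (a * l)) ^ j) B)⁻¹ : ℂˣ) : ℂ) * (F B : ℂ) =
        (((χ * (ω ^ a) ^ (l * j)) g : ℂˣ) : ℂ) *
        ∑ B : C, ((((χ * (ω ^ a) ^ (l * j)) B)⁻¹ : ℂˣ) : ℂ) * (F B : ℂ) := by
      intro j _
      rw [pow_mul ω a l, ← pow_mul (ω ^ a) l j]
    rw [Finset.sum_congr rfl h3, ← h1] at h2
    have h4 : ((l ^ i : ℕ) : ℂ) ≠ 0 := by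
      exact_mod_cast pow_ne_zero _ hl.ne_zero
    apply mul_left_cancel₀ h4
    rw [h2]
    push_cast
    ring
  · intro j _ hj
    have hcop : (orderOf (ω ^ a)).Coprime j := by
      rw [hω]
      exact Nat.Coprime.pow_left _ ((Nat.Prime.coprime_iff_not_dvd hl).2 hj)
    rw [hbad ((ω ^ a) ^ j) ?_ ?_, mul_zero]
    · exact Subgroup.mem_zpowers_iff.2 ⟨((a * j : ℕ) : ℤ), by rw [zpow_natCast, pow_mul]⟩
    · rw [hcop.orderOf_pow, hω]

/-- step (3) -/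
theorem A3_fib [Fintype C] (F : C → ℤ) (χ ω : C →* ℂˣ) {l c a b : ℕ} (hab : a ∣ b)
    (h : ∀ g, A3_D l c (A3_t F χ ω a g)) (g : C) : A3_D l c (A3_t F χ ω b g) := by
  classical
  rw [A3_t, ← Finset.sum_fiberwise_of_maps_to (s := Finset.univ.filter (fun B : C => ω B ^ b = 1))
    (t := (Finset.univ.filter (fun B : C => ω B ^ b = 1)).image (fun B => ω B ^ a)) (g := fun B => ω B ^ a)
    (fun B hB => Finset.mem_image_of_mem _ hB)]
  apply A3_D_sum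
  intro ζ hζ
  obtain ⟨τ, hτ, rfl⟩ := Finset.mem_image.1 hζ
  have hτ' : ω τ ^ b = 1 := (Finset.mem_filter.1 hτ).2
  have key : ∑ B ∈ (Finset.univ.filter (fun B : C => ω B ^ b = 1)).filter (fun B => ω B ^ a = ω τ ^ a),
      (((χ B)⁻¹ : ℂˣ) : ℂ) * (F (g * B) : ℂ) = (((χ τ)⁻¹ : ℂˣ) : ℂ) * A3_t F χ ω a (g * τ) := by
    rw [A3_t, Finset.mul_sum]
    symm
    refine Finset.sum_bij (fun B _ => τ * B) ?_ ?_ ?_ ?_
    · intro B hB
      have hB' : ω B ^ a = 1 := (Finset.mem_filter.1 hB).2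
      obtain ⟨d, rfl⟩ := hab
      refine Finset.mem_filter.2 ⟨Finset.mem_filter.2 ⟨Finset.mem_univ _, ?_⟩, ?_⟩
      · rw [map_mul, mul_pow, hτ', one_mul, pow_mul, hB', one_pow]
      · rw [map_mul, mul_pow, hB', mul_one]
    · intro B _ B' _ h
      exact mul_left_cancel h
    · intro B hB
      have hB' : ω B ^ a = ω τ ^ a := (Finset.mem_filter.1 hB).2
      refine ⟨τ⁻¹ * B, Finset.mem_filter.2 ⟨Finset.mem_univ _, ?_⟩, by group⟩
      rw [map_mul, mul_pow, hB', map_inv, inv_pow, inv_mul_cancel]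
    · intro B _
      rw [map_mul, mul_inv, Units.val_mul, mul_assoc, mul_assoc]
  rw [key]
  exact A3_D_mul (A3_int_inv χ τ) (h (g * τ))

theorem layer [Fintype C] (F : C → ℤ) (χ ω : C →* ℂˣ) {l k : ℕ} (hl : l.Prime) (hω : orderOf ω = l ^ k)
    (T : Finset ℕ) (hT : T ⊆ Finset.Icc 1 k)
    (hbad : ∀ i ∈ T, ∀ η ∈ Subgroup.zpowers ω, orderOf η = l ^ i →
      ∑ g : C, ((((χ * η) g)⁻¹ : ℂˣ) : ℂ) * (F g : ℂ) = 0) :
    ∃ y : ℂ, IsIntegral ℤ y ∧ ∑ g : C, (((χ g)⁻¹ : ℂˣ) : ℂ) * (F g : ℂ) = (l : ℂ) ^ T.card * y := by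
  classical
  have main : ∀ m : ℕ, m ≤ k → ∀ g : C, A3_D l (T.filter (fun j => k - m < j)).card (A3_t F χ ω (l ^ m) g) := by
    intro m
    induction m with
    | zero =>
      intro _ g
      have h0 : T.filter (fun j => k - 0 < j) = ∅ := by
        apply Finset.filter_eq_empty_iff.2
        intro j hj
        have := (Finset.mem_Icc.1 (hT hj)).2
        omega
      rw [h0, Finset.card_empty, A3_t]
      apply A3_D_sum
      intro B _
      exact ⟨_, (A3_int_inv χ B).mul (isIntegral_algebraMap (R := ℤ) (A := ℂ) (x := F (g * B))), by simp⟩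
    | succ m ih =>
      intro hm g
      have ih' := ih (by omega)
      by_cases hi : k - m ∈ T
      · have hord : orderOf (ω ^ (l ^ m)) = l ^ ((k - m - 1) + 1) := by
          rw [orderOf_pow_of_dvd (pow_ne_zero _ hl.ne_zero) (by rw [hω]; exact pow_dvd_pow l (by omega)), hω,
            Nat.pow_div (by omega) hl.pos]
          congr 1; omega
        have hb := A3_bad F χ ω hl hord (by
          intro η hη ho
          exact hbad (k - m) hi η hη (by rw [ho]; congr 1; omega)) g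
        have hcard : (T.filter (fun j => k - (m + 1) < j)).card = (T.filter (fun j => k - m < j)).card + 1 := by
          have : T.filter (fun j => k - (m + 1) < j) = insert (k - m) (T.filter (fun j => k - m < j)) := by
            ext j
            simp only [Finset.mem_filter, Finset.mem_insert]
            constructor
            · rintro ⟨h1, h2⟩
              by_cases hj : j = k - m
              · exact Or.inl hj
              · exact Or.inr ⟨h1, by omega⟩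
            · rintro (h | ⟨h1, h2⟩)
              · subst h; exact ⟨hi, by omega⟩
              · exact ⟨h1, by omega⟩
          rw [this, Finset.card_insert_of_notMem (by simp)]
        obtain ⟨y, hy, hxy⟩ := ih' g
        refine ⟨y, hy, ?_⟩
        rw [pow_succ l m, hb, hxy, hcard]
        ring
      · have hcard : (T.filter (fun j => k - (m + 1) < j)) = (T.filter (fun j => k - m < j)) := by
          ext j
          simp only [Finset.mem_filter]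
          constructor
          · rintro ⟨h1, h2⟩
            have : j ≠ k - m := by rintro rfl; exact hi h1
            exact ⟨h1, by omega⟩
          · rintro ⟨h1, h2⟩
            exact ⟨h1, by omega⟩
        rw [hcard]
        exact A3_fib F χ ω (pow_dvd_pow l (Nat.le_succ m)) ih' g
  obtain ⟨y, hy, hxy⟩ := main k le_rfl 1
  have hT' : T.filter (fun j => k - k < j) = T := by
    apply Finset.filter_true_of_mem
    intro j hj
    have := (Finset.mem_Icc.1 (hT hj)).1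
    omega
  refine ⟨y, hy, ?_⟩
  rw [hT'] at hxy
  rw [← hxy, A3_t]
  have hall : Finset.univ.filter (fun B : C => ω B ^ (l ^ k) = 1) = Finset.univ := by
    apply Finset.filter_true_of_mem
    intro B _
    rw [← MonoidHom.pow_apply, ← hω, pow_orderOf_eq_one, MonoidHom.one_apply]
  rw [hall]
  simp only [one_mul]

end Pool.Agent.STr
end
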