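import Pool.Agent.Lib.MP_1ef7cf_nt_r.V1

section

/-!
# TASK V2: the norm relations

PROOF. `UU` is a finite sum (`finsum_mem_eq_finite_toFinset_sum` or `finsum_mem_eq_sum_filter`). `UU_same`: `zd_relation_same`
(`hcop`: if all prime divisors of `m'` divide `m`, an ideal prime to `m` is prime to `m'`). `UU_prime`: `zd_relation_prime` (with `Q` the
element `prJ m q hq`; look at its statement for the class `A * cls Q⁻¹`). `UU_refl`: `pr_refl`.
`UU_trans`: the fibre of `pr (h1.trans h2)` over `A` is the disjoint union of the fibres of `pr h1` over the elements of the fibre of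
`pr h2` over `A` (`pr_pr`).
-/

set_option autoImplicit false

open NumberField IsDedekindDomain nonZeroDivisors IntermediateField

namespace Pool.Agent.STr

open Pool.Agent.ST
open Pool.Agent.STc (IsInt rd IsUn)

variable {K : Type*} [Field K] [NumberField K] [Algebra K ℝ] {σ₂ : K →+* ℝ} {n m m' m'' : Ideal (𝓞 K)}

omit [Algebra K ℝ] in
private lemma V2_dvd {n m m' : Ideal (𝓞 K)} (h : m' ≤ m) (hnm : n ∣ m) : n ∣ m' :=
  hnm.trans (Ideal.dvd_iff_le.2 h)

omit [Algebra K ℝ] in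
open Classical in
private lemma V2_UU_eq (hle : m' ≤ m) [Fintype (RayClassGroup σ₂ m')] (A : RayClassGroup σ₂ m) :
    UU hle A = ∑ A' ∈ Finset.univ.filter (fun A' => pr σ₂ hle A' = A), Lz σ₂ m' A' := by
  have h : {A' : RayClassGroup σ₂ m' | pr σ₂ hle A' = A} =
      ((Finset.univ.filter (fun A' => pr σ₂ hle A' = A) : Finset (RayClassGroup σ₂ m')) :
        Set (RayClassGroup σ₂ m')) := by
    ext A'
    simp
  unfold UU
  rw [h, finsum_mem_coe_finset]

theorem UU_refl (A : RayClassGroup σ₂ m) (h : m ≤ m) : UU h A = Lz σ₂ m A := by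
  have h1 : {A' : RayClassGroup σ₂ m | pr σ₂ h A' = A} = {A} := by
    ext A'
    rw [Set.mem_setOf_eq, pr_refl, Set.mem_singleton_iff]
  unfold UU
  rw [h1, finsum_mem_singleton]

theorem UU_same (hy : Hy σ₂ n) (hm : m ≠ ⊥) (hnm : n ∣ m) (hm' : m' ≠ ⊥) (hle : m' ≤ m)
    (hsame : ∀ q : PrI K, q.asIdeal ∣ m' → q.asIdeal ∣ m) (A : RayClassGroup σ₂ m) :
    UU hle A = Lz σ₂ m A := by
  classical
  have hf : Finite (RayClassGroup σ₂ m') := hy.finite_cl hm' (V2_dvd hle hnm)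
  let _ : Fintype (RayClassGroup σ₂ m') := Fintype.ofFinite _
  have hm1 : m ≠ ⊤ := hy.ne_top hnm
  have hprime : ∀ J : (FI K)ˣ, J ∈ primeTo m → J ∈ primeTo m' :=
    fun J hJ v hv => hJ v (hsame v hv)
  have hcop : ∀ I : Ideal (𝓞 K), IsCoprime I m → IsCoprime I m' := by
    intro I hI
    have hI0 : I ≠ ⊥ := ne_bot_of_coprime_ne hI hm1
    exact coprime_of_mem_primeTo (J := uI I hI0) (coe_uI I hI0)
      (hprime _ (coe_mem_primeTo (coe_uI I hI0) hI))
  have hS : ∀ A', A' ∈ Finset.univ.filter (fun A' => pr σ₂ hle A' = A) ↔ pr σ₂ hle A' = A := by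
    simp
  rw [V2_UU_eq]
  simp only [Lz]
  rw [← Finset.mul_sum, zd_relation_same hy.h2 hy.hσ hle hm' hm hm1 hcop hS]

theorem UU_prime (hy : Hy σ₂ n) (hm : m ≠ ⊥) (hnm : n ∣ m) {q : PrI K} (hq : ¬ q.asIdeal ∣ m)
    (hle : m * q.asIdeal ≤ m) (A : RayClassGroup σ₂ m) :
    UU hle A = Lz σ₂ m A - Lz σ₂ m (A * (cls σ₂ m (prJ m q hq))⁻¹) := by
  classical
  have hm' : m * q.asIdeal ≠ ⊥ := mul_ne_bot' hm q.ne_bot
  have hf : Finite (RayClassGroup σ₂ (m * q.asIdeal)) := hy.finite_cl hm' (V2_dvd hle hnm)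
  let _ : Fintype (RayClassGroup σ₂ (m * q.asIdeal)) := Fintype.ofFinite _
  have hm1 : m ≠ ⊤ := hy.ne_top hnm
  have hS : ∀ A', A' ∈ Finset.univ.filter (fun A' => pr σ₂ hle A' = A) ↔ pr σ₂ hle A' = A := by
    simp
  rw [V2_UU_eq]
  simp only [Lz]
  rw [← Finset.mul_sum, zd_relation_prime hy.h2 hy.hσ hle rfl hm hm1 hS (coe_prJ m q hq)]
  ring

theorem UU_trans (hy : Hy σ₂ n) (hm : m ≠ ⊥) (hnm : n ∣ m) (hm'' : m'' ≠ ⊥) (h1 : m'' ≤ m') (h2 : m' ≤ m)
    (A : RayClassGroup σ₂ m) :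
    UU (h1.trans h2) A = ∑ᶠ A' ∈ {A' : RayClassGroup σ₂ m' | pr σ₂ h2 A' = A}, UU h1 A' := by
  classical
  have hm' : m' ≠ ⊥ := by
    rintro rfl
    exact hm'' (le_bot_iff.1 h1)
  have hnm' : n ∣ m' := V2_dvd h2 hnm
  have hf' : Finite (RayClassGroup σ₂ m') := hy.finite_cl hm' hnm'
  have hf'' : Finite (RayClassGroup σ₂ m'') := hy.finite_cl hm'' (V2_dvd h1 hnm')
  let _ : Fintype (RayClassGroup σ₂ m') := Fintype.ofFinite _
  let _ : Fintype (RayClassGroup σ₂ m'') := Fintype.ofFinite _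
  have h : {A' : RayClassGroup σ₂ m' | pr σ₂ h2 A' = A} =
      ((Finset.univ.filter (fun A' => pr σ₂ h2 A' = A) : Finset (RayClassGroup σ₂ m')) :
        Set (RayClassGroup σ₂ m')) := by
    ext A'
    simp
  rw [V2_UU_eq, h, finsum_mem_coe_finset]
  rw [← Finset.sum_fiberwise_of_maps_to (s := Finset.univ.filter (fun A'' => pr σ₂ (h1.trans h2) A'' = A))
    (t := Finset.univ.filter (fun A' => pr σ₂ h2 A' = A)) (g := fun A'' => pr σ₂ h1 A'')]
  · refine Finset.sum_congr rfl fun A' hA' => ?_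
    rw [Finset.mem_filter] at hA'
    rw [V2_UU_eq]
    refine Finset.sum_congr ?_ fun _ _ => rfl
    ext A''
    simp only [Finset.mem_filter, Finset.mem_univ, true_and]
    constructor
    · rintro ⟨-, h4⟩
      exact h4
    · intro h4
      refine ⟨?_, h4⟩
      rw [← pr_pr h1 h2, h4]
      exact hA'.2
  · intro A'' hA''
    simp only [Finset.mem_filter, Finset.mem_univ, true_and] at hA'' ⊢
    rw [pr_pr h1 h2]
    exact hA''

end Pool.Agent.STr
end

section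

/-!
# The norm relation for several primes
-/

set_option autoImplicit false

open NumberField IsDedekindDomain nonZeroDivisors IntermediateField

namespace Pool.Agent.STr

open Pool.Agent.ST
open Pool.Agent.STc (IsInt rd IsUn)

variable {K : Type*} [Field K] [NumberField K] [Algebra K ℝ] {σ₂ : K →+* ℝ} {n m m' m'' : Ideal (𝓞 K)}

theorem Nw_finite (m : Ideal (𝓞 K)) (hm' : m' ≠ ⊥) : (Nw m m').Finite :=
  (Ideal.finite_factors (show m' ≠ 0 from hm')).subset fun _ hq => hq.1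

lemma V3_step (hy : Hy σ₂ n) (hm : m ≠ ⊥) (hnm : n ∣ m) {m₁ : Ideal (𝓞 K)} (hm₁ : m₁ ≠ ⊥) (h2 : m₁ ≤ m)
    {q : PrI K} (hq : ¬ q.asIdeal ∣ m₁) (hqm : ¬ q.asIdeal ∣ m) (h1 : m₁ * q.asIdeal ≤ m₁) (A : RayClassGroup σ₂ m) :
    UU (h1.trans h2) A = UU h2 A - UU h2 (A * (cls σ₂ m (prJ m q hqm))⁻¹) := by
  have hnm₁ : n ∣ m₁ := hnm.trans (Ideal.dvd_iff_le.2 h2)
  have hm' : m₁ * q.asIdeal ≠ ⊥ := mul_ne_bot' hm₁ q.ne_bot
  have f1 := hy.finite_cl hm₁ hnm₁
  have hpr : pr σ₂ h2 (cls σ₂ m₁ (prJ m₁ q hq)) = cls σ₂ m (prJ m q hqm) := by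
    rw [pr_cls]
    congr 1
  rw [UU_trans hy hm hnm hm' h1 h2]
  simp_rw [UU_prime hy hm₁ hnm₁ hq h1]
  rw [finsum_mem_sub_distrib _ _ (Set.toFinite _)]
  unfold UU
  congr 1
  refine finsum_mem_eq_of_bijOn (fun A' => A' * (cls σ₂ m₁ (prJ m₁ q hq))⁻¹) ⟨?_, ?_, ?_⟩ fun A' _ => rfl
  · intro A' hA'
    rw [Set.mem_setOf_eq] at hA' ⊢
    rw [map_mul, map_inv, hA', hpr]
  · intro a _ b _ hab
    exact mul_right_cancel hab
  · intro B hB
    refine ⟨B * cls σ₂ m₁ (prJ m₁ q hq), ?_, by simp⟩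
    rw [Set.mem_setOf_eq] at hB ⊢
    rw [map_mul, hB, hpr, inv_mul_cancel_right]

theorem UU_all (hy : Hy σ₂ n) (hm : m ≠ ⊥) (hnm : n ∣ m) (hm' : m' ≠ ⊥) (hle : m' ≤ m) :
    ∃ e : RayClassGroup σ₂ m → ℤ, (∀ A, UU hle A = ∑ᶠ g, (e g : ℝ) * Lz σ₂ m (A * g)) ∧
      ∀ χ : RayClassGroup σ₂ m →* ℂˣ, ∑ᶠ g, (e g : ℂ) * ((χ g : ℂˣ) : ℂ) = EE χ m' := by
  classical
  have f0 := hy.finite_cl hm hnm
  have := Fintype.ofFinite (RayClassGroup σ₂ m)
  obtain ⟨J, hJ⟩ := Ideal.dvd_iff_le.2 hle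
  have hJ0 : J ≠ ⊥ := by
    rintro rfl
    exact hm' (by rw [hJ, Ideal.mul_bot])
  suffices H : ∀ J : Ideal (𝓞 K), J ≠ ⊥ → ∀ m' : Ideal (𝓞 K), m' = m * J → ∀ hle : m' ≤ m,
      ∃ e : RayClassGroup σ₂ m → ℤ, (∀ A, UU hle A = ∑ᶠ g, (e g : ℝ) * Lz σ₂ m (A * g)) ∧
      ∀ χ : RayClassGroup σ₂ m →* ℂˣ, ∑ᶠ g, (e g : ℂ) * ((χ g : ℂˣ) : ℂ) = EE χ m' from H J hJ0 m' hJ hle
  clear hJ hJ0 hm'
  clear J
  intro J
  refine UniqueFactorizationMonoid.induction_on_prime J (fun h => absurd rfl h) ?_ ?_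
  · intro J hJ _ m' hm' hle
    have h1 : m' = m := by
      rw [hm', Ideal.isUnit_iff.1 hJ, Ideal.mul_top]
    subst h1
    refine ⟨fun g => if g = 1 then 1 else 0, fun A => ?_, fun χ => ?_⟩
    · rw [UU_refl, finsum_eq_sum_of_fintype, Finset.sum_eq_single 1]
      · simp
      · intro g _ hg
        simp [hg]
      · intro h
        exact absurd (Finset.mem_univ _) h
    · have h2 : Nw m' m' = ∅ := by
        ext q
        simp only [Nw, Set.mem_setOf_eq, Set.mem_empty_iff_false, iff_false, not_and, not_not]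
        exact fun h => h
      unfold EE
      rw [h2, finprod_mem_empty, finsum_eq_sum_of_fintype, Finset.sum_eq_single 1]
      · simp
      · intro g _ hg
        simp [hg]
      · intro h
        exact absurd (Finset.mem_univ _) h
  · intro J₀ p hJ₀ hp ih _ m' hm' hle
    have hp0 : p ≠ ⊥ := hp.ne_zero
    let q : PrI K := ⟨p, Ideal.isPrime_of_prime hp, hp0⟩
    have hqp : q.asIdeal = p := rfl
    have hm₁ : m * J₀ ≠ ⊥ := mul_ne_bot' hm hJ₀
    have h2 : m * J₀ ≤ m := Ideal.mul_le_left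
    obtain ⟨e₁, he₁, hE₁⟩ := ih hJ₀ (m * J₀) rfl h2
    have hm'2 : m' = m * J₀ * q.asIdeal := by
      rw [hm', hqp]
      ring
    have h1 : m * J₀ * q.asIdeal ≤ m * J₀ := Ideal.mul_le_left
    have hm'0 : m * J₀ * q.asIdeal ≠ ⊥ := mul_ne_bot' hm₁ q.ne_bot
    have hnm₁ : n ∣ m * J₀ := hnm.trans (dvd_mul_right _ _)
    subst hm'2
    have hfac : ∀ v : PrI K, v.asIdeal ∣ m * J₀ * q.asIdeal → v.asIdeal ∣ m * J₀ ∨ v = q := by
      intro v hv
      rcases v.prime.dvd_or_dvd hv with h | h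
      · exact Or.inl h
      · right
        have h3 : q.asIdeal ≤ v.asIdeal := Ideal.le_of_dvd h
        exact (HeightOneSpectrum.ext (q.isMaximal.eq_of_le v.isPrime.ne_top h3)).symm
    by_cases hq : q.asIdeal ∣ m * J₀
    · refine ⟨e₁, fun A => ?_, fun χ => ?_⟩
      · rw [UU_trans hy hm hnm hm'0 h1 h2, ← he₁ A]
        have h3 : ∀ A₁, UU h1 A₁ = Lz σ₂ (m * J₀) A₁ := by
          intro A₁
          refine UU_same hy hm₁ hnm₁ hm'0 h1 (fun v hv => ?_) A₁
          rcases hfac v hv with h | rfl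
          · exact h
          · exact hq
        simp_rw [h3]
        rfl
      · rw [hE₁ χ]
        unfold EE
        have h3 : Nw m (m * J₀ * q.asIdeal) = Nw m (m * J₀) := by
          ext v
          constructor
          · rintro ⟨hv1, hv2⟩
            rcases hfac v hv1 with h | rfl
            · exact ⟨h, hv2⟩
            · exact ⟨hq, hv2⟩
          · rintro ⟨hv1, hv2⟩
            exact ⟨hv1.mul_right _, hv2⟩
        rw [h3]
    · have hqm : ¬ q.asIdeal ∣ m := fun h => hq (h.mul_right _)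
      set Q := cls σ₂ m (prJ m q hqm) with hQ
      refine ⟨fun g => e₁ g - e₁ (g * Q), fun A => ?_, fun χ => ?_⟩
      · rw [V3_step hy hm hnm hm₁ h2 hq hqm h1 A, he₁, he₁, finsum_eq_sum_of_fintype, finsum_eq_sum_of_fintype,
          finsum_eq_sum_of_fintype, ← Equiv.sum_comp (Equiv.mulRight Q) (fun g => (e₁ g : ℝ) * Lz σ₂ m (A * Q⁻¹ * g)),
          ← Finset.sum_sub_distrib]
        refine Finset.sum_congr rfl fun g _ => ?_
        rw [Equiv.coe_mulRight]
        have h3 : A * Q⁻¹ * (g * Q) = A * g := by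
          rw [mul_comm g Q, ← mul_assoc, inv_mul_cancel_right]
        rw [h3]
        push_cast
        ring
      · have h3 : Nw m (m * J₀ * q.asIdeal) = insert q (Nw m (m * J₀)) := by
          ext v
          rw [Set.mem_insert_iff]
          constructor
          · rintro ⟨hv1, hv2⟩
            rcases hfac v hv1 with h | h
            · exact Or.inr ⟨h, hv2⟩
            · exact Or.inl h
          · rintro (rfl | ⟨hv1, hv2⟩)
            · exact ⟨dvd_mul_left _ _, hqm⟩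
            · exact ⟨hv1.mul_right _, hv2⟩
        have h4 : q ∉ Nw m (m * J₀) := fun h => hq h.1
        have h5 : EE χ (m * J₀ * q.asIdeal) = (1 - (((χ Q)⁻¹ : ℂˣ) : ℂ)) * EE χ (m * J₀) := by
          unfold EE
          rw [h3, finprod_mem_insert _ h4 (Nw_finite m hm₁)]
          congr 2
          unfold chQ
          rw [dif_pos hqm, Units.val_inv_eq_inv_val]
        rw [h5, ← hE₁ χ, finsum_eq_sum_of_fintype, finsum_eq_sum_of_fintype]
        have h6 : ∑ g : RayClassGroup σ₂ m, (((e₁ g - e₁ (g * Q) : ℤ)) : ℂ) * ((χ g : ℂˣ) : ℂ) =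
            ∑ g : RayClassGroup σ₂ m, (e₁ g : ℂ) * ((χ g : ℂˣ) : ℂ) -
            ∑ g : RayClassGroup σ₂ m, (e₁ (g * Q) : ℂ) * ((χ g : ℂˣ) : ℂ) := by
          rw [← Finset.sum_sub_distrib]
          refine Finset.sum_congr rfl fun g _ => ?_
          push_cast
          ring
        have h7 : ∑ g : RayClassGroup σ₂ m, (e₁ (g * Q) : ℂ) * ((χ g : ℂˣ) : ℂ) =
            (((χ Q)⁻¹ : ℂˣ) : ℂ) * ∑ g : RayClassGroup σ₂ m, (e₁ g : ℂ) * ((χ g : ℂˣ) : ℂ) := by
          rw [Finset.mul_sum, ← Equiv.sum_comp (Equiv.mulRight Q)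
            (fun g => (((χ Q)⁻¹ : ℂˣ) : ℂ) * ((e₁ g : ℂ) * ((χ g : ℂˣ) : ℂ)))]
          refine Finset.sum_congr rfl fun g _ => ?_
          rw [Equiv.coe_mulRight, map_mul, Units.val_mul, Units.val_inv_eq_inv_val]
          have h8 : ((χ Q : ℂˣ) : ℂ) ≠ 0 := Units.ne_zero _
          field_simp
        rw [h6, h7]
        ring

end Pool.Agent.STr
end
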