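import Pool.Agent.Lib.MP_1ef7cf_nt_r.Ba0
import Pool.Agent.Lib.MP_1ef7cf_nt_h.Mg.G016
import Pool.Agent.Lib.MP_1ef7cf_nt_g.Q
import Pool.Agent.Lib.MP_1ef7cf_nt_g.Mg.G005

section

/-!
# TASK Ba1: the quartic symbol is a character modulo `n`

PROOF. `st`, `mul`: fields of `UD`. `unit`: take a Gaussian prime `p`, `gOdd p`, not dividing `U.d` (e.g. a rational prime `q`, `q % 4 = 3`, `q > U.d`, it is a Gaussian prime; or any prime factor of a prime
number `> U.d`). `U.leg` for `p` and for `u p` (also prime, `gN (u p) = gN p`, same divisors): `p ∣ d ^ ((gN p - 1) / 4) - κ p` and `u p ∣ d ^ ((gN p - 1) / 4) - κ (u p)`, so `p ∣ κ p - κ (u p)`, and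
`κ p = κ (u p)` (`unit_unique`, `R1_unique` in `MP_1ef7cf_nt_h/R1.lean`). `U.mul`: `κ (u p) = κ u * κ p`. So `κ u = 1`.
`per`: `64 ∣ n`, so `a` is odd, `a = u a'` with `u` a unit and `a'` primary (`exists_prim_assoc` in `MP_1ef7cf_nt_g/Q.lean`), `b' = u⁻¹ b`; `n ∣ a' - b'`; `U.per` (Per.lean) gives `κ a' = κ b'`, and `κ a = κ u κ a'`.
-/

set_option autoImplicit false

namespace Pool.Agent.STr

open Pool.Agent.STg (gN gOdd Prim)
open Pool.Agent.STh (UD)

lemma Ba1_two_not_unit : ¬ IsUnit (⟨1, 1⟩ : GaussianInt) := by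
  intro h
  rcases Pool.Agent.STg.Q_units _ h with h | h | h | h <;> simp at h

lemma Ba1_odd {n : ℕ} (h2 : 2 ∣ n) {a : GaussianInt} (h : IsCoprime a ((n : ℕ) : GaussianInt)) : gOdd a := by
  by_contra hcon
  obtain ⟨c, hc⟩ := Pool.Agent.STg.D3_even hcon
  obtain ⟨m, rfl⟩ := h2
  have e : (((2 * m : ℕ)) : GaussianInt) = ⟨1, 1⟩ * (⟨1, -1⟩ * (m : GaussianInt)) := by
    have e2 : (2 : GaussianInt) = ⟨1, 1⟩ * ⟨1, -1⟩ := by decide
    rw [Nat.cast_mul, Nat.cast_ofNat, e2, mul_assoc]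
  obtain ⟨x, y, hxy⟩ := h
  apply Ba1_two_not_unit
  apply isUnit_of_dvd_one
  rw [← hxy, hc, e]
  exact ⟨x * c + y * (⟨1, -1⟩ * (m : GaussianInt)), by ring⟩

lemma Ba1_exists_prime {d : ℕ} (hd : d ≠ 0) :
    ∃ p : GaussianInt, Prime p ∧ gOdd p ∧ ¬ p ∣ ((d : ℕ) : GaussianInt) := by
  obtain ⟨q, hq1, hq⟩ := Nat.exists_infinite_primes (d + 3)
  have hqd : Nat.Coprime q d := by
    rw [Nat.Prime.coprime_iff_not_dvd hq]
    intro h
    have := Nat.le_of_dvd (Nat.pos_of_ne_zero hd) h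
    omega
  have hu : ¬ IsUnit ((q : ℕ) : GaussianInt) := by
    intro h
    rcases Pool.Agent.STg.Q_units _ h with h | h | h | h
    · have h1 : ((q : ℕ) : GaussianInt).re = (q : ℤ) := by simp
      rw [h1] at h
      omega
    · have h1 : ((q : ℕ) : GaussianInt).re = (q : ℤ) := by simp
      rw [h1] at h
      omega
    · have h1 : ((q : ℕ) : GaussianInt).im = 0 := by simp
      rw [h1] at h
      omega
    · have h1 : ((q : ℕ) : GaussianInt).im = 0 := by simp
      rw [h1] at h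
      omega
  have hq0 : ((q : ℕ) : GaussianInt) ≠ 0 := by
    intro h
    have h1 : q = 0 := by exact_mod_cast h
    exact hq.ne_zero h1
  obtain ⟨p, hp, c, hc⟩ := WfDvdMonoid.exists_irreducible_factor hu hq0
  refine ⟨p, hp.prime, ?_, ?_⟩
  · have h1 : gN ((q : ℕ) : GaussianInt) = q * q := by
      have := Pool.Agent.STg.Q_gN ((q : ℕ) : GaussianInt)
      have h2 : ((q : ℕ) : GaussianInt).re = (q : ℤ) := by simp
      have h3 : ((q : ℕ) : GaussianInt).im = 0 := by simp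
      rw [h2, h3] at this
      have h4 : ((gN ((q : ℕ) : GaussianInt) : ℕ) : ℤ) = ((q * q : ℕ) : ℤ) := by
        rw [this]; push_cast; ring
      exact_mod_cast h4
    have h2 : Odd (gN ((q : ℕ) : GaussianInt)) := by
      rw [h1]
      have : Odd q := hq.odd_of_ne_two (by omega)
      exact this.mul this
    rw [hc, Pool.Agent.STg.gN_mul] at h2
    exact (Nat.odd_mul.mp h2).1
  · intro hpd
    have h1 : IsCoprime ((q : ℕ) : GaussianInt) ((d : ℕ) : GaussianInt) := by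
      have h2 : IsCoprime ((q : ℕ) : ℤ) ((d : ℕ) : ℤ) := Nat.isCoprime_iff_coprime.mpr hqd
      have h3 := h2.map (Int.castRingHom GaussianInt)
      simpa using h3
    obtain ⟨x, y, hxy⟩ := h1
    apply hp.not_isUnit
    apply isUnit_of_dvd_one
    rw [← hxy]
    exact dvd_add (Dvd.dvd.mul_left ⟨c, hc⟩ _) (Dvd.dvd.mul_left hpd _)

lemma Ba1_unit (U : UD) {u : GaussianInt} (hu : IsUnit u) : U.κ u = 1 := by
  obtain ⟨p, hp, ho, hpd⟩ := Ba1_exists_prime U.d_ne_zero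
  have ha : Associated p (u * p) := associated_unit_mul_right p u hu
  have hp' : Prime (u * p) := ha.prime_iff.1 hp
  have ho' : gOdd (u * p) := Pool.Agent.STh.R1_gOdd_of_associated ha ho
  have hpd' : ¬ (u * p) ∣ ((U.d : ℕ) : GaussianInt) := fun h => hpd ((dvd_mul_left p u).trans h)
  have h1 := U.leg p hp ho hpd
  have h2 := U.leg (u * p) hp' ho' hpd'
  rw [← Pool.Agent.STh.gN_eq_of_associated ha] at h2
  have h3 : U.κ p = U.κ (u * p) := Pool.Agent.STh.R1_unique hp ho h1 ((dvd_mul_left p u).trans h2)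
  rw [U.mul u p hu.ne_zero hp.ne_zero] at h3
  exact mul_right_cancel (b := U.κ p) (by rw [one_mul]; exact h3.symm)

theorem UD_gc (U : UD) : GC U.n U.κ := by
  have h2n : 2 ∣ U.n := (Dvd.intro _ (by ring : 2 * (32 * U.d) = 64 * U.d)).trans U.dvd
  refine ⟨U.mul, fun u hu => Ba1_unit U hu, ?_, U.st⟩
  intro a b ha hab
  have hb : IsCoprime b ((U.n : ℕ) : GaussianInt) := by
    obtain ⟨c, hc⟩ := hab
    have e : b = a + ((U.n : ℕ) : GaussianInt) * (-c) := by linear_combination -hc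
    rw [e]
    exact ha.add_mul_left_left _
  have ha0 : a ≠ 0 := fun h => by
    have := Ba1_odd h2n ha
    rw [h] at this
    unfold gOdd gN at this
    simp at this
  have hb0 : b ≠ 0 := fun h => by
    have := Ba1_odd h2n hb
    rw [h] at this
    unfold gOdd gN at this
    simp at this
  obtain ⟨u, hu, hP⟩ := Pool.Agent.STg.exists_prim_assoc (Ba1_odd h2n ha)
  have h1 : IsCoprime (u * a) ((U.n : ℕ) : GaussianInt) := (isCoprime_mul_unit_left_left hu _ _).mpr ha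
  have h3 : ((U.n : ℕ) : GaussianInt) ∣ u * a - u * b := by
    rw [← mul_sub]
    exact Dvd.dvd.mul_left hab _
  have h4 := U.per hP h1 h3
  rw [U.mul u a hu.ne_zero ha0, U.mul u b hu.ne_zero hb0, Ba1_unit U hu, one_mul, one_mul] at h4
  exact h4

end Pool.Agent.STr
end

section

/-!
# TASK Ba2: the quartic symbols of `d` and `d c²`

PROOF. `U'.κ a = J(c | N a) U.κ a` for `a` prime to `n`. (`64 d c² ∣ n`, so `c ∣ n`, and `a` is prime to `c`, `d` and `2`; `gN a` is odd and prime to `c`.) Both sides are multiplicative in `a` (`GC.mul`, `gN_mul`,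
`jacobiSym.mul_right`) and for units `a` both sides are `1` (`GC.unit`, `gN = 1`). By induction over the factorization of `a` (`UniqueFactorizationMonoid.induction_on_prime`; a divisor of `a` is
prime to `n`) it is enough to treat a prime `a = π`. `U.leg`, `U'.leg`: `π ∣ d ^ e - κ π`, `π ∣ (d c²) ^ e - κ' π`, `e = (N π - 1) / 4`, so `π ∣ κ' π - c ^ ((N π - 1) / 2) κ π` (`2 e = (N π - 1) / 2`, `N π % 4 = 1`: `R1_gN_mod`).
CLAIM `π ∣ c ^ ((N π - 1) / 2) - J(c | N π)`: if `N π = p` is a prime number: Euler's criterion (`legendreSym.eq_pow`, `jacobiSym.legendreSym.to_jacobiSym`) gives `p ∣ c ^ ((p - 1) / 2) - J(c | p)`, and `π ∣ p`. Otherwise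
`π` is associated to a prime number `q`, `N π = q ^ 2`, `J(c | q ^ 2) = 1` and `c ^ ((q ^ 2 - 1) / 2) = (c ^ (q - 1)) ^ ((q + 1) / 2) ≡ 1 mod q`.
So `π ∣ κ' π - J κ π`, both are units, `π` is odd, and they are equal (`R1_unique`).
-/

set_option autoImplicit false

namespace Pool.Agent.STr

open Pool.Agent.STg (gN gOdd Prim)
open Pool.Agent.STh (UD)

lemma Ba2_exists_prime {π : GaussianInt} (hπ : Prime π) :
    ∃ p : ℕ, p.Prime ∧ π ∣ ((p : ℕ) : GaussianInt) ∧ (gN π = p ∨ gN π = p ^ 2) := by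
  have h0 : gN π ≠ 0 := (Pool.Agent.STg.gN_pos hπ.ne_zero).ne'
  have h1 : π ∣ ((gN π : ℕ) : GaussianInt) := ⟨star π, (Pool.Agent.STg.mul_star_eq π).symm⟩
  have h2 : (((gN π).primeFactorsList.map (fun m : ℕ => (m : GaussianInt)))).prod =
      ((gN π : ℕ) : GaussianInt) := by
    conv_rhs => rw [← Nat.prod_primeFactorsList h0]
    rw [Nat.cast_list_prod]
  rw [← h2, hπ.dvd_prod_iff] at h1
  obtain ⟨x, hx, hx2⟩ := h1
  obtain ⟨p, hp, rfl⟩ := List.mem_map.1 hx
  have hpp : p.Prime := Nat.prime_of_mem_primeFactorsList hp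
  refine ⟨p, hpp, hx2, ?_⟩
  obtain ⟨τ, hτ⟩ := hx2
  have h3 : gN π * gN τ = p ^ 2 := by
    rw [← Pool.Agent.STg.gN_mul, ← hτ]
    unfold Pool.Agent.STg.gN
    simp only [Zsqrtd.norm_natCast]
    rw [← Nat.cast_mul, Int.natAbs_natCast]
    ring
  obtain ⟨k, hk, hk2⟩ := (Nat.dvd_prime_pow hpp).1 (Dvd.intro _ h3)
  interval_cases k
  · exfalso
    rw [pow_zero] at hk2
    apply hπ.not_isUnit
    rw [← Zsqrtd.norm_eq_one_iff]
    exact hk2
  · left
    rw [hk2, pow_one]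
  · right
    exact hk2

lemma Ba2_euler {π : GaussianInt} {p : ℕ} (hp : p.Prime) (hpo : p ≠ 2)
    (hd : π ∣ ((p : ℕ) : GaussianInt)) (hN : gN π = p ∨ gN π = p ^ 2) {c : ℕ}
    (hc : ¬ π ∣ ((c : ℕ) : GaussianInt)) :
    (jacobiSym c (gN π) = 1 ∨ jacobiSym c (gN π) = -1) ∧
    π ∣ ((c : ℕ) : GaussianInt) ^ ((gN π - 1) / 2) - ((jacobiSym c (gN π) : ℤ) : GaussianInt) := by
  have hpc : ¬ p ∣ c := fun h => hc (hd.trans (Nat.cast_dvd_cast h))
  have hcop : Nat.Coprime c p := ((Nat.Prime.coprime_iff_not_dvd hp).2 hpc).symm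
  have : Fact p.Prime := ⟨hp⟩
  have hodd : p % 2 = 1 := hp.eq_two_or_odd.resolve_left hpo
  have key : ∀ z : ℤ, (p : ℤ) ∣ z → π ∣ ((z : ℤ) : GaussianInt) := by
    intro z hz
    refine hd.trans ?_
    obtain ⟨w, rfl⟩ := hz
    push_cast
    exact Dvd.intro _ rfl
  rcases hN with hN | hN
  · rw [hN]
    constructor
    · exact jacobiSym.eq_one_or_neg_one (by
        rw [Int.gcd_natCast_natCast]; exact hcop)
    · rw [← jacobiSym.legendreSym.to_jacobiSym]
      have h2 : (p : ℤ) ∣ ((c ^ ((p - 1) / 2) : ℕ) : ℤ) - legendreSym p c := by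
        rw [← ZMod.intCast_zmod_eq_zero_iff_dvd, Int.cast_sub, sub_eq_zero]
        rw [legendreSym.eq_pow]
        push_cast
        congr 1
        omega
      have h3 := key _ h2
      push_cast at h3
      exact h3
  · rw [hN]
    have hJ : jacobiSym c (p ^ 2) = 1 := by
      rw [jacobiSym.pow_right]
      exact jacobiSym.sq_one (by rw [Int.gcd_natCast_natCast]; exact hcop)
    refine ⟨Or.inl hJ, ?_⟩
    rw [hJ]
    have h2 : (p : ℤ) ∣ ((c ^ ((p ^ 2 - 1) / 2) : ℕ) : ℤ) - 1 := by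
      rw [← ZMod.intCast_zmod_eq_zero_iff_dvd, Int.cast_sub, sub_eq_zero]
      have e : (p ^ 2 - 1) / 2 = (p - 1) * ((p + 1) / 2) := by
        obtain ⟨m, hm⟩ : ∃ m, p = 2 * m + 1 := ⟨p / 2, by omega⟩
        subst hm
        have e1 : (2 * m + 1) ^ 2 - 1 = 2 * (2 * m * (m + 1)) := by
          have : (2 * m + 1) ^ 2 = 2 * (2 * m * (m + 1)) + 1 := by ring
          omega
        have e2 : (2 * m + 1 + 1) / 2 = m + 1 := by omega
        rw [e1, e2, Nat.mul_div_cancel_left _ (by norm_num)]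
        simp
      rw [e]
      push_cast
      rw [pow_mul, ZMod.pow_card_sub_one_eq_one, one_pow]
      intro h0
      apply hpc
      rwa [ZMod.natCast_eq_zero_iff] at h0
    have h3 := key _ h2
    push_cast at h3 ⊢
    exact h3

lemma Ba2_prime (U U' : UD) (hn : U'.n = U.n) {c : ℕ} (hd : U'.d = U.d * c ^ 2) {π : GaussianInt}
    (hπ : Prime π) (ha : IsCoprime π ((U.n : ℕ) : GaussianInt)) :
    ((U'.κ π : GaussianIntˣ) : GaussianInt) = ((jacobiSym c (gN π) : ℤ) : GaussianInt) *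
      ((U.κ π : GaussianIntˣ) : GaussianInt) := by
  have hdiv : ∀ m : ℕ, m ∣ U.n → ¬ π ∣ ((m : ℕ) : GaussianInt) := by
    intro m hm h
    exact hπ.not_isUnit (ha.isUnit_of_dvd' dvd_rfl (h.trans (Nat.cast_dvd_cast hm)))
  have hdv : 64 * (U.d * c ^ 2) ∣ U.n := by
    have := U'.dvd
    rwa [hd, hn] at this
  have hd2 : 2 ∣ U.n := (Dvd.intro (32 * (U.d * c ^ 2)) (by ring)).trans hdv
  have hdc : c ∣ U.n := (Dvd.intro (64 * U.d * c) (by ring)).trans hdv
  have hdd : U.d ∣ U.n := (Dvd.intro (64 * c ^ 2) (by ring)).trans hdv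
  have hdd' : U'.d ∣ U.n := by
    rw [hd]
    exact (Dvd.intro 64 (by ring)).trans hdv
  obtain ⟨p, hp, hpd, hN⟩ := Ba2_exists_prime hπ
  have hp2 : p ≠ 2 := by
    rintro rfl
    exact hdiv 2 hd2 hpd
  have hodd : gOdd π := by
    unfold Pool.Agent.STg.gOdd
    have hpo : Odd p := hp.odd_of_ne_two hp2
    rcases hN with h | h
    · rw [h]; exact hpo
    · rw [h]; exact hpo.pow
  obtain ⟨hJ, hE⟩ := Ba2_euler hp hp2 hpd hN (hdiv c hdc)
  have h1 := U.leg π hπ hodd (hdiv _ hdd)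
  have h2 := U'.leg π hπ hodd (hdiv _ hdd')
  have hm := Pool.Agent.STh.R1_gN_mod hodd
  have e2 : (gN π - 1) / 2 = 2 * ((gN π - 1) / 4) := by omega
  rw [e2] at hE
  obtain ⟨v, hv⟩ : ∃ v : GaussianIntˣ, (v : GaussianInt) =
      ((jacobiSym c (gN π) : ℤ) : GaussianInt) * ((U.κ π : GaussianIntˣ) : GaussianInt) := by
    rcases hJ with h | h
    · exact ⟨U.κ π, by rw [h]; simp⟩
    · exact ⟨-U.κ π, by rw [h]; simp⟩
  rw [← hv]
  refine congrArg _ (Pool.Agent.STh.unit_unique hπ hodd ?_)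
  rw [hv]
  rw [hd] at h2
  push_cast at h2
  generalize (gN π - 1) / 4 = e at h1 h2 hE
  have e3 : ((U'.κ π : GaussianIntˣ) : GaussianInt) - ((jacobiSym c (gN π) : ℤ) : GaussianInt) *
      ((U.κ π : GaussianIntˣ) : GaussianInt) =
      -(((U.d : GaussianInt) * (c : GaussianInt) ^ 2) ^ e - ((U'.κ π : GaussianIntˣ) : GaussianInt)) +
      (((c : ℕ) : GaussianInt) ^ (2 * e) - ((jacobiSym c (gN π) : ℤ) : GaussianInt)) *
        (U.d : GaussianInt) ^ e +
      ((jacobiSym c (gN π) : ℤ) : GaussianInt) * ((U.d : GaussianInt) ^ e -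
        ((U.κ π : GaussianIntˣ) : GaussianInt)) := by
    rw [mul_pow, ← pow_mul]
    ring
  rw [e3]
  exact dvd_add (dvd_add ((dvd_neg).2 h2) (Dvd.dvd.mul_right hE _)) (Dvd.dvd.mul_left h1 _)

theorem kap_mul_sq (U U' : UD) (hn : U'.n = U.n) {c : ℕ} (hc : c ≠ 0) (hd : U'.d = U.d * c ^ 2) {a : GaussianInt}
    (ha : IsCoprime a ((U.n : ℕ) : GaussianInt)) :
    ((U'.κ a : GaussianIntˣ) : GaussianInt) = ((jacobiSym c (gN a) : ℤ) : GaussianInt) * ((U.κ a : GaussianIntˣ) : GaussianInt) := by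
  have hGC := UD_gc U
  have hGC' := UD_gc U'
  have hun : ¬ IsUnit ((U.n : ℕ) : GaussianInt) := by
    intro h
    have h1 : ((2 : ℕ) : GaussianInt) ∣ ((U.n : ℕ) : GaussianInt) :=
      Nat.cast_dvd_cast ((Dvd.intro (32 * U.d) (by ring)).trans U.dvd)
    have h2 : IsUnit ((2 : ℕ) : GaussianInt) := isUnit_of_dvd_unit h1 h
    rw [← Zsqrtd.norm_eq_one_iff, Zsqrtd.norm_natCast] at h2
    norm_num at h2
  revert ha
  refine UniqueFactorizationMonoid.induction_on_prime a ?_ ?_ ?_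
  · intro h
    exact absurd (isCoprime_zero_left.1 h) hun
  · intro u hu _
    rw [hGC.unit u hu, hGC'.unit u hu]
    have : gN u = 1 := Zsqrtd.norm_eq_one_iff.2 hu
    rw [this, jacobiSym.one_right]
    simp
  · intro b π hb hπ ih hcop
    have h1 : IsCoprime π ((U.n : ℕ) : GaussianInt) := hcop.of_mul_left_left
    have h2 : IsCoprime b ((U.n : ℕ) : GaussianInt) := hcop.of_mul_left_right
    rw [hGC.mul π b hπ.ne_zero hb, hGC'.mul π b hπ.ne_zero hb, Units.val_mul, Units.val_mul, ih h2,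
      Ba2_prime U U' hn hd hπ h1, Pool.Agent.STg.gN_mul,
      jacobiSym.mul_right' _ (Pool.Agent.STg.gN_pos hπ.ne_zero).ne' (Pool.Agent.STg.gN_pos hb).ne']
    push_cast
    ring

end Pool.Agent.STr
end

section

/-!
# TASK Ba8b: the dual theta series

PROOF. `HurwitzZeta.hasSum_int_cosKernel` for `z.re` and `z.im`; the product of two absolutely convergent series (`HasSum.mul` with the summability of the norms, cf. `theta_sum` in `MP_1ef7cf_nt_g/AnK5.lean`), the bijection `AnK5_equiv` of `ℤ[i]` with `ℤ × ℤ`;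
`Re (z * conj x) = z.re * x.re + z.im * x.im` and `‖x‖ ^ 2 = x.re ^ 2 + x.im ^ 2`.
`EK_CK`: `ek_feq` (`MP_1ef7cf_nt_g/AnK1.lean`) or its proof.
-/

set_option autoImplicit false

open Complex
open scoped ComplexConjugate

namespace Pool.Agent.STr

theorem hasSum_CK (z : ℂ) {t : ℝ} (ht : 0 < t) :
    HasSum (fun x : GaussianInt => pe (z * conj (x : ℂ)) * ((Real.exp (-Real.pi * ‖(x : ℂ)‖ ^ 2 * t) : ℝ) : ℂ))
      ((CK z t : ℝ) : ℂ) := by
  have h1 := HurwitzZeta.hasSum_int_cosKernel z.re ht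
  have h2 := HurwitzZeta.hasSum_int_cosKernel z.im ht
  have n1 : Summable (fun n : ℤ => ‖cexp (2 * Real.pi * I * z.re * n) *
      ((Real.exp (-Real.pi * (n : ℝ) ^ 2 * t) : ℝ) : ℂ)‖) := h1.summable.norm
  have n2 : Summable (fun n : ℤ => ‖cexp (2 * Real.pi * I * z.im * n) *
      ((Real.exp (-Real.pi * (n : ℝ) ^ 2 * t) : ℝ) : ℂ)‖) := h2.summable.norm
  have hs := summable_mul_of_summable_norm n1 n2
  have h3 := h1.mul h2 hs
  have h4 := (Pool.Agent.STg.An.AnK5_equiv.hasSum_iff).mpr h3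
  have h5 : ((HurwitzZeta.cosKernel (z.re : UnitAddCircle) t : ℝ) : ℂ) *
      ((HurwitzZeta.cosKernel (z.im : UnitAddCircle) t : ℝ) : ℂ) = ((CK z t : ℝ) : ℂ) := by
    unfold CK
    push_cast
    ring
  rw [h5] at h4
  refine h4.congr_fun ?_ |> fun h => h
  intro a
  simp only [Function.comp, Pool.Agent.STg.An.AnK5_equiv, Equiv.coe_fn_mk]
  have e1 : (z * conj (a : ℂ)).re = z.re * (a.re : ℝ) + z.im * (a.im : ℝ) := by
    rw [Complex.mul_re, Complex.conj_re, Complex.conj_im, ← GaussianInt.intCast_re,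
      ← GaussianInt.intCast_im]
    ring
  have e2 : ‖(a : ℂ)‖ ^ 2 = (a.re : ℝ) ^ 2 + (a.im : ℝ) ^ 2 := by
    rw [Complex.sq_norm, Complex.normSq_apply, ← GaussianInt.intCast_re, ← GaussianInt.intCast_im]
    ring
  unfold pe
  rw [e1, e2]
  have e3 : Real.exp (-Real.pi * ((a.re : ℝ) ^ 2 + (a.im : ℝ) ^ 2) * t) =
      Real.exp (-Real.pi * (a.re : ℝ) ^ 2 * t) * Real.exp (-Real.pi * (a.im : ℝ) ^ 2 * t) := by
    rw [← Real.exp_add]
    congr 1
    ring
  have e4 : cexp (2 * Real.pi * I * ((z.re * (a.re : ℝ) + z.im * (a.im : ℝ) : ℝ) : ℂ)) =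
      cexp (2 * Real.pi * I * z.re * (a.re : ℂ)) * cexp (2 * Real.pi * I * z.im * (a.im : ℂ)) := by
    rw [← Complex.exp_add]
    congr 1
    push_cast
    ring
  rw [e3, e4]
  push_cast
  ring

theorem EK_CK (z : ℂ) {t : ℝ} (ht : 0 < t) : EK z (1 / t) = t * CK z t := by
  unfold EK CK
  rw [HurwitzZeta.evenKernel_functional_equation, HurwitzZeta.evenKernel_functional_equation,
    one_div_one_div]
  have h1 : (1 / t) ^ (1 / 2 : ℝ) = (t ^ (1 / 2 : ℝ))⁻¹ := by
    rw [one_div, Real.inv_rpow ht.le]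
  have h2 : t ^ (1 / 2 : ℝ) * t ^ (1 / 2 : ℝ) = t := by
    rw [← Real.rpow_add ht]
    norm_num
  rw [h1, one_div, inv_inv]
  linear_combination (HurwitzZeta.cosKernel (z.re : UnitAddCircle) t *
    HurwitzZeta.cosKernel (z.im : UnitAddCircle) t) * h2

end Pool.Agent.STr
end
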