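import Pool.Agent.Lib.MP_1ef7cf_nt_r.Ba0
import Pool.Agent.Lib.MP_1ef7cf_nt_r.Mg.G003

section

/-!
# TASK Ba3: Gaussian integers in `Gp` with symbol `-1`

PROOF. Write `Q = p ^ v * Q'`, `¬ p ∣ Q'` (`Nat.exists_eq_pow_mul_and_not_dvd`). `u ≡ 1 mod Q'` gives the second condition of `Gp` (a divisor `f` of `Q` not divisible by the prime `p` divides `Q'`).
`p` odd: there are integers `x`, `y` with `x ^ 2 + y ^ 2` congruent to a quadratic nonresidue modulo `p` (`ZMod.sq_add_sq`; a nonresidue exists, e.g. `ZMod.exists_nonsquare`-like / `FiniteField.exists_nonsquare`). By the Chinese remainder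
theorem (for the real and imaginary parts) there is `u` with `u ≡ x + y i mod p ^ v`, `u ≡ 1 mod Q'`. `u` is coprime to `Q'` and (`N u ≡ x ^ 2 + y ^ 2` is prime to `p`) to `p ^ v`. `64 ∣ Q'`, so `N u ≡ 1 mod 64`; quadratic
reciprocity (`jacobiSym.quadratic_reciprocity_one_mod_four`): `J(p | N u) = J(N u | p) = -1`.
`p = 2`: `u ≡ 1 + 2 i mod 2 ^ v`, `u ≡ 1 mod Q'`; `64 ∣ 2 ^ v`, so `N u ≡ 5 mod 64` and `J(2 | N u) = -1` (`jacobiSym.at_two`, `ZMod.χ₈_nat_eq_if_mod_eight`).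
-/

set_option autoImplicit false

namespace Pool.Agent.STr

open Pool.Agent.STg (gN gOdd Prim)

lemma Ba3_gp {Q p v Q' : ℕ} (hp : p.Prime) (hQ : Q = p ^ v * Q') (X Y : ℕ)
    (hX : 1 ≡ X [MOD Q']) (hY : 0 ≡ Y [MOD Q']) (hN : Nat.Coprime p (X * X + Y * Y)) :
    Gp Q p ⟨(X : ℤ), (Y : ℤ)⟩ := by
  constructor
  · have h1 : Nat.Coprime (X * X + Y * Y) Q' := by
      have h2 : 1 * 1 + 0 * 0 ≡ X * X + Y * Y [MOD Q'] := (hX.mul hX).add (hY.mul hY)
      have h3 := h2.gcd_eq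
      unfold Nat.Coprime
      rw [← h3]
      simp
    have h2 : Nat.Coprime (X * X + Y * Y) Q := by
      rw [hQ]
      exact Nat.Coprime.mul_right (hN.symm.pow_right v) h1
    have h3 : IsCoprime (((X * X + Y * Y : ℕ)) : GaussianInt) ((Q : ℕ) : GaussianInt) := by
      have h4 : IsCoprime (((X * X + Y * Y : ℕ)) : ℤ) ((Q : ℕ) : ℤ) := Nat.isCoprime_iff_coprime.mpr h2
      have h5 := h4.map (Int.castRingHom GaussianInt)
      simpa using h5
    have e : (((X * X + Y * Y : ℕ)) : GaussianInt) = ⟨(X : ℤ), (Y : ℤ)⟩ * ⟨(X : ℤ), -(Y : ℤ)⟩ := by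
      ext
      · simp
      · simp; ring
    rw [e] at h3
    exact h3.of_mul_left_left
  · intro f hf hpf
    have h1 : Nat.Coprime f (p ^ v) := ((Nat.Prime.coprime_iff_not_dvd hp).2 hpf).symm.pow_right v
    have h2 : f ∣ Q' := by
      rw [hQ] at hf
      exact h1.dvd_of_dvd_mul_left hf
    have h3 : (f : ℤ) ∣ (X : ℤ) - 1 := by
      have h4 := (Nat.modEq_iff_dvd).mp hX
      push_cast at h4
      exact (Int.natCast_dvd_natCast.mpr h2).trans h4
    have h5 : (f : ℤ) ∣ (Y : ℤ) := by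
      have h4 := (Nat.modEq_iff_dvd).mp hY
      push_cast at h4
      rw [sub_zero] at h4
      exact (Int.natCast_dvd_natCast.mpr h2).trans h4
    obtain ⟨a, ha⟩ := h3
    obtain ⟨b, hb⟩ := h5
    refine ⟨⟨a, b⟩, ?_⟩
    ext
    · simp [ha]
    · simp [hb]

lemma Ba3_gN (X Y : ℕ) : gN ⟨(X : ℤ), (Y : ℤ)⟩ = X * X + Y * Y := by
  have h := Pool.Agent.STg.Q_gN ⟨(X : ℤ), (Y : ℤ)⟩
  have h1 : ((gN ⟨(X : ℤ), (Y : ℤ)⟩ : ℕ) : ℤ) = ((X * X + Y * Y : ℕ) : ℤ) := by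
    rw [h]; push_cast; ring
  exact_mod_cast h1

theorem exists_u {Q p : ℕ} (hQ : Q ≠ 0) (hp : p.Prime) (h64 : 64 ∣ Q) (hpQ : p ∣ Q) :
    ∃ u : GaussianInt, Gp Q p u ∧ jacobiSym p (gN u) = -1 := by
  obtain ⟨v, Q', hpQ', hQQ⟩ := Nat.exists_eq_pow_mul_and_not_dvd hQ p hp.ne_one
  have hcop : Nat.Coprime (p ^ v) Q' := ((Nat.Prime.coprime_iff_not_dvd hp).2 hpQ').pow_left v
  have hv : v ≠ 0 := by
    rintro rfl
    rw [pow_zero, one_mul] at hQQ
    exact hpQ' (hQQ ▸ hpQ)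
  rcases eq_or_ne p 2 with h2 | h2
  · subst h2
    have h64v : 64 ∣ 2 ^ v := by
      rw [hQQ] at h64
      have h1 : Nat.Coprime 64 Q' := by
        have h3 : Nat.Coprime 2 Q' := (Nat.Prime.coprime_iff_not_dvd hp).2 hpQ'
        have h4 := h3.pow_left 6
        norm_num at h4
        exact h4
      exact h1.dvd_of_dvd_mul_right h64
    obtain ⟨Y, hY1, hY2⟩ := Nat.chineseRemainder hcop 2 0
    have hY64 : Y ≡ 2 [MOD 64] := hY1.of_dvd h64v
    have hYm : Y % 64 = 2 := hY64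
    have hN : (1 * 1 + Y * Y) % 8 = 5 := by
      obtain ⟨c, hc⟩ : ∃ c, Y = 64 * c + 2 := ⟨Y / 64, by omega⟩
      rw [hc]
      have e : 1 * 1 + (64 * c + 2) * (64 * c + 2) = 8 * (512 * c * c + 32 * c) + 5 := by ring
      rw [e]
      omega
    refine ⟨⟨((1 : ℕ) : ℤ), (Y : ℤ)⟩, Ba3_gp hp hQQ 1 Y rfl hY2.symm ?_, ?_⟩
    · rw [Nat.coprime_comm, Nat.coprime_two_right, Nat.odd_iff]
      omega
    · rw [Ba3_gN]
      have hodd : Odd (1 * 1 + Y * Y) := by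
        rw [Nat.odd_iff]
        omega
      have h5 := jacobiSym.at_two hodd
      rw [ZMod.χ₈_nat_eq_if_mod_eight, if_neg (by omega), if_neg (by omega)] at h5
      exact_mod_cast h5
  · have : Fact p.Prime := ⟨hp⟩
    have hodd : Odd p := hp.odd_of_ne_two h2
    have h64Q : 64 ∣ Q' := by
      rw [hQQ] at h64
      have h1 : Nat.Coprime 64 (p ^ v) := by
        have h3 : Nat.Coprime 2 (p ^ v) := (Nat.coprime_two_left.mpr hodd).pow_right v
        have h4 := h3.pow_left 6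
        norm_num at h4
        exact h4
      exact h1.dvd_of_dvd_mul_left h64
    obtain ⟨a, ha⟩ := FiniteField.exists_nonsquare (F := ZMod p) (by rw [ZMod.ringChar_zmod_n]; exact h2)
    obtain ⟨x, y, hxy⟩ := ZMod.sq_add_sq p a
    obtain ⟨X, hX1, hX2⟩ := Nat.chineseRemainder hcop x.val 1
    obtain ⟨Y, hY1, hY2⟩ := Nat.chineseRemainder hcop y.val 0
    have hpv : p ∣ p ^ v := dvd_pow_self p hv
    have hXp : ((X : ℕ) : ZMod p) = x := by
      have h3 := (ZMod.natCast_eq_natCast_iff X x.val p).mpr (hX1.of_dvd hpv)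
      rw [h3, ZMod.natCast_val, ZMod.cast_id]
    have hYp : ((Y : ℕ) : ZMod p) = y := by
      have h3 := (ZMod.natCast_eq_natCast_iff Y y.val p).mpr (hY1.of_dvd hpv)
      rw [h3, ZMod.natCast_val, ZMod.cast_id]
    have hNp : (((X * X + Y * Y : ℕ)) : ZMod p) = a := by
      push_cast
      rw [hXp, hYp, ← hxy]
      ring
    have ha0 : a ≠ 0 := by
      rintro rfl
      exact ha (IsSquare.zero)
    have hcN : Nat.Coprime p (X * X + Y * Y) := by
      rw [Nat.Prime.coprime_iff_not_dvd hp]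
      intro h3
      rw [← ZMod.natCast_eq_zero_iff, hNp] at h3
      exact ha0 h3
    have hX64 : X % 64 = 1 := hX2.of_dvd h64Q
    have hY64 : Y % 64 = 0 := hY2.of_dvd h64Q
    have hN4 : (X * X + Y * Y) % 4 = 1 := by
      obtain ⟨c, hc⟩ : ∃ c, X = 64 * c + 1 := ⟨X / 64, by omega⟩
      obtain ⟨e, he⟩ : ∃ e, Y = 64 * e := ⟨Y / 64, by omega⟩
      rw [hc, he]
      have e2 : (64 * c + 1) * (64 * c + 1) + 64 * e * (64 * e) =
          4 * (1024 * c * c + 32 * c + 1024 * e * e) + 1 := by ring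
      rw [e2]
      omega
    refine ⟨⟨(X : ℤ), (Y : ℤ)⟩, Ba3_gp hp hQQ X Y hX2.symm hY2.symm hcN, ?_⟩
    rw [Ba3_gN, ← jacobiSym.quadratic_reciprocity_one_mod_four hN4 hodd, ← jacobiSym.legendreSym.to_jacobiSym,
      legendreSym.eq_neg_one_iff]
    rw [Int.cast_natCast, hNp]
    exact ha

end Pool.Agent.STr
end

section

/-!
# TASK Ba4: the choice of `x` ((9.1) of the paper)

PROOF. `Q = 64 D₀ P₀²`. `U₁` with `U₁.d = D₀`, `U₁.n = Q` (`exists_ud`). `T` = the prime divisors `p` of `P₀` such that `U₁.κ u = 1` for all `u` with `Gp Q p u`; `x = ∏ p ∈ T, p`, `x ∣ P₀` (`Finset.prod_primes_dvd`), so `64 D₀ x² ∣ Q`. Let `U` be as in the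
claim. `kap_mul_sq` with `c = x`: `U.κ u = J(x | N u) U₁.κ u` (in `ℤ[i]`) for `u` prime to `Q`, and `J(x | N u) = ∏ p' ∈ T, J(p' | N u)` (`jacobiSym.mul_left`, induction over the finset). Let `p ∣ P₀` be prime and `Gp Q p u`. For a prime `p' ∣ P₀`, `p' ≠ p`:
`J(p' | N u) = 1`: if `p'` is odd, `p' ∣ u - 1` (`Gp` with `f = p'`, `p' ∣ Q`), so `N u ≡ 1 mod p'`; also `N u ≡ 1 mod 4` (`u` is odd; `R1_gN_mod`), so `J(p' | N u) = J(N u | p') = 1`. If `p' = 2`: `64 ∣ u - 1`, `N u ≡ 1 mod 8`, `J(2 | N u) = 1`.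
So `U.κ u = U₁.κ u` if `p ∉ T` and `U.κ u = J(p | N u) U₁.κ u` if `p ∈ T`. If `p ∉ T` there is `u` with `Gp Q p u`, `U₁.κ u ≠ 1`. If `p ∈ T`: `exists_u` (Ba3) gives `u`, `U₁.κ u = 1`, so `U.κ u = -1 ≠ 1`.
-/

set_option autoImplicit false

namespace Pool.Agent.STr

open Pool.Agent.STg (gN gOdd Prim)
open Pool.Agent.STh (UD exists_ud)

theorem Ba4_gN {f : ℕ} {u : GaussianInt} (h : ((f : ℕ) : GaussianInt) ∣ u - 1) : (f : ℤ) ∣ ((gN u : ℕ) : ℤ) - 1 := by
  obtain ⟨c, hc⟩ := h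
  have h1 : u.re = 1 + f * c.re := by
    have := congrArg Zsqrtd.re hc
    simp at this
    linarith
  have h2 : u.im = f * c.im := by
    have := congrArg Zsqrtd.im hc
    simp at this
    linarith
  rw [Pool.Agent.STg.Q_gN, h1, h2]
  exact ⟨2 * c.re + f * c.re * c.re + f * c.im * c.im, by ring⟩

theorem Ba4_odd {Q : ℕ} (h2 : 2 ∣ Q) {u : GaussianInt} (h : IsCoprime u ((Q : ℕ) : GaussianInt)) : gOdd u := by
  have h' : IsCoprime u ((2 : ℕ) : GaussianInt) := by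
    obtain ⟨c, hc⟩ := h2
    rw [hc, Nat.cast_mul] at h
    exact h.of_mul_right_left
  unfold Pool.Agent.STg.gOdd
  rw [← Nat.not_even_iff_odd]
  intro hev
  obtain ⟨a, b, hab⟩ := h'
  -- 2 ∣ N(u) = u * star u, coprime
  obtain ⟨m, hm⟩ := hev
  have h3 : ((2 : ℕ) : GaussianInt) ∣ u * star u := by
    rw [Pool.Agent.STg.mul_star_eq, hm]
    exact ⟨(m : GaussianInt), by push_cast; ring⟩
  have h4 : ((2 : ℕ) : GaussianInt) ∣ star u := by
    have h5 : IsCoprime ((2 : ℕ) : GaussianInt) u := ⟨b, a, by rw [← hab]; ring⟩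
    exact h5.dvd_of_dvd_mul_left h3
  have h6 : ((2 : ℕ) : GaussianInt) ∣ u := by
    obtain ⟨w, hw⟩ := h4
    refine ⟨star w, ?_⟩
    have := congrArg star hw
    rw [star_star, star_mul] at this
    rw [this, mul_comm]
    congr 1
  have h7 : ((2 : ℕ) : GaussianInt) ∣ 1 := by
    rw [← hab]
    exact dvd_add (h6.mul_left a) (Dvd.intro_left b rfl)
  obtain ⟨w, hw⟩ := h7
  have := congrArg Zsqrtd.re hw
  simp at this
  omega

theorem Ba4_one {Q p p' : ℕ} (hp : p.Prime) (hp' : p'.Prime) (h64 : 64 ∣ Q) (hpQ : p' ∣ Q) (hne : p' ≠ p)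
    {u : GaussianInt} (hu : Gp Q p u) : jacobiSym (p' : ℕ) (gN u) = 1 := by
  have hodd : gOdd u := Ba4_odd (dvd_trans (by norm_num) h64) hu.1
  have hodd' : Odd (gN u) := hodd
  by_cases h2 : p' = 2
  · have h3 : ¬ p ∣ 64 := by
      intro h
      have h5 : p ∣ 2 ^ 6 := by norm_num; exact h
      have h4 : p ∣ 2 := hp.dvd_of_dvd_pow h5
      have h6 := (Nat.prime_dvd_prime_iff_eq hp Nat.prime_two).1 h4
      exact hne (by rw [h2, h6])
    have h5 := Ba4_gN (hu.2 64 h64 h3)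
    have h6 : gN u % 8 = 1 := by
      obtain ⟨c, hc⟩ := h5
      push_cast at hc
      omega
    rw [h2]
    have h7 : jacobiSym ((2 : ℕ) : ℤ) (gN u) = ZMod.χ₈ (gN u) := by
      rw [← jacobiSym.at_two hodd']
      rfl
    rw [h7, ZMod.χ₈_nat_eq_if_mod_eight]
    rw [if_neg (by omega), if_pos (Or.inl h6)]
  · have hp'odd : Odd p' := hp'.odd_of_ne_two h2
    have h3 : ¬ p ∣ p' := by
      intro h
      exact hne ((Nat.prime_dvd_prime_iff_eq hp hp').1 h).symm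
    have h5 := Ba4_gN (hu.2 p' hpQ h3)
    have h4 := Pool.Agent.STh.R1_gN_mod hodd
    have h6 : ((gN u : ℕ) : ℤ) % (p' : ℕ) = 1 % (p' : ℕ) := Int.ModEq.symm (Int.modEq_iff_dvd.2 h5)
    rw [← jacobiSym.quadratic_reciprocity_one_mod_four h4 hp'odd, jacobiSym.mod_left, h6,
      ← jacobiSym.mod_left, jacobiSym.one_left]

theorem Ba4_prod (T : Finset ℕ) (b : ℕ) : jacobiSym ((∏ p ∈ T, p : ℕ) : ℤ) b = ∏ p ∈ T, jacobiSym (p : ℤ) b := by
  classical
  induction T using Finset.induction_on with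
  | empty => simp
  | insert a s ha ih =>
    rw [Finset.prod_insert ha, Finset.prod_insert ha, Nat.cast_mul, jacobiSym.mul_left, ih]

theorem exists_x {D₀ P₀ : ℕ} (hD : ¬ IsSquare D₀) (hP : Squarefree P₀) (h2 : 2 ∣ P₀) :
    ∃ x : ℕ, x ≠ 0 ∧ x ∣ P₀ ∧ ∀ U : UD, U.d = D₀ * x ^ 2 → U.n = 64 * D₀ * P₀ ^ 2 →
      ∀ p : ℕ, p.Prime → p ∣ P₀ → ∃ u : GaussianInt, Gp U.n p u ∧ U.κ u ≠ 1 := by
  classical
  have hD0 : D₀ ≠ 0 := by
    rintro rfl
    exact hD ⟨0, rfl⟩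
  have hP0 : P₀ ≠ 0 := hP.ne_zero
  set Q : ℕ := 64 * D₀ * P₀ ^ 2 with hQ
  have hQ0 : Q ≠ 0 := by
    rw [hQ]; positivity
  have h64 : 64 ∣ Q := ⟨D₀ * P₀ ^ 2, by rw [hQ]; ring⟩
  obtain ⟨U₁, hd₁, hn₁⟩ := exists_ud (d := D₀) (n := Q) hD hQ0 ⟨P₀ ^ 2, by rw [hQ]⟩
  set T : Finset ℕ := P₀.primeFactors.filter (fun p => ∀ u : GaussianInt, Gp Q p u → U₁.κ u = 1) with hT
  have hTp : ∀ p ∈ T, p.Prime ∧ p ∣ P₀ := by
    intro p hp
    have := (Finset.mem_filter.1 hp).1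
    exact ⟨Nat.prime_of_mem_primeFactors this, Nat.dvd_of_mem_primeFactors this⟩
  have hx0 : ∏ p ∈ T, p ≠ 0 := Finset.prod_ne_zero_iff.2 (fun p hp => (hTp p hp).1.ne_zero)
  refine ⟨∏ p ∈ T, p, hx0, ?_, ?_⟩
  · exact Finset.prod_primes_dvd P₀ (fun p hp => (hTp p hp).1.prime) (fun p hp => (hTp p hp).2)
  · intro U hUd hUn p hp hpP
    have hPQ : ∀ q : ℕ, q ∣ P₀ → q ∣ Q := by
      intro q hq
      rw [hQ]
      exact Dvd.dvd.mul_left (dvd_pow hq (by norm_num)) _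
    rw [hUn]
    have hform : ∀ u : GaussianInt, Gp Q p u → ((U.κ u : GaussianIntˣ) : GaussianInt) =
        ((∏ q ∈ T, jacobiSym (q : ℤ) (gN u) : ℤ) : GaussianInt) * ((U₁.κ u : GaussianIntˣ) : GaussianInt) := by
      intro u hu
      have := kap_mul_sq U₁ U (by rw [hUn, hn₁]) hx0 (by rw [hUd, hd₁]) (a := u) (by rw [hn₁]; exact hu.1)
      rw [this, Ba4_prod]
    have hother : ∀ u : GaussianInt, Gp Q p u → ∀ q ∈ T, q ≠ p → jacobiSym (q : ℤ) (gN u) = 1 := by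
      intro u hu q hq hqp
      exact Ba4_one hp (hTp q hq).1 h64 (hPQ q (hTp q hq).2) hqp hu
    by_cases hpT : p ∈ T
    · obtain ⟨u, hu, hju⟩ := exists_u hQ0 hp h64 (hPQ p hpP)
      refine ⟨u, hu, ?_⟩
      have h1 : U₁.κ u = 1 := (Finset.mem_filter.1 hpT).2 u hu
      have h3 : ∏ q ∈ T, jacobiSym (q : ℤ) (gN u) = -1 := by
        rw [Finset.prod_eq_single_of_mem p hpT (fun q hq hqp => hother u hu q hq hqp)]
        exact hju
      have h4 := hform u hu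
      rw [h3, h1] at h4
      intro h5
      rw [h5] at h4
      have := congrArg Zsqrtd.re h4
      simp at this
    · have h1 : ¬ ∀ u : GaussianInt, Gp Q p u → U₁.κ u = 1 := by
        intro h
        exact hpT (Finset.mem_filter.2 ⟨Nat.mem_primeFactors.2 ⟨hp, hpP, hP0⟩, h⟩)
      push Not at h1
      obtain ⟨u, hu, hne⟩ := h1
      refine ⟨u, hu, ?_⟩
      have h3 : ∏ q ∈ T, jacobiSym (q : ℤ) (gN u) = 1 := by
        apply Finset.prod_eq_one
        intro q hq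
        exact hother u hu q hq (fun h => hpT (h ▸ hq))
      have h4 := hform u hu
      rw [h3] at h4
      intro h5
      apply hne
      apply Units.ext
      rw [← h5, h4]
      simp

end Pool.Agent.STr
end
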