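import Pool.Agent.Lib.MP_1ef7cf_nt_r.Ba0
import Pool.Agent.Lib.MP_1ef7cf_nt_r.V1
import Pool.Agent.Lib.MP_1ef7cf_nt_h.Mg.G004

section

/-!
# TASK Ba5: ramification at the Gaussian primes

PROOF. Let `π` be a Gaussian prime, `π ∣ Q`; `Q` is a product of prime numbers, so `π ∣ p` for a prime number `p ∣ Q`. `Q = p ^ v * Q'`, `¬ p ∣ Q'`. Let `u` with `Gp Q p u`, `κ u ≠ 1`; `Q' ∣ u - 1` (in `ℤ[i]`).
Case A: `star π` is associated to `π` (e.g. `p = 2`, `p ≡ 3 mod 4`; then `π` is, up to units, the only Gaussian prime dividing `p`, since `p ∣ π * star π = N π`, or: `N π` is a power of `p`, so every prime dividing `p` divides `π * star π`). Take this `u`: if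
`f ∣ Q = p ^ v * Q'` and `¬ π ∣ f`, then `f` is coprime to `p ^ v` (a common prime divisor divides `p`, so it is associated to `π`), so `f ∣ Q' ∣ u - 1`.
Case B: `π` and `π' = star π` are not associated, hence coprime; `p` is associated to `π * π'` (`p` divides `N π = π π'` and `π, π' ∣ p` (`star p = p`) are coprime). By the Chinese remainder theorem for `π ^ v`, `π' ^ v`, `Q'` (pairwise coprime) there are `u₁`, `u₂` with
`u₁ ≡ u mod π ^ v`, `u₁ ≡ 1 mod π' ^ v Q'`, `u₂ ≡ u mod π' ^ v`, `u₂ ≡ 1 mod π ^ v Q'`. Both are prime to `Q` and `Q ∣ u - u₁ u₂`, so `κ u = κ u₁ * κ u₂` (`GC.per`, `GC.mul`), and one of `κ u₁`, `κ u₂` is `≠ 1`. If `κ u₁ ≠ 1` take `u₁`: `f ∣ Q`, `¬ π ∣ f` gives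
`f ∣ π' ^ v Q' ∣ u₁ - 1` (up to a unit). If `κ u₂ ≠ 1` take `star u₂`: `κ (star u₂) = star (κ u₂) ≠ 1` (`GC.st`), it is prime to `star Q = Q`, and `star u₂ ≡ 1 mod star (π ^ v Q') = π' ^ v Q'`.
-/

set_option autoImplicit false

namespace Pool.Agent.STr

open Pool.Agent.STg (gN gOdd Prim)

theorem Ba5_exists_p {Q : ℕ} (hQ : Q ≠ 0) {π : GaussianInt} (hπ : Prime π) (h : π ∣ ((Q : ℕ) : GaussianInt)) :
    ∃ p : ℕ, p.Prime ∧ p ∣ Q ∧ π ∣ ((p : ℕ) : GaussianInt) := by
  rw [← Nat.prod_primeFactorsList hQ, Nat.cast_list_prod] at h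
  obtain ⟨a, ha, hpa⟩ := hπ.dvd_prod_iff.1 h
  obtain ⟨p, hp, rfl⟩ := List.mem_map.1 ha
  exact ⟨p, Nat.prime_of_mem_primeFactorsList hp, Nat.dvd_of_mem_primeFactorsList hp, hpa⟩

theorem Ba5_star_dvd {a b : GaussianInt} (h : a ∣ b) : star a ∣ star b := by
  obtain ⟨c, rfl⟩ := h
  exact ⟨star c, by rw [star_mul, mul_comm]⟩

theorem Ba5_star_prime {π : GaussianInt} (hπ : Prime π) : Prime (star π) := by
  refine ⟨fun h => hπ.ne_zero (star_eq_zero.1 h), ?_, ?_⟩
  · intro h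
    apply hπ.not_unit
    have := h.star
    rwa [star_star] at this
  · intro a b h
    have := Ba5_star_dvd h
    rw [star_star, star_mul] at this
    rcases hπ.dvd_or_dvd this with h1 | h1
    · right
      have := Ba5_star_dvd h1
      rwa [star_star] at this
    · left
      have := Ba5_star_dvd h1
      rwa [star_star] at this

theorem Ba5_star_nat (n : ℕ) : star ((n : ℕ) : GaussianInt) = (n : ℕ) := by
  ext <;> simp

theorem Ba5_p_dvd {p : ℕ} (hp : p.Prime) {π : GaussianInt} (hπ : Prime π) (h : π ∣ ((p : ℕ) : GaussianInt)) :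
    ((p : ℕ) : GaussianInt) ∣ π * star π := by
  obtain ⟨c, hc⟩ := h
  have h1 : gN ((p : ℕ) : GaussianInt) = p ^ 2 := by
    have := Pool.Agent.STg.Q_gN ((p : ℕ) : GaussianInt)
    simp at this
    have h2 : ((gN ((p : ℕ) : GaussianInt) : ℕ) : ℤ) = ((p ^ 2 : ℕ) : ℤ) := by
      rw [this]; push_cast; ring
    exact_mod_cast h2
  have h3 : gN π * gN c = p ^ 2 := by rw [← Pool.Agent.STg.gN_mul, ← hc, h1]
  have h4 : gN π ≠ 1 := by
    intro h5
    apply hπ.not_unit
    have h6 := Pool.Agent.STg.mul_star_eq π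
    rw [h5, Nat.cast_one] at h6
    exact IsUnit.of_mul_eq_one _ h6
  have h5 : p ∣ gN π := by
    have h6 : gN π ∣ p ^ 2 := ⟨gN c, h3.symm⟩
    obtain ⟨k, hk, hk'⟩ := (Nat.dvd_prime_pow hp).1 h6
    have h7 : k ≠ 0 := by
      rintro rfl
      exact h4 (by rw [hk', pow_zero])
    rw [hk']
    exact dvd_pow_self p h7
  rw [Pool.Agent.STg.mul_star_eq]
  exact Nat.cast_dvd_cast h5

/-- Chinese remainder theorem -/
theorem Ba5_crt {A B u : GaussianInt} (h : IsCoprime A B) : ∃ w : GaussianInt, A ∣ w - u ∧ B ∣ w - 1 := by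
  obtain ⟨a, b, hab⟩ := h
  refine ⟨1 + (u - 1) * (b * B), ⟨-(u - 1) * a, ?_⟩, ⟨(u - 1) * b, by ring⟩⟩
  linear_combination (u - 1) * hab

theorem Ba5_cop_of {A w u : GaussianInt} (h : A ∣ w - u) (hu : IsCoprime u A) : IsCoprime w A := by
  obtain ⟨c, hc⟩ := h
  have : w = u + A * c := by linear_combination hc
  rw [this]
  exact hu.add_mul_left_left c

theorem ram_of {Q : ℕ} (hQ : Q ≠ 0) {κ : GaussianInt → GaussianIntˣ} (h : GC Q κ)
    (hp : ∀ p : ℕ, p.Prime → p ∣ Q → ∃ u : GaussianInt, Gp Q p u ∧ κ u ≠ 1) : Ram Q κ := by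
  intro π hπ hπQ
  obtain ⟨p, hpp, hpQ, hπp⟩ := Ba5_exists_p hQ hπ hπQ
  obtain ⟨v, Q', hQ', hQe⟩ := Nat.exists_eq_pow_mul_and_not_dvd hQ p hpp.ne_one
  obtain ⟨u, hu, hκu⟩ := hp p hpp hpQ
  have hπ' : Prime (star π) := Ba5_star_prime hπ
  have hpd : ((p : ℕ) : GaussianInt) ∣ π * star π := Ba5_p_dvd hpp hπ hπp
  have hπ'p : star π ∣ ((p : ℕ) : GaussianInt) := by
    have := Ba5_star_dvd hπp
    rwa [Ba5_star_nat] at this
  have hπ'Q : star π ∣ ((Q : ℕ) : GaussianInt) := by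
    have := Ba5_star_dvd hπQ
    rwa [Ba5_star_nat] at this
  have hQ'u : ((Q' : ℕ) : GaussianInt) ∣ u - 1 := hu.2 Q' ⟨p ^ v, by rw [hQe]; ring⟩ hQ'
  have hcast : ((Q : ℕ) : GaussianInt) = ((p : ℕ) : GaussianInt) ^ v * ((Q' : ℕ) : GaussianInt) := by
    rw [hQe]; push_cast; ring
  have hcop : ∀ f : GaussianInt, ¬ π ∣ f → IsCoprime f π := fun f hf =>
    ((hπ.irreducible.coprime_iff_not_dvd).2 hf).symm
  by_cases hA : Associated π (star π)
  · refine ⟨u, hu.1, ?_, hκu⟩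
    intro f hf hπf
    have h1 : IsCoprime f π := hcop f hπf
    have h2 : IsCoprime f (star π) := by
      refine ((hπ'.irreducible.coprime_iff_not_dvd).2 ?_).symm
      intro h3
      exact hπf (hA.dvd.trans h3)
    have h3 : IsCoprime f ((p : ℕ) : GaussianInt) := (h1.mul_right h2).of_isCoprime_of_dvd_right hpd
    have h4 : IsCoprime f (((p : ℕ) : GaussianInt) ^ v) := h3.pow_right
    rw [hcast] at hf
    exact (h4.dvd_of_dvd_mul_left hf).trans hQ'u
  · have hππ' : IsCoprime π (star π) := by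
      refine (hπ.irreducible.coprime_iff_not_dvd).2 ?_
      intro h3
      exact hA ((hπ.dvd_prime_iff_associated hπ').1 h3)
    have hpQ' : IsCoprime ((p : ℕ) : GaussianInt) ((Q' : ℕ) : GaussianInt) :=
      Nat.Coprime.cast ((Nat.Prime.coprime_iff_not_dvd hpp).2 hQ')
    have hπQ' : IsCoprime π ((Q' : ℕ) : GaussianInt) := hpQ'.of_isCoprime_of_dvd_left hπp
    have hπ'Q' : IsCoprime (star π) ((Q' : ℕ) : GaussianInt) := hpQ'.of_isCoprime_of_dvd_left hπ'p
    -- divisors of `Q` not divisible by `π`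
    have hdiv : ∀ f : GaussianInt, f ∣ ((Q : ℕ) : GaussianInt) → ¬ π ∣ f →
        f ∣ star π ^ v * ((Q' : ℕ) : GaussianInt) := by
      intro f hf hπf
      have h1 : IsCoprime f (π ^ v) := (hcop f hπf).pow_right
      apply h1.dvd_of_dvd_mul_left
      refine hf.trans ?_
      rw [hcast, ← mul_assoc, ← mul_pow]
      exact mul_dvd_mul (pow_dvd_pow_of_dvd hpd v) dvd_rfl
    have hQall : ((Q : ℕ) : GaussianInt) ∣ π ^ v * (star π ^ v * ((Q' : ℕ) : GaussianInt)) := by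
      rw [hcast, ← mul_assoc, ← mul_pow]
      exact mul_dvd_mul (pow_dvd_pow_of_dvd hpd v) dvd_rfl
    have hc1 : IsCoprime (π ^ v) (star π ^ v * ((Q' : ℕ) : GaussianInt)) :=
      (hππ'.pow).mul_right hπQ'.pow_left
    have hc2 : IsCoprime (star π ^ v) (π ^ v * ((Q' : ℕ) : GaussianInt)) :=
      (hππ'.symm.pow).mul_right hπ'Q'.pow_left
    obtain ⟨u₁, h11, h12⟩ := Ba5_crt (u := u) hc1
    obtain ⟨u₂, h21, h22⟩ := Ba5_crt (u := u) hc2
    have huπ : IsCoprime u π := hu.1.of_isCoprime_of_dvd_right hπQ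
    have huπ' : IsCoprime u (star π) := hu.1.of_isCoprime_of_dvd_right hπ'Q
    have hu₁ : IsCoprime u₁ ((Q : ℕ) : GaussianInt) := by
      refine IsCoprime.of_isCoprime_of_dvd_right ?_ hQall
      exact (Ba5_cop_of h11 huπ.pow_right).mul_right (Ba5_cop_of h12 isCoprime_one_left)
    have hu₂ : IsCoprime u₂ ((Q : ℕ) : GaussianInt) := by
      refine IsCoprime.of_isCoprime_of_dvd_right ?_ hQall
      have h5 : IsCoprime u₂ (star π ^ v * (π ^ v * ((Q' : ℕ) : GaussianInt))) :=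
        (Ba5_cop_of h21 huπ'.pow_right).mul_right (Ba5_cop_of h22 isCoprime_one_left)
      rwa [show star π ^ v * (π ^ v * ((Q' : ℕ) : GaussianInt)) = π ^ v * (star π ^ v * ((Q' : ℕ) : GaussianInt)) by ring] at h5
    have hne : ∀ w : GaussianInt, IsCoprime w ((Q : ℕ) : GaussianInt) → w ≠ 0 := by
      rintro w hw rfl
      exact hπ.not_unit (isUnit_of_dvd_unit hπQ (isCoprime_zero_left.1 hw))
    have hdvd : ((Q : ℕ) : GaussianInt) ∣ u - u₁ * u₂ := by
      refine hQall.trans ?_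
      have e1 : π ^ v ∣ u - u₁ * u₂ := by
        obtain ⟨c, hc⟩ := h11
        obtain ⟨d, hd⟩ := h22
        exact ⟨-(c * u₂) - u * ((Q' : ℕ) : GaussianInt) * d, by linear_combination (-u₂) * hc - u * hd⟩
      have e2 : star π ^ v ∣ u - u₁ * u₂ := by
        obtain ⟨c, hc⟩ := h21
        obtain ⟨d, hd⟩ := h12
        exact ⟨-(c * u₁) - u * ((Q' : ℕ) : GaussianInt) * d, by linear_combination (-u₁) * hc - u * hd⟩
      have e3 : ((Q' : ℕ) : GaussianInt) ∣ u - u₁ * u₂ := by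
        obtain ⟨c, hc⟩ := h12
        obtain ⟨d, hd⟩ := h22
        obtain ⟨e, he⟩ := hQ'u
        refine ⟨e - star π ^ v * c * u₂ - π ^ v * d, ?_⟩
        linear_combination he - u₂ * hc - hd
      exact hc1.mul_dvd e1 ((hπ'Q'.pow_left).mul_dvd e2 e3)
    have hκ : κ u = κ u₁ * κ u₂ := by
      rw [h.per u (u₁ * u₂) hu.1 hdvd, h.mul _ _ (hne _ hu₁) (hne _ hu₂)]
    by_cases h1 : κ u₁ = 1
    · have h2 : κ u₂ ≠ 1 := by
        intro h2
        apply hκu
        rw [hκ, h1, h2, mul_one]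
      refine ⟨star u₂, ?_, ?_, ?_⟩
      · obtain ⟨a, b, hab⟩ := hu₂
        refine ⟨star a, star b, ?_⟩
        have := congrArg star hab
        rw [star_add, star_mul, star_mul, Ba5_star_nat, star_one] at this
        rw [← this]; ring
      · intro f hf hπf
        refine (hdiv f hf hπf).trans ?_
        have h5 := Ba5_star_dvd h22
        rw [star_sub, star_one, star_mul, Ba5_star_nat, star_pow] at h5
        rwa [mul_comm] at h5
      · intro h3
        apply h2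
        have h4 := h.st u₂
        rw [h3, Units.val_one] at h4
        apply Units.ext
        have := congrArg star h4
        rw [star_star, star_one] at this
        rw [← this, Units.val_one]
    · exact ⟨u₁, hu₁, fun f hf hπf => (hdiv f hf hπf).trans h12, h1⟩

end Pool.Agent.STr
end

section

/-!
# TASK Bb2: the quadratic character of `K(√a)`

PROOF. Let `x = se a = √a ∈ H` (`D.se_sq`, `D.se_pos`). For `σ ∈ Gal(H/K)`: `(act σ x) ^ 2 = act σ (x ^ 2) = x ^ 2`, so `act σ x = ± x`. Let `κ B = 1` if `act (Art B) x = x` and `-1` otherwise, as an element of `ℂˣ`; it is a homomorphism (`act_mul_left`-like: `act (σ τ) x = act σ (act τ x)`), `κ ^ 2 = 1`.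
For a prime `v` not dividing `m`: `act (Art [v]) x = chiP a v x` by `frob_sqrt` (`MP_1ef7cf_nt_h/F06.lean`) with a prime of `H` over `v` (`2 ∉ v`, `a ∉ v`: otherwise `2 d ∈ v` (`a ^ 2 = d`), so `v ∣ m`), so `κ [v] = chiP a v = chiI a v` (`chiI_prime`). For ideals: `STg.F.ideal_induction` as in
`comp` (`MP_1ef7cf_nt_h/F10.lean`), `chiI_mul`, `chiI_top`.
-/

set_option autoImplicit false

open NumberField IsDedekindDomain nonZeroDivisors IntermediateField

namespace Pool.Agent.STr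

open Pool.Agent.ST
open Pool.Agent.STh.F (FD se chiI)

variable {K : Type*} [Field K] [NumberField K] [Algebra K ℝ] {σ₂ : K →+* ℝ} {m : Ideal (𝓞 K)} {d : ℕ} {a : 𝓞 K}

omit [NumberField K] in
/-- the automorphisms map a square root to itself or its negative -/
private lemma Bb2_cases {H : IntermediateField K ℝ} {x : ℝ} (hx : x ∈ H) {c : K}
    (hc : x ^ 2 = algebraMap K ℝ c) (σ : H ≃ₐ[K] H) : act σ x = x ∨ act σ x = -x := by
  have h1 : act σ x ^ 2 = x ^ 2 := by
    rw [← act_pow σ hx 2, hc, act_algebraMap]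
  exact sq_eq_sq_iff_eq_or_eq_neg.1 h1

/-- the sign character -/
private lemma Bb2_hom {H : IntermediateField K ℝ} {x : ℝ} (hx : x ∈ H) {c : K}
    (hc : x ^ 2 = algebraMap K ℝ c) (h0 : 0 < x) :
    ∃ f : (H ≃ₐ[K] H) →* ℂˣ, (∀ σ, act σ x = x → f σ = 1) ∧ (∀ σ, act σ x = -x → f σ = -1) := by
  classical
  have hne : -x ≠ x := by
    intro h
    linarith
  refine ⟨{ toFun := fun σ => if act σ x = x then 1 else -1, map_one' := ?_, map_mul' := ?_ },
    fun σ h => ?_, fun σ h => ?_⟩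
  · rw [act_one_left hx, if_pos rfl]
  · intro σ τ
    rcases Bb2_cases hx hc τ with h1 | h1
    · rw [act_comp σ τ hx, h1, if_pos rfl, mul_one]
    · rcases Bb2_cases hx hc σ with h2 | h2
      · rw [act_comp σ τ hx, h1, act_neg σ hx, h2, if_neg hne, if_pos rfl, one_mul]
      · rw [act_comp σ τ hx, h1, act_neg σ hx, h2, neg_neg, if_pos rfl, if_neg hne]
        simp
  · show (if act σ x = x then (1 : ℂˣ) else -1) = 1
    rw [if_pos h]
  · show (if act σ x = x then (1 : ℂˣ) else -1) = -1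
    rw [h, if_neg hne]

/-- primes -/
private lemma Bb2_prime (D : FD σ₂ d a) (L : Lv σ₂ m) (hse : se a ∈ L.H)
    (hab : ∀ v : PrI K, (2 * d : 𝓞 K) ∈ v.asIdeal → v.asIdeal ∣ m) (v : PrI K)
    (hv : ¬ v.asIdeal ∣ m) :
    act (L.Art (cls σ₂ m (prJ m v hv))) (se a) =
      ((STh.F.chiP a v.asIdeal : ℤ) : ℝ) * se a := by
  have hfd := L.rcf.finite
  have hgal := L.rcf.galois
  have hnf := numberField_of_fd L.H
  obtain ⟨P, hP⟩ := exists_ovr (K := K) (L := L.H) v
  have := P.isPrime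
  have hPv : P.asIdeal.under (𝓞 K) = v.asIdeal := by rw [← hP]; rfl
  have h2d : (2 * d : 𝓞 K) ∉ v.asIdeal := fun h => hv (hab v h)
  have h2 : (2 : 𝓞 K) ∉ v.asIdeal := fun h => h2d (v.asIdeal.mul_mem_right _ h)
  have ha : a ∉ v.asIdeal := by
    intro h
    apply h2d
    refine v.asIdeal.mul_mem_left _ ?_
    rw [← D.sq, sq]
    exact v.asIdeal.mul_mem_left _ h
  have h3 := L.rcf.isRCF.frob v (prJ m v hv) (by simp) (coe_prJ m v hv) P.asIdeal hPv
  exact STh.F.frob_sqrt D L.H hse v h2 ha P.asIdeal hPv _ h3.2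

theorem exists_kap_char (D : FD σ₂ d a) (hm : m ≠ ⊥) (L : Lv σ₂ m) (hse : se a ∈ L.H)
    (hab : ∀ v : PrI K, (2 * d : 𝓞 K) ∈ v.asIdeal → v.asIdeal ∣ m) :
    ∃ κ : RayClassGroup σ₂ m →* ℂˣ, κ ^ 2 = 1 ∧ (∀ B, act (L.Art B) (se a) = se a → κ B = 1) ∧
      ∀ (I : Ideal (𝓞 K)) (J : primeTo (K := K) m), ((J : (FI K)ˣ) : FI K) = (I : FI K) →
        ((κ (cls σ₂ m J) : ℂˣ) : ℂ) = ((chiI a I : ℤ) : ℂ) := by
  obtain ⟨f, hf1, hf2⟩ := Bb2_hom hse D.se_sq D.se_pos
  refine ⟨f.comp (L.Art : RayClassGroup σ₂ m →* (L.H ≃ₐ[K] L.H)), ?_, ?_, ?_⟩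
  · ext B
    have h1 : (f.comp (L.Art : RayClassGroup σ₂ m →* (L.H ≃ₐ[K] L.H)) ^ 2) B =
        (f (L.Art B)) ^ 2 := rfl
    rw [h1]
    rcases Bb2_cases hse D.se_sq (L.Art B) with h | h
    · rw [hf1 _ h]; simp
    · rw [hf2 _ h]; simp
  · intro B hB
    exact hf1 _ hB
  · intro I J hJ
    have hI : I ≠ ⊥ := by
      rintro rfl
      exact J.1.ne_zero (by rw [hJ]; simp)
    refine STg.F.ideal_induction (m := m)
      (p := fun I => ∀ J : primeTo (K := K) m, ((J : (FI K)ˣ) : FI K) = (I : FI K) →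
        ((f.comp (L.Art : RayClassGroup σ₂ m →* (L.H ≃ₐ[K] L.H)) (cls σ₂ m J) : ℂˣ) : ℂ) =
          ((chiI a I : ℤ) : ℂ)) ?_ ?_ I hI (coprime_of_mem_primeTo hJ J.2) J hJ
    · intro J hJ
      have h1 : J = 1 := by
        apply Subtype.ext
        apply Units.ext
        rw [hJ]
        simp
      rw [h1, map_one, map_one, STh.F.chiI_top]
      simp
    · intro v I hv hI hIc ih J hJ
      set Jv := prJ (K := K) m v hv with hJv
      have hJ' : (((J * Jv⁻¹ : primeTo (K := K) m) : (FI K)ˣ) : FI K) = (I : FI K) := by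
        rw [Subgroup.coe_mul, Subgroup.coe_inv, Units.val_mul, hJ, FractionalIdeal.coeIdeal_mul,
          mul_comm (v.asIdeal : FI K), mul_assoc]
        have : (v.asIdeal : FI K) * (((Jv : (FI K)ˣ)⁻¹ : (FI K)ˣ) : FI K) = 1 := by
          have h3 : ((Jv : (FI K)ˣ) : FI K) = v.asIdeal := coe_prJ m v hv
          rw [← h3, ← Units.val_mul, mul_inv_cancel, Units.val_one]
        rw [this, mul_one]
      have hcls : cls σ₂ m J = cls σ₂ m Jv * cls σ₂ m (J * Jv⁻¹) := by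
        rw [← map_mul]
        congr 1
        rw [mul_comm J, ← mul_assoc, mul_inv_cancel, one_mul]
      rw [hcls, map_mul, Units.val_mul, ih (J * Jv⁻¹) hJ', STh.F.chiI_mul a v.ne_bot hI,
        STh.F.chiI_prime]
      have h4 := Bb2_prime D L hse hab v hv
      have h5 : (f.comp (L.Art : RayClassGroup σ₂ m →* (L.H ≃ₐ[K] L.H))) (cls σ₂ m Jv) =
          f (L.Art (cls σ₂ m (prJ m v hv))) := rfl
      rw [h5]
      push_cast
      congr 1
      rcases STh.F.chiP_sq a v.asIdeal with hc | hc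
      · rw [hc] at h4 ⊢
        rw [hf1 _ (by rw [h4]; simp)]
        simp
      · rw [hc] at h4 ⊢
        rw [hf2 _ (by rw [h4]; simp)]
        simp

end Pool.Agent.STr
end
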