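import Pool.Agent.Lib.MP_1ef7cf_nt_r.Df
import Pool.Agent.Lib.MP_1ef7cf_nt_h.Mg.G001
import Pool.Agent.Lib.MP_1ef7cf_nt_g.Mg.G026

section

/-!
# TASK N6a: inert primes

PROOF. `jacobi_neg`: for odd natural numbers `b`, `b'` with `8 d ∣ b + b'`: `J(d | b) = J(d | b')`. By multiplicativity in `d` (`jacobiSym.mul_left`,
induction on the factorization of `d`, `8 q ∣ b + b'` for every prime factor `q` of `d`) it is enough to treat a prime `d = q`: for `q = 2` use
`jacobiSym.at_two` (`b' ≡ -b mod 8`, `χ₈ (-b) = χ₈ b`); for odd `q` quadratic reciprocity: `J(q | b) = ± J(b | q)` with the sign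
`(-1) ^ ((q-1)/2 (b-1)/2)`, `J(b' | q) = J(-b | q) = (-1) ^ ((q-1)/2) J(b | q)` and `(b' - 1) / 2 ≡ (b - 1) / 2 + 1 mod 2` since `b + b' ≡ 0 mod 4`.
(If `gcd (b, d) ≠ 1` both sides are `0`.)
`exists_nonres`: for a nonsquare `d` there is an odd natural number `b` prime to `d` with `J(d | b) = -1`: Mathlib may have it
(`Nat.exists_prime_...` / `ZMod.isSquare...`); otherwise: write `d = D x ^ 2`, `D > 1` squarefree. If `D` has an odd prime factor `q`: by
the Chinese remainder theorem choose `b ≡ 1 mod 8`, `b ≡ 1` modulo the other odd prime factors of `d`, `b ≡` a nonresidue modulo `q`; if `D = 2`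
choose `b ≡ 5 mod 8`, `b ≡ 1` modulo the odd prime factors of `d`. Compute with quadratic reciprocity.
`exists_inert_pair`: let `b₀` be as in `exists_nonres`, `N' = 8 d N`; make `b₀` prime to `N'`: `J(d | ·)` depends only on the class modulo `4 d` or `8 d`
(`jacobiSym.mod_right`), and by the Chinese remainder theorem there is `b₁ ≡ b₀ mod 8 d` prime to `N` (or: choose in `exists_nonres` `b` a prime, which can be
taken arbitrarily large by Dirichlet's theorem `Nat.forall_exists_prime_gt_and_eq_mod`, hence prime to `N`). Dirichlet: primes `p₁ ≡ b₁ mod N'`,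
`p₂ ≡ -b₁ mod N'`, larger than `b` and `2 d`. `J(d | p₁) = J(d | b₁) = -1` and `J(d | p₂) = -1` by `jacobi_neg`. `typeK_inert` (F03): there is
exactly one prime `P` over `p`, and `absNorm P = p ^ 2 = absNorm (p)`, so `(p) = P` is prime (`P ∣ (p)` and equal norms).
(This file: jacobi_neg.)
-/

set_option autoImplicit false

open NumberField IsDedekindDomain nonZeroDivisors IntermediateField

namespace Pool.Agent.STr

open Pool.Agent.ST
open Pool.Agent.STh.F (FD)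

theorem N6a_chi8 {b b' : ℕ} (h : 8 ∣ b + b') : ZMod.χ₈ (b : ZMod 8) = ZMod.χ₈ (b' : ZMod 8) := by
  have e : (b' : ZMod 8) = -(b : ZMod 8) := by
    have h1 : ((b + b' : ℕ) : ZMod 8) = 0 := (ZMod.natCast_eq_zero_iff _ _).2 h
    push_cast at h1
    exact eq_neg_of_add_eq_zero_right h1
  rw [e]
  generalize (b : ZMod 8) = x
  revert x
  decide

theorem N6a_chi4 {b b' : ℕ} (h : 4 ∣ b + b') : ZMod.χ₄ (b' : ZMod 4) = -ZMod.χ₄ (b : ZMod 4) := by
  have e : (b' : ZMod 4) = -(b : ZMod 4) := by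
    have h1 : ((b + b' : ℕ) : ZMod 4) = 0 := (ZMod.natCast_eq_zero_iff _ _).2 h
    push_cast at h1
    exact eq_neg_of_add_eq_zero_right h1
  rw [e]
  generalize (b : ZMod 4) = x
  revert x
  decide

theorem N6a_odd {d b b' : ℕ} (hd : Odd d) (hb : Odd b) (hb' : Odd b') (h4 : 4 ∣ b + b') (h : d ∣ b + b') :
    jacobiSym d b = jacobiSym d b' := by
  rw [jacobiSym.quadratic_reciprocity' hd hb, jacobiSym.quadratic_reciprocity' hd hb']
  have e1 : jacobiSym (b' : ℤ) d = jacobiSym (-(b : ℤ)) d := by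
    apply jacobiSym.mod_left'
    have h1 : ((d : ℕ) : ℤ) ∣ (b : ℤ) + (b' : ℤ) := by exact_mod_cast h
    apply Int.ModEq.symm
    rw [Int.modEq_iff_dvd]
    have : (b' : ℤ) - -(b : ℤ) = (b : ℤ) + b' := by ring
    rw [this]
    exact h1
  rw [e1, jacobiSym.neg _ hd]
  unfold qrSign
  rw [N6a_chi4 h4, jacobiSym.neg _ hd]
  have hsq : ZMod.χ₄ (d : ZMod 4) * ZMod.χ₄ (d : ZMod 4) = 1 := by
    rw [ZMod.χ₄_nat_eq_if_mod_four]
    have h2 : d % 2 = 1 := Nat.odd_iff.1 hd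
    simp only [h2]
    split_ifs <;> simp_all
  linear_combination (-(jacobiSym (ZMod.χ₄ (b : ZMod 4)) d * jacobiSym (b : ℤ) d)) * hsq

theorem jacobi_neg {d b b' : ℕ} (hd : d ≠ 0) (hb : Odd b) (hb' : Odd b') (h : 8 * d ∣ b + b') :
    jacobiSym d b = jacobiSym d b' := by
  obtain ⟨k, d', hd', rfl⟩ := Nat.exists_eq_two_pow_mul_odd hd
  have h8 : 8 ∣ b + b' := (Dvd.intro _ rfl).trans h
  have h4 : 4 ∣ b + b' := (by norm_num : 4 ∣ 8).trans h8
  have hd2 : d' ∣ b + b' := (Dvd.intro (8 * 2 ^ k) (by ring) : d' ∣ 8 * (2 ^ k * d')).trans h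
  push_cast
  rw [jacobiSym.mul_left, jacobiSym.mul_left, jacobiSym.pow_left, jacobiSym.pow_left,
    N6a_odd hd' hb hb' h4 hd2, jacobiSym.at_two hb, jacobiSym.at_two hb', N6a_chi8 h8]

variable {K : Type*} [Field K] [NumberField K] [Algebra K ℝ] {σ₂ : K →+* ℝ}

end Pool.Agent.STr
end

section

/-!
# TASK Bb7: a computation with Jacobi symbols ((9.2) of the paper)

PROOF. CLAIM: `-X Y` is a square modulo `p`. If `p ∣ X Y`: `Z = 0`. (Then in fact `p ∣ X` iff `p ∣ Y`, ...; not needed.) Otherwise it is enough to show `J(-X Y | p) = 1` (`p` odd: `p ≡ ± 1 mod 64 d`; `legendreSym.eq_one_iff`). `gcd (X, Y)` is `1` (its square divides `p`). `Y ≠ 0`. Write `|Y| = 2 ^ j y₀`, `y₀` odd.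
Case 1: `X ^ 2 - d Y ^ 2 = p`, `X > 0`. `p ≡ 1 mod 64 d`, so `J(-1 | p) = J(2 | p) = 1`. `J(X | p) = J(p | X)` (`X ≡ 1 mod 4`, positive) `= J(-d Y ^ 2 | X) = J(-1 | X) J(d | X) = 1` (`X ≡ 1 mod 64 d`: `J(d | X) = 1`, by `jacobi_neg` twice (N6a) or by periodicity: compare with `b' = 64 d b'' - X`...;
e.g. `8 d ∣ X + (8 d - 1)`, `8 d ∣ 1 + (8 d - 1)`, so `J(d | X) = J(d | 8 d - 1) = J(d | 1) = 1`). `J(y₀ | p) = J(p | y₀) = J(X ^ 2 | y₀) = 1` (`p ≡ 1 mod 4`; `y₀` is prime to `X`). So `J(Y | p) = J(± 1 | p) J(2 | p) ^ j J(y₀ | p) = 1`, total `1`.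
Case 2: `X ^ 2 - d Y ^ 2 = -p`, `Y < 0`. `p ≡ -1 mod 64 d`, so `J(-1 | p) = -1`, `J(2 | p) = 1`. `J(y₀ | p) = (-1) ^ ((y₀ - 1) / 2) J(p | y₀)` (`p ≡ 3 mod 4`) and `p ≡ -X ^ 2 mod y₀`, so `J(p | y₀) = J(-1 | y₀) = (-1) ^ ((y₀ - 1) / 2)`: `J(y₀ | p) = 1`, `J(Y | p) = J(-1 | p) = -1`.
`X > 0`: `J(X | p) = J(p | X) = J(d Y ^ 2 | X) = J(d | X) = 1`. `X < 0`: `|X| ≡ -1 mod 64 d`, `J(X | p) = J(-1 | p) J(|X| | p) = - J(|X| | p) = J(p | |X|)` (both are `3 mod 4`) `= J(d Y ^ 2 | |X|) = J(d | |X|) = J(d | 1) = 1` (`jacobi_neg`). Total: `J(-1 | p) J(X | p) J(Y | p) = (-1) * 1 * (-1) = 1`.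
-/

set_option autoImplicit false

namespace Pool.Agent.STr

open jacobiSym in
theorem Bb7_J1 {d : ℕ} (hd : d ≠ 0) {x : ℕ} (hx : Odd x) (h : 8 * d ∣ x + 1) : jacobiSym d x = 1 := by
  rw [jacobi_neg hd hx odd_one h, jacobiSym.one_right]

theorem Bb7_J2 {d : ℕ} (hd : d ≠ 0) {x : ℕ} (hx : Odd x) (h : 8 * d ∣ x + (8 * d - 1)) : jacobiSym d x = 1 := by
  have h1 : Odd (8 * d - 1) := by
    rw [Nat.odd_iff]; omega
  rw [jacobi_neg hd hx h1 h]
  refine Bb7_J1 hd h1 ?_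
  have : 8 * d - 1 + 1 = 8 * d := by omega
  rw [this]

theorem Bb7_modeq {a b : ℤ} {n : ℕ} (h : (n : ℤ) ∣ a - b) : jacobiSym a n = jacobiSym b n :=
  jacobiSym.mod_left' (Int.emod_emod_of_dvd _ dvd_rfl ▸ (Int.emod_emod_of_dvd a (dvd_refl (n : ℤ))).symm ▸
    (Int.ModEq.symm ((Int.modEq_iff_dvd).2 h) : a % n = b % n))

theorem Bb7_one {n : ℕ} (h : n % 4 = 1) : jacobiSym (-1) n = 1 := by
  rw [jacobiSym.at_neg_one (Nat.odd_iff.2 (by omega)), ZMod.χ₄_nat_one_mod_four h]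

theorem Bb7_three {n : ℕ} (h : n % 4 = 3) : jacobiSym (-1) n = -1 := by
  rw [jacobiSym.at_neg_one (Nat.odd_iff.2 (by omega)), ZMod.χ₄_nat_three_mod_four h]

theorem Bb7_two {n : ℕ} (h : n % 8 = 1 ∨ n % 8 = 7) : jacobiSym 2 n = 1 := by
  rw [jacobiSym.at_two (Nat.odd_iff.2 (by omega)), ZMod.χ₈_nat_eq_if_mod_eight]
  rw [if_neg (by omega), if_pos h]

theorem Bb7_fin {p : ℕ} (hp : p.Prime) {X Y : ℤ} (h : jacobiSym (-1 * X * Y) p = 1) :
    ∃ Z : ℤ, (p : ℤ) ∣ Z ^ 2 + X * Y := by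
  have := Fact.mk hp
  obtain ⟨z, hz⟩ := ZMod.isSquare_of_jacobiSym_eq_one h
  obtain ⟨Z, rfl⟩ := ZMod.intCast_surjective z
  refine ⟨Z, ?_⟩
  rw [← ZMod.intCast_zmod_eq_zero_iff_dvd _ p] 
  push_cast at hz ⊢
  linear_combination -hz

theorem sym_one {d : ℕ} (hd : d ≠ 0) {X Y : ℤ} {p : ℕ} (hp : p.Prime) (hX : (64 * d : ℤ) ∣ X - 1) (hY : (64 * d : ℤ) ∣ Y)
    (h : X ^ 2 - d * Y ^ 2 = p ∧ 0 < X ∨ X ^ 2 - d * Y ^ 2 = -p ∧ Y < 0) : ∃ Z : ℤ, (p : ℤ) ∣ Z ^ 2 + X * Y := by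
  by_cases hpX : (p : ℤ) ∣ X
  · exact ⟨0, by simpa using Dvd.dvd.mul_right hpX Y⟩
  by_cases hpY : (p : ℤ) ∣ Y
  · exact ⟨0, by simpa using Dvd.dvd.mul_left hpY X⟩
  have hpi : Prime (p : ℤ) := Nat.prime_iff_prime_int.1 hp
  have hd0 : (1 : ℤ) ≤ d := by exact_mod_cast Nat.one_le_iff_ne_zero.2 hd
  have hY0 : Y ≠ 0 := fun h0 => hpY (h0 ▸ dvd_zero _)
  -- coprimality
  have hcop : IsCoprime X Y := by
    rw [Int.isCoprime_iff_gcd_eq_one]
    by_contra hg
    obtain ⟨q, hq, hqg⟩ := Nat.exists_prime_and_dvd hg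
    have hqX : (q : ℤ) ∣ X := (Int.natCast_dvd_natCast.2 hqg).trans (Int.gcd_dvd_left _ _)
    have hqY : (q : ℤ) ∣ Y := (Int.natCast_dvd_natCast.2 hqg).trans (Int.gcd_dvd_right _ _)
    have h1 : (q : ℤ) ∣ X ^ 2 - d * Y ^ 2 :=
      dvd_sub (dvd_pow hqX two_ne_zero) (Dvd.dvd.mul_left (dvd_pow hqY two_ne_zero) _)
    have h2 : (q : ℤ) ∣ p := by
      rcases h with ⟨h, -⟩ | ⟨h, -⟩
      · rwa [h] at h1
      · rw [h] at h1; exact (dvd_neg.1 h1)
    have h3 : q = p := (Nat.prime_dvd_prime_iff_eq hq hp).1 (Int.natCast_dvd_natCast.1 h2)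
    exact hpX (h3 ▸ hqX)
  -- the odd part of `Y`
  obtain ⟨j, y, hyodd, hyY⟩ : ∃ j y : ℕ, Odd y ∧ Y.natAbs = 2 ^ j * y := by
    obtain ⟨j, y, hy, h⟩ := Nat.exists_eq_two_pow_mul_odd (n := Y.natAbs) (Int.natAbs_ne_zero.2 hY0)
    exact ⟨j, y, hy, h⟩
  have hyd : (y : ℤ) ∣ Y := by
    rw [← Int.dvd_natAbs, hyY]
    exact_mod_cast Dvd.intro_left _ rfl
  have hyX : X.gcd y = 1 := by
    rw [← Int.isCoprime_iff_gcd_eq_one]
    exact hcop.of_isCoprime_of_dvd_right hyd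
  obtain ⟨a, ha⟩ := hX
  obtain ⟨b, hb⟩ := hY
  have hX1 : X = 1 + 64 * d * a := by linarith
  have hXn : ∀ x : ℕ, X.natAbs = x → Y.gcd x = 1 := by
    intro x hx
    rw [← hx, ← Int.isCoprime_iff_gcd_eq_one]
    have : (X.natAbs : ℤ) ∣ X := Int.natAbs_dvd.2 dvd_rfl
    exact (hcop.symm).of_isCoprime_of_dvd_right this
  have hYs : ∀ x : ℕ, X.natAbs = x → jacobiSym (d * Y ^ 2) x = jacobiSym d x := by
    intro x hx
    rw [jacobiSym.mul_left, jacobiSym.sq_one' (hXn x hx), mul_one]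
  have hYa : ∃ ε : ℤ, (ε = 1 ∨ ε = -1) ∧ Y = ε * (2 ^ j * y) ∧ (Y < 0 → ε = -1) := by
    rcases lt_or_gt_of_ne hY0 with h0 | h0
    · refine ⟨-1, Or.inr rfl, ?_, fun _ => rfl⟩
      have : (Y.natAbs : ℤ) = -Y := by omega
      rw [hyY] at this; push_cast at this; linarith
    · refine ⟨1, Or.inl rfl, ?_, fun h => absurd h0 (by omega)⟩
      have : (Y.natAbs : ℤ) = Y := by omega
      rw [hyY] at this; push_cast at this; linarith
  obtain ⟨ε, hε, hYε, hεn⟩ := hYa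
  have hJY : jacobiSym Y p = jacobiSym ε p * (jacobiSym 2 p ^ j * jacobiSym y p) := by
    conv_lhs => rw [hYε]
    rw [jacobiSym.mul_left, jacobiSym.mul_left, jacobiSym.pow_left]
  obtain ⟨e, he⟩ : ∃ e : ℤ, X = 1 + 64 * e := ⟨d * a, by rw [hX1]; ring⟩
  apply Bb7_fin hp
  rw [jacobiSym.mul_left, jacobiSym.mul_left]
  rcases h with ⟨h, hpos⟩ | ⟨h, hneg⟩
  · -- case 1
    obtain ⟨c, hc⟩ : ∃ c : ℤ, (p : ℤ) = 1 + 64 * c := by
      refine ⟨2 * d * a + 64 * d ^ 2 * a ^ 2 - d * 64 * d ^ 2 * b ^ 2 , ?_⟩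
      rw [← h, hX1, hb]; ring
    have hp8 : p % 8 = 1 := by omega
    have hp4 : p % 4 = 1 := by omega
    have hpo : Odd p := Nat.odd_iff.2 (by omega)
    have hx : (X.natAbs : ℤ) = X := by omega
    have hx4 : X.natAbs % 4 = 1 := by omega
    have hxo : Odd X.natAbs := Nat.odd_iff.2 (by omega)
    have hdx : jacobiSym d X.natAbs = 1 := by
      apply Bb7_J2 hd hxo
      zify
      rw [Nat.cast_sub (by omega)]
      refine ⟨8 * a + 1, ?_⟩
      rw [abs_of_pos hpos, hX1]; push_cast; ring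
    have hJX : jacobiSym X p = 1 := by
      conv_lhs => rw [← hx]
      rw [jacobiSym.quadratic_reciprocity_one_mod_four hx4 hpo]
      rw [Bb7_modeq (b := -1 * (d * Y ^ 2)) (by rw [hx]; exact ⟨X, by rw [← h]; ring⟩), jacobiSym.mul_left,
        hYs _ rfl, hdx, Bb7_one hx4]
      rfl
    have hJy : jacobiSym y p = 1 := by
      rw [jacobiSym.quadratic_reciprocity_one_mod_four' hyodd hp4]
      rw [Bb7_modeq (b := X ^ 2) (by
        obtain ⟨t, ht⟩ := hyd
        exact ⟨-d * t * Y, by rw [← h]; linear_combination (-d * Y) * ht⟩), jacobiSym.sq_one' hyX]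
    have hJε : jacobiSym ε p = 1 := by
      rcases hε with rfl | rfl
      · exact jacobiSym.one_left p
      · exact Bb7_one hp4
    rw [hJY, hJX, hJy, hJε, Bb7_one hp4, Bb7_two (Or.inl hp8)]
    simp
  · -- case 2
    obtain ⟨c, hc⟩ : ∃ c : ℤ, (p : ℤ) = -1 + 64 * c := by
      refine ⟨-(2 * d * a + 64 * d ^ 2 * a ^ 2 - d * 64 * d ^ 2 * b ^ 2), ?_⟩
      have : (p : ℤ) = -(X ^ 2 - d * Y ^ 2) := by rw [h]; ring
      rw [this, hX1, hb]; ring
    have hp8 : p % 8 = 7 := by omega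
    have hp4 : p % 4 = 3 := by omega
    have hpo : Odd p := Nat.odd_iff.2 (by omega)
    have hpe : (p : ℤ) = d * Y ^ 2 - X ^ 2 := by linarith
    have hε1 : ε = -1 := hεn hneg
    have hJy : jacobiSym y p = 1 := by
      have h1 : jacobiSym p y = jacobiSym (-1) y := by
        rw [Bb7_modeq (b := -1 * X ^ 2) (by
          obtain ⟨t, ht⟩ := hyd
          exact ⟨d * t * Y, by rw [hpe]; linear_combination (d * Y) * ht⟩), jacobiSym.mul_left,
          jacobiSym.sq_one' hyX, mul_one]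
      rcases (by rw [Nat.odd_iff] at hyodd; omega : y % 4 = 1 ∨ y % 4 = 3) with hy4 | hy4
      · rw [jacobiSym.quadratic_reciprocity_one_mod_four hy4 hpo, h1, Bb7_one hy4]
      · rw [jacobiSym.quadratic_reciprocity_three_mod_four hy4 hp4, h1, Bb7_three hy4]; rfl
    have key : ∀ x : ℕ, X.natAbs = x → jacobiSym p x = jacobiSym d x := by
      intro x hx
      rw [Bb7_modeq (b := d * Y ^ 2) (by
        have : (x : ℤ) ∣ X := by rw [← hx]; exact Int.natAbs_dvd.2 dvd_rfl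
        obtain ⟨t, ht⟩ := this
        exact ⟨-t * X, by rw [hpe]; linear_combination (-X) * ht⟩), hYs x hx]
    have hX0 : X ≠ 0 := by omega
    have hJX : jacobiSym X p = 1 := by
      rcases lt_or_gt_of_ne hX0 with hneg' | hpos
      · have hx : (X.natAbs : ℤ) = -X := by omega
        have hx4 : X.natAbs % 4 = 3 := by omega
        have hxo : Odd X.natAbs := Nat.odd_iff.2 (by omega)
        have hdx : jacobiSym d X.natAbs = 1 := by
          apply Bb7_J1 hd hxo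
          zify
          refine ⟨-8 * a, ?_⟩
          rw [abs_of_neg hneg', hX1]; ring
        have : X = -1 * (X.natAbs : ℤ) := by omega
        conv_lhs => rw [this]
        rw [jacobiSym.mul_left, jacobiSym.quadratic_reciprocity_three_mod_four hx4 hp4, key _ rfl, hdx,
          Bb7_three hp4]
        rfl
      · have hx : (X.natAbs : ℤ) = X := by omega
        have hx4 : X.natAbs % 4 = 1 := by omega
        have hxo : Odd X.natAbs := Nat.odd_iff.2 (by omega)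
        have hdx : jacobiSym d X.natAbs = 1 := by
          apply Bb7_J2 hd hxo
          zify
          rw [Nat.cast_sub (by omega)]
          refine ⟨8 * a + 1, ?_⟩
          rw [abs_of_pos hpos, hX1]; push_cast; ring
        conv_lhs => rw [← hx]
        rw [jacobiSym.quadratic_reciprocity_one_mod_four hx4 hpo, key _ rfl, hdx]
    rw [hJY, hJX, hJy, hε1, Bb7_three hp4, Bb7_two (Or.inr hp8)]
    simp

end Pool.Agent.STr
end

section

/-!
# TASK N6b: inert primes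

PROOF. `jacobi_neg`: for odd natural numbers `b`, `b'` with `8 d ∣ b + b'`: `J(d | b) = J(d | b')`. By multiplicativity in `d` (`jacobiSym.mul_left`,
induction on the factorization of `d`, `8 q ∣ b + b'` for every prime factor `q` of `d`) it is enough to treat a prime `d = q`: for `q = 2` use
`jacobiSym.at_two` (`b' ≡ -b mod 8`, `χ₈ (-b) = χ₈ b`); for odd `q` quadratic reciprocity: `J(q | b) = ± J(b | q)` with the sign
`(-1) ^ ((q-1)/2 (b-1)/2)`, `J(b' | q) = J(-b | q) = (-1) ^ ((q-1)/2) J(b | q)` and `(b' - 1) / 2 ≡ (b - 1) / 2 + 1 mod 2` since `b + b' ≡ 0 mod 4`.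
(If `gcd (b, d) ≠ 1` both sides are `0`.)
`exists_nonres`: for a nonsquare `d` there is an odd natural number `b` prime to `d` with `J(d | b) = -1`: Mathlib may have it
(`Nat.exists_prime_...` / `ZMod.isSquare...`); otherwise: write `d = D x ^ 2`, `D > 1` squarefree. If `D` has an odd prime factor `q`: by
the Chinese remainder theorem choose `b ≡ 1 mod 8`, `b ≡ 1` modulo the other odd prime factors of `d`, `b ≡` a nonresidue modulo `q`; if `D = 2`
choose `b ≡ 5 mod 8`, `b ≡ 1` modulo the odd prime factors of `d`. Compute with quadratic reciprocity.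
`exists_inert_pair`: let `b₀` be as in `exists_nonres`, `N' = 8 d N`; make `b₀` prime to `N'`: `J(d | ·)` depends only on the class modulo `4 d` or `8 d`
(`jacobiSym.mod_right`), and by the Chinese remainder theorem there is `b₁ ≡ b₀ mod 8 d` prime to `N` (or: choose in `exists_nonres` `b` a prime, which can be
taken arbitrarily large by Dirichlet's theorem `Nat.forall_exists_prime_gt_and_eq_mod`, hence prime to `N`). Dirichlet: primes `p₁ ≡ b₁ mod N'`,
`p₂ ≡ -b₁ mod N'`, larger than `b` and `2 d`. `J(d | p₁) = J(d | b₁) = -1` and `J(d | p₂) = -1` by `jacobi_neg`. `typeK_inert` (F03): there is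
exactly one prime `P` over `p`, and `absNorm P = p ^ 2 = absNorm (p)`, so `(p) = P` is prime (`P ∣ (p)` and equal norms).
(This file: exists_nonres.)
-/

set_option autoImplicit false

open NumberField IsDedekindDomain nonZeroDivisors IntermediateField

namespace Pool.Agent.STr

open Pool.Agent.ST
open Pool.Agent.STh.F (FD)

theorem exists_nonres {d : ℕ} (hd : ¬ IsSquare d) (b : ℕ) :
    ∃ p : ℕ, p.Prime ∧ b < p ∧ jacobiSym d p = -1 := by
  have hd0 : 0 < d := by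
    rcases Nat.eq_zero_or_pos d with h | h
    · exact absurd ⟨0, by rw [h]⟩ hd
    · exact h
  obtain ⟨D, x, hD, hx, hdx, hsq⟩ := Nat.sq_mul_squarefree_of_pos hd0
  have hD1 : 1 < D := by
    by_contra h
    have h1 : D = 1 := by omega
    exact hd ⟨x, by rw [← hdx, h1]; ring⟩
  obtain ⟨p, hp, hp4, hpd, hJ⟩ := Pool.Agent.STg.exists_nonresidue hsq hD1
  have hodd : Odd p := Nat.odd_iff.2 (by omega)
  have hcop : Nat.Coprime p (4 * D) := by
    apply Nat.Coprime.mul_right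
    · have h2 : Nat.Coprime p 2 := Nat.Coprime.symm ((Nat.coprime_two_left).2 hodd)
      exact Nat.Coprime.pow_right 2 h2
    · exact (Nat.Prime.coprime_iff_not_dvd hp).2 hpd
  obtain ⟨r, hr, hrp, hmod⟩ := Nat.forall_exists_prime_gt_and_modEq (b + d + 2)
    (q := 4 * D) (by positivity) hcop
  have hrodd : Odd r := hrp.odd_of_ne_two (by omega)
  refine ⟨r, hrp, by omega, ?_⟩
  have hxr : Int.gcd (x : ℤ) (r : ℤ) = 1 := by
    rw [Int.gcd_natCast_natCast]
    refine Nat.Coprime.symm ((Nat.Prime.coprime_iff_not_dvd hrp).2 ?_)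
    intro hdiv
    have h1 : r ≤ x := Nat.le_of_dvd hx hdiv
    have h2 : x ≤ x ^ 2 * D := by nlinarith [Nat.mul_pos hx hD]
    omega
  have h1 : jacobiSym (d : ℤ) r = jacobiSym ((x : ℤ) ^ 2) r * jacobiSym (D : ℤ) r := by
    rw [← jacobiSym.mul_left, ← hdx]
    push_cast
    ring_nf
  have h2 : jacobiSym (D : ℤ) r = jacobiSym (D : ℤ) p := by
    rw [jacobiSym.mod_right' D hrodd, jacobiSym.mod_right' D hodd]
    have : r % (4 * D) = p % (4 * D) := hmod
    rw [this]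
  rw [h1, h2, jacobiSym.sq_one' hxr, hJ]
  norm_num

variable {K : Type*} [Field K] [NumberField K] [Algebra K ℝ] {σ₂ : K →+* ℝ}

end Pool.Agent.STr
end
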