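import Pool.Agent.Lib.MP_1ef7cf_nt_r.Df
import Pool.Agent.Lib.MP_1ef7cf_nt_g.Mg.G025
import Pool.Agent.Lib.MP_1ef7cf_nt_r.Ba0

section

/-!
# TASK Fd: the square root in `K`

PROOF. `exists_FD`: `K` is a quadratic field, `K = ℚ(√D)`, with `D` a squarefree integer (Mathlib may have it: quadratic fields; else: take `x ∈ K` not rational, with
minimal polynomial `X² + b X + c`, `b² - 4c = s` a rational number, `(2x + b)² = s`; multiply `2x + b` by a rational number to make `s` a squarefree integer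
`D`). `D > 0` because `K` has a real embedding (`algebraMap K ℝ`), `D ≠ 1` (so `D` is not a square, as it is squarefree and `> 1`). Let `a₀ ∈ 𝓞 K` be the square root of `D`
whose image in `ℝ` is positive (replace `a₀` by `-a₀`).
`FD.mulSq`: if `FD σ₂ d a` and `x ≥ 1` then `FD σ₂ (d * x ^ 2) (x * a)`.
`FD.coords`: an element of `𝓞 K` has the form `(u + v a₀) / 2`... : for `z ∈ 𝓞 K` there are integers `u`, `v` with `2 z = u + v a₀` (`d` squarefree): trace and norm: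
`z = s + t a₀` with `s`, `t` rational, `2 s = Tr z ∈ ℤ`, `s² - d t² = Norm z ∈ ℤ`, so `d (2 t)² ∈ ℤ`, and `2 t ∈ ℤ` since `d` is squarefree.
-/

set_option autoImplicit false

open NumberField IsDedekindDomain nonZeroDivisors IntermediateField

namespace Pool.Agent.STr

open Pool.Agent.ST
open Pool.Agent.STh.F (FD)

variable {K : Type*} [Field K] [NumberField K] [Algebra K ℝ] {σ₂ : K →+* ℝ}

private lemma Fd_trace (h2 : Module.finrank ℚ K = 2) (hσ : σ₂ ≠ sg1 K) (x : K) :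
    ((Algebra.trace ℚ K x : ℚ) : ℝ) = sg1 K x + σ₂ x := by
  classical
  have h1 := trace_eq_sum_embeddings (K := ℚ) (L := K) ℂ (x := x)
  have hne : cemb (sg1 K) ≠ cemb σ₂ := by
    intro h
    apply hσ
    ext y
    have := DFunLike.congr_fun h y
    have h3 : ((sg1 K y : ℝ) : ℂ) = (σ₂ y : ℂ) := this
    exact_mod_cast h3.symm
  have huniv : (Finset.univ : Finset (K →ₐ[ℚ] ℂ)) = {cemb (sg1 K), cemb σ₂} := by
    symm
    apply Finset.eq_of_subset_of_card_le (Finset.subset_univ _)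
    rw [Finset.card_univ, AlgHom.card, h2, Finset.card_pair hne]
  rw [huniv, Finset.sum_pair hne] at h1
  have h3 : ((Algebra.trace ℚ K x : ℚ) : ℂ) = ((sg1 K x + σ₂ x : ℝ) : ℂ) := by
    rw [Complex.ofReal_add]
    exact h1
  exact_mod_cast h3

omit [Algebra K ℝ] in
private lemma Fd_rat (φ : K →+* ℝ) (r : ℚ) : φ (algebraMap ℚ K r) = (r : ℝ) := by
  simp

/-- a positive integer is `b ^ 2 D` with `D` squarefree; the square root of `D` in `K` -/
private lemma Fd_exists_sqrt (h2 : Module.finrank ℚ K = 2) (hσ : σ₂ ≠ sg1 K) :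
    ∃ (d : ℕ) (z : K), z ^ 2 = (d : K) ∧ Squarefree d ∧ ¬ (∃ r : ℚ, z = algebraMap ℚ K r) := by
  obtain ⟨x, hx⟩ : ∃ x : K, sg1 K x ≠ σ₂ x := by
    by_contra hcon
    push Not at hcon
    apply hσ
    ext y
    exact (hcon y).symm
  set T : ℚ := Algebra.trace ℚ K x with hT
  have htr := Fd_trace h2 hσ x
  rw [← hT] at htr
  set y : K := x - algebraMap ℚ K (T / 2) with hy
  have hy1 : sg1 K y = (sg1 K x - σ₂ x) / 2 := by
    rw [hy, map_sub, Fd_rat]
    push_cast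
    rw [htr]
    ring
  have hy2 : σ₂ y = -(sg1 K y) := by
    rw [hy1, hy, map_sub, Fd_rat]
    push_cast
    rw [htr]
    ring
  have hy0 : sg1 K y ≠ 0 := by
    rw [hy1]
    intro h
    apply hx
    linarith
  set N : ℚ := Algebra.norm ℚ y with hN
  have hn := norm_eq h2 hσ y
  rw [← hN, hy2] at hn
  have hysq : y ^ 2 = algebraMap ℚ K (-N) := by
    apply (sg1 K).injective
    rw [map_pow, Fd_rat]
    push_cast
    rw [hn]
    ring
  have hNpos : 0 < -N := by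
    have h3 : 0 < ((-N : ℚ) : ℝ) := by
      push_cast
      rw [hn]
      have := sq_pos_of_ne_zero hy0
      nlinarith
    exact_mod_cast h3
  have hyrat : ¬ (∃ r : ℚ, y = algebraMap ℚ K r) := by
    rintro ⟨r, hr⟩
    rw [hr, Fd_rat, Fd_rat] at hy2
    apply hy0
    rw [hr, Fd_rat]
    linarith
  set q : ℚ := -N with hq
  set n : ℕ := q.num.natAbs * q.den with hnn
  have hnum : (q.num.natAbs : ℤ) = q.num := Int.natAbs_of_nonneg (Rat.num_pos.2 hNpos).le
  have hqn : (n : ℚ) = q * (q.den : ℚ) ^ 2 := by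
    have h4 : q = (q.num : ℚ) / (q.den : ℚ) := (Rat.num_div_den q).symm
    have h5 : (q.den : ℚ) ≠ 0 := by exact_mod_cast q.den_nz
    have h6 : ((q.num.natAbs : ℕ) : ℚ) = (q.num : ℚ) := by
      rw [← Int.cast_natCast, hnum]
    rw [hnn]
    push_cast
    rw [h6]
    nth_rewrite 3 [h4]
    field_simp
  have hn0 : 0 < n := by
    rw [hnn]
    apply Nat.mul_pos
    · exact Int.natAbs_pos.2 (Rat.num_pos.2 hNpos).ne'
    · exact q.den_pos
  obtain ⟨D, b, hDb, hD⟩ := Nat.sq_mul_squarefree n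
  have hb0 : (b : ℚ) ≠ 0 := by
    intro hb
    have hb' : b = 0 := by exact_mod_cast hb
    rw [hb'] at hDb
    simp at hDb
    omega
  set c : ℚ := (q.den : ℚ) / b with hc
  have hc0 : c ≠ 0 := by
    rw [hc]
    exact div_ne_zero (by exact_mod_cast q.den_nz) hb0
  refine ⟨D, algebraMap ℚ K c * y, ?_, hD, ?_⟩
  · rw [mul_pow, hysq, ← map_pow, ← map_mul]
    have h7 : c ^ 2 * q = (D : ℚ) := by
      have h8 : (n : ℚ) = (b : ℚ) ^ 2 * D := by
        rw [← hDb]
        push_cast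
        ring
      rw [hc, div_pow, div_mul_eq_mul_div, div_eq_iff (pow_ne_zero 2 hb0)]
      rw [mul_comm ((q.den : ℚ) ^ 2) q, ← hqn, h8]
      ring
    rw [h7, map_natCast]
  · rintro ⟨r, hr⟩
    apply hyrat
    refine ⟨r / c, ?_⟩
    have hc1 : algebraMap ℚ K c ≠ 0 := (map_ne_zero _).2 hc0
    rw [map_div₀, eq_div_iff hc1, mul_comm]
    exact hr

theorem exists_FD (h2 : Module.finrank ℚ K = 2) (hσ : σ₂ ≠ sg1 K) :
    ∃ (d : ℕ) (a : 𝓞 K), FD σ₂ d a ∧ Squarefree d := by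
  obtain ⟨d, z, hz, hd, hzr⟩ := Fd_exists_sqrt h2 hσ
  have hnsq : ¬ IsSquare d := by
    rintro ⟨s, hs⟩
    have h1 : (z - (s : K)) * (z + (s : K)) = 0 := by
      have h3 : z ^ 2 = (s : K) * (s : K) := by
        rw [hz, hs]
        push_cast
        ring
      linear_combination h3
    rcases mul_eq_zero.1 h1 with h3 | h3
    · apply hzr
      refine ⟨(s : ℚ), ?_⟩
      rw [map_natCast]
      exact sub_eq_zero.1 h3
    · apply hzr
      refine ⟨-(s : ℚ), ?_⟩
      rw [map_neg, map_natCast]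
      exact eq_neg_of_add_eq_zero_left h3
  have hz0 : sg1 K z ≠ 0 := by
    intro h
    have h1 : z = 0 := (map_eq_zero _).1 h
    apply hzr
    exact ⟨0, by rw [h1, map_zero]⟩
  have key : ∀ w : K, w ^ 2 = (d : K) → 0 < sg1 K w →
      ∃ (d : ℕ) (a : 𝓞 K), FD σ₂ d a ∧ Squarefree d := by
    intro w hw hpos
    have hint : IsIntegral ℤ w := by
      apply IsIntegral.of_pow (n := 2) (by norm_num)
      rw [hw]
      exact isIntegral_natCast d
    refine ⟨d, ⟨w, hint⟩, ⟨h2, hσ, ?_, hpos, hnsq⟩, hd⟩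
    apply RingOfIntegers.ext
    show w ^ 2 = _
    rw [hw]
    simp
  rcases lt_or_gt_of_ne hz0 with h | h
  · apply key (-z)
    · rw [neg_sq, hz]
    · rw [map_neg]
      linarith
  · exact key z hz h

theorem FD.mulSq {d : ℕ} {a : 𝓞 K} (D : FD σ₂ d a) {x : ℕ} (hx : x ≠ 0) : FD σ₂ (d * x ^ 2) ((x : 𝓞 K) * a) := by
  refine ⟨D.deg, D.ne, ?_, ?_, ?_⟩
  · rw [mul_pow, D.sq]
    push_cast
    ring
  · have h1 : algebraMap (𝓞 K) K ((x : 𝓞 K) * a) = (x : K) * algebraMap (𝓞 K) K a := by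
      rw [map_mul, map_natCast]
    show 0 < algebraMap K ℝ (algebraMap (𝓞 K) K ((x : 𝓞 K) * a))
    rw [h1, map_mul, map_natCast]
    exact mul_pos (by exact_mod_cast Nat.pos_of_ne_zero hx) D.pos
  · rintro ⟨s, hs⟩
    apply D.nsq
    rw [← Rat.isSquare_natCast_iff]
    refine ⟨(s : ℚ) / x, ?_⟩
    have hx' : (x : ℚ) ≠ 0 := by exact_mod_cast hx
    rw [div_mul_div_comm, eq_div_iff (mul_ne_zero hx' hx')]
    have h2 : ((d * x ^ 2 : ℕ) : ℚ) = ((s * s : ℕ) : ℚ) := by rw [hs]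
    push_cast at h2
    linear_combination h2

private lemma Fd_den {d : ℕ} (hd : Squarefree d) {r : ℚ} {n : ℤ} (h : r ^ 2 * d = n) :
    ∃ v : ℤ, r = v := by
  have h1 : (r.num : ℚ) ^ 2 * d = n * (r.den : ℚ) ^ 2 := by
    have h5 : (r.den : ℚ) ≠ 0 := by exact_mod_cast r.den_nz
    have h4 : r * (r.den : ℚ) = (r.num : ℚ) := Rat.mul_den_eq_num r
    rw [← h4, ← h]
    ring
  have h2 : (r.num) ^ 2 * (d : ℤ) = n * (r.den : ℤ) ^ 2 := by exact_mod_cast h1
  have h3 : (r.den : ℤ) ^ 2 ∣ (r.num) ^ 2 * (d : ℤ) := ⟨n, by rw [h2]; ring⟩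
  have hco : IsCoprime ((r.den : ℤ) ^ 2) (r.num ^ 2) := by
    apply IsCoprime.pow
    rw [Int.isCoprime_iff_gcd_eq_one, Int.gcd_comm]
    have := r.reduced
    exact this
  have h4 : (r.den : ℤ) ^ 2 ∣ (d : ℤ) := hco.dvd_of_dvd_mul_left h3
  have h5 : r.den * r.den ∣ d := by
    rw [← sq]
    exact_mod_cast h4
  have h6 : r.den = 1 := Nat.isUnit_iff.1 (hd _ h5)
  exact ⟨r.num, (Rat.coe_int_num_of_den_eq_one h6).symm⟩

theorem FD.coords {d : ℕ} {a : 𝓞 K} (D : FD σ₂ d a) (hd : Squarefree d) (z : 𝓞 K) :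
    ∃ u v : ℤ, 2 * z = (u : 𝓞 K) + v * a := by
  set u : ℤ := Algebra.trace ℤ (𝓞 K) z with hu
  have htr : ((u : ℤ) : ℝ) = sg1 K (z : K) + σ₂ (z : K) := by
    have h1 := Fd_trace D.deg D.ne (z : K)
    rw [← Algebra.coe_trace_int (K := K) z] at h1
    push_cast at h1
    exact h1
  set w : 𝓞 K := 2 * z - (u : 𝓞 K) with hw
  have hwK : algebraMap (𝓞 K) K w = 2 * algebraMap (𝓞 K) K z - (u : K) := by
    rw [hw, map_sub, map_mul, map_ofNat, map_intCast]
  replace hwK : (w : K) = 2 * (z : K) - (u : K) := hwK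
  have hw1 : sg1 K (w : K) = sg1 K (z : K) - σ₂ (z : K) := by
    rw [hwK, map_sub, map_mul, map_ofNat, map_intCast, htr]
    ring
  have hw2 : σ₂ (w : K) = -(sg1 K (w : K)) := by
    rw [hw1, hwK, map_sub, map_mul, map_ofNat, map_intCast, htr]
    ring
  have ha1 : sg1 K (a : K) = Real.sqrt d := D.alg
  have ha2 : σ₂ (a : K) = -Real.sqrt d := D.sig
  have ha0 : (a : K) ≠ 0 := by
    intro h
    have := D.pos
    rw [h, map_zero] at this
    exact lt_irrefl _ this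
  have hrat : sg1 K ((w : K) / (a : K)) = σ₂ ((w : K) / (a : K)) := by
    rw [map_div₀, map_div₀, hw2, ha1, ha2, neg_div_neg_eq]
  obtain ⟨r, hr⟩ := exists_rat_of_eq D.deg D.ne hrat
  rw [div_eq_iff ha0] at hr
  set n : ℤ := Algebra.norm ℤ w with hn
  have hnorm : ((n : ℤ) : ℝ) = sg1 K (w : K) * σ₂ (w : K) := Pool.Agent.STh.F.norm_real D w
  have hsq : r ^ 2 * d = ((-n : ℤ) : ℚ) := by
    have h1 : ((r ^ 2 * d : ℚ) : ℝ) = (((-n : ℤ) : ℚ) : ℝ) := by
      push_cast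
      rw [hnorm, hw2]
      have h2 : sg1 K (w : K) = (r : ℝ) * Real.sqrt d := by
        rw [hr, map_mul, Fd_rat, ha1]
      rw [h2]
      have h3 : Real.sqrt d * Real.sqrt d = (d : ℝ) := Real.mul_self_sqrt (Nat.cast_nonneg d)
      linear_combination (-(r : ℝ) ^ 2) * h3
    exact_mod_cast h1
  obtain ⟨v, hv⟩ := Fd_den hd hsq
  refine ⟨u, v, ?_⟩
  have h5 : w = (v : 𝓞 K) * a := by
    apply RingOfIntegers.ext
    show algebraMap (𝓞 K) K w = algebraMap (𝓞 K) K ((v : 𝓞 K) * a)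
    rw [map_mul, map_intCast]
    have h6 : algebraMap (𝓞 K) K w = algebraMap ℚ K r * algebraMap (𝓞 K) K a := hr
    rw [h6, hv, map_intCast]
  rw [← h5, hw]
  ring

end Pool.Agent.STr
end

section

/-!
# TASK Ba6: the conductor

PROOF. Let `f` be a divisor of `Q` of minimal norm `gN f` such that `κ u = κ u'` for all `u`, `u'` prime to `Q` with `f ∣ u - u'` (`Q` itself is one: `GC.per`; use `Nat.find` or `WellFounded.min` for the values of `gN`). `f ≠ 0` since `Q ≠ 0`.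
`pr`: let `π` be a prime, `π ∣ Q`, and suppose `¬ π ∣ f`. By `Ram` there is `u` prime to `Q`, `f ∣ u - 1`, `κ u ≠ 1 = κ 1` (`GC.unit`), contradicting the property of `f`. `nu`: `2 ∣ Q`, so some prime divides `Q`, hence `f`.
`ram`: let `π ∣ f`, `f = π g`. `gN g < gN f`, `g ∣ Q`, so `g` does not have the property: there are `u`, `u'` prime to `Q` with `g ∣ u - u'`, `κ u ≠ κ u'`. Let `w` be an inverse of `u'` modulo `Q`: `Q ∣ w u' - 1` (from `IsCoprime`); `w` is prime to `Q`. `u'' = u w`: prime to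
`Q`, `u'' - 1 = (u - u') w + (u' w - 1)` is divisible by `g`, so `f ∣ π (u'' - 1)`; `κ u'' = κ u * κ w` and `κ u' * κ w = κ (u' w) = κ 1 = 1` (`GC.per`, `GC.mul`), so `κ u'' = κ u * (κ u')⁻¹ ≠ 1`.
-/

set_option autoImplicit false

namespace Pool.Agent.STr

open Pool.Agent.STg (gN gOdd Prim)

theorem exists_cd {Q : ℕ} (hQ : Q ≠ 0) (h2 : 2 ∣ Q) {κ : GaussianInt → GaussianIntˣ} (h : GC Q κ) (hr : Ram Q κ) :
    ∃ f : GaussianInt, Cd Q κ f := by
  have hQ0 : ((Q : ℕ) : GaussianInt) ≠ 0 := by exact_mod_cast hQ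
  have hQu : ¬ IsUnit ((Q : ℕ) : GaussianInt) := by
    intro hu
    rw [← Zsqrtd.norm_eq_one_iff] at hu
    rw [Zsqrtd.norm_natCast] at hu
    have h1 : (Q : ℕ) * Q = 1 := by
      have := hu
      rw [← Nat.cast_mul, Int.natAbs_natCast] at this
      exact this
    have h3 : Q = 1 := Nat.eq_one_of_mul_eq_one_right h1
    omega
  have hne : ∀ u : GaussianInt, IsCoprime u ((Q : ℕ) : GaussianInt) → u ≠ 0 := by
    rintro u hu rfl
    exact hQu (isCoprime_zero_left.1 hu)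
  obtain ⟨f, hf, hmin⟩ := (IsWellFounded.wf (α := GaussianInt) (r := DvdNotUnit)).has_min
    {f : GaussianInt | f ∣ ((Q : ℕ) : GaussianInt) ∧ ∀ u u' : GaussianInt,
      IsCoprime u ((Q : ℕ) : GaussianInt) → IsCoprime u' ((Q : ℕ) : GaussianInt) → f ∣ u - u' → κ u = κ u'}
    ⟨((Q : ℕ) : GaussianInt), dvd_rfl, fun u u' hu _ hd => h.per u u' hu hd⟩
  obtain ⟨hf1, hf2⟩ := hf
  have hpr : ∀ π : GaussianInt, Prime π → π ∣ ((Q : ℕ) : GaussianInt) → π ∣ f := by
    intro π hπ hπQ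
    by_contra hπf
    obtain ⟨u, hu, hu1, hu2⟩ := hr π hπ hπQ
    apply hu2
    rw [hf2 u 1 hu isCoprime_one_left (hu1 f hf1 hπf)]
    exact h.unit 1 isUnit_one
  have hf0 : f ≠ 0 := by
    rintro rfl
    exact hQ0 (zero_dvd_iff.1 hf1)
  refine ⟨f, hf0, ?_, hf1, hpr, hf2, ?_⟩
  · intro hfu
    obtain ⟨π, hπ, hπQ⟩ := WfDvdMonoid.exists_irreducible_factor hQu hQ0
    exact hπ.not_isUnit (isUnit_of_dvd_unit (hpr π hπ.prime hπQ) hfu)
  · intro π hπ hπf
    obtain ⟨g, hg⟩ := hπf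
    have hg0 : g ≠ 0 := by
      rintro rfl
      rw [mul_zero] at hg
      exact hf0 hg
    have hgQ : g ∣ ((Q : ℕ) : GaussianInt) := (Dvd.intro_left π hg.symm).trans hf1
    have hgn := fun hgP => hmin g hgP ⟨hg0, π, hπ.not_isUnit, by rw [hg, mul_comm]⟩
    have hex : ∃ u u' : GaussianInt, IsCoprime u ((Q : ℕ) : GaussianInt) ∧
        IsCoprime u' ((Q : ℕ) : GaussianInt) ∧ g ∣ u - u' ∧ κ u ≠ κ u' := by
      by_contra hcon
      apply hgn
      refine ⟨hgQ, fun u u' hu hu' hd => ?_⟩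
      by_contra hκ
      exact hcon ⟨u, u', hu, hu', hd, hκ⟩
    obtain ⟨u, u', hu, hu', hd, hκ⟩ := hex
    obtain ⟨w, b, hwb⟩ := hu'
    have hu'' : IsCoprime u' ((Q : ℕ) : GaussianInt) := ⟨w, b, hwb⟩
    have hw : IsCoprime w ((Q : ℕ) : GaussianInt) := ⟨u', b, by rw [mul_comm u' w]; exact hwb⟩
    have e1 : u' * w - 1 = ((Q : ℕ) : GaussianInt) * (-b) := by
      linear_combination hwb
    have hd1 : ((Q : ℕ) : GaussianInt) ∣ u' * w - 1 := ⟨-b, e1⟩
    have hd2 : g ∣ u * w - 1 := by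
      have e2 : u * w - 1 = (u - u') * w + (u' * w - 1) := by ring
      rw [e2]
      exact dvd_add (Dvd.dvd.mul_right hd _) (hgQ.trans hd1)
    refine ⟨u * w, hu.mul_left hw, ?_, ?_⟩
    · rw [hg]
      exact mul_dvd_mul_left π hd2
    · intro hone
      apply hκ
      have e3 : κ (u' * w) = 1 := by
        rw [h.per (u' * w) 1 (hu''.mul_left hw) hd1]
        exact h.unit 1 isUnit_one
      rw [h.mul u w (hne u hu) (hne w hw)] at hone
      rw [h.mul u' w (hne u' hu'') (hne w hw)] at e3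
      exact mul_right_cancel (hone.trans e3.symm)

end Pool.Agent.STr
end
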