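import Pool.Agent.Lib.MP_1ef7cf_nt_r.Mg.G015
import Pool.Agent.Lib.MP_1ef7cf_nt_g.Mg.G025
import Pool.Agent.Lib.MP_1ef7cf_nt_r.V4

section

/-!
# TASK N3: norm type characters

`NT N ω₀ ω` means `ω (cls J) = ω₀ (absNorm I)` for the integral ideals `I` prime to the modulus.

PROOF. Every class contains an integral ideal: `exists_int` (for `J ∈ primeTo M` multiply by the principal ideal of a suitable `x ∈ 𝓞 K`, `x ≡ 1 mod M`,
`σ₂ x > 0`, or use powers: the class group is finite; a helper in the library is `exists_rep` / the ideals `primeTo` are quotients of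
integral ideals prime to `M`: `J = I₁ / I₂`, so `cls J = cls I₁ * (cls I₂) ^ (h - 1)`). `exists_NT`: by `norm_cls` and `ω₀ (-1) = 1` the value
`ω₀ (absNorm I)` depends only on the class of `I` (`(absNorm I).Coprime N` by `coprime_absNorm`), and it is multiplicative.
`NT.pow`, `NT.comp_pr`: from the definition (and `exists_int` for the uniqueness; an integral ideal prime to `M'`
is prime to `M`; `pr_cls`). `NT.prime`: the definition for `I = q`.
`NT.fix`: take `I`, `J` for `A` by `exists_int`; `ω₀` of the class of `absNorm I` is `ω₀ 1` or `ω₀ (-1)`.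
(This file: NT.pow, NT.comp_pr, NT.prime, NT.fix.)
-/

set_option autoImplicit false

open NumberField IsDedekindDomain nonZeroDivisors IntermediateField

namespace Pool.Agent.STr

open Pool.Agent.ST

variable {K : Type*} [Field K] [NumberField K] [Algebra K ℝ] {σ₂ : K →+* ℝ} {N : ℕ} {M M' : Ideal (𝓞 K)}

theorem NT.pow {ω₀ : (ZMod N)ˣ →* ℂˣ} {ω : RayClassGroup σ₂ M →* ℂˣ} (h : NT N ω₀ ω) (j : ℤ) :
    NT N (ω₀ ^ j) (ω ^ j) := by
  intro I J hI hJ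
  rw [MonoidHom.zpow_apply, MonoidHom.zpow_apply, h I J hI hJ]

theorem NT.comp_pr {ω₀ : (ZMod N)ˣ →* ℂˣ} {ω : RayClassGroup σ₂ M →* ℂˣ} (h : NT N ω₀ ω) (hle : M' ≤ M) :
    NT N ω₀ (ω.comp (pr σ₂ hle)) := by
  intro I J hI hJ
  rw [MonoidHom.comp_apply, pr_cls]
  exact h I (inc hle J) hI (by rw [coe_inc]; exact hJ)

theorem NT.prime {ω₀ : (ZMod N)ˣ →* ℂˣ} {ω : RayClassGroup σ₂ M →* ℂˣ} (h : NT N ω₀ ω) (q : PrI K)
    (hq : ¬ q.asIdeal ∣ M) (hc : (pn q).Coprime N) :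
    ω (cls σ₂ M (prJ M q hq)) = ω₀ (ZMod.unitOfCoprime _ hc) :=
  h q.asIdeal (prJ M q hq) hc (coe_prJ M q hq)

/-- a norm type character is trivial on the classes whose Artin symbols fix the cosine -/
theorem NT.fix (hN : N ≠ 0) (hM0 : M ≠ ⊥) (hM : M ≤ Ideal.span {(N : 𝓞 K)}) [Finite (RayClassGroup σ₂ M)]
    {ω₀ : (ZMod N)ˣ →* ℂˣ} (h1 : ω₀ (-1) = 1) {ω : RayClassGroup σ₂ M →* ℂˣ} (h : NT N ω₀ ω)
    {A : RayClassGroup σ₂ M}
    (hA : ∀ (I : Ideal (𝓞 K)) (J : primeTo (K := K) M), ((J : (FI K)ˣ) : FI K) = (I : FI K) → cls σ₂ M J = A →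
      (N : ℤ) ∣ (Ideal.absNorm I : ℤ) - 1 ∨ (N : ℤ) ∣ (Ideal.absNorm I : ℤ) + 1) : ω A = 1 := by
  obtain ⟨I, J, hJ, hJA⟩ := exists_int hM0 A
  have hcop : (Ideal.absNorm I).Coprime N :=
    coprime_absNorm hN hM (coprime_of_mem_primeTo hJ J.2)
  have h2 : ω A = ω₀ (ZMod.unitOfCoprime _ hcop) := by
    rw [← hJA]
    exact h I J hcop hJ
  have h3 : ZMod.unitOfCoprime (Ideal.absNorm I) hcop = 1 ∨
      ZMod.unitOfCoprime (Ideal.absNorm I) hcop = -1 := by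
    rcases hA I J hJ hJA with h4 | h4
    · left
      ext
      rw [ZMod.coe_unitOfCoprime, Units.val_one]
      have h5 : (((Ideal.absNorm I : ℤ) - 1 : ℤ) : ZMod N) = 0 :=
        (ZMod.intCast_zmod_eq_zero_iff_dvd _ _).2 h4
      push_cast at h5
      exact sub_eq_zero.1 h5
    · right
      ext
      rw [ZMod.coe_unitOfCoprime, Units.val_neg, Units.val_one]
      have h5 : (((Ideal.absNorm I : ℤ) + 1 : ℤ) : ZMod N) = 0 :=
        (ZMod.intCast_zmod_eq_zero_iff_dvd _ _).2 h4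
      push_cast at h5
      exact eq_neg_of_add_eq_zero_left h5
  rcases h3 with h4 | h4
  · rw [h2, h4, map_one]
  · rw [h2, h4, h1]

end Pool.Agent.STr
end

section

/-!
# TASK N5a: orders of norm type characters ((6.1), (6.2) of the paper)

PROOF. `NT.dvd`: `ω ^ (orderOf ω₀)` is `NT N 1`, so it is trivial (`exists_int`).
`NT.order_wild`: `≤` by `NT.dvd`. If `ω ^ j = 1`: for every unit `x₀` modulo `r ^ t` let `x` be a positive integer with `x ≡ x₀ mod r ^ t`,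
`x ≡ 1` modulo `c`, `c` a positive integer in `m` prime to `r` (exists: `(r)` and `m` are coprime: `c` = the prime-to-`r` part of `absNorm m`... the
norm of `m` is in `m`; if `r` divided it, ... simpler: `u r + v = 1` with `v ∈ m`, `v v' ∈ ℤ ∩ m` is prime to `r`). The ideal `(x)` is prime to `M`, its
norm is `x ^ 2`, and its class is `ω`-mapped to `ω₀ (x₀) ^ 2`. So `ω₀ ^ (2 j) = 1`, and the order of `ω₀` is a power of the odd prime `r`, so
`ω₀ ^ j = 1`.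
`NT.order_tame`: let `g` generate... : suppose `ω g ^ j = 1` for all `g` in the kernel of `pr : C_M → C_(M₀)`, `M = M₀ p`. Let `c₀` be a unit modulo `p`. There are
integers `x`, `y` with `x ^ 2 - d y ^ 2 ≡ c₀ mod p` (`ZMod`: `p` odd (`p ∤ 2 d`), the sets `{x ^ 2}` and `{c₀ + d y ^ 2}` have `(p + 1) / 2` elements each;
Mathlib: `FiniteField.exists_root_sum_quadratic` or `ZMod.sq_add_sq`-like). Choose `α ∈ 𝓞 K`, `α ≡ x + y a mod p`, `α ≡ 1 mod M₀`, `0 < σ₂ α` (Chinese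
remainder, then add a large positive integer multiple of an integer in `M₀ p`). The class of `(α)` in `C_M` is in the kernel of `pr` (it is trivial in
`C_(M₀)`), `absNorm (α) = |Norm α|`, `Norm α ≡ x ^ 2 - d y ^ 2 ≡ c₀ mod p` (`norm_congr`, `Norm (x + y a) = x ^ 2 - d y ^ 2` by `norm_real`,
`FD.alg`, `FD.sig`), so `ω ([(α)]) = ω₀ (± c₀) = ω₀ c₀`. Hence `ω₀ ^ j = 1`.
(This file: NT.dvd, NT.order_wild.)
-/

set_option autoImplicit false

open NumberField IsDedekindDomain nonZeroDivisors IntermediateField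

namespace Pool.Agent.STr

open Pool.Agent.ST
open Pool.Agent.STh.F (FD)

variable {K : Type*} [Field K] [NumberField K] [Algebra K ℝ] {σ₂ : K →+* ℝ} {N : ℕ} {M : Ideal (𝓞 K)}

theorem NT.dvd (hM0 : M ≠ ⊥) (hN : N ≠ 0) (hM : M ≤ Ideal.span {(N : 𝓞 K)}) [Finite (RayClassGroup σ₂ M)]
    {ω₀ : (ZMod N)ˣ →* ℂˣ} {ω : RayClassGroup σ₂ M →* ℂˣ} (h : NT N ω₀ ω) : orderOf ω ∣ orderOf ω₀ := by
  refine orderOf_dvd_of_pow_eq_one (MonoidHom.ext fun A => ?_)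
  obtain ⟨I, J, hJ, hJA⟩ := exists_int hM0 A
  have hcop : (Ideal.absNorm I).Coprime N :=
    coprime_absNorm hN hM (coprime_of_mem_primeTo hJ J.2)
  have h2 : ω A = ω₀ (ZMod.unitOfCoprime _ hcop) := by
    rw [← hJA]
    exact h I J hcop hJ
  have h3 : ω₀ ^ orderOf ω₀ = 1 := pow_orderOf_eq_one ω₀
  have h4 := DFunLike.congr_fun h3 (ZMod.unitOfCoprime _ hcop)
  rw [MonoidHom.pow_apply, MonoidHom.one_apply] at h4 ⊢
  rw [h2, h4]

/-- a positive integer in an ideal prime to `r` which is prime to `r` -/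
private lemma N5a_int {r : ℕ} (hr : r.Prime) {m : Ideal (𝓞 K)}
    (hrm : IsCoprime (Ideal.span {(r : 𝓞 K)}) m) : ∃ c : ℕ, c ≠ 0 ∧ (c : 𝓞 K) ∈ m ∧ c.Coprime r := by
  obtain ⟨u, hu, v, hv, huv⟩ := Ideal.isCoprime_iff_exists.1 hrm
  have h1 : IsCoprime (Ideal.span {v}) (Ideal.span {(r : 𝓞 K)}) :=
    Ideal.isCoprime_iff_exists.2 ⟨v, Ideal.mem_span_singleton_self v, u, hu, by rw [add_comm]; exact huv⟩
  have h2 : (Ideal.absNorm (Ideal.span {v})).Coprime r := coprime_absNorm hr.ne_zero le_rfl h1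
  refine ⟨Ideal.absNorm (Ideal.span {v}), ?_, ?_, h2⟩
  · intro h0
    rw [h0, Nat.coprime_zero_left] at h2
    exact hr.ne_one h2
  · exact (Ideal.span_singleton_le_iff_mem _).2 hv (Ideal.absNorm_mem _)

/-- a positive integer prime to `M` with a given residue -/
private lemma N5a_crt {r t : ℕ} (hr : r.Prime) {m : Ideal (𝓞 K)}
    (hrm : IsCoprime (Ideal.span {(r : 𝓞 K)}) m) (x₀ : (ZMod (r ^ t))ˣ) :
    ∃ x : ℕ, x ≠ 0 ∧ ((x : ℕ) : ZMod (r ^ t)) = (x₀ : ZMod (r ^ t)) ∧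
      IsCoprime (Ideal.span {(x : 𝓞 K)}) (m * Ideal.span {(r : 𝓞 K)} ^ t) := by
  obtain ⟨c, hc0, hcm, hcr⟩ := N5a_int hr hrm
  have hcop : (r ^ t).Coprime c := (hcr.symm.pow_left t)
  have hN0 : r ^ t ≠ 0 := pow_ne_zero _ hr.ne_zero
  have : NeZero (r ^ t) := ⟨hN0⟩
  obtain ⟨y, hy1, hy2⟩ := Nat.chineseRemainder hcop (x₀ : ZMod (r ^ t)).val 1
  refine ⟨y + r ^ t * c, ?_, ?_, ?_⟩
  · have : 0 < r ^ t * c := Nat.pos_of_ne_zero (mul_ne_zero hN0 hc0)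
    omega
  · have h1 : ((y : ℕ) : ZMod (r ^ t)) = (((x₀ : ZMod (r ^ t)).val : ℕ) : ZMod (r ^ t)) :=
      (ZMod.natCast_eq_natCast_iff _ _ _).2 hy1
    rw [ZMod.natCast_zmod_val] at h1
    rw [Nat.cast_add, Nat.cast_mul, ZMod.natCast_self, zero_mul, add_zero, h1]
  · have h1 : ((y : ℕ) : ZMod (r ^ t)) = (((x₀ : ZMod (r ^ t)).val : ℕ) : ZMod (r ^ t)) :=
      (ZMod.natCast_eq_natCast_iff _ _ _).2 hy1
    rw [ZMod.natCast_zmod_val] at h1
    have h2 : (y + r ^ t * c).Coprime (r ^ t) := by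
      have h3 : IsUnit ((y + r ^ t * c : ℕ) : ZMod (r ^ t)) := by
        rw [Nat.cast_add, Nat.cast_mul, ZMod.natCast_self, zero_mul, add_zero, h1]
        exact x₀.isUnit
      exact (ZMod.isUnit_iff_coprime _ _).1 h3
    refine IsCoprime.mul_right ?_ ?_
    · have h4 : ((c : ℕ) : ℤ) ∣ ((1 : ℕ) : ℤ) - ((y : ℕ) : ℤ) := Nat.modEq_iff_dvd.1 hy2
      obtain ⟨k, hk⟩ := h4
      have h5 : (1 : 𝓞 K) - (y : 𝓞 K) = (c : 𝓞 K) * (k : 𝓞 K) := by
        have := congrArg (fun z : ℤ => (z : 𝓞 K)) hk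
        push_cast at this
        exact this
      refine Ideal.isCoprime_iff_exists.2 ⟨((y + r ^ t * c : ℕ) : 𝓞 K), Ideal.mem_span_singleton_self _,
        (c : 𝓞 K) * ((k : 𝓞 K) - ((r ^ t : ℕ) : 𝓞 K)), Ideal.mul_mem_right _ _ hcm, ?_⟩
      push_cast
      linear_combination -h5
    · rw [Ideal.span_singleton_pow, Ideal.isCoprime_span_singleton_iff, ← Nat.cast_pow]
      have h6 : IsCoprime (((y + r ^ t * c : ℕ) : ℤ)) (((r ^ t : ℕ) : ℤ)) := Nat.isCoprime_iff_coprime.2 h2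
      have h7 := h6.map (Int.castRingHom (𝓞 K))
      simpa using h7

theorem NT.order_wild (h2 : Module.finrank ℚ K = 2) {r t : ℕ} (hr : r.Prime) (hr2 : r ≠ 2) {m : Ideal (𝓞 K)} (hm : m ≠ ⊥)
    (hrm : IsCoprime (Ideal.span {(r : 𝓞 K)}) m) {M : Ideal (𝓞 K)} (hM : M = m * Ideal.span {(r : 𝓞 K)} ^ t)
    [Finite (RayClassGroup σ₂ M)] {ω₀ : (ZMod (r ^ t))ˣ →* ℂˣ}
    {ω : RayClassGroup σ₂ M →* ℂˣ} (h : NT (r ^ t) ω₀ ω) (ho : ∃ i, orderOf ω₀ = r ^ i) :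
    orderOf ω = orderOf ω₀ := by
  have hN0 : r ^ t ≠ 0 := pow_ne_zero _ hr.ne_zero
  have hr0 : (r : 𝓞 K) ≠ 0 := by exact_mod_cast hr.ne_zero
  have hsp : Ideal.span {(r : 𝓞 K)} ≠ ⊥ := by
    rw [Ne, Ideal.span_singleton_eq_bot]
    exact hr0
  have hM0 : M ≠ ⊥ := by
    rw [hM, ← Ideal.zero_eq_bot]
    rw [← Ideal.zero_eq_bot] at hm hsp
    exact mul_ne_zero hm (pow_ne_zero _ hsp)
  have hMN : M ≤ Ideal.span {((r ^ t : ℕ) : 𝓞 K)} := by
    rw [hM]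
    refine Ideal.mul_le_right.trans (le_of_eq ?_)
    rw [Ideal.span_singleton_pow, Nat.cast_pow]
  refine Nat.dvd_antisymm (NT.dvd hM0 hN0 hMN h) ?_
  have key : ω₀ ^ (2 * orderOf ω) = 1 := by
    refine MonoidHom.ext fun x₀ => ?_
    rw [MonoidHom.pow_apply, MonoidHom.one_apply]
    obtain ⟨x, hx0, hx, hxM⟩ := N5a_crt hr hrm x₀
    rw [← hM] at hxM
    have hI : Ideal.span {(x : 𝓞 K)} ≠ ⊥ := by
      rw [Ne, Ideal.span_singleton_eq_bot]
      exact_mod_cast hx0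
    have hmem : uI (Ideal.span {(x : 𝓞 K)}) hI ∈ primeTo M := coe_mem_primeTo (coe_uI _ hI) hxM
    have hcop : (Ideal.absNorm (Ideal.span {(x : 𝓞 K)})).Coprime (r ^ t) := coprime_absNorm hN0 hMN hxM
    have h3 := h (Ideal.span {(x : 𝓞 K)}) ⟨_, hmem⟩ hcop (coe_uI _ hI)
    have h4 : Ideal.absNorm (Ideal.span {(x : 𝓞 K)}) = x ^ 2 := by
      rw [Ideal.absNorm_span_natCast, RingOfIntegers.rank, h2]
    have h5 : ZMod.unitOfCoprime _ hcop = x₀ ^ 2 := by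
      apply Units.ext
      rw [ZMod.coe_unitOfCoprime, Units.val_pow_eq_pow_val, ← hx, h4, Nat.cast_pow]
    rw [h5, map_pow] at h3
    rw [pow_mul, ← h3, ← MonoidHom.pow_apply, pow_orderOf_eq_one, MonoidHom.one_apply]
  have h6 : orderOf ω₀ ∣ 2 * orderOf ω := orderOf_dvd_of_pow_eq_one key
  obtain ⟨i, hi⟩ := ho
  refine Nat.Coprime.dvd_of_dvd_mul_left ?_ h6
  rw [hi]
  exact Nat.Coprime.pow_left i ((Nat.coprime_primes hr Nat.prime_two).2 hr2)

end Pool.Agent.STr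
end

section

/-!
# TASK G2: values of the twisted characters at new primes

PROOF. `mul_ne_one`: if `x y = 1` then `y = x⁻¹` has order dividing `a` and a power of `r`, so `y = 1`.
`twist_ne`: the character `χ.comp pr * η` of `C_M`, `M = m * (r) ^ t`. Its value at the class of `v` is `χ [v]_m * η₀ (pn v)` (`pr_cls`: `pr` of the class of `v` is the class of `v`; `NT.prime`). `χ ^ a = 1`,
`¬ r ∣ a`, and `η₀ (pn v)` has order dividing `r ^ i` and is `≠ 1` by hypothesis.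
`exists_I`: for each of the finitely many primes `v` in `S` (not over `r`), the integer `(pn v) ^ (r - 1) - 1` is not zero (`pn v ≥ 2`, `r ≥ 2`), so it is not divisible by `r ^ (I + 1)` for large `I`; take the
maximum; if `r ^ (I₀ + 1)` does not divide then `r ^ (i + 1)` does not for `i ≥ I₀`.
-/

set_option autoImplicit false

open NumberField IsDedekindDomain nonZeroDivisors IntermediateField

namespace Pool.Agent.STr

open Pool.Agent.ST

theorem mul_ne_one {x y : ℂˣ} {a r i : ℕ} (hr : r.Prime) (hx : x ^ a = 1) (ha : ¬ r ∣ a) (hy : y ^ (r ^ i) = 1)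
    (hy1 : y ≠ 1) : x * y ≠ 1 := by
  intro hxy
  have h1 : y = x⁻¹ := eq_inv_of_mul_eq_one_right hxy
  have h2 : y ^ a = 1 := by rw [h1, inv_pow, hx, inv_one]
  have h3 : orderOf y ∣ a := orderOf_dvd_of_pow_eq_one h2
  have h4 : orderOf y ∣ r ^ i := orderOf_dvd_of_pow_eq_one hy
  have h5 : Nat.Coprime (r ^ i) a := (hr.coprime_iff_not_dvd.2 ha).pow_left i
  have h6 : orderOf y ∣ 1 := by
    rw [← h5.gcd_eq_one]
    exact Nat.dvd_gcd h4 h3
  exact hy1 (orderOf_eq_one_iff.1 (Nat.dvd_one.1 h6))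

variable {K : Type*} [Field K] [NumberField K] [Algebra K ℝ] {σ₂ : K →+* ℝ} {n m M : Ideal (𝓞 K)}

theorem twist_ne {r t i a : ℕ} (hr : r.Prime) (hle : M ≤ m) {χ : RayClassGroup σ₂ m →* ℂˣ} (hχ : χ ^ a = 1)
    (ha : ¬ r ∣ a) {η₀ : (ZMod (r ^ t))ˣ →* ℂˣ} (ho : orderOf η₀ = r ^ i) {η : RayClassGroup σ₂ M →* ℂˣ}
    (hη : NT (r ^ t) η₀ η) {v : PrI K} (hv : ¬ v.asIdeal ∣ M) (hc : (pn v).Coprime (r ^ t))
    (hne : η₀ (ZMod.unitOfCoprime _ hc) ≠ 1) :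
    (χ.comp (pr σ₂ hle) * η) (cls σ₂ M (prJ M v hv)) ≠ 1 := by
  rw [MonoidHom.mul_apply, MonoidHom.comp_apply, hη.prime v hv hc]
  refine mul_ne_one (i := i) hr ?_ ha ?_ hne
  · have h1 := DFunLike.congr_fun hχ (pr σ₂ hle (cls σ₂ M (prJ M v hv)))
    rwa [MonoidHom.pow_apply, MonoidHom.one_apply] at h1
  · have h1 : η₀ ^ (r ^ i) = 1 := by rw [← ho]; exact pow_orderOf_eq_one η₀
    have h2 := DFunLike.congr_fun h1 (ZMod.unitOfCoprime _ hc)
    rwa [MonoidHom.pow_apply, MonoidHom.one_apply] at h2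

theorem exists_I {r : ℕ} (hr : r.Prime) {S : Set (PrI K)} (hS : S.Finite) :
    ∃ I₀ : ℕ, ∀ v ∈ S, ∀ i, I₀ ≤ i → ¬ ((r : ℤ) ^ (i + 1) ∣ ((pn v : ℕ) : ℤ) ^ (r - 1) - 1) := by
  refine ⟨hS.toFinset.sup fun v => (((pn v : ℕ) : ℤ) ^ (r - 1) - 1).natAbs, fun v hv i hi hd => ?_⟩
  have h1 : (((pn v : ℕ) : ℤ) ^ (r - 1) - 1).natAbs ≤ i :=
    (Finset.le_sup (f := fun v => (((pn v : ℕ) : ℤ) ^ (r - 1) - 1).natAbs) (hS.mem_toFinset.2 hv)).trans hi
  have h2 : (2 : ℤ) ≤ ((pn v : ℕ) : ℤ) := by exact_mod_cast two_le_pn v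
  have h3 : ((pn v : ℕ) : ℤ) ^ (r - 1) - 1 ≠ 0 := by
    have h4 : r - 1 ≠ 0 := by
      have := hr.two_le
      omega
    have h5 : (1 : ℤ) < ((pn v : ℕ) : ℤ) ^ (r - 1) := one_lt_pow₀ (by omega) h4
    omega
  have h6 : ((r : ℤ) ^ (i + 1)).natAbs ∣ (((pn v : ℕ) : ℤ) ^ (r - 1) - 1).natAbs := Int.natAbs_dvd_natAbs.2 hd
  have h7 : r ^ (i + 1) ≤ (((pn v : ℕ) : ℤ) ^ (r - 1) - 1).natAbs := by
    have h8 := Nat.le_of_dvd (Int.natAbs_pos.2 h3) h6
    rwa [Int.natAbs_pow, Int.natAbs_natCast] at h8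
  have h9 : i + 1 < r ^ (i + 1) := Nat.lt_pow_self hr.one_lt
  omega

end Pool.Agent.STr
end
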