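import Pool.Agent.Lib.MP_1ef7cf_nt_r.Df
import Pool.Agent.Lib.MP_1ef7cf_nt_b.Mg.G001
import Pool.Agent.Lib.MP_1ef7cf_nt_r.V1

section

/-!
# TASK I1: valuations in an abelian tower (section 1 of the paper)

`K ⊆ H ⊆ H'` number fields, `H' / K` abelian, `Θ` a subgroup of `Gal(H'/K)` of index `≤ h`, `x ∈ H'` nonzero,
`y = ∏ τ ∈ Θ, τ x ∈ H`, `v` a prime of `H'` over the prime `w` of `H`, `w.valuation y = exp a` (multiplicative notation) with `a ≠ 0`.
CLAIM: `N v ≤ N w ^ (h |a|)`.
-/

set_option autoImplicit false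

open NumberField IsDedekindDomain nonZeroDivisors

namespace Pool.Agent.STr

open Pool.Agent.ST
open Pool.Agent.STc (pg)

private lemma I1_dvd {G : Type*} [Group G] [Fintype G] (E : Subgroup G) (φ : G → ℤ)
    (h : ∀ g, ∀ δ ∈ E, φ (g * δ) = φ g) : (Nat.card E : ℤ) ∣ ∑ g, φ g := by
  classical
  have : Fintype (G ⧸ E) := Fintype.ofFinite _
  have : Fintype E := Fintype.ofFinite _
  have key : ∀ q : G ⧸ E, ∑ g ∈ Finset.univ.filter (fun g : G => (g : G ⧸ E) = q), φ g =
      (Nat.card E : ℤ) * φ q.out := by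
    intro q
    have h1 : ∑ s : E, φ (q.out * (s : G)) =
        ∑ g ∈ Finset.univ.filter (fun g : G => (g : G ⧸ E) = q), φ g := by
      apply Finset.sum_bij (fun (s : E) _ => q.out * (s : G))
      · intro s _
        rw [Finset.mem_filter]
        refine ⟨Finset.mem_univ _, ?_⟩
        rw [QuotientGroup.mk_mul_of_mem _ s.2, QuotientGroup.out_eq']
      · intro s _ t _ hst
        exact Subtype.ext (mul_left_cancel hst)
      · intro g hg
        rw [Finset.mem_filter] at hg
        have h2 : q.out⁻¹ * g ∈ E := by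
          rw [← QuotientGroup.eq, QuotientGroup.out_eq', hg.2]
        exact ⟨⟨_, h2⟩, Finset.mem_univ _, by simp⟩
      · intro s _; rfl
    rw [← h1, Finset.sum_congr rfl (fun (s : E) _ => h _ _ s.2)]
    rw [Finset.sum_const, Finset.card_univ, nsmul_eq_mul, Nat.card_eq_fintype_card]
  rw [← Finset.sum_fiberwise Finset.univ (fun g : G => (g : G ⧸ E)) φ]
  exact Finset.dvd_sum (fun q _ => ⟨_, key q⟩)

variable {K H H' : Type*} [Field K] [NumberField K] [Field H] [NumberField H] [Field H'] [NumberField H']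
  [Algebra K H] [Algebra K H'] [Algebra H H'] [IsScalarTower K H H']

private lemma I1_val_prod {ι : Type*} (v : PrI H') (s : Finset ι) (f : ι → H') (hf : ∀ i, f i ≠ 0) :
    v.valuation H' (∏ i ∈ s, f i) = WithZero.exp (∑ i ∈ s, WithZero.log (v.valuation H' (f i))) := by
  classical
  induction s using Finset.induction_on with
  | empty => simp
  | insert i s hi ih =>
    rw [Finset.prod_insert hi, Finset.sum_insert hi, map_mul, ih, WithZero.exp_add,
      WithZero.exp_log ((Valuation.ne_zero_iff _).2 (hf i))]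

/-- the decomposition group of `v` over `H` -/
private lemma I1_card (v : PrI H') [IsGalois K H'] (D : Subgroup (H' ≃ₐ[K] H'))
    (hD : ∀ τ, τ ∈ D ↔ pg τ v = v) :
    v.asIdeal.ramificationIdx (𝓞 H) * v.asIdeal.inertiaDeg (𝓞 H) ≤ Nat.card D := by
  have : IsGalois H H' := IsGalois.tower_top_of_isGalois K H H'
  let A : MulAction (H' ≃ₐ[H] H') (PrI H') :=
    { smul := fun g u => pg g u
      one_smul := fun u => STc.pg_one u
      mul_smul := fun g h u => STc.pg_mul g h u }
  have horb : MulAction.orbit (H' ≃ₐ[H] H') v = ovr H (und H v) := by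
    ext u
    constructor
    · rintro ⟨g, rfl⟩
      exact STc.und_pg g v
    · intro hu
      obtain ⟨g, hg⟩ := STc.exists_pg (K := H) (u := v) (u' := u) (by
        have : und H u = und H v := hu
        exact this.symm)
      exact ⟨g, hg⟩
  have h1 := Nat.card_congr (MulAction.orbitProdStabilizerEquivGroup (H' ≃ₐ[H] H') v)
  have h2 := ncard_ovr_mul H v
  have h3 : Nat.card (H' ≃ₐ[H] H') = Module.finrank H H' := IsGalois.card_aut_eq_finrank H H'
  rw [Nat.card_prod, horb, h3, ← h2, Nat.card_coe_set_eq] at h1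
  have h4 : 0 < (ovr H (E := H') (und H v)).ncard := by
    rw [Set.ncard_pos (finite_ovr H _)]
    exact ⟨v, rfl⟩
  have h5 := Nat.eq_of_mul_eq_mul_left h4 h1
  rw [← h5]
  have hmem : ∀ g : H' ≃ₐ[H] H', pg (AlgEquiv.restrictScalars K g) v = pg g v := by
    intro g
    apply HeightOneSpectrum.ext
    ext z
    rw [STc.mem_pg, STc.mem_pg]
    have h6 : (AlgEquiv.restrictScalars K g)⁻¹ • z = g⁻¹ • z := RingOfIntegers.ext rfl
    rw [h6]
  have hinj : Function.Injective (fun g : MulAction.stabilizer (H' ≃ₐ[H] H') v =>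
      (⟨AlgEquiv.restrictScalars K g.1, (hD _).2 ((hmem g.1).trans g.2)⟩ : D)) := by
    intro g g' hg
    apply Subtype.ext
    apply AlgEquiv.ext
    intro z
    exact congrArg (fun t : D => t.1 z) hg
  exact Nat.card_le_card_of_injective _ hinj

theorem residue_bound [IsGalois K H'] (hcomm : ∀ σ τ : H' ≃ₐ[K] H', σ * τ = τ * σ)
    (v : PrI H') (Θ : Subgroup (H' ≃ₐ[K] H')) {T : Finset (H' ≃ₐ[K] H')} (hT : ∀ τ, τ ∈ T ↔ τ ∈ Θ) {h : ℕ}
    (hΘ : Θ.index ≤ h) {x : H'} (hx : x ≠ 0) {y : H} (hy : algebraMap H H' y = ∏ τ ∈ T, τ x) {a : ℤ} (ha : a ≠ 0)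
    (hya : (und H v).valuation H y = WithZero.exp a) : pn v ≤ pn (und H v) ^ (h * a.natAbs) := by
  classical
  let D : Subgroup (H' ≃ₐ[K] H') :=
    { carrier := {τ | pg τ v = v}
      one_mem' := STc.pg_one v
      mul_mem' := by
        intro σ τ hσ hτ
        rw [Set.mem_ofPred_eq] at hσ hτ ⊢
        rw [STc.pg_mul, hτ, hσ]
      inv_mem' := by
        intro σ hσ
        rw [Set.mem_ofPred_eq] at hσ ⊢
        conv_lhs => rw [← hσ]
        exact STc.pg_inv_pg σ v }
  have hD : ∀ τ, τ ∈ D ↔ pg τ v = v := fun τ => Iff.rfl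
  have hef := I1_card (K := K) (H := H) v D hD
  obtain ⟨e, he⟩ : ∃ e, e = v.asIdeal.ramificationIdx (𝓞 H) := ⟨_, rfl⟩
  obtain ⟨f, hf⟩ : ∃ f, f = v.asIdeal.inertiaDeg (𝓞 H) := ⟨_, rfl⟩
  rw [← he, ← hf] at hef
  have hpn := pn_eq_pow H v
  rw [← hf] at hpn
  -- the valuation of `y` at `v`
  have hv1 := STc.val_und (A := H) v y
  rw [Ideal.ramificationIdx'_eq_ramificationIdx _ _ (und H v).ne_bot, ← he, hya, hy,
    I1_val_prod v T (fun τ => τ x) (fun τ => by simpa using hx), ← WithZero.exp_nsmul,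
    WithZero.exp_inj] at hv1
  -- divisibility
  have : Fintype Θ := Fintype.ofFinite _
  have hsum : ∑ τ ∈ T, WithZero.log (v.valuation H' (τ x)) =
      ∑ τ : Θ, WithZero.log (v.valuation H' ((τ : H' ≃ₐ[K] H') x)) := by
    rw [← Finset.sum_subtype T hT (fun τ => WithZero.log (v.valuation H' (τ x)))]
  have hdvd := I1_dvd (D.subgroupOf Θ)
    (fun τ : Θ => WithZero.log (v.valuation H' ((τ : H' ≃ₐ[K] H') x))) (by
      intro g δ hδ
      have hδ' : pg (δ : H' ≃ₐ[K] H') v = v := hδ
      have h1 : ((g * δ : Θ) : H' ≃ₐ[K] H') x = (δ : H' ≃ₐ[K] H') ((g : H' ≃ₐ[K] H') x) := by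
        rw [← AlgEquiv.mul_apply, hcomm (δ : H' ≃ₐ[K] H')]
        rfl
      have h2 := STc.valuation_pg (δ : H' ≃ₐ[K] H') v ((g : H' ≃ₐ[K] H') x)
      rw [hδ'] at h2
      rw [h1, h2])
  rw [← hsum, hv1] at hdvd
  have he0 : 0 < e := he ▸ Ideal.ramificationIdx_pos _ _
  have hcard : Nat.card (D.subgroupOf Θ) ≤ e * a.natAbs := by
    have h1 := Int.natAbs_dvd_natAbs.2 hdvd
    rw [Int.natAbs_natCast, nsmul_eq_mul, Int.natAbs_mul, Int.natAbs_natCast] at h1
    exact Nat.le_of_dvd (Nat.mul_pos he0 (Int.natAbs_pos.2 ha)) h1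
  -- the index
  have hD2 : Nat.card D ≤ h * Nat.card (D.subgroupOf Θ) := by
    have h1 : Nat.card (Θ.subgroupOf D) * Θ.relIndex D = Nat.card D :=
      Subgroup.card_mul_index (Θ.subgroupOf D)
    have h2 : Nat.card (Θ.subgroupOf D) = Nat.card (D.subgroupOf Θ) := by
      have e1 : Nat.card (Θ.subgroupOf D) = Nat.card (Θ ⊓ D : Subgroup _) := by
        rw [← Subgroup.inf_subgroupOf_right]
        exact Nat.card_congr (Subgroup.subgroupOfEquivOfLe inf_le_right).toEquiv
      have e2 : Nat.card (D.subgroupOf Θ) = Nat.card (D ⊓ Θ : Subgroup _) := by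
        rw [← Subgroup.inf_subgroupOf_right]
        exact Nat.card_congr (Subgroup.subgroupOfEquivOfLe inf_le_right).toEquiv
      rw [e1, e2, inf_comm]
    have h3 : Θ.relIndex D ≤ Θ.index := by
      rw [← Subgroup.relIndex_top_right]
      apply Subgroup.relIndex_le_of_le_right le_top
      rw [Subgroup.relIndex_top_right]
      exact Subgroup.index_ne_zero_of_finite
    rw [← h1, h2, mul_comm]
    exact Nat.mul_le_mul_right _ (h3.trans hΘ)
  have hfin : f ≤ h * a.natAbs := by
    have h1 : e * f ≤ e * (h * a.natAbs) := by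
      calc e * f ≤ Nat.card D := hef
        _ ≤ h * Nat.card (D.subgroupOf Θ) := hD2
        _ ≤ h * (e * a.natAbs) := Nat.mul_le_mul_left _ hcard
        _ = e * (h * a.natAbs) := by ring
    exact Nat.le_of_mul_le_mul_left h1 he0
  rw [hpn]
  exact Nat.pow_le_pow_right (by have := two_le_pn (und H v); omega) hfin

end Pool.Agent.STr
end

section

/-!
# TASK V6: the groups `Lam H`

PROOF. `Lam_fg`: `x ↦ exp x` is an injective homomorphism (to multiplicative notation) from `Lam H` to the units of `𝓞 H`; the unit group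
of the number field `H` is finitely generated (Dirichlet; Mathlib: `NumberField.Units` ... `Monoid.FG (𝓞 H)ˣ` /
`Module.Finite ℤ (Additive (𝓞 H)ˣ)`), and subgroups of finitely generated abelian groups are finitely generated
(`ℤ` is noetherian: `IsNoetherian ℤ`, `Submodule.fg` ). `H` is a number field: `numberField_of_fd`.
`Lam_mono`: `act g (exp x) = act (res g) (exp x)` for `g` in the group of `H'` (`act_res`), `IsInt.mono`.
`Lam_sat`: let `u = exp x ∈ H'`, `u ^ k ∈ H`, `k ≠ 0`, all conjugates of `u` positive. For `g` in the group of `H'` trivial on `H`: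
`(g u) ^ k = g (u ^ k) = u ^ k`, and `g u`, `u` are positive, so `g u = u`. So `u ∈ H` (`mem_of_fixed`). For `g` in the group of `H`,
choose `g'` in the group of `H'` with `res g' = g` (`res_surjective`): `act g u = act g' u > 0`. Integrality is clear.
-/

set_option autoImplicit false

open NumberField IsDedekindDomain nonZeroDivisors IntermediateField

namespace Pool.Agent.STr

open Pool.Agent.ST
open Pool.Agent.STc (IsInt rd IsUn)

variable {K : Type*} [Field K] [NumberField K] [Algebra K ℝ] {H H' : IntermediateField K ℝ}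

theorem Lam_fg [FiniteDimensional K H] : (Lam H).FG := by
  have : NumberField H := numberField_of_fd H
  have hval : ∀ x : Lam H, IsUn H (Real.exp (x : ℝ)) := fun x => x.2.1
  let φ : Lam H →+ Additive (𝓞 H)ˣ :=
    AddMonoidHom.mk' (fun x => Additive.ofMul
      ⟨(hval x).int.toO, (hval x).inv.toO, by
        rw [← IsInt.toO_mul]
        apply RingOfIntegers.coe_injective
        apply Subtype.ext
        rw [IsInt.coe_toO, mul_inv_cancel₀ (hval x).ne]
        rfl, by
        rw [← IsInt.toO_mul]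
        apply RingOfIntegers.coe_injective
        apply Subtype.ext
        rw [IsInt.coe_toO, inv_mul_cancel₀ (hval x).ne]
        rfl⟩) (by
      intro x y
      rw [← ofMul_mul]
      congr 1
      apply Units.ext
      apply RingOfIntegers.coe_injective
      apply Subtype.ext
      exact Real.exp_add (x : ℝ) (y : ℝ))
  have hφ : Function.Injective φ := by
    intro x y hxy
    have h1 := congrArg (fun z : Additive (𝓞 H)ˣ => ((((Additive.toMul z : (𝓞 H)ˣ) : 𝓞 H) : H) : ℝ)) hxy
    have h2 : Real.exp (x : ℝ) = Real.exp (y : ℝ) := h1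
    exact Subtype.ext (Real.exp_injective h2)
  have hfin : Module.Finite ℤ (Lam H) := Module.Finite.of_injective φ.toIntLinearMap hφ
  rw [← AddGroup.fg_iff_addSubgroup_fg]
  exact Module.Finite.iff_addGroup_fg.mp hfin

theorem Lam_mono [FiniteDimensional K H] [IsGalois K H] (h : H ≤ H') : Lam H ≤ Lam H' := by
  rintro x ⟨hx, hx'⟩
  refine ⟨⟨hx.int.mono h, hx.inv.mono h, hx.ne⟩, fun g => ?_⟩
  rw [← act_res h g hx.int.1]
  exact hx' _

theorem Lam_sat [FiniteDimensional K H'] [IsGalois K H'] [FiniteDimensional K H] [IsGalois K H] (h : H ≤ H') {x : ℝ}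
    (hx : x ∈ Lam H') {k : ℕ} (hk : k ≠ 0) (hkx : (k : ℝ) * x ∈ Lam H) : x ∈ Lam H := by
  obtain ⟨hu, hu'⟩ := hx
  obtain ⟨hv, -⟩ := hkx
  have hpow : Real.exp ((k : ℝ) * x) = Real.exp x ^ k := Real.exp_nat_mul x k
  rw [hpow] at hv
  have hmem : Real.exp x ∈ H := by
    refine mem_of_fixed h hu.int.1 fun γ hγ => ?_
    have h1 : act γ (Real.exp x) ^ k = Real.exp x ^ k := by
      rw [← act_pow γ hu.int.1]
      exact hγ _ hv.int.1
    exact (pow_left_inj₀ (hu' γ).le (Real.exp_pos x).le hk).mp h1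
  refine ⟨⟨⟨hmem, hu.int.2⟩, ⟨inv_mem hmem, hu.inv.2⟩, hu.ne⟩, fun g => ?_⟩
  obtain ⟨g', rfl⟩ := res_surjective h g
  rw [act_res h g' hmem]
  exact hu' g'

end Pool.Agent.STr
end
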