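import Mathlib.RingTheory.ZMod.UnitsCyclic
import Mathlib.NumberTheory.Multiplicity
import Pool.Agent.Lib.MP_1ef7cf_nt_r.Df

section

/-!
# TASK N4a: Dirichlet characters of prime power order

PROOF. `exists_wild`: `(ZMod (r ^ t))ˣ` is cyclic of order `r ^ (t - 1) (r - 1)` (Mathlib: `ZMod.isCyclic_units_prime_pow`-like,
`ZMod.card_units_eq_totient`); a cyclic group of order `n` has, for each divisor `e` of `n`, a character of order `e` (send a generator to
a primitive `e`-th root of unity; or take a power of a generator of the dual group, which is isomorphic to the group,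
`CommGroup.monoidHom_mulEquiv_of_hasEnoughRootsOfUnity`). `ω₀ (-1) ^ 2 = 1` and `ω₀ (-1) ^ (r ^ (t - 1)) = 1` with `r` odd.
`exists_tame`: `(ZMod p)ˣ` is cyclic of order `p - 1`, divisible by `2 l ^ k`. Let `ψ` be a character of order `2 l ^ k`, `ω₀ = ψ ^ 2`;
`ω₀ (-1) = ψ (1) = 1`.
`wild_ne`: let `Y = y ^ (r - 1)`. If `η₀ y = 1` then `y` is in the kernel of `η₀`, which has `(r - 1) r ^ (t - 1 - i)` elements
(index `r ^ i`: the range of `η₀` has order `orderOf η₀` because `(ZMod (r ^ t))ˣ` is cyclic), so `Y ^ (r ^ (t - 1 - i)) = 1` modulo `r ^ t`. Lifting the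
exponent (`padicValNat.pow_sub_pow` or `Nat.emultiplicity_pow_sub_pow`, `Int.emultiplicity_pow_sub_pow`; `r` odd, `r ∣ Y - 1`): the `r`-adic valuation of
`Y ^ (r ^ (t - 1 - i)) - 1` is that of `Y - 1` plus `t - 1 - i`; so `r ^ (i + 1) ∣ Y - 1`. (The case `Y = 1` is trivial; if `i ≤ t - 1` fails
there is no such character: `orderOf η₀` divides `(r - 1) r ^ (t - 1)`, so `i ≤ t - 1` whenever `t ≥ 1`; `t = 0`: the group is trivial, `i = 0`.)
`wild_ne_p`: `wild_ne` for `y = p ^ e`: modulo `r ^ 2` (`t ≥ 2` since `1 ≤ i ≤ t - 1`) `y ^ (r - 1) = (1 + r) ^ (e (r - 1)) = 1 + e (r - 1) r`,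
and `r` does not divide `e (r - 1)`, so `r ^ 2` does not divide `y ^ (r - 1) - 1`.
`exists_p`: Chinese remainder theorem (the moduli `2 l ^ k`, `r₁ ^ t₁`, `r₂ ^ t₂` are pairwise coprime) and Dirichlet's theorem
(`Nat.forall_exists_prime_gt_and_eq_mod` or `..._and_modEq`).
(This file: exists_wild, exists_tame.)
-/

set_option autoImplicit false

namespace Pool.Agent.STr

private theorem N4a_dual {G : Type*} [CommGroup G] [Finite G] [IsCyclic G] {e : ℕ} (_he : e ≠ 0)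
    (hd : e ∣ Nat.card G) : ∃ χ : G →* ℂˣ, orderOf χ = e := by
  classical
  obtain ⟨E⟩ := CommGroup.monoidHom_mulEquiv_of_hasEnoughRootsOfUnity G ℂ
  obtain ⟨g, hg⟩ := IsCyclic.exists_ofOrder_eq_natCard (α := G)
  have h1 : orderOf (E.symm g) = Nat.card G := by
    rw [← hg]
    exact orderOf_injective E.symm.toMonoidHom E.symm.injective g
  refine ⟨(E.symm g) ^ (orderOf (E.symm g) / e), ?_⟩
  exact orderOf_pow_orderOf_div (by rw [h1]; exact Nat.card_pos.ne') (by rw [h1]; exact hd)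

theorem exists_wild {r : ℕ} (hr : r.Prime) (hr2 : r ≠ 2) {t : ℕ} (ht : 1 ≤ t) :
    ∃ ω₀ : (ZMod (r ^ t))ˣ →* ℂˣ, orderOf ω₀ = r ^ (t - 1) ∧ ω₀ (-1) = 1 := by
  have h1 : ¬ (r = 0) := hr.ne_zero
  haveI : NeZero (r ^ t) := ⟨pow_ne_zero _ hr.ne_zero⟩
  haveI : IsCyclic (ZMod (r ^ t))ˣ := ZMod.isCyclic_units_of_prime_pow r hr hr2 t
  have hcard : Nat.card (ZMod (r ^ t))ˣ = r ^ (t - 1) * (r - 1) := by
    rw [Nat.card_eq_fintype_card, ZMod.card_units_eq_totient, Nat.totient_prime_pow hr (by omega)]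
  obtain ⟨ω₀, hω⟩ := N4a_dual (G := (ZMod (r ^ t))ˣ) (e := r ^ (t - 1)) (pow_ne_zero _ hr.ne_zero)
    (by rw [hcard]; exact dvd_mul_right _ _)
  refine ⟨ω₀, hω, ?_⟩
  have ha : ω₀ (-1) ^ 2 = 1 := by
    rw [← map_pow]
    simp
  have hb : ω₀ (-1) ^ (r ^ (t - 1)) = 1 := by
    rw [← MonoidHom.pow_apply, ← hω, pow_orderOf_eq_one, MonoidHom.one_apply]
  have hodd : Odd (r ^ (t - 1)) := (hr.odd_of_ne_two hr2).pow
  obtain ⟨m, hm⟩ := hodd
  rw [hm, pow_succ, pow_mul, ha, one_pow, one_mul] at hb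
  exact hb

theorem exists_tame {p l k : ℕ} (hp : p.Prime) (hpk : 2 * l ^ k ∣ p - 1) :
    ∃ ω₀ : (ZMod p)ˣ →* ℂˣ, orderOf ω₀ = l ^ k ∧ ω₀ (-1) = 1 := by
  haveI : Fact p.Prime := ⟨hp⟩
  have hp1 : p - 1 ≠ 0 := by have := hp.two_le; omega
  have h0 : 2 * l ^ k ≠ 0 := fun h => by
    rw [h, zero_dvd_iff] at hpk
    exact hp1 hpk
  have hcard : Nat.card (ZMod p)ˣ = p - 1 := by
    rw [Nat.card_eq_fintype_card, ZMod.card_units]
  obtain ⟨ψ, hψ⟩ := N4a_dual (G := (ZMod p)ˣ) (e := 2 * l ^ k) h0 (by rw [hcard]; exact hpk)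
  refine ⟨ψ ^ 2, ?_, ?_⟩
  · rw [orderOf_pow_of_dvd (by norm_num) (by rw [hψ]; exact dvd_mul_right _ _), hψ]
    exact Nat.mul_div_cancel_left _ (by norm_num)
  · rw [MonoidHom.pow_apply, ← map_pow]
    simp

end Pool.Agent.STr
end

section

/-!
# TASK N4b: Dirichlet characters of prime power order

PROOF. `exists_wild`: `(ZMod (r ^ t))ˣ` is cyclic of order `r ^ (t - 1) (r - 1)` (Mathlib: `ZMod.isCyclic_units_prime_pow`-like,
`ZMod.card_units_eq_totient`); a cyclic group of order `n` has, for each divisor `e` of `n`, a character of order `e` (send a generator to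
a primitive `e`-th root of unity; or take a power of a generator of the dual group, which is isomorphic to the group,
`CommGroup.monoidHom_mulEquiv_of_hasEnoughRootsOfUnity`). `ω₀ (-1) ^ 2 = 1` and `ω₀ (-1) ^ (r ^ (t - 1)) = 1` with `r` odd.
`exists_tame`: `(ZMod p)ˣ` is cyclic of order `p - 1`, divisible by `2 l ^ k`. Let `ψ` be a character of order `2 l ^ k`, `ω₀ = ψ ^ 2`;
`ω₀ (-1) = ψ (1) = 1`.
`wild_ne`: let `Y = y ^ (r - 1)`. If `η₀ y = 1` then `y` is in the kernel of `η₀`, which has `(r - 1) r ^ (t - 1 - i)` elements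
(index `r ^ i`: the range of `η₀` has order `orderOf η₀` because `(ZMod (r ^ t))ˣ` is cyclic), so `Y ^ (r ^ (t - 1 - i)) = 1` modulo `r ^ t`. Lifting the
exponent (`padicValNat.pow_sub_pow` or `Nat.emultiplicity_pow_sub_pow`, `Int.emultiplicity_pow_sub_pow`; `r` odd, `r ∣ Y - 1`): the `r`-adic valuation of
`Y ^ (r ^ (t - 1 - i)) - 1` is that of `Y - 1` plus `t - 1 - i`; so `r ^ (i + 1) ∣ Y - 1`. (The case `Y = 1` is trivial; if `i ≤ t - 1` fails
there is no such character: `orderOf η₀` divides `(r - 1) r ^ (t - 1)`, so `i ≤ t - 1` whenever `t ≥ 1`; `t = 0`: the group is trivial, `i = 0`.)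
`wild_ne_p`: `wild_ne` for `y = p ^ e`: modulo `r ^ 2` (`t ≥ 2` since `1 ≤ i ≤ t - 1`) `y ^ (r - 1) = (1 + r) ^ (e (r - 1)) = 1 + e (r - 1) r`,
and `r` does not divide `e (r - 1)`, so `r ^ 2` does not divide `y ^ (r - 1) - 1`.
`exists_p`: Chinese remainder theorem (the moduli `2 l ^ k`, `r₁ ^ t₁`, `r₂ ^ t₂` are pairwise coprime) and Dirichlet's theorem
(`Nat.forall_exists_prime_gt_and_eq_mod` or `..._and_modEq`).
(This file: wild_ne, wild_ne_p.)
-/

set_option autoImplicit false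

namespace Pool.Agent.STr

private lemma N4b_ord_dvd {G : Type*} [CommGroup G] [Finite G] (η : G →* ℂˣ) :
    orderOf η ∣ Nat.card G := by
  apply orderOf_dvd_of_pow_eq_one
  ext x
  rw [MonoidHom.pow_apply, ← map_pow, pow_card_eq_one', map_one, MonoidHom.one_apply]

private lemma N4b_cyc {G : Type*} [CommGroup G] [Finite G] [IsCyclic G] (η : G →* ℂˣ) {y : G}
    (h : η y = 1) {n m : ℕ} (ho : orderOf η = n) (hc : Nat.card G = n * m) : y ^ m = 1 := by
  obtain ⟨g, hg⟩ := IsCyclic.exists_generator (α := G)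
  have hy : y ∈ Submonoid.powers g := mem_powers_iff_mem_zpowers.2 (hg y)
  obtain ⟨k, rfl⟩ := hy
  have ho2 : orderOf (η g) = n := by
    rw [← ho]
    rw [orderOf_eq_orderOf_iff]
    intro j
    constructor
    · intro hj
      ext x
      have hx : x ∈ Submonoid.powers g := mem_powers_iff_mem_zpowers.2 (hg x)
      obtain ⟨l, rfl⟩ := hx
      simp only [MonoidHom.pow_apply, map_pow, MonoidHom.one_apply]
      rw [hj]
    · intro hj
      have := DFunLike.congr_fun hj g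
      simpa [MonoidHom.pow_apply] using this
  have hk : n ∣ k := by
    rw [← ho2]
    apply orderOf_dvd_of_pow_eq_one
    have h' := h
    simp only [map_pow] at h'
    exact h'
  obtain ⟨j, rfl⟩ := hk
  show (g ^ (n * j)) ^ m = 1
  have e : n * j * m = Nat.card G * j := by rw [hc]; ring
  rw [← pow_mul, e, pow_mul, pow_card_eq_one', one_pow]

private lemma N4b_card {r : ℕ} (hr : r.Prime) {t : ℕ} (ht : 1 ≤ t) :
    Nat.card (ZMod (r ^ t))ˣ = r ^ (t - 1) * (r - 1) := by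
  have : NeZero (r ^ t) := ⟨pow_ne_zero _ hr.ne_zero⟩
  rw [Nat.card_eq_fintype_card, ZMod.card_units_eq_totient, Nat.totient_prime_pow hr ht]

private lemma N4b_le {r : ℕ} (hr : r.Prime) {t i : ℕ} (ht : 1 ≤ t) {η₀ : (ZMod (r ^ t))ˣ →* ℂˣ}
    (ho : orderOf η₀ = r ^ i) : i ≤ t - 1 := by
  have : NeZero (r ^ t) := ⟨pow_ne_zero _ hr.ne_zero⟩
  have h := N4b_ord_dvd η₀
  rw [ho, N4b_card hr ht] at h
  have hc : Nat.Coprime (r ^ i) (r - 1) := by
    apply Nat.Coprime.pow_left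
    rw [hr.coprime_iff_not_dvd]
    intro hd
    have h2 := hr.two_le
    have := Nat.le_of_dvd (by omega) hd
    omega
  have h1 := hc.dvd_of_dvd_mul_right h
  exact (Nat.pow_dvd_pow_iff_le_right hr.one_lt).1 h1

private lemma N4b_fermat {r : ℕ} (hr : r.Prime) {y : ℕ} (hyr : y.Coprime r) :
    (r : ℤ) ∣ (y : ℤ) ^ (r - 1) - 1 := by
  have h := Int.ModEq.pow_card_sub_one_eq_one hr (n := (y : ℤ))
    (by rw [Nat.isCoprime_iff_coprime]; exact hyr)
  exact h.symm.dvd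

theorem wild_ne {r : ℕ} (hr : r.Prime) (hr2 : r ≠ 2) {t i : ℕ} {η₀ : (ZMod (r ^ t))ˣ →* ℂˣ}
    (ho : orderOf η₀ = r ^ i) {y : ℕ} (hy : y.Coprime (r ^ t)) (hyr : y.Coprime r)
    (hyi : ¬ ((r : ℤ) ^ (i + 1) ∣ (y : ℤ) ^ (r - 1) - 1)) : η₀ (ZMod.unitOfCoprime y hy) ≠ 1 := by
  intro h1
  have hF := N4b_fermat hr hyr
  have hi0 : i ≠ 0 := by
    rintro rfl
    apply hyi
    simpa using hF
  have ht : 1 ≤ t := by
    by_contra ht
    have ht0 : t = 0 := by omega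
    subst ht0
    have hs : Subsingleton (ZMod (r ^ 0))ˣ := by
      rw [pow_zero]
      infer_instance
    have h2 : η₀ = 1 := by
      ext x
      rw [Subsingleton.elim x 1, map_one, map_one]
    rw [h2, orderOf_one] at ho
    have h3 : 1 < r ^ i := Nat.one_lt_pow hi0 hr.one_lt
    omega
  have hle := N4b_le hr ht ho
  have : NeZero (r ^ t) := ⟨pow_ne_zero _ hr.ne_zero⟩
  have hcyc : IsCyclic (ZMod (r ^ t))ˣ := ZMod.isCyclic_units_of_prime_pow r hr hr2 t
  have hc : Nat.card (ZMod (r ^ t))ˣ = r ^ i * (r ^ (t - 1 - i) * (r - 1)) := by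
    rw [N4b_card hr ht, ← mul_assoc, ← pow_add]
    congr 2
    omega
  have h2 := N4b_cyc η₀ h1 ho hc
  have h3 : ((y : ZMod (r ^ t))) ^ (r ^ (t - 1 - i) * (r - 1)) = 1 := by
    have := congrArg Units.val h2
    simpa using this
  have h4 : ((r ^ t : ℕ) : ℤ) ∣ ((y : ℤ) ^ (r - 1)) ^ (r ^ (t - 1 - i)) - 1 := by
    rw [← ZMod.intCast_zmod_eq_zero_iff_dvd]
    push_cast
    rw [← pow_mul, mul_comm (r - 1), h3, sub_self]
  have hodd : Odd r := hr.odd_of_ne_two hr2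
  have hrY : ¬ (r : ℤ) ∣ (y : ℤ) ^ (r - 1) := by
    intro hd
    have h5 : (r : ℤ) ∣ 1 := by
      have := dvd_sub hd hF
      simpa using this
    have h6 : (r : ℤ) ≤ 1 := Int.le_of_dvd one_pos h5
    have h7 := hr.one_lt
    omega
  have hL := Int.emultiplicity_pow_sub_pow hr hodd (x := (y : ℤ) ^ (r - 1)) (y := 1) hF hrY
    (r ^ (t - 1 - i))
  rw [one_pow] at hL
  have hT : (t : ℕ∞) ≤ emultiplicity (r : ℤ) (((y : ℤ) ^ (r - 1)) ^ (r ^ (t - 1 - i)) - 1) := by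
    apply le_emultiplicity_of_pow_dvd
    rw [← Nat.cast_pow]
    exact h4
  rw [hL, Nat.Prime.emultiplicity_pow_self hr] at hT
  apply hyi
  apply pow_dvd_of_le_emultiplicity
  have h8 : ((i + 1 : ℕ) : ℕ∞) + ((t - 1 - i : ℕ) : ℕ∞)
      ≤ emultiplicity (r : ℤ) ((y : ℤ) ^ (r - 1) - 1) + ((t - 1 - i : ℕ) : ℕ∞) := by
    refine le_trans (le_of_eq ?_) hT
    rw [← Nat.cast_add]
    congr 1
    omega
  exact (ENat.add_le_add_iff_right (ENat.natCast_ne_top _)).1 h8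

theorem wild_ne_p {r : ℕ} (hr : r.Prime) (hr2 : r ≠ 2) {t i : ℕ} (hi : 1 ≤ i) {η₀ : (ZMod (r ^ t))ˣ →* ℂˣ}
    (ho : orderOf η₀ = r ^ i) {p e : ℕ} (he : e = 1 ∨ e = 2) (hp : p ≡ 1 + r [MOD r ^ t])
    (hy : (p ^ e).Coprime (r ^ t)) : η₀ (ZMod.unitOfCoprime (p ^ e) hy) ≠ 1 := by
  have ht : 1 ≤ t := by
    by_contra ht
    have ht0 : t = 0 := by omega
    subst ht0
    have hs : Subsingleton (ZMod (r ^ 0))ˣ := by
      rw [pow_zero]
      infer_instance
    have h2 : η₀ = 1 := by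
      ext x
      rw [Subsingleton.elim x 1, map_one, map_one]
    rw [h2, orderOf_one] at ho
    have h3 : 1 < r ^ i := Nat.one_lt_pow (by omega) hr.one_lt
    omega
  have hle := N4b_le hr ht ho
  have hyr : (p ^ e).Coprime r := hy.coprime_dvd_right (dvd_pow_self r (by omega))
  apply wild_ne hr hr2 ho hy hyr
  intro hd
  have h2 : (r : ℤ) ^ 2 ∣ ((p ^ e : ℕ) : ℤ) ^ (r - 1) - 1 := (pow_dvd_pow _ (by omega)).trans hd
  have hp2 : (p : ℤ) ≡ 1 + r [ZMOD (r : ℤ) ^ 2] := by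
    have h3 : (p : ℤ) ≡ ((1 + r : ℕ) : ℤ) [ZMOD ((r ^ t : ℕ) : ℤ)] := (Int.natCast_modEq_iff).2 hp
    have h4 : ((r : ℤ) ^ 2) ∣ ((r ^ t : ℕ) : ℤ) := by
      push_cast
      exact pow_dvd_pow _ (by omega)
    have h5 := h3.of_dvd h4
    push_cast at h5
    exact h5
  have h6 : ((p : ℤ)) ^ (e * (r - 1)) ≡ (1 + r) ^ (e * (r - 1)) [ZMOD (r : ℤ) ^ 2] := hp2.pow _
  have h7 : ((1 : ℤ) + r) ^ (e * (r - 1)) ≡ 1 + (e * (r - 1) : ℕ) * r [ZMOD (r : ℤ) ^ 2] := by
    generalize e * (r - 1) = n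
    induction n with
    | zero => simp
    | succ n ih =>
      rw [pow_succ]
      have h8 := ih.mul_right (1 + (r : ℤ))
      refine h8.trans ?_
      apply (Int.modEq_iff_dvd).2
      refine ⟨-n, ?_⟩
      push_cast
      ring
  have h9 : ((r : ℤ) ^ 2) ∣ ((e * (r - 1) : ℕ) : ℤ) * r := by
    have h10 : ((p ^ e : ℕ) : ℤ) ^ (r - 1) = (p : ℤ) ^ (e * (r - 1)) := by
      push_cast
      rw [← pow_mul]
    rw [h10] at h2
    have h11 : (p : ℤ) ^ (e * (r - 1)) ≡ 1 [ZMOD (r : ℤ) ^ 2] := ((Int.modEq_iff_dvd).2 h2).symm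
    have h12 := (h11.symm.trans (h6.trans h7))
    have h13 := (Int.modEq_iff_dvd).1 h12
    simpa using h13
  have h14 : (r : ℤ) ∣ ((e * (r - 1) : ℕ) : ℤ) := by
    rw [sq] at h9
    have hr0 : (r : ℤ) ≠ 0 := by exact_mod_cast hr.ne_zero
    exact (mul_dvd_mul_iff_right hr0).1 h9
  rw [Int.natCast_dvd_natCast, hr.dvd_mul] at h14
  have h15 := hr.two_le
  rcases h14 with h14 | h14
  · have := Nat.le_of_dvd (by omega) h14
    omega
  · have := Nat.le_of_dvd (by omega) h14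
    omega

end Pool.Agent.STr
end
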