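import Pool.Agent.Lib.MP_1ef7cf_nt_r.Df
import Pool.Agent.Lib.MP_1ef7cf_nt_r.Mg.G014

section

/-!
# TASK N4: Dirichlet characters of prime power order

`exists_p`: Chinese remainder theorem (the moduli `2 l ^ k`, `r₁ ^ t₁`, `r₂ ^ t₂` are pairwise coprime) and Dirichlet's theorem.
-/

set_option autoImplicit false

namespace Pool.Agent.STr

private theorem N4_cop {r t a : ℕ} (h : a ≡ 1 + r [MOD r ^ t]) : a.Coprime (r ^ t) := by
  rcases Nat.eq_zero_or_pos t with rfl | ht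
  · simp
  · have h1 : a ≡ 1 [MOD r] := by
      have h2 : a ≡ 1 + r [MOD r] := h.of_dvd (dvd_pow_self r ht.ne')
      have h3 : 1 + r ≡ 1 [MOD r] := by simp [Nat.ModEq]
      exact h2.trans h3
    have h4 : Nat.gcd a r = 1 := by
      rw [h1.gcd_eq]; simp
    exact Nat.Coprime.pow_right t h4

theorem exists_p {l k r₁ t₁ r₂ t₂ : ℕ} (hl : l.Prime) (hr₁ : r₁.Prime) (hr₂ : r₂.Prime) (h1 : r₁ ≠ 2) (h2 : r₂ ≠ 2)
    (h12 : r₁ ≠ r₂) (hl1 : l ≠ r₁) (hl2 : l ≠ r₂) (b : ℕ) :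
    ∃ p : ℕ, p.Prime ∧ b < p ∧ 2 * l ^ k ∣ p - 1 ∧ p ≡ 1 + r₁ [MOD r₁ ^ t₁] ∧ p ≡ 1 + r₂ [MOD r₂ ^ t₂] := by
  have c1 : Nat.Coprime (2 * l ^ k) (r₁ ^ t₁) := by
    apply Nat.Coprime.pow_right
    apply Nat.Coprime.mul_left
    · exact (Nat.coprime_primes Nat.prime_two hr₁).2 (Ne.symm h1)
    · exact Nat.Coprime.pow_left _ ((Nat.coprime_primes hl hr₁).2 hl1)
  have c2 : Nat.Coprime (2 * l ^ k) (r₂ ^ t₂) := by
    apply Nat.Coprime.pow_right
    apply Nat.Coprime.mul_left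
    · exact (Nat.coprime_primes Nat.prime_two hr₂).2 (Ne.symm h2)
    · exact Nat.Coprime.pow_left _ ((Nat.coprime_primes hl hr₂).2 hl2)
  have c3 : Nat.Coprime (r₁ ^ t₁) (r₂ ^ t₂) :=
    Nat.Coprime.pow _ _ ((Nat.coprime_primes hr₁ hr₂).2 h12)
  obtain ⟨x, hx1, hx2⟩ := Nat.chineseRemainder c1 1 (1 + r₁)
  obtain ⟨y, hy1, hy2⟩ := Nat.chineseRemainder (Nat.Coprime.mul_left c2 c3) x (1 + r₂)
  have ya : y ≡ 1 [MOD 2 * l ^ k] := (hy1.of_dvd (Dvd.intro _ rfl)).trans hx1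
  have yb : y ≡ 1 + r₁ [MOD r₁ ^ t₁] := (hy1.of_dvd (Dvd.intro_left _ rfl)).trans hx2
  have d1 : y.Coprime (2 * l ^ k) := by
    have : Nat.gcd y (2 * l ^ k) = 1 := by
      rw [ya.gcd_eq]; simp
    exact this
  have d2 : y.Coprime (r₁ ^ t₁) := N4_cop yb
  have d3 : y.Coprime (r₂ ^ t₂) := N4_cop hy2
  have d : y.Coprime (2 * l ^ k * r₁ ^ t₁ * r₂ ^ t₂) :=
    Nat.Coprime.mul_right (Nat.Coprime.mul_right d1 d2) d3
  have hq : 2 * l ^ k * r₁ ^ t₁ * r₂ ^ t₂ ≠ 0 := by
    have := hl.pos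
    have := hr₁.pos
    have := hr₂.pos
    positivity
  obtain ⟨p, hpb, hp, hpy⟩ := Nat.forall_exists_prime_gt_and_modEq b hq d
  refine ⟨p, hp, hpb, ?_, ?_, ?_⟩
  · have h3 : p ≡ 1 [MOD 2 * l ^ k] :=
      (hpy.of_dvd (Dvd.dvd.mul_right (Dvd.intro _ rfl) _)).trans ya
    exact (Nat.modEq_iff_dvd' hp.one_le).1 h3.symm
  · exact (hpy.of_dvd (Dvd.dvd.mul_right (Dvd.intro_left _ rfl) _)).trans yb
  · exact (hpy.of_dvd (Dvd.intro_left _ rfl)).trans hy2

end Pool.Agent.STr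
end

section

/-!
# TASK N1: norms of ideals in the principal ray class

PROOF. Template: `MP_1ef7cf_nt_b/NormMod.lean` (there for `N = 2 ^ k`). `norm_congr`: `a - b = N z`; the norm of `x` is `x x'` (`norm_int_eq`),
`a a' - b b' = N (...)` with an algebraic integer `(...)` which is rational, hence an integer (or the trace form: `Norm (b + N z) =
Norm b + N * Tr (b z') + N² Norm z`). `norm_prin`: if `(N) ∣ M` and the class of the integral ideal `I` (prime to `M`) is trivial, then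
`I = (x)` with `x ≡ 1 mod M` (`int_of_coe_eq`), so `Norm x ≡ 1 mod N` and `absNorm I = |Norm x| ≡ ±1`.
`norm_cls`: two integral ideals `I`, `I'` in the same class: choose an integral ideal `I''` in the inverse class (there is one:
e.g. `I'' = I ^ (h - 1)`, `h` the order of the finite group; or use `∃ x, I I'' = (x)`); `absNorm` is multiplicative, and `absNorm I''` is
invertible modulo `N` (the ideal is prime to `N`: `Nat.Coprime`), so `absNorm I ≡ ± absNorm I'`.
-/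

set_option autoImplicit false

open NumberField IsDedekindDomain nonZeroDivisors IntermediateField

namespace Pool.Agent.STr

open Pool.Agent.ST

variable {K : Type*} [Field K] [NumberField K] [Algebra K ℝ] {σ₂ : K →+* ℝ}

lemma N1_norm_congr {N : ℕ} {a b : 𝓞 K}
    (h : a - b ∈ Ideal.span {(N : 𝓞 K)}) : (N : ℤ) ∣ Algebra.norm ℤ a - Algebra.norm ℤ b := by
  obtain ⟨c, hc⟩ := Ideal.mem_span_singleton'.1 h
  have ha : a = b + c * (N : 𝓞 K) := by rw [hc]; ring
  have key : (Int.castRingHom (ZMod N)) (Algebra.norm ℤ a) = (Int.castRingHom (ZMod N)) (Algebra.norm ℤ b) := by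
    rw [Algebra.norm_eq_matrix_det (RingOfIntegers.basis K), Algebra.norm_eq_matrix_det (RingOfIntegers.basis K),
      RingHom.map_det, RingHom.map_det]
    congr 1
    rw [ha, map_add, map_mul, map_natCast, map_add, map_mul, map_natCast]
    have h0 : (N : Matrix (Module.Free.ChooseBasisIndex ℤ (𝓞 K)) (Module.Free.ChooseBasisIndex ℤ (𝓞 K)) (ZMod N)) = 0 := by
      ext i j
      rw [← Matrix.diagonal_natCast, Matrix.diagonal_apply]
      simp
    rw [h0, mul_zero, add_zero]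
  rw [eq_intCast, eq_intCast] at key
  exact (ZMod.intCast_eq_intCast_iff_dvd_sub _ _ _).1 key.symm

lemma norm_congr (h2 : Module.finrank ℚ K = 2) {N : ℕ} {a b : 𝓞 K}
    (h : a - b ∈ Ideal.span {(N : 𝓞 K)}) : (N : ℤ) ∣ Algebra.norm ℤ a - Algebra.norm ℤ b :=
  N1_norm_congr h

lemma coprime_absNorm {N : ℕ} {M I : Ideal (𝓞 K)} (hN : N ≠ 0) (hM : M ≤ Ideal.span {(N : 𝓞 K)})
    (hI : IsCoprime I M) : (Ideal.absNorm I).Coprime N := by
  obtain ⟨x, hx, y, hy, hxy⟩ := Ideal.isCoprime_iff_exists.1 hI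
  have h1 : x - 1 ∈ Ideal.span {(N : 𝓞 K)} := by
    have e : x - 1 = -y := by rw [← hxy]; ring
    rw [e]
    exact Submodule.neg_mem _ (hM hy)
  have h3 := N1_norm_congr h1
  rw [map_one] at h3
  have h4 : (Ideal.absNorm I : ℤ) ∣ Algebra.norm ℤ x := Ideal.absNorm_dvd_norm_of_mem hx
  rw [← Nat.isCoprime_iff_coprime]
  obtain ⟨u, hu⟩ := h4
  obtain ⟨v, hv⟩ := h3
  refine ⟨u, -v, ?_⟩
  linear_combination -hu + hv

theorem norm_cls (h2 : Module.finrank ℚ K = 2) {N : ℕ} (hN : N ≠ 0) {M : Ideal (𝓞 K)} (hM0 : M ≠ ⊥)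
    (hM : M ≤ Ideal.span {(N : 𝓞 K)}) [Finite (RayClassGroup σ₂ M)] {I I' : Ideal (𝓞 K)} {J J' : primeTo (K := K) M}
    (hJ : ((J : (FI K)ˣ) : FI K) = (I : FI K)) (hJ' : ((J' : (FI K)ˣ) : FI K) = (I' : FI K))
    (h : cls σ₂ M J = cls σ₂ M J') :
    (N : ℤ) ∣ (Ideal.absNorm I : ℤ) - Ideal.absNorm I' ∨ (N : ℤ) ∣ (Ideal.absNorm I : ℤ) + Ideal.absNorm I' := by
  rw [cls_eq_iff] at h
  obtain ⟨α, ⟨a, b, hb, hab, hα⟩, hpos, hJα⟩ := h
  have hα0 : α ≠ 0 := by
    rintro rfl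
    rw [map_zero] at hpos
    exact lt_irrefl _ hpos
  have hb0 : (b : K) ≠ 0 := by
    intro h0
    rw [h0, div_zero] at hα
    exact hα0 hα
  have e1 : (I' : FI K) = (I : FI K) * FractionalIdeal.spanSingleton (𝓞 K)⁰ α := by
    rw [← hJ, ← hJ', ← hJα, Units.val_mul, ← mul_assoc, Units.mul_inv, one_mul]
  have e2 : I' * Ideal.span {b} = I * Ideal.span {a} := by
    rw [← FractionalIdeal.coeIdeal_inj (K := K), FractionalIdeal.coeIdeal_mul, FractionalIdeal.coeIdeal_mul,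
      FractionalIdeal.coeIdeal_span_singleton, FractionalIdeal.coeIdeal_span_singleton, e1, mul_assoc,
      FractionalIdeal.spanSingleton_mul_spanSingleton, hα]
    congr 2
    field_simp
  have e3 : (Ideal.absNorm I' : ℤ) * (Algebra.norm ℤ b).natAbs = Ideal.absNorm I * (Algebra.norm ℤ a).natAbs := by
    have := congrArg Ideal.absNorm e2
    rw [map_mul, map_mul, Ideal.absNorm_span_singleton, Ideal.absNorm_span_singleton] at this
    exact_mod_cast this
  have hc : IsCoprime (N : ℤ) (Algebra.norm ℤ b) := by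
    have := coprime_absNorm hN hM hb
    rw [Ideal.absNorm_span_singleton] at this
    rw [Int.isCoprime_iff_gcd_eq_one, Int.gcd_comm]
    exact this
  have hn : (N : ℤ) ∣ Algebra.norm ℤ a - Algebra.norm ℤ b := N1_norm_congr (hM hab)
  obtain ⟨w, hw⟩ := hn
  rcases abs_choice (Algebra.norm ℤ a) with ha' | ha' <;> rcases abs_choice (Algebra.norm ℤ b) with hb' | hb' <;>
    rw [Int.natCast_natAbs, Int.natCast_natAbs, ha', hb'] at e3
  · left
    refine hc.dvd_of_dvd_mul_right ⟨-(Ideal.absNorm I * w), ?_⟩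
    linear_combination -e3 - (Ideal.absNorm I : ℤ) * hw
  · right
    refine hc.dvd_of_dvd_mul_right ⟨-(Ideal.absNorm I * w), ?_⟩
    linear_combination -e3 - (Ideal.absNorm I : ℤ) * hw
  · right
    refine hc.dvd_of_dvd_mul_right ⟨-(Ideal.absNorm I * w), ?_⟩
    linear_combination e3 - (Ideal.absNorm I : ℤ) * hw
  · left
    refine hc.dvd_of_dvd_mul_right ⟨-(Ideal.absNorm I * w), ?_⟩
    linear_combination e3 - (Ideal.absNorm I : ℤ) * hw

end Pool.Agent.STr
end

section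

/-!
# TASK N3a: norm type characters

`NT N ω₀ ω` means `ω (cls J) = ω₀ (absNorm I)` for the integral ideals `I` prime to the modulus.

PROOF. Every class contains an integral ideal: `exists_int` (for `J ∈ primeTo M` multiply by the principal ideal of a suitable `x ∈ 𝓞 K`, `x ≡ 1 mod M`,
`σ₂ x > 0`, or use powers: the class group is finite; a helper in the library is `exists_rep` / the ideals `primeTo` are quotients of
integral ideals prime to `M`: `J = I₁ / I₂`, so `cls J = cls I₁ * (cls I₂) ^ (h - 1)`). `exists_NT`: by `norm_cls` and `ω₀ (-1) = 1` the value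
`ω₀ (absNorm I)` depends only on the class of `I` (`(absNorm I).Coprime N` by `coprime_absNorm`), and it is multiplicative.
`NT.pow`, `NT.comp_pr`: from the definition (and `exists_int` for the uniqueness; an integral ideal prime to `M'`
is prime to `M`; `pr_cls`). `NT.prime`: the definition for `I = q`.
`NT.fix`: take `I`, `J` for `A` by `exists_int`; `ω₀` of the class of `absNorm I` is `ω₀ 1` or `ω₀ (-1)`.
(This file: exists_int, exists_NT.)
-/

set_option autoImplicit false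

open NumberField IsDedekindDomain nonZeroDivisors IntermediateField

namespace Pool.Agent.STr

open Pool.Agent.ST

variable {K : Type*} [Field K] [NumberField K] [Algebra K ℝ] {σ₂ : K →+* ℝ} {N : ℕ} {M M' : Ideal (𝓞 K)}

theorem exists_int (hM0 : M ≠ ⊥) [Finite (RayClassGroup σ₂ M)] (A : RayClassGroup σ₂ M) :
    ∃ (I : Ideal (𝓞 K)) (J : primeTo (K := K) M), ((J : (FI K)ˣ) : FI K) = (I : FI K) ∧ cls σ₂ M J = A := by
  obtain ⟨I, J, -, -, h1, h2⟩ := exists_integral_rep hM0 A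
  exact ⟨I, J, h1, h2⟩

private lemma N3a_val {N : ℕ} (ω₀ : (ZMod N)ˣ →* ℂˣ) (h1 : ω₀ (-1) = 1) {a b : ℕ}
    (ha : a.Coprime N) (hb : b.Coprime N)
    (h : (N : ℤ) ∣ (a : ℤ) - b ∨ (N : ℤ) ∣ (a : ℤ) + b) :
    ω₀ (ZMod.unitOfCoprime a ha) = ω₀ (ZMod.unitOfCoprime b hb) := by
  rcases h with h | h
  · have h3 : ZMod.unitOfCoprime a ha = ZMod.unitOfCoprime b hb := by
      apply Units.ext
      rw [ZMod.coe_unitOfCoprime, ZMod.coe_unitOfCoprime]
      have h4 := (ZMod.intCast_zmod_eq_zero_iff_dvd _ _).2 h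
      push_cast at h4
      exact sub_eq_zero.1 h4
    rw [h3]
  · have h3 : ZMod.unitOfCoprime a ha = (-1) * ZMod.unitOfCoprime b hb := by
      apply Units.ext
      rw [Units.val_mul, Units.val_neg, Units.val_one, ZMod.coe_unitOfCoprime, ZMod.coe_unitOfCoprime]
      have h4 := (ZMod.intCast_zmod_eq_zero_iff_dvd _ _).2 h
      push_cast at h4
      linear_combination h4
    rw [h3, map_mul, h1, one_mul]

theorem exists_NT (h2 : Module.finrank ℚ K = 2) (hN : N ≠ 0) (hM0 : M ≠ ⊥) (hM : M ≤ Ideal.span {(N : 𝓞 K)})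
    [Finite (RayClassGroup σ₂ M)] (ω₀ : (ZMod N)ˣ →* ℂˣ) (h1 : ω₀ (-1) = 1) :
    ∃ ω : RayClassGroup σ₂ M →* ℂˣ, NT N ω₀ ω := by
  choose Ia Ja hne hcop hJI hcls using fun A : RayClassGroup σ₂ M => exists_integral_rep hM0 A
  have hco : ∀ A, (Ideal.absNorm (Ia A)).Coprime N := fun A => coprime_absNorm hN hM (hcop A)
  have key : ∀ (I : Ideal (𝓞 K)) (J : primeTo (K := K) M) (h : (Ideal.absNorm I).Coprime N),
      ((J : (FI K)ˣ) : FI K) = (I : FI K) →
      ω₀ (ZMod.unitOfCoprime _ (hco (cls σ₂ M J))) = ω₀ (ZMod.unitOfCoprime _ h) := by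
    intro I J h hJ
    apply N3a_val ω₀ h1
    exact norm_cls h2 hN hM0 hM (hJI _) hJ (hcls _)
  refine ⟨MonoidHom.mk' (fun A => ω₀ (ZMod.unitOfCoprime _ (hco A))) ?_, ?_⟩
  · intro A B
    have h3 : cls σ₂ M (Ja A * Ja B) = A * B := by rw [map_mul, hcls, hcls]
    have h4 : (Ideal.absNorm (Ia A * Ia B)).Coprime N := by
      rw [map_mul]
      exact Nat.Coprime.mul_left (hco A) (hco B)
    have h5 := key (Ia A * Ia B) (Ja A * Ja B) h4 (by
      rw [Subgroup.coe_mul, Units.val_mul, hJI, hJI, FractionalIdeal.coeIdeal_mul])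
    have h6 : ω₀ (ZMod.unitOfCoprime _ (hco (cls σ₂ M (Ja A * Ja B)))) =
        ω₀ (ZMod.unitOfCoprime _ (hco (A * B))) := by
      congr 1
      apply Units.ext
      rw [ZMod.coe_unitOfCoprime, ZMod.coe_unitOfCoprime, h3]
    have h7 : ZMod.unitOfCoprime _ h4 = ZMod.unitOfCoprime _ (hco A) * ZMod.unitOfCoprime _ (hco B) := by
      apply Units.ext
      rw [Units.val_mul, ZMod.coe_unitOfCoprime, ZMod.coe_unitOfCoprime, ZMod.coe_unitOfCoprime, map_mul,
        Nat.cast_mul]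
    show ω₀ (ZMod.unitOfCoprime _ (hco (A * B))) = _
    rw [← h6, h5, h7, map_mul]
  · intro I J h hJ
    exact key I J h hJ

end Pool.Agent.STr
end
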