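import Pool.Agent.Lib.MP_1ef7cf_nt_r.Df
import Pool.Agent.Lib.MP_1ef7cf_nt_b.Roots
import Pool.Agent.Lib.MP_1ef7cf_nt_r.Mg.G015
import Pool.Agent.Lib.MP_1ef7cf_nt_h.Mg.G001

section

/-!
# TASK I2: growth of the residue field in the cyclotomic tower

CLAIM. `p` a prime number, `cos (2 π / p ^ k) ∈ H`, `v` a prime of `H` not containing `p`. Then `p ^ k ≤ (N v) ^ 2`.

PROOF. In an algebraic closure of the residue field of `v` let `z + z⁻¹` be the reduction of
`2 cos (2 π / p ^ k)`; then `z` has order exactly `p ^ k` (Dickson polynomials, `sub_dvd`), and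
`z ^ N + z ^ (-N) = z + z⁻¹`, `N = N v`, hence `z ^ (N ^ 2 - 1) = 1`.
-/

set_option autoImplicit false

open NumberField IsDedekindDomain nonZeroDivisors IntermediateField

namespace Pool.Agent.STr

open Pool.Agent.ST

private lemma I2_map {R S : Type*} [CommRing R] [CommRing S] (f : R →+* S) (n : ℕ) (x : R) :
    f ((Polynomial.dickson 1 (1 : R) n).eval x) = (Polynomial.dickson 1 (1 : S) n).eval (f x) := by
  rw [← Polynomial.eval₂_at_apply, ← Polynomial.eval_map, Polynomial.map_dickson, map_one]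

private lemma I2_core {κ : Type*} [Field κ] [Finite κ] {p k : ℕ} (hp : p.Prime) (c : κ)
    (h1 : (Polynomial.dickson 1 (1 : κ) (p ^ (k + 1))).eval c = 2)
    (h0 : (Polynomial.dickson 1 (1 : κ) (p ^ k)).eval c ≠ 2) : p ^ (k + 1) ∣ Nat.card κ ^ 2 - 1 := by
  have := Fintype.ofFinite κ
  rw [Nat.card_eq_fintype_card]
  obtain ⟨z, hz0, hz⟩ := STb.exists_z c
  obtain ⟨l, hl⟩ := CharP.exists κ
  obtain ⟨f, hll, hcard⟩ := FiniteField.card κ l
  have := Fact.mk hll
  have hch : CharP (AlgebraicClosure κ) l :=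
    charP_of_injective_algebraMap (algebraMap κ (AlgebraicClosure κ)).injective l
  have hzz : z * z⁻¹ = 1 := mul_inv_cancel₀ hz0
  have hzp : z ^ (p ^ (k + 1)) = 1 := by
    have h2 := congrArg (algebraMap κ (AlgebraicClosure κ)) h1
    rw [I2_map, ← hz, Polynomial.dickson_one_one_eval_add_inv z z⁻¹ hzz, map_ofNat] at h2
    have h3 : z ^ (p ^ (k + 1)) * z⁻¹ ^ (p ^ (k + 1)) = 1 := by rw [← mul_pow, hzz, one_pow]
    have h4 : (z ^ (p ^ (k + 1)) - 1) ^ 2 = 0 := by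
      linear_combination z ^ (p ^ (k + 1)) * h2 - h3
    exact sub_eq_zero.mp (pow_eq_zero_iff (two_ne_zero) |>.mp h4)
  have hznp : ¬ z ^ (p ^ k) = 1 := by
    intro h2
    apply h0
    apply (algebraMap κ (AlgebraicClosure κ)).injective
    rw [I2_map, ← hz, Polynomial.dickson_one_one_eval_add_inv z z⁻¹ hzz, inv_pow, h2, map_ofNat]
    norm_num
  have := Fact.mk hp
  have hord := orderOf_eq_prime_pow hznp hzp
  have h3 : z ^ (l ^ (f : ℕ)) + (z ^ (l ^ (f : ℕ)))⁻¹ = z + z⁻¹ := by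
    have h4 : (algebraMap κ (AlgebraicClosure κ) c) ^ (l ^ (f : ℕ)) =
        algebraMap κ (AlgebraicClosure κ) c := by
      rw [← map_pow, ← hcard, FiniteField.pow_card]
    rw [← hz, add_pow_char_pow, inv_pow] at h4
    exact h4
  set q := l ^ (f : ℕ) with hq
  have hzq := pow_ne_zero q hz0
  have h5 : (z ^ q - z) * (z ^ q * z - 1) = 0 := by
    have h6 : (z ^ q + (z ^ q)⁻¹) * (z ^ q * z) = (z + z⁻¹) * (z ^ q * z) := by rw [h3]
    field_simp at h6
    linear_combination h6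
  have hq1 : 1 ≤ q := Nat.one_le_iff_ne_zero.2 (pow_ne_zero _ hll.ne_zero)
  have h6 : z ^ (q ^ 2 - 1) = 1 := by
    have h7 : q ^ 2 - 1 = (q - 1) * (q + 1) := by
      obtain ⟨r, hr⟩ : ∃ r, q = r + 1 := ⟨q - 1, by omega⟩
      rw [hr]
      simp only [Nat.add_sub_cancel]
      have : (r + 1) ^ 2 = r * (r + 1 + 1) + 1 := by ring
      rw [this, Nat.add_sub_cancel]
    rcases mul_eq_zero.1 h5 with h8 | h8
    · have h9 : z ^ (q - 1) = 1 := by
        have h10 : z ^ (q - 1) * z = z := by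
          rw [← pow_succ, Nat.sub_add_cancel hq1]; linear_combination h8
        exact mul_right_cancel₀ hz0 (by rw [h10, one_mul])
      rw [h7, pow_mul, h9, one_pow]
    · have h9 : z ^ (q + 1) = 1 := by rw [pow_succ]; linear_combination h8
      rw [h7, mul_comm, pow_mul, h9, one_pow]
  rw [hcard, ← hord]
  exact orderOf_dvd_of_pow_eq_one h6

variable {K : Type*} [Field K] [NumberField K] [Algebra K ℝ]

theorem residue_growth {H : IntermediateField K ℝ} [FiniteDimensional K H] [NumberField H] {p k : ℕ} (hp : p.Prime)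
    (h : cN (p ^ k) ∈ H) (v : PrI H) (hv : (p : 𝓞 H) ∉ v.asIdeal) : p ^ k ≤ pn v ^ 2 := by
  have h2pn := two_le_pn v
  obtain rfl | ⟨k, rfl⟩ : k = 0 ∨ ∃ j, k = j + 1 := by
    rcases k with _ | k
    · exact Or.inl rfl
    · exact Or.inr ⟨k, rfl⟩
  · rw [pow_zero]; nlinarith
  have hQ : p ^ (k + 1) ≠ 0 := pow_ne_zero _ hp.ne_zero
  have hQR : ((p ^ (k + 1) : ℕ) : ℝ) ≠ 0 := by exact_mod_cast hQ
  have hpR : (p : ℝ) ≠ 0 := by exact_mod_cast hp.ne_zero
  obtain ⟨y, hy⟩ := STh.F.exists_y H hQ h 1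
  obtain ⟨y1, hy1⟩ := STh.F.exists_y H hQ h (p ^ k)
  have hinj : ∀ {a b : 𝓞 H}, ((a : H) : ℝ) = ((b : H) : ℝ) → a = b :=
    fun h => RingOfIntegers.ext (Subtype.ext h)
  have hdk : ∀ (n : ℕ) (z : 𝓞 H), ((z : H) : ℝ) = 2 * Real.cos (2 * Real.pi * n / (p ^ (k + 1) : ℕ)) →
      z = (Polynomial.dickson 1 (1 : 𝓞 H) n).eval y := by
    intro n z hz
    apply hinj
    obtain ⟨f, hf⟩ : ∃ f : 𝓞 H →+* ℝ, ∀ x, f x = ((x : H) : ℝ) :=
      ⟨(algebraMap H ℝ).comp (algebraMap (𝓞 H) H), fun x => rfl⟩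
    rw [← hf, ← hf, I2_map, hf, hf, hz, hy, STg.F.dickson_cos]
    congr 2
    push_cast
    ring
  have hD1 : (2 : 𝓞 H) = (Polynomial.dickson 1 (1 : 𝓞 H) (p ^ (k + 1))).eval y := by
    apply hdk
    have h1 : 2 * Real.pi * ((p ^ (k + 1) : ℕ) : ℝ) / ((p ^ (k + 1) : ℕ) : ℝ) = 2 * Real.pi := by
      field_simp
    rw [h1, Real.cos_two_pi, mul_one]
    rfl
  have hD0 := hdk (p ^ k) y1 hy1
  have hne : y1 ≠ 2 := by
    intro h1
    rw [h1] at hy1
    have h2 : Real.cos (2 * Real.pi * (((p ^ k : ℕ) : ℤ) : ℝ) / (p ^ (k + 1) : ℕ)) =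
        Real.cos (2 * Real.pi * ((0 : ℤ) : ℝ) / (p ^ (k + 1) : ℕ)) := by
      have h3 : (((2 : 𝓞 H) : H) : ℝ) = 2 := rfl
      rw [h3] at hy1
      push_cast at hy1 ⊢
      rw [mul_zero, zero_div, Real.cos_zero]
      linarith
    rw [STh.F.cos_mod_iff hQ] at h2
    have h3 : ((p ^ (k + 1) : ℕ) : ℤ) ∣ ((p ^ k : ℕ) : ℤ) := by
      rcases h2 with h2 | h2
      · simpa using h2
      · simpa using h2
    have h4 : p ^ (k + 1) ∣ p ^ k := by exact_mod_cast h3
    have h5 := (Nat.pow_dvd_pow_iff_le_right hp.one_lt).1 h4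
    omega
  have hsub : y1 - 2 ∣ ((p ^ (k + 1) : ℕ) : 𝓞 H) ^ 2 := by
    apply STh.F.sub_dvd H hQ (m := 0) (n := p ^ k) hy1 _ hne
    push_cast
    rw [mul_zero, zero_div, Real.cos_zero, mul_one]
    rfl
  have hmem : y1 - 2 ∉ v.asIdeal := by
    intro h1
    have h2 := v.asIdeal.mem_of_dvd hsub h1
    have h3 := v.isPrime.mem_of_pow_mem 2 h2
    push_cast at h3
    exact hv (v.isPrime.mem_of_pow_mem _ h3)
  let _ := Ideal.Quotient.field v.asIdeal
  have : Finite (𝓞 H ⧸ v.asIdeal) := Ideal.finiteQuotientOfFreeOfNeBot _ v.ne_bot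
  have hcard : Nat.card (𝓞 H ⧸ v.asIdeal) = pn v := by
    rw [pn, Ideal.absNorm_apply, Submodule.cardQuot_apply]
  have key := I2_core (κ := 𝓞 H ⧸ v.asIdeal) hp (k := k) (Ideal.Quotient.mk v.asIdeal y)
    (by rw [← I2_map, ← hD1, map_ofNat])
    (by
      rw [← I2_map, ← hD0]
      intro h1
      apply hmem
      rw [← Ideal.Quotient.eq_zero_iff_mem, map_sub, h1, map_ofNat, sub_self])
  rw [hcard] at key
  have hpos : 0 < pn v ^ 2 - 1 := by
    have : 1 < pn v ^ 2 := by nlinarith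
    omega
  have := Nat.le_of_dvd hpos key
  omega

end Pool.Agent.STr
end

section

/-!
# TASK N2: cosines in ray class fields (Lemma 1.1 of the paper)

PROOF of `cos_mem`. Template: `CK_le`, `cc_mem_rcf` in `MP_1ef7cf_nt_b/CycIn.lean`. Let `F = K⟮cos (2 π / N)⟯ ⊆ ℝ`, finite abelian over `K`
(`Pool.Agent.STh.F.ab_cos`). If `F` is not contained in `H`, apply `exists_frob_sub` (`MP_1ef7cf_nt/Gen.lean`) to `H ≤ H ⊔ F` and the finite set of
the primes dividing `M` (`finite_dvd`): a prime `P` of `H ⊔ F` with a Frobenius `σ ≠ 1` trivial on `H`; let `q = und K P`. The restriction of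
`σ` to `H` is `Art [q]` (Frobenius elements at the unramified prime are unique, cf. `IsRCF.frobP`), so `[q] = 1` in the ray class group, and by
`norm_cls` (with `I' = ⊤`) `N q ≡ ±1 mod N`. By `frob_cos` `σ` maps `cos (2 π / N)` to `cos (2 π N q / N) = cos (2 π / N)`. So `σ = 1`
on `F` and on `H`, contradiction. (`frob_cos` is applied to the field `H ⊔ F`; `N ∉ q` since `q` does not divide `M`.)
PROOF of `art_cos`: for a prime `I`: `frob_cos` (F06) for `H`, with a prime of `H` over `q`. In general: induction on the prime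
factorization of `I` (an ideal prime to `M`; `act_cos_mul`), as in `comp` in `MP_1ef7cf_nt_h/F10.lean`.
-/

set_option autoImplicit false

open NumberField IsDedekindDomain nonZeroDivisors IntermediateField

namespace Pool.Agent.STr

open Pool.Agent.ST

variable {K : Type*} [Field K] [NumberField K] [Algebra K ℝ] {σ₂ : K →+* ℝ}

omit [Algebra K ℝ] in
lemma N2_notMem {N : ℕ} {M : Ideal (𝓞 K)} (hM : M ≤ Ideal.span {(N : 𝓞 K)})
    {v : HeightOneSpectrum (𝓞 K)} (hv : ¬ v.asIdeal ∣ M) : (N : 𝓞 K) ∉ v.asIdeal := by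
  intro h
  apply hv
  rw [Ideal.dvd_iff_le]
  refine hM.trans ?_
  rw [Ideal.span_singleton_le_iff_mem]
  exact h

theorem cos_mem (h2 : Module.finrank ℚ K = 2) {N : ℕ} (hN : N ≠ 0) {M : Ideal (𝓞 K)} (hM0 : M ≠ ⊥)
    (hM : M ≤ Ideal.span {(N : 𝓞 K)}) {H : IntermediateField K ℝ} {Art : RayClassGroup σ₂ M ≃* (H ≃ₐ[K] H)}
    (hr : IsRayClassField σ₂ M H Art) : cN N ∈ H := by
  have hfH := hr.finite
  have hgH := hr.galois
  have habH : IsAbelianGalois K H := hr.isRCF.abelian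
  obtain ⟨hfC, habC⟩ := STh.F.ab_cos (K := K) N
  have hcC : cN N ∈ K⟮Real.cos (2 * Real.pi / N)⟯ := mem_adjoin_simple_self K _
  suffices hle : K⟮Real.cos (2 * Real.pi / N)⟯ ≤ H from hle hcC
  by_contra hcon
  have habL : IsAbelianGalois K (H ⊔ K⟮Real.cos (2 * Real.pi / N)⟯ : IntermediateField K ℝ) :=
    isAbelianGalois_sup
  have hfL : FiniteDimensional K (H ⊔ K⟮Real.cos (2 * Real.pi / N)⟯ : IntermediateField K ℝ) :=
    inferInstance
  have hnL := numberField_of_fd (H ⊔ K⟮Real.cos (2 * Real.pi / N)⟯)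
  have hnH := numberField_of_fd H
  have hHL : H ≤ H ⊔ K⟮Real.cos (2 * Real.pi / N)⟯ := le_sup_left
  have hCL : K⟮Real.cos (2 * Real.pi / N)⟯ ≤ H ⊔ K⟮Real.cos (2 * Real.pi / N)⟯ := le_sup_right
  have hne : H ≠ H ⊔ K⟮Real.cos (2 * Real.pi / N)⟯ := by
    intro heq
    apply hcon
    rw [heq]
    exact le_sup_right
  obtain ⟨P, hP1, hP2, σ, hσ1, hσ2, hσ3⟩ := exists_frob_sub hHL hne _ (finite_dvd hM0)
  have hvn : ¬ (und K P).asIdeal ∣ M := hP1
  obtain ⟨P₁, hP₁, -, hP₁'⟩ := isFrob_res hHL P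
  have f1 := hr.isRCF.frobP P₁ (by simp) (prJ M (und K P) hvn) (by rw [coe_prJ, hP₁])
  have := f1.1
  have g1 := isFrob_unique (hP₁' σ hσ1) f1.2
  rw [hσ2] at g1
  have hcls : cls σ₂ M (prJ M (und K P) hvn) = 1 := by
    apply Art.injective
    rw [← g1, map_one]
  have hfinG : Finite (RayClassGroup σ₂ M) := by
    have : Finite (H ≃ₐ[K] H) := inferInstance
    exact Finite.of_equiv _ Art.symm.toEquiv
  have h1 : (((1 : primeTo (K := K) M) : (FI K)ˣ) : FI K) = ((⊤ : Ideal (𝓞 K)) : FI K) := by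
    simp
  have hq := norm_cls h2 hN hM0 hM (I := (und K P).asIdeal) (I' := ⊤) (coe_prJ M (und K P) hvn) h1
    (by rw [hcls, map_one])
  have hnv := N2_notMem hM hvn
  have := P.isPrime
  have hPv : P.asIdeal.under (𝓞 K) = (und K P).asIdeal := rfl
  have hkey : act σ (cN N) = cN N := by
    have h3 := STh.F.frob_cos (H ⊔ K⟮Real.cos (2 * Real.pi / N)⟯) hN (hCL hcC) (und K P) hnv
      P.asIdeal hPv σ (fun x => hσ1 x)
    have h4 : Real.cos (2 * Real.pi * (Ideal.absNorm (und K P).asIdeal : ℕ) / N) =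
        Real.cos (2 * Real.pi / N) := by
      have h5 := (STh.F.cos_mod_iff hN (Ideal.absNorm (und K P).asIdeal : ℤ) 1).2 (by
        simpa using hq)
      simpa using h5
    rw [h4] at h3
    exact h3
  apply hσ3
  apply eq_of_eq_on_sup (L₁ := H) (L₂ := K⟮Real.cos (2 * Real.pi / N)⟯) le_rfl hHL hCL
  · intro x hx
    rw [← act_res hHL σ hx, hσ2, act_one_left hx, act_one_left (hHL hx)]
  · have hle : K⟮Real.cos (2 * Real.pi / N)⟯ ≤ eqField σ 1 := by
      rw [adjoin_simple_le_iff]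
      refine ⟨hCL hcC, ?_⟩
      have h6 := act_one_left (hCL hcC)
      exact hkey.trans h6.symm
    intro x hx
    exact (hle hx).2

lemma N2_prime {N : ℕ} (hN : N ≠ 0) {M : Ideal (𝓞 K)}
    (hM : M ≤ Ideal.span {(N : 𝓞 K)}) {H : IntermediateField K ℝ} {Art : RayClassGroup σ₂ M ≃* (H ≃ₐ[K] H)}
    (hr : IsRayClassField σ₂ M H Art) (hc : cN N ∈ H) (v : HeightOneSpectrum (𝓞 K))
    (J : primeTo (K := K) M) (hJ : ((J : (FI K)ˣ) : FI K) = v.asIdeal) :
    act (Art (cls σ₂ M J)) (cN N) = Real.cos (2 * Real.pi * (Ideal.absNorm v.asIdeal : ℕ) / N) := by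
  have hfH := hr.finite
  have hgH := hr.galois
  have hnH := numberField_of_fd H
  have hv : ¬ v.asIdeal ∣ M := coprime_prime_iff.1 (coprime_of_mem_primeTo hJ J.2)
  obtain ⟨P, hP⟩ := exists_ovr (K := K) (L := H) v
  have := P.isPrime
  have hPv : P.asIdeal.under (𝓞 K) = v.asIdeal := by rw [← hP]; rfl
  exact STh.F.frob_cos H hN hc v (N2_notMem hM hv) P.asIdeal hPv _
    (hr.frob v J hJ P.asIdeal hPv).2

theorem art_cos {N : ℕ} (hN : N ≠ 0) {M : Ideal (𝓞 K)} (hM0 : M ≠ ⊥)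
    (hM : M ≤ Ideal.span {(N : 𝓞 K)}) {H : IntermediateField K ℝ} {Art : RayClassGroup σ₂ M ≃* (H ≃ₐ[K] H)}
    (hr : IsRayClassField σ₂ M H Art) (hc : cN N ∈ H) {I : Ideal (𝓞 K)} {J : primeTo (K := K) M}
    (hJ : ((J : (FI K)ˣ) : FI K) = (I : FI K)) :
    act (Art (cls σ₂ M J)) (cN N) = Real.cos (2 * Real.pi * (Ideal.absNorm I : ℕ) / N) := by
  have hI : I ≠ ⊥ := by
    rintro rfl
    have h1 : ((J : (FI K)ˣ) : FI K) ≠ 0 := Units.ne_zero _
    apply h1
    rw [hJ]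
    simp
  have hmain := STg.F.ideal_induction (m := M)
    (p := fun I => ∀ J : primeTo (K := K) M, ((J : (FI K)ˣ) : FI K) = (I : FI K) →
      act (Art (cls σ₂ M J)) (cN N) = Real.cos (2 * Real.pi * (Ideal.absNorm I : ℕ) / N)) ?_ ?_ I hI
      (coprime_of_mem_primeTo hJ J.2) J hJ
  · exact hmain
  · intro J hJ
    have h1 : J = 1 := by
      apply Subtype.ext
      apply Units.ext
      rw [hJ]
      simp
    rw [h1, map_one, map_one, act_one_left hc]
    simp [cN]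
  · intro v I hv hI hIc ih J hJ
    set Jv := prJ (K := K) M v hv with hJv
    have hJ' : (((J * Jv⁻¹ : primeTo (K := K) M) : (FI K)ˣ) : FI K) = (I : FI K) := by
      rw [Subgroup.coe_mul, Subgroup.coe_inv, Units.val_mul, hJ, FractionalIdeal.coeIdeal_mul,
        mul_comm (v.asIdeal : FI K), mul_assoc]
      have : (v.asIdeal : FI K) * (((Jv : (FI K)ˣ)⁻¹ : (FI K)ˣ) : FI K) = 1 := by
        have h3 : ((Jv : (FI K)ˣ) : FI K) = v.asIdeal := coe_prJ M v hv
        rw [← h3, ← Units.val_mul, mul_inv_cancel, Units.val_one]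
      rw [this, mul_one]
    have hcls : cls σ₂ M J = cls σ₂ M Jv * cls σ₂ M (J * Jv⁻¹) := by
      rw [← map_mul]
      congr 1
      rw [mul_comm J, ← mul_assoc, mul_inv_cancel, one_mul]
    have h1 := N2_prime hN hM hr hc v Jv (coe_prJ M v hv)
    rw [hcls, map_mul, act_comp _ _ hc, ih (J * Jv⁻¹) hJ',
      STh.F.act_cos_mul hc _ h1, map_mul]

end Pool.Agent.STr
end
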