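import Pool.Agent.Lib.MP_1ef7cf_nt_r.Mg.G002
import Pool.Agent.Lib.MP_1ef7cf_nt_r.Mg.G017
import Pool.Agent.Lib.MP_1ef7cf_nt_r.Mg.G018
import Pool.Agent.Lib.MP_1ef7cf_nt_r.V1
import Pool.Agent.Lib.MP_1ef7cf_nt_r.Mg.G001
import Pool.Agent.Lib.MP_1ef7cf_nt_h.Fin
import Pool.Agent.Lib.MP_1ef7cf_nt_f.TX

section

/-!
# TASK I3: valuations of `ε(A)` and of `ε(A [(p)]⁻¹)` (section 1 of the paper)

PROOF. Suppose the valuations of `ev A` and `ev (A [q]⁻¹)` at `w` are different, `y = ev A / ev (A [q]⁻¹) ∈ L.H`, `w.valuation y = exp a`, `a ≠ 0`.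
For `k ≥ 1` put `m_k = m * q ^ k`, `L_k` a level for `m_k` (`Hy.lv`), `A'` a class over `A`, `x = ev m_k A'`.
`UU (m_k ≤ m) A = UU (m q ≤ m) A = Lz A - Lz (A [q]⁻¹)` (`UU_trans` with `m_k ≤ m q ≤ m` and `UU_same` for `m_k ≤ m q`; `UU_prime`). The fibre of `pr` over `A` is
`{A' * B | B ∈ ker pr}`, so with `Θ = L_k.θ (ker pr)` (image subgroup, a finset `T`): `∏ τ ∈ T, act τ x = ∏ B ∈ ker, ev m_k (A' B) = exp (UU A) = y`.
`Θ` has index `Nat.card (RayClassGroup σ₂ m) =: h` (`pr` is surjective, `L_k.θ` bijective). Let `v` be a prime of `L_k.H` over `w`.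
By `residue_bound` (`I1`; the tower `K ⊆ L.H ⊆ L_k.H`) `pn v ≤ pn w ^ (h |a|)`. By `cos_mem` (`(p ^ k) ∣ m_k` since `q = (p)`) and
`residue_growth`: `p ^ k ≤ pn v ^ 2` (`p ∉ v` since `p ∉ w`). For large `k` this is
a contradiction (`pn w ^ (2 h |a|)` does not depend on `k`).
-/

set_option autoImplicit false

open NumberField IsDedekindDomain nonZeroDivisors IntermediateField

namespace Pool.Agent.STr

open Pool.Agent.ST

variable {K : Type*} [Field K] [NumberField K] [Algebra K ℝ] {σ₂ : K →+* ℝ} {n m : Ideal (𝓞 K)}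

/-- the sum over the fibre in the tower -/
private lemma I3_UU (hy : Hy σ₂ n) (hm : m ≠ ⊥) (hnm : n ∣ m) {q : PrI K} (hq : ¬ q.asIdeal ∣ m) (k : ℕ)
    (hle : m * q.asIdeal ^ (k + 1) ≤ m) (A : RayClassGroup σ₂ m) :
    UU hle A = Lz σ₂ m A - Lz σ₂ m (A * (cls σ₂ m (prJ m q hq))⁻¹) := by
  have h1 : m * q.asIdeal ^ (k + 1) ≤ m * q.asIdeal := by
    rw [pow_succ, ← mul_assoc, mul_right_comm]
    exact Ideal.mul_le_left (I := m * q.asIdeal) (J := q.asIdeal ^ k)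
  have h2 : m * q.asIdeal ≤ m := Ideal.mul_le_left
  have hmq : m * q.asIdeal ≠ ⊥ := mul_ne_zero hm q.ne_bot
  have hmk : m * q.asIdeal ^ (k + 1) ≠ ⊥ := mul_ne_zero hm (pow_ne_zero _ q.ne_bot)
  have h3 := UU_trans hy hm hnm hmk h1 h2 A
  have h4 : UU hle A = UU (h1.trans h2) A := rfl
  rw [h4, h3, ← UU_prime hy hm hnm hq h2 A]
  apply finsum_congr
  intro A'
  congr 1
  funext _
  apply UU_same hy hmq (hnm.mul_right _) hmk h1
  intro r hr
  rcases (r.prime).dvd_or_dvd hr with h5 | h5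
  · exact h5.mul_right _
  · exact ((r.prime).dvd_of_dvd_pow h5).mul_left _

/-- the growth of the residue field is bounded -/
private lemma I3_bound (hy : Hy σ₂ n) (hm : m ≠ ⊥) (hnm : n ∣ m) (L : Lv σ₂ m) [NumberField L.H] (w : PrI L.H) {p : ℕ}
    (hp : p.Prime) {q : PrI K} (hqp : q.asIdeal = Ideal.span {(p : 𝓞 K)}) (hq : ¬ q.asIdeal ∣ m)
    (hpw : (p : 𝓞 L.H) ∉ w.asIdeal) (A : RayClassGroup σ₂ m) {a : ℤ} (ha : a ≠ 0)
    (hya : w.valuation L.H (⟨ev σ₂ m A, L.mem A⟩ / ⟨ev σ₂ m (A * (cls σ₂ m (prJ m q hq))⁻¹), L.mem _⟩) =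
      WithZero.exp a) (k : ℕ) :
    p ^ (k + 1) ≤ (pn w ^ (Nat.card (RayClassGroup σ₂ m) * a.natAbs)) ^ 2 := by
  classical
  obtain ⟨M, hM⟩ : ∃ M, M = m * q.asIdeal ^ (k + 1) := ⟨_, rfl⟩
  have hM0 : M ≠ ⊥ := hM ▸ mul_ne_zero hm (pow_ne_zero _ q.ne_bot)
  have hnM : n ∣ M := hM ▸ hnm.mul_right _
  have hle : M ≤ m := hM ▸ Ideal.mul_le_left
  obtain ⟨L'⟩ := hy.lv M hM0 hnM
  have hfd := L'.fd
  have hgal := L'.gal
  have hnf : NumberField L'.H := numberField_of_fd L'.H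
  have hfin := L'.finite_cl
  have : Fintype (RayClassGroup σ₂ M) := Fintype.ofFinite _
  have hLL : L.H ≤ L'.H := L.le L' hle hM0
  let _ : Algebra L.H L'.H := (inclusion hLL).toAlgebra
  have htower : IsScalarTower K L.H L'.H := IsScalarTower.of_algebraMap_eq (fun x => rfl)
  obtain ⟨v, hv⟩ := exists_ovr (K := L.H) (L := L'.H) w
  have hsurj := hy.pr_surj hm hnm hM0 hle
  obtain ⟨A', hA'⟩ := hsurj A
  -- the finset
  obtain ⟨S, hS⟩ : ∃ S : Finset (RayClassGroup σ₂ M), S = Finset.univ.filter (fun B => pr σ₂ hle B = 1) := ⟨_, rfl⟩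
  have hmS : ∀ B, B ∈ S ↔ pr σ₂ hle B = 1 := by intro B; rw [hS]; simp
  have hUU : UU hle A = ∑ B ∈ S, Lz σ₂ M (A' * B) := by
    unfold UU
    rw [← finsum_mem_coe_finset]
    symm
    apply finsum_mem_eq_of_bijOn (fun B => A' * B)
    · refine ⟨?_, ?_, ?_⟩
      · intro B hB
        have h1 := (hmS B).1 hB
        change pr σ₂ hle (A' * B) = A
        rw [map_mul, h1, hA', mul_one]
      · intro B _ B' _ h
        exact mul_left_cancel h
      · intro C hC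
        have h1 : pr σ₂ hle C = A := hC
        refine ⟨A'⁻¹ * C, ?_, by simp⟩
        rw [Finset.mem_coe, hmS, map_mul, map_inv, hA', h1, inv_mul_cancel]
    · intro B _; rfl
  have hUU2 : UU hle A = Lz σ₂ m A - Lz σ₂ m (A * (cls σ₂ m (prJ m q hq))⁻¹) := by
    subst hM
    exact I3_UU hy hm hnm hq k hle A
  -- the product
  have hprod : ev σ₂ m A / ev σ₂ m (A * (cls σ₂ m (prJ m q hq))⁻¹) = ∏ B ∈ S, ev σ₂ M (A' * B) := by
    unfold ev
    rw [← Real.exp_sub, ← hUU2, hUU, Real.exp_sum]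
  let T : Finset (L'.H ≃ₐ[K] L'.H) := S.map L'.θ.toEquiv.toEmbedding
  have hT : ∀ τ, τ ∈ T ↔ τ ∈ (pr σ₂ hle).ker.map (L'.θ : RayClassGroup σ₂ M →* (L'.H ≃ₐ[K] L'.H)) := by
    intro τ
    rw [Subgroup.mem_map, Finset.mem_map]
    constructor
    · rintro ⟨B, hB, rfl⟩
      exact ⟨B, (hmS B).1 hB, rfl⟩
    · rintro ⟨B, hB, rfl⟩
      exact ⟨B, (hmS B).2 hB, rfl⟩
  have hindex : ((pr σ₂ hle).ker.map (L'.θ : RayClassGroup σ₂ M →* (L'.H ≃ₐ[K] L'.H))).index ≤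
      Nat.card (RayClassGroup σ₂ m) := by
    rw [Subgroup.index_map_equiv, Subgroup.index_ker, MonoidHom.range_eq_top.2 hsurj, Subgroup.card_top]
  have hx : (⟨ev σ₂ M A', L'.mem A'⟩ : L'.H) ≠ 0 := by
    intro h
    have := congrArg (fun t : L'.H => (t : ℝ)) h
    exact (ev_pos A').ne' this
  have hyy : algebraMap L.H L'.H (⟨ev σ₂ m A, L.mem A⟩ / ⟨ev σ₂ m (A * (cls σ₂ m (prJ m q hq))⁻¹), L.mem _⟩) =
      ∏ τ ∈ T, τ ⟨ev σ₂ M A', L'.mem A'⟩ := by
    apply (algebraMap L'.H ℝ).injective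
    rw [map_prod, Finset.prod_map]
    have h1 : algebraMap L'.H ℝ (algebraMap L.H L'.H (⟨ev σ₂ m A, L.mem A⟩ /
        ⟨ev σ₂ m (A * (cls σ₂ m (prJ m q hq))⁻¹), L.mem _⟩)) =
        ev σ₂ m A / ev σ₂ m (A * (cls σ₂ m (prJ m q hq))⁻¹) := rfl
    rw [h1, hprod]
    apply Finset.prod_congr rfl
    intro B _
    rw [← L'.eq A' B, act_of_mem _ (L'.mem A')]
    rfl
  have hb := residue_bound (K := K) (H := L.H) (H' := L'.H) L'.comm v _ hT hindex hx hyy ha
    (by rw [hv]; exact hya)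
  rw [hv] at hb
  have hcos : cN (p ^ (k + 1)) ∈ L'.H := by
    apply cos_mem hy.h2 (pow_ne_zero _ hp.ne_zero) hM0 _ L'.rcf
    rw [hM, hqp]
    push_cast
    rw [← Ideal.span_singleton_pow]
    exact Ideal.mul_le_right
  have hg := residue_growth hp hcos v (by
    intro h
    apply hpw
    rw [← hv]
    change algebraMap (𝓞 L.H) (𝓞 L'.H) (p : 𝓞 L.H) ∈ v.asIdeal
    rwa [map_natCast])
  exact hg.trans (Nat.pow_le_pow_left hb 2)

theorem val_eq (hy : Hy σ₂ n) (hm : m ≠ ⊥) (hnm : n ∣ m) (L : Lv σ₂ m) [NumberField L.H] (w : PrI L.H) {p : ℕ} (hp : p.Prime)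
    {q : PrI K} (hqp : q.asIdeal = Ideal.span {(p : 𝓞 K)}) (hq : ¬ q.asIdeal ∣ m) (hpw : (p : 𝓞 L.H) ∉ w.asIdeal)
    (A : RayClassGroup σ₂ m) :
    w.valuation L.H ⟨ev σ₂ m (A * (cls σ₂ m (prJ m q hq))⁻¹), L.mem _⟩ =
      w.valuation L.H ⟨ev σ₂ m A, L.mem A⟩ := by
  by_contra hne
  have hne0 : ∀ B, (⟨ev σ₂ m B, L.mem B⟩ : L.H) ≠ 0 := by
    intro B h
    have := congrArg (fun t : L.H => (t : ℝ)) h
    exact (ev_pos B).ne' this
  have hv0 : ∀ B, w.valuation L.H (⟨ev σ₂ m B, L.mem B⟩ : L.H) ≠ 0 :=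
    fun B => (Valuation.ne_zero_iff _).2 (hne0 B)
  obtain ⟨a, hya⟩ : ∃ a : ℤ, w.valuation L.H (⟨ev σ₂ m A, L.mem A⟩ /
      ⟨ev σ₂ m (A * (cls σ₂ m (prJ m q hq))⁻¹), L.mem _⟩) = WithZero.exp a := by
    refine ⟨WithZero.log (w.valuation L.H (⟨ev σ₂ m A, L.mem A⟩ /
      ⟨ev σ₂ m (A * (cls σ₂ m (prJ m q hq))⁻¹), L.mem _⟩)), ?_⟩
    rw [WithZero.exp_log]
    exact (Valuation.ne_zero_iff _).2 (div_ne_zero (hne0 _) (hne0 _))
  have ha : a ≠ 0 := by
    rintro rfl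
    rw [map_div₀, WithZero.exp_zero, div_eq_one_iff_eq (hv0 _)] at hya
    exact hne hya.symm
  have h1 := I3_bound hy hm hnm L w hp hqp hq hpw A ha hya
    ((pn w ^ (Nat.card (RayClassGroup σ₂ m) * a.natAbs)) ^ 2)
  have h2 := Nat.lt_pow_self hp.one_lt (n := (pn w ^ (Nat.card (RayClassGroup σ₂ m) * a.natAbs)) ^ 2 + 1)
  omega

end Pool.Agent.STr
end

section

/-!
# TASK V8: the values of the Euler factors

PROOF. Let `N = Nat.card (RayClassGroup σ₂ m)`, `N ≠ 0`. Every factor `1 - (chQ χ q)⁻¹`, `q ∈ Nw m m'`, is `1 - ζ` with `ζ ^ N = 1`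
(`pow_card_eq_one'`), so it is integral. `EE_int`: `finprod_mem` over a finite set (`Nw_finite`), `IsIntegral.prod`.
`EE_finite`: `EE χ m'` is a product of `(Nw m m').ncard ≤ s` elements of the finite set `S = {1 - ζ | ζ ^ N = 1}` (finite: the roots of
`X ^ N - 1`, `Polynomial.nthRoots`); the set of products of at most `s` elements of a finite set `S` is finite (it is
contained in `(insert 1 S) ^ s`, pointwise power of a finite set: `Set.Finite.pow`; a product over a finset of cardinality `t ≤ s` of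
elements of `S` is in `S ^ t`, and `(insert 1 S) ^ t ⊆ (insert 1 S) ^ s`).
-/

set_option autoImplicit false

open NumberField IsDedekindDomain nonZeroDivisors IntermediateField

namespace Pool.Agent.STr

open Pool.Agent.ST
open Pool.Agent.STc (IsInt rd IsUn)

variable {K : Type*} [Field K] [NumberField K] [Algebra K ℝ] {σ₂ : K →+* ℝ} {n m m' m'' : Ideal (𝓞 K)}

omit [Algebra K ℝ] in
theorem V8_root [Finite (RayClassGroup σ₂ m)] (χ : RayClassGroup σ₂ m →* ℂˣ) (q : PrI K)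
    (hq : ¬ q.asIdeal ∣ m) : ((chQ χ q)⁻¹) ^ (Nat.card (RayClassGroup σ₂ m)) = 1 := by
  unfold chQ
  rw [dif_pos hq, inv_pow, ← Units.val_pow_eq_pow_val, ← map_pow, pow_card_eq_one']
  simp

theorem EE_int [Finite (RayClassGroup σ₂ m)] (hm' : m' ≠ ⊥) (χ : RayClassGroup σ₂ m →* ℂˣ) :
    IsIntegral ℤ (EE χ m') := by
  unfold EE
  rw [finprod_mem_eq_finite_toFinset_prod _ (Nw_finite m hm')]
  refine IsIntegral.prod _ fun q hq => ?_
  rw [Set.Finite.mem_toFinset] at hq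
  refine isIntegral_one.sub ?_
  refine IsIntegral.of_pow (n := Nat.card (RayClassGroup σ₂ m)) Nat.card_pos ?_
  rw [V8_root χ q hq.2]
  exact isIntegral_one

open scoped Pointwise in
theorem V8_prod {ι : Type*} (S : Set ℂ) (f : ι → ℂ) (t : Finset ι) :
    (∀ q ∈ t, f q ∈ S) → ∏ q ∈ t, f q ∈ (insert 1 S) ^ t.card := by
  classical
  refine Finset.induction_on t ?_ ?_
  · intro _
    simp
  · intro a t ha ih h
    rw [Finset.prod_insert ha, Finset.card_insert_of_notMem ha, pow_succ']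
    exact Set.mul_mem_mul (Set.mem_insert_of_mem _ (h a (Finset.mem_insert_self a t)))
      (ih fun q hq => h q (Finset.mem_insert_of_mem hq))

open scoped Pointwise in
theorem V8_finpow (S : Set ℂ) (hS : S.Finite) (s : ℕ) : (S ^ s).Finite := by
  induction s with
  | zero => rw [pow_zero]; exact Set.finite_one
  | succ s ih => rw [pow_succ]; exact ih.mul hS

open scoped Pointwise in
theorem V8_pow (ι : Type*) (S : Set ℂ) (hS : S.Finite) (s : ℕ) :
    ∃ T : Set ℂ, T.Finite ∧ ∀ (f : ι → ℂ) (t : Finset ι), t.card ≤ s → (∀ q ∈ t, f q ∈ S) →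
      ∏ q ∈ t, f q ∈ T :=
  ⟨(insert 1 S) ^ s, V8_finpow _ (hS.insert 1) s, fun f t ht h =>
    Set.pow_subset_pow_right (Set.mem_insert _ _) ht (V8_prod S f t h)⟩

theorem EE_finite [Finite (RayClassGroup σ₂ m)] (χ : RayClassGroup σ₂ m →* ℂˣ) (s : ℕ) :
    {z : ℂ | ∃ m' : Ideal (𝓞 K), m' ≠ ⊥ ∧ (Nw m m').ncard ≤ s ∧ z = EE χ m'}.Finite := by
  classical
  set N := Nat.card (RayClassGroup σ₂ m) with hN
  have hN0 : 0 < N := Nat.card_pos
  set S : Set ℂ := (fun ζ : ℂ => 1 - ζ) '' {ζ : ℂ | ζ ^ N = 1} with hS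
  have hfin : {ζ : ℂ | ζ ^ N = 1}.Finite := by
    refine ((Polynomial.nthRoots N (1 : ℂ)).toFinset.finite_toSet).subset ?_
    intro ζ hζ
    rw [Finset.mem_coe, Multiset.mem_toFinset, Polynomial.mem_nthRoots hN0]
    exact hζ
  have hSf : S.Finite := hfin.image _
  obtain ⟨T, hT, hprod⟩ := V8_pow (PrI K) S hSf s
  refine hT.subset ?_
  rintro z ⟨m', hm', hs, rfl⟩
  unfold EE
  rw [finprod_mem_eq_finite_toFinset_prod _ (Nw_finite m hm')]
  refine hprod _ _ ?_ ?_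
  · rw [← Set.ncard_eq_toFinset_card _ (Nw_finite m hm')]
    exact hs
  · intro q hq
    rw [Set.Finite.mem_toFinset] at hq
    exact ⟨(chQ χ q)⁻¹, V8_root χ q hq.2, rfl⟩

end Pool.Agent.STr
end

section

/-!
# TASK C1a: the truth for the characters of CM type ((7.2) of the paper)

PROOF. `u_rel`: `fin_general` (`MP_1ef7cf_nt_h/Fin.lean`; with `x = a`, `FD.alg`; its field `K⟮√√d⟯ ⊔ K⟮cos (2 π / N)⟯` is `Lf a N`: `se a = √√d`) for `L = Lf a N` and the level `L.H`, `L.Art` gives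
`StarkTateIn`, hence `StarkIn`, hence by `td_of_starkIn` (`MP_1ef7cf_nt_f/TX.lean`) `TD σ₂ M (Lf a N) x`: a field `H'`, an Artin map and `TData`. `H' = L.H` (`IsRCF.le` in both directions), and the
Artin maps are equal (`art_unique` in `MP_1ef7cf_nt_f/CL.lean`). `TData.act`: `act γ x = pf hL (ez σ₂ M Art) γ = ∏ (B : res (Art B) = γ), ev B` for all `γ ∈ Gal(Lf a N / K)`. So with
`V = {B | Art B is trivial on Lf a N}`: `∏ v ∈ V, ev (A v) = act (res (Art A)) x` for all `A`. Apply `act (L.Art C)` to both sides: left side (`Lv.act_art`)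
`∏ v, ev (A v β C) = ` value for `A β C`; right side `act (res (Art (A C))) x` = value for `A C`. Take logarithms.
`truth`: `X_rel` for `f = Lz`, the families `v ↦ β C * v` and `v ↦ C * v` (`v ∈ V`, a finset): `χ (β C) * |V| = χ C * |V|` since `χ` is trivial on `V`.
(This file: u_rel.)
-/

set_option autoImplicit false

open NumberField IsDedekindDomain nonZeroDivisors IntermediateField

namespace Pool.Agent.STr

open Pool.Agent.ST
open Pool.Agent.STh.F (FD Lf se)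

variable {K : Type*} [Field K] [NumberField K] [Algebra K ℝ] {σ₂ : K →+* ℝ} {n M : Ideal (𝓞 K)} {d : ℕ} {a : 𝓞 K}

theorem u_rel (hy : Hy σ₂ n) (D : FD σ₂ d a) (hM : M ≠ ⊥) (hnM : n ∣ M) (L : Lv σ₂ M) {N : ℕ} (hN : N ≠ 0)
    (hab : ∀ v : PrI K, (2 * d * N : 𝓞 K) ∈ v.asIdeal → v.asIdeal ∣ M) (hLf : Lf a N ≤ L.H)
    {V : Finset (RayClassGroup σ₂ M)} (hV : ∀ B, B ∈ V ↔ ∀ x ∈ Lf a N, act (L.Art B) x = x)
    (A C : RayClassGroup σ₂ M) :
    ∑ v ∈ V, Lz σ₂ M (A * (L.β C * v)) = ∑ v ∈ V, Lz σ₂ M (A * (C * v)) := by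
  have hst : StarkRQ.StarkTateIn σ₂ M (Lf a N) := STh.stark_main D hN hM hab L.rcf hLf le_rfl
  have hst' : StarkRQ.StarkIn σ₂ M (Lf a N) := by
    obtain ⟨H, Art, Z, hL, η, hr, hZ, hs, -⟩ := hst
    exact ⟨H, Art, Z, hL, η, hr, hZ, hs⟩
  obtain ⟨x, H', Art', hfd', hnm, hL', T⟩ := STf.td_of_starkIn hst'
  have hHH : H' = L.H := STd.SData.field_eq hM T.rcf L.rcf
  obtain ⟨LH, LArt, Lθ, Lrcf, Lmem, Leq⟩ := L
  dsimp only at hHH hLf hV
  subst hHH
  have hArt : Art' = LArt := STf.art_unique hM T.rcf Lrcf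
  subst hArt
  set L : Lv σ₂ M := ⟨H', Art', Lθ, Lrcf, Lmem, Leq⟩ with hLdef
  have hxm : x ∈ Lf a N := T.pre.mem
  -- the product over `V`
  have hP : ∀ B : RayClassGroup σ₂ M, ∏ v ∈ V, ev σ₂ M (B * v) = act (Art' B) x := by
    intro B
    rw [← act_res hL' (Art' B) hxm, T.act, STf.pf_mul]
    symm
    refine Finset.prod_bij (fun γ _ => Art'.symm γ) ?_ ?_ ?_ ?_
    · intro γ hγ
      rw [mem_fib, res_eq_one_iff] at hγ
      rw [hV]
      intro y hy'
      rw [MulEquiv.apply_symm_apply]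
      exact hγ y hy'
    · intro γ _ γ' _ h
      exact Art'.symm.injective h
    · intro v hv
      refine ⟨Art' v, ?_, Art'.symm_apply_apply v⟩
      rw [mem_fib, res_eq_one_iff]
      exact (hV v).1 hv
    · intro γ _
      unfold STf.ez ev Lz
      rw [map_mul, MulEquiv.symm_apply_apply]
  have h1 : ∏ v ∈ V, ev σ₂ M (A * (L.β C * v)) = ∏ v ∈ V, ev σ₂ M (A * (C * v)) := by
    have h2 : act (Art' C) (∏ v ∈ V, ev σ₂ M (A * v)) = act (Art' C) (act (Art' A) x) := by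
      rw [hP]
    rw [act_prod _ _ _ fun v _ => Lmem _, ← act_comp _ _ (hL' hxm), ← map_mul, ← hP] at h2
    have h3 : ∀ v, act (Art' C) (ev σ₂ M (A * v)) = ev σ₂ M (A * (L.β C * v)) := by
      intro v
      rw [L.act_art (A * v) C, mul_assoc, mul_comm v]
    simp only [h3] at h2
    rw [h2]
    refine Finset.prod_congr rfl fun v _ => ?_
    congr 1
    rw [mul_comm C A, mul_assoc]
  unfold ev at h1
  rw [← Real.exp_sum, ← Real.exp_sum] at h1
  exact Real.exp_injective h1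

end Pool.Agent.STr
end

section

/-!
# TASK C1: the truth for the characters of CM type ((7.2) of the paper)

`truth`: `X_rel` for `f = Lz`, the families `v ↦ β C * v` and `v ↦ C * v` (`v ∈ V`, a finset): `χ (β C) * |V| = χ C * |V|` since `χ` is trivial on `V`.
-/

set_option autoImplicit false

open NumberField IsDedekindDomain nonZeroDivisors IntermediateField

namespace Pool.Agent.STr

open Pool.Agent.ST
open Pool.Agent.STh.F (FD Lf se)

variable {K : Type*} [Field K] [NumberField K] [Algebra K ℝ] {σ₂ : K →+* ℝ} {n M : Ideal (𝓞 K)} {d : ℕ} {a : 𝓞 K}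

theorem truth (hy : Hy σ₂ n) (D : FD σ₂ d a) (hM : M ≠ ⊥) (hnM : n ∣ M) (L : Lv σ₂ M) {N : ℕ} (hN : N ≠ 0)
    (hab : ∀ v : PrI K, (2 * d * N : 𝓞 K) ∈ v.asIdeal → v.asIdeal ∣ M) (hLf : Lf a N ≤ L.H)
    {χ : RayClassGroup σ₂ M →* ℂˣ} (hχ : InX (Lz σ₂ M) χ)
    (htr : ∀ B, (∀ x ∈ Lf a N, act (L.Art B) x = x) → χ B = 1) (C : RayClassGroup σ₂ M) : χ (L.β C) = χ C := by
  classical
  have := L.finite_cl
  have := Fintype.ofFinite (RayClassGroup σ₂ M)
  set V : Finset (RayClassGroup σ₂ M) := Finset.univ.filter (fun B => ∀ x ∈ Lf a N, act (L.Art B) x = x) with hVd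
  have hV : ∀ B, B ∈ V ↔ ∀ x ∈ Lf a N, act (L.Art B) x = x := by
    intro B
    simp [hVd]
  have h1 : (1 : RayClassGroup σ₂ M) ∈ V := by
    rw [hV]
    intro x hx
    rw [map_one, act_of_mem _ (hLf hx)]
    simp
  have hX := X_rel hχ V V (fun v => L.β C * v) (fun v => C * v)
    (fun A => u_rel hy D hM hnM L hN hab hLf hV A C)
  have e : ∀ P : RayClassGroup σ₂ M, ∑ v ∈ V, ((χ (P * v) : ℂˣ) : ℂ) = (V.card : ℂ) * ((χ P : ℂˣ) : ℂ) := by
    intro P
    rw [Finset.sum_congr rfl (g := fun _ => ((χ P : ℂˣ) : ℂ))]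
    · rw [Finset.sum_const, nsmul_eq_mul]
    · intro v hv
      rw [map_mul, htr v ((hV v).1 hv), mul_one]
  rw [e, e] at hX
  have hc : (V.card : ℂ) ≠ 0 := by
    have : V.card ≠ 0 := Finset.card_ne_zero_of_mem h1
    exact_mod_cast this
  exact Units.ext (mul_left_cancel₀ hc hX)

end Pool.Agent.STr
end
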