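import Pool.Agent.Lib.MP_1ef7cf_nt_r.Df
import Pool.Agent.Lib.MP_1ef7cf_nt_h.Mg.G001
import Pool.Agent.Lib.MP_1ef7cf_nt_r.Mg.G006

section

/-!
# TASK N6: inert primes

PROOF. `jacobi_neg`: for odd natural numbers `b`, `b'` with `8 d ∣ b + b'`: `J(d | b) = J(d | b')`. By multiplicativity in `d` (`jacobiSym.mul_left`,
induction on the factorization of `d`, `8 q ∣ b + b'` for every prime factor `q` of `d`) it is enough to treat a prime `d = q`: for `q = 2` use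
`jacobiSym.at_two` (`b' ≡ -b mod 8`, `χ₈ (-b) = χ₈ b`); for odd `q` quadratic reciprocity: `J(q | b) = ± J(b | q)` with the sign
`(-1) ^ ((q-1)/2 (b-1)/2)`, `J(b' | q) = J(-b | q) = (-1) ^ ((q-1)/2) J(b | q)` and `(b' - 1) / 2 ≡ (b - 1) / 2 + 1 mod 2` since `b + b' ≡ 0 mod 4`.
(If `gcd (b, d) ≠ 1` both sides are `0`.)
`exists_nonres`: for a nonsquare `d` there is an odd natural number `b` prime to `d` with `J(d | b) = -1`: Mathlib may have it
(`Nat.exists_prime_...` / `ZMod.isSquare...`); otherwise: write `d = D x ^ 2`, `D > 1` squarefree. If `D` has an odd prime factor `q`: by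
the Chinese remainder theorem choose `b ≡ 1 mod 8`, `b ≡ 1` modulo the other odd prime factors of `d`, `b ≡` a nonresidue modulo `q`; if `D = 2`
choose `b ≡ 5 mod 8`, `b ≡ 1` modulo the odd prime factors of `d`. Compute with quadratic reciprocity.
`exists_inert_pair`: let `b₀` be as in `exists_nonres`, `N' = 8 d N`; make `b₀` prime to `N'`: `J(d | ·)` depends only on the class modulo `4 d` or `8 d`
(`jacobiSym.mod_right`), and by the Chinese remainder theorem there is `b₁ ≡ b₀ mod 8 d` prime to `N` (or: choose in `exists_nonres` `b` a prime, which can be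
taken arbitrarily large by Dirichlet's theorem `Nat.forall_exists_prime_gt_and_eq_mod`, hence prime to `N`). Dirichlet: primes `p₁ ≡ b₁ mod N'`,
`p₂ ≡ -b₁ mod N'`, larger than `b` and `2 d`. `J(d | p₁) = J(d | b₁) = -1` and `J(d | p₂) = -1` by `jacobi_neg`. `typeK_inert` (F03): there is
exactly one prime `P` over `p`, and `absNorm P = p ^ 2 = absNorm (p)`, so `(p) = P` is prime (`P ∣ (p)` and equal norms).
(This file: exists_inert_pair.)
-/

set_option autoImplicit false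

open NumberField IsDedekindDomain nonZeroDivisors IntermediateField

namespace Pool.Agent.STr

open Pool.Agent.ST
open Pool.Agent.STh.F (FD)

variable {K : Type*} [Field K] [NumberField K] [Algebra K ℝ] {σ₂ : K →+* ℝ}

private theorem N6_inert {d : ℕ} {a : 𝓞 K} (D : FD σ₂ d a) {p : ℕ} (hp : p.Prime)
    (hpd : ¬ p ∣ 2 * d) (h : jacobiSym d p = -1) :
    ∃ q : PrI K, q.asIdeal = Ideal.span {(p : 𝓞 K)} := by
  obtain ⟨P, hN, -, hR⟩ := STh.F.typeK_inert D hp hpd h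
  rcases STg.F.decomp D.deg hp with ⟨v, hv, -⟩ | ⟨v, w, hvw, hv, hw⟩
  · exact ⟨v, hv.symm⟩
  · exfalso
    have h1 : (p : 𝓞 K) ∈ v.asIdeal := by
      have h2 : Ideal.span {(p : 𝓞 K)} ≤ v.asIdeal := by
        rw [hvw]
        exact Ideal.mul_le_left (I := v.asIdeal) (J := w.asIdeal)
      exact h2 (Ideal.mem_span_singleton_self _)
    have h3 := hR v h1
    rw [← h3, hv] at hN
    nlinarith [hp.two_le]

theorem exists_inert_pair {d : ℕ} {a : 𝓞 K} (D : FD σ₂ d a) {N : ℕ} (hN : N ≠ 0) (b : ℕ) :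
    ∃ (p₁ p₂ : ℕ) (q₁ q₂ : PrI K), p₁.Prime ∧ p₂.Prime ∧ b < p₁ ∧ b < p₂ ∧
      q₁.asIdeal = Ideal.span {(p₁ : 𝓞 K)} ∧ q₂.asIdeal = Ideal.span {(p₂ : 𝓞 K)} ∧ N ∣ p₁ + p₂ := by
  have hd0 : d ≠ 0 := by
    rintro rfl
    exact D.nsq ⟨0, rfl⟩
  have hM0 : 8 * d * N ≠ 0 := by positivity
  obtain ⟨p₁, hp₁, hb₁, hj₁⟩ := exists_nonres D.nsq (8 * d * N + b)
  have hcop : Nat.Coprime p₁ (8 * d * N) := by
    rw [hp₁.coprime_iff_not_dvd]
    intro hdvd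
    have := Nat.le_of_dvd (Nat.pos_of_ne_zero hM0) hdvd
    omega
  have : NeZero (8 * d * N) := ⟨hM0⟩
  have hu : IsUnit ((p₁ : ZMod (8 * d * N))) := (ZMod.isUnit_iff_coprime _ _).2 hcop
  obtain ⟨p₂, hb₂, hp₂, heq⟩ := Nat.forall_exists_prime_gt_and_eq_mod hu.neg (8 * d * N + b)
  have hdvd : 8 * d * N ∣ p₁ + p₂ := by
    rw [← ZMod.natCast_eq_zero_iff]
    push_cast
    rw [heq]
    ring
  have h8 : 8 * d ∣ p₁ + p₂ := (Dvd.intro _ rfl).trans hdvd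
  have hdle : 2 * d ≤ 8 * d * N := by
    have : 1 ≤ N := Nat.one_le_iff_ne_zero.2 hN
    nlinarith [Nat.zero_le d]
  have h2le : 2 ≤ 8 * d * N := by
    have : 1 ≤ d := Nat.one_le_iff_ne_zero.2 hd0
    omega
  have hnd : ∀ p : ℕ, 8 * d * N + b < p → ¬ p ∣ 2 * d := by
    intro p hp h
    have := Nat.le_of_dvd (by positivity) h
    omega
  have ho₁ : Odd p₁ := hp₁.odd_of_ne_two (by omega)
  have ho₂ : Odd p₂ := hp₂.odd_of_ne_two (by omega)
  have hj₂ : jacobiSym d p₂ = -1 := by rw [← jacobi_neg hd0 ho₁ ho₂ h8, hj₁]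
  obtain ⟨q₁, hq₁⟩ := N6_inert D hp₁ (hnd p₁ hb₁) hj₁
  obtain ⟨q₂, hq₂⟩ := N6_inert D hp₂ (hnd p₂ hb₂) hj₂
  exact ⟨p₁, p₂, q₁, q₂, hp₁, hp₂, by omega, by omega, hq₁, hq₂, (Dvd.intro_left _ rfl).trans hdvd⟩

end Pool.Agent.STr
end

section

/-!
# TASK N7a: primes `(r)` with `χ([(r)]) ≠ 1`

PROOF. `cls_pair`: the fractional ideal `(p₂ / p₁)` is `(α)` with `α = -p₂ / p₁`, `α ≡ 1 mod m` (`OneMod m α` with `a = -p₂`, `b = p₁`, `(p₁)` prime to `m`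
since the prime `(p₁)` does not divide `m`, `-p₂ - p₁ ∈ m`), `σ₂ α < 0`. The class `c` is the class of `(z)`, `z ≡ 1`, `σ₂ z < 0`; `(α / z)` is in the ray
(`OneMod.mul`, `OneMod.inv`, `0 < σ₂ (α / z)`), so `[q₂] = [q₁] * c`.
`exists_r`: let `N ≠ 0` be a natural number in `m` (`absNorm m`), `b' ≥ b` such that no prime `(p)`, `p > b'`, divides `m` (e.g. `b' = max b (absNorm m)`: if `(p) ∣ m`
then `p ∣ absNorm m`). Take `exists_inert_pair`: `[q₂] = [q₁] c`, so `χ [q₂] = -χ [q₁]`, and they are not both `1`.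
(This file: cls_pair.)
-/

set_option autoImplicit false

open NumberField IsDedekindDomain nonZeroDivisors IntermediateField

namespace Pool.Agent.STr

open Pool.Agent.ST
open Pool.Agent.STh.F (FD)

variable {K : Type*} [Field K] [NumberField K] [Algebra K ℝ] {σ₂ : K →+* ℝ} {m : Ideal (𝓞 K)}

theorem cls_pair {p₁ p₂ : ℕ} {q₁ q₂ : PrI K} (h1 : q₁.asIdeal = Ideal.span {(p₁ : 𝓞 K)})
    (h2 : q₂.asIdeal = Ideal.span {(p₂ : 𝓞 K)}) (hp₁ : p₁ ≠ 0) (hp₂ : p₂ ≠ 0) (hq₁ : ¬ q₁.asIdeal ∣ m) (hq₂ : ¬ q₂.asIdeal ∣ m)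
    (h : ((p₁ : 𝓞 K) + p₂) ∈ m) {c : RayClassGroup σ₂ m} (hc : IsC σ₂ m c) :
    cls σ₂ m (prJ m q₂ hq₂) = cls σ₂ m (prJ m q₁ hq₁) * c := by
  obtain ⟨z, C, hz1, hz2, hC, rfl⟩ := hc
  have h2' : q₂.asIdeal = Ideal.span {(-(p₂ : 𝓞 K))} := by
    rw [h2, Ideal.span_singleton_neg]
  rw [← map_mul, cls_eq_iff]
  refine ⟨((p₁ * z : 𝓞 K) : K) / ((-(p₂ : 𝓞 K) : 𝓞 K) : K), ⟨(p₁ : 𝓞 K) * z, -(p₂ : 𝓞 K), ?_, ?_, rfl⟩, ?_, ?_⟩
  · rw [← h2']
    exact coprime_prime_iff.2 hq₂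
  · have h3 : (p₁ : 𝓞 K) * z - -(p₂ : 𝓞 K) = (p₁ : 𝓞 K) * (z - 1) + ((p₁ : 𝓞 K) + p₂) := by ring
    rw [h3]
    exact m.add_mem (m.mul_mem_left _ hz1) h
  · have h4 : (0 : ℝ) < p₁ := by positivity
    have h5 : (0 : ℝ) < p₂ := by positivity
    have h6 : σ₂ (((p₁ * z : 𝓞 K) : K) / ((-(p₂ : 𝓞 K) : 𝓞 K) : K)) = (p₁ : ℝ) * (-σ₂ (z : K)) / p₂ := by
      push_cast
      rw [map_div₀, map_mul, map_neg, map_natCast, map_natCast, div_neg, mul_neg, neg_div]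
    rw [h6]
    have h7 : 0 < -σ₂ (z : K) := by linarith
    positivity
  · rw [Subgroup.coe_mul, Units.val_mul, Units.val_mul, Units.val_inv_eq_inv_val, coe_prJ, coe_prJ, hC, h2', h1,
      coe_span_singleton, coe_span_singleton, coe_span_singleton, FractionalIdeal.spanSingleton_inv,
      FractionalIdeal.spanSingleton_mul_spanSingleton, FractionalIdeal.spanSingleton_mul_spanSingleton]
    congr 1
    push_cast
    ring

end Pool.Agent.STr
end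

section

/-!
# TASK N7: primes `(r)` with `χ([(r)]) ≠ 1`

PROOF. `cls_pair`: the fractional ideal `(p₂ / p₁)` is `(α)` with `α = -p₂ / p₁`, `α ≡ 1 mod m` (`OneMod m α` with `a = -p₂`, `b = p₁`, `(p₁)` prime to `m`
since the prime `(p₁)` does not divide `m`, `-p₂ - p₁ ∈ m`), `σ₂ α < 0`. The class `c` is the class of `(z)`, `z ≡ 1`, `σ₂ z < 0`; `(α / z)` is in the ray
(`OneMod.mul`, `OneMod.inv`, `0 < σ₂ (α / z)`), so `[q₂] = [q₁] * c`.
`exists_r`: let `N ≠ 0` be a natural number in `m` (`absNorm m`), `b' ≥ b` such that no prime `(p)`, `p > b'`, divides `m` (e.g. `b' = max b (absNorm m)`: if `(p) ∣ m`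
then `p ∣ absNorm m`). Take `exists_inert_pair`: `[q₂] = [q₁] c`, so `χ [q₂] = -χ [q₁]`, and they are not both `1`.
(This file: exists_r.)
-/

set_option autoImplicit false

open NumberField IsDedekindDomain nonZeroDivisors IntermediateField

namespace Pool.Agent.STr

open Pool.Agent.ST
open Pool.Agent.STh.F (FD)

variable {K : Type*} [Field K] [NumberField K] [Algebra K ℝ] {σ₂ : K →+* ℝ} {m : Ideal (𝓞 K)}

omit [Algebra K ℝ] in
theorem N7_not_dvd {p : ℕ} {q : PrI K} (h : q.asIdeal = Ideal.span {(p : 𝓞 K)}) (hm : m ≠ ⊥)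
    (hp : Ideal.absNorm m < p) : ¬ q.asIdeal ∣ m := by
  intro hd
  have h1 : Ideal.absNorm q.asIdeal ∣ Ideal.absNorm m := Ideal.absNorm_dvd_absNorm_of_le (Ideal.le_of_dvd hd)
  have h2 : Ideal.absNorm q.asIdeal = p ^ Module.finrank ℤ (𝓞 K) := by
    rw [h, Ideal.absNorm_span_singleton]
    have e : ((p : ℕ) : 𝓞 K) = algebraMap ℤ (𝓞 K) (p : ℤ) := by simp
    rw [e, Algebra.norm_algebraMap, Int.natAbs_pow, Int.natAbs_natCast]
  have h3 : p ∣ Ideal.absNorm q.asIdeal := by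
    rw [h2]
    exact dvd_pow_self p (Module.finrank_pos (R := ℤ) (M := 𝓞 K)).ne'
  have h4 : Ideal.absNorm m ≠ 0 := by
    rw [Ne, Ideal.absNorm_eq_zero_iff]; exact hm
  exact absurd (Nat.le_of_dvd (Nat.pos_of_ne_zero h4) (h3.trans h1)) (not_le.2 hp)

theorem exists_r {d : ℕ} {a : 𝓞 K} (D : FD σ₂ d a) (hm : m ≠ ⊥) {c : RayClassGroup σ₂ m} (hc : IsC σ₂ m c)
    {χ : RayClassGroup σ₂ m →* ℂˣ} (hχ : χ c = -1) (b : ℕ) :
    ∃ (r : ℕ) (q : PrI K) (hq : ¬ q.asIdeal ∣ m), r.Prime ∧ b < r ∧ q.asIdeal = Ideal.span {(r : 𝓞 K)} ∧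
      χ (cls σ₂ m (prJ m q hq)) ≠ 1 := by
  have hN : Ideal.absNorm m ≠ 0 := by
    rw [Ne, Ideal.absNorm_eq_zero_iff]; exact hm
  obtain ⟨p₁, p₂, q₁, q₂, hp₁, hp₂, hb₁, hb₂, h1, h2, hd⟩ := exists_inert_pair D hN (max b (Ideal.absNorm m))
  have hq₁ : ¬ q₁.asIdeal ∣ m := N7_not_dvd h1 hm (lt_of_le_of_lt (le_max_right _ _) hb₁)
  have hq₂ : ¬ q₂.asIdeal ∣ m := N7_not_dvd h2 hm (lt_of_le_of_lt (le_max_right _ _) hb₂)
  have hmem : ((p₁ : 𝓞 K) + p₂) ∈ m := by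
    obtain ⟨k, hk⟩ := hd
    have : ((p₁ : 𝓞 K) + p₂) = (Ideal.absNorm m : 𝓞 K) * k := by
      rw [← Nat.cast_add, hk, Nat.cast_mul]
    rw [this]
    exact m.mul_mem_right _ (Ideal.absNorm_mem m)
  have key := cls_pair h1 h2 hp₁.ne_zero hp₂.ne_zero hq₁ hq₂ hmem hc
  by_cases h : χ (cls σ₂ m (prJ m q₁ hq₁)) = 1
  · refine ⟨p₂, q₂, hq₂, hp₂, lt_of_le_of_lt (le_max_left _ _) hb₂, h2, ?_⟩
    rw [key, map_mul, h, hχ, one_mul]
    intro h'
    have h'' := congrArg (fun u : ℂˣ => (u : ℂ)) h'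
    simp only [Units.val_neg, Units.val_one] at h''
    norm_num at h''
  · exact ⟨p₁, q₁, hq₁, hp₁, lt_of_le_of_lt (le_max_left _ _) hb₁, h1, h⟩

end Pool.Agent.STr
end
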