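import Pool.Agent.Lib.MP_1ef7cf_nt_r.Mg.G006
import Pool.Agent.Lib.MP_1ef7cf_nt_r.Bb8
import Pool.Agent.Lib.MP_1ef7cf_nt_r.Mg.G008
import Pool.Agent.Lib.MP_1ef7cf_nt_r.Mg.G016
import Pool.Agent.Lib.MP_1ef7cf_nt_g.Mg.G025
import Pool.Agent.Lib.MP_1ef7cf_nt_r.Mg.G019
import Pool.Agent.Lib.MP_1ef7cf_nt_r.Mg.G020
import Pool.Agent.Lib.MP_1ef7cf_nt_r.V4
import Pool.Agent.Lib.MP_1ef7cf_nt_r.Mg.G017
import Pool.Agent.Lib.MP_1ef7cf_nt_r.Mg.G021
import Pool.Agent.Lib.MP_1ef7cf_nt_r.Mg.G001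
import Pool.Agent.Lib.MP_1ef7cf_nt_r.A4

section

/-!
# TASK Bb9: `√a` is in the ray class field ((9.2) of the paper)

PROOF. Let `d = d₀ x ^ 2`, `a = x a₀` (`FD.mulSq`, Fd). Suppose `√a ∉ H`. `exists_bad_prime` (Bb8), `B` = primes containing `2 d`, or `Q`: `q`, `p = pn q` prime, `[q] = 1`, `chiP a q = -1`. `[q] = 1`: `q = (α)` for some `α ∈ K` with `OneMod m α`, `0 < σ₂ α` (equality in `primeTo / ray`); since `(α)` is the integral ideal `q`,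
`α ∈ 𝓞 K`, and `OneMod` for an algebraic integer gives `α - 1 ∈ m` (`α = u / v`, `(v)` prime to `m`, `u - v ∈ m`: `v (α - 1) ∈ m`; cf. `int_of_coe_eq`, `oneMod_int` in the library; N1 `norm_cls` uses the same fact). So `α - 1 = Q ^ 3 z`, `z ∈ 𝓞 K` (`m ≤ (Q) ^ 3`), `2 z = u + v a₀` (`FD.coords`),
`2 x (α - 1) = Q ^ 3 (x u + v a)`; `Q` is even and divisible by `x`, so `α = X + Y a` with integers `X = 1 + (Q / 2) Q ^ 2 u`, `Y = (Q / 2) (Q / x) Q v`, and `64 d ∣ Q` divides `X - 1` and `Y`. `Norm α = X ^ 2 - d Y ^ 2` (`norm_real`, `FD.alg`, `FD.sig`) is `± p` (`absNorm (α) = |Norm α|`: `absNorm_nat`).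
`0 < σ₂ α = X - Y √d`. If `Norm α = p > 0`: also `X + Y √d > 0`, so `X > 0`. If `Norm α = -p`: `X + Y √d < 0 < X - Y √d`, so `Y < 0`. `sym_one` (Bb7): `p ∣ Z ^ 2 + X Y`. Modulo `q`: `Y a ≡ -X`, so `Y ^ 2 a ≡ - X Y ≡ Z ^ 2`. `Y ∉ q` (otherwise `X ∈ q`, and `p ∣ X, Y`, `p ^ 2 ∣ p`), so `a` is a square modulo `q`
(`𝓞 K / q` is a field; `chiP a q = 1`): contradiction.
-/

set_option autoImplicit false

open NumberField IsDedekindDomain nonZeroDivisors IntermediateField Filter Topology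

namespace Pool.Agent.STr

open Pool.Agent.ST
open Pool.Agent.STh.F (FD se chiP)

variable {K : Type*} [Field K] [NumberField K] [Algebra K ℝ] {σ₂ : K →+* ℝ} {m : Ideal (𝓞 K)}

theorem se_mem_H {d₀ x Q : ℕ} {a₀ : 𝓞 K} (D₀ : FD σ₂ d₀ a₀) (hd₀ : Squarefree d₀) (hx : x ≠ 0) (hQ : Q ≠ 0)
    (hxQ : x ∣ Q) (hdQ : 64 * (d₀ * x ^ 2) ∣ Q) (hm : m ≠ ⊥) (hmQ : m ≤ Ideal.span {(Q : 𝓞 K)} ^ 3)
    {H : IntermediateField K ℝ} {Art : RayClassGroup σ₂ m ≃* (H ≃ₐ[K] H)} (hr : IsRayClassField σ₂ m H Art) :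
    se ((x : 𝓞 K) * a₀) ∈ H := by
  by_contra hse
  have D := FD.mulSq D₀ hx
  set d : ℕ := d₀ * x ^ 2 with hd
  have hd0 : d ≠ 0 := D.d_pos.ne'
  obtain ⟨q, hq, -, hpp, hcls, hchi⟩ := exists_bad_prime D hm hr hse Set.finite_empty
  rw [cls_eq_one_iff] at hcls
  obtain ⟨α, hα, hpos, hJ⟩ := hcls
  rw [coe_prJ] at hJ
  obtain ⟨al, hal, hal1, hqal⟩ := int_of_coe_eq hα hJ
  have h3 := hmQ hal1
  rw [Ideal.span_singleton_pow] at h3
  obtain ⟨z, hz⟩ := Ideal.mem_span_singleton'.1 h3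
  obtain ⟨u, v, huv⟩ := FD.coords D₀ hd₀ z
  obtain ⟨w, hw⟩ := hdQ
  obtain ⟨y, hy⟩ := hxQ
  set X : ℤ := 1 + (32 * d * w) * Q ^ 2 * u with hX
  set Y : ℤ := (32 * d * w) * Q * y * v with hY
  have hXd : (64 * d : ℤ) ∣ X - 1 := by
    refine ⟨w * (32 * d * w) * Q * u, ?_⟩
    rw [hX]
    have : (Q : ℤ) = 64 * d * w := by exact_mod_cast hw
    calc (1 + (32 * d * w) * (Q : ℤ) ^ 2 * u) - 1 = (32 * d * w) * Q * u * Q := by ring
      _ = (32 * d * w) * Q * u * (64 * d * w) := by rw [← this]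
      _ = _ := by ring
  have hYd : (64 * d : ℤ) ∣ Y := by
    refine ⟨w * (32 * d * w) * y * v, ?_⟩
    rw [hY]
    have : (Q : ℤ) = 64 * d * w := by exact_mod_cast hw
    calc (32 * d * w) * (Q : ℤ) * y * v = (32 * d * w) * y * v * Q := by ring
      _ = (32 * d * w) * y * v * (64 * d * w) := by rw [← this]
      _ = _ := by ring
  have halXY : al = (X : 𝓞 K) + (Y : 𝓞 K) * ((x : 𝓞 K) * a₀) := by
    have hQ2 : (Q : 𝓞 K) = 2 * (32 * d * w) := by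
      have : (Q : 𝓞 K) = ((64 * d * w : ℕ) : 𝓞 K) := by rw [hw]
      rw [this]; push_cast; ring
    have hQ3 : (Q : 𝓞 K) = x * y := by
      have : (Q : 𝓞 K) = ((x * y : ℕ) : 𝓞 K) := by rw [← hy]
      rw [this]; push_cast; ring
    have e1 : al = 1 + z * (Q : 𝓞 K) ^ 3 := by rw [hz]; ring
    have e2 : z * (Q : 𝓞 K) ^ 3 = (32 * d * w) * (Q : 𝓞 K) ^ 2 * (2 * z) := by
      calc z * (Q : 𝓞 K) ^ 3 = z * (Q : 𝓞 K) ^ 2 * Q := by ring
        _ = z * (Q : 𝓞 K) ^ 2 * (2 * (32 * d * w)) := by rw [← hQ2]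
        _ = _ := by ring
    have e3 : (32 * (d : 𝓞 K) * w) * (Q : 𝓞 K) ^ 2 * (v * a₀) =
        (32 * d * w) * Q * y * v * (x * a₀) := by
      calc (32 * (d : 𝓞 K) * w) * (Q : 𝓞 K) ^ 2 * (v * a₀) =
          (32 * (d : 𝓞 K) * w) * (Q : 𝓞 K) * (v * a₀) * Q := by ring
        _ = (32 * (d : 𝓞 K) * w) * (Q : 𝓞 K) * (v * a₀) * (x * y) := by rw [← hQ3]
        _ = _ := by ring
    rw [e1, e2, huv, mul_add, e3, hX, hY]
    push_cast
    ring
  -- the norm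
  have hs : (Real.sqrt d) ^ 2 = (d : ℝ) := Real.sq_sqrt (Nat.cast_nonneg _)
  have hsd : 0 < Real.sqrt d := Real.sqrt_pos.2 (by exact_mod_cast D.d_pos)
  have hco : (al : K) = (X : K) + (Y : K) * (((x : 𝓞 K) * a₀ : 𝓞 K) : K) := by
    rw [halXY]
    change algebraMap (𝓞 K) K _ = (X : K) + (Y : K) * algebraMap (𝓞 K) K _
    rw [map_add, map_mul, map_intCast, map_intCast]
  have e1 : algebraMap K ℝ (al : K) = (X : ℝ) + Y * Real.sqrt d := by
    rw [hco, map_add, map_mul, map_intCast, map_intCast, D.alg]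
  have e2 : σ₂ (al : K) = (X : ℝ) - Y * Real.sqrt d := by
    rw [hco, map_add, map_mul, map_intCast, map_intCast, D.sig]
    ring
  have hnorm : Algebra.norm ℤ al = X ^ 2 - d * Y ^ 2 := by
    have h := STh.F.norm_real D al
    rw [e1, e2] at h
    have h' : ((Algebra.norm ℤ al : ℤ) : ℝ) = ((X ^ 2 - d * Y ^ 2 : ℤ) : ℝ) := by
      rw [h]
      push_cast
      linear_combination (-(Y : ℝ) ^ 2) * hs
    exact_mod_cast h'
  have hpos' : 0 < (X : ℝ) - Y * Real.sqrt d := by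
    rw [← e2, hal]; exact hpos
  set p : ℕ := pn q with hp
  have hpn : p = (X ^ 2 - d * Y ^ 2).natAbs := by
    rw [hp, pn, hqal, STh.F.absNorm_nat, hnorm]
  have hprod : ((X : ℝ) - Y * Real.sqrt d) * ((X : ℝ) + Y * Real.sqrt d) =
      ((X ^ 2 - d * Y ^ 2 : ℤ) : ℝ) := by
    push_cast
    linear_combination (-(Y : ℝ) ^ 2) * hs
  have hp0 : (0 : ℝ) < p := by exact_mod_cast hpp.pos
  have hcase : X ^ 2 - d * Y ^ 2 = p ∧ 0 < X ∨ X ^ 2 - d * Y ^ 2 = -p ∧ Y < 0 := by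
    rcases Int.natAbs_eq (X ^ 2 - d * Y ^ 2) with h | h
    · left
      rw [← hpn] at h
      refine ⟨h, ?_⟩
      rw [h] at hprod
      have h5 : 0 < ((X : ℝ) - Y * Real.sqrt d) * ((X : ℝ) + Y * Real.sqrt d) := by
        rw [hprod]; exact_mod_cast hpp.pos
      have h6 : 0 < (X : ℝ) + Y * Real.sqrt d := by
        by_contra h7
        push Not at h7
        have := mul_nonpos_of_nonneg_of_nonpos hpos'.le h7
        linarith
      have : (0 : ℝ) < X := by linarith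
      exact_mod_cast this
    · right
      rw [← hpn] at h
      refine ⟨h, ?_⟩
      rw [h] at hprod
      have h5 : ((X : ℝ) - Y * Real.sqrt d) * ((X : ℝ) + Y * Real.sqrt d) < 0 := by
        rw [hprod]; push_cast; linarith
      have h6 : (X : ℝ) + Y * Real.sqrt d < 0 := by
        by_contra h7
        push Not at h7
        have := mul_nonneg hpos'.le h7
        linarith
      have h7 : (Y : ℝ) * Real.sqrt d < 0 := by linarith
      have h8 : (Y : ℝ) < 0 := by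
        by_contra h9
        push Not at h9
        have := mul_nonneg h9 hsd.le
        linarith
      exact_mod_cast h8
  obtain ⟨Z, hZ⟩ := sym_one hd0 hpp hXd hYd hcase
  have hpq : (p : 𝓞 K) ∈ q.asIdeal := by
    rw [hp]
    exact Ideal.absNorm_mem _
  have halq : al ∈ q.asIdeal := by
    rw [hqal]
    exact Ideal.mem_span_singleton_self _
  have hint : ∀ t : ℤ, (t : 𝓞 K) ∈ q.asIdeal → (p : ℤ) ∣ t := by
    intro t ht
    by_contra hnd
    have hc : IsCoprime (p : ℤ) t := (Nat.prime_iff_prime_int.1 hpp).coprime_iff_not_dvd.2 hnd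
    obtain ⟨r, s, hrs⟩ := hc
    apply q.isPrime.ne_top
    rw [Ideal.eq_top_iff_one]
    have h1 : (1 : 𝓞 K) = (r : 𝓞 K) * p + (s : 𝓞 K) * t := by
      exact_mod_cast (congrArg (Int.cast : ℤ → 𝓞 K) hrs).symm
    rw [h1]
    exact Ideal.add_mem _ (Ideal.mul_mem_left _ _ hpq) (Ideal.mul_mem_left _ _ ht)
  have hYp : ¬ (p : ℤ) ∣ Y := by
    intro hYp
    have hYq : (Y : 𝓞 K) ∈ q.asIdeal := by
      obtain ⟨t, ht⟩ := hYp
      rw [ht]
      push_cast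
      exact Ideal.mul_mem_right _ _ hpq
    have hXq : (X : 𝓞 K) ∈ q.asIdeal := by
      have h1 : (X : 𝓞 K) = al - (Y : 𝓞 K) * ((x : 𝓞 K) * a₀) := by rw [halXY]; ring
      rw [h1]
      exact Ideal.sub_mem _ halq (Ideal.mul_mem_right _ _ hYq)
    obtain ⟨s, hs'⟩ := hint X hXq
    obtain ⟨t, ht⟩ := hYp
    have h1 : (p : ℤ) * p ∣ X ^ 2 - d * Y ^ 2 := by
      rw [hs', ht]
      exact ⟨s ^ 2 - d * t ^ 2, by ring⟩
    have h2 : (p : ℤ) * p ∣ p := by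
      rcases hcase with ⟨h3, -⟩ | ⟨h3, -⟩
      · rwa [h3] at h1
      · rwa [h3, dvd_neg] at h1
    have h3 : p * p ∣ p := by exact_mod_cast h2
    have h4 := Nat.le_of_dvd hpp.pos h3
    nlinarith [hpp.two_le]
  have hc : IsCoprime (p : ℤ) Y := (Nat.prime_iff_prime_int.1 hpp).coprime_iff_not_dvd.2 hYp
  obtain ⟨r, s, hrs⟩ := hc
  have hsq : IsSquare (Ideal.Quotient.mk q.asIdeal ((x : 𝓞 K) * a₀)) := by
    refine ⟨Ideal.Quotient.mk q.asIdeal ((s : 𝓞 K) * Z), ?_⟩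
    rw [← map_mul, Ideal.Quotient.eq]
    obtain ⟨t, ht⟩ := hZ
    have h1 : (r : 𝓞 K) * p + (s : 𝓞 K) * Y = 1 := by exact_mod_cast congrArg (Int.cast : ℤ → 𝓞 K) hrs
    have h2 : (Z : 𝓞 K) ^ 2 + X * Y = p * t := by exact_mod_cast congrArg (Int.cast : ℤ → 𝓞 K) ht
    have h3 : (x : 𝓞 K) * a₀ - (s : 𝓞 K) * Z * ((s : 𝓞 K) * Z) =
        (p : 𝓞 K) * ((x : 𝓞 K) * a₀ * (r * (1 + s * Y)) - s ^ 2 * t) + al * (s ^ 2 * Y) := by
      rw [halXY]
      linear_combination (-(x : 𝓞 K) * a₀ * (1 + s * Y)) * h1 - (s : 𝓞 K) ^ 2 * h2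
    rw [h3]
    exact Ideal.add_mem _ (Ideal.mul_mem_right _ _ hpq) (Ideal.mul_mem_right _ _ halq)
  rw [chiP, if_pos hsq] at hchi
  norm_num at hchi

end Pool.Agent.STr
end

section

/-!
# TASK N5: orders of norm type characters ((6.1), (6.2) of the paper)

PROOF. `NT.dvd`: `ω ^ (orderOf ω₀)` is `NT N 1`, so it is trivial (`exists_int`).
`NT.order_wild`: `≤` by `NT.dvd`. If `ω ^ j = 1`: for every unit `x₀` modulo `r ^ t` let `x` be a positive integer with `x ≡ x₀ mod r ^ t`,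
`x ≡ 1` modulo `c`, `c` a positive integer in `m` prime to `r` (exists: `(r)` and `m` are coprime: `c` = the prime-to-`r` part of `absNorm m`... the
norm of `m` is in `m`; if `r` divided it, ... simpler: `u r + v = 1` with `v ∈ m`, `v v' ∈ ℤ ∩ m` is prime to `r`). The ideal `(x)` is prime to `M`, its
norm is `x ^ 2`, and its class is `ω`-mapped to `ω₀ (x₀) ^ 2`. So `ω₀ ^ (2 j) = 1`, and the order of `ω₀` is a power of the odd prime `r`, so
`ω₀ ^ j = 1`.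
`NT.order_tame`: let `g` generate... : suppose `ω g ^ j = 1` for all `g` in the kernel of `pr : C_M → C_(M₀)`, `M = M₀ p`. Let `c₀` be a unit modulo `p`. There are
integers `x`, `y` with `x ^ 2 - d y ^ 2 ≡ c₀ mod p` (`ZMod`: `p` odd (`p ∤ 2 d`), the sets `{x ^ 2}` and `{c₀ + d y ^ 2}` have `(p + 1) / 2` elements each;
Mathlib: `FiniteField.exists_root_sum_quadratic` or `ZMod.sq_add_sq`-like). Choose `α ∈ 𝓞 K`, `α ≡ x + y a mod p`, `α ≡ 1 mod M₀`, `0 < σ₂ α` (Chinese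
remainder, then add a large positive integer multiple of an integer in `M₀ p`). The class of `(α)` in `C_M` is in the kernel of `pr` (it is trivial in
`C_(M₀)`), `absNorm (α) = |Norm α|`, `Norm α ≡ x ^ 2 - d y ^ 2 ≡ c₀ mod p` (`norm_congr`, `Norm (x + y a) = x ^ 2 - d y ^ 2` by `norm_real`,
`FD.alg`, `FD.sig`), so `ω ([(α)]) = ω₀ (± c₀) = ω₀ c₀`. Hence `ω₀ ^ j = 1`.
(This file: NT.order_tame.)
-/

set_option autoImplicit false

open NumberField IsDedekindDomain nonZeroDivisors IntermediateField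

namespace Pool.Agent.STr

open Pool.Agent.ST
open Pool.Agent.STh.F (FD)

variable {K : Type*} [Field K] [NumberField K] [Algebra K ℝ] {σ₂ : K →+* ℝ} {N : ℕ} {M : Ideal (𝓞 K)}

omit [Algebra K ℝ] in
private lemma N5_zmod {p : ℕ} (hp : p.Prime) (d : ℕ) (hpd : ¬ p ∣ 2 * d) (c : ZMod p) :
    ∃ x y : ℕ, (((x : ℤ) ^ 2 - d * (y : ℤ) ^ 2 : ℤ) : ZMod p) = c := by
  classical
  have : Fact p.Prime := ⟨hp⟩
  have hp2 : p ≠ 2 := by
    rintro rfl
    exact hpd (dvd_mul_right _ _)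
  have hd : ((d : ℕ) : ZMod p) ≠ 0 := by
    intro h0
    rw [ZMod.natCast_eq_zero_iff] at h0
    exact hpd (h0.mul_left 2)
  have hodd : Fintype.card (ZMod p) % 2 = 1 := by
    rw [ZMod.card]
    exact (hp.eq_two_or_odd).resolve_left hp2
  have hf : Polynomial.degree (Polynomial.X ^ 2 - Polynomial.C c : Polynomial (ZMod p)) = 2 :=
    Polynomial.degree_X_pow_sub_C (by decide) _
  have hg : Polynomial.degree (Polynomial.C (-(d : ZMod p)) * Polynomial.X ^ 2 : Polynomial (ZMod p)) = 2 :=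
    Polynomial.degree_C_mul_X_pow 2 (neg_ne_zero.2 hd)
  obtain ⟨x, y, hxy⟩ := FiniteField.exists_root_sum_quadratic hf hg hodd
  refine ⟨x.val, y.val, ?_⟩
  simp only [Polynomial.eval_sub, Polynomial.eval_pow, Polynomial.eval_X, Polynomial.eval_C,
    Polynomial.eval_mul] at hxy
  push_cast
  rw [ZMod.natCast_zmod_val, ZMod.natCast_zmod_val]
  linear_combination hxy

theorem NT.order_tame {d : ℕ} {a : 𝓞 K} (D : FD σ₂ d a) {p : ℕ} (hp : p.Prime) (hpd : ¬ p ∣ 2 * d)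
    {M₀ : Ideal (𝓞 K)} (hM₀ : M₀ ≠ ⊥) (hpM : IsCoprime (Ideal.span {(p : 𝓞 K)}) M₀)
    (hle : M₀ * Ideal.span {(p : 𝓞 K)} ≤ M₀) [Finite (RayClassGroup σ₂ (M₀ * Ideal.span {(p : 𝓞 K)}))]
    {ω₀ : (ZMod p)ˣ →* ℂˣ} (h1 : ω₀ (-1) = 1)
    {ω : RayClassGroup σ₂ (M₀ * Ideal.span {(p : 𝓞 K)}) →* ℂˣ} (h : NT p ω₀ ω) (j : ℕ)
    (hj : ∀ g, pr σ₂ hle g = 1 → ω g ^ j = 1) : ω₀ ^ j = 1 := by
  classical
  have : Fact p.Prime := ⟨hp⟩
  refine MonoidHom.ext fun c₀ => ?_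
  rw [MonoidHom.pow_apply, MonoidHom.one_apply]
  obtain ⟨x, y, hxy⟩ := N5_zmod hp d hpd (c₀ : ZMod p)
  have hp0 : (p : 𝓞 K) ≠ 0 := by exact_mod_cast hp.ne_zero
  have hsp : Ideal.span {(p : 𝓞 K)} ≠ ⊥ := by
    rw [Ne, Ideal.span_singleton_eq_bot]; exact hp0
  have hM : M₀ * Ideal.span {(p : 𝓞 K)} ≠ ⊥ := by
    rw [← Ideal.zero_eq_bot] at hM₀ hsp ⊢
    exact mul_ne_zero hM₀ hsp
  obtain ⟨u, hu, v, hv, huv⟩ := Ideal.isCoprime_iff_exists.1 hpM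
  set β : 𝓞 K := (x : 𝓞 K) + (y : 𝓞 K) * a with hβ
  obtain ⟨z, hz, hzpos⟩ := exists_pos σ₂ hM (u + v * β)
  have hz0 : z ≠ 0 := ne_zero_of_pos hzpos
  have hzM : z - 1 ∈ M₀ := by
    have e : z - 1 = (z - (u + v * β)) + v * (β - 1) := by linear_combination huv
    rw [e]
    exact M₀.add_mem (hle hz) (M₀.mul_mem_right _ hv)
  have hzp : z - β ∈ Ideal.span {(p : 𝓞 K)} := by
    have e : z - β = (z - (u + v * β)) + u * (1 - β) := by linear_combination β * huv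
    rw [e]
    exact Ideal.add_mem _ (Ideal.mul_le_right hz) (Ideal.mul_mem_right _ _ hu)
  have hnorm := norm_congr D.deg hzp
  have hnβ : Algebra.norm ℤ β = (x : ℤ) ^ 2 - d * (y : ℤ) ^ 2 := by
    have e := Pool.Agent.STh.F.norm_real D β
    have e1 : ((β : 𝓞 K) : K) = (x : K) + (y : K) * (a : K) := by
      rw [hβ]; push_cast; rfl
    have e2 : algebraMap K ℝ ((β : 𝓞 K) : K) = (x : ℝ) + (y : ℝ) * Real.sqrt d := by
      rw [e1, map_add, map_mul, map_natCast, map_natCast, D.alg]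
    have e3 : σ₂ ((β : 𝓞 K) : K) = (x : ℝ) + (y : ℝ) * (-Real.sqrt d) := by
      rw [e1, map_add, map_mul, map_natCast, map_natCast, D.sig]
    have h2 : Real.sqrt d * Real.sqrt d = (d : ℝ) := Real.mul_self_sqrt (Nat.cast_nonneg d)
    rw [e2, e3] at e
    apply Int.cast_injective (α := ℝ)
    rw [e]
    push_cast
    linear_combination -((y : ℝ) ^ 2) * h2
  have hnz : ((Algebra.norm ℤ z : ℤ) : ZMod p) = (c₀ : ZMod p) := by
    rw [hnβ] at hnorm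
    rw [← hxy]
    have h3 := (ZMod.intCast_zmod_eq_zero_iff_dvd _ p).2 hnorm
    rw [Int.cast_sub, sub_eq_zero] at h3
    exact h3
  have hab : Ideal.absNorm (Ideal.span {z}) = (Algebra.norm ℤ z).natAbs := Ideal.absNorm_span_singleton z
  have hcast : ((Ideal.absNorm (Ideal.span {z}) : ℕ) : ZMod p) = (c₀ : ZMod p) ∨
      ((Ideal.absNorm (Ideal.span {z}) : ℕ) : ZMod p) = -(c₀ : ZMod p) := by
    rw [hab]
    rcases Int.natAbs_eq (Algebra.norm ℤ z) with h4 | h4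
    · left
      rw [← hnz]
      conv_rhs => rw [h4]
      rw [Int.cast_natCast]
    · right
      rw [← hnz]
      conv_rhs => rw [h4]
      rw [Int.cast_neg, Int.cast_natCast, neg_neg]
  have hcop : (Ideal.absNorm (Ideal.span {z})).Coprime p := by
    rw [Nat.coprime_comm, hp.coprime_iff_not_dvd]
    intro h5
    rw [← ZMod.natCast_eq_zero_iff] at h5
    rcases hcast with h6 | h6
    · rw [h5] at h6
      exact c₀.ne_zero h6.symm
    · rw [h5] at h6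
      exact c₀.ne_zero (neg_eq_zero.1 h6.symm)
  have hcopI : IsCoprime (Ideal.span {z}) (M₀ * Ideal.span {(p : 𝓞 K)}) := by
    apply IsCoprime.mul_right (coprime_span_of_sub_one_mem hzM)
    rw [Ideal.isCoprime_iff_exists]
    obtain ⟨s, t, hst⟩ := Nat.isCoprime_iff_coprime.2 hcop
    refine ⟨(s : 𝓞 K) * (Ideal.absNorm (Ideal.span {z}) : 𝓞 K), Ideal.mul_mem_left _ _ (Ideal.absNorm_mem _),
      (t : 𝓞 K) * (p : 𝓞 K), Ideal.mul_mem_left _ _ (Ideal.mem_span_singleton_self _), ?_⟩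
    have h7 := congrArg (Int.cast : ℤ → 𝓞 K) hst
    push_cast at h7
    exact h7
  have hzK : (z : K) ≠ 0 := coe_ne_zero' hz0
  set J : primeTo (K := K) (M₀ * Ideal.span {(p : 𝓞 K)}) :=
    ⟨uP (z : K) hzK, coe_mem_primeTo (I := Ideal.span {z}) (by rw [coe_uP, coe_span_singleton]) hcopI⟩ with hJ
  have hJ1 : ((J : (FI K)ˣ) : FI K) = ((Ideal.span {z} : Ideal (𝓞 K)) : FI K) := by
    exact (coe_span_singleton z).symm
  have hg : pr σ₂ hle (cls σ₂ _ J) = 1 := by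
    rw [pr_cls, cls_eq_one_iff, coe_inc]
    exact ⟨(z : K), oneMod_of_sub_one_mem hzM, hzpos, rfl⟩
  have h8 := hj _ hg
  rw [h (Ideal.span {z}) J hcop hJ1] at h8
  rw [← h8]
  congr 1
  rcases hcast with h9 | h9
  · congr 1
    apply Units.ext
    rw [ZMod.coe_unitOfCoprime, h9]
  · have h10 : ZMod.unitOfCoprime _ hcop = (-1) * c₀ := by
      apply Units.ext
      rw [ZMod.coe_unitOfCoprime, h9, Units.val_mul, Units.val_neg, Units.val_one, neg_one_mul]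
    rw [h10, map_mul, h1, one_mul]

end Pool.Agent.STr
end

section

/-!
# TASK I4: `ε(A)` is a unit

PROOF. Let `w` be a prime of `L.H`, `r` the rational prime in `w`. Take `N = absNorm m` (in `m`, nonzero) and an inert pair `p₁`, `p₂` with
`N ∣ p₁ + p₂`, both larger than `r` and `N` (`exists_inert_pair`, `exists_FD`); so `p_i ∉ w` and `(p_i)` does not divide `m`. Let `c` be a class with `IsC`
(`exists_isC`). By `cls_pair` `[q₂] = [q₁] c`. `c * c = 1` is not needed: `Hy.Lz_c` gives `ev (B c) = (ev B)⁻¹`, and with `B' = B c⁻¹`: `ev (B c⁻¹) = (ev B)⁻¹` as well.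
By `val_eq` for `p₂` and `p₁`: `v(ev A) = v(ev (A [q₂]⁻¹)) = v(ev (A [q₁]⁻¹ c⁻¹)) = v(ev (A [q₁]⁻¹))⁻¹ = v(ev A)⁻¹`, so `v(ev A) = 1` (the values are in
`ℤᵐ⁰`, and nonzero). All valuations of `ev A ∈ L.H` are `1`, so `ev A` and its inverse are integral (`HeightOneSpectrum.mem_integers_of_valuation_le_one`
or `val`-lemmas of `MP_1ef7cf_nt_b/Val.lean`).
`Lz_mem`: the definition of `Lam`, `isUn_ev` and `Lv.act_pos`.
-/

set_option autoImplicit false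

open NumberField IsDedekindDomain nonZeroDivisors IntermediateField

namespace Pool.Agent.STr

open Pool.Agent.ST
open Pool.Agent.STc (IsInt rd IsUn)

variable {K : Type*} [Field K] [NumberField K] [Algebra K ℝ] {σ₂ : K →+* ℝ} {n m : Ideal (𝓞 K)}

private lemma I4_notMem {M : Type*} [Field M] [NumberField M] (P : HeightOneSpectrum (𝓞 M)) {a b : ℕ}
    (hab : Nat.Coprime a b) (ha : (a : 𝓞 M) ∈ P.asIdeal) : (b : 𝓞 M) ∉ P.asIdeal := by
  intro hb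
  have h1 : IsCoprime (a : ℤ) (b : ℤ) := Nat.isCoprime_iff_coprime.2 hab
  obtain ⟨u, v, huv⟩ := h1
  have h2 : ((u : ℤ) : 𝓞 M) * (a : 𝓞 M) + ((v : ℤ) : 𝓞 M) * (b : 𝓞 M) = 1 := by
    have := congrArg (fun t : ℤ => (t : 𝓞 M)) huv
    push_cast at this
    exact this
  apply P.isPrime.ne_top
  rw [Ideal.eq_top_iff_one, ← h2]
  exact P.asIdeal.add_mem (P.asIdeal.mul_mem_left _ ha) (P.asIdeal.mul_mem_left _ hb)

private lemma I4_one {v : WithZero (Multiplicative ℤ)} (h0 : v ≠ 0) (h : v = v⁻¹) : v = 1 := by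
  have h1 : v * v = 1 := by
    nth_rewrite 2 [h]
    exact mul_inv_cancel₀ h0
  have h2 : WithZero.log v + WithZero.log v = 0 := by
    rw [← WithZero.log_mul h0 h0, h1, WithZero.log_one]
  have h3 : WithZero.log v = 0 := by omega
  rw [← WithZero.exp_log h0, h3, WithZero.exp_zero]

private lemma I4_val (hy : Hy σ₂ n) (hm : m ≠ ⊥) (hnm : n ∣ m) (L : Lv σ₂ m) [NumberField L.H] (w : PrI L.H)
    (A : RayClassGroup σ₂ m) : w.valuation L.H ⟨ev σ₂ m A, L.mem A⟩ = 1 := by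
  obtain ⟨d, a, D, -⟩ := exists_FD hy.h2 hy.hσ
  have hN : Ideal.absNorm m ≠ 0 := by
    intro h
    exact hm (Ideal.absNorm_eq_zero_iff.1 h)
  have hNm : ((Ideal.absNorm m : ℕ) : 𝓞 K) ∈ m := Ideal.absNorm_mem m
  have hW : Ideal.absNorm w.asIdeal ≠ 0 := by
    intro h
    exact w.ne_bot (Ideal.absNorm_eq_zero_iff.1 h)
  have hWm : ((Ideal.absNorm w.asIdeal : ℕ) : 𝓞 L.H) ∈ w.asIdeal := Ideal.absNorm_mem w.asIdeal
  obtain ⟨p₁, p₂, q₁, q₂, hp₁, hp₂, hb₁, hb₂, e₁, e₂, hdiv⟩ :=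
    exists_inert_pair D hN (max (Ideal.absNorm m) (Ideal.absNorm w.asIdeal))
  obtain ⟨c, hc⟩ := exists_isC (σ₂ := σ₂) hm
  have key : ∀ {p : ℕ} {q : PrI K}, p.Prime → max (Ideal.absNorm m) (Ideal.absNorm w.asIdeal) < p →
      q.asIdeal = Ideal.span {(p : 𝓞 K)} → ¬ q.asIdeal ∣ m ∧ (p : 𝓞 L.H) ∉ w.asIdeal := by
    intro p q hp hb he
    constructor
    · intro hd
      have h1 : m ≤ q.asIdeal := Ideal.le_of_dvd hd
      have h2 : (p : 𝓞 K) ∈ q.asIdeal := by rw [he]; exact Ideal.mem_span_singleton_self _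
      refine I4_notMem q (a := Ideal.absNorm m) ?_ (h1 hNm) h2
      rw [Nat.coprime_comm, Nat.Prime.coprime_iff_not_dvd hp]
      intro h3
      have := Nat.le_of_dvd (Nat.pos_of_ne_zero hN) h3
      have := le_max_left (Ideal.absNorm m) (Ideal.absNorm w.asIdeal)
      omega
    · apply I4_notMem w (a := Ideal.absNorm w.asIdeal) _ hWm
      rw [Nat.coprime_comm, Nat.Prime.coprime_iff_not_dvd hp]
      intro h3
      have := Nat.le_of_dvd (Nat.pos_of_ne_zero hW) h3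
      have := le_max_right (Ideal.absNorm m) (Ideal.absNorm w.asIdeal)
      omega
  obtain ⟨hq₁, hw₁⟩ := key hp₁ hb₁ e₁
  obtain ⟨hq₂, hw₂⟩ := key hp₂ hb₂ e₂
  have hsum : ((p₁ : 𝓞 K) + p₂) ∈ m := by
    obtain ⟨k, hk⟩ := hdiv
    have h1 : (p₁ : 𝓞 K) + p₂ = (Ideal.absNorm m : 𝓞 K) * (k : 𝓞 K) := by
      have := congrArg (fun t : ℕ => (t : 𝓞 K)) hk
      push_cast at this
      exact this
    rw [h1]
    exact m.mul_mem_right _ hNm
  have hcp := cls_pair e₁ e₂ hp₁.ne_zero hp₂.ne_zero hq₁ hq₂ hsum hc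
  have v₁ := val_eq hy hm hnm L w hp₁ e₁ hq₁ hw₁ A
  have v₂ := val_eq hy hm hnm L w hp₂ e₂ hq₂ hw₂ A
  have hB : A * (cls σ₂ m (prJ m q₁ hq₁))⁻¹ = A * (cls σ₂ m (prJ m q₂ hq₂))⁻¹ * c := by
    rw [hcp, mul_inv, mul_assoc, mul_assoc, inv_mul_cancel, mul_one]
  have hinv : ev σ₂ m (A * (cls σ₂ m (prJ m q₁ hq₁))⁻¹) = (ev σ₂ m (A * (cls σ₂ m (prJ m q₂ hq₂))⁻¹))⁻¹ := by
    have h1 := hy.Lz_c hm hnm hc (A * (cls σ₂ m (prJ m q₂ hq₂))⁻¹)
    rw [← hB] at h1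
    unfold ev
    rw [← Real.exp_neg]
    congr 1
    linarith
  have hel : (⟨ev σ₂ m (A * (cls σ₂ m (prJ m q₁ hq₁))⁻¹), L.mem _⟩ : L.H) =
      (⟨ev σ₂ m (A * (cls σ₂ m (prJ m q₂ hq₂))⁻¹), L.mem _⟩ : L.H)⁻¹ := by
    apply Subtype.ext
    exact hinv
  rw [hel, map_inv₀, v₂] at v₁
  have hne : (⟨ev σ₂ m A, L.mem A⟩ : L.H) ≠ 0 := by
    intro h
    exact (ev_pos (σ₂ := σ₂) (m := m) A).ne' (congrArg Subtype.val h)
  exact I4_one ((Valuation.ne_zero_iff _).2 hne) v₁.symm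

theorem isUn_ev (hy : Hy σ₂ n) (hm : m ≠ ⊥) (hnm : n ∣ m) (L : Lv σ₂ m) (A : RayClassGroup σ₂ m) :
    IsUn L.H (ev σ₂ m A) := by
  have := L.fd
  have : NumberField L.H := numberField_of_fd L.H
  have hval := fun w => I4_val hy hm hnm L w A
  have hne : ev σ₂ m A ≠ 0 := (ev_pos A).ne'
  have h1 : IsIntegral ℤ (ev σ₂ m A) := by
    obtain ⟨z, hz⟩ := HeightOneSpectrum.mem_integers_of_valuation_le_one L.H (⟨ev σ₂ m A, L.mem A⟩ : L.H)
      (fun w => (hval w).le)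
    have h2 : IsIntegral ℤ (⟨ev σ₂ m A, L.mem A⟩ : L.H) := by
      rw [← hz]; exact RingOfIntegers.isIntegral_coe z
    exact h2.map (L.H.val.restrictScalars ℤ)
  have h3 : IsIntegral ℤ ((ev σ₂ m A)⁻¹) := by
    obtain ⟨z, hz⟩ := HeightOneSpectrum.mem_integers_of_valuation_le_one L.H ((⟨ev σ₂ m A, L.mem A⟩ : L.H)⁻¹)
      (fun w => by rw [map_inv₀, hval w, inv_one])
    have h2 : IsIntegral ℤ ((⟨ev σ₂ m A, L.mem A⟩ : L.H)⁻¹) := by
      rw [← hz]; exact RingOfIntegers.isIntegral_coe z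
    exact h2.map (L.H.val.restrictScalars ℤ)
  exact ⟨⟨L.mem A, h1⟩, ⟨L.H.inv_mem (L.mem A), h3⟩, hne⟩

theorem Lz_mem (hy : Hy σ₂ n) (hm : m ≠ ⊥) (hnm : n ∣ m) (L : Lv σ₂ m) (A : RayClassGroup σ₂ m) :
    Lz σ₂ m A ∈ Lam L.H :=
  ⟨isUn_ev hy hm hnm L A, fun g => L.act_pos A g⟩

end Pool.Agent.STr
end

section

/-!
# TASK V9: Proposition 5.1 of the paper

PROOF. Let `L` be a level for `m`, `c` with `SS c (Lz m) χ ≠ 0`; by `scale_hom` (`Lam_fg`) replace `c` by a multiple with integral values on `Lam L.H` (`SS (N c) = N SS c`). Let `Z` be the finite set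
of the numbers `z * SS c (Lz m) χ`, `z` in the set of `EE_finite χ s`; `r₀` from `bound_finite`. Let `m'`, `ω`, `k`, `T` be as in the claim, `L'` a level for `m'` (`n ∣ m'`). By `ext_hom`
(`Lam_mono` with `Lv.le`, `Lam_sat`, `Lam_fg`) there is `c'` with `c' = c` on `Lam L.H` and integral values on `Lam L'.H`. The values `Lz m A` are in `Lam L.H` and `Lz m' B` in `Lam L'.H`
(`Lz_mem`). So there is `F : C_m' → ℤ` with `c' (Lz m' B) = F B`. `SS c' (Lz m') (χ ∘ pr) = EE χ m' * SS c' (Lz m) χ = EE χ m' * SS c (Lz m) χ =: z ∈ Z` (`SS_pr`). `z ≠ 0`: `EE χ m' ≠ 0` by `InX_pr`. `z` is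
integral (`EE_int`, and `SS c (Lz m) χ` is a sum of roots of unity times integers). By `layer` (A3) with `F` and `χ ∘ pr` (for `i ∈ T` and `η`: `∑ ((χ∘pr) η)(g)⁻¹ F g = SS c' (Lz m') (χ∘pr * η) = 0` because
it is not in `X`): `z = l ^ |T| * y`, so `|T| ≤ r₀`.
-/

set_option autoImplicit false

open NumberField IsDedekindDomain nonZeroDivisors IntermediateField

namespace Pool.Agent.STr

open Pool.Agent.ST

variable {K : Type*} [Field K] [NumberField K] [Algebra K ℝ] {σ₂ : K →+* ℝ} {n m : Ideal (𝓞 K)}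

lemma V9_intz (z : ℤ) : IsIntegral ℤ (((z : ℚ) : ℂ)) := by
  have : (((z : ℚ) : ℂ)) = algebraMap ℤ ℂ z := by simp
  rw [this]
  exact isIntegral_algebraMap

lemma V9_int {C : Type*} [CommGroup C] [Finite C] (χ : C →* ℂˣ) (B : C) :
    IsIntegral ℤ ((((χ B)⁻¹ : ℂˣ) : ℂ)) := by
  have h1 : ((((χ B)⁻¹ : ℂˣ) : ℂ)) ^ (Nat.card C) = 1 := by
    rw [← Units.val_pow_eq_pow_val, inv_pow, ← map_pow, pow_card_eq_one', map_one, inv_one, Units.val_one]
  refine IsIntegral.of_pow (Nat.card_pos (α := C)) ?_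
  rw [h1]
  exact isIntegral_one

theorem prop51 (hy : Hy σ₂ n) (hm : m ≠ ⊥) (hnm : n ∣ m) {χ : RayClassGroup σ₂ m →* ℂˣ} (hχ : InX (Lz σ₂ m) χ)
    (s : ℕ) {l : ℕ} (hl : l.Prime) :
    ∃ r₀ : ℕ, ∀ (m' : Ideal (𝓞 K)) (hle : m' ≤ m), m' ≠ ⊥ → (Nw m m').ncard ≤ s →
      InX (Lz σ₂ m') (χ.comp (pr σ₂ hle)) →
      ∀ (ω : RayClassGroup σ₂ m' →* ℂˣ) (k : ℕ), orderOf ω = l ^ k → ∀ T : Finset ℕ, T ⊆ Finset.Icc 1 k →
      (∀ i ∈ T, ∀ η ∈ Subgroup.zpowers ω, orderOf η = l ^ i →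
        ¬ InX (Lz σ₂ m') (χ.comp (pr σ₂ hle) * η)) → T.card ≤ r₀ := by
  classical
  obtain ⟨L⟩ := hy.lv m hm hnm
  have hfdL := L.fd
  have hgalL := L.gal
  have hfinm : Finite (RayClassGroup σ₂ m) := L.finite_cl
  obtain ⟨c, hc⟩ := id hχ
  obtain ⟨N, hN, hNc⟩ := scale_hom (Lam_fg (H := L.H)) c
  set c₁ : ℝ →ₗ[ℚ] ℚ := (N : ℚ) • c with hc₁def
  have hc₁ : ∀ x ∈ Lam L.H, ∃ z : ℤ, c₁ x = z := by
    intro x hx
    obtain ⟨z, hz⟩ := hNc x hx
    refine ⟨z, ?_⟩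
    rw [hc₁def, LinearMap.smul_apply, smul_eq_mul, hz]
  obtain ⟨r₀, hr₀⟩ := bound_finite hl
    ((EE_finite χ s).image (fun z => z * SS c₁ (Lz σ₂ m) χ))
  have hint₁ : IsIntegral ℤ (SS c₁ (Lz σ₂ m) χ) := by
    let _ : Fintype (RayClassGroup σ₂ m) := Fintype.ofFinite _
    unfold SS
    rw [finsum_eq_sum_of_fintype]
    refine IsIntegral.sum _ fun B _ => ?_
    obtain ⟨z, hz⟩ := hc₁ _ (Lz_mem hy hm hnm L B)
    refine IsIntegral.mul (V9_int χ B) ?_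
    rw [hz]
    exact V9_intz z
  refine ⟨r₀, fun m' hle hm' hs hX ω k hω T hT hbad => ?_⟩
  have hmm' : m ∣ m' := Ideal.dvd_iff_le.2 hle
  have hnm' : n ∣ m' := hnm.trans hmm'
  obtain ⟨L'⟩ := hy.lv m' hm' hnm'
  have hfdL' := L'.fd
  have hgalL' := L'.gal
  have hfinm' : Finite (RayClassGroup σ₂ m') := L'.finite_cl
  have hLL' : L.H ≤ L'.H := L.le L' hle hm'
  obtain ⟨c', hc', hc'z⟩ := ext_hom (Lam_mono hLL') (Lam_fg (H := L'.H))
    (fun x hx k hk hkx => Lam_sat hLL' hx hk hkx) c₁ hc₁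
  have hF : ∀ B : RayClassGroup σ₂ m', ∃ z : ℤ, c' (Lz σ₂ m' B) = z := fun B =>
    hc'z _ (Lz_mem hy hm' hnm' L' B)
  choose F hFz using hF
  let _ : Fintype (RayClassGroup σ₂ m') := Fintype.ofFinite _
  have hSS : ∀ ψ : RayClassGroup σ₂ m' →* ℂˣ, SS c' (Lz σ₂ m') ψ =
      ∑ g : RayClassGroup σ₂ m', (((ψ g)⁻¹ : ℂˣ) : ℂ) * (F g : ℂ) := by
    intro ψ
    unfold SS
    rw [finsum_eq_sum_of_fintype]
    refine Finset.sum_congr rfl fun B _ => ?_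
    rw [hFz B]
    norm_cast
  have hSSm : SS c' (Lz σ₂ m) χ = SS c₁ (Lz σ₂ m) χ := by
    unfold SS
    refine finsum_congr fun B => ?_
    rw [hc' _ (Lz_mem hy hm hnm L B)]
  have hz : SS c' (Lz σ₂ m') (χ.comp (pr σ₂ hle)) = EE χ m' * SS c₁ (Lz σ₂ m) χ := by
    rw [SS_pr hy hm hnm hm' hle c' χ, hSSm]
  have hEE : EE χ m' ≠ 0 := ((InX_pr hy hm hnm hm' hle χ).1 hX).2
  have hSS₁ : SS c₁ (Lz σ₂ m) χ ≠ 0 := by
    have : SS c₁ (Lz σ₂ m) χ = (N : ℂ) * SS c (Lz σ₂ m) χ := by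
      let _ : Fintype (RayClassGroup σ₂ m) := Fintype.ofFinite _
      unfold SS
      rw [finsum_eq_sum_of_fintype, finsum_eq_sum_of_fintype, Finset.mul_sum]
      refine Finset.sum_congr rfl fun B _ => ?_
      rw [hc₁def, LinearMap.smul_apply, smul_eq_mul]
      push_cast
      ring
    rw [this]
    exact mul_ne_zero (Nat.cast_ne_zero.2 hN) hc
  obtain ⟨y, hy1, hy2⟩ := layer F (χ.comp (pr σ₂ hle)) ω hl hω T hT (by
    intro i hi η hη ho
    have h1 := hbad i hi η hη ho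
    have h2 : SS c' (Lz σ₂ m') (χ.comp (pr σ₂ hle) * η) = 0 := by
      by_contra hne
      exact h1 ⟨c', hne⟩
    rw [hSS] at h2
    exact h2)
  rw [← hSS, hz] at hy2
  exact hr₀ _ ⟨EE χ m', ⟨m', hm', hs, rfl⟩, rfl⟩ (mul_ne_zero hEE hSS₁)
    ((EE_int hm' χ).mul hint₁) T.card y hy1 hy2

/-- the form which is used: outside of at most `r₀` layers there is a twist in `X` -/
theorem prop51' (hy : Hy σ₂ n) (hm : m ≠ ⊥) (hnm : n ∣ m) {χ : RayClassGroup σ₂ m →* ℂˣ} (hχ : InX (Lz σ₂ m) χ)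
    (s : ℕ) {l : ℕ} (hl : l.Prime) :
    ∃ r₀ : ℕ, ∀ (m' : Ideal (𝓞 K)) (hle : m' ≤ m), m' ≠ ⊥ → (Nw m m').ncard ≤ s →
      InX (Lz σ₂ m') (χ.comp (pr σ₂ hle)) →
      ∀ (ω : RayClassGroup σ₂ m' →* ℂˣ) (k : ℕ), orderOf ω = l ^ k → ∃ T : Finset ℕ, T ⊆ Finset.Icc 1 k ∧
      T.card ≤ r₀ ∧ ∀ i ∈ Finset.Icc 1 k, i ∉ T → ∃ η ∈ Subgroup.zpowers ω, orderOf η = l ^ i ∧
        InX (Lz σ₂ m') (χ.comp (pr σ₂ hle) * η) := by
  classical
  obtain ⟨r₀, hr₀⟩ := prop51 hy hm hnm hχ s hl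
  refine ⟨r₀, fun m' hle hm' hs hX ω k hω => ?_⟩
  refine ⟨(Finset.Icc 1 k).filter (fun i => ∀ η ∈ Subgroup.zpowers ω, orderOf η = l ^ i →
    ¬ InX (Lz σ₂ m') (χ.comp (pr σ₂ hle) * η)), Finset.filter_subset _ _, ?_, ?_⟩
  · exact hr₀ m' hle hm' hs hX ω k hω _ (Finset.filter_subset _ _) fun i hi => (Finset.mem_filter.1 hi).2
  · intro i hi hi'
    by_contra hcon
    apply hi'
    refine Finset.mem_filter.2 ⟨hi, fun η hη ho hX' => hcon ⟨η, hη, ho, hX'⟩⟩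

end Pool.Agent.STr
end
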