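import Pool.Agent.Lib.MP_1ef7cf_nt_r.Mg.G007
import Pool.Agent.Lib.MP_1ef7cf_nt_g.Mg.G005
import Pool.Agent.Lib.MP_1ef7cf_nt_r.Mg.G003

section

/-!
# TASK Ba7: Gauss sums

PROOF. `R = ℤ[i] / f` is finite (`quot_finite`); `χ`, `ψ` by `exists_mulChar`, `exists_addChar`; `G = gaussSum χ ψ`. For `x : ℤ[i]` put `r₀ = mk (star x)`; the sum in the claim is `S x = ∑ r, χ r * ψ (r * r₀) = gaussSum χ (ψ.mulShift r₀)` (`mk (out r) = r`; `(star x : ℂ) = conj x`).
(1) `x` prime to `Q`: then `star x` is prime to `star Q = Q`, `r₀` is a unit (`coprime_iff`), `gaussSum_mulShift`: `χ r₀ * S x = G`, `χ r₀ = κ (star x) = conj (κ x)` (`GC.st`), and `κ x * conj (κ x) = 1`. So `S x = ch x * G`.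
(2) `x` not prime to `Q`: `ch x = 0`; a Gaussian prime `π` divides `star x` and `f` (`coprime_iff`). `Cd.ram`: `u`, `f ∣ π (u - 1)`, `κ u ≠ 1`, `u` prime to `Q`; `r₀ * mk u = r₀`. Substituting `r ↦ r * mk u` (a unit): `S x = χ (mk u) * S x`, so `S x = 0`.
(3) `G ≠ 0`: otherwise `S x = 0` for all `x`, i.e. `∑ s, χ s * ψ (s * r) = 0` for all `r : R` (every `r` is `mk (star x)`). Multiply with `ψ (- r)` and sum over `r`: `∑ s, χ s * ∑ r, ψ (r * (s - 1)) = card R * χ 1` (`AddChar.sum_mulShift`), not zero. Contradiction.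
-/

set_option autoImplicit false

open Complex
open scoped ComplexConjugate

namespace Pool.Agent.STr

variable {Q : ℕ} {κ : GaussianInt → GaussianIntˣ} {f : GaussianInt}

private lemma Ba7_star_cop {a : GaussianInt} (h : IsCoprime a ((Q : ℕ) : GaussianInt)) :
    IsCoprime (star a) ((Q : ℕ) : GaussianInt) := by
  obtain ⟨u, v, huv⟩ := h
  refine ⟨star u, star v, ?_⟩
  have h1 := congrArg star huv
  rw [star_add, star_mul', star_mul', star_natCast, star_one] at h1
  exact h1

private lemma Ba7_unit_norm (u : GaussianIntˣ) :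
    (((u : GaussianInt) : ℂ)) * conj (((u : GaussianInt) : ℂ)) = 1 := by
  have h1 : Zsqrtd.norm (u : GaussianInt) = 1 := by
    have h2 : IsUnit ((u : GaussianInt)) := u.isUnit
    rw [← Zsqrtd.norm_eq_one_iff] at h2
    have h3 : 0 ≤ Zsqrtd.norm (u : GaussianInt) := GaussianInt.norm_nonneg _
    omega
  rw [Complex.mul_conj, ← GaussianInt.intCast_real_norm, h1]
  simp

theorem exists_gauss (hQ : Q ≠ 0) (h : GC Q κ) (c : Cd Q κ f) :
    ∃ G : ℂ, G ≠ 0 ∧ ∀ x : GaussianInt, ∑ᶠ r : GaussianInt ⧸ Ideal.span {f},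
      ch Q κ (Quotient.out r) * pe (((Quotient.out r : GaussianInt) : ℂ) * conj (x : ℂ) / (f : ℂ)) = ch Q κ x * G := by
  classical
  have hfin : Finite (GaussianInt ⧸ Ideal.span {f}) := quot_finite c.ne
  obtain ⟨hft⟩ := nonempty_fintype (GaussianInt ⧸ Ideal.span {f})
  obtain ⟨χ, hχ⟩ := exists_mulChar hQ h c
  obtain ⟨ψ, hψ, hψ2⟩ := exists_addChar c.ne
  have hmo : ∀ r : GaussianInt ⧸ Ideal.span {f},
      Ideal.Quotient.mk (Ideal.span {f}) (Quotient.out r) = r := fun r => Ideal.Quotient.mk_out r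
  have hS : ∀ x : GaussianInt, ∑ᶠ r : GaussianInt ⧸ Ideal.span {f},
      ch Q κ (Quotient.out r) * pe (((Quotient.out r : GaussianInt) : ℂ) * conj (x : ℂ) / (f : ℂ))
      = gaussSum χ (AddChar.mulShift ψ (Ideal.Quotient.mk (Ideal.span {f}) (star x))) := by
    intro x
    rw [finsum_eq_sum_of_fintype]
    unfold gaussSum
    apply Finset.sum_congr rfl
    intro r _
    have h1 := hχ (Quotient.out r)
    rw [hmo] at h1
    have h2 := hψ2 (Quotient.out r * star x)
    rw [map_mul, hmo, GaussianInt.toComplex_mul, GaussianInt.toComplex_star] at h2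
    rw [AddChar.mulShift_apply, mul_comm _ r, h1, h2]
  have hcase2 : ∀ x : GaussianInt, ¬ IsCoprime x ((Q : ℕ) : GaussianInt) →
      gaussSum χ (AddChar.mulShift ψ (Ideal.Quotient.mk (Ideal.span {f}) (star x))) = 0 := by
    intro x hx
    have h1 : ¬ IsCoprime (star x) f := by
      intro h2
      apply hx
      have h3 := Ba7_star_cop ((coprime_iff hQ c _).2 h2)
      rwa [star_star] at h3
    have hπ : ∃ π : GaussianInt, Prime π ∧ π ∣ star x ∧ π ∣ f := by
      by_contra hcon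
      push Not at hcon
      apply h1
      apply isCoprime_of_prime_dvd
      · rintro ⟨-, h2⟩
        exact c.ne h2
      · intro π hp h2 h3
        exact hcon π hp h2 h3
    obtain ⟨π, hp, hπx, hπf⟩ := hπ
    obtain ⟨u, hu, hfu, hκu⟩ := c.ram π hp hπf
    have hr0 : Ideal.Quotient.mk (Ideal.span {f}) (star x) * Ideal.Quotient.mk (Ideal.span {f}) u
        = Ideal.Quotient.mk (Ideal.span {f}) (star x) := by
      rw [← map_mul, Ideal.Quotient.eq, Ideal.mem_span_singleton]
      obtain ⟨y, hy⟩ := hπx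
      obtain ⟨z, hz⟩ := hfu
      refine ⟨z * y, ?_⟩
      rw [hy]
      linear_combination y * hz
    have huc : IsCoprime u f := (coprime_iff hQ c _).1 hu
    have huu : IsUnit (Ideal.Quotient.mk (Ideal.span {f}) u) := by
      obtain ⟨a, b, hab⟩ := huc
      refine IsUnit.of_mul_eq_one (Ideal.Quotient.mk (Ideal.span {f}) a) ?_
      rw [← map_mul, ← map_one (Ideal.Quotient.mk (Ideal.span {f})), Ideal.Quotient.eq,
        Ideal.mem_span_singleton]
      exact ⟨-b, by linear_combination hab⟩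
    obtain ⟨w, hw⟩ := huu
    set r₀ := Ideal.Quotient.mk (Ideal.span {f}) (star x) with hr₀
    have h4 : gaussSum χ (AddChar.mulShift ψ r₀) =
        χ (Ideal.Quotient.mk (Ideal.span {f}) u) * gaussSum χ (AddChar.mulShift ψ r₀) := by
      unfold gaussSum
      rw [Finset.mul_sum]
      symm
      have hb : Function.Bijective (fun r : GaussianInt ⧸ Ideal.span {f} => (w : GaussianInt ⧸ Ideal.span {f}) * r) :=
        w.mulLeft_bijective
      apply Fintype.sum_bijective _ hb
      intro r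
      rw [hw, map_mul, AddChar.mulShift_apply, AddChar.mulShift_apply, ← mul_assoc, ← mul_assoc, hr0]
    have h5 : χ (Ideal.Quotient.mk (Ideal.span {f}) u) ≠ 1 := by
      rw [hχ, ch_of hu]
      intro h6
      apply hκu
      apply Units.ext
      apply GaussianInt.toComplex_inj.1
      rw [h6]
      simp
    have h6 : (1 - χ (Ideal.Quotient.mk (Ideal.span {f}) u)) * gaussSum χ (AddChar.mulShift ψ r₀) = 0 := by
      linear_combination h4
    rcases mul_eq_zero.1 h6 with h7 | h7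
    · exact absurd (sub_eq_zero.1 h7).symm h5
    · exact h7
  have hcase1 : ∀ x : GaussianInt, IsCoprime x ((Q : ℕ) : GaussianInt) →
      gaussSum χ (AddChar.mulShift ψ (Ideal.Quotient.mk (Ideal.span {f}) (star x)))
        = ch Q κ x * gaussSum χ ψ := by
    intro x hx
    have hsx := Ba7_star_cop hx
    have huc : IsCoprime (star x) f := (coprime_iff hQ c _).1 hsx
    have huu : IsUnit (Ideal.Quotient.mk (Ideal.span {f}) (star x)) := by
      obtain ⟨a, b, hab⟩ := huc
      refine IsUnit.of_mul_eq_one (Ideal.Quotient.mk (Ideal.span {f}) a) ?_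
      rw [← map_mul, ← map_one (Ideal.Quotient.mk (Ideal.span {f})), Ideal.Quotient.eq,
        Ideal.mem_span_singleton]
      exact ⟨-b, by linear_combination hab⟩
    obtain ⟨w, hw⟩ := huu
    have h1 := gaussSum_mulShift χ ψ w
    rw [hw, hχ, ch_of hsx, h.st x, GaussianInt.toComplex_star] at h1
    rw [← h1, ch_of hx, ← mul_assoc, Ba7_unit_norm, one_mul]
  refine ⟨gaussSum χ ψ, ?_, ?_⟩
  · intro hG
    have h0 : ∀ r : GaussianInt ⧸ Ideal.span {f}, ∑ s, χ s * ψ (r * s) = 0 := by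
      intro r
      have h1 : gaussSum χ (AddChar.mulShift ψ r) = 0 := by
        have h2 : Ideal.Quotient.mk (Ideal.span {f}) (star (star (Quotient.out r : GaussianInt))) = r := by
          rw [star_star, hmo]
        rw [← h2]
        by_cases hx : IsCoprime (star (Quotient.out r : GaussianInt)) ((Q : ℕ) : GaussianInt)
        · rw [hcase1 _ hx, hG, mul_zero]
        · exact hcase2 _ hx
      unfold gaussSum at h1
      simpa only [AddChar.mulShift_apply] using h1
    have h1 : ∑ r : GaussianInt ⧸ Ideal.span {f}, ψ (-r) * ∑ s, χ s * ψ (r * s) = 0 := by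
      apply Finset.sum_eq_zero
      intro r _
      rw [h0 r, mul_zero]
    have h2 : ∑ r : GaussianInt ⧸ Ideal.span {f}, ψ (-r) * ∑ s, χ s * ψ (r * s)
        = ∑ s, χ s * ∑ r : GaussianInt ⧸ Ideal.span {f}, ψ (r * (s - 1)) := by
      simp_rw [Finset.mul_sum]
      rw [Finset.sum_comm]
      apply Finset.sum_congr rfl
      intro s _
      apply Finset.sum_congr rfl
      intro r _
      have e : r * (s - 1) = -r + r * s := by ring
      rw [e, AddChar.map_add_eq_mul]
      ring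
    rw [h2] at h1
    have h3 : ∀ s : GaussianInt ⧸ Ideal.span {f}, χ s * ∑ r : GaussianInt ⧸ Ideal.span {f}, ψ (r * (s - 1))
        = if s = 1 then (Fintype.card (GaussianInt ⧸ Ideal.span {f}) : ℂ) else 0 := by
      intro s
      rw [AddChar.sum_mulShift _ hψ]
      by_cases hs : s = 1
      · subst hs
        simp
      · have hs' : s - 1 ≠ 0 := sub_ne_zero.2 hs
        simp [hs, hs']
    rw [Finset.sum_congr rfl (fun s _ => h3 s), Finset.sum_ite_eq' Finset.univ] at h1
    simp only [Finset.mem_univ, if_true] at h1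
    have h4 : (Fintype.card (GaussianInt ⧸ Ideal.span {f})) ≠ 0 := Fintype.card_ne_zero
    exact h4 (by exact_mod_cast h1)
  · intro x
    rw [hS x]
    by_cases hx : IsCoprime x ((Q : ℕ) : GaussianInt)
    · exact hcase1 x hx
    · rw [hcase2 x hx, ch_not hx, zero_mul]

end Pool.Agent.STr
end

section

/-!
# TASK Ba8a: the theta series as a sum over the classes modulo `f`

PROOF. Fix the representatives `out r`. The map `(r, b) ↦ out r + f b` is a bijection `(ℤ[i] / f) × ℤ[i] ≃ ℤ[i]`. For `u = out r + f b`: `ch u = ch (out r)` (`ch_congr`) and `‖u‖ ^ 2 / ‖f‖ * t = ‖out r / f + b‖ ^ 2 * (‖f‖ * t)`. By `theta_sum` (`MP_1ef7cf_nt_g/AnK5.lean`) for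
`z = out r / f` and `‖f‖ * t > 0`: `HasSum (b ↦ exp (-π ‖z + b‖ ^ 2 (‖f‖ t))) (EK z (‖f‖ t))`. The index set `ℤ[i] / f` is finite (`quot_finite`), so the sum over the product is summable and equal to the iterated sum (`hasSum_prod`-like: `HasSum.sigma`/ for a finite first factor:
`hasSum_sum` and `Equiv.hasSum_iff`, e.g. via `Equiv.sigmaEquivProd`; the absolute values are summable).
-/

set_option autoImplicit false

open Complex

namespace Pool.Agent.STr

variable {Q : ℕ} {κ : GaussianInt → GaussianIntˣ} {f : GaussianInt}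

private theorem Ba8a_mk (r : GaussianInt ⧸ Ideal.span {f}) :
    Ideal.Quotient.mk (Ideal.span {f}) (Quotient.out r) = r := Ideal.Quotient.mk_out r

private theorem Ba8a_cls (hQ : Q ≠ 0) (c : Cd Q κ f) {t : ℝ} (ht : 0 < t)
    (r : GaussianInt ⧸ Ideal.span {f}) :
    HasSum (fun b : GaussianInt => ch Q κ (Quotient.out r + f * b) *
      ((Real.exp (-Real.pi * (‖((Quotient.out r + f * b : GaussianInt) : ℂ)‖ ^ 2 / ‖(f : ℂ)‖) * t) : ℝ) : ℂ))
      (ch Q κ (Quotient.out r) *
        ((EK (((Quotient.out r : GaussianInt) : ℂ) / (f : ℂ)) (‖(f : ℂ)‖ * t) : ℝ) : ℂ)) := by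
  have hf0 : (f : ℂ) ≠ 0 := by
    intro h
    exact c.ne (GaussianInt.toComplex_eq_zero.mp h)
  have hfn : 0 < ‖(f : ℂ)‖ := norm_pos_iff.mpr hf0
  have h1 := STg.An.theta_sum (((Quotient.out r : GaussianInt) : ℂ) / (f : ℂ)) (mul_pos hfn ht)
  have h2 := (Complex.hasSum_ofReal.mpr h1).mul_left (ch Q κ (Quotient.out r))
  have h3 : (fun b : GaussianInt => ch Q κ (Quotient.out r + f * b) *
      ((Real.exp (-Real.pi * (‖((Quotient.out r + f * b : GaussianInt) : ℂ)‖ ^ 2 / ‖(f : ℂ)‖) * t) : ℝ) : ℂ)) =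
      fun b : GaussianInt => ch Q κ (Quotient.out r) *
        ((Real.exp (-Real.pi * ‖((Quotient.out r : GaussianInt) : ℂ) / (f : ℂ) + (b : ℂ)‖ ^ 2 *
          (‖(f : ℂ)‖ * t)) : ℝ) : ℂ) := by
    funext b
    have h4 : ch Q κ (Quotient.out r + f * b) = ch Q κ (Quotient.out r) :=
      ch_congr hQ c ⟨b, by ring⟩
    have h5 : ((Quotient.out r : GaussianInt) : ℂ) / (f : ℂ) + (b : ℂ) =
        ((Quotient.out r + f * b : GaussianInt) : ℂ) / (f : ℂ) := by
      rw [map_add, map_mul]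
      field_simp
    rw [h4, h5, norm_div]
    congr 3
    field_simp
  rw [h3]
  exact h2

theorem hasSum_Th (hQ : Q ≠ 0) (c : Cd Q κ f) {t : ℝ} (ht : 0 < t) :
    HasSum (fun u : GaussianInt => ch Q κ u * ((Real.exp (-Real.pi * (‖(u : ℂ)‖ ^ 2 / ‖(f : ℂ)‖) * t) : ℝ) : ℂ))
      (∑ᶠ r : GaussianInt ⧸ Ideal.span {f}, ch Q κ (Quotient.out r) *
        ((EK (((Quotient.out r : GaussianInt) : ℂ) / (f : ℂ)) (‖(f : ℂ)‖ * t) : ℝ) : ℂ)) := by
  classical
  have hfin : Finite (GaussianInt ⧸ Ideal.span {f}) := quot_finite c.ne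
  have hft : Fintype (GaussianInt ⧸ Ideal.span {f}) := Fintype.ofFinite _
  have key : ∀ r : GaussianInt ⧸ Ideal.span {f}, HasSum (fun u : GaussianInt =>
      if Ideal.Quotient.mk (Ideal.span {f}) u = r then
        ch Q κ u * ((Real.exp (-Real.pi * (‖(u : ℂ)‖ ^ 2 / ‖(f : ℂ)‖) * t) : ℝ) : ℂ) else 0)
      (ch Q κ (Quotient.out r) *
        ((EK (((Quotient.out r : GaussianInt) : ℂ) / (f : ℂ)) (‖(f : ℂ)‖ * t) : ℝ) : ℂ)) := by
    intro r
    have hinj : Function.Injective fun b : GaussianInt => Quotient.out r + f * b := by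
      intro a b hab
      have h1 : f * a = f * b := add_left_cancel hab
      exact mul_left_cancel₀ c.ne h1
    rw [← hinj.hasSum_iff]
    · have h1 := Ba8a_cls hQ c ht r
      refine h1.congr_fun ?_ |> fun h => h
      intro b
      have h2 : Ideal.Quotient.mk (Ideal.span {f}) (Quotient.out r + f * b) = r := by
        rw [map_add, Ba8a_mk, map_mul, Ideal.Quotient.eq_zero_iff_mem.mpr
          (Ideal.mem_span_singleton_self f), zero_mul, add_zero]
      simp only [Function.comp]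
      rw [if_pos h2]
    · intro u hu
      rw [if_neg]
      intro h1
      apply hu
      have h2 : u - Quotient.out r ∈ Ideal.span {f} := by
        rw [← Ideal.Quotient.eq, Ba8a_mk]
        exact h1
      obtain ⟨b, hb⟩ := Ideal.mem_span_singleton'.mp h2
      refine ⟨b, ?_⟩
      show Quotient.out r + f * b = u
      rw [mul_comm, hb]
      ring
  have h := hasSum_sum (s := Finset.univ) fun r _ => key r
  rw [finsum_eq_sum_of_fintype]
  refine h.congr_fun ?_ |> fun h => h
  intro u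
  rw [Finset.sum_ite_eq]
  simp

end Pool.Agent.STr
end

section

/-!
# The functional equation of the theta series
-/

set_option autoImplicit false

open Complex
open scoped ComplexConjugate

namespace Pool.Agent.STr

variable {Q : ℕ} {κ : GaussianInt → GaussianIntˣ} {f : GaussianInt}

theorem Th_feq (hQ : Q ≠ 0) (c : Cd Q κ f) {G : ℂ}
    (hG : ∀ x : GaussianInt, ∑ᶠ r : GaussianInt ⧸ Ideal.span {f},
      ch Q κ (Quotient.out r) * pe (((Quotient.out r : GaussianInt) : ℂ) * conj (x : ℂ) / (f : ℂ)) = ch Q κ x * G)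
    {t : ℝ} (ht : 0 < t) : Th Q κ f (1 / t) = (G / (‖(f : ℂ)‖ : ℂ)) * (t : ℂ) * Th Q κ f t := by
  classical
  have hfin : Finite (GaussianInt ⧸ Ideal.span {f}) := quot_finite c.ne
  have hft : Fintype (GaussianInt ⧸ Ideal.span {f}) := Fintype.ofFinite _
  have hf0 : (f : ℂ) ≠ 0 := by
    intro h
    exact c.ne (GaussianInt.toComplex_eq_zero.mp h)
  have hfn : 0 < ‖(f : ℂ)‖ := norm_pos_iff.mpr hf0
  have hτ : 0 < t / ‖(f : ℂ)‖ := div_pos ht hfn
  have h1 : Th Q κ f (1 / t) = ∑ r : GaussianInt ⧸ Ideal.span {f}, ch Q κ (Quotient.out r) *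
        ((EK (((Quotient.out r : GaussianInt) : ℂ) / (f : ℂ)) (‖(f : ℂ)‖ * (1 / t)) : ℝ) : ℂ) := by
    unfold Th
    rw [(hasSum_Th hQ c (t := 1 / t) (by positivity)).tsum_eq, finsum_eq_sum_of_fintype]
  have h2 : ‖(f : ℂ)‖ * (1 / t) = 1 / (t / ‖(f : ℂ)‖) := by
    field_simp
  have h3 : HasSum (fun x : GaussianInt => G * (ch Q κ x *
      ((Real.exp (-Real.pi * (‖(x : ℂ)‖ ^ 2 / ‖(f : ℂ)‖) * t) : ℝ) : ℂ)))
      (∑ r : GaussianInt ⧸ Ideal.span {f}, ch Q κ (Quotient.out r) *
        ((CK (((Quotient.out r : GaussianInt) : ℂ) / (f : ℂ)) (t / ‖(f : ℂ)‖) : ℝ) : ℂ)) := by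
    have h4 := hasSum_sum (s := (Finset.univ : Finset (GaussianInt ⧸ Ideal.span {f}))) fun r _ =>
      (hasSum_CK (((Quotient.out r : GaussianInt) : ℂ) / (f : ℂ)) hτ).mul_left (ch Q κ (Quotient.out r))
    refine h4.congr_fun ?_ |> fun h => h
    intro x
    have h5 := hG x
    rw [finsum_eq_sum_of_fintype] at h5
    have h6 : -Real.pi * (‖(x : ℂ)‖ ^ 2 / ‖(f : ℂ)‖) * t = -Real.pi * ‖(x : ℂ)‖ ^ 2 * (t / ‖(f : ℂ)‖) := by
      ring
    rw [h6, ← mul_assoc, mul_comm G, ← h5, Finset.sum_mul]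
    refine Finset.sum_congr rfl fun r _ => ?_
    have h7 : ((Quotient.out r : GaussianInt) : ℂ) / (f : ℂ) * conj (x : ℂ) =
        ((Quotient.out r : GaussianInt) : ℂ) * conj (x : ℂ) / (f : ℂ) := by
      ring
    rw [h7]
    ring
  have h8 : ∑ r : GaussianInt ⧸ Ideal.span {f}, ch Q κ (Quotient.out r) *
        ((CK (((Quotient.out r : GaussianInt) : ℂ) / (f : ℂ)) (t / ‖(f : ℂ)‖) : ℝ) : ℂ) = G * Th Q κ f t := by
    rw [← h3.tsum_eq, tsum_mul_left]
    rfl
  rw [h1, h2]
  have h9 : ∀ r : GaussianInt ⧸ Ideal.span {f}, ch Q κ (Quotient.out r) *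
        ((EK (((Quotient.out r : GaussianInt) : ℂ) / (f : ℂ)) (1 / (t / ‖(f : ℂ)‖)) : ℝ) : ℂ) =
      ((t / ‖(f : ℂ)‖ : ℝ) : ℂ) * (ch Q κ (Quotient.out r) *
        ((CK (((Quotient.out r : GaussianInt) : ℂ) / (f : ℂ)) (t / ‖(f : ℂ)‖) : ℝ) : ℂ)) := by
    intro r
    rw [EK_CK _ hτ]
    push_cast
    ring
  simp_rw [h9]
  rw [← Finset.mul_sum, h8]
  push_cast
  ring

end Pool.Agent.STr
end
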