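import Pool.Agent.Lib.MP_1ef7cf_nt_r.Mg.G003
import Pool.Agent.Lib.MP_1ef7cf_nt_h.Mg.G010
import Pool.Agent.Lib.MP_1ef7cf_nt_r.V1
import Pool.Agent.Lib.MP_1ef7cf_nt_h.Mg.G002
import Pool.Agent.Lib.MP_1ef7cf_nt_h.Mg.G005

section

/-!
# TASK Bb1: from the Gaussian integers to the numbers `cM`

PROOF. Every Gaussian integer `u` prime to `U.n` is odd, so it is `ε β` for exactly one unit `ε` and one `β : PD U` (`exists_prim_assoc` in `MP_1ef7cf_nt_g/Q.lean`, `Prim.eq_of_associated`); `ch (ε β) = κ β` (`GC.unit`, `GC.mul`), `‖ε β‖ = ‖β‖`, `‖β‖ ^ 2 = gN β`, so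
`‖u‖ ^ (-2 s) = (gN β) ^ (-s)`. The terms with `u` not prime to `U.n` are zero. So `HasSum (β : PD U ↦ 4 * κ β * (gN β) ^ (-s)) (F s)` (the group of units has `4` elements: `HasSum` over `GaussianIntˣ × PD U`; `Equiv.hasSum_iff` and the injection `(ε, β) ↦ ε β` with
`Function.Injective.hasSum_iff`; all series converge absolutely: `summable_gN` in `MP_1ef7cf_nt_h/S7a.lean`). Regroup by `l = gN β` (the fibres are finite; cf. `hasSum_M` in `MP_1ef7cf_nt_h/S7.lean` and `hasSum_regroup`): the coefficient of `l ^ (-s)` is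
`∑ (β : gN β = l) κ β = cM U l` (the imaginary parts cancel: `S4a_im`, `cS_chiM` in `MP_1ef7cf_nt_h/S4a.lean`). The term `l = 0`: `0 ^ (-s) = 0`.
-/

set_option autoImplicit false

namespace Pool.Agent.STr

open Pool.Agent.STg (gN gOdd Prim)
open Pool.Agent.STh (UD cM)

private def Bb1_e : Fin 4 → GaussianInt := ![1, -1, ⟨0, 1⟩, ⟨0, -1⟩]

private lemma Bb1_unit (i : Fin 4) : IsUnit (Bb1_e i) := by
  fin_cases i
  · exact isUnit_one
  · exact isUnit_one.neg
  · refine IsUnit.of_mul_eq_one (⟨0, -1⟩ : GaussianInt) ?_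
    ext <;> simp [Bb1_e]
  · refine IsUnit.of_mul_eq_one (⟨0, 1⟩ : GaussianInt) ?_
    ext <;> simp [Bb1_e]

private lemma Bb1_inj : Function.Injective Bb1_e := by
  intro i j h
  have hr := congrArg Zsqrtd.re h
  have hi := congrArg Zsqrtd.im h
  fin_cases i <;> fin_cases j <;> simp [Bb1_e] at hr hi <;> rfl

private lemma Bb1_surj {u : GaussianInt} (hu : IsUnit u) : ∃ i, Bb1_e i = u := by
  rcases Pool.Agent.STg.Q_units u hu with ⟨h1, h2⟩ | ⟨h1, h2⟩ | ⟨h1, h2⟩ | ⟨h1, h2⟩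
  · exact ⟨0, by ext <;> simp [Bb1_e, h1, h2]⟩
  · exact ⟨1, by ext <;> simp [Bb1_e, h1, h2]⟩
  · exact ⟨2, by ext <;> simp [Bb1_e, h1, h2]⟩
  · exact ⟨3, by ext <;> simp [Bb1_e, h1, h2]⟩

private lemma Bb1_gN {u : GaussianInt} (hu : IsUnit u) : gN u = 1 := by
  unfold gN
  exact Zsqrtd.norm_eq_one_iff.mpr hu

theorem hasSum_cM (U : UD) {s F : ℂ} (hs : 1 < s.re)
    (h : HasSum (fun u : GaussianInt => ch U.n U.κ u * ((‖(u : ℂ)‖ : ℝ) : ℂ) ^ (-2 * s)) F) :
    HasSum (fun l : ℕ => ((cM U l : ℤ) : ℂ) * (l : ℂ) ^ (-s)) (F / 4) := by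
  classical
  have hs0 : -s ≠ 0 := by
    intro h0
    have h1 : s = 0 := neg_eq_zero.mp h0
    rw [h1, Complex.zero_re] at hs
    linarith
  have hgc := UD_gc U
  set g : Pool.Agent.STh.PD U → ℂ := fun β =>
    (((U.κ β.1 : GaussianIntˣ) : GaussianInt) : ℂ) * ((gN β.1 : ℕ) : ℂ) ^ (-s) with hg
  set φ : Fin 4 × Pool.Agent.STh.PD U → GaussianInt := fun x => Bb1_e x.1 * x.2.1 with hφ
  have hne : ∀ β : Pool.Agent.STh.PD U, β.1 ≠ 0 := fun β => U.ne_zero_of β.2.2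
  have hφinj : Function.Injective φ := by
    rintro ⟨i, β⟩ ⟨j, γ⟩ hij
    have hij' : Bb1_e i * β.1 = Bb1_e j * γ.1 := hij
    have hass : Associated β.1 γ.1 := by
      have h1 : Associated β.1 (Bb1_e i * β.1) := by
        obtain ⟨v, hv⟩ := Bb1_unit i
        exact ⟨v, by rw [hv, mul_comm]⟩
      have h2 : Associated γ.1 (Bb1_e j * γ.1) := by
        obtain ⟨v, hv⟩ := Bb1_unit j
        exact ⟨v, by rw [hv, mul_comm]⟩
      rw [hij'] at h1
      exact h1.trans h2.symm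
    have hβγ : β = γ := Subtype.ext (Pool.Agent.STg.Prim.eq_of_associated β.2.1 γ.2.1 hass)
    subst hβγ
    have hij2 : Bb1_e i = Bb1_e j := mul_right_cancel₀ (hne β) hij'
    rw [Bb1_inj hij2]
  have hout : ∀ u ∉ Set.range φ, ch U.n U.κ u * ((‖(u : ℂ)‖ : ℝ) : ℂ) ^ (-2 * s) = 0 := by
    intro u hu
    by_cases hc : IsCoprime u ((U.n : ℕ) : GaussianInt)
    · exfalso
      apply hu
      obtain ⟨ε, hε, hP⟩ := Pool.Agent.STg.exists_prim_assoc (U.gOdd_of hc)
      obtain ⟨v, hv⟩ := hε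
      obtain ⟨i, hi⟩ := Bb1_surj (v⁻¹ : GaussianIntˣ).isUnit
      have hass : Associated u (ε * u) := ⟨v, by rw [hv, mul_comm]⟩
      refine ⟨(i, ⟨ε * u, hP, IsCoprime.of_isCoprime_of_dvd_left hc hass.symm.dvd⟩), ?_⟩
      show Bb1_e i * (ε * u) = u
      rw [hi, ← hv, ← mul_assoc, Units.inv_mul, one_mul]
    · rw [ch_not hc, zero_mul]
  have h1 : HasSum ((fun u : GaussianInt => ch U.n U.κ u * ((‖(u : ℂ)‖ : ℝ) : ℂ) ^ (-2 * s)) ∘ φ) F :=
    (hφinj.hasSum_iff hout).2 h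
  have hval : ((fun u : GaussianInt => ch U.n U.κ u * ((‖(u : ℂ)‖ : ℝ) : ℂ) ^ (-2 * s)) ∘ φ) =
      fun x => g x.2 := by
    funext x
    obtain ⟨i, β⟩ := x
    have he0 : Bb1_e i ≠ 0 := (Bb1_unit i).ne_zero
    have hcop : IsCoprime (Bb1_e i * β.1) ((U.n : ℕ) : GaussianInt) := by
      apply IsCoprime.mul_left _ β.2.2
      exact (isCoprime_one_left).of_isCoprime_of_dvd_left (Bb1_unit i).dvd
    show ch U.n U.κ (Bb1_e i * β.1) * ((‖((Bb1_e i * β.1 : GaussianInt) : ℂ)‖ : ℝ) : ℂ) ^ (-2 * s) =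
      (((U.κ β.1 : GaussianIntˣ) : GaussianInt) : ℂ) * ((gN β.1 : ℕ) : ℂ) ^ (-s)
    rw [ch_of hcop, Pool.Agent.STg.norm_cpow _ (mul_ne_zero he0 (hne β)), Pool.Agent.STg.gN_mul,
      Bb1_gN (Bb1_unit i), one_mul, hgc.mul _ _ he0 (hne β), hgc.unit _ (Bb1_unit i), one_mul]
  rw [hval] at h1
  have hsg : Summable g := by
    have := h1.summable.comp_injective (i := fun β : Pool.Agent.STh.PD U => ((0 : Fin 4), β))
      (fun a b hab => (Prod.mk.inj hab).2)
    exact this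
  have hS : HasSum g (∑' β, g β) := hsg.hasSum
  have h2 : HasSum (fun _ : Fin 4 => ∑' β, g β) F := by
    refine HasSum.prod_fiberwise h1 (fun i => ?_)
    exact hS
  have h3 : F = 4 * ∑' β, g β := by
    have := h2.unique (hasSum_fintype _)
    rw [this]
    simp
  have h4 : F / 4 = ∑' β, g β := by
    rw [h3]
    field_simp
  rw [h4]
  have h5 : HasSum (g ∘ (Equiv.sigmaFiberEquiv (fun β : Pool.Agent.STh.PD U => gN β.1)))
      (∑' β, g β) :=
    (Equiv.hasSum_iff (Equiv.sigmaFiberEquiv (fun β : Pool.Agent.STh.PD U => gN β.1))).2 hS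
  refine HasSum.sigma h5 fun l => ?_
  by_cases hl : l = 0
  · subst hl
    have h0 : ((0 : ℕ) : ℂ) ^ (-s) = 0 := by rw [Nat.cast_zero, Complex.zero_cpow hs0]
    rw [h0, mul_zero]
    have hz : (fun c : {β : Pool.Agent.STh.PD U // gN β.1 = 0} =>
        (g ∘ (Equiv.sigmaFiberEquiv (fun β : Pool.Agent.STh.PD U => gN β.1))) ⟨0, c⟩) =
        fun _ => 0 := by
      funext c
      show (((U.κ c.1.1 : GaussianIntˣ) : GaussianInt) : ℂ) * ((gN c.1.1 : ℕ) : ℂ) ^ (-s) = 0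
      rw [c.2, h0, mul_zero]
    rw [hz]
    exact hasSum_zero
  · have hfin : {β : Pool.Agent.STh.PD U | gN β.1 = l}.Finite := by
      refine Set.Finite.of_injOn (f := fun β : Pool.Agent.STh.PD U => β.1)
        (t := {β : GaussianInt | Prim β ∧ IsCoprime β ((U.n : ℕ) : GaussianInt) ∧ gN β = l}) ?_ ?_
        (Pool.Agent.STh.S4a_finite U hl)
      · intro β hβ
        exact ⟨β.2.1, β.2.2, hβ⟩
      · exact Subtype.val_injective.injOn
    have hft : Fintype {β : Pool.Agent.STh.PD U // gN β.1 = l} := hfin.fintype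
    have h6 : ((cM U l : ℤ) : ℂ) * (l : ℂ) ^ (-s) =
        ∑ c : {β : Pool.Agent.STh.PD U // gN β.1 = l},
          (g ∘ (Equiv.sigmaFiberEquiv (fun β : Pool.Agent.STh.PD U => gN β.1))) ⟨l, c⟩ := by
      have h7 : ∑ c : {β : Pool.Agent.STh.PD U // gN β.1 = l},
          (g ∘ (Equiv.sigmaFiberEquiv (fun β : Pool.Agent.STh.PD U => gN β.1))) ⟨l, c⟩ =
          ∑ β ∈ (Pool.Agent.STh.S4a_finite U hl).toFinset,
            (((U.κ β : GaussianIntˣ) : GaussianInt) : ℂ) * (l : ℂ) ^ (-s) := by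
        refine Finset.sum_bij (fun c _ => c.1.1) ?_ ?_ ?_ ?_
        · intro c _
          rw [Set.Finite.mem_toFinset]
          exact ⟨c.1.2.1, c.1.2.2, c.2⟩
        · intro a _ b _ hab
          exact Subtype.ext (Subtype.ext hab)
        · intro β hβ
          rw [Set.Finite.mem_toFinset] at hβ
          exact ⟨⟨⟨β, hβ.1, hβ.2.1⟩, hβ.2.2⟩, Finset.mem_univ _, rfl⟩
        · intro c _
          show (((U.κ c.1.1 : GaussianIntˣ) : GaussianInt) : ℂ) * ((gN c.1.1 : ℕ) : ℂ) ^ (-s) = _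
          rw [c.2]
      rw [h7, ← Finset.sum_mul]
      congr 1
      have h8 : cM U l = ∑ β ∈ (Pool.Agent.STh.S4a_finite U hl).toFinset,
          ((U.κ β : GaussianIntˣ) : GaussianInt).re := by
        unfold cM
        rw [finsum_mem_eq_finite_toFinset_sum _ (Pool.Agent.STh.S4a_finite U hl)]
      have h9 := Pool.Agent.STh.S4a_im U hl
      apply Complex.ext
      · rw [Complex.intCast_re, Complex.re_sum, h8]
        push_cast
        refine Finset.sum_congr rfl fun β _ => ?_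
        rw [← GaussianInt.intCast_re]
      · rw [Complex.intCast_im, Complex.im_sum]
        have h10 : ∑ β ∈ (Pool.Agent.STh.S4a_finite U hl).toFinset,
            ((((U.κ β : GaussianIntˣ) : GaussianInt) : ℂ)).im =
            ((∑ β ∈ (Pool.Agent.STh.S4a_finite U hl).toFinset,
              ((U.κ β : GaussianIntˣ) : GaussianInt).im : ℤ) : ℝ) := by
          push_cast
          refine Finset.sum_congr rfl fun β _ => ?_
          rw [← GaussianInt.intCast_im]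
        rw [h10, h9]
        simp
    rw [h6]
    exact hasSum_fintype _

end Pool.Agent.STr
end

section

/-!
# TASK Bb3: the `L`-series of `κ` over `K`

PROOF. For `re s > 1`: `Z B s = ∑ I ∈ B, (absNorm I) ^ (-s)` (`IsPartialZeta.hasSum_ind` in `MP_1ef7cf_nt/Norm.lean`, absolutely convergent). The integral ideals prime to `m` are the disjoint union of the sets `idealsOf σ₂ m B`, and `κ B = chiI a I = chiK a m I` for `I ∈ B` (`chiK_of`; `I ≠ ⊥`). So
`∑ B, κ B * Z B s = ∑' I, chiK a m I * (absNorm I) ^ (-s)` (`hasSum_sum` over the finite group; `chiK = 0` for the other ideals); regroup by `l = absNorm I` (finitely many ideals of each norm; templates: `hasSum_fib` in `MP_1ef7cf_nt_h/S10b.lean`, `S10b_coef`, `hasSum_regroup`): the coefficient of `l ^ (-s)` is `cK a m l`.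
(`l = 0`: the only ideal is `⊥`, `chiK = 0`.)
-/

set_option autoImplicit false

open NumberField IsDedekindDomain nonZeroDivisors IntermediateField

namespace Pool.Agent.STr

open Pool.Agent.ST
open Pool.Agent.STh.F (FD se chiI cK)

variable {K : Type*} [Field K] [NumberField K] [Algebra K ℝ] {σ₂ : K →+* ℝ} {m : Ideal (𝓞 K)} {a : 𝓞 K}

theorem L_series (hm : m ≠ ⊥) [Finite (RayClassGroup σ₂ m)] {κ : RayClassGroup σ₂ m →* ℂˣ}
    (hκ : ∀ (I : Ideal (𝓞 K)) (J : primeTo (K := K) m), ((J : (FI K)ˣ) : FI K) = (I : FI K) →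
        ((κ (cls σ₂ m J) : ℂˣ) : ℂ) = ((chiI a I : ℤ) : ℂ))
    {Z : RayClassGroup σ₂ m → ℂ → ℂ} (hZ : ∀ B, IsPartialZeta σ₂ m B (Z B)) {s : ℂ} (hs : 1 < s.re) :
    HasSum (fun l : ℕ => ((cK a m l : ℤ) : ℂ) * (l : ℂ) ^ (-s)) (∑ᶠ B, ((κ B : ℂˣ) : ℂ) * Z B s) := by
  classical
  have hft : Fintype (RayClassGroup σ₂ m) := Fintype.ofFinite _
  rw [finsum_eq_sum_of_fintype]
  have h1 : ∀ B : RayClassGroup σ₂ m,
      HasSum (fun I => ((κ B : ℂˣ) : ℂ) * (idealsOf σ₂ m B).indicator (nf s) I)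
        (((κ B : ℂˣ) : ℂ) * Z B s) := fun B => ((hZ B).hasSum_ind hs).mul_left _
  have h2 : HasSum (fun I => ∑ B, ((κ B : ℂˣ) : ℂ) * (idealsOf σ₂ m B).indicator (nf s) I)
      (∑ B, ((κ B : ℂˣ) : ℂ) * Z B s) := hasSum_sum fun B _ => h1 B
  have h3 : ∀ I : Ideal (𝓞 K), ∑ B, ((κ B : ℂˣ) : ℂ) * (idealsOf σ₂ m B).indicator (nf s) I =
      ((STh.F.chiK a m I : ℤ) : ℂ) * ((Ideal.absNorm I : ℕ) : ℂ) ^ (-s) := by
    intro I
    by_cases hI : I ≠ ⊥ ∧ IsCoprime I m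
    · obtain ⟨hI0, hIm⟩ := hI
      let J : primeTo (K := K) m := ⟨uI I hI0, coe_mem_primeTo (by rw [coe_uI]) hIm⟩
      have hJ : ((J : (FI K)ˣ) : FI K) = (I : FI K) := by
        show ((uI I hI0 : (FI K)ˣ) : FI K) = I
        rw [coe_uI]
      have hmem : I ∈ idealsOf σ₂ m (cls σ₂ m J) := ⟨J, hJ, rfl⟩
      rw [Finset.sum_eq_single (cls σ₂ m J)]
      · rw [Set.indicator_of_mem hmem, hκ I J hJ, STh.F.chiK_of hI0 hIm, nf]
      · intro B _ hB
        rw [Set.indicator_of_notMem (fun h => hB (idealsOf_disj h hmem)), mul_zero]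
      · intro h
        exact absurd (Finset.mem_univ _) h
    · rw [STh.F.chiK_of_not hI]
      simp only [Int.cast_zero, zero_mul]
      refine Finset.sum_eq_zero fun B _ => ?_
      rw [Set.indicator_of_notMem, mul_zero]
      rintro ⟨J, hJ, -⟩
      apply hI
      refine ⟨?_, coprime_of_mem_primeTo hJ J.2⟩
      rintro rfl
      exact J.1.ne_zero (by rw [hJ]; simp)
  have h4 : HasSum (fun I : Ideal (𝓞 K) => ((STh.F.chiK a m I : ℤ) : ℂ) *
      ((Ideal.absNorm I : ℕ) : ℂ) ^ (-s)) (∑ B, ((κ B : ℂˣ) : ℂ) * Z B s) := by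
    rw [funext h3] at h2
    exact h2
  exact STg.hasSum_regroup (fun I : Ideal (𝓞 K) => Ideal.absNorm I) STh.S10b_fin
    (fun I => STh.F.chiK a m I) h4

end Pool.Agent.STr
end
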