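import Pool.Agent.Lib.MP_1ef7cf_nt_r.Df
import Pool.Agent.Lib.MP_1ef7cf_nt_h.Mg.G002
import Pool.Agent.Lib.MP_1ef7cf_nt_c.Euler
import Pool.Agent.Lib.MP_1ef7cf_nt_r.Mg.G007

section

/-!
# TASK Bb4: `chiK` as a ray class character

PROOF. `χ I = (chiK a m I : ℝ)`; it is multiplicative (`cm_chiK` in `MP_1ef7cf_nt_h/F04.lean`, or `chiI_mul`, `chiK_of`, and a product is prime to `m` iff both factors are; `χ ⊥ = 0`, `χ ⊤ = 1`: `chiI_top`; `m ≠ ⊤` is not needed: `⊤` is coprime to every ideal).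
`IsRayChar.sq`: `chiI_sq`. `zero`: by definition. `one`: let `α ≠ 0`, `α - 1 ∈ m`, `α` positive at all real embeddings. The ideal `(α)` is prime to `m` and its class is trivial (`0 < σ₂ α`, `OneMod m α` with `b = 1`), so `chiI a (α) = κ 1 = 1` by `hκ`.
`lsum_eq_cK`: `lsum χ s = ∑' I, χ I * (absNorm I) ^ (-s)` over the nonzero ideals; regroup by the norm (absolutely convergent: `summable_lterm`; `cK a m l = ∑ᶠ (I : absNorm I = l), chiK a m I`, a finite set for `l ≠ 0`; the term `l = 0` is zero because `0 ^ (-s) = 0`).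
-/

set_option autoImplicit false

open NumberField IsDedekindDomain nonZeroDivisors IntermediateField

namespace Pool.Agent.STr

open Pool.Agent.ST
open Pool.Agent.STc (lsum)
open Pool.Agent.STh.F (FD se chiI chiK cK)
open Pool.Agent.STh.F (chiK_of)

variable {K : Type*} [Field K] [NumberField K] [Algebra K ℝ] {σ₂ : K →+* ℝ} {m : Ideal (𝓞 K)} {a : 𝓞 K}

/-- the ideals of trivial class generated by `α ≡ 1` -/
lemma Bb4_one {κ : RayClassGroup σ₂ m →* ℂˣ}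
    (hκ : ∀ (I : Ideal (𝓞 K)) (J : primeTo (K := K) m), ((J : (FI K)ˣ) : FI K) = (I : FI K) →
        ((κ (cls σ₂ m J) : ℂˣ) : ℂ) = ((chiI a I : ℤ) : ℂ)) {α : 𝓞 K} (hα : α ≠ 0) (h1 : α - 1 ∈ m)
    (hpos : ∀ φ : K →+* ℝ, 0 < φ (α : K)) :
    chiK a m (Ideal.span {α}) = 1 := by
  have hco1 : IsCoprime (Ideal.span {(1 : 𝓞 K)}) m := by
    rw [Ideal.span_singleton_one, ← Ideal.one_eq_top]
    exact isCoprime_one_left
  have hco : IsCoprime (Ideal.span {α}) m := coprime_of_sub_mem hco1 h1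
  have hne : Ideal.span {α} ≠ ⊥ := by
    rw [Ne, Ideal.span_singleton_eq_bot]
    exact hα
  let Jα : primeTo (K := K) m :=
    ⟨uI (Ideal.span {α}) hne, coe_mem_primeTo (coe_uI (Ideal.span {α}) hne) hco⟩
  have hJ := hκ (Ideal.span {α}) Jα (coe_uI (Ideal.span {α}) hne)
  have hc : cls σ₂ m Jα = 1 := by
    rw [cls_eq_one_iff]
    refine ⟨(α : K), ⟨α, 1, hco1, h1, by simp⟩, hpos σ₂, ?_⟩
    show ((uI (Ideal.span {α}) hne : (FI K)ˣ) : FI K) = _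
    rw [coe_uI, FractionalIdeal.coeIdeal_span_singleton]
  rw [hc, map_one, Units.val_one] at hJ
  rw [chiK_of hne hco]
  exact_mod_cast hJ.symm

theorem exists_rayChar (hm : m ≠ ⊥) {κ : RayClassGroup σ₂ m →* ℂˣ}
    (hκ : ∀ (I : Ideal (𝓞 K)) (J : primeTo (K := K) m), ((J : (FI K)ˣ) : FI K) = (I : FI K) →
        ((κ (cls σ₂ m J) : ℂˣ) : ℂ) = ((chiI a I : ℤ) : ℂ)) :
    ∃ χ : Ideal (𝓞 K) →*₀ ℝ, Pool.Agent.ST.IsRayChar m χ ∧ ∀ I, χ I = ((chiK a m I : ℤ) : ℝ) := by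
  have hcm := Pool.Agent.STh.F.cm_chiK a m
  have h0 : chiK a m ⊥ = 0 := Pool.Agent.STh.F.chiK_of_not fun h => h.1 rfl
  refine ⟨{ toFun := fun I => ((chiK a m I : ℤ) : ℝ), map_zero' := ?_, map_one' := ?_, map_mul' := ?_ }, ⟨?_, ?_, ?_⟩, fun I => rfl⟩
  · rw [Ideal.zero_eq_bot, h0, Int.cast_zero]
  · have h1 := hcm.1
    rw [Ideal.one_eq_top]
    exact_mod_cast h1
  · intro I J
    by_cases hI : I = ⊥
    · rw [hI, Ideal.bot_mul, h0, Int.cast_zero, zero_mul]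
    · by_cases hJ : J = ⊥
      · rw [hJ, Ideal.mul_bot, h0, Int.cast_zero, mul_zero]
      · have h1 := hcm.2 I J hI hJ
        exact_mod_cast h1
  · intro I hI hc
    show ((chiK a m I : ℤ) : ℝ) = 1 ∨ ((chiK a m I : ℤ) : ℝ) = -1
    rw [Pool.Agent.STh.F.chiK_of hI hc]
    rcases Pool.Agent.STh.F.chiI_sq a I with h | h
    · left; rw [h]; simp
    · right; rw [h]; simp
  · intro I hc
    show ((chiK a m I : ℤ) : ℝ) = 0
    rw [Pool.Agent.STh.F.chiK_of_not fun h => hc h.2, Int.cast_zero]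
  · intro α hα h1 hpos
    show ((chiK a m (Ideal.span {α}) : ℤ) : ℝ) = 1
    rw [Bb4_one hκ hα h1 hpos, Int.cast_one]

/-- regrouping of a real Dirichlet series by the norm -/
lemma Bb4_regroup {ι : Type*} (N : ι → ℕ) (hf : ∀ n : ℕ, {i | N i = n}.Finite) (c : ι → ℤ)
    {w S : ℝ} (h : HasSum (fun i => (c i : ℝ) * (N i : ℝ) ^ (-w)) S) :
    HasSum (fun n : ℕ => ((∑ᶠ i ∈ {i | N i = n}, c i : ℤ) : ℝ) * (n : ℝ) ^ (-w)) S := by
  classical
  have h1 : HasSum ((fun i => (c i : ℝ) * (N i : ℝ) ^ (-w)) ∘ (Equiv.sigmaFiberEquiv N)) S :=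
    (Equiv.hasSum_iff (Equiv.sigmaFiberEquiv N)).2 h
  refine HasSum.sigma h1 fun n => ?_
  have : Fintype {x : ι // N x = n} := (hf n).fintype
  have h2 : (((∑ᶠ i ∈ {i | N i = n}, c i : ℤ) : ℝ)) * (n : ℝ) ^ (-w) =
      ∑ x : {x : ι // N x = n}, (c x : ℝ) * (N x : ℝ) ^ (-w) := by
    rw [finsum_mem_eq_finite_toFinset_sum _ (hf n), Int.cast_sum, Finset.sum_mul]
    rw [← Finset.sum_subtype (p := fun x => N x = n) (hf n).toFinset (fun x => by simp)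
      (fun x => (c x : ℝ) * (N x : ℝ) ^ (-w))]
    refine Finset.sum_congr rfl fun x hx => ?_
    have h3 : N x = n := by simpa using hx
    rw [h3]
  rw [h2]
  exact hasSum_fintype _

theorem lsum_eq_cK {χ : Ideal (𝓞 K) →*₀ ℝ} (hχ : Pool.Agent.ST.IsRayChar m χ) (h : ∀ I, χ I = ((chiK a m I : ℤ) : ℝ))
    {s : ℝ} (hs : 1 < s) : lsum χ s = ∑' l : ℕ, ((cK a m l : ℤ) : ℝ) * (l : ℝ) ^ (-s) := by
  have h1 := (Pool.Agent.STc.summable_lterm hχ hs).hasSum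
  have h2 : HasSum (fun I : Ideal (𝓞 K) => ((chiK a m I : ℤ) : ℝ) * ((Ideal.absNorm I : ℕ) : ℝ) ^ (-s))
      (lsum χ s) := by
    have h3 : HasSum ((fun I : Ideal (𝓞 K) => ((chiK a m I : ℤ) : ℝ) * ((Ideal.absNorm I : ℕ) : ℝ) ^ (-s)) ∘
        (Subtype.val : {I : Ideal (𝓞 K) // I ≠ ⊥} → Ideal (𝓞 K))) (lsum χ s) := by
      have h4 : ((fun I : Ideal (𝓞 K) => ((chiK a m I : ℤ) : ℝ) * ((Ideal.absNorm I : ℕ) : ℝ) ^ (-s)) ∘
          (Subtype.val : {I : Ideal (𝓞 K) // I ≠ ⊥} → Ideal (𝓞 K))) = Pool.Agent.STc.lterm χ s := by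
        funext I
        show ((chiK a m I.1 : ℤ) : ℝ) * ((Ideal.absNorm I.1 : ℕ) : ℝ) ^ (-s) = _
        rw [← h]
        rfl
      rw [h4]
      exact h1
    refine (Subtype.val_injective.hasSum_iff ?_).1 h3
    intro I hI
    have hI' : I = ⊥ := by
      by_contra hne
      exact hI ⟨⟨I, hne⟩, rfl⟩
    rw [hI', Pool.Agent.STh.F.chiK_of_not fun h => h.1 rfl, Int.cast_zero, zero_mul]
  have h4 := Bb4_regroup (fun I : Ideal (𝓞 K) => Ideal.absNorm I)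
    (fun n => Ideal.finite_setOfPred_absNorm_eq n) (fun I => chiK a m I) h2
  exact h4.tsum_eq.symm

end Pool.Agent.STr
end

section

/-!
# TASK Bb6: the `L`-series does not tend to zero at `s = 1`

PROOF. `χ` by `exists_rayChar` (Bb4). `exp_primeSum_chi_le` (`MP_1ef7cf_nt_c/Euler.lean`): `exp (∑' P, χ P * px s P) ≤ 2 * lsum χ s`; `chi_sum_lower` (Bb5); `lsum_eq_cK` (Bb4). `c = exp (-C) / 2`.
-/

set_option autoImplicit false

open NumberField IsDedekindDomain nonZeroDivisors IntermediateField Filter Topology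

namespace Pool.Agent.STr

open Pool.Agent.ST
open Pool.Agent.STh.F (FD se chiI chiK cK)

variable {K : Type*} [Field K] [NumberField K] [Algebra K ℝ] {σ₂ : K →+* ℝ} {m : Ideal (𝓞 K)} {d : ℕ} {a : 𝓞 K}

theorem nonvan (D : FD σ₂ d a) (hm : m ≠ ⊥)
    (hab : ∀ v : PrI K, (2 * d : 𝓞 K) ∈ v.asIdeal → v.asIdeal ∣ m) {κ : RayClassGroup σ₂ m →* ℂˣ}
    (hκ : ∀ (I : Ideal (𝓞 K)) (J : primeTo (K := K) m), ((J : (FI K)ˣ) : FI K) = (I : FI K) →
        ((κ (cls σ₂ m J) : ℂˣ) : ℂ) = ((chiI a I : ℤ) : ℂ)) :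
    ∃ c : ℝ, 0 < c ∧ ∀ᶠ s in 𝓝[>] (1 : ℝ), c ≤ ∑' l : ℕ, ((cK a m l : ℤ) : ℝ) * (l : ℝ) ^ (-s) := by
  obtain ⟨χ, hχ, hχa⟩ := exists_rayChar hm hκ
  obtain ⟨C, hC⟩ := chi_sum_lower D hm hab
  refine ⟨Real.exp (-C) / 2, by positivity, ?_⟩
  filter_upwards [hC, self_mem_nhdsWithin] with s hs1 hs2
  have hs : 1 < s := hs2
  have h1 := Pool.Agent.STc.exp_primeSum_chi_le hχ hs
  rw [lsum_eq_cK hχ hχa hs] at h1
  have h2 : ∑' P : PrI K, χ P.asIdeal * px s P =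
      ∑' P : PrI K, ((chiK a m P.asIdeal : ℤ) : ℝ) * px s P :=
    tsum_congr fun P => by rw [hχa]
  rw [h2] at h1
  have h3 : Real.exp (-C) ≤
      Real.exp (∑' P : PrI K, ((chiK a m P.asIdeal : ℤ) : ℝ) * px s P) := Real.exp_le_exp.2 hs1
  linarith

end Pool.Agent.STr
end
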