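import Pool.Agent.Lib.MP_1ef7cf_nt_r.Mg.G010
import Pool.Agent.Lib.MP_1ef7cf_nt_g.Mg.G003
import Pool.Agent.Lib.MP_1ef7cf_nt_g.Mg.G006
import Pool.Agent.Lib.MP_1ef7cf_nt_r.V1
import Pool.Agent.Lib.MP_1ef7cf_nt_r.Mg.G008
import Pool.Agent.Lib.MP_1ef7cf_nt_r.Mg.G012
import Pool.Agent.Lib.MP_1ef7cf_nt_r.Mg.G013
import Pool.Agent.Lib.MP_1ef7cf_nt_h.Mg.G008

section

/-!
# TASK Ba9a: analytic properties of the theta series

PROOF. By `hasSum_Th`, `Th t = ∑ r, ch r * EK z_r (‖f‖ t)` for `t > 0` (finite sum, `quot_finite`), `z_r = out r / f`. `Th_int`: `EK z` is continuous on `(0, ∞)` (`HurwitzZeta.continuousOn_evenKernel`), so `Th` is continuous on `(0, ∞)`, hence locally integrable (`ContinuousOn.locallyIntegrableOn`).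
`Th_top`: if `ch r ≠ 0` then `out r` is prime to `Q`, hence to `f`, which is not a unit, so `f` does not divide `out r`, and `z_r` is not a Gaussian integer (`circle_zero_iff` in `MP_1ef7cf_nt_g/AnK5.lean`; `z_r ∈ Lam` gives `out r = f * b`). So by `ek_top` (`MP_1ef7cf_nt_g/AnK3.lean`) `EK z_r t = O(t ^ ρ)`
as `t → ∞`, and `EK z_r (‖f‖ t) = O((‖f‖ t) ^ ρ) = O(t ^ ρ)`.
-/

set_option autoImplicit false

open Complex Filter Topology

namespace Pool.Agent.STr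

variable {Q : ℕ} {κ : GaussianInt → GaussianIntˣ} {f : GaussianInt}

private lemma Ba9a_fpos (c : Cd Q κ f) : 0 < ‖(f : ℂ)‖ := by
  rw [norm_pos_iff]
  intro h
  exact c.ne (GaussianInt.toComplex_eq_zero.1 h)

private lemma Ba9a_div {β : GaussianInt} (hβ : β ≠ 0) (r : GaussianInt) :
    (r : ℂ) / (β : ℂ) ∈ Pool.Agent.STg.Lam ↔ β ∣ r := by
  have hβ' : (β : ℂ) ≠ 0 := by
    intro h
    exact hβ (GaussianInt.toComplex_eq_zero.1 h)
  constructor
  · rintro ⟨a, ha⟩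
    refine ⟨a, ?_⟩
    have h : (r : ℂ) = ((β * a : GaussianInt) : ℂ) := by
      rw [GaussianInt.toComplex_mul]
      simp only at ha
      rw [ha]
      field_simp
    exact GaussianInt.toComplex_inj.1 h
  · rintro ⟨a, rfl⟩
    rw [GaussianInt.toComplex_mul, mul_div_cancel_left₀ _ hβ']
    exact ⟨a, rfl⟩

private lemma Ba9a_eq (hQ : Q ≠ 0) (c : Cd Q κ f) [Fintype (GaussianInt ⧸ Ideal.span {f})] {t : ℝ}
    (ht : 0 < t) :
    Th Q κ f t = ∑ r : GaussianInt ⧸ Ideal.span {f}, ch Q κ (Quotient.out r) *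
        ((EK (((Quotient.out r : GaussianInt) : ℂ) / (f : ℂ)) (‖(f : ℂ)‖ * t) : ℝ) : ℂ) := by
  have h := (hasSum_Th hQ c ht).tsum_eq
  unfold Th
  rw [h, finsum_eq_sum_of_fintype]

theorem Th_int (hQ : Q ≠ 0) (c : Cd Q κ f) : MeasureTheory.LocallyIntegrableOn (Th Q κ f) (Set.Ioi 0) := by
  have hfin : Finite (GaussianInt ⧸ Ideal.span {f}) := quot_finite c.ne
  obtain ⟨hft⟩ := nonempty_fintype (GaussianInt ⧸ Ideal.span {f})
  have hf := Ba9a_fpos c
  have hc : ContinuousOn (Th Q κ f) (Set.Ioi 0) := by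
    have h1 : ContinuousOn (fun t : ℝ => ∑ r : GaussianInt ⧸ Ideal.span {f}, ch Q κ (Quotient.out r) *
        ((EK (((Quotient.out r : GaussianInt) : ℂ) / (f : ℂ)) (‖(f : ℂ)‖ * t) : ℝ) : ℂ)) (Set.Ioi 0) := by
      apply continuousOn_finsetSum
      intro r _
      apply continuousOn_const.mul
      apply Complex.continuous_ofReal.comp_continuousOn
      have hl : ContinuousOn (fun t : ℝ => ‖(f : ℂ)‖ * t) (Set.Ioi 0) := by fun_prop
      have hm : Set.MapsTo (fun t : ℝ => ‖(f : ℂ)‖ * t) (Set.Ioi 0) (Set.Ioi 0) :=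
        fun t ht => mul_pos hf ht
      exact ((HurwitzZeta.continuousOn_evenKernel _).comp hl hm).mul
        ((HurwitzZeta.continuousOn_evenKernel _).comp hl hm)
    exact h1.congr (fun t ht => Ba9a_eq hQ c ht)
  exact hc.locallyIntegrableOn measurableSet_Ioi

theorem Th_top (hQ : Q ≠ 0) (c : Cd Q κ f) (ρ : ℝ) : Th Q κ f =O[atTop] fun t : ℝ => t ^ ρ := by
  have hfin : Finite (GaussianInt ⧸ Ideal.span {f}) := quot_finite c.ne
  obtain ⟨hft⟩ := nonempty_fintype (GaussianInt ⧸ Ideal.span {f})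
  have hf := Ba9a_fpos c
  have h1 : (fun t : ℝ => ∑ r : GaussianInt ⧸ Ideal.span {f}, ch Q κ (Quotient.out r) *
        ((EK (((Quotient.out r : GaussianInt) : ℂ) / (f : ℂ)) (‖(f : ℂ)‖ * t) : ℝ) : ℂ))
      =O[atTop] fun t : ℝ => t ^ ρ := by
    apply Asymptotics.IsBigO.fun_sum
    intro r _
    by_cases hco : IsCoprime (Quotient.out r : GaussianInt) ((Q : ℕ) : GaussianInt)
    · apply Asymptotics.IsBigO.const_mul_left
      have hnd : ¬ f ∣ (Quotient.out r : GaussianInt) := by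
        intro hd
        apply c.nu
        have h2 := (coprime_iff hQ c _).1 hco
        exact h2.isUnit_of_dvd' hd dvd_rfl
      have hnl : ¬ (((((Quotient.out r : GaussianInt) : ℂ) / (f : ℂ)).re : UnitAddCircle) = 0 ∧
          ((((Quotient.out r : GaussianInt) : ℂ) / (f : ℂ)).im : UnitAddCircle) = 0) := by
        rw [Pool.Agent.STg.An.circle_zero_iff]
        intro hm
        apply hnd
        exact (Ba9a_div c.ne _).1 hm
      have h3 := Pool.Agent.STg.An.ek_top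
        ((((Quotient.out r : GaussianInt) : ℂ) / (f : ℂ)).re : UnitAddCircle)
        ((((Quotient.out r : GaussianInt) : ℂ) / (f : ℂ)).im : UnitAddCircle) ρ
      simp only [if_neg hnl, sub_zero] at h3
      have h4 : Tendsto (fun t : ℝ => ‖(f : ℂ)‖ * t) atTop atTop :=
        tendsto_id.const_mul_atTop hf
      have h5 := h3.comp_tendsto h4
      refine h5.trans ?_
      have h6 : ((fun t : ℝ => t ^ ρ) ∘ fun t : ℝ => ‖(f : ℂ)‖ * t)
          =ᶠ[atTop] fun t : ℝ => ‖(f : ℂ)‖ ^ ρ * t ^ ρ := by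
        filter_upwards [eventually_gt_atTop 0] with t ht
        show (‖(f : ℂ)‖ * t) ^ ρ = _
        rw [Real.mul_rpow hf.le ht.le]
      exact h6.isBigO.trans (Asymptotics.isBigO_const_mul_self _ _ _)
    · rw [ch_not hco]
      simp only [zero_mul]
      exact Asymptotics.isBigO_zero _ _
  have h2 : Th Q κ f =ᶠ[atTop] (fun t : ℝ => ∑ r : GaussianInt ⧸ Ideal.span {f}, ch Q κ (Quotient.out r) *
        ((EK (((Quotient.out r : GaussianInt) : ℂ) / (f : ℂ)) (‖(f : ℂ)‖ * t) : ℝ) : ℂ)) := by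
    filter_upwards [eventually_gt_atTop 0] with t ht
    exact Ba9a_eq hQ c ht
  exact h2.isBigO.trans h1

end Pool.Agent.STr
end

section

/-!
# TASK Ba9: the functional equation of the Dirichlet series

PROOF. Let `φ = ‖f‖ > 0`, `G` from `exists_gauss`, `ε = G / φ ≠ 0`. `P : WeakFEPair ℂ` with `f = g = Th Q κ f`, `k = 1`, `ε`, `f₀ = g₀ = 0` (`Th_int`, `Th_feq`, `Th_top`; `x ^ (1 : ℝ) = x`). `P.Λ` is entire: `WeakFEPair.differentiable_Λ₀` and `P.Λ = P.Λ₀` as `f₀ = g₀ = 0` (`WeakFEPair.Λ`).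
`P.functional_equation`: `P.Λ (1 - s) = ε • P.symm.Λ s`, and `P.symm.Λ = P.Λ` (both are, for `re s > 1`, the Mellin transform of `Th` (`WeakFEPair.hasMellin`), and both are entire; or use the value at `s = 1` only after an identity theorem; or directly: `P.symm` has the same `f`, `g` and
`Λ₀` is the Mellin transform of `f_modif`, which for `f₀ = g₀ = 0` is `Th` on `(0, ∞)` except at `1`). So `P.Λ 0 = ε * P.Λ 1`.
`F s = (π / φ) ^ s * (Γ s)⁻¹ * P.Λ s`. For `re s > 1`: `hasSum_mellin_pi_mul` (cf. `AnK6_main` in `MP_1ef7cf_nt_g/AnK6.lean`) with `a = ch`, `q u = ‖u‖ ^ 2 / φ` (`ch 0 = 0`: `0` is not prime to `Q`; `‖ch u‖ ≤ 1`; summability of `‖u‖ ^ (-2 s)` over the nonzero Gaussian integers: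
`summable_NZ`) gives `HasSum (π ^ (-s) Γ(s) ch u / (‖u‖ ^ 2 / φ) ^ s) (mellin Th s)`, so `HasSum (ch u * ‖u‖ ^ (-2 s)) (F s)`. `F 0 = 0` (`(Γ 0)⁻¹ = 0`), `F' 0 = P.Λ 0` (`(Γ s)⁻¹ = s (Γ (s + 1))⁻¹`, so its derivative at `0` is `1`), `F 1 = (π / φ) P.Λ 1`. So `deriv F 0 = c * F 1` with `c = ε φ / π = G / π`.
-/

set_option autoImplicit false

open Complex Filter Topology

namespace Pool.Agent.STr

variable {Q : ℕ} {κ : GaussianInt → GaussianIntˣ} {f : GaussianInt}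

private lemma Ba9_norm (Q : ℕ) (κ : GaussianInt → GaussianIntˣ) (u : GaussianInt) :
    ‖ch Q κ u‖ ≤ 1 := by
  by_cases h : IsCoprime u ((Q : ℕ) : GaussianInt)
  · rw [ch_of h]
    have h1 : ((κ u : GaussianIntˣ) : GaussianInt).norm.natAbs = 1 :=
      Zsqrtd.norm_eq_one_iff.mpr (κ u).isUnit
    have h2 : ((κ u : GaussianIntˣ) : GaussianInt).norm = 1 := by
      have h3 := GaussianInt.norm_nonneg ((κ u : GaussianIntˣ) : GaussianInt)
      omega
    have h4 := GaussianInt.intCast_real_norm ((κ u : GaussianIntˣ) : GaussianInt)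
    rw [h2, Complex.normSq_eq_norm_sq] at h4
    have h5 := norm_nonneg ((((κ u : GaussianIntˣ) : GaussianInt)) : ℂ)
    push_cast at h4
    nlinarith
  · rw [ch_not h, norm_zero]
    exact zero_le_one

private lemma Ba9_zero (c : Cd Q κ f) : ch Q κ 0 = 0 := by
  apply ch_not
  intro h
  rw [isCoprime_zero_left] at h
  exact c.nu (isUnit_of_dvd_unit c.dvd h)

private lemma Ba9_summable {φ : ℝ} (hφ : 0 < φ) (c : Cd Q κ f) {σ : ℝ} (hσ : 1 < σ) :
    Summable (fun u : GaussianInt => ‖ch Q κ u‖ / (‖(u : ℂ)‖ ^ 2 / φ) ^ σ) := by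
  have h1 := Pool.Agent.STg.An.summable_NZ (r := 2 * σ) (by linarith)
  have h2 : Summable (fun a : Pool.Agent.STg.An.NZ =>
      ‖ch Q κ (a : GaussianInt)‖ / (‖((a : GaussianInt) : ℂ)‖ ^ 2 / φ) ^ σ) := by
    refine Summable.of_nonneg_of_le (fun a => ?_) (fun a => ?_) (h1.mul_left (φ ^ σ))
    · positivity
    · have ha : 0 < ‖((a : GaussianInt) : ℂ)‖ := by
        rw [norm_pos_iff, Ne, GaussianInt.toComplex_eq_zero]
        exact a.2
      have h3 : (‖((a : GaussianInt) : ℂ)‖ ^ 2 / φ) ^ σ =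
          ‖((a : GaussianInt) : ℂ)‖ ^ (2 * σ) / φ ^ σ := by
        rw [Real.div_rpow (by positivity) hφ.le, ← Real.rpow_natCast, ← Real.rpow_mul ha.le]
        norm_num
      have h4 : 0 < ‖((a : GaussianInt) : ℂ)‖ ^ (2 * σ) := Real.rpow_pos_of_pos ha _
      have h5 : 0 < φ ^ σ := Real.rpow_pos_of_pos hφ _
      rw [h3, Real.rpow_neg ha.le]
      calc ‖ch Q κ (a : GaussianInt)‖ / (‖((a : GaussianInt) : ℂ)‖ ^ (2 * σ) / φ ^ σ)
          ≤ 1 / (‖((a : GaussianInt) : ℂ)‖ ^ (2 * σ) / φ ^ σ) := by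
            gcongr
            exact Ba9_norm Q κ _
        _ = φ ^ σ * (‖((a : GaussianInt) : ℂ)‖ ^ (2 * σ))⁻¹ := by field_simp
  have h3 : Function.Injective (fun a : Pool.Agent.STg.An.NZ => (a : GaussianInt)) :=
    Subtype.val_injective
  refine (Function.Injective.summable_iff h3 ?_).mp h2
  intro x hx
  have hx0 : x = 0 := by
    by_contra h
    exact hx ⟨⟨x, h⟩, rfl⟩
  rw [hx0, Ba9_zero c, norm_zero, zero_div]

theorem exists_F (hQ : Q ≠ 0) (h : GC Q κ) (c : Cd Q κ f) :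
    ∃ (F : ℂ → ℂ) (C : ℂ), C ≠ 0 ∧ Differentiable ℂ F ∧ F 0 = 0 ∧ deriv F 0 = C * F 1 ∧
      ∀ s : ℂ, 1 < s.re → HasSum (fun u : GaussianInt => ch Q κ u * ((‖(u : ℂ)‖ : ℝ) : ℂ) ^ (-2 * s)) (F s) := by
  obtain ⟨G, hG0, hG⟩ := exists_gauss hQ h c
  obtain ⟨φ, hφe⟩ : ∃ φ : ℝ, φ = ‖(f : ℂ)‖ := ⟨_, rfl⟩
  have hφ : 0 < φ := by
    rw [hφe, norm_pos_iff, Ne, GaussianInt.toComplex_eq_zero]
    exact c.ne
  have hφC : ((φ : ℝ) : ℂ) ≠ 0 := by exact_mod_cast hφ.ne'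
  have hpi : ((Real.pi : ℝ) : ℂ) ≠ 0 := by exact_mod_cast Real.pi_ne_zero
  have hε : G / ((φ : ℝ) : ℂ) ≠ 0 := div_ne_zero hG0 hφC
  have hfe : ∀ x ∈ Set.Ioi (0 : ℝ), Th Q κ f (1 / x) =
      (G / ((φ : ℝ) : ℂ) * ((x ^ (1 : ℝ) : ℝ) : ℂ)) • Th Q κ f x := by
    intro x hx
    rw [Th_feq hQ c hG hx, Real.rpow_one, smul_eq_mul, hφe]
  have htop : ∀ r : ℝ, (fun x => Th Q κ f x - 0) =O[atTop] fun x : ℝ => x ^ r := by
    intro r
    simpa using Th_top hQ c r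
  obtain ⟨P, hPf, hPg, hPk, hPε, hPf₀, hPg₀⟩ : ∃ P : WeakFEPair ℂ, P.f = Th Q κ f ∧
      P.g = Th Q κ f ∧ P.k = 1 ∧ P.ε = G / ((φ : ℝ) : ℂ) ∧ P.f₀ = 0 ∧ P.g₀ = 0 :=
    ⟨{ f := Th Q κ f, g := Th Q κ f, k := 1, ε := G / ((φ : ℝ) : ℂ), f₀ := 0, g₀ := 0,
       hf_int := Th_int hQ c, hg_int := Th_int hQ c, hk := one_pos, hε := hε, h_feq := hfe,
       hf_top := htop, hg_top := htop }, rfl, rfl, rfl, rfl, rfl, rfl⟩
  have hP : IsStrongFEPair P := ⟨hPf₀, hPg₀⟩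
  have hL : P.Λ = mellin (Th Q κ f) := by rw [hP.Λ_eq, hPf]
  have hL' : P.symm.Λ = P.Λ := by rw [hP.symm_Λ_eq, hPg, hL]
  have hfun : P.Λ 0 = G / ((φ : ℝ) : ℂ) * P.Λ 1 := by
    have h1 := P.functional_equation 1
    rw [hPk, hPε, hL', smul_eq_mul] at h1
    simpa using h1
  have hdL : Differentiable ℂ P.Λ := hP.differentiable_Λ
  have ha : ((Real.pi / φ : ℝ) : ℂ) ≠ 0 := by
    have : (0 : ℝ) < Real.pi / φ := div_pos Real.pi_pos hφ
    exact_mod_cast this.ne'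
  have hda : Differentiable ℂ (fun s : ℂ => ((Real.pi / φ : ℝ) : ℂ) ^ s) := fun s =>
    (differentiableAt_id.const_cpow (Or.inl ha))
  have hdG := Complex.differentiable_one_div_Gamma
  have hdG1 : Differentiable ℂ (fun s : ℂ => (Complex.Gamma (s + 1))⁻¹) :=
    hdG.comp (differentiable_id.add_const (1 : ℂ))
  have hFs : ∀ s : ℂ, ((Real.pi / φ : ℝ) : ℂ) ^ s * (Complex.Gamma s)⁻¹ * P.Λ s =
      s * (((Real.pi / φ : ℝ) : ℂ) ^ s * (Complex.Gamma (s + 1))⁻¹ * P.Λ s) := by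
    intro s
    rw [Complex.one_div_Gamma_eq_self_mul_one_div_Gamma_add_one s]
    ring
  have hdH : Differentiable ℂ
      (fun s : ℂ => ((Real.pi / φ : ℝ) : ℂ) ^ s * (Complex.Gamma (s + 1))⁻¹ * P.Λ s) :=
    (hda.mul hdG1).mul hdL
  refine ⟨fun s => ((Real.pi / φ : ℝ) : ℂ) ^ s * (Complex.Gamma s)⁻¹ * P.Λ s,
    G / ((Real.pi : ℝ) : ℂ), div_ne_zero hG0 hpi, (hda.mul hdG).mul hdL, ?_, ?_, ?_⟩
  · simp [Complex.Gamma_zero]
  · have h1 : HasDerivAt (fun s : ℂ => ((Real.pi / φ : ℝ) : ℂ) ^ s * (Complex.Gamma s)⁻¹ * P.Λ s)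
        (P.Λ 0) 0 := by
      have h2 := (hasDerivAt_id (0 : ℂ)).mul (hdH 0).hasDerivAt
      have h3 : (fun s : ℂ => ((Real.pi / φ : ℝ) : ℂ) ^ s * (Complex.Gamma s)⁻¹ * P.Λ s) =
          id * (fun s : ℂ => ((Real.pi / φ : ℝ) : ℂ) ^ s * (Complex.Gamma (s + 1))⁻¹ * P.Λ s) := by
        funext s
        exact hFs s
      rw [h3]
      refine h2.congr_deriv ?_
      simp [Complex.Gamma_one]
    rw [h1.deriv, hfun]
    simp only [Complex.Gamma_one, Complex.cpow_one, inv_one, mul_one]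
    push_cast
    field_simp
  · intro s hs
    have hs0 : 0 < s.re := by linarith
    have := Pool.Agent.STg.An.AnK6_countable
    have h1 := hasSum_mellin_pi_mul (ι := GaussianInt) (a := ch Q κ)
      (q := fun u => ‖(u : ℂ)‖ ^ 2 / φ) (F := Th Q κ f) (s := s) ?_ hs0 ?_
      (Ba9_summable hφ c hs)
    · rw [← hL] at h1
      have hG1 : Complex.Gamma s ≠ 0 := Complex.Gamma_ne_zero_of_re_pos hs0
      have h2 := h1.mul_left (((Real.pi / φ : ℝ) : ℂ) ^ s * (Complex.Gamma s)⁻¹)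
      have hfin : (fun u : GaussianInt => ch Q κ u * ((‖(u : ℂ)‖ : ℝ) : ℂ) ^ (-2 * s)) =
          fun u : GaussianInt => ((Real.pi / φ : ℝ) : ℂ) ^ s * (Complex.Gamma s)⁻¹ *
            (((Real.pi : ℝ) : ℂ) ^ (-s) * Complex.Gamma s * ch Q κ u /
              ((‖(u : ℂ)‖ ^ 2 / φ : ℝ) : ℂ) ^ s) := ?_
      · rw [hfin]
        exact h2
      funext u
      by_cases hu : u = 0
      · rw [hu, Ba9_zero c]
        simp
      · have hu0 : 0 < ‖(u : ℂ)‖ := by
          rw [norm_pos_iff, Ne, GaussianInt.toComplex_eq_zero]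
          exact hu
        have e1 : ((‖(u : ℂ)‖ ^ 2 / φ : ℝ) : ℂ) ^ s =
            ((‖(u : ℂ)‖ ^ 2 : ℝ) : ℂ) ^ s / ((φ : ℝ) : ℂ) ^ s := by
          rw [Complex.ofReal_div, Complex.div_cpow_ofReal_nonneg (by positivity) hφ.le]
        have e2 : ((Real.pi / φ : ℝ) : ℂ) ^ s = ((Real.pi : ℝ) : ℂ) ^ s / ((φ : ℝ) : ℂ) ^ s := by
          rw [Complex.ofReal_div, Complex.div_cpow_ofReal_nonneg Real.pi_pos.le hφ.le]
        have e3 := Pool.Agent.STg.An.AnK6_rpow hu0 s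
        have n1 : ((‖(u : ℂ)‖ ^ 2 : ℝ) : ℂ) ^ s ≠ 0 := by
          rw [Complex.cpow_ne_zero_iff]
          left
          have : (0 : ℝ) < ‖(u : ℂ)‖ ^ 2 := by positivity
          exact_mod_cast this.ne'
        have n2 : ((φ : ℝ) : ℂ) ^ s ≠ 0 := by
          rw [Complex.cpow_ne_zero_iff]
          left
          exact hφC
        have n3 : ((Real.pi : ℝ) : ℂ) ^ s ≠ 0 := by
          rw [Complex.cpow_ne_zero_iff]
          left
          exact hpi
        rw [← e3]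
        simp only [e1, e2, Complex.cpow_neg]
        field_simp
    · intro u
      by_cases hu : u = 0
      · left
        rw [hu]
        exact Ba9_zero c
      · right
        have hu0 : 0 < ‖(u : ℂ)‖ := by
          rw [norm_pos_iff, Ne, GaussianInt.toComplex_eq_zero]
          exact hu
        positivity
    · intro t ht
      have h2 := (hasSum_Th hQ c ht).summable.hasSum
      rw [hφe]
      exact h2

end Pool.Agent.STr
end

section

/-!
# TASK Bc1a: the derivative at `0` of the `L`-series of `κ` is not zero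

PROOF. `f` by `exists_cd` (Ba6; `UD_gc U`; `2 ∣ 64 U.d ∣ U.n`), `F`, `C` by `exists_F` (Ba9). `Z B` a partial zeta function of `B` for every class (`Norm2.lean` in `MP_1ef7cf_nt`, line 41; `m ≠ ⊤`: `Hy.ne_top`). For `re s > 1`: `F s / 4 = ∑' l, cM U l * l ^ (-s)` (`hasSum_cM`, Bb1),
`∑ B, κ B * Z B s = ∑' l, cK a m l * l ^ (-s)` (`L_series`, Bb3). `cK a m l = cK a (span {U.n}) l = cM U l` for `l ≠ 0` (`chiK_congr` in `MP_1ef7cf_nt_h/F04.lean` with `hpr`; `cK_eq_cM` in S5.lean) and `0 ^ (-s) = 0`. So both are equal for `re s > 1`, and by the identity theorem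
(`AnalyticOnNhd.eqOn_of_preconnected_of_eventuallyEq`, `{1}ᶜ` is preconnected; cf. `IsPartialZeta.unique` in `MP_1ef7cf_nt/AN.lean`) on `{1}ᶜ`. Derivative at `0`: `∑ B, κ B * deriv (Z B) 0 = deriv F 0 / 4 = C * F 1 / 4`, and `deriv (Z B) 0 = zd B` (`zd_eq`).
`F 1 ≠ 0`: for real `s > 1`, `F s / 4 = ∑' l, cK a m l * l ^ (-s)` is (the cast of) a real number, `≥ c > 0` for `s → 1+` (`nonvan`, Bb6; `hab` from `hpr`: if `2 d ∈ v` then `U.n ∈ v`, since `64 d ∣ n`); `F` is continuous at `1`, so `(F 1 / 4).re ≥ c`.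
-/

set_option autoImplicit false

open NumberField IsDedekindDomain nonZeroDivisors IntermediateField Filter Topology

namespace Pool.Agent.STr

open Pool.Agent.ST
open Pool.Agent.STh (UD cM)
open Pool.Agent.STh.F (FD se chiI cK)

variable {K : Type*} [Field K] [NumberField K] [Algebra K ℝ] {σ₂ : K →+* ℝ} {n m : Ideal (𝓞 K)} {a : 𝓞 K}

theorem sum_zd_ne (hy : Hy σ₂ n) (hm : m ≠ ⊥) (hnm : n ∣ m) (U : UD) (D : FD σ₂ U.d a) (hram : Ram U.n U.κ)
    (hpr : ∀ v : PrI K, v.asIdeal ∣ m ↔ (U.n : 𝓞 K) ∈ v.asIdeal) {κ : RayClassGroup σ₂ m →* ℂˣ}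
    (hκ : ∀ (I : Ideal (𝓞 K)) (J : primeTo (K := K) m), ((J : (FI K)ˣ) : FI K) = (I : FI K) →
        ((κ (cls σ₂ m J) : ℂˣ) : ℂ) = ((chiI a I : ℤ) : ℂ)) :
    ∑ᶠ B, ((κ B : ℂˣ) : ℂ) * (zd σ₂ m B : ℂ) ≠ 0 := by
  classical
  have hfin := hy.finite_cl hm hnm
  have := Fintype.ofFinite (RayClassGroup σ₂ m)
  have hm1 : m ≠ ⊤ := hy.ne_top hnm
  have h2n : 2 ∣ U.n := (Dvd.intro (32 * U.d) (by ring)).trans U.dvd
  obtain ⟨f, hf⟩ := exists_cd U.n0 h2n (UD_gc U) hram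
  obtain ⟨F, C, hC, hFd, hF0, hFd0, hFs⟩ := exists_F U.n0 (UD_gc U) hf
  choose Z hZ hZ0 using fun B : RayClassGroup σ₂ m => exists_pz hy.h2 hy.hσ hm hm1 B
  have hn0 : (U.n : 𝓞 K) ≠ 0 := by exact_mod_cast U.n0
  have hspan : Ideal.span {(U.n : 𝓞 K)} ≠ ⊥ := by
    rw [Ne, Ideal.span_singleton_eq_bot]; exact hn0
  have hc : ∀ l : ℕ, l ≠ 0 → cK a m l = cM U l := by
    intro l hl
    rw [← Pool.Agent.STh.cK_eq_cM U D hl]
    unfold cK
    refine finsum_mem_congr rfl fun I _ => ?_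
    exact Pool.Agent.STh.F.chiK_congr a hm hspan
      (fun v => by rw [hpr v, Ideal.dvd_span_singleton]) I
  have hser : ∀ s : ℂ, 1 < s.re → ∑ᶠ B, ((κ B : ℂˣ) : ℂ) * Z B s = F s / 4 := by
    intro s hs
    have h1 := L_series hm hκ hZ hs
    have h2 := hasSum_cM U hs (hFs s hs)
    refine h1.unique ?_
    have h3 : (fun l : ℕ => ((cK a m l : ℤ) : ℂ) * (l : ℂ) ^ (-s)) =
        fun l : ℕ => ((cM U l : ℤ) : ℂ) * (l : ℂ) ^ (-s) := by
      funext l
      rcases eq_or_ne l 0 with rfl | hl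
      · have hs0 : -s ≠ 0 := by
          intro h
          have : s = 0 := by simpa using h
          rw [this] at hs
          norm_num at hs
        rw [Nat.cast_zero, Complex.zero_cpow hs0, mul_zero, mul_zero]
      · rw [hc l hl]
    rw [h3]
    exact h2
  have hA : AnalyticOnNhd ℂ (fun s => ∑ᶠ B, ((κ B : ℂˣ) : ℂ) * Z B s) {1}ᶜ := by
    have : (fun s => ∑ᶠ B, ((κ B : ℂˣ) : ℂ) * Z B s) = fun s => ∑ B, ((κ B : ℂˣ) : ℂ) * Z B s := by
      funext s
      exact finsum_eq_sum_of_fintype _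
    rw [this]
    refine Finset.analyticOnNhd_fun_sum _ fun B _ => ?_
    exact analyticOnNhd_const.mul (hZ B).1
  have hA' : AnalyticOnNhd ℂ (fun s => F s / 4) {1}ᶜ := by
    have h1 : Differentiable ℂ (fun s => F s / 4) := hFd.div_const 4
    exact fun s _ => h1.analyticAt s
  have heq := eq_of_eq_right hA hA' hser
  have hder := deriv_eq_of_eqOn heq
  have h0 : (0 : ℂ) ∈ ({1}ᶜ : Set ℂ) := by simp
  have hd1 : deriv (fun s => ∑ᶠ B, ((κ B : ℂˣ) : ℂ) * Z B s) 0 =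
      ∑ᶠ B, ((κ B : ℂˣ) : ℂ) * (zd σ₂ m B : ℂ) := by
    have : (fun s => ∑ᶠ B, ((κ B : ℂˣ) : ℂ) * Z B s) = fun s => ∑ B, ((κ B : ℂˣ) : ℂ) * Z B s := by
      funext s
      exact finsum_eq_sum_of_fintype _
    rw [this, finsum_eq_sum_of_fintype, deriv_fun_sum]
    · refine Finset.sum_congr rfl fun B _ => ?_
      rw [deriv_const_mul _ ((hZ B).1 0 h0).differentiableAt, zd_eq (hZ B)]
    · intro B _
      exact (((hZ B).1 0 h0).differentiableAt).const_mul _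
  have hd2 : deriv (fun s => F s / 4) 0 = C * F 1 / 4 := by
    rw [deriv_div_const, hFd0]
  rw [← hd1, hder, hd2]
  have hF1 : F 1 ≠ 0 := by
    intro hF1
    have hab : ∀ v : PrI K, (2 * U.d : 𝓞 K) ∈ v.asIdeal → v.asIdeal ∣ m := by
      intro v hv
      rw [hpr v]
      obtain ⟨k, hk⟩ := U.dvd
      have h1 : (U.n : 𝓞 K) = (32 * k : 𝓞 K) * (2 * U.d : 𝓞 K) := by
        rw [hk]; push_cast; ring
      rw [h1]
      exact v.asIdeal.mul_mem_left _ hv
    obtain ⟨c, hc0, hcs⟩ := nonvan D hm hab hκ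
    have hcont : Tendsto (fun s : ℝ => (F (s : ℂ) / 4).re) (𝓝[>] (1 : ℝ)) (𝓝 (F 1 / 4).re) := by
      have h1 : Continuous (fun s : ℝ => (F (s : ℂ) / 4).re) :=
        Complex.continuous_re.comp ((hFd.continuous.comp Complex.continuous_ofReal).div_const 4)
      have h2 := h1.tendsto (1 : ℝ)
      rw [Complex.ofReal_one] at h2
      exact h2.mono_left nhdsWithin_le_nhds
    have hge : c ≤ (F 1 / 4).re := by
      refine ge_of_tendsto hcont ?_
      filter_upwards [hcs, self_mem_nhdsWithin] with s hs hs1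
      have hs1' : (1 : ℝ) < s := hs1
      have hs2 : 1 < (s : ℂ).re := by simpa using hs1'
      have h1 := L_series hm hκ hZ hs2
      rw [hser _ hs2] at h1
      have h2 := Complex.hasSum_re h1
      have h3 : (fun l : ℕ => (((cK a m l : ℤ) : ℂ) * (l : ℂ) ^ (-(s : ℂ))).re) =
          fun l : ℕ => ((cK a m l : ℤ) : ℝ) * (l : ℝ) ^ (-s) := by
        funext l
        have h4 : ((l : ℂ)) ^ (-(s : ℂ)) = (((l : ℝ) ^ (-s) : ℝ) : ℂ) := by
          rw [Complex.ofReal_cpow (Nat.cast_nonneg l)]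
          push_cast
          rfl
        have h5 : ((cK a m l : ℤ) : ℂ) = (((cK a m l : ℤ) : ℝ) : ℂ) := by push_cast; rfl
        rw [h4, h5, ← Complex.ofReal_mul, Complex.ofReal_re]
      rw [h3] at h2
      rw [← h2.tsum_eq]
      exact hs
    rw [hF1] at hge
    simp at hge
    exact absurd hc0 (not_lt.2 hge)
  exact div_ne_zero (mul_ne_zero hC hF1) (by norm_num)

end Pool.Agent.STr
end
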