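import Pool.Agent.Lib.MP_1ef7cf_nt_r.Df
import Pool.Agent.Lib.MP_1ef7cf_nt_d.CLA

section

/-!
# TASK E0: definitions of the fields of section 4, and the group theory

`M1 M e l = M(ζ_l, e ^ (1 / l)) ⊆ ℂ`. `fixL σ`: the fixed field of `σ` (`MP_1ef7cf_nt_d/CLA.lean`).

PROOF. `M1_fd`: `M.map (jR K)` is finite dimensional and Galois over `K` if `M` is, and `adjoin K {x | x ^ l = 1 ∨ x ^ l = e}` is the splitting field of
`(X ^ l - 1) (X ^ l - e)` (`adjoin_roots_fd` in `MP_1ef7cf_nt_d/KUM.lean`); the compositum of two Galois extensions is Galois (instances).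
`finrank_fixL`: `IntermediateField.finrank_fixedField_eq_card` (`[H : H^D] = |D| = orderOf σ`) and the tower formula; `IntermediateField.lift` does not change the
degree over `K`.
`gen_of_fix`: `g` fixes `fixL σ`, so `g ∈ zpowers σ` (`mem_of_fix` in CLA), `g = σ ^ j` with `j : ℕ` (finite order). If `p₀ ∣ j` then `g ∈ zpowers (σ ^ p₀)` and `g` fixes
`fixL (σ ^ p₀)`, contradiction.
-/

set_option autoImplicit false

open NumberField IsDedekindDomain nonZeroDivisors IntermediateField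

namespace Pool.Agent.STr

open Pool.Agent.ST
open Pool.Agent.STd (jR fixL)

variable {K : Type*} [Field K] [NumberField K] [Algebra K ℝ]

/-- the field `M(ζ_l, e ^ (1 / l))` -/
noncomputable def M1 (M : IntermediateField K ℝ) (e : K) (l : ℕ) : IntermediateField K ℂ :=
  M.map (jR K) ⊔ IntermediateField.adjoin K {x : ℂ | x ^ l = 1 ∨ x ^ l = algebraMap K ℂ e}

theorem M1_fd (M : IntermediateField K ℝ) [FiniteDimensional K M] [IsGalois K M] (e : K) {l : ℕ} (hl : l ≠ 0) :
    FiniteDimensional K (M1 M e l) ∧ IsGalois K (M1 M e l) := by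
  have hc : CharZero K := inferInstance
  have h0 : 0 < l := Nat.pos_of_ne_zero hl
  have h1 : IntermediateField.adjoin K {x : ℂ | x ^ l = 1 ∨ x ^ l = algebraMap K ℂ e} =
      IntermediateField.adjoin K {x : ℂ | Polynomial.aeval x
        ((Polynomial.X ^ l - Polynomial.C 1) * (Polynomial.X ^ l - Polynomial.C e) : Polynomial K) = 0} := by
    congr 1
    ext x
    simp only [Set.mem_ofPred_eq, map_mul, map_sub, map_pow, Polynomial.aeval_X, Polynomial.aeval_C,
      mul_eq_zero, sub_eq_zero, map_one]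
  have h2 := Pool.Agent.STd.adjoin_roots_fd
    ((Polynomial.X ^ l - Polynomial.C 1) * (Polynomial.X ^ l - Polynomial.C e) : Polynomial K)
    (mul_ne_zero (Pool.Agent.STd.root_ne h0) (Pool.Agent.STd.root_ne h0))
  rw [← h1] at h2
  obtain ⟨h3, h4⟩ := h2
  have e1 : M ≃ₐ[K] M.map (jR K) := IntermediateField.equivMap M (jR K)
  have h5 : FiniteDimensional K (M.map (jR K)) := Module.Finite.equiv e1.toLinearEquiv
  have h6 : IsGalois K (M.map (jR K)) := IsGalois.of_algEquiv e1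
  have h7 : FiniteDimensional K (M1 M e l) := by
    unfold M1; infer_instance
  have h8 : Normal K (M1 M e l) := by
    unfold M1; infer_instance
  exact ⟨h7, ⟨⟩⟩

theorem numberField_C (L : IntermediateField K ℂ) [FiniteDimensional K L] : NumberField L := by
  have : CharZero L := charZero_of_injective_algebraMap (algebraMap K L).injective
  have : FiniteDimensional ℚ L := Module.Finite.trans K L
  exact ⟨⟩

theorem finrank_fixL {H : IntermediateField K ℝ} [FiniteDimensional K H] (σ : H ≃ₐ[K] H) :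
    Module.finrank K (fixL σ) * orderOf σ = Module.finrank K H := by
  have h1 : Module.finrank K (fixL σ) = Module.finrank K (IntermediateField.fixedField (Subgroup.zpowers σ)) := by
    have e1 := IntermediateField.liftAlgEquiv (IntermediateField.fixedField (Subgroup.zpowers σ))
    exact e1.toLinearEquiv.finrank_eq.symm
  have h2 : Module.finrank (IntermediateField.fixedField (Subgroup.zpowers σ)) H = orderOf σ := by
    rw [IntermediateField.finrank_fixedField_eq_card, Nat.card_zpowers]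
  rw [h1, ← h2]
  exact Module.finrank_mul_finrank K (IntermediateField.fixedField (Subgroup.zpowers σ)) H

theorem gen_of_fix {H : IntermediateField K ℝ} [FiniteDimensional K H] [IsGalois K H] {σ g : H ≃ₐ[K] H} {p₀ : ℕ}
    (h1 : ∀ x ∈ fixL σ, act g x = x) (h2 : ∃ x ∈ fixL (σ ^ p₀), act g x ≠ x) : ∃ j : ℕ, g = σ ^ j ∧ ¬ p₀ ∣ j := by
  have h3 : g ∈ Subgroup.zpowers σ := Pool.Agent.STd.mem_of_fix _ h1
  obtain ⟨j, hj⟩ := mem_powers_iff_mem_zpowers.2 h3
  have hj' : g = σ ^ j := hj.symm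
  refine ⟨j, hj', ?_⟩
  rintro ⟨k, rfl⟩
  obtain ⟨x, hx, hne⟩ := h2
  have hxH : x ∈ H := Pool.Agent.STd.fixL_le _ hx
  have h4 := (Pool.Agent.STd.mem_fixL _ hxH).1 hx
  have h5 : ∀ n : ℕ, ((σ ^ p₀) ^ n) ⟨x, hxH⟩ = ⟨x, hxH⟩ := by
    intro n
    induction n with
    | zero => simp
    | succ n ih => rw [pow_succ, AlgEquiv.mul_apply, h4, ih]
  apply hne
  rw [hj', pow_mul]
  unfold act
  rw [dif_pos hxH, h5 k]

end Pool.Agent.STr
end

section

/-!
# TASK E2: Kummer theory over `M`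

CLAIM. Let `l` be prime, `e ∈ K` nonzero, `w ∈ M` nonzero and `w ≠ e ^ k z ^ l` for all `k`, `z ∈ M`. Then `w` is not an `l`-th power in `M1 M e l`.

PROOF. Template: `kummer` in `MP_1ef7cf_nt_d/KUM.lean` (there for powers of `2`). We work over the base field `M` itself:
`E2_aux` (Kummer theory over the field generated by the roots of unity), `E2_degree` (the degree of that field is at most `l - 1`), `E2_main`
(the norm to `M`).
-/

set_option autoImplicit false

open NumberField IsDedekindDomain nonZeroDivisors IntermediateField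

namespace Pool.Agent.STr

open Pool.Agent.ST
open Pool.Agent.STd (jR fixL KZ)

section base

open Polynomial

variable {F : Type*} [Field F] [Algebra F ℝ]

/-- the field generated over `F` by the `n`-th roots of `e` and of `1` -/
private noncomputable def E2_L (e : F) (n : ℕ) : IntermediateField F ℂ :=
  IntermediateField.adjoin F {x : ℂ | x ^ n = algebraMap F ℂ e ∨ x ^ n = 1}

private lemma E2_L_eq (e : F) (n : ℕ) : E2_L e n = IntermediateField.adjoin F {x : ℂ | aeval x
    ((X ^ n - C e) * (X ^ n - C 1)) = 0} := by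
  unfold E2_L
  congr 1
  ext x
  simp only [Set.mem_ofPred_eq, map_mul, map_sub, map_pow, aeval_X, aeval_C, mul_eq_zero, sub_eq_zero,
    map_one]

private lemma E2_fd (e : F) {n : ℕ} (hn : 0 < n) :
    FiniteDimensional F (E2_L e n) ∧ IsGalois F (E2_L e n) := by
  rw [E2_L_eq]
  exact Pool.Agent.STd.adjoin_roots_fd _ (mul_ne_zero (Pool.Agent.STd.root_ne hn) (Pool.Agent.STd.root_ne hn))

private lemma E2_aux {e β : F} (he : e ≠ 0) (hβ : β ≠ 0) {n : ℕ} (hn0 : 0 < n) {w : ℂ} (hw : w ∈ E2_L e n)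
    (h : w ^ n = algebraMap F ℂ β) :
    ∃ (j : ℕ) (y : ℂ), y ∈ KZ F n ∧ y ^ n = algebraMap F ℂ (β / e ^ j) := by
  classical
  obtain ⟨hMfd, hMgal⟩ := E2_fd e hn0
  have hKM : KZ F n ≤ E2_L e n := by
    unfold KZ E2_L
    rw [adjoin_le_iff]
    intro x hx
    exact subset_adjoin F _ (Or.inr hx)
  obtain ⟨ρ, hρ⟩ := IsAlgClosed.exists_pow_nat_eq (algebraMap F ℂ e) hn0
  have hρM : ρ ∈ E2_L e n := subset_adjoin F _ (Or.inl hρ)
  have he' : algebraMap F ℂ e ≠ 0 := (_root_.map_ne_zero _).2 he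
  have hβ' : algebraMap F ℂ β ≠ 0 := (_root_.map_ne_zero _).2 hβ
  let M := E2_L e n
  let k₀ : IntermediateField F M := IntermediateField.restrict hKM
  let Γ : Subgroup (M ≃ₐ[F] M) := k₀.fixingSubgroup
  have hfixed : IntermediateField.fixedField Γ = k₀ := IsGalois.fixedField_fixingSubgroup k₀
  -- roots of unity are fixed
  have hroot : ∀ z : M, z ^ n = 1 → z ∈ k₀ := by
    intro z hz
    rw [IntermediateField.mem_restrict]
    apply subset_adjoin F
    change (z : ℂ) ^ n = 1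
    have := congrArg (fun z : M => (z : ℂ)) hz
    simpa using this
  -- the Kummer characters
  have hchar : ∀ (a : M) (b : F), a ≠ 0 → a ^ n = algebraMap F M b →
      ∃ χ : Γ →* M, ∀ σ : Γ, χ σ = (σ : M ≃ₐ[F] M) a / a := by
    intro a b ha hab
    have hpow : ∀ σ : M ≃ₐ[F] M, (σ a / a) ^ n = 1 := by
      intro σ
      rw [div_pow, ← map_pow, hab, AlgEquiv.commutes, div_self]
      rw [← hab]; exact pow_ne_zero _ ha
    have hfix : ∀ (σ : Γ) (τ : M ≃ₐ[F] M), (σ : M ≃ₐ[F] M) (τ a / a) = τ a / a := by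
      intro σ τ
      have h1 := (IntermediateField.mem_fixingSubgroup_iff k₀ σ.1).1 σ.2 _ (hroot _ (hpow τ))
      exact h1
    refine ⟨{ toFun := fun σ => (σ : M ≃ₐ[F] M) a / a
              map_one' := by
                rw [Subgroup.coe_one, AlgEquiv.one_apply, div_self ha]
              map_mul' := ?_ }, fun σ => rfl⟩
    intro σ τ
    have h1 := hfix σ τ
    have hσa : (σ : M ≃ₐ[F] M) a ≠ 0 := (_root_.map_ne_zero _).2 ha
    rw [map_div₀] at h1
    rw [Subgroup.coe_mul, AlgEquiv.mul_apply]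
    have h2 : (σ : M ≃ₐ[F] M) ((τ : M ≃ₐ[F] M) a) = ((τ : M ≃ₐ[F] M) a / a) * (σ : M ≃ₐ[F] M) a := by
      rw [← h1, div_mul_cancel₀ _ hσa]
    rw [h2]
    field_simp
  set ρ' : M := ⟨ρ, hρM⟩ with hρ'
  set w' : M := ⟨w, hw⟩ with hw'
  have hρ'n : ρ' ^ n = algebraMap F M e := Subtype.ext hρ
  have hw'n : w' ^ n = algebraMap F M β := Subtype.ext h
  have hρ0 : ρ' ≠ 0 := by
    intro h0
    rw [h0, zero_pow hn0.ne'] at hρ'n
    exact he ((map_eq_zero _).1 hρ'n.symm)
  have hw0 : w' ≠ 0 := by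
    intro h0
    rw [h0, zero_pow hn0.ne'] at hw'n
    exact hβ ((map_eq_zero _).1 hw'n.symm)
  obtain ⟨χ, hχ⟩ := hchar ρ' e hρ0 hρ'n
  obtain ⟨ψ, hψ⟩ := hchar w' β hw0 hw'n
  have hinj : Function.Injective χ := by
    rw [injective_iff_map_eq_one]
    intro σ hσ
    rw [hχ, div_eq_one_iff_eq hρ0] at hσ
    apply Subtype.ext
    apply AlgEquiv.ext
    have h1 : E2_L e n ≤ IntermediateField.lift
        (IntermediateField.fixedField (Subgroup.zpowers (σ : M ≃ₐ[F] M))) := by
      have hmem : ∀ z : M, (σ : M ≃ₐ[F] M) z = z → (z : ℂ) ∈ IntermediateField.lift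
          (IntermediateField.fixedField (Subgroup.zpowers (σ : M ≃ₐ[F] M))) := by
        intro z hz
        rw [IntermediateField.mem_lift, IntermediateField.mem_fixedField_iff]
        intro τ hτ
        obtain ⟨k, rfl⟩ := Subgroup.mem_zpowers_iff.1 hτ
        have h2 : (σ : M ≃ₐ[F] M) ∈ MulAction.stabilizer (M ≃ₐ[F] M) z := hz
        exact (MulAction.stabilizer (M ≃ₐ[F] M) z).zpow_mem h2 k
      conv_lhs => unfold E2_L
      rw [adjoin_le_iff]
      intro x hx
      have hxM : x ∈ E2_L e n := subset_adjoin F _ hx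
      refine hmem ⟨x, hxM⟩ ?_
      rcases hx with hx | hx
      · have h3 : (⟨x, hxM⟩ : M) / ρ' ∈ k₀ := by
          apply hroot
          apply Subtype.ext
          change (x / ρ) ^ n = 1
          rw [div_pow, hρ, hx, div_self he']
        have h4 := (IntermediateField.mem_fixingSubgroup_iff k₀ σ.1).1 σ.2 _ h3
        have h5 : (⟨x, hxM⟩ : M) = (⟨x, hxM⟩ : M) / ρ' * ρ' := (div_mul_cancel₀ _ hρ0).symm
        rw [h5, map_mul, h4, hσ]
      · have h3 : (⟨x, hxM⟩ : M) ∈ k₀ := by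
          rw [IntermediateField.mem_restrict]
          exact subset_adjoin F _ hx
        exact (IntermediateField.mem_fixingSubgroup_iff k₀ σ.1).1 σ.2 _ h3
    intro z
    have h2 := h1 z.2
    rw [IntermediateField.mem_lift, IntermediateField.mem_fixedField_iff] at h2
    exact h2 _ (Subgroup.mem_zpowers _)
  have hcyc : IsCyclic Γ := isCyclic_of_injective_ringHom χ hinj
  obtain ⟨σ₀, hσ₀⟩ := IsCyclic.exists_generator (α := Γ)
  have hprim : IsPrimitiveRoot (χ σ₀) (orderOf σ₀) := by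
    have := IsPrimitiveRoot.orderOf (χ σ₀)
    rwa [orderOf_injective χ hinj σ₀] at this
  have hpos : 0 < orderOf σ₀ := orderOf_pos σ₀
  have : NeZero (orderOf σ₀) := ⟨hpos.ne'⟩
  obtain ⟨j, -, hj⟩ := hprim.eq_pow_of_pow_eq_one (ξ := ψ σ₀) (by
    rw [← map_pow, pow_orderOf_eq_one, map_one])
  -- the quotient is fixed
  have hy : w' / ρ' ^ j ∈ k₀ := by
    rw [← hfixed, IntermediateField.mem_fixedField_iff]
    have h1 : (σ₀ : M ≃ₐ[F] M) (w' / ρ' ^ j) = w' / ρ' ^ j := by
      rw [hψ, hχ] at hj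
      have hσρ : (σ₀ : M ≃ₐ[F] M) ρ' ≠ 0 := (_root_.map_ne_zero _).2 hρ0
      rw [map_div₀, map_pow]
      rw [div_pow, eq_div_iff hw0] at hj
      rw [← hj]
      field_simp
    intro τ hτ
    obtain ⟨k, hk⟩ := Subgroup.mem_zpowers_iff.1 (hσ₀ ⟨τ, hτ⟩)
    have h2 : τ = (σ₀ : M ≃ₐ[F] M) ^ k := (congrArg Subtype.val hk).symm
    rw [h2]
    have h3 : (σ₀ : M ≃ₐ[F] M) ∈ MulAction.stabilizer (M ≃ₐ[F] M) (w' / ρ' ^ j) := h1
    exact (MulAction.stabilizer (M ≃ₐ[F] M) (w' / ρ' ^ j)).zpow_mem h3 k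
  refine ⟨j, ((w' / ρ' ^ j : M) : ℂ), (IntermediateField.mem_restrict hKM _).1 hy, ?_⟩
  change (w / ρ ^ j) ^ n = _
  rw [div_pow, h, ← pow_mul, mul_comm, pow_mul, hρ, map_div₀, map_pow]

private lemma E2_degree {l : ℕ} (hl : l.Prime) : Module.finrank F (KZ F l) < l ∧ 0 < Module.finrank F (KZ F l) := by
  obtain ⟨hfd, hgal⟩ := Pool.Agent.STd.KZ_fd (K := F) hl.pos
  refine ⟨?_, Module.finrank_pos⟩
  have hζ := Complex.isPrimitiveRoot_exp l hl.ne_zero
  set ζ : ℂ := Complex.exp (2 * Real.pi * Complex.I / l) with hζd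
  have : NeZero l := ⟨hl.ne_zero⟩
  have h1 : KZ F l = F⟮ζ⟯ := by
    apply le_antisymm
    · unfold KZ
      rw [adjoin_le_iff]
      intro x hx
      obtain ⟨i, -, hi⟩ := hζ.eq_pow_of_pow_eq_one hx
      rw [← hi]
      exact pow_mem (IntermediateField.mem_adjoin_simple_self F ζ) i
    · rw [IntermediateField.adjoin_simple_le_iff]
      exact subset_adjoin F _ hζ.pow_eq_one
  have hint : IsIntegral F ζ := ⟨X ^ l - C 1, monic_X_pow_sub_C 1 hl.ne_zero, by
    simp [hζ.pow_eq_one]⟩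
  rw [h1, IntermediateField.adjoin.finrank hint]
  have h2 : minpoly F ζ ∣ cyclotomic l F := by
    apply minpoly.dvd
    rw [aeval_def, eval₂_eq_eval_map, map_cyclotomic, ← IsRoot.def, isRoot_cyclotomic_iff]
    exact hζ
  have h3 := Polynomial.natDegree_le_of_dvd h2 (cyclotomic_ne_zero l F)
  rw [natDegree_cyclotomic, Nat.totient_prime hl] at h3
  have := hl.pos
  omega

private lemma E2_main {e β : F} (he : e ≠ 0) (hβ : β ≠ 0) {l : ℕ} (hl : l.Prime) {w : ℂ} (hw : w ∈ E2_L e l)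
    (h : w ^ l = algebraMap F ℂ β) : ∃ (k : ℤ) (z : F), β = e ^ k * z ^ l := by
  obtain ⟨j, y, hy, hyn⟩ := E2_aux he hβ hl.pos hw h
  obtain ⟨hfd, hgal⟩ := Pool.Agent.STd.KZ_fd (K := F) hl.pos
  obtain ⟨hN1, hN2⟩ := E2_degree (F := F) hl
  set x : F := β / e ^ j with hx
  have hx0 : x ≠ 0 := div_ne_zero hβ (pow_ne_zero _ he)
  set y' : KZ F l := ⟨y, hy⟩ with hy'
  have hy'l : y' ^ l = algebraMap F (KZ F l) x := Subtype.ext hyn
  have hnorm : (Algebra.norm F y') ^ l = x ^ Module.finrank F (KZ F l) := by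
    rw [← map_pow, hy'l, Algebra.norm_algebraMap]
  have hcop : IsCoprime (Module.finrank F (KZ F l) : ℤ) (l : ℤ) :=
    Nat.isCoprime_iff_coprime.2 (Nat.coprime_of_lt_prime hN2.ne' hN1 hl).symm
  obtain ⟨a, b, hab⟩ := hcop
  have hn0 : Algebra.norm F y' ≠ 0 := by
    intro h0
    rw [h0, zero_pow hl.ne_zero] at hnorm
    exact pow_ne_zero _ hx0 hnorm.symm
  have hxz : x = ((Algebra.norm F y') ^ a * x ^ b) ^ l := by
    have h1 : x = x ^ (a * (Module.finrank F (KZ F l) : ℤ) + b * (l : ℤ)) := by rw [hab, zpow_one]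
    have h2 : ((Algebra.norm F y') ^ a * x ^ b) ^ l =
        x ^ (a * (Module.finrank F (KZ F l) : ℤ) + b * (l : ℤ)) := by
      rw [mul_pow, ← zpow_natCast ((Algebra.norm F y') ^ a) l, ← zpow_mul, mul_comm a (l : ℤ), zpow_mul,
        zpow_natCast, hnorm, ← zpow_natCast (x ^ b) l, ← zpow_mul, zpow_add₀ hx0,
        mul_comm a (Module.finrank F (KZ F l) : ℤ), zpow_mul x (Module.finrank F (KZ F l) : ℤ) a, zpow_natCast]
    rw [h2, ← h1]
  refine ⟨(j : ℤ), (Algebra.norm F y') ^ a * x ^ b, ?_⟩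
  rw [← hxz, zpow_natCast, hx]
  field_simp

end base

variable {K : Type*} [Field K] [NumberField K] [Algebra K ℝ]

theorem kummer_M1 {M : IntermediateField K ℝ} [FiniteDimensional K M] [IsGalois K M] {e : K} (he : e ≠ 0) {l : ℕ}
    (hl : l.Prime) {w : ℝ} (hwM : w ∈ M) (hw0 : w ≠ 0)
    (hw : ∀ (k : ℤ), ∀ z ∈ M, w ≠ algebraMap K ℝ e ^ k * z ^ l) {y : ℂ} (hy : y ∈ M1 M e l) : y ^ l ≠ (w : ℂ) := by
  intro hyl
  set e' : M := algebraMap K M e with he'
  have he0 : e' ≠ 0 := (_root_.map_ne_zero _).2 he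
  set w' : M := ⟨w, hwM⟩ with hw'
  have hw'0 : w' ≠ 0 := by
    intro h
    exact hw0 (congrArg Subtype.val h)
  have hle : M1 M e l ≤ (E2_L e' l).restrictScalars K := by
    unfold M1
    apply sup_le
    · rintro _ ⟨x, hx, rfl⟩
      have h1 := (E2_L e' l).algebraMap_mem ⟨x, hx⟩
      exact h1
    · rw [adjoin_le_iff]
      intro x hx
      have h2 : x ∈ E2_L e' l := by
        apply subset_adjoin
        rcases hx with hx | hx
        · exact Or.inr hx
        · exact Or.inl hx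
      exact h2
  have hy' : y ∈ E2_L e' l := hle hy
  obtain ⟨k, z, hz⟩ := E2_main he0 hw'0 hl hy' hyl
  have h3 := congrArg (fun t : M => (t : ℝ)) hz
  refine hw k z z.2 ?_
  have h4 : ((e' ^ k * z ^ l : M) : ℝ) = algebraMap K ℝ e ^ k * (z : ℝ) ^ l := by
    push_cast
    rfl
  exact h3.trans h4

end Pool.Agent.STr
end

section

/-!
# TASK E3a: roots of unity over fields unramified at `l`

PROOF. `exists_unram`: for all but finitely many primes `l`: `l ∉ P ^ 2` for all primes `P` of `E` containing `l`. Indeed only finitely many primes `P` of `𝓞 E` are ramified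
over `ℤ` (`P ∣ differentIdeal ℤ (𝓞 E)`, `not_dvd_differentIdeal_iff`, or the discriminant; or `finite_ramified` with the base field `ℚ`); if `P` is unramified over `(l)` the
ramification index is `1`, so `(l) ⊄ P ^ 2`.
`cyc_irred`: `(cyclotomic l ℤ).comp (X + 1)` is Eisenstein at `(l)` (Mathlib `cyclotomic_comp_X_add_one_isEisensteinAt`); mapped to `𝓞 E` it is Eisenstein at a prime `P` containing `l`
(its constant coefficient is `l ∉ P ^ 2`), monic, hence irreducible over `𝓞 E` (`Polynomial.IsEisensteinAt.irreducible`) and over `E` (Gauss' lemma for monic polynomials over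
the integrally closed domain `𝓞 E`: `Polynomial.Monic.irreducible_iff_irreducible_map_fraction_map`). Substituting `X - 1`: `cyclotomic l E` is irreducible.
`H0_not_le`: suppose `H₀.map j ≤ M1 M e l`. Let `F₁ = M(ζ) = M.map j ⊔ KZ K l`, `F₂ = H₀(ζ) ≤ M1`. `M1 = F₁(e₁)` has degree `1` or `l` over `F₁` (it is Galois over `F₁` with group embedded in
`μ_l`, or: a field extension generated by an `l`-th root, `l` prime: the degree is `1` or `l`, `X_pow_sub_C_irreducible_iff_of_prime`), and `[F₂ : F₁]` divides it. On the other hand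
`[F₂ : F₁] = [H₀ : H₀ ∩ F₁]` divides `[H₀ : M] = p₀` (`F₂` is the compositum of the Galois extension `H₀/M` with `F₁`; `Gal(F₂/F₁)` embeds in `Gal(H₀/M)`). As `p₀ ≠ l` are primes,
`[F₂ : F₁] = 1`: `H₀ ≤ F₁`, `F₂ = F₁`. Then `[F₁ : K] = [H₀(ζ) : H₀] [H₀ : K] = (l - 1) p₀ [M : K]` by `cyc_irred` for `E = H₀`, but `[F₁ : K] = [M(ζ) : M] [M : K] ≤ (l - 1) [M : K]`:
contradiction.
(This file: exists_unram.)
-/

set_option autoImplicit false

open NumberField IsDedekindDomain nonZeroDivisors IntermediateField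

namespace Pool.Agent.STr

open Pool.Agent.ST
open Pool.Agent.STd (jR fixL KZ)

attribute [local instance] FractionRing.liftAlgebra FractionRing.isScalarTower_liftAlgebra in
lemma E3a_finite (E : Type*) [Field E] [NumberField E] :
    {P : PrI E | ¬ Algebra.IsUnramifiedAt ℤ P.asIdeal}.Finite := by
  have hne : differentIdeal ℤ (𝓞 E) ≠ ⊥ := differentIdeal_ne_bot
  refine (Ideal.finite_factors hne).subset ?_
  intro P hP
  exact dvd_differentIdeal_iff.2 hP

lemma E3a_dvd {E : Type*} [Field E] [NumberField E] {l : ℕ} (hl : l.Prime) {P : PrI E}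
    (h : (l : 𝓞 E) ∈ P.asIdeal) : l ≤ pn P := by
  have h1 : ((pn P : ℕ) : 𝓞 E) ∈ P.asIdeal := Ideal.absNorm_mem P.asIdeal
  have h2 := two_le_pn P
  refine Nat.le_of_dvd (by omega) ?_
  by_contra hnd
  have hc : Nat.Coprime l (pn P) := (Nat.Prime.coprime_iff_not_dvd hl).2 hnd
  have hc' : IsCoprime (l : ℤ) (pn P : ℤ) := Nat.isCoprime_iff_coprime.2 hc
  obtain ⟨a, b, hab⟩ := hc'
  apply P.isPrime.ne_top
  rw [Ideal.eq_top_iff_one]
  have h3 : (1 : 𝓞 E) = (a : 𝓞 E) * (l : 𝓞 E) + (b : 𝓞 E) * ((pn P : ℕ) : 𝓞 E) := by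
    have := congrArg (fun z : ℤ => (z : 𝓞 E)) hab
    push_cast at this
    exact this.symm
  rw [h3]
  exact P.asIdeal.add_mem (Ideal.mul_mem_left _ _ h) (Ideal.mul_mem_left _ _ h1)

theorem exists_unram (E : Type*) [Field E] [NumberField E] :
    ∃ N₀ : ℕ, ∀ l : ℕ, l.Prime → N₀ < l → ∀ P : PrI E, (l : 𝓞 E) ∈ P.asIdeal → (l : 𝓞 E) ∉ P.asIdeal ^ 2 := by
  classical
  have hfin := E3a_finite E
  refine ⟨hfin.toFinset.sup pn, fun l hl hN P hP hP2 => ?_⟩
  by_cases hun : Algebra.IsUnramifiedAt ℤ P.asIdeal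
  · have : P.asIdeal.IsPrime := P.isPrime
    have : Fact l.Prime := ⟨hl⟩
    have hle : (Ideal.span {(l : ℤ)}) ≤ P.asIdeal.under ℤ := by
      rw [Ideal.span_singleton_le_iff_mem, Ideal.mem_comap]
      simpa using hP
    have hp : Ideal.span {(l : ℤ)} = P.asIdeal.under ℤ :=
      (Int.ideal_span_isMaximal_of_prime l).eq_of_le Ideal.IsPrime.ne_top' hle
    have hmap : (P.asIdeal.under ℤ).map (algebraMap ℤ (𝓞 E)) = Ideal.span {(l : 𝓞 E)} := by
      rw [← hp, Ideal.map_span, Set.image_singleton]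
      simp
    have hne : (P.asIdeal.under ℤ).map (algebraMap ℤ (𝓞 E)) ≠ ⊥ := by
      rw [hmap, Ne, Ideal.span_singleton_eq_bot]
      exact_mod_cast hl.ne_zero
    have h1 : (P.asIdeal.under ℤ).ramificationIdx' P.asIdeal = 1 := by
      rw [Ideal.ramificationIdx'_eq_ramificationIdx' _ _ hne]
      exact Ideal.ramificationIdx_eq_one_of_isUnramifiedAt
    have h2 := (Ideal.ramificationIdx'_ne_one_iff (p := P.asIdeal.under ℤ) (P := P.asIdeal)
      Ideal.map_comap_le).2 (by
        rw [hmap, Ideal.span_singleton_le_iff_mem]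
        exact hP2)
    exact h2 h1
  · have h1 : pn P ≤ hfin.toFinset.sup pn := Finset.le_sup (f := pn) (hfin.mem_toFinset.2 hun)
    have h2 := E3a_dvd hl hP
    omega

variable {K : Type*} [Field K] [NumberField K] [Algebra K ℝ]

end Pool.Agent.STr
end

section

/-!
# TASK E6a: consequences for the prime `q` of `K`

`P` a prime of `F = M1 M e l` with `pn P = pn q`, `q = und K P`, not dividing `m`, `l ∉ q`.

PROOF. `dvd_pn`: `F` contains a primitive `l`-th root of unity `ζ ∈ 𝓞 F`; modulo `P` it still has order `l` (`1 - ζ` divides `l`, `l ∉ P`), so `l ∣ pn P - 1 = pn q - 1`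
(`rd`-free: the unit group of the finite field `𝓞 F / P` has `pn P - 1` elements).
`unit_pow`: `F` contains `e₁` with `e₁ ^ l = e`, `e₁ ∈ 𝓞 F`; if `e ∉ q`: `e ^ ((pn q - 1) / l) = e₁ ^ (pn P - 1) ≡ 1 mod P`, so `≡ 1 mod q` and `e` is an `l`-th power modulo `q`
(`exists_pow_iff` in RED).
`fix_M`: let `𝔭 = P ∩ M` (`M` embedded in `F` by `jR K`): `pn q ≤ pn 𝔭 ≤ pn P = pn q`, so the residue degree of `𝔭` over `q` is one. For `x ∈ 𝓞 M`: `x ^ (pn q) ≡ x mod 𝔭`, so the
automorphism `1` of `M` is a Frobenius element at `𝔭`; `q` is unramified in `M ≤ H`, and the restriction of `Art [q]` is the Frobenius; so `Art [q]` is trivial on `M`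
(cf. `isFrob_one_of_pn_eq`, `isFrob_unique`, `frob_transfer`).
`exists_Q`: let `Q` be a prime of `H` over `𝔭` (`exists_up` in `MP_1ef7cf_nt_c/Red.lean` for `M ≤ H`): for `x ∈ M` integral, `rd Q x = 0 ↔ x ∈ 𝔭 ↔ x ∈ P`. Apply it to `x = w ^ j - 1`.
(This file: dvd_pn, unit_pow.)
-/

set_option autoImplicit false

open NumberField IsDedekindDomain nonZeroDivisors IntermediateField

namespace Pool.Agent.STr

open Pool.Agent.ST
open Pool.Agent.STc (IsInt rd IsUn)
open Pool.Agent.STd (jR fixL KZ)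

variable {K : Type*} [Field K] [NumberField K] [Algebra K ℝ] {σ₂ : K →+* ℝ} {m : Ideal (𝓞 K)}
  {M : IntermediateField K ℝ} {l : ℕ} {e : 𝓞 K}

private theorem E6a_pow {F : Type*} [Field F] [NumberField F] {P : PrI F} {x : 𝓞 F} (hx : x ∉ P.asIdeal) :
    (Ideal.Quotient.mk P.asIdeal x) ^ (pn P - 1) = 1 := by
  haveI : Finite (𝓞 F ⧸ P.asIdeal) := Ideal.finiteQuotientOfFreeOfNeBot P.asIdeal P.ne_bot
  haveI : P.asIdeal.IsMaximal := P.isMaximal
  letI : Field (𝓞 F ⧸ P.asIdeal) := Ideal.Quotient.field P.asIdeal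
  haveI : Fintype (𝓞 F ⧸ P.asIdeal) := Fintype.ofFinite _
  have hcard : Fintype.card (𝓞 F ⧸ P.asIdeal) = pn P := by
    unfold pn
    rw [Ideal.absNorm_apply, Submodule.cardQuot_apply, Nat.card_eq_fintype_card]
  rw [← hcard]
  apply FiniteField.pow_card_sub_one_eq_one
  rwa [Ne, Ideal.Quotient.eq_zero_iff_mem]

omit [NumberField K] in
private theorem E6a_lift (F : IntermediateField K ℂ) [NumberField F] {z : ℂ} (hz : z ∈ F) {n : ℕ} (hn : 0 < n)
    {a : 𝓞 K} (h : z ^ n = algebraMap K ℂ (a : K)) :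
    ∃ x : 𝓞 F, ((x : F) : ℂ) = z ∧ x ^ n = algebraMap (𝓞 K) (𝓞 F) a := by
  have h1 : (⟨z, hz⟩ : F) ^ n = algebraMap K F (a : K) := by
    apply Subtype.ext
    exact h
  have hint : IsIntegral ℤ (⟨z, hz⟩ : F) := by
    apply IsIntegral.of_pow (n := n) hn
    rw [h1]
    exact (RingOfIntegers.isIntegral_coe a).map (algebraMap K F).toIntAlgHom
  refine ⟨⟨⟨z, hz⟩, hint⟩, rfl, ?_⟩
  apply RingOfIntegers.coe_injective
  rw [map_pow]
  exact h1

theorem dvd_pn [NumberField (M1 M (e : K) l)] (hl : l.Prime) {P : PrI (M1 M (e : K) l)}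
    (hlP : (l : 𝓞 K) ∉ (und K P).asIdeal) (hP : pn P = pn (und K P)) : l ∣ pn (und K P) - 1 := by
  haveI : Fact l.Prime := ⟨hl⟩
  obtain ⟨ζ, hζ⟩ : ∃ ζ : ℂ, IsPrimitiveRoot ζ l := ⟨_, Complex.isPrimitiveRoot_exp l hl.ne_zero⟩
  have hζF : ζ ∈ M1 M (e : K) l := by
    have h1 : ζ ∈ IntermediateField.adjoin K {x : ℂ | x ^ l = 1 ∨ x ^ l = algebraMap K ℂ (e : K)} :=
      IntermediateField.subset_adjoin _ _ (Or.inl hζ.pow_eq_one)
    exact (le_sup_right : _ ≤ M1 M (e : K) l) h1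
  obtain ⟨z, hz, hzl⟩ := E6a_lift (M1 M (e : K) l) hζF hl.pos (a := 1) (by
    rw [hζ.pow_eq_one]; simp)
  rw [map_one] at hzl
  have hz1 : z - 1 ∉ P.asIdeal := by
    intro h
    apply hlP
    rw [STd.mem_und, map_natCast, ← Ideal.Quotient.eq_zero_iff_mem, map_natCast]
    have h2 : ∑ i ∈ Finset.range l, z ^ i = 0 := by
      apply RingOfIntegers.coe_injective
      rw [map_sum, map_zero]
      apply Subtype.ext
      have h3 := hζ.geom_sum_eq_zero hl.one_lt
      rw [← hz] at h3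
      rw [ZeroMemClass.coe_zero, ← h3]
      push_cast
      rfl
    have h4 : Ideal.Quotient.mk P.asIdeal z = 1 := by
      rw [← map_one (Ideal.Quotient.mk P.asIdeal), Ideal.Quotient.eq]
      exact h
    have h5 := congrArg (Ideal.Quotient.mk P.asIdeal) h2
    rw [map_sum, map_zero] at h5
    simpa [map_pow, h4] using h5
  have hz2 : z ∉ P.asIdeal := by
    intro h
    apply P.isPrime.ne_top
    rw [Ideal.eq_top_iff_one, ← hzl]
    exact P.asIdeal.pow_mem_of_mem h _ hl.pos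
  have h6 : orderOf (Ideal.Quotient.mk P.asIdeal z) = l := by
    apply orderOf_eq_prime
    · rw [← map_pow, hzl, map_one]
    · intro h
      apply hz1
      rw [← map_one (Ideal.Quotient.mk P.asIdeal), Ideal.Quotient.eq] at h
      exact h
  rw [← hP]
  exact h6.symm.dvd.trans (orderOf_dvd_of_pow_eq_one (E6a_pow hz2))

theorem unit_pow [NumberField (M1 M (e : K) l)] (hl : l.Prime) {P : PrI (M1 M (e : K) l)}
    (hlP : (l : 𝓞 K) ∉ (und K P).asIdeal) (hP : pn P = pn (und K P)) (he : e ∉ (und K P).asIdeal) :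
    ∃ y : 𝓞 K ⧸ (und K P).asIdeal, y ^ l = Ideal.Quotient.mk _ e := by
  obtain ⟨z, hz⟩ := IsAlgClosed.exists_pow_nat_eq (algebraMap K ℂ (e : K)) hl.pos
  have hzF : z ∈ M1 M (e : K) l := by
    have h1 : z ∈ IntermediateField.adjoin K {x : ℂ | x ^ l = 1 ∨ x ^ l = algebraMap K ℂ (e : K)} :=
      IntermediateField.subset_adjoin _ _ (Or.inr hz)
    exact (le_sup_right : _ ≤ M1 M (e : K) l) h1
  obtain ⟨x, -, hx⟩ := E6a_lift (M1 M (e : K) l) hzF hl.pos hz
  have hxP : x ∉ P.asIdeal := by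
    intro h
    apply he
    rw [STd.mem_und, ← hx]
    exact P.asIdeal.pow_mem_of_mem h _ hl.pos
  obtain ⟨s, hs⟩ := dvd_pn hl hlP hP
  have he0 : Ideal.Quotient.mk (und K P).asIdeal e ≠ 0 := by
    rwa [Ne, Ideal.Quotient.eq_zero_iff_mem]
  rw [STd.exists_pow_iff hl.pos hs he0, ← map_pow, ← map_one (Ideal.Quotient.mk _),
    Ideal.Quotient.eq, STd.mem_und, map_sub, map_pow, map_one, ← hx, ← pow_mul, ← hs, ← hP,
    ← Ideal.Quotient.eq_zero_iff_mem, map_sub, map_pow, map_one, E6a_pow hxP, sub_self]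

variable {H : IntermediateField K ℝ} {Art : RayClassGroup σ₂ m ≃* (H ≃ₐ[K] H)}

end Pool.Agent.STr
end
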