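import Pool.Agent.Lib.MP_1ef7cf_nt_r.Mg.G024

section

/-!
# TASK E3b: roots of unity over fields unramified at `l`

PROOF. `exists_unram`: for all but finitely many primes `l`: `l ∉ P ^ 2` for all primes `P` of `E` containing `l`. Indeed only finitely many primes `P` of `𝓞 E` are ramified
over `ℤ` (`P ∣ differentIdeal ℤ (𝓞 E)`, `not_dvd_differentIdeal_iff`, or the discriminant; or `finite_ramified` with the base field `ℚ`); if `P` is unramified over `(l)` the
ramification index is `1`, so `(l) ⊄ P ^ 2`.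
`cyc_irred`: `(cyclotomic l ℤ).comp (X + 1)` is Eisenstein at `(l)` (Mathlib `cyclotomic_comp_X_add_one_isEisensteinAt`); mapped to `𝓞 E` it is Eisenstein at a prime `P` containing `l`
(its constant coefficient is `l ∉ P ^ 2`), monic, hence irreducible over `𝓞 E` (`Polynomial.IsEisensteinAt.irreducible`) and over `E` (Gauss' lemma for monic polynomials over
the integrally closed domain `𝓞 E`: `Polynomial.Monic.irreducible_iff_irreducible_map_fraction_map`). Substituting `X - 1`: `cyclotomic l E` is irreducible.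
`H0_not_le`: suppose `H₀.map j ≤ M1 M e l`. Let `F₁ = M(ζ) = M.map j ⊔ KZ K l`, `F₂ = H₀(ζ) ≤ M1`. `M1 = F₁(e₁)` has degree `1` or `l` over `F₁` (it is Galois over `F₁` with group embedded in
`μ_l`, or: a field extension generated by an `l`-th root, `l` prime: the degree is `1` or `l`, `X_pow_sub_C_irreducible_iff_of_prime`), and `[F₂ : F₁]` divides it. On the other hand
`[F₂ : F₁] = [H₀ : H₀ ∩ F₁]` divides `[H₀ : M] = p₀` (`F₂` is the compositum of the Galois extension `H₀/M` with `F₁`; `Gal(F₂/F₁)` embeds in `Gal(H₀/M)`). As `p₀ ≠ l` are primes,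
`[F₂ : F₁] = 1`: `H₀ ≤ F₁`, `F₂ = F₁`. Then `[F₁ : K] = [H₀(ζ) : H₀] [H₀ : K] = (l - 1) p₀ [M : K]` by `cyc_irred` for `E = H₀`, but `[F₁ : K] = [M(ζ) : M] [M : K] ≤ (l - 1) [M : K]`:
contradiction.
(This file: cyc_irred.)
-/

set_option autoImplicit false

open NumberField IsDedekindDomain nonZeroDivisors IntermediateField

namespace Pool.Agent.STr

open Pool.Agent.ST
open Pool.Agent.STd (jR fixL KZ)

theorem cyc_irred {E : Type*} [Field E] [NumberField E] {l : ℕ} (hl : l.Prime)
    (hun : ∀ P : PrI E, (l : 𝓞 E) ∈ P.asIdeal → (l : 𝓞 E) ∉ P.asIdeal ^ 2) : Irreducible (Polynomial.cyclotomic l E) := by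
  have hfact : Fact l.Prime := ⟨hl⟩
  have hinj : Function.Injective (Int.castRingHom (𝓞 E)) := (Int.castRingHom (𝓞 E)).injective_int
  -- a prime containing `l`
  have hnu : ¬ IsUnit (l : 𝓞 E) := by
    intro hu
    have h1 : IsUnit (Algebra.norm ℤ (l : 𝓞 E)) := hu.map (Algebra.norm ℤ)
    have h2 : Algebra.norm ℤ (l : 𝓞 E) = (l : ℤ) ^ (Module.finrank ℤ (𝓞 E)) := by
      have h3 := Algebra.norm_algebraMap (S := 𝓞 E) (l : ℤ)
      rwa [map_natCast] at h3
    rw [h2] at h1
    have h4 : Module.finrank ℤ (𝓞 E) ≠ 0 := by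
      rw [NumberField.RingOfIntegers.rank]
      exact Module.finrank_pos.ne'
    have h5 : IsUnit (l : ℤ) := (isUnit_pow_iff h4).mp h1
    have h6 := Int.isUnit_iff_natAbs_eq.mp h5
    rw [Int.natAbs_natCast] at h6
    exact hl.ne_one h6
  obtain ⟨M, hM, hlM⟩ := exists_max_ideal_of_mem_nonunits hnu
  have hl0 : (l : 𝓞 E) ≠ 0 := by exact_mod_cast hl.ne_zero
  have hM0 : M ≠ ⊥ := by
    rintro rfl
    exact hl0 ((Submodule.mem_bot _).mp hlM)
  have hP := hun ⟨M, hM.isPrime, hM0⟩ hlM
  change (l : 𝓞 E) ∉ M ^ 2 at hP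
  -- the shifted polynomial
  obtain ⟨f, hf⟩ : ∃ f : Polynomial ℤ, f = (Polynomial.cyclotomic l ℤ).comp (Polynomial.X + 1) := ⟨_, rfl⟩
  obtain ⟨F, hF⟩ : ∃ F : Polynomial (𝓞 E), F = f.map (Int.castRingHom (𝓞 E)) := ⟨_, rfl⟩
  have hfE := cyclotomic_comp_X_add_one_isEisensteinAt l
  rw [← hf] at hfE
  have hfm : f.Monic := by
    rw [hf, show (Polynomial.X + 1 : Polynomial ℤ) = Polynomial.X + Polynomial.C 1 by simp]
    refine (Polynomial.cyclotomic.monic l ℤ).comp (Polynomial.monic_X_add_C 1) fun h => ?_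
    rw [Polynomial.natDegree_X_add_C] at h
    exact zero_ne_one h.symm
  have hFm : F.Monic := by
    rw [hF]
    exact hfm.map _
  have hFd : F.natDegree = f.natDegree := by
    rw [hF]
    exact hfm.natDegree_map _
  have hFc : F = (Polynomial.cyclotomic l (𝓞 E)).comp (Polynomial.X + 1) := by
    rw [hF, hf, Polynomial.map_comp, Polynomial.map_cyclotomic]
    simp
  have hF0 : F.coeff 0 = (l : 𝓞 E) := by
    rw [Polynomial.coeff_zero_eq_eval_zero, hFc, Polynomial.eval_comp]
    simp only [Polynomial.eval_add, Polynomial.eval_X, Polynomial.eval_one, zero_add]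
    exact Polynomial.eval_one_cyclotomic_prime
  have hdeg : f.natDegree = l - 1 := by
    rw [hf, Polynomial.natDegree_comp, Polynomial.natDegree_cyclotomic, Nat.totient_prime hl]
    rw [show (Polynomial.X + 1 : Polynomial ℤ) = Polynomial.X + Polynomial.C 1 by simp,
      Polynomial.natDegree_X_add_C, mul_one]
  have hFE : F.IsEisensteinAt M := by
    refine ⟨?_, ?_, ?_⟩
    · rw [hFm.leadingCoeff]
      exact fun h => hM.ne_top ((Ideal.eq_top_iff_one M).mpr h)
    · intro n hn
      rw [hFd] at hn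
      have h1 := hfE.mem hn
      rw [hF, Polynomial.coeff_map]
      obtain ⟨c, hc⟩ := Ideal.mem_span_singleton.mp h1
      rw [hc, map_mul]
      refine M.mul_mem_right _ ?_
      rw [map_natCast]
      exact hlM
    · rw [hF0]
      exact hP
  have hFirr : Irreducible F := by
    refine hFE.irreducible hM.isPrime hFm.isPrimitive ?_
    rw [hFd, hdeg]
    have := hl.two_le
    omega
  have h1 : Irreducible (F.map (algebraMap (𝓞 E) E)) :=
    (Polynomial.Monic.irreducible_iff_irreducible_map_fraction_map (K := E) hFm).mp hFirr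
  have h2 : F.map (algebraMap (𝓞 E) E) =
      Polynomial.algEquivAevalXAddC (1 : E) (Polynomial.cyclotomic l E) := by
    rw [hFc, Polynomial.map_comp, Polynomial.map_cyclotomic]
    simp [Polynomial.algEquivAevalXAddC, Polynomial.comp, Polynomial.aeval_def]
  rw [h2] at h1
  exact (MulEquiv.irreducible_iff (Polynomial.algEquivAevalXAddC (1 : E))).mp h1

variable {K : Type*} [Field K] [NumberField K] [Algebra K ℝ]

end Pool.Agent.STr
end

section

/-!
# TASK E3: roots of unity over fields unramified at `l`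

PROOF. `exists_unram`: for all but finitely many primes `l`: `l ∉ P ^ 2` for all primes `P` of `E` containing `l`. Indeed only finitely many primes `P` of `𝓞 E` are ramified
over `ℤ` (`P ∣ differentIdeal ℤ (𝓞 E)`, `not_dvd_differentIdeal_iff`, or the discriminant; or `finite_ramified` with the base field `ℚ`); if `P` is unramified over `(l)` the
ramification index is `1`, so `(l) ⊄ P ^ 2`.
`cyc_irred`: `(cyclotomic l ℤ).comp (X + 1)` is Eisenstein at `(l)` (Mathlib `cyclotomic_comp_X_add_one_isEisensteinAt`); mapped to `𝓞 E` it is Eisenstein at a prime `P` containing `l`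
(its constant coefficient is `l ∉ P ^ 2`), monic, hence irreducible over `𝓞 E` (`Polynomial.IsEisensteinAt.irreducible`) and over `E` (Gauss' lemma for monic polynomials over
the integrally closed domain `𝓞 E`: `Polynomial.Monic.irreducible_iff_irreducible_map_fraction_map`). Substituting `X - 1`: `cyclotomic l E` is irreducible.
`H0_not_le`: suppose `H₀.map j ≤ M1 M e l`. Let `F₁ = M(ζ) = M.map j ⊔ KZ K l`, `F₂ = H₀(ζ) ≤ M1`. `M1 = F₁(e₁)` has degree `1` or `l` over `F₁` (it is Galois over `F₁` with group embedded in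
`μ_l`, or: a field extension generated by an `l`-th root, `l` prime: the degree is `1` or `l`, `X_pow_sub_C_irreducible_iff_of_prime`), and `[F₂ : F₁]` divides it. On the other hand
`[F₂ : F₁] = [H₀ : H₀ ∩ F₁]` divides `[H₀ : M] = p₀` (`F₂` is the compositum of the Galois extension `H₀/M` with `F₁`; `Gal(F₂/F₁)` embeds in `Gal(H₀/M)`). As `p₀ ≠ l` are primes,
`[F₂ : F₁] = 1`: `H₀ ≤ F₁`, `F₂ = F₁`. Then `[F₁ : K] = [H₀(ζ) : H₀] [H₀ : K] = (l - 1) p₀ [M : K]` by `cyc_irred` for `E = H₀`, but `[F₁ : K] = [M(ζ) : M] [M : K] ≤ (l - 1) [M : K]`: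
contradiction.
(This file: H0_not_le.)
-/

set_option autoImplicit false

open NumberField IsDedekindDomain nonZeroDivisors IntermediateField

namespace Pool.Agent.STr

open Pool.Agent.ST
open Pool.Agent.STd (jR fixL KZ)

variable {K : Type*} [Field K] [NumberField K] [Algebra K ℝ]

/-- roots of unity as powers of a primitive one -/
private lemma E3_adjoin {l : ℕ} (hl : 0 < l) {ζ : ℂ} (hζ : IsPrimitiveRoot ζ l) :
    IntermediateField.adjoin K {ζ} = KZ K l := by
  unfold KZ
  apply le_antisymm
  · rw [IntermediateField.adjoin_le_iff, Set.singleton_subset_iff]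
    exact IntermediateField.subset_adjoin K _ hζ.pow_eq_one
  · rw [IntermediateField.adjoin_le_iff]
    intro x hx
    have : NeZero l := ⟨hl.ne'⟩
    obtain ⟨i, -, hi⟩ := hζ.eq_pow_of_pow_eq_one hx
    rw [← hi]
    exact pow_mem (IntermediateField.mem_adjoin_simple_self K ζ) i

/-- the degree of `E(ζ_l)` -/
private lemma E3_deg {E : IntermediateField K ℝ} {l : ℕ} (hl : l.Prime)
    (hirr : Irreducible (Polynomial.cyclotomic l E)) :
    Module.finrank K (E.map (jR K) ⊔ KZ K l : IntermediateField K ℂ) =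
      Module.finrank K E * (l - 1) := by
  obtain ⟨Ec, hEc⟩ : ∃ Ec : IntermediateField K ℂ, Ec = E.map (jR K) := ⟨_, rfl⟩
  rw [← hEc]
  obtain ⟨i⟩ : Nonempty (E ≃ₐ[K] Ec) := by
    rw [hEc]
    exact ⟨IntermediateField.equivMap E (jR K)⟩
  have hdE : Module.finrank K E = Module.finrank K Ec := i.toLinearEquiv.finrank_eq
  have hirr' : Irreducible (Polynomial.cyclotomic l Ec) := by
    apply Polynomial.Monic.irreducible_of_irreducible_map
      (i.symm : Ec ≃ₐ[K] E).toRingEquiv.toRingHom _ (Polynomial.cyclotomic.monic l Ec)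
    rw [Polynomial.map_cyclotomic]
    exact hirr
  have hζ := Complex.isPrimitiveRoot_exp l hl.ne_zero
  obtain ⟨ζ, hζe⟩ : ∃ ζ : ℂ, ζ = Complex.exp (2 * Real.pi * Complex.I / l) := ⟨_, rfl⟩
  rw [← hζe] at hζ
  have hroot : Polynomial.aeval ζ (Polynomial.cyclotomic l Ec) = 0 := by
    rw [Polynomial.aeval_def, Polynomial.eval₂_eq_eval_map, Polynomial.map_cyclotomic]
    exact hζ.isRoot_cyclotomic hl.pos
  have hmin : Polynomial.cyclotomic l Ec = minpoly Ec ζ :=
    minpoly.eq_of_irreducible_of_monic hirr' hroot (Polynomial.cyclotomic.monic l Ec)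
  have hint : IsIntegral Ec ζ := ⟨_, Polynomial.cyclotomic.monic l Ec, by
    rw [← Polynomial.aeval_def]; exact hroot⟩
  have h1 : Module.finrank Ec (IntermediateField.adjoin Ec {ζ}) = l - 1 := by
    rw [IntermediateField.adjoin.finrank hint, ← hmin, Polynomial.natDegree_cyclotomic,
      Nat.totient_prime hl]
  have h2 : IntermediateField.restrictScalars K (IntermediateField.adjoin Ec {ζ}) = Ec ⊔ KZ K l := by
    rw [IntermediateField.restrictScalars_adjoin_eq_sup, E3_adjoin hl.pos hζ]
  have h3 : Module.finrank K (IntermediateField.restrictScalars K (IntermediateField.adjoin Ec {ζ})) =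
      Module.finrank K Ec * Module.finrank Ec (IntermediateField.adjoin Ec {ζ}) :=
    (Module.finrank_mul_finrank K Ec (IntermediateField.adjoin Ec {ζ})).symm
  rw [← h2, h3, h1, hdE]

/-- the degree of the last step is `1` or `l` -/
private lemma E3_kum (M : IntermediateField K ℝ) {e : K} (he : e ≠ 0) {l : ℕ} (hl : l.Prime) :
    ∃ d : ℕ, (d = 1 ∨ d = l) ∧ Module.finrank K (M1 M e l) =
      Module.finrank K (M.map (jR K) ⊔ KZ K l : IntermediateField K ℂ) * d := by
  obtain ⟨F, hF⟩ : ∃ F : IntermediateField K ℂ, F = M.map (jR K) ⊔ KZ K l := ⟨_, rfl⟩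
  rw [← hF]
  have hζ := Complex.isPrimitiveRoot_exp l hl.ne_zero
  obtain ⟨ζ, hζe⟩ : ∃ ζ : ℂ, ζ = Complex.exp (2 * Real.pi * Complex.I / l) := ⟨_, rfl⟩
  rw [← hζe] at hζ
  have hroots : ∀ x : ℂ, x ^ l = 1 → x ∈ F := by
    intro x hx
    rw [hF]
    exact (le_sup_right : KZ K l ≤ M.map (jR K) ⊔ KZ K l)
      (IntermediateField.subset_adjoin K _ hx)
  have hMF : M.map (jR K) ≤ F := by rw [hF]; exact le_sup_left
  obtain ⟨e₁, he₁⟩ := IsAlgClosed.exists_pow_nat_eq (algebraMap K ℂ e) hl.pos
  have he0 : algebraMap K ℂ e ≠ 0 := by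
    rw [Ne, map_eq_zero]
    exact he
  have he₁0 : e₁ ≠ 0 := by
    intro h
    rw [h, zero_pow hl.ne_zero] at he₁
    exact he0 he₁.symm
  -- the field `F(e₁)`
  have h2 : IntermediateField.restrictScalars K (IntermediateField.adjoin F {e₁}) = M1 M e l := by
    rw [IntermediateField.restrictScalars_adjoin_eq_sup]
    unfold M1
    apply le_antisymm
    · apply sup_le
      · rw [hF]
        apply sup_le le_sup_left
        apply le_sup_of_le_right
        unfold KZ
        exact IntermediateField.adjoin.mono K _ _ fun x hx => Or.inl hx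
      · apply le_sup_of_le_right
        apply IntermediateField.adjoin.mono
        rintro x rfl
        exact Or.inr he₁
    · apply sup_le (le_sup_of_le_left hMF)
      rw [IntermediateField.adjoin_le_iff]
      rintro x (hx | hx)
      · exact (le_sup_left : F ≤ F ⊔ IntermediateField.adjoin K {e₁}) (hroots x hx)
      · have h3 : (x / e₁) ^ l = 1 := by
          rw [div_pow, hx, he₁, div_self he0]
        have h4 : x = x / e₁ * e₁ := by field_simp
        rw [h4]
        exact mul_mem ((le_sup_left : F ≤ F ⊔ IntermediateField.adjoin K {e₁}) (hroots _ h3))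
          ((le_sup_right : IntermediateField.adjoin K {e₁} ≤ F ⊔ IntermediateField.adjoin K {e₁})
            (IntermediateField.mem_adjoin_simple_self K e₁))
  have h3 : Module.finrank K (IntermediateField.restrictScalars K (IntermediateField.adjoin F {e₁})) =
      Module.finrank K F * Module.finrank F (IntermediateField.adjoin F {e₁}) :=
    (Module.finrank_mul_finrank K F (IntermediateField.adjoin F {e₁})).symm
  refine ⟨Module.finrank F (IntermediateField.adjoin F {e₁}), ?_, by rw [← h2, h3]⟩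
  have hmap : algebraMap F ℂ (algebraMap K F e) = algebraMap K ℂ e := rfl
  by_cases hb : ∃ b : F, b ^ l = algebraMap K F e
  · left
    obtain ⟨b, hb⟩ := hb
    have hbC : ((b : F) : ℂ) ^ l = algebraMap K ℂ e := by
      rw [← hmap, ← hb]
      rfl
    have hb0 : ((b : F) : ℂ) ≠ 0 := by
      intro h
      rw [h, zero_pow hl.ne_zero] at hbC
      exact he0 hbC.symm
    have h4 : (e₁ / (b : ℂ)) ^ l = 1 := by
      rw [div_pow, he₁, hbC, div_self he0]
    have h5 : e₁ ∈ F := by
      have h6 : e₁ = e₁ / (b : ℂ) * (b : ℂ) := by field_simp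
      rw [h6]
      exact mul_mem (hroots _ h4) b.2
    have h6 : IntermediateField.adjoin F {e₁} = ⊥ := by
      rw [IntermediateField.adjoin_simple_eq_bot_iff, IntermediateField.mem_bot]
      exact ⟨⟨e₁, h5⟩, rfl⟩
    rw [h6, IntermediateField.finrank_bot]
  · right
    push Not at hb
    have hirr : Irreducible (Polynomial.X ^ l - Polynomial.C (algebraMap K F e)) :=
      (X_pow_sub_C_irreducible_iff_of_prime hl).mpr hb
    have hmon : (Polynomial.X ^ l - Polynomial.C (algebraMap K F e)).Monic :=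
      Polynomial.monic_X_pow_sub_C _ hl.ne_zero
    have hroot : Polynomial.aeval e₁ (Polynomial.X ^ l - Polynomial.C (algebraMap K F e)) = 0 := by
      rw [map_sub, map_pow, Polynomial.aeval_X, Polynomial.aeval_C, hmap, he₁, sub_self]
    have hint : IsIntegral F e₁ := ⟨_, hmon, by rw [← Polynomial.aeval_def]; exact hroot⟩
    rw [IntermediateField.adjoin.finrank hint,
      ← minpoly.eq_of_irreducible_of_monic hirr hroot hmon, Polynomial.natDegree_X_pow_sub_C]

theorem H0_not_le {M H₀ : IntermediateField K ℝ} (hle : M ≤ H₀) [FiniteDimensional K H₀] [IsGalois K H₀]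
    [FiniteDimensional K M] [IsGalois K M] {p₀ l : ℕ} (hp₀ : p₀.Prime) (hl : l.Prime) (hlp : l ≠ p₀)
    (hdeg : Module.finrank K H₀ = p₀ * Module.finrank K M)
    (hirr : Irreducible (Polynomial.cyclotomic l H₀)) {e : K} (he : e ≠ 0) : ¬ H₀.map (jR K) ≤ M1 M e l := by
  intro hH
  have hirrM : Irreducible (Polynomial.cyclotomic l M) := by
    apply Polynomial.Monic.irreducible_of_irreducible_map
      (IntermediateField.inclusion hle).toRingHom _ (Polynomial.cyclotomic.monic l M)
    rw [Polynomial.map_cyclotomic]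
    exact hirr
  have h1 := E3_deg hl hirr
  have h2 := E3_deg hl hirrM
  obtain ⟨d, hd, h3⟩ := E3_kum M he hl
  have hZ : KZ K l ≤ M1 M e l := by
    unfold M1 KZ
    apply le_sup_of_le_right
    exact IntermediateField.adjoin.mono K _ _ fun x hx => Or.inl hx
  have h4 : H₀.map (jR K) ⊔ KZ K l ≤ M1 M e l := sup_le hH hZ
  have h5 := IntermediateField.finrank_dvd_of_le_right h4
  rw [h1, h3, h2, hdeg] at h5
  have hm : 0 < Module.finrank K M * (l - 1) := by
    apply Nat.mul_pos Module.finrank_pos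
    have := hl.one_lt
    omega
  have h6 : p₀ ∣ d := by
    have h7 : Module.finrank K M * (l - 1) * p₀ ∣ Module.finrank K M * (l - 1) * d := by
      have h8 : p₀ * Module.finrank K M * (l - 1) = Module.finrank K M * (l - 1) * p₀ := by ring
      rwa [h8] at h5
    exact Nat.dvd_of_mul_dvd_mul_left hm h7
  rcases hd with rfl | rfl
  · exact hp₀.one_lt.ne' (Nat.dvd_one.mp h6)
  · exact hlp ((Nat.prime_dvd_prime_iff_eq hp₀ hl).mp h6).symm

end Pool.Agent.STr
end

section

/-!
# TASK SA: cyclotomic polynomials of prime power order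

PROOF: as `cyc_irred` (nt_r/E3b) with `cyclotomic_prime_pow_comp_X_add_one_isEisensteinAt` (Mathlib) in the place of `cyclotomic_comp_X_add_one_isEisensteinAt`.
-/

set_option autoImplicit false

open NumberField IsDedekindDomain nonZeroDivisors

namespace Pool.Agent.STs

open Pool.Agent.ST

theorem cyc_irred_pow {E : Type*} [Field E] [NumberField E] {l : ℕ} (hl : l.Prime)
    (hun : ∀ P : PrI E, (l : 𝓞 E) ∈ P.asIdeal → (l : 𝓞 E) ∉ P.asIdeal ^ 2) (k : ℕ) :
    Irreducible (Polynomial.cyclotomic (l ^ (k + 1)) E) := by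
  have hfact : Fact l.Prime := ⟨hl⟩
  have hinj : Function.Injective (Int.castRingHom (𝓞 E)) := (Int.castRingHom (𝓞 E)).injective_int
  -- a prime containing `l`
  have hnu : ¬ IsUnit (l : 𝓞 E) := by
    intro hu
    have h1 : IsUnit (Algebra.norm ℤ (l : 𝓞 E)) := hu.map (Algebra.norm ℤ)
    have h2 : Algebra.norm ℤ (l : 𝓞 E) = (l : ℤ) ^ (Module.finrank ℤ (𝓞 E)) := by
      have h3 := Algebra.norm_algebraMap (S := 𝓞 E) (l : ℤ)
      rwa [map_natCast] at h3
    rw [h2] at h1
    have h4 : Module.finrank ℤ (𝓞 E) ≠ 0 := by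
      rw [NumberField.RingOfIntegers.rank]
      exact Module.finrank_pos.ne'
    have h5 : IsUnit (l : ℤ) := (isUnit_pow_iff h4).mp h1
    have h6 := Int.isUnit_iff_natAbs_eq.mp h5
    rw [Int.natAbs_natCast] at h6
    exact hl.ne_one h6
  obtain ⟨M, hM, hlM⟩ := exists_max_ideal_of_mem_nonunits hnu
  have hl0 : (l : 𝓞 E) ≠ 0 := by exact_mod_cast hl.ne_zero
  have hM0 : M ≠ ⊥ := by
    rintro rfl
    exact hl0 ((Submodule.mem_bot _).mp hlM)
  have hP := hun ⟨M, hM.isPrime, hM0⟩ hlM
  change (l : 𝓞 E) ∉ M ^ 2 at hP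
  -- the shifted polynomial
  obtain ⟨f, hf⟩ : ∃ f : Polynomial ℤ, f = (Polynomial.cyclotomic (l ^ (k + 1)) ℤ).comp (Polynomial.X + 1) := ⟨_, rfl⟩
  obtain ⟨F, hF⟩ : ∃ F : Polynomial (𝓞 E), F = f.map (Int.castRingHom (𝓞 E)) := ⟨_, rfl⟩
  have hfE := cyclotomic_prime_pow_comp_X_add_one_isEisensteinAt l k
  rw [← hf] at hfE
  have hfm : f.Monic := by
    rw [hf, show (Polynomial.X + 1 : Polynomial ℤ) = Polynomial.X + Polynomial.C 1 by simp]
    refine (Polynomial.cyclotomic.monic (l ^ (k + 1)) ℤ).comp (Polynomial.monic_X_add_C 1) fun h => ?_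
    rw [Polynomial.natDegree_X_add_C] at h
    exact zero_ne_one h.symm
  have hFm : F.Monic := by
    rw [hF]
    exact hfm.map _
  have hFd : F.natDegree = f.natDegree := by
    rw [hF]
    exact hfm.natDegree_map _
  have hFc : F = (Polynomial.cyclotomic (l ^ (k + 1)) (𝓞 E)).comp (Polynomial.X + 1) := by
    rw [hF, hf, Polynomial.map_comp, Polynomial.map_cyclotomic]
    simp
  have hF0 : F.coeff 0 = (l : 𝓞 E) := by
    rw [Polynomial.coeff_zero_eq_eval_zero, hFc, Polynomial.eval_comp]
    simp only [Polynomial.eval_add, Polynomial.eval_X, Polynomial.eval_one, zero_add]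
    exact Polynomial.eval_one_cyclotomic_prime_pow k
  have hdeg : f.natDegree = (l ^ (k + 1)).totient := by
    rw [hf, Polynomial.natDegree_comp, Polynomial.natDegree_cyclotomic]
    rw [show (Polynomial.X + 1 : Polynomial ℤ) = Polynomial.X + Polynomial.C 1 by simp,
      Polynomial.natDegree_X_add_C, mul_one]
  have hFE : F.IsEisensteinAt M := by
    refine ⟨?_, ?_, ?_⟩
    · rw [hFm.leadingCoeff]
      exact fun h => hM.ne_top ((Ideal.eq_top_iff_one M).mpr h)
    · intro n hn
      rw [hFd] at hn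
      have h1 := hfE.mem hn
      rw [hF, Polynomial.coeff_map]
      obtain ⟨c, hc⟩ := Ideal.mem_span_singleton.mp h1
      rw [hc, map_mul]
      refine M.mul_mem_right _ ?_
      rw [map_natCast]
      exact hlM
    · rw [hF0]
      exact hP
  have hFirr : Irreducible F := by
    refine hFE.irreducible hM.isPrime hFm.isPrimitive ?_
    rw [hFd, hdeg]
    exact Nat.totient_pos.mpr (pow_pos hl.pos _)
  have h1 : Irreducible (F.map (algebraMap (𝓞 E) E)) :=
    (Polynomial.Monic.irreducible_iff_irreducible_map_fraction_map (K := E) hFm).mp hFirr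
  have h2 : F.map (algebraMap (𝓞 E) E) =
      Polynomial.algEquivAevalXAddC (1 : E) (Polynomial.cyclotomic (l ^ (k + 1)) E) := by
    rw [hFc, Polynomial.map_comp, Polynomial.map_cyclotomic]
    simp [Polynomial.algEquivAevalXAddC, Polynomial.comp, Polynomial.aeval_def]
  rw [h2] at h1
  exact (MulEquiv.irreducible_iff (Polynomial.algEquivAevalXAddC (1 : E))).mp h1

end Pool.Agent.STs
end
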