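import Pool.Agent.Lib.MP_1ef7cf_nt_r.Mg.G024

section

/-!
# TASK E6b: consequences for the prime `q` of `K`

`P` a prime of `F = M1 M e l` with `pn P = pn q`, `q = und K P`, not dividing `m`, `l ∉ q`.

PROOF. `dvd_pn`: `F` contains a primitive `l`-th root of unity `ζ ∈ 𝓞 F`; modulo `P` it still has order `l` (`1 - ζ` divides `l`, `l ∉ P`), so `l ∣ pn P - 1 = pn q - 1`
(`rd`-free: the unit group of the finite field `𝓞 F / P` has `pn P - 1` elements).
`unit_pow`: `F` contains `e₁` with `e₁ ^ l = e`, `e₁ ∈ 𝓞 F`; if `e ∉ q`: `e ^ ((pn q - 1) / l) = e₁ ^ (pn P - 1) ≡ 1 mod P`, so `≡ 1 mod q` and `e` is an `l`-th power modulo `q`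
(`exists_pow_iff` in RED).
`fix_M`: let `𝔭 = P ∩ M` (`M` embedded in `F` by `jR K`): `pn q ≤ pn 𝔭 ≤ pn P = pn q`, so the residue degree of `𝔭` over `q` is one. For `x ∈ 𝓞 M`: `x ^ (pn q) ≡ x mod 𝔭`, so the
automorphism `1` of `M` is a Frobenius element at `𝔭`; `q` is unramified in `M ≤ H`, and the restriction of `Art [q]` is the Frobenius; so `Art [q]` is trivial on `M`
(cf. `isFrob_one_of_pn_eq`, `isFrob_unique`, `frob_transfer`).
`exists_Q`: let `Q` be a prime of `H` over `𝔭` (`exists_up` in `MP_1ef7cf_nt_c/Red.lean` for `M ≤ H`): for `x ∈ M` integral, `rd Q x = 0 ↔ x ∈ 𝔭 ↔ x ∈ P`. Apply it to `x = w ^ j - 1`.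
(This file: fix_M.)
-/

set_option autoImplicit false

open NumberField IsDedekindDomain nonZeroDivisors IntermediateField

namespace Pool.Agent.STr

open Pool.Agent.ST
open Pool.Agent.STc (IsInt rd IsUn)
open Pool.Agent.STd (jR fixL KZ)

variable {K : Type*} [Field K] [NumberField K] [Algebra K ℝ] {σ₂ : K →+* ℝ} {m : Ideal (𝓞 K)}
  {M : IntermediateField K ℝ} {l : ℕ} {e : 𝓞 K}

variable {H : IntermediateField K ℝ} {Art : RayClassGroup σ₂ m ≃* (H ≃ₐ[K] H)}

/-- a prime of degree one in an extension: the Artin automorphism is trivial on the subfield -/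
theorem E6b_aux (hr : IsRayClassField σ₂ m H Art)
    {F : IntermediateField K ℝ} [Normal K F] (hFH : F ≤ H)
    {L : Type*} [Field L] [NumberField L] [Algebra K L] (j : F →ₐ[K] L)
    {P : PrI L} (hP : pn P = pn (und K P)) (hq : ¬ (und K P).asIdeal ∣ m) {x : ℝ} (hx : x ∈ F) :
    act (Art (cls σ₂ m (prJ m (und K P) hq))) x = x := by
  have := hr.finite
  have := hr.galois
  have : FiniteDimensional K F :=
    FiniteDimensional.of_injective (inclusion hFH).toLinearMap (inclusion hFH).injective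
  have := numberField_of_fd F
  have := numberField_of_fd H
  let _ : Algebra F L := j.toRingHom.toAlgebra
  have : IsScalarTower K F L := IsScalarTower.of_algebraMap_eq (fun x => (j.commutes x).symm)
  have hpK : und K (und F P) = und K P := und_und ..
  have h1 : pn (und F P) = pn (und K (und F P)) := by
    apply le_antisymm
    · rw [hpK, ← hP]
      exact pn_und_le F P
    · exact pn_und_le K (und F P)
  have h2 : IsFrob K (und F P) (1 : F ≃ₐ[K] F) := isFrob_one_of_pn_eq h1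
  obtain ⟨P', hP', hun, hF⟩ := isFrob_res' hFH (und F P)
  have hund : und K P' = und K P := by rw [hP', und_und]
  obtain ⟨h3, h4⟩ := hr.isRCF.frobP P' (Set.notMem_empty _) (prJ m (und K P) hq)
    (by rw [coe_prJ, hund])
  have := hun h3
  have h5 := isFrob_unique h2 (hF _ h4)
  rw [← Pool.Agent.ST.act_res hFH (Art (cls σ₂ m (prJ m (und K P) hq))) hx, ← h5, act_of_mem _ hx]
  rfl

theorem fix_M [FiniteDimensional K M] [IsGalois K M] [NumberField (M1 M (e : K) l)] (hm : m ≠ ⊥)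
    (hr : IsRayClassField σ₂ m H Art) (hMH : M ≤ H) {P : PrI (M1 M (e : K) l)} (hP : pn P = pn (und K P))
    (hq : ¬ (und K P).asIdeal ∣ m) {x : ℝ} (hx : x ∈ M) :
    act (Art (cls σ₂ m (prJ m (und K P) hq))) x = x := by
  have hmem : ∀ y : M, ((jR K).comp M.val) y ∈ (M1 M (e : K) l).toSubalgebra := by
    intro y
    exact (le_sup_left : M.map (jR K) ≤ M1 M (e : K) l) ⟨(y : ℝ), y.2, rfl⟩
  exact E6b_aux hr hMH (((jR K).comp M.val).codRestrict (M1 M (e : K) l).toSubalgebra hmem) hP hq hx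

end Pool.Agent.STr
end

section

/-!
# TASK E6: consequences for the prime `q` of `K`

`P` a prime of `F = M1 M e l` with `pn P = pn q`, `q = und K P`, not dividing `m`, `l ∉ q`.

PROOF. `dvd_pn`: `F` contains a primitive `l`-th root of unity `ζ ∈ 𝓞 F`; modulo `P` it still has order `l` (`1 - ζ` divides `l`, `l ∉ P`), so `l ∣ pn P - 1 = pn q - 1`
(`rd`-free: the unit group of the finite field `𝓞 F / P` has `pn P - 1` elements).
`unit_pow`: `F` contains `e₁` with `e₁ ^ l = e`, `e₁ ∈ 𝓞 F`; if `e ∉ q`: `e ^ ((pn q - 1) / l) = e₁ ^ (pn P - 1) ≡ 1 mod P`, so `≡ 1 mod q` and `e` is an `l`-th power modulo `q`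
(`exists_pow_iff` in RED).
`fix_M`: let `𝔭 = P ∩ M` (`M` embedded in `F` by `jR K`): `pn q ≤ pn 𝔭 ≤ pn P = pn q`, so the residue degree of `𝔭` over `q` is one. For `x ∈ 𝓞 M`: `x ^ (pn q) ≡ x mod 𝔭`, so the
automorphism `1` of `M` is a Frobenius element at `𝔭`; `q` is unramified in `M ≤ H`, and the restriction of `Art [q]` is the Frobenius; so `Art [q]` is trivial on `M`
(cf. `isFrob_one_of_pn_eq`, `isFrob_unique`, `frob_transfer`).
`exists_Q`: let `Q` be a prime of `H` over `𝔭` (`exists_up` in `MP_1ef7cf_nt_c/Red.lean` for `M ≤ H`): for `x ∈ M` integral, `rd Q x = 0 ↔ x ∈ 𝔭 ↔ x ∈ P`. Apply it to `x = w ^ j - 1`.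
(This file: exists_Q.)
-/

set_option autoImplicit false

open NumberField IsDedekindDomain nonZeroDivisors IntermediateField

namespace Pool.Agent.STr

open Pool.Agent.ST
open Pool.Agent.STc (IsInt rd IsUn)
open Pool.Agent.STd (jR fixL KZ)

variable {K : Type*} [Field K] [NumberField K] [Algebra K ℝ] {σ₂ : K →+* ℝ} {m : Ideal (𝓞 K)}
  {M : IntermediateField K ℝ} {l : ℕ} {e : 𝓞 K}

variable {H : IntermediateField K ℝ} {Art : RayClassGroup σ₂ m ≃* (H ≃ₐ[K] H)}

theorem exists_Q [FiniteDimensional K M] [IsGalois K M] [NumberField (M1 M (e : K) l)]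
    [FiniteDimensional K H] [IsGalois K H] (hMH : M ≤ H) (P : PrI (M1 M (e : K) l)) :
    ∃ Q : PrI H, und K Q = und K P ∧ ∀ w, IsInt M w → ∀ w' : 𝓞 (M1 M (e : K) l),
      ((w' : M1 M (e : K) l) : ℂ) = (w : ℂ) → ∀ j : ℕ, (rd Q w) ^ j = 1 → (Ideal.Quotient.mk P.asIdeal w') ^ j = 1 := by
  have hmem : ∀ y : M, ((jR K).comp M.val) y ∈ (M1 M (e : K) l).toSubalgebra := by
    intro y
    have h1 : M.map (jR K) ≤ M1 M (e : K) l := le_sup_left
    exact h1 ⟨(y : ℝ), y.2, rfl⟩
  let j : M →ₐ[K] M1 M (e : K) l :=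
    ((jR K).comp M.val).codRestrict (M1 M (e : K) l).toSubalgebra hmem
  have := numberField_of_fd M
  let _ : Algebra M (M1 M (e : K) l) := (j : M →+* M1 M (e : K) l).toAlgebra
  have : IsScalarTower K M (M1 M (e : K) l) :=
    IsScalarTower.of_algebraMap_eq fun x => (j.commutes x).symm
  obtain ⟨Q, h1, h2, -⟩ := Pool.Agent.STc.exists_up hMH (und M P)
  refine ⟨Q, by rw [h1, und_und], fun w hw w' hww j hj => ?_⟩
  have hwH : IsInt H w := hw.mono hMH
  have hx : IsInt M (w ^ j - 1) := (hw.pow j).sub IsInt.one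
  have h3 : rd Q (w ^ j - 1) = 0 := by
    rw [Pool.Agent.STc.rd_sub (hwH.pow j) IsInt.one, Pool.Agent.STc.rd_pow hwH, hj,
      Pool.Agent.STc.rd_one, sub_self]
  rw [h2 _ hx, Pool.Agent.STc.rd_eq_zero_iff hx, Pool.Agent.STd.mem_und] at h3
  rw [← map_pow, ← map_one (Ideal.Quotient.mk _), Ideal.Quotient.eq]
  have h4 : w' ^ j - 1 = algebraMap (𝓞 M) (𝓞 (M1 M (e : K) l)) hx.toO := by
    apply RingOfIntegers.coe_injective
    apply Subtype.ext
    have h5 : ((((algebraMap (𝓞 M) (𝓞 (M1 M (e : K) l)) hx.toO : 𝓞 (M1 M (e : K) l)) :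
        M1 M (e : K) l)) : ℂ) = ((w ^ j - 1 : ℝ) : ℂ) := rfl
    rw [h5, map_sub, map_pow, map_one]
    push_cast
    rw [hww]
  rw [h4]
  exact h3

end Pool.Agent.STr
end
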