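import Pool.Agent.Lib.MP_1ef7cf_nt_r.Mg.G009
import Pool.Agent.Lib.MP_1ef7cf_nt_r.Mg.G015
import Pool.Agent.Lib.MP_1ef7cf_nt_r.Mg.G023
import Pool.Agent.Lib.MP_1ef7cf_nt_r.Mg.G024
import Pool.Agent.Lib.MP_1ef7cf_nt_r.Mg.G025
import Pool.Agent.Lib.MP_1ef7cf_nt_r.E5
import Pool.Agent.Lib.MP_1ef7cf_nt_r.Mg.G026

section

/-!
# TASK G1: wild twists (Step A of section 8 of the paper)

PROOF. Let `r₀` be as in `prop51'` (V9) for `χ`, `s = 1` and the prime `r`; `t = I₀ + r₀ + 3`, `k = t - 1`, `M = m * (r) ^ t`. `hr`: `(r) = q` is a prime ideal not dividing `m`, so `(r)` and `m` are coprime, and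
`Nw m M = {q}` (or contained in it). `InX (Lz M) (χ ∘ pr)` by `InX.lift` (V4; the only new prime is `q`, `χ [q] ≠ 1`). `ω₀` of order `r ^ (t - 1)` by `exists_wild` (N4), `ω` by `exists_NT` (N3;
`M ≤ (r ^ t)`; the class group of `M` is finite, `Hy.finite_cl`), `orderOf ω = r ^ (t - 1)` by `NT.order_wild` (N5). `prop51'`: `T ⊆ Icc 1 k`, `|T| ≤ r₀`; the set `Icc (I₀ + 1) k` has more than `r₀`
elements, so there is `i` in it, `i ∉ T`: `η ∈ zpowers ω`, `orderOf η = r ^ i`, `InX (χ∘pr * η)`. `η = ω ^ j` (`j : ℤ`) is `NT (ω₀ ^ j)` (`NT.pow`), and `orderOf (ω₀ ^ j) = orderOf η = r ^ i`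
by `NT.order_wild` for `ω₀ ^ j` (its order is a power of `r`); `(ω₀ ^ j) (-1) = 1`.
-/

set_option autoImplicit false

open NumberField IsDedekindDomain nonZeroDivisors IntermediateField

namespace Pool.Agent.STr

open Pool.Agent.ST

variable {K : Type*} [Field K] [NumberField K] [Algebra K ℝ] {σ₂ : K →+* ℝ} {n m : Ideal (𝓞 K)}

theorem stepA (hy : Hy σ₂ n) (hm : m ≠ ⊥) (hnm : n ∣ m) {χ : RayClassGroup σ₂ m →* ℂˣ} (hχ : InX (Lz σ₂ m) χ)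
    {r : ℕ} (hr : r.Prime) (hr2 : r ≠ 2) {q : PrI K} (hqr : q.asIdeal = Ideal.span {(r : 𝓞 K)}) (hq : ¬ q.asIdeal ∣ m)
    (hχq : χ (cls σ₂ m (prJ m q hq)) ≠ 1) (I₀ : ℕ) :
    ∃ (t i : ℕ) (hle : m * Ideal.span {(r : 𝓞 K)} ^ t ≤ m) (η₀ : (ZMod (r ^ t))ˣ →* ℂˣ)
      (η : RayClassGroup σ₂ (m * Ideal.span {(r : 𝓞 K)} ^ t) →* ℂˣ), I₀ ≤ i ∧ 1 ≤ i ∧ 2 ≤ t ∧
      orderOf η₀ = r ^ i ∧ η₀ (-1) = 1 ∧ NT (r ^ t) η₀ η ∧
      InX (Lz σ₂ (m * Ideal.span {(r : 𝓞 K)} ^ t)) (χ.comp (pr σ₂ hle) * η) := by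
  classical
  obtain ⟨r₀, hr₀⟩ := prop51' hy hm hnm hχ 1 hr
  obtain ⟨t, ht⟩ : ∃ t, t = I₀ + r₀ + 3 := ⟨_, rfl⟩
  have hle : m * Ideal.span {(r : 𝓞 K)} ^ t ≤ m := Ideal.mul_le_left
  have hP0 : Ideal.span {(r : 𝓞 K)} ≠ ⊥ := by rw [← hqr]; exact q.ne_bot
  have hPt0 : Ideal.span {(r : 𝓞 K)} ^ t ≠ ⊥ := by
    rw [← Ideal.zero_eq_bot] at hP0 ⊢
    exact pow_ne_zero _ hP0
  have hM : m * Ideal.span {(r : 𝓞 K)} ^ t ≠ ⊥ := by
    rw [← Ideal.zero_eq_bot] at hm hPt0 ⊢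
    exact mul_ne_zero hm hPt0
  have hnM : n ∣ m * Ideal.span {(r : 𝓞 K)} ^ t := hnm.mul_right _
  have hnew : ∀ v : PrI K, ¬ v.asIdeal ∣ m → v.asIdeal ∣ m * Ideal.span {(r : 𝓞 K)} ^ t → v = q := by
    intro v hv hvM
    have h1 : Prime v.asIdeal := v.prime
    rcases h1.dvd_or_dvd hvM with h | h
    · exact absurd h hv
    · have h2 := h1.dvd_of_dvd_pow h
      rw [← hqr] at h2
      exact eq_of_dvd_prime h2
  have hNw : (Nw m (m * Ideal.span {(r : 𝓞 K)} ^ t)).ncard ≤ 1 := by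
    have h1 : Nw m (m * Ideal.span {(r : 𝓞 K)} ^ t) ⊆ {q} := fun v hv => hnew v hv.2 hv.1
    have h2 := Set.ncard_le_ncard h1 (Set.finite_singleton q)
    rwa [Set.ncard_singleton] at h2
  have hX : InX (Lz σ₂ (m * Ideal.span {(r : 𝓞 K)} ^ t)) (χ.comp (pr σ₂ hle)) := by
    refine InX.lift hy hm hnm hM hle hχ fun v hv hvM => ?_
    have h1 := hnew v hv hvM
    subst h1
    exact hχq
  obtain ⟨ω₀, ho, h1⟩ := exists_wild hr hr2 (t := t) (by omega)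
  have hMN : m * Ideal.span {(r : 𝓞 K)} ^ t ≤ Ideal.span {((r ^ t : ℕ) : 𝓞 K)} := by
    refine Ideal.mul_le_right.trans (le_of_eq ?_)
    rw [Ideal.span_singleton_pow, Nat.cast_pow]
  have hf : Finite (RayClassGroup σ₂ (m * Ideal.span {(r : 𝓞 K)} ^ t)) := hy.finite_cl hM hnM
  have hN0 : r ^ t ≠ 0 := pow_ne_zero _ hr.ne_zero
  obtain ⟨ω, hω⟩ := exists_NT (σ₂ := σ₂) hy.h2 hN0 hM hMN ω₀ h1
  have hrm : IsCoprime (Ideal.span {(r : 𝓞 K)}) m := by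
    rw [← hqr]
    exact coprime_prime_iff.2 hq
  have hoω : orderOf ω = r ^ (t - 1) := (NT.order_wild hy.h2 hr hr2 hm hrm rfl hω ⟨_, ho⟩).trans ho
  obtain ⟨T, hT, hTc, hT'⟩ := hr₀ _ hle hM hNw hX ω (t - 1) hoω
  obtain ⟨i, hi, hiT⟩ : ∃ i ∈ Finset.Icc (I₀ + 1) (t - 1), i ∉ T := by
    refine Finset.exists_mem_notMem_of_card_lt_card ?_
    rw [Nat.card_Icc]
    omega
  rw [Finset.mem_Icc] at hi
  obtain ⟨η, hη, hoη, hXη⟩ := hT' i (Finset.mem_Icc.2 ⟨by omega, hi.2⟩) hiT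
  obtain ⟨j, hj⟩ := Subgroup.mem_zpowers_iff.1 hη
  have hNT : NT (r ^ t) (ω₀ ^ j) (ω ^ j) := hω.pow j
  have hd : orderOf (ω₀ ^ j) ∣ r ^ (t - 1) := by
    have h3 : ω₀ ^ (r ^ (t - 1)) = 1 := by rw [← ho]; exact pow_orderOf_eq_one ω₀
    refine orderOf_dvd_of_pow_eq_one (MonoidHom.ext fun x => ?_)
    have h4 := DFunLike.congr_fun h3 x
    rw [MonoidHom.pow_apply, MonoidHom.one_apply] at h4
    rw [MonoidHom.pow_apply, MonoidHom.zpow_apply, MonoidHom.one_apply, ← zpow_natCast, ← zpow_mul, mul_comm,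
      zpow_mul, zpow_natCast, h4, one_zpow]
  obtain ⟨i', -, hi'⟩ := (Nat.dvd_prime_pow hr).1 hd
  have h2 : orderOf (ω ^ j) = orderOf (ω₀ ^ j) := NT.order_wild hy.h2 hr hr2 hm hrm rfl hNT ⟨_, hi'⟩
  rw [hj] at h2 hNT
  refine ⟨t, i, hle, ω₀ ^ j, η, by omega, by omega, by omega, h2.symm.trans hoη, ?_, hNT, hXη⟩
  rw [MonoidHom.zpow_apply, h1, one_zpow]

end Pool.Agent.STr
end

section

/-!
# TASK E7: the primes `l` and `q` (assembly of section 4)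

PROOF. Let `σ = Art C` (order `p₀ ^ a`), `M = fixL σ`, `H₀ = fixL (σ ^ p₀)`; both are Galois over `K` (`Gal(H/K)` is abelian: `normal_of_abelian`; `IsGalois` of a subextension of an
abelian extension), `M ≤ H₀ ≤ H`, `[H₀ : K] = p₀ [M : K]` by `finrank_fixL` (`orderOf (σ ^ p₀) = p₀ ^ (a - 1)`). Let `ε₀` be a fundamental unit (`exists_fund`), `e = ε₀`.
The elements of `W` are in `M` (`mem_fixL`). Choose a prime `l` larger than: `2`, `p₀`, `Nat.card (RayClassGroup σ₂ m)`, `4 |W|`, the bound of `exists_unram` for `H₀`, and the bounds of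
`not_pow` (E1) for all `w ∈ W`. Then: `¬ l ∣ card`; `H0_not_le` (with `cyc_irred`); for `w ∈ W`: `kummer_M1` (for `M`; the elements of `M` are in `H`). `exists_P` (E5) with
`B` = primes dividing `m` or containing `l`. Then `dvd_pn`, `unit_pow` (every unit is `± ε₀ ^ k`, and `-1 = (-1) ^ l`), `fix_M`, `gen_of_fix` (E0): `Art [q] = σ ^ j = Art (C ^ j)`, `¬ p₀ ∣ j`;
`exists_Q`: `Q`; if `rd Q w ^ ((pn q - 1) / l) = 1` then `(w' mod P) ^ (...) = 1` for the element `w' ∈ 𝓞 F` with value `w`, contradiction to `exists_P`.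
-/

set_option autoImplicit false

open NumberField IsDedekindDomain nonZeroDivisors IntermediateField

namespace Pool.Agent.STr

open Pool.Agent.ST
open Pool.Agent.STc (IsInt rd IsUn)
open Pool.Agent.STd (jR fixL KZ)

variable {K : Type*} [Field K] [NumberField K] [Algebra K ℝ] {σ₂ : K →+* ℝ} {m : Ideal (𝓞 K)}

theorem exists_lq (h2 : Module.finrank ℚ K = 2) (hm : m ≠ ⊥) {H : IntermediateField K ℝ}
    {Art : RayClassGroup σ₂ m ≃* (H ≃ₐ[K] H)} (hr : IsRayClassField σ₂ m H Art) [FiniteDimensional K H]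
    {C : RayClassGroup σ₂ m} {p₀ a : ℕ} (hp₀ : p₀.Prime) (ha : a ≠ 0) (hC : orderOf C = p₀ ^ a) {W : Finset ℝ}
    (hW : ∀ w ∈ W, IsUn H w ∧ 0 < w ∧ w ≠ 1 ∧ act (Art C) w = w ∧ ∏ g : H ≃ₐ[K] H, act g w = 1) :
    ∃ (l : ℕ) (q : PrI K) (hq : ¬ q.asIdeal ∣ m) (j : ℕ) (Q : PrI H), l.Prime ∧
      ¬ l ∣ Nat.card (RayClassGroup σ₂ m) ∧ l ∣ pn q - 1 ∧
      (∀ u : (𝓞 K)ˣ, ∃ y : 𝓞 K ⧸ q.asIdeal, y ^ l = Ideal.Quotient.mk q.asIdeal (u : 𝓞 K)) ∧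
      cls σ₂ m (prJ m q hq) = C ^ j ∧ ¬ p₀ ∣ j ∧ und K Q = q ∧ ∀ w ∈ W, rd Q w ^ ((pn q - 1) / l) ≠ 1 := by
  classical
  have hgalH := hr.galois
  have hnfH := numberField_of_fd H
  have hcomm : ∀ γ δ : H ≃ₐ[K] H, γ * δ = δ * γ := fun γ δ => by
    obtain ⟨A, rfl⟩ := Art.surjective γ
    obtain ⟨B, rfl⟩ := Art.surjective δ
    rw [← map_mul, ← map_mul, mul_comm]
  have habH : IsAbelianGalois K H := isAbelianGalois_of_comm hcomm
  set σ := Art C with hσ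
  have hoσ : orderOf σ = p₀ ^ a := by rw [hσ, MulEquiv.orderOf_eq, hC]
  set M : IntermediateField K ℝ := fixL σ with hMdef
  set H₀ : IntermediateField K ℝ := fixL (σ ^ p₀) with hH₀def
  have hMH : M ≤ H := STd.fixL_le σ
  have hH₀H : H₀ ≤ H := STd.fixL_le _
  have hMH₀ : M ≤ H₀ := by
    intro x hx
    have hxH := hMH hx
    rw [hH₀def, STd.mem_fixL _ hxH]
    rw [hMdef, STd.mem_fixL _ hxH] at hx
    have h2 : σ ∈ MulAction.stabilizer (H ≃ₐ[K] H) (⟨x, hxH⟩ : H) := hx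
    exact (MulAction.stabilizer (H ≃ₐ[K] H) (⟨x, hxH⟩ : H)).pow_mem h2 p₀
  have hfdM : FiniteDimensional K M := STb.fd_of_le hMH
  have hfdH₀ : FiniteDimensional K H₀ := STb.fd_of_le hH₀H
  have habM : IsAbelianGalois K M := isAbelianGalois_of_le hMH
  have habH₀ : IsAbelianGalois K H₀ := isAbelianGalois_of_le hH₀H
  have hnfH₀ := numberField_of_fd H₀
  have hdeg : Module.finrank K H₀ = p₀ * Module.finrank K M := by
    have h1 : Module.finrank K M * orderOf σ = Module.finrank K H := finrank_fixL σ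
    have h3 : Module.finrank K H₀ * orderOf (σ ^ p₀) = Module.finrank K H := finrank_fixL (σ ^ p₀)
    obtain ⟨b, rfl⟩ := Nat.exists_eq_succ_of_ne_zero ha
    have h4 : orderOf (σ ^ p₀) = p₀ ^ b := by
      rw [orderOf_pow_of_dvd hp₀.ne_zero (by rw [hoσ]; exact dvd_pow_self _ (Nat.succ_ne_zero b)), hoσ,
        pow_succ, Nat.mul_div_cancel _ hp₀.pos]
    rw [h4] at h3
    rw [hoσ, ← h3, pow_succ, ← mul_assoc, mul_right_comm] at h1
    have h5 : 0 < p₀ ^ b := pow_pos hp₀.pos b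
    have h6 := Nat.eq_of_mul_eq_mul_right h5 h1
    rw [← h6, mul_comm]
  obtain ⟨ε₀, hε₀, hε₁⟩ := exists_fund (K := K) h2
  set e : 𝓞 K := (ε₀ : 𝓞 K) with he'
  have he : e ≠ 0 := ε₀.ne_zero
  have heK : (e : K) ≠ 0 := by
    intro h
    apply he
    apply RingOfIntegers.coe_injective
    rw [map_zero]
    exact h
  obtain ⟨N₁, hN₁⟩ := exists_unram H₀
  have hnp : ∀ w ∈ W, ∃ N₀ : ℕ, ∀ l : ℕ, l.Prime → N₀ < l → ∀ (k : ℤ), ∀ z ∈ H,
      w ≠ algebraMap K ℝ ((ε₀ : 𝓞 K) : K) ^ k * z ^ l := fun w hw =>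
    not_pow hε₀ hε₁ (hW w hw).1 (hW w hw).2.1 (hW w hw).2.2.1 (hW w hw).2.2.2.2
  choose! Nw hNw using hnp
  have hfin : Finite (RayClassGroup σ₂ m) := Finite.of_equiv _ Art.symm.toEquiv
  obtain ⟨l, hlN, hl⟩ := Nat.exists_infinite_primes
    (N₁ + W.sup Nw + p₀ + Nat.card (RayClassGroup σ₂ m) + 4 * W.card + 3)
  have hlc : ¬ l ∣ Nat.card (RayClassGroup σ₂ m) := by
    intro h
    have h1 : 0 < Nat.card (RayClassGroup σ₂ m) := Nat.card_pos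
    have h3 := Nat.le_of_dvd h1 h
    omega
  have hirr : Irreducible (Polynomial.cyclotomic l H₀) := cyc_irred hl (hN₁ l hl (by omega))
  have hnot : ¬ H₀.map (jR K) ≤ M1 M (e : K) l :=
    H0_not_le hMH₀ hp₀ hl (by omega) hdeg hirr heK
  obtain ⟨hfd1, -⟩ := M1_fd M (e : K) hl.ne_zero
  have hnf1 : NumberField (M1 M (e : K) l) := numberField_C _
  have hWM : ∀ w ∈ W, IsInt M w ∧ w ≠ 0 ∧ ∀ y ∈ M1 M (e : K) l, y ^ l ≠ (w : ℂ) := by
    intro w hw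
    obtain ⟨hu, hpos, -, hact, -⟩ := hW w hw
    have hwM : w ∈ M := by
      rw [hMdef, STd.mem_fixL _ hu.int.1]
      apply Subtype.ext
      rw [← act_of_mem σ hu.int.1]
      exact hact
    refine ⟨⟨hwM, hu.int.2⟩, hpos.ne', fun y hy => ?_⟩
    refine kummer_M1 heK hl hwM hpos.ne' (fun k z hz => ?_) hy
    refine hNw w hw l hl ?_ k z (hMH hz)
    have := Finset.le_sup (f := Nw) hw
    omega
  have hl0 : (0 : ℝ) < l := by exact_mod_cast hl.pos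
  have hcard : (W.card : ℝ) / l + 1 / 2 < 1 := by
    have h1 : (W.card : ℝ) * 4 < l := by
      have : W.card * 4 < l := by omega
      exact_mod_cast this
    have h3 : (W.card : ℝ) / l < 1 / 4 := by
      rw [div_lt_iff₀ hl0]; linarith
    linarith
  have hlne : (Ideal.span {(l : 𝓞 K)}) ≠ 0 := by
    rw [Ne, Ideal.zero_eq_bot, Ideal.span_singleton_eq_bot]
    exact Nat.cast_ne_zero.2 hl.ne_zero
  have hB : ({q : PrI K | q.asIdeal ∣ m} ∪ {q : PrI K | q.asIdeal ∣ Ideal.span {(l : 𝓞 K)}}).Finite :=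
    (Ideal.finite_factors hm).union (Ideal.finite_factors hlne)
  obtain ⟨P, hPB, hPn, hP1, hP2⟩ := exists_P hm hr hMH₀ hH₀H hl he hnot hWM hcard hB
  have hq : ¬ (und K P).asIdeal ∣ m := fun h => hPB (Or.inl h)
  have hlP : (l : 𝓞 K) ∉ (und K P).asIdeal := fun h => hPB (Or.inr (Ideal.dvd_span_singleton.2 h))
  have heP : e ∉ (und K P).asIdeal := fun h =>
    (und K P).isPrime.ne_top (Ideal.eq_top_of_isUnit_mem _ h ε₀.isUnit)
  obtain ⟨Q, hQ, hQ2⟩ := exists_Q (e := e) (l := l) hMH P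
  have h1 : ∀ x ∈ fixL σ, act (Art (cls σ₂ m (prJ m (und K P) hq))) x = x := fun x hx =>
    fix_M hm hr hMH hPn hq hx
  obtain ⟨j, hj, hpj⟩ := gen_of_fix h1 (hP1 hq)
  refine ⟨l, und K P, hq, j, Q, hl, hlc, dvd_pn hl hlP hPn, ?_, ?_, hpj, hQ, ?_⟩
  · obtain ⟨y, hy⟩ := unit_pow hl hlP hPn heP
    have hyu : IsUnit y := by
      rw [← isUnit_pow_iff hl.ne_zero, hy]
      exact ε₀.isUnit.map _
    obtain ⟨v, rfl⟩ := hyu
    have hv : v ^ l = Units.map (Ideal.Quotient.mk (und K P).asIdeal).toMonoidHom ε₀ :=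
      Units.ext (by rw [Units.val_pow_eq_pow_val, hy]; rfl)
    have hk : ∀ k : ℤ, (((v ^ k : (𝓞 K ⧸ (und K P).asIdeal)ˣ) : 𝓞 K ⧸ (und K P).asIdeal)) ^ l =
        Ideal.Quotient.mk _ ((ε₀ ^ k : (𝓞 K)ˣ) : 𝓞 K) := by
      intro k
      rw [← Units.val_pow_eq_pow_val, ← zpow_natCast, zpow_comm, zpow_natCast, hv, ← map_zpow]
      rfl
    have hlodd : Odd l := hl.odd_of_ne_two (by omega)
    intro u
    obtain ⟨k, hu | hu⟩ := hε₀ u
    · exact ⟨_, by rw [hk k, hu]⟩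
    · refine ⟨-(((v ^ k : (𝓞 K ⧸ (und K P).asIdeal)ˣ) : 𝓞 K ⧸ (und K P).asIdeal)), ?_⟩
      rw [hlodd.neg_pow, hk k, hu, Units.val_neg, map_neg]
  · apply Art.injective
    rw [hj, map_pow]
  · intro w hw h
    obtain ⟨hI, h0, -⟩ := hWM w hw
    have hmem : (w : ℂ) ∈ M1 M (e : K) l := by
      have : (w : ℂ) ∈ M.map (jR K) := ⟨w, hI.1, rfl⟩
      exact (le_sup_left : M.map (jR K) ≤ M1 M (e : K) l) this
    have hint : IsIntegral ℤ (w : ℂ) := hI.2.map (Complex.ofRealHom.toIntAlgHom)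
    have hint' : IsIntegral ℤ (⟨(w : ℂ), hmem⟩ : M1 M (e : K) l) :=
      (isIntegral_algebraMap_iff (R := ℤ) (A := M1 M (e : K) l) (B := ℂ)
        (algebraMap (M1 M (e : K) l) ℂ).injective).1 hint
    refine hP2 w hw ⟨⟨(w : ℂ), hmem⟩, hint'⟩ rfl ?_
    rw [hPn]
    exact hQ2 w hI ⟨⟨(w : ℂ), hmem⟩, hint'⟩ rfl _ h

end Pool.Agent.STr
end
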