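import Pool.Agent.Lib.MP_1ef7cf_nt_r.V1
import Pool.Agent.Lib.MP_1ef7cf_nt_d.CYC
import Pool.Agent.Lib.MP_1ef7cf_nt_e.Mg.G002

section

/-!
# TASK K3: the order of the kernel is divisible by `l`

PROOF. Template: `four_dvd_card` in `MP_1ef7cf_nt_d/CYC.lean`. By `exists_cyc'` the group `{γ ∈ Gal(H'/K) | res γ = 1}` is generated by `γ₀`, and `γ₀ ^ k = 1` iff
`g ^ k = w` modulo `q` for some unit `w` with `EU σ₂ m w`; `g` generates `(𝓞 K / q)ˣ`. Let `k = orderOf γ₀`, `g ^ k = w = y ^ l = g ^ (j l)` (`y ≠ 0`), so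
`pn q - 1 ∣ k - j l`, and `l ∣ pn q - 1`, so `l ∣ k`. The kernel of `pr` corresponds to `{γ | res γ = 1} = ⟨γ₀⟩` under `Art'` (`IsRCF.res_art`), so it has `k` elements.
-/

set_option autoImplicit false

open NumberField IsDedekindDomain nonZeroDivisors IntermediateField

namespace Pool.Agent.STr

open Pool.Agent.ST

variable {K : Type*} [Field K] [NumberField K] [Algebra K ℝ] {σ₂ : K →+* ℝ} {m : Ideal (𝓞 K)} {q : PrI K}
  {H H' : IntermediateField K ℝ} {Art : RayClassGroup σ₂ m ≃* (H ≃ₐ[K] H)}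
  {Art' : RayClassGroup σ₂ (m * q.asIdeal) ≃* (H' ≃ₐ[K] H')}

theorem dvd_card_ker (hm : m ≠ ⊥) (hq : ¬ q.asIdeal ∣ m) (h : IsRayClassField σ₂ m H Art)
    (h' : IsRayClassField σ₂ (m * q.asIdeal) H' Art') {l : ℕ} (hl : l ∣ pn q - 1)
    (hu : ∀ w : (𝓞 K)ˣ, ∃ y : 𝓞 K ⧸ q.asIdeal, y ^ l = Ideal.Quotient.mk q.asIdeal (w : 𝓞 K)) :
    l ∣ Nat.card (pr σ₂ (Ideal.mul_le_left : m * q.asIdeal ≤ m)).ker := by
  have hle' : m * q.asIdeal ≤ m := Ideal.mul_le_left
  have hne' : m * q.asIdeal ≠ ⊥ := mul_ne_bot' hm q.ne_bot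
  have hle : H ≤ H' := IsRCF.le hle' hne' Set.finite_empty Set.finite_empty h'.isRCF h.isRCF
  have := h.finite
  have := h'.finite
  have hgal := h.galois
  have : Normal K H := hgal.to_normal
  obtain ⟨γ₀, g, h1, h2, h3, h5⟩ := Pool.Agent.STd.exists_cyc' hm hq h h' hle
  have hγ₀ : res hle γ₀ = 1 := (h1 γ₀).2 (Subgroup.mem_zpowers γ₀)
  have hA₀ : Art'.symm γ₀ ∈ (pr σ₂ hle').ker := by
    rw [MonoidHom.mem_ker]
    apply Art.injective
    rw [map_one, ← IsRCF.res_art hle' hne' Set.finite_empty Set.finite_empty h'.isRCF h.isRCF hle,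
      MulEquiv.apply_symm_apply]
    exact hγ₀
  have h7 : γ₀ ^ (Nat.card (pr σ₂ hle').ker) = 1 := by
    have h6 := pow_card_eq_one' (x := (⟨Art'.symm γ₀, hA₀⟩ : (pr σ₂ hle').ker))
    have h8 : (Art'.symm γ₀) ^ (Nat.card (pr σ₂ hle').ker) = 1 := congrArg Subtype.val h6
    rw [← map_pow, ← map_one Art'.symm] at h8
    exact Art'.symm.injective h8
  obtain ⟨w, hw1, hw2⟩ := (h3 _).1 h7
  obtain ⟨x, hx⟩ := hu w
  have := q.isMaximal
  let _ : Field (𝓞 K ⧸ q.asIdeal) := Ideal.Quotient.field q.asIdeal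
  have hw0 : Ideal.Quotient.mk q.asIdeal (w : 𝓞 K) ≠ 0 := by
    have := (w.isUnit.map (Ideal.Quotient.mk q.asIdeal))
    exact this.ne_zero
  by_cases hl0 : l = 0
  · subst hl0
    rw [pow_zero] at hx
    have h9 : g ^ (Nat.card (pr σ₂ hle').ker) = g ^ 0 := by rw [hw2, ← hx, pow_zero]
    have h10 := h5 _ _ h9
    have h11 : pn q - 1 = 0 := Nat.eq_zero_of_zero_dvd hl
    rw [h11] at h10
    have h12 : (Nat.card (pr σ₂ hle').ker : ℤ) = 0 := by
      rw [Nat.cast_zero, zero_dvd_iff, sub_zero] at h10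
      exact h10
    have h13 : Nat.card (pr σ₂ hle').ker = 0 := by exact_mod_cast h12
    rw [h13]
  · have hx0 : x ≠ 0 := by
      rintro rfl
      rw [zero_pow hl0] at hx
      exact hw0 hx.symm
    obtain ⟨j, hj⟩ := h2 x hx0
    rw [← hx, hj, ← pow_mul] at hw2
    have h8 := h5 _ _ hw2
    have h9 : (l : ℤ) ∣ ((pn q - 1 : ℕ) : ℤ) := by exact_mod_cast hl
    have h10 := h9.trans h8
    have h11 : (l : ℤ) ∣ ((j * l : ℕ) : ℤ) := by
      push_cast
      exact Dvd.intro_left _ rfl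
    have h12 := (dvd_sub_comm.1 h10)
    have h13 : (l : ℤ) ∣ (Nat.card (pr σ₂ hle').ker : ℤ) := by
      have := dvd_add h10 h11
      simpa using this
    exact_mod_cast h13

end Pool.Agent.STr
end

section

/-!
# TASK K1a: residue fields at the new prime

`H = H_m`, `H' = H_(m q)`, `Q` a prime of `H'` over `q`.

PROOF of `frob_card`: let `f` be such that `Art [q] ^ f = 1` in `Gal(H/K)`. Let `σ` be a Frobenius element at `Q` in `Gal(H'/K)` (`exists_isFrob`, `Q` may be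
ramified): `rd Q (act σ x) = rd Q x ^ pn q` for `x ∈ 𝓞 H'` (`rd_frob`). Its restriction to `H` is a Frobenius element at `Q ∩ H`, which is unramified over
`K`, so it is `Art [q]` (`isFrob_unique`, `exists_dn` / `isFrob_res`, `IsRCF.frobP`), so `res (σ ^ f) = 1`, and `rd Q (act (σ ^ f) x) = rd Q x` by
`rd_act_of_res_one` (`MP_1ef7cf_nt_e/INR.lean`). Also `rd Q (act (σ ^ f) x) = rd Q x ^ (pn q ^ f)` by induction. Every element of the residue field is `rd Q x`
for some `x` (`isInt_coe`, `rd_of`).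
PROOF of `rd_frob_base`: for `x ∈ 𝓞 H`: the restriction of `σ` to `H` is `Art [q]`, so `act (Art [q]) x = act σ x` (`act_res`), and `rd_frob` for `σ`.
(This file: frob_card.)
-/

set_option autoImplicit false

open NumberField IsDedekindDomain nonZeroDivisors IntermediateField

namespace Pool.Agent.STr

open Pool.Agent.ST
open Pool.Agent.STc (IsInt rd IsUn)

variable {K : Type*} [Field K] [NumberField K] [Algebra K ℝ] {σ₂ : K →+* ℝ} {m : Ideal (𝓞 K)} {q : PrI K}
  {H H' : IntermediateField K ℝ} {Art : RayClassGroup σ₂ m ≃* (H ≃ₐ[K] H)}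
  {Art' : RayClassGroup σ₂ (m * q.asIdeal) ≃* (H' ≃ₐ[K] H')}

theorem frob_card (hm : m ≠ ⊥) (hq : ¬ q.asIdeal ∣ m) (h : IsRayClassField σ₂ m H Art)
    (h' : IsRayClassField σ₂ (m * q.asIdeal) H' Art') (hle : H ≤ H') {Q : PrI H'} (hQ : und K Q = q) {f : ℕ}
    (hf : Art (cls σ₂ m (prJ m q hq)) ^ f = 1) (z : 𝓞 H' ⧸ Q.asIdeal) : z ^ (pn q ^ f) = z := by
  have hH := h.finite
  have hHG := h.galois
  have hH' := h'.finite
  have hHG' := h'.galois
  have hnf := numberField_of_fd H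
  have hnf' := numberField_of_fd H'
  have hHN : Normal K H := hHG.to_normal
  obtain ⟨φ, hφ⟩ := exists_isFrob (K := K) Q
  obtain ⟨P₁, hP₁, -, hres⟩ := isFrob_res hle Q
  have hP₁q : und K P₁ = q := by rw [hP₁, hQ]
  obtain ⟨hun, hfr⟩ := h.isRCF.frobP P₁ (by simp) (prJ m q hq) (by rw [coe_prJ, hP₁q])
  have e1 : res hle φ = Art (cls σ₂ m (prJ m q hq)) := isFrob_unique (hres φ hφ) hfr
  have e2 : res hle (φ ^ f) = 1 := by rw [map_pow, e1, hf]
  have key : ∀ (k : ℕ) (x : ℝ), IsInt H' x → rd Q (act (φ ^ k) x) = rd Q x ^ (pn q ^ k) := by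
    intro k
    induction k with
    | zero =>
      intro x hx
      rw [pow_zero, pow_zero, pow_one, act_one_left hx.1]
    | succ k ih =>
      intro x hx
      rw [pow_succ, act_comp _ _ hx.1, ih _ (hx.act φ), STc.rd_frob hφ hx, hQ, ← pow_mul,
        pow_succ, mul_comm]
  obtain ⟨y, rfl⟩ := Ideal.Quotient.mk_surjective z
  have hy : IsInt H' ((y : H') : ℝ) := STc.isInt_coe y
  have hrd : rd Q ((y : H') : ℝ) = Ideal.Quotient.mk Q.asIdeal y := by
    rw [STc.rd_of hy]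
    rfl
  rw [← hrd, ← key f _ hy]
  exact STe.rd_act_of_res_one hm hq h h' hle e2 hQ hy

end Pool.Agent.STr
end

section

/-!
# TASK K1: residue fields at the new prime

`H = H_m`, `H' = H_(m q)`, `Q` a prime of `H'` over `q`.

PROOF of `frob_card`: let `f` be such that `Art [q] ^ f = 1` in `Gal(H/K)`. Let `σ` be a Frobenius element at `Q` in `Gal(H'/K)` (`exists_isFrob`, `Q` may be
ramified): `rd Q (act σ x) = rd Q x ^ pn q` for `x ∈ 𝓞 H'` (`rd_frob`). Its restriction to `H` is a Frobenius element at `Q ∩ H`, which is unramified over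
`K`, so it is `Art [q]` (`isFrob_unique`, `exists_dn` / `isFrob_res`, `IsRCF.frobP`), so `res (σ ^ f) = 1`, and `rd Q (act (σ ^ f) x) = rd Q x` by
`rd_act_of_res_one` (`MP_1ef7cf_nt_e/INR.lean`). Also `rd Q (act (σ ^ f) x) = rd Q x ^ (pn q ^ f)` by induction. Every element of the residue field is `rd Q x`
for some `x` (`isInt_coe`, `rd_of`).
PROOF of `rd_frob_base`: for `x ∈ 𝓞 H`: the restriction of `σ` to `H` is `Art [q]`, so `act (Art [q]) x = act σ x` (`act_res`), and `rd_frob` for `σ`.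
(This file: rd_frob_base.)
-/

set_option autoImplicit false

open NumberField IsDedekindDomain nonZeroDivisors IntermediateField

namespace Pool.Agent.STr

open Pool.Agent.ST
open Pool.Agent.STc (IsInt rd IsUn)

variable {K : Type*} [Field K] [NumberField K] [Algebra K ℝ] {σ₂ : K →+* ℝ} {m : Ideal (𝓞 K)} {q : PrI K}
  {H H' : IntermediateField K ℝ} {Art : RayClassGroup σ₂ m ≃* (H ≃ₐ[K] H)}
  {Art' : RayClassGroup σ₂ (m * q.asIdeal) ≃* (H' ≃ₐ[K] H')}

theorem rd_frob_base (hm : m ≠ ⊥) (hq : ¬ q.asIdeal ∣ m) (h : IsRayClassField σ₂ m H Art)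
    (h' : IsRayClassField σ₂ (m * q.asIdeal) H' Art') (hle : H ≤ H') {Q : PrI H'} (hQ : und K Q = q) {x : ℝ}
    (hx : IsInt H x) : rd Q (act (Art (cls σ₂ m (prJ m q hq))) x) = rd Q x ^ pn q := by
  have hne' : m * q.asIdeal ≠ ⊥ := mul_ne_bot' hm q.ne_bot
  have := h'.finite
  have := h'.isRCF.abelian
  have := h.isRCF.abelian
  have := h.finite
  have := numberField_of_fd H'
  obtain ⟨Φ, hΦ⟩ := exists_isFrob (K := K) Q
  have hΦq : STc.FrobAt q H' Φ := by rw [← hQ]; exact STc.frobAt_of_isFrob hΦ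
  have hΦ0 : res hle Φ = Art (cls σ₂ m (prJ m q hq)) := by
    obtain ⟨hu, hF⟩ := STc.frobAt_rcf h hq
    exact (hΦq.res hle).unique hu hF
  rw [← hΦ0, act_res hle _ hx.1, STc.rd_frob hΦ (hx.mono hle), hQ]

end Pool.Agent.STr
end
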