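import Pool.Agent.Lib.MP_1ef7cf_nt_r.Mg.G002
import Pool.Agent.Lib.MP_1ef7cf_nt_r.Mg.G009
import Pool.Agent.Lib.MP_1ef7cf_nt_e.Mg.G002
import Pool.Agent.Lib.MP_1ef7cf_nt_r.Mg.G027

section

/-!
# TASK K2: Kolyvagin's congruence (Prop 3.2 of the paper)

PROOF. Let `G = ker (pr : C_(mq) → C_m)`, `l ∣ |G|`, `l` prime to `|C_m|`. Let `G_l ⊆ G` be the subgroup of the elements of `l`-power order (`l`-Sylow), `|G_l| = l ^ s`,
`s ≥ 1`, and `T` a set of representatives of `G / G_l`; `A'` a class over `A`. For `B ∈ G_l`: `L'.θ B` restricted to `L.H` has order dividing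
`|Gal(L.H/K)| = |C_m|` and dividing a power of `l`, so it is trivial; by `rd_act_of_res_one` (INR) `rd Q (act (L'.θ B) x) = rd Q x` for integral `x ∈ L'.H`, i.e.
`rd Q (ev (mq) (A'' * B)) = rd Q (ev (mq) A'')` (`Lv.eq`, `isUn_ev`). By `UU_prime` (exponentials; the fibre over `A` is `A' * G`):
`ev m A / ev m (A [q]⁻¹) = ∏ t ∈ T, ∏ B ∈ G_l, ev (mq) (A' t B)`, so its reduction is `(∏ t ∈ T, rd Q (ev (mq) (A' t))) ^ (l ^ s)`: an `l`-th power, not zero
(`rd_ne_zero`: the `ev` are units). (All factors are in `L'.H`; the element of `L.H` is in `L'.H` by `Lv.le`. `rd Q` is multiplicative on integral elements,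
`rd_prod`.)
-/

set_option autoImplicit false

open NumberField IsDedekindDomain nonZeroDivisors IntermediateField

namespace Pool.Agent.STr

open Pool.Agent.ST
open Pool.Agent.STc (IsInt rd IsUn)

variable {K : Type*} [Field K] [NumberField K] [Algebra K ℝ] {σ₂ : K →+* ℝ} {n m : Ideal (𝓞 K)}

theorem kolyvagin (hy : Hy σ₂ n) (hm : m ≠ ⊥) (hnm : n ∣ m) (L : Lv σ₂ m) {q : PrI K} (hq : ¬ q.asIdeal ∣ m)
    (L' : Lv σ₂ (m * q.asIdeal)) {l : ℕ} (hl : l.Prime) (hlc : ¬ l ∣ Nat.card (RayClassGroup σ₂ m))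
    (hlk : l ∣ Nat.card (pr σ₂ (Ideal.mul_le_left : m * q.asIdeal ≤ m)).ker) {Q : PrI L'.H} (hQ : und K Q = q)
    (A : RayClassGroup σ₂ m) :
    ∃ z : 𝓞 L'.H ⧸ Q.asIdeal, z ≠ 0 ∧
      rd Q (ev σ₂ m A / ev σ₂ m (A * (cls σ₂ m (prJ m q hq))⁻¹)) = z ^ l := by
  classical
  have hm' : m * q.asIdeal ≠ ⊥ := mul_ne_bot' hm q.ne_bot
  have hle : m * q.asIdeal ≤ m := Ideal.mul_le_left
  have hnm' : n ∣ m * q.asIdeal := hnm.mul_right _
  have hH : L.H ≤ L'.H := L.le L' hle hm'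
  have i1 := L'.fd
  have i2 := L'.ab
  have i3 := L.fd
  have i4 := L.ab
  have i5 := L'.finite_cl
  have i6 := L.finite_cl
  have i7 := Fintype.ofFinite (RayClassGroup σ₂ (m * q.asIdeal))
  have i9 := numberField_of_fd L'.H
  have i8 := Q.isMaximal
  let _ : Field (𝓞 L'.H ⧸ Q.asIdeal) := Ideal.Quotient.field Q.asIdeal
  have U' : ∀ B, IsUn L'.H (ev σ₂ (m * q.asIdeal) B) := isUn_ev hy hm' hnm' L'
  have := Fact.mk hl
  obtain ⟨B₀, hB₀⟩ := exists_prime_orderOf_dvd_card' l hlk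
  have hB₀' : orderOf (B₀ : RayClassGroup σ₂ (m * q.asIdeal)) = l := by
    rw [Subgroup.orderOf_coe]; exact hB₀
  set f : RayClassGroup σ₂ (m * q.asIdeal) → 𝓞 L'.H ⧸ Q.asIdeal :=
    fun B => rd Q (ev σ₂ (m * q.asIdeal) B) with hf
  have hf0 : ∀ B, f B ≠ 0 := fun B => STe.ksi_rd_ne Q (U' B)
  -- the restriction of `θ B₀` is trivial
  have hres : res hH (L'.θ (B₀ : RayClassGroup σ₂ (m * q.asIdeal))) = 1 := by
    rw [← orderOf_eq_one_iff]
    have d1 : orderOf (res hH (L'.θ (B₀ : RayClassGroup σ₂ (m * q.asIdeal)))) ∣ l := by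
      rw [orderOf_dvd_iff_pow_eq_one, ← map_pow, ← map_pow, ← hB₀', pow_orderOf_eq_one, map_one, map_one]
    have d2 : orderOf (res hH (L'.θ (B₀ : RayClassGroup σ₂ (m * q.asIdeal)))) ∣
        Nat.card (RayClassGroup σ₂ m) := by
      rw [Nat.card_congr L.Art.toEquiv]
      exact orderOf_dvd_natCard _
    rcases (Nat.dvd_prime hl).1 d1 with h | h
    · exact h
    · exact absurd (h ▸ d2) hlc
  have hresZ : ∀ B ∈ Subgroup.zpowers (B₀ : RayClassGroup σ₂ (m * q.asIdeal)), res hH (L'.θ B) = 1 := by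
    rintro B ⟨k, rfl⟩
    simp only [map_zpow, hres, one_zpow]
  have hfZ : ∀ A'' : RayClassGroup σ₂ (m * q.asIdeal),
      ∀ B ∈ Subgroup.zpowers (B₀ : RayClassGroup σ₂ (m * q.asIdeal)), f (A'' * B) = f A'' := by
    intro A'' B hB
    simp only [hf]
    rw [← L'.eq]
    exact STe.rd_act_of_res_one hm hq L.rcf L'.rcf hH (hresZ B hB) hQ (U' A'').int
  set S : Finset (RayClassGroup σ₂ (m * q.asIdeal)) := Finset.univ.filter (fun A' => pr σ₂ hle A' = A) with hS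
  have hmemS : ∀ A', A' ∈ S ↔ pr σ₂ hle A' = A := fun A' => by simp [hS]
  have hprod : ev σ₂ m A / ev σ₂ m (A * (cls σ₂ m (prJ m q hq))⁻¹) = ∏ B ∈ S, ev σ₂ (m * q.asIdeal) B := by
    have h1 := UU_prime hy hm hnm hq hle A
    have h2 : UU hle A = ∑ B ∈ S, Lz σ₂ (m * q.asIdeal) B := by
      unfold UU
      rw [finsum_mem_eq_sum_of_inter_support_eq]
      ext B
      simp [hmemS]
    unfold ev
    rw [← Real.exp_sub, ← h1, h2, Real.exp_sum]
  have hrdprod : rd Q (∏ B ∈ S, ev σ₂ (m * q.asIdeal) B) = ∏ B ∈ S, f B :=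
    STc.rd_prod fun B _ => (U' B).int
  set Z := Subgroup.zpowers (B₀ : RayClassGroup σ₂ (m * q.asIdeal)) with hZ
  have hfm : ∀ B, f B = f (Quotient.out (QuotientGroup.mk B : RayClassGroup σ₂ (m * q.asIdeal) ⧸ Z)) := by
    intro B
    obtain ⟨z, hz⟩ := QuotientGroup.mk_out_eq_mul Z B
    rw [hz, hfZ B _ z.2]
  set g : RayClassGroup σ₂ (m * q.asIdeal) → RayClassGroup σ₂ (m * q.asIdeal) ⧸ Z := QuotientGroup.mk with hg
  refine ⟨∏ y ∈ S.image g, f (Quotient.out y), ?_, ?_⟩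
  · exact Finset.prod_ne_zero_iff.2 fun y _ => hf0 _
  · rw [hprod, hrdprod, Finset.prod_congr rfl fun B _ => hfm B,
      Finset.prod_comp (fun y : RayClassGroup σ₂ (m * q.asIdeal) ⧸ Z => f (Quotient.out y))
        g, ← Finset.prod_pow]
    refine Finset.prod_congr rfl fun y hy' => ?_
    obtain ⟨a₀, ha₀, rfl⟩ := Finset.mem_image.1 hy'
    congr 1
    have hcardZ : Nat.card Z = l := by rw [hZ, Nat.card_zpowers, hB₀']
    rw [← hcardZ, ← Nat.card_eq_finsetCard]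
    symm
    refine Nat.card_congr (Equiv.ofBijective (fun z : Z => ⟨a₀ * z, ?_⟩) ⟨?_, ?_⟩)
    · rw [Finset.mem_filter, hmemS]
      have hz : pr σ₂ hle (z : RayClassGroup σ₂ (m * q.asIdeal)) = 1 := by
        obtain ⟨k, hk⟩ := z.2
        have hk' : (B₀ : RayClassGroup σ₂ (m * q.asIdeal)) ^ k = z := hk
        rw [← hk', map_zpow, (MonoidHom.mem_ker).1 B₀.2, one_zpow]
      refine ⟨by rw [map_mul, (hmemS a₀).1 ha₀, hz, mul_one], ?_⟩
      rw [QuotientGroup.eq]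
      simp
    · intro z z' h
      have := congrArg Subtype.val h
      exact Subtype.ext (mul_left_cancel this)
    · rintro ⟨a, ha⟩
      have ha' := (Finset.mem_filter.1 ha).2
      have ha2 := (QuotientGroup.eq.1 ha'.symm)
      refine ⟨⟨a₀⁻¹ * a, ha2⟩, ?_⟩
      apply Subtype.ext
      simp

end Pool.Agent.STr
end

section

/-!
# TASK P1: the congruence for the norm

PROOF. Let `φ = L.Art [q]`, `y = ev 1 / ev ([q]⁻¹)`, `w = ∏ i < f, act (φ ^ i) y`, `L'` a level for `m q` (`Hy.lv`), `Q'` a prime of `L'.H` over `Q` (`exists_up` in Red for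
`L.H ≤ L'.H`: `rd Q' x = 0 ↔ rd Q x = 0` for integral `x ∈ L.H`; so it is enough to show `rd Q' w ^ ((pn q - 1) / l) = 1`: apply it to `w ^ (...) - 1`).
`kolyvagin` (K2) for `A = 1`: `rd Q' y = z ^ l`, `z ≠ 0`. By `rd_frob_base` (K1), iterated: `rd Q' (act (φ ^ i) y) = (rd Q' y) ^ (pn q ^ i)` (`y` and its conjugates are units
of `L.H`, in particular integral). So `rd Q' w = z ^ (l * ∑ i < f, pn q ^ i)`, and `(rd Q' w) ^ ((pn q - 1) / l) = z ^ ((pn q - 1) ∑ i < f, pn q ^ i) = z ^ (pn q ^ f - 1)`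
(`l ∣ pn q - 1`; geometric sum `Nat.geomSum_eq` / `Nat.pred_mul_geom_sum_le`...). By `frob_card` (K1) `z ^ (pn q ^ f) = z`, so this is `1`.
-/

set_option autoImplicit false

open NumberField IsDedekindDomain nonZeroDivisors IntermediateField

namespace Pool.Agent.STr

open Pool.Agent.ST
open Pool.Agent.STc (IsInt rd IsUn)

variable {K : Type*} [Field K] [NumberField K] [Algebra K ℝ] {σ₂ : K →+* ℝ} {n m : Ideal (𝓞 K)}

theorem P1_geom (N f : ℕ) (hN : 1 ≤ N) : (N - 1) * ∑ i ∈ Finset.range f, N ^ i + 1 = N ^ f := by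
  induction f with
  | zero => simp
  | succ f ih =>
    obtain ⟨M, rfl⟩ := Nat.exists_eq_add_of_le hN
    rw [Finset.sum_range_succ, mul_add, add_right_comm, ih]
    simp only [Nat.add_sub_cancel_left, pow_succ]
    ring

theorem norm_cong (hy : Hy σ₂ n) (hm : m ≠ ⊥) (hnm : n ∣ m) (L : Lv σ₂ m) {q : PrI K} (hq : ¬ q.asIdeal ∣ m)
    {l : ℕ} (hl : l.Prime) (hlc : ¬ l ∣ Nat.card (RayClassGroup σ₂ m)) (hlq : l ∣ pn q - 1)
    (hlk : l ∣ Nat.card (pr σ₂ (Ideal.mul_le_left : m * q.asIdeal ≤ m)).ker) {Q : PrI L.H} (hQ : und K Q = q) {f : ℕ}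
    (hf : L.Art (cls σ₂ m (prJ m q hq)) ^ f = 1) :
    rd Q (∏ i ∈ Finset.range f, act (L.Art (cls σ₂ m (prJ m q hq)) ^ i)
      (ev σ₂ m 1 / ev σ₂ m (cls σ₂ m (prJ m q hq))⁻¹)) ^ ((pn q - 1) / l) = 1 := by
  classical
  have hmq : m * q.asIdeal ≠ ⊥ := mul_ne_zero hm q.ne_bot
  obtain ⟨L'⟩ := hy.lv (m * q.asIdeal) hmq (dvd_mul_of_dvd_left hnm _)
  have hle : L.H ≤ L'.H := Lv.le L L' Ideal.mul_le_left hmq
  have hfd := L'.fd
  have hgal := L'.gal
  obtain ⟨Q', hQ', hiff, -⟩ := STc.exists_up hle Q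
  have hQq : und K Q' = q := hQ'.trans hQ
  set c := cls σ₂ m (prJ m q hq) with hc
  set φ := L.Art c with hφ
  set y : ℝ := ev σ₂ m 1 / ev σ₂ m c⁻¹ with hy'
  obtain ⟨z, hz0, hz⟩ := kolyvagin hy hm hnm L hq L' hl hlc hlk hQq 1
  rw [one_mul, ← hc, ← hy'] at hz
  have hyI : IsInt L.H y := by
    rw [hy', div_eq_mul_inv]
    exact (isUn_ev hy hm hnm L 1).int.mul (isUn_ev hy hm hnm L c⁻¹).inv
  have hI : ∀ i : ℕ, IsInt L.H (act (φ ^ i) y) := fun i => hyI.act _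
  have hpow : ∀ i : ℕ, rd Q' (act (φ ^ i) y) = rd Q' y ^ (pn q ^ i) := by
    intro i
    induction i with
    | zero => rw [pow_zero, pow_zero, pow_one, act_one_left hyI.1]
    | succ i ih =>
      rw [pow_succ', act_comp _ _ hyI.1,
        rd_frob_base hm hq L.rcf L'.rcf hle hQq (hI i), ih, ← pow_mul, pow_succ]
  have hw : rd Q' (∏ i ∈ Finset.range f, act (φ ^ i) y) = z ^ (l * ∑ i ∈ Finset.range f, pn q ^ i) := by
    rw [STc.rd_prod fun i _ => (hI i).mono hle]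
    simp only [hpow, hz]
    rw [Finset.prod_pow_eq_pow_sum, ← pow_mul]
  have hwI : IsInt L.H (∏ i ∈ Finset.range f, act (φ ^ i) y) := IsInt.prod fun i _ => hI i
  have hN2 := two_le_pn q
  have hdom : IsDomain (𝓞 L'.H ⧸ Q'.asIdeal) := by
    have := Q'.isPrime
    infer_instance
  have hzf : z ^ (pn q ^ f) = z := frob_card hm hq L.rcf L'.rcf hle hQq hf z
  have hz1 : z ^ ((pn q - 1) * ∑ i ∈ Finset.range f, pn q ^ i) = 1 := by
    rw [← P1_geom (pn q) f (by omega), pow_succ] at hzf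
    exact mul_right_cancel₀ hz0 (by rw [hzf, one_mul])
  have hk : rd Q' (∏ i ∈ Finset.range f, act (φ ^ i) y) ^ ((pn q - 1) / l) = 1 := by
    rw [hw, ← pow_mul]
    have h1 : l * (∑ i ∈ Finset.range f, pn q ^ i) * ((pn q - 1) / l) =
        (pn q - 1) * ∑ i ∈ Finset.range f, pn q ^ i := by
      rw [mul_comm l, mul_assoc, Nat.mul_div_cancel' hlq, mul_comm]
    rw [h1, hz1]
  have hwk := hwI.pow ((pn q - 1) / l)
  have h0 : rd Q' ((∏ i ∈ Finset.range f, act (φ ^ i) y) ^ ((pn q - 1) / l) - 1) = 0 := by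
    rw [STc.rd_sub (hwk.mono hle) IsInt.one, STc.rd_pow (hwI.mono hle), hk, STc.rd_one, sub_self]
  rw [hiff _ (hwk.sub IsInt.one), STc.rd_sub hwk IsInt.one, STc.rd_pow hwI, STc.rd_one, sub_eq_zero] at h0
  exact h0

end Pool.Agent.STr
end
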