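import Pool.Agent.Lib.MP_1ef7cf_nt_r.Mg.G028
import Pool.Agent.Lib.MP_1ef7cf_nt_r.Mg.G022
import Pool.Agent.Lib.MP_1ef7cf_nt_r.Mg.G027
import Pool.Agent.Lib.MP_1ef7cf_nt_r.Mg.G001
import Pool.Agent.Lib.MP_1ef7cf_nt_r.A5
import Pool.Agent.Lib.MP_1ef7cf_nt_r.Mg.G009
import Pool.Agent.Lib.MP_1ef7cf_nt_r.Mg.G018
import Pool.Agent.Lib.MP_1ef7cf_nt_r.Mg.G015
import Pool.Agent.Lib.MP_1ef7cf_nt_r.Mg.G019
import Pool.Agent.Lib.MP_1ef7cf_nt_s.X1

section

/-!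
# TASK P2: Proposition 4.1 of the paper

PROOF. Let `f = orderOf C = p₀ ^ a`, `b = L.β C` (also of order `f`), `ν A = ∑ i < f, Lz (A * b ^ i)`. Then `exp (ν A) = ∏ i < f, ev (A * b ^ i) = ∏ i < f, act (L.Art C ^ i) (ev A)`
(`Lv.act_art`, iterated), `ν (A * b) = ν A`, and `act (L.θ B) (exp (ν A)) = exp (ν (A * B))` (`Lv.eq`). CLAIM: `ν (B * C) = ν B` for all `B`. If `a = 0`: `C = 1`.
(1) If `ν 1 = ν (C⁻¹ ^ j)` for some `j` with `¬ p₀ ∣ j`: applying `act (L.θ B)` to the exponentials, `ν B = ν (B * C⁻¹ ^ j)` for all `B`; `C` is a power of `C⁻¹ ^ j` (`j` prime to the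
order), so `ν (B * C) = ν B`.
(2) Otherwise let `W = {exp (ν 1 - ν (C⁻¹ ^ j)) | j < f, ¬ p₀ ∣ j}`, a finite set of positive units `≠ 1` of `L.H` (`isUn_ev`), fixed by `L.Art C`, with
`∏ g, act g w = 1` (`g = L.θ B`: `∏ g, act g (exp (ν A)) = exp (∑ B, ν (A * B))`, which does not depend on `A`). `exists_lq` (E7): `l`, `q`, `[q] = C ^ j`, `¬ p₀ ∣ j`, `Q`. We may replace `j` by
`j % f`. `dvd_card_ker` (K3; levels for `m` and `m q`) gives the hypothesis `hlk` of `norm_cong` (P1). Let `φ = L.Art [q] = L.Art C ^ j`; `∏ i < f, act (φ ^ i) y = ∏ i < f, act (L.Art C ^ i) y`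
for `y = ev 1 / ev (C⁻¹ ^ j)` (both are the product over the cyclic group generated by `L.Art C`, since `j` is prime to `f`) `= exp (ν 1 - ν (C⁻¹ ^ j)) = w ∈ W`. `norm_cong`:
`rd Q w ^ ((pn q - 1) / l) = 1`, contradiction to `exists_lq`.
-/

set_option autoImplicit false

open NumberField IsDedekindDomain nonZeroDivisors IntermediateField

namespace Pool.Agent.STr

open Pool.Agent.ST
open Pool.Agent.STc (IsInt rd IsUn)

section P2aux

lemma P2_range_shift {M : Type*} [AddCommMonoid M] {G : Type*} [Group G] (F : G → M) {b : G} {f : ℕ}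
    (hb : b ^ f = 1) (A : G) :
    ∑ i ∈ Finset.range f, F (A * b * b ^ i) = ∑ i ∈ Finset.range f, F (A * b ^ i) := by
  have h1 : ∑ i ∈ Finset.range f, F (A * b * b ^ i) = ∑ i ∈ Finset.range f, F (A * b ^ (i + 1)) :=
    Finset.sum_congr rfl fun i _ => by rw [mul_assoc, ← pow_succ']
  rw [h1]
  rcases f with _ | k
  · simp
  · rw [Finset.sum_range_succ, hb, Finset.sum_range_succ' (fun i => F (A * b ^ i)), pow_zero]

lemma P2_range_mul {M : Type*} [CommMonoid M] {G : Type*} [Group G] (F : G → M) {b : G} {f j : ℕ}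
    (hb : b ^ f = 1) (hj : f.Coprime j) :
    ∏ i ∈ Finset.range f, F (b ^ (i * j)) = ∏ i ∈ Finset.range f, F (b ^ i) := by
  rcases Nat.eq_zero_or_pos f with rfl | hf
  · simp
  have hmaps : ∀ i ∈ Finset.range f, (i * j) % f ∈ Finset.range f := fun i _ =>
    Finset.mem_range.2 (Nat.mod_lt _ hf)
  have hinj : Set.InjOn (fun i => (i * j) % f) (Finset.range f : Set ℕ) := by
    intro i hi i' hi' h
    have hi1 := Finset.mem_range.1 (Finset.mem_coe.1 hi)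
    have hi2 := Finset.mem_range.1 (Finset.mem_coe.1 hi')
    have h1 : i * j ≡ i' * j [MOD f] := h
    have h2 := Nat.ModEq.cancel_right_of_coprime hj h1
    exact Nat.ModEq.eq_of_lt_of_lt h2 hi1 hi2
  have hsurj : Set.SurjOn (fun i => (i * j) % f) (Finset.range f : Set ℕ) (Finset.range f : Set ℕ) :=
    Finset.surjOn_of_injOn_of_card_le _ (fun i hi => by exact_mod_cast hmaps i (by exact_mod_cast hi)) hinj le_rfl
  refine Finset.prod_nbij (fun i => (i * j) % f) hmaps hinj hsurj fun i _ => ?_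
  congr 1
  exact pow_eq_pow_mod _ hb

end P2aux

variable {K : Type*} [Field K] [NumberField K] [Algebra K ℝ] {σ₂ : K →+* ℝ} {n m : Ideal (𝓞 K)}

/-- the sum over the cyclic group generated by `b` -/
noncomputable def P2_nu (σ₂ : K →+* ℝ) (m : Ideal (𝓞 K)) (b : RayClassGroup σ₂ m) (f : ℕ)
    (A : RayClassGroup σ₂ m) : ℝ := ∑ i ∈ Finset.range f, Lz σ₂ m (A * b ^ i)

lemma P2_exp_nu (b : RayClassGroup σ₂ m) (f : ℕ) (A : RayClassGroup σ₂ m) :
    Real.exp (P2_nu σ₂ m b f A) = ∏ i ∈ Finset.range f, ev σ₂ m (A * b ^ i) := by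
  rw [P2_nu, Real.exp_sum]; rfl

lemma P2_mem (L : Lv σ₂ m) (b : RayClassGroup σ₂ m) (f : ℕ) (A : RayClassGroup σ₂ m) :
    Real.exp (P2_nu σ₂ m b f A) ∈ L.H := by
  rw [P2_exp_nu]; exact prod_mem fun i _ => L.mem _

lemma P2_act_θ (L : Lv σ₂ m) (b : RayClassGroup σ₂ m) (f : ℕ) (A B : RayClassGroup σ₂ m) :
    act (L.θ B) (Real.exp (P2_nu σ₂ m b f A)) = Real.exp (P2_nu σ₂ m b f (A * B)) := by
  rw [P2_exp_nu, P2_exp_nu, act_prod _ _ _ fun i _ => L.mem _]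
  refine Finset.prod_congr rfl fun i _ => ?_
  rw [L.eq, mul_right_comm]

lemma P2_act_art (L : Lv σ₂ m) (b : RayClassGroup σ₂ m) (f : ℕ) (A B : RayClassGroup σ₂ m) :
    act (L.Art B) (Real.exp (P2_nu σ₂ m b f A)) = Real.exp (P2_nu σ₂ m b f (A * L.β B)) := by
  rw [P2_exp_nu, P2_exp_nu, act_prod _ _ _ fun i _ => L.mem _]
  refine Finset.prod_congr rfl fun i _ => ?_
  rw [L.act_art, mul_right_comm]

lemma P2_nu_mul (b : RayClassGroup σ₂ m) {f : ℕ} (hb : b ^ f = 1) (A : RayClassGroup σ₂ m) :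
    P2_nu σ₂ m b f (A * b) = P2_nu σ₂ m b f A := P2_range_shift (Lz σ₂ m) hb A

lemma P2_isInt (hy : Hy σ₂ n) (hm : m ≠ ⊥) (hnm : n ∣ m) (L : Lv σ₂ m) (b : RayClassGroup σ₂ m) (f : ℕ)
    (A : RayClassGroup σ₂ m) : IsInt L.H (Real.exp (P2_nu σ₂ m b f A)) := by
  rw [P2_exp_nu]; exact IsInt.prod fun i _ => (isUn_ev hy hm hnm L _).int

lemma P2_isInt' (hy : Hy σ₂ n) (hm : m ≠ ⊥) (hnm : n ∣ m) (L : Lv σ₂ m) (b : RayClassGroup σ₂ m) (f : ℕ)
    (A : RayClassGroup σ₂ m) : IsInt L.H (Real.exp (P2_nu σ₂ m b f A))⁻¹ := by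
  rw [P2_exp_nu, ← Finset.prod_inv_distrib]; exact IsInt.prod fun i _ => (isUn_ev hy hm hnm L _).inv

theorem prop41 (hy : Hy σ₂ n) (hm : m ≠ ⊥) (hnm : n ∣ m) (L : Lv σ₂ m) {C : RayClassGroup σ₂ m} {p₀ a : ℕ}
    (hp₀ : p₀.Prime) (hC : orderOf C = p₀ ^ a) (B : RayClassGroup σ₂ m) :
    ∑ i ∈ Finset.range (orderOf C), Lz σ₂ m (B * L.β C ^ i) =
      ∑ i ∈ Finset.range (orderOf C), Lz σ₂ m (B * C * L.β C ^ i) := by
  classical
  set f := orderOf C with hf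
  set b := L.β C with hbdef
  have hCf : C ^ f = 1 := pow_orderOf_eq_one C
  have hbf : b ^ f = 1 := by rw [hbdef, ← map_pow, hCf, map_one]
  change P2_nu σ₂ m b f B = P2_nu σ₂ m b f (B * C)
  rcases Nat.eq_zero_or_pos a with ha | ha
  · have h1 : orderOf C = 1 := by rw [← hf, hC, ha, pow_zero]
    have h2 : C = 1 := orderOf_eq_one_iff.1 h1
    rw [h2, mul_one]
  have ha0 : a ≠ 0 := ha.ne'
  have hcop : ∀ j : ℕ, ¬ p₀ ∣ j → f.Coprime j := fun j hj => by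
    rw [hC]; exact Nat.Coprime.pow_left _ ((Nat.Prime.coprime_iff_not_dvd hp₀).2 hj)
  haveI := L.fd
  haveI := L.gal
  by_cases h1 : ∃ j : ℕ, ¬ p₀ ∣ j ∧ P2_nu σ₂ m b f 1 = P2_nu σ₂ m b f (C⁻¹ ^ j)
  · obtain ⟨j, hj, hν⟩ := h1
    have hstep : ∀ A : RayClassGroup σ₂ m, P2_nu σ₂ m b f (C⁻¹ ^ j * A) = P2_nu σ₂ m b f A := fun A => by
      have h2 := congrArg (fun x => act (L.θ A) (Real.exp x)) hν
      simp only [P2_act_θ, one_mul] at h2
      exact (Real.exp_injective h2).symm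
    have hpow : ∀ k : ℕ, ∀ A : RayClassGroup σ₂ m, P2_nu σ₂ m b f ((C⁻¹ ^ j) ^ k * A) = P2_nu σ₂ m b f A := by
      intro k
      induction k with
      | zero => intro A; rw [pow_zero, one_mul]
      | succ k ih => intro A; rw [pow_succ, mul_assoc, ih, hstep]
    obtain ⟨k, hk⟩ := exists_pow_eq_self_of_coprime (x := C⁻¹) (n := j)
      (by rw [orderOf_inv]; exact (hcop j hj).symm)
    have h3 := hpow k (B * C)
    rw [hk, mul_comm B C, inv_mul_cancel_left] at h3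
    rw [h3, mul_comm]
  · exfalso
    have h1' : ∀ j : ℕ, ¬ p₀ ∣ j → P2_nu σ₂ m b f 1 ≠ P2_nu σ₂ m b f (C⁻¹ ^ j) := fun j hj h => h1 ⟨j, hj, h⟩
    set W : Finset ℝ := ((Finset.range f).filter fun j => ¬ p₀ ∣ j).image
      (fun j => Real.exp (P2_nu σ₂ m b f 1 - P2_nu σ₂ m b f (C⁻¹ ^ j))) with hWdef
    have hfpos : 0 < f := by rw [hC]; exact pow_pos hp₀.pos _
    have hprod : ∀ A : RayClassGroup σ₂ m, ∏ g : L.H ≃ₐ[K] L.H, act g (Real.exp (P2_nu σ₂ m b f A)) =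
        ∏ g : L.H ≃ₐ[K] L.H, act g (Real.exp (P2_nu σ₂ m b f 1)) := fun A => by
      have h2 : ∀ g : L.H ≃ₐ[K] L.H, act g (Real.exp (P2_nu σ₂ m b f A)) =
          act (g * L.θ A) (Real.exp (P2_nu σ₂ m b f 1)) := fun g => by
        obtain ⟨D, rfl⟩ := L.θ.surjective g
        rw [← map_mul, P2_act_θ, P2_act_θ, one_mul, mul_comm A D]
      rw [Finset.prod_congr rfl fun g _ => h2 g]
      exact Fintype.prod_equiv (Equiv.mulRight (L.θ A)) _ _ fun g => rfl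
    have hW : ∀ w ∈ W, IsUn L.H w ∧ 0 < w ∧ w ≠ 1 ∧ act (L.Art C) w = w ∧
        ∏ g : L.H ≃ₐ[K] L.H, act g w = 1 := by
      intro w hw
      obtain ⟨j, hj, rfl⟩ := Finset.mem_image.1 hw
      have hj' := (Finset.mem_filter.1 hj).2
      have hne := h1' j hj'
      have m1 := P2_mem L b f 1
      have m2 := P2_mem L b f (C⁻¹ ^ j)
      refine ⟨⟨?_, ?_, (Real.exp_pos _).ne'⟩, Real.exp_pos _, ?_, ?_, ?_⟩
      · rw [Real.exp_sub, div_eq_mul_inv]
        exact (P2_isInt hy hm hnm L _ _ _).mul (P2_isInt' hy hm hnm L _ _ _)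
      · rw [Real.exp_sub, inv_div, div_eq_mul_inv]
        exact (P2_isInt hy hm hnm L _ _ _).mul (P2_isInt' hy hm hnm L _ _ _)
      · rw [Ne, Real.exp_eq_one_iff, sub_eq_zero]; exact hne
      · rw [Real.exp_sub, act_div _ m1 m2, P2_act_art, P2_act_art, P2_nu_mul b hbf, P2_nu_mul b hbf]
      · have h3 : ∀ g : L.H ≃ₐ[K] L.H, act g (Real.exp (P2_nu σ₂ m b f 1 - P2_nu σ₂ m b f (C⁻¹ ^ j))) =
            act g (Real.exp (P2_nu σ₂ m b f 1)) / act g (Real.exp (P2_nu σ₂ m b f (C⁻¹ ^ j))) := fun g => by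
          rw [Real.exp_sub, act_div _ m1 m2]
        rw [Finset.prod_congr rfl fun g _ => h3 g, Finset.prod_div_distrib, hprod (C⁻¹ ^ j)]
        refine div_self (Finset.prod_ne_zero_iff.2 fun g _ => act_ne_zero g m1 (Real.exp_pos _).ne')
    obtain ⟨l, q, hq, j, Q, hl, hlc, hlq, hu, hcls, hj, hQ, hne⟩ :=
      exists_lq hy.h2 hm L.rcf hp₀ ha0 (hf ▸ hC) hW
    have hmq : m * q.asIdeal ≠ ⊥ := mul_ne_zero hm q.ne_bot
    obtain ⟨L'⟩ := hy.lv (m * q.asIdeal) hmq (Dvd.dvd.mul_right hnm _)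
    have hlk := dvd_card_ker hm hq L.rcf L'.rcf hlq hu
    have hArtf : L.Art (cls σ₂ m (prJ m q hq)) ^ f = 1 := by
      rw [hcls, ← map_pow, ← pow_mul, mul_comm, pow_mul, hCf, one_pow, map_one]
    have hcong := norm_cong hy hm hnm L hq hl hlc hlq hlk hQ hArtf
    have hmodj : ¬ p₀ ∣ j % f := fun h => hj (by
      have h5 : p₀ ∣ f := by rw [hC]; exact dvd_pow_self _ ha0
      exact (Nat.dvd_mod_iff h5).1 h)
    have hCj : C⁻¹ ^ (j % f) = C⁻¹ ^ j := (pow_eq_pow_mod _ (by rw [inv_pow, hCf, inv_one])).symm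
    have hwW : Real.exp (P2_nu σ₂ m b f 1 - P2_nu σ₂ m b f (C⁻¹ ^ j)) ∈ W := by
      refine Finset.mem_image.2 ⟨j % f, Finset.mem_filter.2 ⟨Finset.mem_range.2 (Nat.mod_lt _ hfpos), hmodj⟩, ?_⟩
      rw [hCj]
    refine hne _ hwW ?_
    rw [← hcong]
    congr 2
    rw [hcls, ← inv_pow]
    have hy1 := L.mem 1
    have hy2 := L.mem (C⁻¹ ^ j)
    have hiter : ∀ k : ℕ, act (L.Art C ^ k) (ev σ₂ m 1 / ev σ₂ m (C⁻¹ ^ j)) =
        ev σ₂ m (1 * b ^ k) / ev σ₂ m (C⁻¹ ^ j * b ^ k) := fun k => by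
      rw [act_div _ hy1 hy2, ← map_pow, L.act_art, L.act_art, map_pow]
    have hφ : ∀ i ∈ Finset.range f, act (L.Art (C ^ j) ^ i) (ev σ₂ m 1 / ev σ₂ m (C⁻¹ ^ j)) =
        (fun g : RayClassGroup σ₂ m => ev σ₂ m (1 * g) / ev σ₂ m (C⁻¹ ^ j * g)) (b ^ (i * j)) := fun i _ => by
      rw [map_pow, ← pow_mul, hiter, mul_comm j i]
    rw [Finset.prod_congr rfl hφ,
      P2_range_mul (fun g : RayClassGroup σ₂ m => ev σ₂ m (1 * g) / ev σ₂ m (C⁻¹ ^ j * g)) hbf (hcop j hj),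
      Finset.prod_div_distrib, Real.exp_sub, P2_exp_nu, P2_exp_nu]

end Pool.Agent.STr
end

section

/-!
# TASK P3: Corollary 4.2 of the paper

PROOF. `χ' := χ.comp β`. `χ'.ker ≤ χ.ker`: by `le_of_primePow` let `C ∈ χ'.ker` have prime power order; `prop41` and `X_rel` (`ι = ℕ`, `s = range (orderOf C)`, `w i = β C ^ i`,
`w' i = C * β C ^ i`): `∑ (χ (β C)) ^ i = χ C * ∑ (χ (β C)) ^ i` with `χ (β C) = 1`: `orderOf C = χ C * orderOf C` in `ℂ`, so `χ C = 1`. The kernels have the same cardinality (`β` is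
an automorphism: `χ'.ker = β⁻¹ (χ.ker)`), so they are equal. `exists_pow`: `pow_of_ker`.
-/

set_option autoImplicit false

open NumberField IsDedekindDomain nonZeroDivisors IntermediateField

namespace Pool.Agent.STr

open Pool.Agent.ST

variable {K : Type*} [Field K] [NumberField K] [Algebra K ℝ] {σ₂ : K →+* ℝ} {n m : Ideal (𝓞 K)}

theorem ker_eq (hy : Hy σ₂ n) (hm : m ≠ ⊥) (hnm : n ∣ m) (L : Lv σ₂ m) {χ : RayClassGroup σ₂ m →* ℂˣ}
    (hχ : InX (Lz σ₂ m) χ) : (χ.comp L.β.toMonoidHom).ker = χ.ker := by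
  have hfin : Finite (RayClassGroup σ₂ m) := L.finite_cl
  have hle : (χ.comp L.β.toMonoidHom).ker ≤ χ.ker := by
    refine le_of_primePow _ _ fun x hx p k hp hk => ?_
    have hx1 : χ (L.β x) = 1 := by
      rw [MonoidHom.mem_ker] at hx
      simpa using hx
    have h1 := X_rel hχ (Finset.range (orderOf x)) (Finset.range (orderOf x)) (fun i => L.β x ^ i)
      (fun i => x * L.β x ^ i) (by
        intro A
        have h2 := prop41 hy hm hnm L hp hk A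
        rw [h2]
        refine Finset.sum_congr rfl fun i _ => ?_
        rw [mul_assoc])
    have h3 : ∀ i : ℕ, ((χ (L.β x ^ i) : ℂˣ) : ℂ) = 1 := by
      intro i
      rw [map_pow, hx1, one_pow, Units.val_one]
    have h4 : ∀ i : ℕ, ((χ (x * L.β x ^ i) : ℂˣ) : ℂ) = ((χ x : ℂˣ) : ℂ) := by
      intro i
      rw [map_mul, map_pow, hx1, one_pow, mul_one]
    simp only [h3, h4, Finset.sum_const, Finset.card_range, nsmul_eq_mul, mul_one] at h1
    have hpos : ((orderOf x : ℕ) : ℂ) ≠ 0 := Nat.cast_ne_zero.2 (orderOf_pos x).ne'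
    have h5 : ((χ x : ℂˣ) : ℂ) = 1 := by
      have h6 : ((orderOf x : ℕ) : ℂ) * ((χ x : ℂˣ) : ℂ) = ((orderOf x : ℕ) : ℂ) * 1 := by
        rw [mul_one]; exact h1.symm
      exact mul_left_cancel₀ hpos h6
    rw [MonoidHom.mem_ker]
    exact Units.ext h5
  have hmap : ((χ.comp L.β.toMonoidHom).ker).map L.β.toMonoidHom = χ.ker := by
    rw [← MonoidHom.comap_ker]
    exact Subgroup.map_comap_eq_self_of_surjective L.β.surjective _
  have hcard : Nat.card χ.ker ≤ Nat.card (χ.comp L.β.toMonoidHom).ker := by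
    have h7 : Nat.card (((χ.comp L.β.toMonoidHom).ker).map L.β.toMonoidHom : Subgroup _) ≤
        Nat.card (χ.comp L.β.toMonoidHom).ker :=
      Nat.card_le_card_of_surjective _
        (L.β.toMonoidHom.subgroupMap_surjective (χ.comp L.β.toMonoidHom).ker)
    rwa [hmap] at h7
  exact Subgroup.eq_of_le_of_card_ge hle hcard

theorem exists_pow (hy : Hy σ₂ n) (hm : m ≠ ⊥) (hnm : n ∣ m) (L : Lv σ₂ m) {χ : RayClassGroup σ₂ m →* ℂˣ}
    (hχ : InX (Lz σ₂ m) χ) : ∃ b : ℕ, χ = (χ.comp L.β.toMonoidHom) ^ b := by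
  have hfin : Finite (RayClassGroup σ₂ m) := L.finite_cl
  exact pow_of_ker (ker_eq hy hm hnm L hχ).symm

end Pool.Agent.STr
end

section

/-!
# TASK G3: the tame twist (Step B of section 8 of the paper)

PROOF. Let `r₀`, `r₀'` be as in `prop51'` (V9) for `χ₁`, `κ₁`, `s = 2` and `l`; let `l ^ i₀` be the `l`-part of `orderOf χ₁`; `k = i₀ + r₀ + r₀' + 2`. Take `p` by `hp` for this `k`, larger than `2 d` and
than `absNorm M` (so `p` is prime to `M`: no prime ideal containing `p` divides `M`; `(p)` and `M` are coprime) and `≠ l`. `M' = M * (p)`. `Nw M M'` = the primes containing `p`, at most `2` (their product divides `(p)`, of norm `p ^ 2`).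
`InX.lift` (V4): `χ₁ ∘ pr` and `κ₁ ∘ pr` are in `X` for `M'`. `L'` a level for `M'`, `β = L'.β`.
`ω₀` of order `l ^ k` modulo `p`, even (`exists_tame`), `ω` its norm type character for `M'` (`exists_NT`); `orderOf ω = l ^ k` (`NT.dvd` and `NT.order_tame`: if `ω ^ j = 1` then `ω₀ ^ j = 1`).
`prop51'` for both: outside of `T ∪ T'`, `|T ∪ T'| ≤ r₀ + r₀'`, so there is `i ∈ Icc (i₀ + 1) k` (or `Icc (max i₀ 1) k`) and `η, η' ∈ zpowers ω` of exact order `l ^ i` with `χ₁ η`, `κ₁ η'` in `X` (writing `χ₁` for `χ₁ ∘ pr`).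
`truth` (C1) for `M'`, `L'` and the natural number `N₂ * p`: `κ₁` and `κ₁ η'` are invariant under `β`: (the primes containing `2 d N₂ p` divide `M'`; `Lf a (N₂ p) ≤ L'.H`: `se a ∈ Lf a N₂ ≤ L.H ≤ L'.H`, and
`cos (2 π / (N₂ p)) ∈ L'.H` by `cos_mem` (N2), as `M' ≤ (N₂ p)`; both characters are trivial on the classes whose Artin symbols fix `Lf a (N₂ p) ⊇ Lf a N₂` (`Lf_mono`; for `κ₁ ∘ pr`: `Lv.act_art_pr`), for `η'`: `NT.fix` with `art_cos`, `cos (2 π / p) ∈ Lf a (N₂ p)` by `cos_mem_of_dvd`,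
and `cos_mod_iff`). So `η' ∘ β = η'`. `η` is a power of `η'` (the cyclic group `zpowers ω` has exactly one subgroup of order `l ^ i`), so `η ∘ β = η`.
`ψ = χ₁ ∘ β`. By `ker_eq` (P3) `ψ.ker = χ₁.ker`, which contains `V = ker (pr : C_M' → C_M)`. `exists_pow` (P3) for `χ₁ η`: `χ₁ η = ((χ₁ η) ∘ β) ^ b = (ψ η) ^ b`. Apply `twist` (A5) with this `V`; `hηV`: if `η ^ j = 1` on `V`,
`η = ω ^ e`, then `ω ^ (e j) = 1` on `V`, so `ω₀ ^ (e j) = 1` (`NT.order_tame`), `l ^ k ∣ e j`, and `ω ^ (e j) = 1`, i.e. `η ^ j = 1`, `l ^ i ∣ j`. `¬ l ^ (i + 1) ∣ orderOf ψ`: `orderOf ψ = orderOf χ₁`, its `l`-part is `l ^ i₀`, `i₀ ≤ i`.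
-/

set_option autoImplicit false

open NumberField IsDedekindDomain nonZeroDivisors IntermediateField

namespace Pool.Agent.STr

open Pool.Agent.ST
open Pool.Agent.STh.F (FD Lf se)

variable {K : Type*} [Field K] [NumberField K] [Algebra K ℝ] {σ₂ : K →+* ℝ} {n M : Ideal (𝓞 K)} {d : ℕ} {a : 𝓞 K}

lemma G3_ncard (h2 : Module.finrank ℚ K = 2) {M : Ideal (𝓞 K)} {p : ℕ} (hp : p.Prime)
    (hM' : M * Ideal.span {(p : 𝓞 K)} ≠ ⊥) : (Nw M (M * Ideal.span {(p : 𝓞 K)})).ncard ≤ 2 := by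
  classical
  have hfin := Nw_finite (m' := M * Ideal.span {(p : 𝓞 K)}) M hM'
  rw [Set.ncard_eq_toFinset_card _ hfin]
  set S := hfin.toFinset with hS
  have hmem : ∀ q ∈ S, q.asIdeal ∣ Ideal.span {(p : 𝓞 K)} := by
    intro q hq
    rw [hS, Set.Finite.mem_toFinset] at hq
    exact (q.prime.dvd_or_dvd hq.1).resolve_left hq.2
  have hcop : (S : Set (PrI K)).Pairwise (Function.onFun IsCoprime fun q : PrI K => q.asIdeal) := by
    intro q _ q' _ hne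
    have hm := q.isMaximal
    have hm' := q'.isMaximal
    exact Ideal.isCoprime_of_isMaximal fun h => hne (HeightOneSpectrum.ext h)
  have hdvd : ∏ q ∈ S, q.asIdeal ∣ Ideal.span {(p : 𝓞 K)} :=
    Finset.prod_dvd_of_coprime hcop hmem
  have hnorm : Ideal.absNorm (Ideal.span {(p : 𝓞 K)}) = p ^ 2 := by
    rw [Ideal.absNorm_span_natCast, RingOfIntegers.rank, h2]
  have h1 : ∏ q ∈ S, Ideal.absNorm q.asIdeal ∣ p ^ 2 := by
    rw [← hnorm, ← map_prod]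
    exact Ideal.absNorm_dvd_absNorm_of_le (Ideal.dvd_iff_le.1 hdvd)
  have h3 : ∀ q ∈ S, p ≤ Ideal.absNorm q.asIdeal := by
    intro q hq
    have h4 : Ideal.absNorm q.asIdeal ∣ p ^ 2 := by
      rw [← hnorm]
      exact Ideal.absNorm_dvd_absNorm_of_le (Ideal.dvd_iff_le.1 (hmem q hq))
    obtain ⟨j, -, hj⟩ := (Nat.dvd_prime_pow hp).1 h4
    have h5 := two_le_pn q
    unfold pn at h5
    have h6 : j ≠ 0 := by
      rintro rfl
      rw [hj, pow_zero] at h5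
      omega
    rw [hj]
    exact Nat.le_self_pow h6 p
  have h7 : p ^ S.card ≤ p ^ 2 := by
    calc p ^ S.card = ∏ q ∈ S, p := by rw [Finset.prod_const]
      _ ≤ ∏ q ∈ S, Ideal.absNorm q.asIdeal := Finset.prod_le_prod' h3
      _ ≤ p ^ 2 := Nat.le_of_dvd (pow_pos hp.pos 2) h1
  exact (Nat.pow_le_pow_iff_right hp.one_lt).1 h7

/-- in a group generated by `ω` of order `l ^ k`, two elements of the same order generate the same subgroup -/
lemma G3_pow {C : Type*} [CommGroup C] {ω η η' : C} {l k i : ℕ} (hl : l.Prime)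
    (hω : orderOf ω = l ^ k) (hη : η ∈ Subgroup.zpowers ω) (hη' : η' ∈ Subgroup.zpowers ω)
    (ho : orderOf η = l ^ i) (ho' : orderOf η' = l ^ i) (hik : i ≤ k) : ∃ u : ℕ, η = η' ^ u := by
  have hfin : IsOfFinOrder ω := by
    rw [← orderOf_pos_iff, hω]; exact pow_pos hl.pos k
  have key : ∀ x ∈ Subgroup.zpowers ω, orderOf x = l ^ i → x ∈ Subgroup.zpowers (ω ^ l ^ (k - i)) := by
    intro x hx hxo
    rw [← hfin.mem_powers_iff_mem_zpowers] at hx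
    obtain ⟨e, rfl⟩ := hx
    have h1 : ω ^ (e * l ^ i) = 1 := by
      rw [pow_mul, ← hxo]; exact pow_orderOf_eq_one _
    have h2 := orderOf_dvd_of_pow_eq_one h1
    rw [hω, show k = (k - i) + i by omega, pow_add] at h2
    have h3 : l ^ (k - i) ∣ e := Nat.dvd_of_mul_dvd_mul_right (pow_pos hl.pos i) h2
    obtain ⟨f, rfl⟩ := h3
    exact ⟨(f : ℤ), by simp [pow_mul]⟩
  have hθ : orderOf (ω ^ l ^ (k - i)) = l ^ i := by
    rw [orderOf_pow_of_dvd (pow_pos hl.pos _).ne' (by rw [hω]; exact pow_dvd_pow l (Nat.sub_le k i)), hω,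
      Nat.pow_div (Nat.sub_le k i) hl.pos]
    congr 1; omega
  have hle : Subgroup.zpowers η' ≤ Subgroup.zpowers (ω ^ l ^ (k - i)) := by
    rw [Subgroup.zpowers_le]; exact key η' hη' ho'
  have hfinθ : Finite (Subgroup.zpowers (ω ^ l ^ (k - i))) := by
    apply Nat.finite_of_card_ne_zero
    rw [Nat.card_zpowers, hθ]; exact (pow_pos hl.pos i).ne'
  have heq : Subgroup.zpowers η' = Subgroup.zpowers (ω ^ l ^ (k - i)) := by
    apply Subgroup.eq_of_le_of_card_ge hle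
    rw [Nat.card_zpowers, Nat.card_zpowers, hθ, ho']
  have h4 : η ∈ Subgroup.zpowers η' := by rw [heq]; exact key η hη ho
  have hfin' : IsOfFinOrder η' := by
    rw [← orderOf_pos_iff, ho']; exact pow_pos hl.pos i
  rw [← hfin'.mem_powers_iff_mem_zpowers] at h4
  obtain ⟨u, hu⟩ := h4
  exact ⟨u, hu.symm⟩

theorem stepB (hy : Hy σ₂ n) (D : FD σ₂ d a) (hM : M ≠ ⊥) (hnM : n ∣ M) (L : Lv σ₂ M)
    {χ₁ κ₁ : RayClassGroup σ₂ M →* ℂˣ} (hχ : InX (Lz σ₂ M) χ₁) (hκ : InX (Lz σ₂ M) κ₁) {N₂ : ℕ} (hN₂ : N₂ ≠ 0)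
    (hab : ∀ v : PrI K, (2 * d * N₂ : 𝓞 K) ∈ v.asIdeal → v.asIdeal ∣ M) (hNM : M ≤ Ideal.span {(N₂ : 𝓞 K)})
    (hse : se a ∈ L.H) (htr : ∀ B, (∀ x ∈ Lf a N₂, act (L.Art B) x = x) → κ₁ B = 1) {l : ℕ} (hl : l.Prime)
    (hp : ∀ k b : ℕ, ∃ p : ℕ, p.Prime ∧ b < p ∧ 2 * l ^ k ∣ p - 1 ∧ ∀ (q : PrI K) (hq : ¬ q.asIdeal ∣ M),
      (p : 𝓞 K) ∈ q.asIdeal → χ₁ (cls σ₂ M (prJ M q hq)) ≠ 1 ∧ κ₁ (cls σ₂ M (prJ M q hq)) ≠ 1) :
    ∃ (M' : Ideal (𝓞 K)) (hle : M' ≤ M) (L' : Lv σ₂ M'), M' ≠ ⊥ ∧ InX (Lz σ₂ M') (χ₁.comp (pr σ₂ hle)) ∧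
      ¬ l ∣ orderOf (χ₁.comp (pr σ₂ hle) * ((χ₁.comp (pr σ₂ hle)).comp L'.β.toMonoidHom)⁻¹) := by
  classical
  obtain ⟨r₀, hr₀⟩ := prop51' hy hM hnM hχ 2 hl
  obtain ⟨r₁, hr₁⟩ := prop51' hy hM hnM hκ 2 hl
  have hfinM : Finite (RayClassGroup σ₂ M) := L.finite_cl
  obtain ⟨i₀, hi₀⟩ : ∃ i₀ : ℕ, i₀ = orderOf χ₁ := ⟨_, rfl⟩
  obtain ⟨k, hk⟩ : ∃ k : ℕ, k = i₀ + r₀ + r₁ + 2 := ⟨_, rfl⟩
  obtain ⟨p, hpp, hpb, hpl, hpq⟩ := hp k (2 * d + Ideal.absNorm M)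
  have hd : 0 < d := D.d_pos
  have hnormM : Ideal.absNorm M ≠ 0 := by
    rw [Ne, Ideal.absNorm_eq_zero_iff]; exact hM
  have hp2d : ¬ p ∣ 2 * d := fun h => by
    have := Nat.le_of_dvd (by omega) h
    omega
  have hpM : ¬ p ∣ Ideal.absNorm M := fun h => by
    have := Nat.le_of_dvd (Nat.pos_of_ne_zero hnormM) h
    omega
  have hp0 : (p : 𝓞 K) ≠ 0 := Nat.cast_ne_zero.2 hpp.ne_zero
  have hspan : Ideal.span {(p : 𝓞 K)} ≠ ⊥ := by
    rw [Ne, Ideal.span_singleton_eq_bot]; exact hp0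
  have hcop : IsCoprime (Ideal.span {(p : 𝓞 K)}) M := by
    rw [Ideal.isCoprime_iff_exists]
    have hc : Nat.Coprime p (Ideal.absNorm M) := (Nat.Prime.coprime_iff_not_dvd hpp).2 hpM
    have hc' : IsCoprime (p : ℤ) (Ideal.absNorm M : ℤ) := Nat.isCoprime_iff_coprime.2 hc
    obtain ⟨u, v, huv⟩ := hc'
    refine ⟨(u : 𝓞 K) * p, Ideal.mul_mem_left _ _ (Ideal.mem_span_singleton_self _),
      (v : 𝓞 K) * (Ideal.absNorm M : 𝓞 K), Ideal.mul_mem_left _ _ (Ideal.absNorm_mem M), ?_⟩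
    have := congrArg (fun z : ℤ => (z : 𝓞 K)) huv
    push_cast at this
    exact this
  have hle : M * Ideal.span {(p : 𝓞 K)} ≤ M := Ideal.mul_le_left
  have hM' : M * Ideal.span {(p : 𝓞 K)} ≠ ⊥ := mul_ne_zero hM hspan
  have hnM' : n ∣ M * Ideal.span {(p : 𝓞 K)} := hnM.mul_right _
  have hMp : M * Ideal.span {(p : 𝓞 K)} ≤ Ideal.span {(p : 𝓞 K)} := Ideal.mul_le_right
  obtain ⟨M', hM'eq⟩ : ∃ M' : Ideal (𝓞 K), M' = M * Ideal.span {(p : 𝓞 K)} := ⟨_, rfl⟩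
  have hcard := G3_ncard hy.h2 hpp hM'
  obtain ⟨L'⟩ := hy.lv _ hM' hnM'
  have hfinM' : Finite (RayClassGroup σ₂ (M * Ideal.span {(p : 𝓞 K)})) := L'.finite_cl
  have hqp : ∀ (q : PrI K) (h : ¬ q.asIdeal ∣ M), q.asIdeal ∣ M * Ideal.span {(p : 𝓞 K)} →
      (p : 𝓞 K) ∈ q.asIdeal := fun q h hq => by
    have := (q.prime.dvd_or_dvd hq).resolve_left h
    rw [Ideal.dvd_span_singleton] at this
    exact this
  have hXχ : InX (Lz σ₂ (M * Ideal.span {(p : 𝓞 K)})) (χ₁.comp (pr σ₂ hle)) :=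
    InX.lift hy hM hnM hM' hle hχ fun q h hq => (hpq q h (hqp q h hq)).1
  have hXκ : InX (Lz σ₂ (M * Ideal.span {(p : 𝓞 K)})) (κ₁.comp (pr σ₂ hle)) :=
    InX.lift hy hM hnM hM' hle hκ fun q h hq => (hpq q h (hqp q h hq)).2
  -- the tame character
  obtain ⟨ω₀, hω₀, hω₀1⟩ := exists_tame hpp hpl
  obtain ⟨ω, hω⟩ := exists_NT (σ₂ := σ₂) hy.h2 hpp.ne_zero hM' hMp ω₀ hω₀1
  have hωV : ∀ j : ℕ, (∀ g, pr σ₂ hle g = 1 → ω g ^ j = 1) → l ^ k ∣ j := fun j hj => by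
    have := NT.order_tame D hpp hp2d hM hcop hle hω₀1 hω j hj
    rw [← hω₀]
    exact orderOf_dvd_of_pow_eq_one this
  have hωo : orderOf ω = l ^ k := by
    apply Nat.dvd_antisymm
    · rw [← hω₀]; exact NT.dvd hM' hpp.ne_zero hMp hω
    · apply hωV
      intro g _
      have := pow_orderOf_eq_one ω
      have h2 := DFunLike.congr_fun this g
      rw [MonoidHom.pow_apply, MonoidHom.one_apply] at h2
      exact h2
  obtain ⟨T, hT, hTc, hT2⟩ := hr₀ _ hle hM' hcard hXχ ω k hωo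
  obtain ⟨T', hT', hTc', hT2'⟩ := hr₁ _ hle hM' hcard hXκ ω k hωo
  obtain ⟨i, hi, hiT⟩ : ∃ i ∈ Finset.Icc (i₀ + 1) k, i ∉ T ∪ T' := by
    by_contra hcon
    push Not at hcon
    have h1 : (Finset.Icc (i₀ + 1) k).card ≤ (T ∪ T').card := Finset.card_le_card hcon
    have h2 := Finset.card_union_le T T'
    rw [Nat.card_Icc] at h1
    omega
  rw [Finset.mem_Icc] at hi
  rw [Finset.notMem_union] at hiT
  have hik : i ∈ Finset.Icc 1 k := Finset.mem_Icc.2 ⟨by omega, hi.2⟩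
  obtain ⟨η, hη, hηo, hηX⟩ := hT2 i hik hiT.1
  obtain ⟨η', hη', hηo', hηX'⟩ := hT2' i hik hiT.2
  -- the truth for `κ₁` and `κ₁ η'`
  have hN : N₂ * p ≠ 0 := mul_ne_zero hN₂ hpp.ne_zero
  have hNM' : M * Ideal.span {(p : 𝓞 K)} ≤ Ideal.span {((N₂ * p : ℕ) : 𝓞 K)} := by
    rw [Nat.cast_mul, ← Ideal.span_singleton_mul_span_singleton]
    exact Ideal.mul_mono hNM le_rfl
  have hab' : ∀ v : PrI K, (2 * d * (N₂ * p : ℕ) : 𝓞 K) ∈ v.asIdeal →
      v.asIdeal ∣ M * Ideal.span {(p : 𝓞 K)} := by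
    intro v hv
    have h1 : (2 * d * (N₂ * p : ℕ) : 𝓞 K) = (2 * d * N₂) * p := by push_cast; ring
    rw [h1] at hv
    rcases v.isPrime.mem_or_mem hv with h | h
    · exact (hab v h).mul_right _
    · exact Dvd.dvd.mul_left (Ideal.dvd_span_singleton.2 h) _
  have hHH : L.H ≤ L'.H := Lv.le L L' hle hM'
  have hcN : cN (N₂ * p) ∈ L'.H := cos_mem hy.h2 hN hM' hNM' L'.rcf
  have hcN2 : cN N₂ ∈ L.H := cos_mem hy.h2 hN₂ hM hNM L.rcf
  have hLfL : Lf a N₂ ≤ L.H := by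
    refine sup_le ?_ ?_
    · rw [adjoin_simple_le_iff]; exact hse
    · rw [adjoin_simple_le_iff]; exact hcN2
  have hLf' : Lf a (N₂ * p) ≤ L'.H := by
    refine sup_le ?_ ?_
    · rw [adjoin_simple_le_iff]; exact hHH hse
    · rw [adjoin_simple_le_iff]; exact hcN
  have hκtr : ∀ B, (∀ x ∈ Lf a (N₂ * p), act (L'.Art B) x = x) → κ₁ (pr σ₂ hle B) = 1 := by
    intro B hB
    apply htr
    intro x hx
    rw [← Lv.act_art_pr L L' hle hM' B (hLfL hx)]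
    exact hB x (Pool.Agent.STh.F.Lf_mono a (Dvd.intro _ rfl) hN hx)
  have hpN : Real.cos (2 * Real.pi / p) ∈ Lf a (N₂ * p) :=
    Pool.Agent.STh.F.cos_mem_of_dvd _ (Dvd.intro_left _ rfl) hN (Pool.Agent.STh.F.cos_mem a (N₂ * p))
  have hωtr : ∀ B, (∀ x ∈ Lf a (N₂ * p), act (L'.Art B) x = x) → ω B = 1 := by
    intro B hB
    refine NT.fix hpp.ne_zero hM' hMp hω₀1 hω fun I J hIJ hJB => ?_
    have h1 := hB _ hpN
    have h2 := art_cos hpp.ne_zero hM' hMp L'.rcf (hLf' hpN) hIJ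
    rw [hJB] at h2
    have h3 : Real.cos (2 * Real.pi * ((Ideal.absNorm I : ℕ) : ℤ) / p) = Real.cos (2 * Real.pi * (1 : ℤ) / p) := by
      push_cast
      rw [mul_one, ← h2]
      exact h1
    exact (Pool.Agent.STh.F.cos_mod_iff hpp.ne_zero _ _).1 h3
  have hηtr' : ∀ B, (∀ x ∈ Lf a (N₂ * p), act (L'.Art B) x = x) → η' B = 1 := by
    intro B hB
    obtain ⟨e, rfl⟩ := hη'
    have := hωtr B hB
    simp only [MonoidHom.zpow_apply]
    rw [this, one_zpow]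
  have htr1 := fun C => truth hy D hM' hnM' L' hN hab' hLf' hXκ (fun B hB => hκtr B hB) C
  have htr2 := fun C => truth hy D hM' hnM' L' hN hab' hLf' hηX' (fun B hB => by
    rw [MonoidHom.mul_apply, hηtr' B hB, mul_one]
    exact hκtr B hB) C
  have hηβ' : ∀ C, η' (L'.β C) = η' C := fun C => by
    have h1 := htr1 C
    have h2 := htr2 C
    rw [MonoidHom.mul_apply, MonoidHom.mul_apply, h1] at h2
    exact mul_left_cancel h2
  obtain ⟨u, hu⟩ := G3_pow hl hωo hη hη' hηo hηo' hi.2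
  have hηβ : ∀ C, η (L'.β C) = η C := fun C => by
    rw [hu]
    simp only [MonoidHom.pow_apply]
    rw [hηβ']
  -- the conclusion
  refine ⟨M * Ideal.span {(p : 𝓞 K)}, hle, L', hM', hXχ, ?_⟩
  have hker := ker_eq hy hM' hnM' L' hXχ
  obtain ⟨b, hb⟩ := exists_pow hy hM' hnM' L' hηX
  have hχV : ∀ g ∈ (pr σ₂ hle).ker, (χ₁.comp (pr σ₂ hle)) g = 1 := fun g hg => by
    rw [MonoidHom.mem_ker] at hg
    rw [MonoidHom.comp_apply, hg, map_one]
  refine twist (i := i) (b := b) hl hηo (pr σ₂ hle).ker hχV ?_ ?_ ?_ ?_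
  · intro g hg
    have h1 : g ∈ ((χ₁.comp (pr σ₂ hle)).comp L'.β.toMonoidHom).ker := by
      rw [hker, MonoidHom.mem_ker]
      exact hχV g hg
    exact h1
  · intro j hj
    have hfin : IsOfFinOrder ω := by
      rw [← orderOf_pos_iff, hωo]; exact pow_pos hl.pos k
    rw [← hfin.mem_powers_iff_mem_zpowers] at hη
    obtain ⟨e, rfl⟩ := hη
    have h1 : l ^ k ∣ e * j := by
      apply hωV
      intro g hg
      have := hj g (MonoidHom.mem_ker.2 hg)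
      simp only [MonoidHom.pow_apply] at this
      rw [pow_mul]
      exact this
    rw [← hηo]
    apply orderOf_dvd_of_pow_eq_one
    rw [← pow_mul]
    exact orderOf_dvd_iff_pow_eq_one.1 (by rw [hωo]; exact h1)
  · rw [hb]
    congr 1
    ext C
    simp only [MonoidHom.comp_apply, MonoidHom.mul_apply, MulEquiv.coe_toMonoidHom]
    rw [hηβ]
  · intro hdvd
    have h1 : orderOf ((χ₁.comp (pr σ₂ hle)).comp L'.β.toMonoidHom) ∣ orderOf χ₁ := by
      apply orderOf_dvd_of_pow_eq_one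
      ext C
      have h2 := DFunLike.congr_fun (pow_orderOf_eq_one χ₁) (pr σ₂ hle (L'.β C))
      simp only [MonoidHom.pow_apply, MonoidHom.comp_apply, MonoidHom.one_apply, MulEquiv.coe_toMonoidHom] at h2 ⊢
      rw [h2]
    have h3 : l ^ (i + 1) ∣ i₀ := by rw [hi₀]; exact hdvd.trans h1
    have h4 : 0 < i₀ := by
      rw [hi₀, orderOf_pos_iff, isOfFinOrder_iff_pow_eq_one]
      refine ⟨Nat.card (RayClassGroup σ₂ M), Nat.card_pos, ?_⟩
      ext C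
      simp only [MonoidHom.pow_apply, MonoidHom.one_apply]
      rw [← map_pow, pow_card_eq_one', map_one]
    have h5 := Nat.le_of_dvd h4 h3
    have h6 : i + 1 < l ^ (i + 1) := Nat.lt_pow_self hl.one_lt
    omega

end Pool.Agent.STr
end

section

/-!
# TASK C1t: the truth for the characters of CM type

PROOF: adapt `u_rel` (nt_r/C1a) and `truth` (nt_r/C1); there `L.β C` becomes the translation `B` of `σ` and `C` becomes `L.a σ`. `u_rel'`: as in C1a there is `x ∈ Lf a N` with `∏ v ∈ V, ev (A v) = act (L.Art A) x` for all `A` (`fin_general`, `td_of_starkIn`, ...). Apply `act σ`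
to both sides: left side `∏ ev (A v B)`, right side `act σ (act (Art A) x) = act (Art (L.a σ)) (act (Art A) x) = act (Art (L.a σ * A)) x = ∏ ev (A * L.a σ * v)`. Take logarithms. `truth'`: `X_rel` with the families `v ↦ B v`, `v ↦ L.a σ v`.
-/

set_option autoImplicit false

open NumberField IsDedekindDomain nonZeroDivisors IntermediateField

namespace Pool.Agent.STs

open Pool.Agent.ST
open Pool.Agent.STr (Lz ev InX)
open Pool.Agent.STh.F (FD Lf se)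

variable {K : Type*} [Field K] [NumberField K] [Algebra K ℝ] {σ₂ : K →+* ℝ} {n M : Ideal (𝓞 K)} {d : ℕ} {a : 𝓞 K}
  {R : IntermediateField K ℝ}

theorem u_rel' (D : FD σ₂ d a) (hM : M ≠ ⊥) (L : Lw σ₂ M R) {N : ℕ} (hN : N ≠ 0)
    (hab : ∀ v : PrI K, (2 * d * N : 𝓞 K) ∈ v.asIdeal → v.asIdeal ∣ M) (hLf : Lf a N ≤ L.H)
    {V : Finset (RayClassGroup σ₂ M)} (hV : ∀ B, B ∈ V ↔ ∀ x ∈ Lf a N, act (L.Art B) x = x)
    {σ : R ≃ₐ[K] R} {B : RayClassGroup σ₂ M} (hB : IsTr σ₂ M σ B) (A : RayClassGroup σ₂ M) :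
    ∑ v ∈ V, Lz σ₂ M (A * (B * v)) = ∑ v ∈ V, Lz σ₂ M (A * (L.a σ * v)) := by
  have hst : StarkRQ.StarkTateIn σ₂ M (Lf a N) := STh.stark_main D hN hM hab L.rcf hLf le_rfl
  have hst' : StarkRQ.StarkIn σ₂ M (Lf a N) := by
    obtain ⟨H, Art, Z, hL, η, hr, hZ, hs, -⟩ := hst
    exact ⟨H, Art, Z, hL, η, hr, hZ, hs⟩
  obtain ⟨x, H', Art', hfd', hnm, hL', T⟩ := STf.td_of_starkIn hst'
  have hHH : H' = L.H := STd.SData.field_eq hM T.rcf L.rcf
  obtain ⟨LH, LArt, Lrcf, Lle, Lmem, Ltr⟩ := L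
  dsimp only at hHH hLf hV
  subst hHH
  have hArt : Art' = LArt := STf.art_unique hM T.rcf Lrcf
  subst hArt
  set L : Lw σ₂ M R := ⟨H', Art', Lrcf, Lle, Lmem, Ltr⟩ with hLdef
  have hxm : x ∈ Lf a N := T.pre.mem
  -- the product over `V`
  have hP : ∀ B : RayClassGroup σ₂ M, ∏ v ∈ V, ev σ₂ M (B * v) = act (Art' B) x := by
    intro B
    rw [← act_res hL' (Art' B) hxm, T.act, STf.pf_mul]
    symm
    refine Finset.prod_bij (fun γ _ => Art'.symm γ) ?_ ?_ ?_ ?_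
    · intro γ hγ
      rw [mem_fib, res_eq_one_iff] at hγ
      rw [hV]
      intro y hy'
      rw [MulEquiv.apply_symm_apply]
      exact hγ y hy'
    · intro γ _ γ' _ h
      exact Art'.symm.injective h
    · intro v hv
      refine ⟨Art' v, ?_, Art'.symm_apply_apply v⟩
      rw [mem_fib, res_eq_one_iff]
      exact (hV v).1 hv
    · intro γ _
      unfold STf.ez ev Lz
      rw [map_mul, MulEquiv.symm_apply_apply]
  have h1 : ∏ v ∈ V, ev σ₂ M (A * (B * v)) = ∏ v ∈ V, ev σ₂ M (A * (L.a σ * v)) := by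
    have hxH : act (Art' A) x ∈ L.H := act_mem _ (hL' hxm)
    have h2 : act σ (∏ v ∈ V, ev σ₂ M (A * v)) = act σ (act (Art' A) x) := by
      rw [hP]
    have h5 : act σ (act (Art' A) x) = act (Art' (L.a σ * A)) x := by
      rw [← L.act_a σ hxH, map_mul, act_comp _ _ (hL' hxm)]
    rw [act_prod _ _ _ fun v _ => Lmem _, h5, ← hP] at h2
    have h3 : ∀ v, act σ (ev σ₂ M (A * v)) = ev σ₂ M (A * (B * v)) := by
      intro v
      rw [hB (A * v), mul_assoc, mul_comm v]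
    simp only [h3] at h2
    rw [h2]
    refine Finset.prod_congr rfl fun v _ => ?_
    congr 1
    rw [mul_comm (L.a σ) A, mul_assoc]
  unfold ev at h1
  rw [← Real.exp_sum, ← Real.exp_sum] at h1
  exact Real.exp_injective h1

theorem truth' (hx : Hx σ₂ n) (D : FD σ₂ d a) (hM : M ≠ ⊥) (hnM : n ∣ M) (L : Lw σ₂ M R) {N : ℕ} (hN : N ≠ 0)
    (hab : ∀ v : PrI K, (2 * d * N : 𝓞 K) ∈ v.asIdeal → v.asIdeal ∣ M) (hLf : Lf a N ≤ L.H)
    {χ : RayClassGroup σ₂ M →* ℂˣ} (hχ : InX (Lz σ₂ M) χ)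
    (htr : ∀ B, (∀ x ∈ Lf a N, act (L.Art B) x = x) → χ B = 1)
    {σ : R ≃ₐ[K] R} {B : RayClassGroup σ₂ M} (hB : IsTr σ₂ M σ B) : χ B = χ (L.a σ) := by
  classical
  have := hx.finite_cl hM hnM
  have := Fintype.ofFinite (RayClassGroup σ₂ M)
  set V : Finset (RayClassGroup σ₂ M) := Finset.univ.filter (fun B => ∀ x ∈ Lf a N, act (L.Art B) x = x) with hVd
  have hV : ∀ B, B ∈ V ↔ ∀ x ∈ Lf a N, act (L.Art B) x = x := by
    intro B
    simp [hVd]
  have h1 : (1 : RayClassGroup σ₂ M) ∈ V := by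
    rw [hV]
    intro x hx
    rw [map_one, act_of_mem _ (hLf hx)]
    simp
  have hX := Pool.Agent.STr.X_rel hχ V V (fun v => B * v) (fun v => L.a σ * v)
    (fun A => u_rel' D hM L hN hab hLf hV hB A)
  have e : ∀ P : RayClassGroup σ₂ M, ∑ v ∈ V, ((χ (P * v) : ℂˣ) : ℂ) = (V.card : ℂ) * ((χ P : ℂˣ) : ℂ) := by
    intro P
    rw [Finset.sum_congr rfl (g := fun _ => ((χ P : ℂˣ) : ℂ))]
    · rw [Finset.sum_const, nsmul_eq_mul]
    · intro v hv
      rw [map_mul, htr v ((hV v).1 hv), mul_one]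
  rw [e, e] at hX
  have hc : (V.card : ℂ) ≠ 0 := by
    have : V.card ≠ 0 := Finset.card_ne_zero_of_mem h1
    exact_mod_cast this
  exact Units.ext (mul_left_cancel₀ hc hX)

end Pool.Agent.STs
end
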