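import Pool.Agent.Lib.MP_1ef7cf_nt_r.V4

section

/-!
# TASK V5: the automorphisms `β` at two levels ((2.4) of the paper)

PROOF of `beta_pr`. Put `P = pr (L'.β C)`, `Q = L.β (pr C)`. Claim: `UU hle (A * P) = UU hle (A * Q)` for all `A`.
`exp (UU hle A) = ∏ (A' over A) ev m' A'`, so by `Lv.act_art` for `L'` (`act_prod`; the numbers `ev m' A'` are in `L'.H`)
`act (L'.Art C) (exp (UU hle A)) = exp (UU hle (A * P))` (the map `A' ↦ A' * L'.β C` maps the fibre over `A` onto the fibre over `A * P`).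
On the other hand, by `UU_all`, `exp (UU hle A) = ∏ g, ev m (A * g) ^ (e g)` (integer exponents) lies in `L.H`, so
`act (L'.Art C) (exp (UU hle A)) = act (L.Art (pr C)) (exp (UU hle A))` (`Lv.act_art_pr`) `= ∏ g, ev m (A * g * Q) ^ (e g)
= exp (UU hle (A * Q))`. `Real.exp` is injective: claim.
Since `InX (UU hle) χ` (`SS_UU`), `X_rel` for `f = UU hle` (one-element families `P`, `Q`) gives `χ P = χ Q`.
-/

set_option autoImplicit false

open NumberField IsDedekindDomain nonZeroDivisors IntermediateField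

namespace Pool.Agent.STr

open Pool.Agent.ST
open Pool.Agent.STc (IsInt rd IsUn)

variable {K : Type*} [Field K] [NumberField K] [Algebra K ℝ] {σ₂ : K →+* ℝ} {n m m' m'' : Ideal (𝓞 K)}

omit [NumberField K] in
private lemma V5_act_zpow {H : IntermediateField K ℝ} (σ : H ≃ₐ[K] H) {x : ℝ} (hx : x ∈ H) (k : ℤ) :
    act σ (x ^ k) = (act σ x) ^ k := by
  cases k with
  | ofNat k =>
    rw [Int.ofNat_eq_natCast, zpow_natCast, zpow_natCast, act_pow σ hx]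
  | negSucc k =>
    rw [zpow_negSucc, zpow_negSucc, act_inv σ (pow_mem hx _), act_pow σ hx]

omit [Algebra K ℝ] in
/-- the exponential of the sum over the fibre -/
private lemma V5_exp_UU [Fintype (RayClassGroup σ₂ m')] [DecidableEq (RayClassGroup σ₂ m)] (hle : m' ≤ m)
    (A : RayClassGroup σ₂ m) :
    Real.exp (UU hle A) = ∏ A' ∈ Finset.univ.filter (fun A' : RayClassGroup σ₂ m' => pr σ₂ hle A' = A),
      ev σ₂ m' A' := by
  have h : UU hle A = ∑ A' ∈ Finset.univ.filter (fun A' : RayClassGroup σ₂ m' => pr σ₂ hle A' = A),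
      Lz σ₂ m' A' := by
    have hs : {A' : RayClassGroup σ₂ m' | pr σ₂ hle A' = A} =
        ((Finset.univ.filter (fun A' : RayClassGroup σ₂ m' => pr σ₂ hle A' = A) : Finset _) :
          Set (RayClassGroup σ₂ m')) := by
      ext A'
      simp
    unfold UU
    rw [hs, finsum_mem_coe_finset]
  rw [h, Real.exp_sum]
  rfl

/-- the action of the Artin symbol, upper level -/
private lemma V5_up [Fintype (RayClassGroup σ₂ m')] [DecidableEq (RayClassGroup σ₂ m)] (hle : m' ≤ m)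
    (L' : Lv σ₂ m') (C : RayClassGroup σ₂ m') (A : RayClassGroup σ₂ m) :
    act (L'.Art C) (Real.exp (UU hle A)) = Real.exp (UU hle (A * pr σ₂ hle (L'.β C))) := by
  rw [V5_exp_UU hle, V5_exp_UU hle, act_prod _ _ _ fun A' _ => L'.mem A']
  refine Finset.prod_bij (fun A' _ => A' * L'.β C) ?_ ?_ ?_ ?_
  · intro A' hA'
    rw [Finset.mem_filter] at hA' ⊢
    exact ⟨Finset.mem_univ _, by rw [map_mul, hA'.2]⟩
  · intro A' _ B' _ h
    exact mul_right_cancel h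
  · intro B' hB'
    rw [Finset.mem_filter] at hB'
    refine ⟨B' * (L'.β C)⁻¹, ?_, ?_⟩
    · rw [Finset.mem_filter]
      exact ⟨Finset.mem_univ _, by rw [map_mul, hB'.2, map_inv, mul_inv_cancel_right]⟩
    · exact inv_mul_cancel_right _ _
  · intro A' _
    exact L'.act_art A' C

/-- the action of the Artin symbol, lower level -/
private lemma V5_down [Fintype (RayClassGroup σ₂ m)] {e : RayClassGroup σ₂ m → ℤ} {f : RayClassGroup σ₂ m → ℝ}
    (he : ∀ A, f A = ∑ᶠ g, (e g : ℝ) * Lz σ₂ m (A * g)) (L : Lv σ₂ m) (D A : RayClassGroup σ₂ m) :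
    Real.exp (f A) ∈ L.H ∧ act (L.Art D) (Real.exp (f A)) = Real.exp (f (A * L.β D)) := by
  have h1 : ∀ A, Real.exp (f A) = ∏ g, ev σ₂ m (A * g) ^ (e g) := by
    intro A
    rw [he, finsum_eq_sum_of_fintype, Real.exp_sum]
    refine Finset.prod_congr rfl fun g _ => ?_
    rw [ev, ← Real.rpow_intCast, ← Real.exp_mul, mul_comm]
  have h2 : ∀ g, ev σ₂ m (A * g) ^ (e g) ∈ L.H := fun g => zpow_mem (L.mem _) _
  refine ⟨by rw [h1]; exact prod_mem fun g _ => h2 g, ?_⟩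
  rw [h1, h1, act_prod _ _ _ fun g _ => h2 g]
  refine Finset.prod_congr rfl fun g _ => ?_
  rw [V5_act_zpow _ (L.mem _), L.act_art, mul_right_comm]

theorem beta_pr (hy : Hy σ₂ n) (hm : m ≠ ⊥) (hnm : n ∣ m) (hm' : m' ≠ ⊥) (hle : m' ≤ m) (L : Lv σ₂ m)
    (L' : Lv σ₂ m') {χ : RayClassGroup σ₂ m →* ℂˣ} (hχ : InX (Lz σ₂ m') (χ.comp (pr σ₂ hle)))
    (C : RayClassGroup σ₂ m') : χ (pr σ₂ hle (L'.β C)) = χ (L.β (pr σ₂ hle C)) := by
  classical
  have hnm' : n ∣ m' := hnm.trans (Ideal.dvd_iff_le.2 hle)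
  have i1 := hy.finite_cl hm hnm
  have i2 := hy.finite_cl hm' hnm'
  have i3 := Fintype.ofFinite (RayClassGroup σ₂ m)
  have i4 := Fintype.ofFinite (RayClassGroup σ₂ m')
  obtain ⟨e, he, -⟩ := UU_all hy hm hnm hm' hle
  have key : ∀ A, UU hle (A * pr σ₂ hle (L'.β C)) = UU hle (A * L.β (pr σ₂ hle C)) := by
    intro A
    obtain ⟨h1, h2⟩ := V5_down he L (pr σ₂ hle C) A
    apply Real.exp_injective
    rw [← V5_up hle L' C A, ← h2]
    exact L.act_art_pr L' hle hm' C h1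
  have hX : InX (UU hle) χ := by
    obtain ⟨c, hc⟩ := hχ
    exact ⟨c, by rw [SS_UU hy hm hnm hm' hle]; exact hc⟩
  have h3 := X_rel hX (Finset.univ : Finset Unit) (Finset.univ : Finset Unit)
    (fun _ => pr σ₂ hle (L'.β C)) (fun _ => L.β (pr σ₂ hle C)) (fun A => by simpa using key A)
  apply Units.ext
  simpa using h3

end Pool.Agent.STr
end

section

/-!
# TASK G5: descent of the conclusion (Step C of section 8 of the paper)

PROOF. Let `L₁` be a level for `m₁` (`Hy.lv`), `π = pr hle₁`, `π' = pr hle'`, `χ₁ = χ.comp π * η`, `χ₁' = χ₁.comp π'`. `beta_pr` (V5) for `χ₁`, `m₁`, `M'`: `χ₁ (π' (L'.β C)) = χ₁ (L₁.β (π' C))`, so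
`χ₁' * (χ₁'.comp L'.β)⁻¹ = (χ₁ * (χ₁.comp L₁.β)⁻¹).comp π'`; `π'` is surjective (`Hy.pr_surj`), so `δ₁ := χ₁ * (χ₁.comp L₁.β)⁻¹` has the same order: `¬ l ∣ orderOf δ₁`. `beta_pr` for `χ`, `m`, `m₁` (hypothesis `hX`):
`(χ.comp π).comp L₁.β = (χ.comp L.β).comp π`. So `δ₁ = (δ.comp π) * (η * (η.comp L₁.β)⁻¹)` with `δ = χ * (χ.comp L.β)⁻¹`, and the second factor is killed by `r ^ i`. If `l ∣ orderOf δ = orderOf (δ.comp π)`
(`π` surjective): `δ.comp π = δ₁ * (...)⁻¹` is killed by `orderOf δ₁ * r ^ i`, which is not divisible by the prime `l`. Contradiction.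
-/

set_option autoImplicit false

open NumberField IsDedekindDomain nonZeroDivisors IntermediateField

namespace Pool.Agent.STr

open Pool.Agent.ST

variable {K : Type*} [Field K] [NumberField K] [Algebra K ℝ] {σ₂ : K →+* ℝ} {n m m₁ M' : Ideal (𝓞 K)}

theorem descend (hy : Hy σ₂ n) (hm : m ≠ ⊥) (hnm : n ∣ m) (L : Lv σ₂ m) (hm₁ : m₁ ≠ ⊥) (hle₁ : m₁ ≤ m)
    (hM' : M' ≠ ⊥) (hle' : M' ≤ m₁) (L' : Lv σ₂ M') {χ : RayClassGroup σ₂ m →* ℂˣ}
    {η : RayClassGroup σ₂ m₁ →* ℂˣ} {l r i : ℕ} (hl : l.Prime) (hr : r.Prime) (hlr : l ≠ r) (hη : η ^ (r ^ i) = 1)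
    (hX : InX (Lz σ₂ m₁) (χ.comp (pr σ₂ hle₁)))
    (hX' : InX (Lz σ₂ M') ((χ.comp (pr σ₂ hle₁) * η).comp (pr σ₂ hle')))
    (h : ¬ l ∣ orderOf ((χ.comp (pr σ₂ hle₁) * η).comp (pr σ₂ hle') *
      (((χ.comp (pr σ₂ hle₁) * η).comp (pr σ₂ hle')).comp L'.β.toMonoidHom)⁻¹)) :
    ¬ l ∣ orderOf (χ * (χ.comp L.β.toMonoidHom)⁻¹) := by
  have hnm₁ : n ∣ m₁ := hnm.trans (Ideal.dvd_iff_le.2 hle₁)
  obtain ⟨L₁⟩ := hy.lv m₁ hm₁ hnm₁
  have hs : Function.Surjective (pr σ₂ hle₁) := hy.pr_surj hm hnm hm₁ hle₁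
  have hs' : Function.Surjective (pr σ₂ hle') := hy.pr_surj hm₁ hnm₁ hM' hle'
  have hb : ∀ C, χ (pr σ₂ hle₁ (L₁.β C)) = χ (L.β (pr σ₂ hle₁ C)) :=
    fun C => beta_pr hy hm hnm hm₁ hle₁ L L₁ hX C
  have hb' : ∀ C, (χ.comp (pr σ₂ hle₁) * η) (pr σ₂ hle' (L'.β C)) =
      (χ.comp (pr σ₂ hle₁) * η) (L₁.β (pr σ₂ hle' C)) :=
    fun C => beta_pr hy hm₁ hnm₁ hM' hle' L₁ L' hX' C
  set χ₁ : RayClassGroup σ₂ m₁ →* ℂˣ := χ.comp (pr σ₂ hle₁) * η with hχ₁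
  set δ₁ : RayClassGroup σ₂ m₁ →* ℂˣ := χ₁ * (χ₁.comp L₁.β.toMonoidHom)⁻¹ with hδ₁
  set δ : RayClassGroup σ₂ m →* ℂˣ := χ * (χ.comp L.β.toMonoidHom)⁻¹ with hδ
  have h1 : (χ₁.comp (pr σ₂ hle') * ((χ₁.comp (pr σ₂ hle')).comp L'.β.toMonoidHom)⁻¹) =
      MonoidHom.compHom' (pr σ₂ hle') δ₁ := by
    apply MonoidHom.ext
    intro C
    show χ₁ (pr σ₂ hle' C) * (χ₁ (pr σ₂ hle' (L'.β C)))⁻¹ =
      χ₁ (pr σ₂ hle' C) * (χ₁ (L₁.β (pr σ₂ hle' C)))⁻¹
    rw [hb']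
  have hinj : ∀ {A B : Type _} [CommGroup A] [CommGroup B] (f : A →* B),
      Function.Surjective f → Function.Injective (MonoidHom.compHom' (P := ℂˣ) f) := by
    intro A B _ _ f hf g g' hgg
    apply MonoidHom.ext
    intro b
    obtain ⟨a, rfl⟩ := hf b
    exact DFunLike.congr_fun hgg a
  have h2 : ¬ l ∣ orderOf δ₁ := by
    rw [h1, orderOf_injective _ (hinj _ hs')] at h
    exact h
  intro hld
  apply h2
  have h3 : MonoidHom.compHom' (pr σ₂ hle₁) δ = δ₁ * (η * (η.comp L₁.β.toMonoidHom)⁻¹)⁻¹ := by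
    apply MonoidHom.ext
    intro C
    show χ (pr σ₂ hle₁ C) * (χ (L.β (pr σ₂ hle₁ C)))⁻¹ =
      (χ (pr σ₂ hle₁ C) * η C * (χ (pr σ₂ hle₁ (L₁.β C)) * η (L₁.β C))⁻¹) *
        (η C * (η (L₁.β C))⁻¹)⁻¹
    rw [hb]
    generalize χ (pr σ₂ hle₁ C) = a
    generalize χ (L.β (pr σ₂ hle₁ C)) = b
    generalize η C = c
    generalize η (L₁.β C) = d
    rw [mul_inv, mul_inv, inv_inv]
    calc a * b⁻¹ = a * b⁻¹ * (c * c⁻¹) * (d⁻¹ * d) := by rw [mul_inv_cancel, inv_mul_cancel]; simp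
      _ = a * c * (b⁻¹ * d⁻¹) * (c⁻¹ * d) := by
        simp only [mul_assoc, mul_left_comm, mul_comm]
  have hψ : ((η * (η.comp L₁.β.toMonoidHom)⁻¹)⁻¹ : RayClassGroup σ₂ m₁ →* ℂˣ) ^ (r ^ i) = 1 := by
    apply MonoidHom.ext
    intro C
    have e1 : η C ^ (r ^ i) = 1 := DFunLike.congr_fun hη C
    have e2 : η (L₁.β C) ^ (r ^ i) = 1 := DFunLike.congr_fun hη (L₁.β C)
    show ((η C * (η (L₁.β C))⁻¹)⁻¹) ^ (r ^ i) = 1
    rw [inv_pow, mul_pow, inv_pow, e1, e2, inv_one, mul_one, inv_one]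
  have h5 : (MonoidHom.compHom' (pr σ₂ hle₁) δ) ^ (orderOf δ₁ * r ^ i) = 1 := by
    rw [h3, mul_pow, pow_mul, pow_orderOf_eq_one, one_pow, one_mul, mul_comm (orderOf δ₁), pow_mul,
      hψ, one_pow]
  have h6 : orderOf δ ∣ orderOf δ₁ * r ^ i := by
    rw [← orderOf_injective _ (hinj _ hs) δ]
    exact orderOf_dvd_of_pow_eq_one h5
  rcases hl.dvd_mul.1 (hld.trans h6) with h7 | h7
  · exact h7
  · exact absurd ((Nat.prime_dvd_prime_iff_eq hl hr).1 (hl.dvd_of_dvd_pow h7)) hlr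

end Pool.Agent.STr
end
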