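import Pool.Agent.Lib.MP_1ef7cf_nt_r.Mg.G009
import Pool.Agent.Lib.MP_1ef7cf_nt_b.Conj
import Pool.Agent.Lib.MP_1ef7cf_nt_e.INRA
import Pool.Agent.Lib.MP_1ef7cf_nt_e.INRB

section

/-!
# TASK C3a: complex conjugation over the second embedding (section 10 of the paper)

PROOF of `exists_neg_norm`. Let `F` (here the intermediate field `T`) be finite over `K` such that all embeddings of `T` over `σ₂` are real. Let `ξ` be an integral generator of `T` over `K`
(primitive element). The numbers `ρ ξ` (`ρ : T → ℝ` over `σ₂`) are real and distinct, so there is a rational number `s = u / v` such that exactly one of the differences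
`ρ ξ - s` is negative, i.e. `∏_ρ (ρ ξ - s) < 0`. Let `t₀` be a positive integer in `m`; for `k` a large positive integer let `y = 1 + k t₀ (v ξ - u)`. `y ≡ 1 mod m 𝓞 T`, and `∏_ρ ρ y =
σ₂ (Norm_{T/K} y)` has the sign of `∏_ρ (k t₀ v) (ρ ξ - s)`, i.e. it is negative, if `k` is large. `x = Norm_{T/K} y ≡ 1 mod m`.
(Templates: `MP_1ef7cf_nt_e/INRB.lean`, in particular its lemma `main` for the congruences of norms and the embeddings.)
PROOF of `art_c`. `γ` an automorphism with `IsConj σ₂ H γ`, `T` = fixed field of `γ` (lift of `fixedField (zpowers γ)`; abelian over `K`). All embeddings of `T` over `σ₂` are real (an embedding of `T` extends to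
`H`, and `conj (g x) = g (γ x) = g x` for `x ∈ T`). `exists_neg_norm` gives `x = Norm y ≡ 1 mod m`, `σ₂ x < 0`. The class of `(x)` is `c` (two classes with `IsC` are equal), and
`Art c` is trivial on `T` by `res_art_norm` (`MP_1ef7cf_nt_e/INRA.lean`; the Artin symbol of the norm of an element prime to `m` is trivial). So `Art c ∈ ⟨γ⟩ = {1, γ}` (`IsConj.sq`).
If `Art c = 1` then `c = 1`, excluded. So `Art c = γ`.
PROOF of `abs_one`. `exists_isConj`: `γ`. If `c = 1`: `ev A * ev (A * c) = 1` gives `ev A = 1` and the claim is trivial. Otherwise `γ = Art c`, `act γ (ev A) = ev (A c) = (ev A)⁻¹`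
(`Hy.Lz_c`), so `conj (emb g (ev A)) = emb g (act γ (ev A)) = (emb g (ev A))⁻¹`, `‖emb g (ev A)‖ ^ 2 = 1`.
(This file: exists_neg_norm.)
-/

set_option autoImplicit false

open NumberField IsDedekindDomain nonZeroDivisors IntermediateField

namespace Pool.Agent.STr

open Pool.Agent.ST Pool.Agent.STb
open Pool.Agent.STc (IsInt rd IsUn)

variable {K : Type*} [Field K] [NumberField K] [Algebra K ℝ] {σ₂ : K →+* ℝ} {n m : Ideal (𝓞 K)}

section aux

open Filter Topology in
private lemma C3a_neg {ι : Type*} [Fintype ι] (z : ι → ℝ) (hz : ∏ i, z i < 0) :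
    ∃ k : ℕ, ∏ i, (1 + (k : ℝ) * z i) < 0 := by
  have h0 : Tendsto (fun k : ℕ => ((k : ℝ))⁻¹) atTop (𝓝 0) := tendsto_inv_atTop_nhds_zero_nat
  have h1 : Tendsto (fun k : ℕ => ∏ i, ((k : ℝ)⁻¹ + z i)) atTop (𝓝 (∏ i, z i)) := by
    apply tendsto_finsetProd
    intro i _
    have h2 := h0.add_const (z i)
    simpa using h2
  have h4 : ∀ᶠ k : ℕ in atTop, ∏ i, ((k : ℝ)⁻¹ + z i) < 0 := h1.eventually (gt_mem_nhds hz)
  obtain ⟨k, hk, hk0⟩ := (h4.and (eventually_gt_atTop 0)).exists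
  refine ⟨k, ?_⟩
  have hk' : (0 : ℝ) < k := by exact_mod_cast hk0
  have h5 : ∏ i, (1 + (k : ℝ) * z i) = (k : ℝ) ^ Fintype.card ι * ∏ i, ((k : ℝ)⁻¹ + z i) := by
    rw [← Finset.card_univ, ← Finset.prod_const, ← Finset.prod_mul_distrib]
    apply Finset.prod_congr rfl
    intro i _
    rw [mul_add, mul_inv_cancel₀ hk'.ne']
  rw [h5]
  exact mul_neg_of_pos_of_neg (pow_pos hk' _) hk

private lemma C3a_sep {ι : Type*} [Fintype ι] [Nonempty ι] (r : ι → ℝ) (hr : Function.Injective r) :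
    ∃ (u : ℤ) (v : ℕ), 0 < v ∧ ∏ i, ((v : ℝ) * r i - u) < 0 := by
  classical
  obtain ⟨i₀, hi₀⟩ := Finite.exists_min r
  obtain ⟨q, hq1, hq2⟩ : ∃ q : ℚ, r i₀ < q ∧ ∀ i, i ≠ i₀ → (q : ℝ) < r i := by
    have h1 : ∀ i, i ≠ i₀ → r i₀ < r i := fun i hi => lt_of_le_of_ne (hi₀ i) (fun h => hi (hr h).symm)
    by_cases hne : (Finset.univ.erase i₀).Nonempty
    · obtain ⟨j, hj, hj'⟩ := Finset.exists_min_image _ r hne
      obtain ⟨q, hq1, hq2⟩ := exists_rat_btwn (h1 j (Finset.ne_of_mem_erase hj))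
      exact ⟨q, hq1, fun i hi => hq2.trans_le (hj' i (Finset.mem_erase.2 ⟨hi, Finset.mem_univ _⟩))⟩
    · obtain ⟨q, hq⟩ := exists_rat_gt (r i₀)
      refine ⟨q, hq, fun i hi => absurd ⟨i, Finset.mem_erase.2 ⟨hi, Finset.mem_univ _⟩⟩ hne⟩
  refine ⟨q.num, q.den, q.den_pos, ?_⟩
  have hd : (0 : ℝ) < q.den := by exact_mod_cast q.den_pos
  have hnum : (q.num : ℝ) = q * q.den := by
    have := Rat.mul_den_eq_num q
    exact_mod_cast this.symm
  rw [← Finset.mul_prod_erase Finset.univ _ (Finset.mem_univ i₀)]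
  apply mul_neg_of_neg_of_pos
  · rw [hnum]
    have : (q.den : ℝ) * r i₀ - q * q.den = q.den * (r i₀ - q) := by ring
    rw [this]
    exact mul_neg_of_pos_of_neg hd (by linarith)
  · apply Finset.prod_pos
    intro i hi
    rw [hnum]
    have : (q.den : ℝ) * r i - q * q.den = q.den * (r i - q) := by ring
    rw [this]
    exact mul_pos hd (by linarith [hq2 i (Finset.ne_of_mem_erase hi)])

/-- an integral element with distinct conjugates -/
private lemma C3a_prim {K T : Type*} [Field K] [NumberField K] [Field T] [NumberField T] [Algebra K T]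
    [IsGalois K T] : ∃ ξ : 𝓞 T, ∀ τ τ' : T ≃ₐ[K] T, τ (ξ : T) = τ' (ξ : T) → τ = τ' := by
  obtain ⟨θ, hθ⟩ := Field.exists_primitive_element K T
  have hal : IsAlgebraic ℤ θ := by
    rw [IsFractionRing.isAlgebraic_iff ℤ ℚ T]
    exact Algebra.IsAlgebraic.isAlgebraic θ
  obtain ⟨N, hN, hint⟩ := hal.exists_integral_multiple
  refine ⟨⟨N • θ, hint⟩, fun τ τ' h => ?_⟩
  have hNT : ((N : ℤ) : T) ≠ 0 := by exact_mod_cast hN
  have h1 : τ θ = τ' θ := by
    have h2 : τ (N • θ) = τ' (N • θ) := h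
    rw [zsmul_eq_mul, map_mul, map_mul, map_intCast, map_intCast] at h2
    exact mul_left_cancel₀ hNT h2
  have h3 : ∀ x ∈ K⟮θ⟯, τ x = τ' x := by
    intro x hx
    induction hx using IntermediateField.adjoin_induction with
    | mem x hx =>
      rw [Set.mem_singleton_iff] at hx
      rw [hx, h1]
    | algebraMap x => rw [AlgEquiv.commutes, AlgEquiv.commutes]
    | add x y _ _ hx hy => rw [map_add, map_add, hx, hy]
    | inv x _ hx => rw [map_inv₀, map_inv₀, hx]
    | mul x y _ _ hx hy => rw [map_mul, map_mul, hx, hy]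
  ext x
  exact h3 x (by rw [hθ]; exact IntermediateField.mem_top)

open Pool.Agent.STe in
/-- the statement for abstract number fields -/
private lemma C3a_main {K T : Type*} [Field K] [NumberField K] [Field T] [NumberField T] [Algebra K T]
    [IsGalois K T] {σ₂ : K →+* ℝ} {g : T →+* ℂ} (hg : ∀ a : K, g (algebraMap K T a) = (σ₂ a : ℂ))
    (hreal : ∀ x : T, (g x).im = 0) {m : Ideal (𝓞 K)} (hm : m ≠ ⊥) :
    ∃ (y : 𝓞 T) (x : 𝓞 K), y ≠ 0 ∧
      algebraMap K T (x : K) = ∏ τ : T ≃ₐ[K] T, τ (algebraMap (𝓞 T) T y) ∧ x - 1 ∈ m ∧ σ₂ (x : K) < 0 := by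
  classical
  obtain ⟨ξ, hξ⟩ := C3a_prim (K := K) (T := T)
  have hinj : Function.Injective (fun τ : T ≃ₐ[K] T => (g (τ (ξ : T))).re) := by
    intro τ τ' h
    apply hξ
    apply g.injective
    exact Complex.ext h ((hreal _).trans (hreal _).symm)
  obtain ⟨u, v, hv, huv⟩ := C3a_sep _ hinj
  obtain ⟨N, hN⟩ : ∃ N : ℕ, N = Ideal.absNorm m := ⟨_, rfl⟩
  have hN0 : 0 < N := Nat.pos_of_ne_zero (by rw [hN, Ne, Ideal.absNorm_eq_zero_iff]; exact hm)
  have hNm : (N : 𝓞 K) ∈ m := by rw [hN]; exact Ideal.absNorm_mem _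
  have hN0' : (0 : ℝ) < N := by exact_mod_cast hN0
  have hz : ∏ τ : T ≃ₐ[K] T, ((N : ℝ) * ((v : ℝ) * (g (τ (ξ : T))).re - u)) < 0 := by
    rw [Finset.prod_mul_distrib, Finset.prod_const]
    exact mul_neg_of_pos_of_neg (pow_pos hN0' _) huv
  obtain ⟨k, hk⟩ := C3a_neg _ hz
  obtain ⟨y, hy⟩ : ∃ y : 𝓞 T, y = 1 + (k : 𝓞 T) * (N * ((v : 𝓞 T) * ξ - (u : 𝓞 T))) := ⟨_, rfl⟩
  obtain ⟨x, hx1, hx2⟩ := INRB.exists_norm (K := K) y
  have hσ : σ₂ (x : K) < 0 := by
    have h1 : ((σ₂ (x : K) : ℝ) : ℂ) = ((∏ τ : T ≃ₐ[K] T, (1 + (k : ℝ) *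
        ((N : ℝ) * ((v : ℝ) * (g (τ (ξ : T))).re - u))) : ℝ) : ℂ) := by
      rw [← hg, hx1, map_prod, Complex.ofReal_prod]
      apply Finset.prod_congr rfl
      intro τ _
      have h2 : g (τ (ξ : T)) = (((g (τ (ξ : T))).re : ℝ) : ℂ) :=
        Complex.ext (by simp) (by simp [hreal])
      have h3 : algebraMap (𝓞 T) T y = 1 + (k : T) * (N * ((v : T) * (ξ : T) - (u : T))) := by
        rw [hy]
        simp only [map_add, map_mul, map_sub, map_one, map_natCast, map_intCast]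
      rw [h3]
      simp only [map_add, map_mul, map_sub, map_one, map_natCast, map_intCast]
      conv_lhs => rw [h2]
      push_cast
      ring
    have h4 := Complex.ofReal_injective h1
    rw [h4]
    exact hk
  have hx0 : (x : K) ≠ 0 := by
    intro h
    rw [h, map_zero] at hσ
    exact lt_irrefl _ hσ
  refine ⟨y, x, ?_, hx1, ?_, hσ⟩
  · rintro rfl
    apply hx0
    apply (algebraMap K T).injective
    rw [hx1, map_zero (algebraMap K T), map_zero (algebraMap (𝓞 T) T)]
    exact Finset.prod_eq_zero (Finset.mem_univ (1 : T ≃ₐ[K] T)) (map_zero _)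
  · have hc0 : (N : 𝓞 K) ≠ 0 := by exact_mod_cast hN0.ne'
    have h1 : (N : 𝓞 K) ∣ x - 1 := by
      refine INRB.norm_sub_one (T := T) hc0 (y := y) ?_ hx2
      rw [hy, add_sub_cancel_left]
      apply Ideal.mul_mem_left
      apply Ideal.mul_mem_right
      rw [map_natCast]
      exact Ideal.mem_span_singleton_self _
    obtain ⟨d, hd⟩ := h1
    rw [hd]
    exact m.mul_mem_right _ hNm

end aux

theorem exists_neg_norm (σ₂ : K →+* ℝ) (hm : m ≠ ⊥) {T : IntermediateField K ℝ} [FiniteDimensional K T] [IsGalois K T]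
    (hreal : ∀ g : T →+* ℂ, Over σ₂ g → ∀ x : T, (g x).im = 0) :
    ∃ (y : ℝ) (x : 𝓞 K), IsInt T y ∧ y ≠ 0 ∧ algebraMap K ℝ (x : K) = ∏ τ : T ≃ₐ[K] T, act τ y ∧
      x - 1 ∈ m ∧ σ₂ (x : K) < 0 := by
  have := numberField_of_fd T
  obtain ⟨g, hg⟩ := exists_over (H := T) σ₂
  obtain ⟨Y, x, hY0, hXY, hx1, hx2⟩ := C3a_main hg (hreal g hg) hm
  have hact : algebraMap K ℝ (x : K) = ∏ τ : T ≃ₐ[K] T, act τ ((Y : T) : ℝ) := by
    have h1 := congrArg (fun u : T => (u : ℝ)) hXY
    have h2 : ((∏ τ : T ≃ₐ[K] T, τ (Y : T) : T) : ℝ) =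
        ∏ τ : T ≃ₐ[K] T, ((τ (Y : T) : T) : ℝ) :=
      map_prod (algebraMap T ℝ) _ _
    have h3 : ∏ τ : T ≃ₐ[K] T, act τ ((Y : T) : ℝ) =
        ∏ τ : T ≃ₐ[K] T, ((τ (Y : T) : T) : ℝ) :=
      Finset.prod_congr rfl (fun τ _ => act_coe τ _)
    rw [h3, ← h2]
    exact h1
  refine ⟨((Y : T) : ℝ), x, Pool.Agent.STc.isInt_coe _, ?_, hact, hx1, hx2⟩
  intro h0
  apply hY0
  apply RingOfIntegers.coe_injective
  rw [map_zero]
  exact Subtype.ext h0

end Pool.Agent.STr
end

section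

/-!
# TASK C3b: complex conjugation over the second embedding (section 10 of the paper)

PROOF of `exists_neg_norm`. Let `F` (here the intermediate field `T`) be finite over `K` such that all embeddings of `T` over `σ₂` are real. Let `ξ` be an integral generator of `T` over `K`
(primitive element). The numbers `ρ ξ` (`ρ : T → ℝ` over `σ₂`) are real and distinct, so there is a rational number `s = u / v` such that exactly one of the differences
`ρ ξ - s` is negative, i.e. `∏_ρ (ρ ξ - s) < 0`. Let `t₀` be a positive integer in `m`; for `k` a large positive integer let `y = 1 + k t₀ (v ξ - u)`. `y ≡ 1 mod m 𝓞 T`, and `∏_ρ ρ y =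
σ₂ (Norm_{T/K} y)` has the sign of `∏_ρ (k t₀ v) (ρ ξ - s)`, i.e. it is negative, if `k` is large. `x = Norm_{T/K} y ≡ 1 mod m`.
(Templates: `MP_1ef7cf_nt_e/INRB.lean`, in particular its lemma `main` for the congruences of norms and the embeddings.)
PROOF of `art_c`. `γ` an automorphism with `IsConj σ₂ H γ`, `T` = fixed field of `γ` (lift of `fixedField (zpowers γ)`; abelian over `K`). All embeddings of `T` over `σ₂` are real (an embedding of `T` extends to
`H`, and `conj (g x) = g (γ x) = g x` for `x ∈ T`). `exists_neg_norm` gives `x = Norm y ≡ 1 mod m`, `σ₂ x < 0`. The class of `(x)` is `c` (two classes with `IsC` are equal), and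
`Art c` is trivial on `T` by `res_art_norm` (`MP_1ef7cf_nt_e/INRA.lean`; the Artin symbol of the norm of an element prime to `m` is trivial). So `Art c ∈ ⟨γ⟩ = {1, γ}` (`IsConj.sq`).
If `Art c = 1` then `c = 1`, excluded. So `Art c = γ`.
PROOF of `abs_one`. `exists_isConj`: `γ`. If `c = 1`: `ev A * ev (A * c) = 1` gives `ev A = 1` and the claim is trivial. Otherwise `γ = Art c`, `act γ (ev A) = ev (A c) = (ev A)⁻¹`
(`Hy.Lz_c`), so `conj (emb g (ev A)) = emb g (act γ (ev A)) = (emb g (ev A))⁻¹`, `‖emb g (ev A)‖ ^ 2 = 1`.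
(This file: art_c.)
-/

set_option autoImplicit false

open NumberField IsDedekindDomain nonZeroDivisors IntermediateField

namespace Pool.Agent.STr

open Pool.Agent.ST Pool.Agent.STb
open Pool.Agent.STc (IsInt rd IsUn)

variable {K : Type*} [Field K] [NumberField K] [Algebra K ℝ] {σ₂ : K →+* ℝ} {n m : Ideal (𝓞 K)}

theorem art_c (hy : Hy σ₂ n) (hm : m ≠ ⊥) (hnm : n ∣ m) (L : Lv σ₂ m) {c : RayClassGroup σ₂ m} (hc : IsC σ₂ m c)
    (hc1 : c ≠ 1) {γ : L.H ≃ₐ[K] L.H} (hγ : IsConj σ₂ L.H γ) : L.Art c = γ := by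
  have := L.rcf.finite
  have := L.rcf.isRCF.abelian
  let F : IntermediateField K L.H := IntermediateField.fixedField (Subgroup.zpowers γ)
  let T : IntermediateField K ℝ := IntermediateField.lift F
  have hT : T ≤ L.H := IntermediateField.lift_le F
  have hTab : IsAbelianGalois K T := isAbelianGalois_of_le hT
  have hTfin : FiniteDimensional K T :=
    FiniteDimensional.of_injective (inclusion hT).toLinearMap (inclusion hT).injective
  have hTg : IsGalois K T := inferInstance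
  have hmem : ∀ x ∈ T, act γ x = x := by
    intro x hx
    have hxH : x ∈ L.H := hT hx
    have h1 : (⟨x, hxH⟩ : L.H) ∈ F := (IntermediateField.mem_lift (⟨x, hxH⟩ : L.H)).1 hx
    have h2 := (IntermediateField.mem_fixedField_iff _ _).1 h1 γ (Subgroup.mem_zpowers γ)
    rw [act_of_mem γ hxH]
    exact congrArg (fun z : L.H => (z : ℝ)) h2
  have hreal : ∀ g : T →+* ℂ, Over σ₂ g → ∀ x : T, (g x).im = 0 := by
    intro g hg x
    obtain ⟨g', hg'⟩ := exists_extend g hT
    have hg'o : Over σ₂ g' := over_extend hg' hg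
    have h1 := hγ g' hg'o x (hT x.2)
    rw [hmem x x.2, hg' x x.2, emb_coe] at h1
    exact Complex.conj_eq_iff_im.1 h1.symm
  obtain ⟨y, x, hy1, hy0, hxy, hx1, hx2⟩ := exists_neg_norm σ₂ hm hreal
  obtain ⟨z, C, hz1, hz2, hC, hCc⟩ := hc
  have hx0 : (x : K) ≠ 0 := by
    intro h
    rw [h, map_zero] at hx2
    exact lt_irrefl _ hx2
  let J : primeTo (K := K) m := ⟨uP (x : K) hx0, coe_mem_primeTo (I := Ideal.span {x})
    (by rw [coe_uP, coe_span_singleton]) (coprime_span_of_sub_one_mem hx1)⟩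
  have hJ : ((J : (FI K)ˣ) : FI K) = ((Ideal.span {x} : Ideal (𝓞 K)) : FI K) := by
    rw [coe_span_singleton]
    rfl
  have hJc : cls σ₂ m J = c := by
    rw [← hCc, cls_eq_iff]
    refine ⟨(x : K)⁻¹ * (z : K), (oneMod_of_sub_one_mem hx1).inv.mul (oneMod_of_sub_one_mem hz1),
      ?_, ?_⟩
    · rw [map_mul, map_inv₀]
      exact mul_pos_of_neg_of_neg (inv_lt_zero.2 hx2) hz2
    · rw [Units.val_mul, Units.val_inv_eq_inv_val, hJ, hC, coe_span_singleton, coe_span_singleton,
        ← FractionalIdeal.spanSingleton_mul_spanSingleton, FractionalIdeal.spanSingleton_inv]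
  have h1 := STe.res_art_norm hm L.rcf hT hy1 hy0 hxy hJ
  rw [hJc, res_eq_one_iff] at h1
  have h2 : L.Art c ∈ Subgroup.zpowers γ := by
    rw [← IntermediateField.fixingSubgroup_fixedField (Subgroup.zpowers γ)]
    rw [IntermediateField.mem_fixingSubgroup_iff]
    intro u hu
    have hu' : (u : ℝ) ∈ T := (IntermediateField.mem_lift u).2 hu
    have h3 := h1 _ hu'
    rw [act_coe] at h3
    exact Subtype.ext h3
  obtain ⟨k, hk⟩ := Subgroup.mem_zpowers_iff.1 h2
  have hsq : γ ^ (2 : ℤ) = 1 := by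
    rw [zpow_ofNat, pow_two]
    exact hγ.sq
  have hne : L.Art c ≠ 1 := by
    intro h
    exact hc1 (by rwa [map_eq_one_iff L.Art L.Art.injective] at h)
  rcases Int.even_or_odd' k with ⟨j, hj | hj⟩
  · exfalso
    apply hne
    rw [← hk, hj, zpow_mul, hsq, one_zpow]
  · rw [← hk, hj, zpow_add, zpow_mul, hsq, one_zpow, one_mul, zpow_one]

end Pool.Agent.STr
end
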