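import Pool.Agent.Lib.MP_1ef7cf_nt_r.Mg.G022
import Pool.Agent.Lib.MP_1ef7cf_nt_r.Mg.G016
import Pool.Agent.Lib.MP_1ef7cf_nt_r.Mg.G029
import Pool.Agent.Lib.MP_1ef7cf_nt_r.Mg.G030
import Pool.Agent.Lib.MP_1ef7cf_nt_r.Mg.G020
import Pool.Agent.Lib.MP_1ef7cf_nt_r.Mg.G018
import Pool.Agent.Lib.MP_1ef7cf_nt_r.Mg.G004
import Pool.Agent.Lib.MP_1ef7cf_nt_r.Mg.G005
import Pool.Agent.Lib.MP_1ef7cf_nt_r.Mg.G009
import Pool.Agent.Lib.MP_1ef7cf_nt_r.Mg.G011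
import Pool.Agent.Lib.MP_1ef7cf_nt_r.Mg.G001
import Pool.Agent.Lib.MP_1ef7cf_nt_b.Conj
import Pool.Agent.Lib.MP_1ef7cf_nt_e.INRA
import Pool.Agent.Lib.MP_1ef7cf_nt_e.INRB
import Pool.Agent.Lib.MP_1ef7cf_nt_r.Mg.G032
import Pool.Agent.Lib.MP_1ef7cf_nt_f.GC
import Pool.Agent.Lib.MP_1ef7cf_nt.Bridge
import Pool.Agent.Lib.MP_1ef7cf_nt.Bridge2
import Pool.Agent.Lib.MP_1ef7cf_nt_s.Dw
import Pool.Agent.Lib.MP_1ef7cf_nt_h.Mg.G004
import Pool.Agent.Lib.MP_1ef7cf_nt_h.Mg.G008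

section

/-!
# TASK G4: assembly of section 8 of the paper

An anchor for `(d, a)`: a modulus `m₀`, a level `L₀` with `√a ∈ L₀.H`, and a character `κ` in `X` for `m₀`, trivial on the classes whose Artin symbols fix `√a`.

PROOF of `order_free`. Notation: `(r)` is `Ideal.span {(r : 𝓞 K)}`. `l` is a prime.
(1) `c` with `IsC σ₂ m c` (`exists_isC`), `χ c = -1` (`InX.neg_one` with `Hy.Lz_c`); `c₀` for `A.m₀`, `A.κ c₀ = -1`. `exists_r` (N7) for `m`, `χ`, with `b₁ = max of 2, l, orderOf χ, absNorm m, absNorm A.m₀`: a prime `r₁ > b₁`, `q₁` with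
`q₁.asIdeal = (r₁)`, `¬ q₁ ∣ m`, `χ [q₁] ≠ 1`. Then `r₁ ≠ 2`, `r₁ ≠ l`, `¬ r₁ ∣ orderOf χ`, and `¬ q₁ ∣ A.m₀` (`q₁ ∣ A.m₀` gives `absNorm q₁ = r₁ ^ 2 ∣ absNorm A.m₀`, not zero). `exists_r` for `A.m₀`, `A.κ`, `b₂ = max of b₁, r₁`: `r₂`, `q₂`, `¬ q₂ ∣ A.m₀`,
`A.κ [q₂] ≠ 1`; `r₂ ≠ 2, l, r₁`, `¬ q₂ ∣ m`. (`orderOf χ ≠ 0` since the dual of the finite class group is finite: `finite_dual`.)
(2) `exists_I` (G2) for `r₁` and the finite set (`finite_dvd`) of the primes dividing `A.m₀ * (r₂)`: `I₁`. `stepA` (G1) for `m`, `χ`, `r₁`, `q₁`, `I₁`: `t₁, i₁, η₀₁, η₁`; put `m₁ = m * (r₁) ^ t₁`. `exists_I` for `r₂` and the primes dividing `m * (r₁)`: `I₂`. `stepA` for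
`A.m₀`, `A.κ`, `r₂`, `q₂`, `I₂`: `t₂, i₂, η₀₂, η₂`; `m₂ = A.m₀ * (r₂) ^ t₂`.
(3) `M = m₁ * m₂` (`≤ m₁`, `≤ m₂`, `≠ ⊥`, `n ∣ M`), `LM` a level for `M`. `χ₁ = (χ.comp pr * η₁).comp (pr (M ≤ m₁))`, `κ₁ = (κ.comp pr * η₂).comp (pr (M ≤ m₂))` are in `X` for `M` by `InX.lift` (V4): a prime `v ∣ M` which does not divide `m₁` divides `m₂`, so it divides
`A.m₀ * (r₂)`; it does not contain `r₁` (`t₁ ≥ 1`), so `pn v` is prime to `r₁` (`coprime_absNorm` (N1) with `M := m₁`; `pn v` is `absNorm v.asIdeal`), and `twist_ne` (G2; `a = orderOf χ`) with `wild_ne` (N4; `y = pn v`, `exists_I`). For `κ₁` in the same way with `a = 2` (`A.sq`, `¬ r₂ ∣ 2`).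
(4) `N₂ = r₂ ^ t₂`. The hypotheses of `stepB` (G3) for `M`, `LM`, `χ₁`, `κ₁`, `N₂`, `l`: `hab`: `v` prime, so `2 d ∈ v` (`A.ab`) or `r₂ ∈ v` (then `v ∣ (r₂) ∣ m₂`, `t₂ ≥ 1`). `hNM`: `M ≤ m₂ ≤ (r₂) ^ t₂ = (r₂ ^ t₂)` (`Ideal.span_singleton_pow`). `hse`: `A.mem` and
`Lv.le` (V1) for `A.L₀`, `LM`. `htr`: let `Art B` be trivial on `Lf a N₂`. `se a ∈ Lf a N₂` (`se_mem`, F08), so by `Lv.act_art_pr` `act (A.L₀.Art (pr B)) (se a) = se a` and `A.κ (pr B) = 1` (`A.tr`; `pr_pr` for the composition of the two maps `pr`). `η₂.comp pr` is `NT N₂ η₀₂` for `M` (`NT.comp_pr`);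
it is `1` at `B` by `NT.fix`: for `I`, `J` with `cls J = B`: `act (LM.Art B) (cN N₂) = cN N₂` (`cos_mem` in F08: `cos (2 π / N₂) ∈ Lf a N₂`; `cN` is this number), which is `cos (2 π absNorm I / N₂)` by `art_cos` (N2), so `cos_mod_iff` (F05) gives
`N₂ ∣ absNorm I ∓ 1`. `hp`: given `k`, `b` take `p` by `exists_p` (N4) with a bound `≥ b, r₁, r₂`. Let `v` be a prime not dividing `M` with `p ∈ v`: `pn v = p` or `p ^ 2` (`v ∣ (p)`, `absNorm (p) = p ^ 2`). `χ₁ [v]_M = (χ.comp pr * η₁) [v]_{m₁}` (`pr_cls`), which is `≠ 1` by `twist_ne` and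
`wild_ne_p` (`e = 1, 2`); the same for `κ₁`.
(5) `stepB`: `M'`, `hle'`, `L'`, `InX (χ₁.comp (pr hle'))`, `¬ l ∣ orderOf ...`. `descend` (G5) with `m₁`, `η = η₁`, `r = r₁`, `i = i₁` (`η₁ ^ (r₁ ^ i₁) = 1` by `NT.dvd`), `M'`, `L'`, `L`: `hX` by `InX.lift` (a prime dividing `m₁` and not `m` is `q₁`), `hX'`, `h` from
`stepB` and `pr_pr` (`χ₁.comp (pr hle') = (χ.comp pr * η₁).comp (pr (M' ≤ m₁))`).
-/

set_option autoImplicit false

open NumberField IsDedekindDomain nonZeroDivisors IntermediateField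

namespace Pool.Agent.STr

open Pool.Agent.ST
open Pool.Agent.STh.F (FD Lf se)

variable {K : Type*} [Field K] [NumberField K] [Algebra K ℝ] {σ₂ : K →+* ℝ} {n m : Ideal (𝓞 K)} {d : ℕ} {a : 𝓞 K}

/-- the anchor -/
structure Anc (σ₂ : K →+* ℝ) (n : Ideal (𝓞 K)) (d : ℕ) (a : 𝓞 K) where
  m₀ : Ideal (𝓞 K)
  hm₀ : m₀ ≠ ⊥
  hn : n ∣ m₀
  ab : ∀ v : PrI K, (2 * d : 𝓞 K) ∈ v.asIdeal → v.asIdeal ∣ m₀
  L₀ : Lv σ₂ m₀
  mem : se a ∈ L₀.H
  κ : RayClassGroup σ₂ m₀ →* ℂˣ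
  inX : InX (Lz σ₂ m₀) κ
  sq : κ ^ 2 = 1
  tr : ∀ B, act (L₀.Art B) (se a) = se a → κ B = 1

section G4aux

omit [NumberField K] [Algebra K ℝ] in
lemma G4_l (I J : Ideal (𝓞 K)) : I * J ≤ I := Ideal.mul_le_inf.trans inf_le_left

omit [NumberField K] [Algebra K ℝ] in
lemma G4_r (I J : Ideal (𝓞 K)) : I * J ≤ J := Ideal.mul_le_inf.trans inf_le_right

omit [Algebra K ℝ] in
lemma G4_pn (h2 : Module.finrank ℚ K = 2) {q : PrI K} {r : ℕ} (h : q.asIdeal = Ideal.span {(r : 𝓞 K)}) :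
    pn q = r ^ 2 := by
  unfold pn
  rw [h, Ideal.absNorm_span_natCast, RingOfIntegers.rank, h2]

omit [Algebra K ℝ] in
lemma G4_le (h2 : Module.finrank ℚ K = 2) {q : PrI K} {r : ℕ} (hr : r.Prime)
    (h : q.asIdeal = Ideal.span {(r : 𝓞 K)}) {M : Ideal (𝓞 K)} (hM : M ≠ ⊥) (hq : q.asIdeal ∣ M) :
    r ≤ Ideal.absNorm M := by
  have h1 : Ideal.absNorm M ≠ 0 := by rwa [Ne, Ideal.absNorm_eq_zero_iff]
  have h3 : pn q ∣ Ideal.absNorm M := Ideal.absNorm_dvd_absNorm_of_le (Ideal.dvd_iff_le.1 hq)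
  have h4 := Nat.le_of_dvd (Nat.pos_of_ne_zero h1) h3
  rw [G4_pn h2 h] at h4
  have := hr.two_le
  nlinarith

omit [Algebra K ℝ] in
lemma G4_pow (h2 : Module.finrank ℚ K = 2) {v : PrI K} {p : ℕ} (hp : p.Prime) (h : (p : 𝓞 K) ∈ v.asIdeal) :
    ∃ e, (e = 1 ∨ e = 2) ∧ pn v = p ^ e := by
  have h3 : pn v ∣ Ideal.absNorm (Ideal.span {(p : 𝓞 K)}) :=
    Ideal.absNorm_dvd_absNorm_of_le ((Ideal.span_singleton_le_iff_mem _).2 h)
  rw [Ideal.absNorm_span_natCast, RingOfIntegers.rank, h2] at h3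
  obtain ⟨e, he, h4⟩ := (Nat.dvd_prime_pow hp).1 h3
  refine ⟨e, ?_, h4⟩
  have h5 := two_le_pn v
  have h6 : e ≠ 0 := by
    rintro rfl
    rw [h4, pow_zero] at h5
    omega
  omega

omit [NumberField K] [Algebra K ℝ] in
lemma G4_span (r t : ℕ) :
    Ideal.span {(r : 𝓞 K)} ^ t = Ideal.span {((r ^ t : ℕ) : 𝓞 K)} := by
  rw [Ideal.span_singleton_pow, Nat.cast_pow]

lemma G4_val {r t i b : ℕ} (hr : r.Prime) (hr2 : r ≠ 2) (ht : 1 ≤ t)
    (hle : m * Ideal.span {(r : 𝓞 K)} ^ t ≤ m) {χ : RayClassGroup σ₂ m →* ℂˣ} (hχ : χ ^ b = 1) (hb : ¬ r ∣ b)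
    {η₀ : (ZMod (r ^ t))ˣ →* ℂˣ} (ho : orderOf η₀ = r ^ i)
    {η : RayClassGroup σ₂ (m * Ideal.span {(r : 𝓞 K)} ^ t) →* ℂˣ} (hη : NT (r ^ t) η₀ η) {v : PrI K}
    (hv : ¬ v.asIdeal ∣ m * Ideal.span {(r : 𝓞 K)} ^ t)
    (hI : ¬ ((r : ℤ) ^ (i + 1) ∣ ((pn v : ℕ) : ℤ) ^ (r - 1) - 1)) :
    (χ.comp (pr σ₂ hle) * η) (cls σ₂ _ (prJ _ v hv)) ≠ 1 := by
  have hc : (pn v).Coprime (r ^ t) := coprime_absNorm (pow_ne_zero _ hr.ne_zero)
    (by rw [← G4_span]; exact G4_r _ _) (coprime_prime_iff.2 hv)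
  exact twist_ne hr hle hχ hb ho hη hv hc (wild_ne hr hr2 ho hc
    (Nat.Coprime.coprime_dvd_right (dvd_pow_self r (by omega)) hc) hI)

lemma G4_valp (h2 : Module.finrank ℚ K = 2) {r t i b : ℕ} (hr : r.Prime) (hr2 : r ≠ 2) (hi : 1 ≤ i)
    (hle : m * Ideal.span {(r : 𝓞 K)} ^ t ≤ m) {χ : RayClassGroup σ₂ m →* ℂˣ} (hχ : χ ^ b = 1) (hb : ¬ r ∣ b)
    {η₀ : (ZMod (r ^ t))ˣ →* ℂˣ} (ho : orderOf η₀ = r ^ i)
    {η : RayClassGroup σ₂ (m * Ideal.span {(r : 𝓞 K)} ^ t) →* ℂˣ} (hη : NT (r ^ t) η₀ η) {v : PrI K}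
    (hv : ¬ v.asIdeal ∣ m * Ideal.span {(r : 𝓞 K)} ^ t) {p : ℕ} (hp : p.Prime) (hpv : (p : 𝓞 K) ∈ v.asIdeal)
    (hpr : p ≡ 1 + r [MOD r ^ t]) :
    (χ.comp (pr σ₂ hle) * η) (cls σ₂ _ (prJ _ v hv)) ≠ 1 := by
  have hc : (pn v).Coprime (r ^ t) := coprime_absNorm (pow_ne_zero _ hr.ne_zero)
    (by rw [← G4_span]; exact G4_r _ _) (coprime_prime_iff.2 hv)
  obtain ⟨e, he, hpe⟩ := G4_pow h2 hp hpv
  refine twist_ne hr hle hχ hb ho hη hv hc ?_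
  have key : ∀ (y : ℕ) (hy : y.Coprime (r ^ t)), y = p ^ e → η₀ (ZMod.unitOfCoprime y hy) ≠ 1 := by
    rintro y hy rfl
    exact wild_ne_p hr hr2 hi ho he hpr hy
  exact key _ hc hpe

omit [Algebra K ℝ] in
lemma G4_comp {M : Ideal (𝓞 K)} (h : M ≤ m) (χ : RayClassGroup σ₂ m →* ℂˣ) {v : PrI K}
    (hv : ¬ v.asIdeal ∣ M) (hv' : ¬ v.asIdeal ∣ m) :
    (χ.comp (pr σ₂ h)) (cls σ₂ M (prJ M v hv)) = χ (cls σ₂ m (prJ m v hv')) := by
  rw [MonoidHom.comp_apply, pr_cls]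
  rfl

end G4aux

theorem order_free (hy : Hy σ₂ n) (D : FD σ₂ d a) (A : Anc σ₂ n d a) (hm : m ≠ ⊥) (hnm : n ∣ m) (L : Lv σ₂ m)
    {χ : RayClassGroup σ₂ m →* ℂˣ} (hχ : InX (Lz σ₂ m) χ) {l : ℕ} (hl : l.Prime) :
    ¬ l ∣ orderOf (χ * (χ.comp L.β.toMonoidHom)⁻¹) := by
  have h2 := hy.h2
  have := hy.finite_cl hm hnm
  have := hy.finite_cl A.hm₀ A.hn
  have := finite_dual (RayClassGroup σ₂ m)
  -- step 1
  obtain ⟨c, hc⟩ := exists_isC (σ₂ := σ₂) hm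
  obtain ⟨c₀, hc₀⟩ := exists_isC (σ₂ := σ₂) A.hm₀
  have hχc : χ c = -1 := InX.neg_one hχ (fun B => hy.Lz_c hm hnm hc B)
  have hκc : A.κ c₀ = -1 := InX.neg_one A.inX (fun B => hy.Lz_c A.hm₀ A.hn hc₀ B)
  have hord : 0 < orderOf χ := orderOf_pos χ
  obtain ⟨r₁, q₁, hq₁, hr₁, hb₁, hq₁r, hχq₁⟩ := exists_r D hm hc hχc
    (2 + l + orderOf χ + Ideal.absNorm m + Ideal.absNorm A.m₀)
  obtain ⟨r₂, q₂, hq₂, hr₂, hb₂, hq₂r, hκq₂⟩ := exists_r D A.hm₀ hc₀ hκc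
    (2 + l + orderOf χ + Ideal.absNorm m + Ideal.absNorm A.m₀ + r₁)
  have hr₁2 : r₁ ≠ 2 := by omega
  have hr₂2 : r₂ ≠ 2 := by omega
  have hr₁o : ¬ r₁ ∣ orderOf χ := fun h => by
    have := Nat.le_of_dvd hord h
    omega
  have hr₂o : ¬ r₂ ∣ 2 := fun h => by
    have := Nat.le_of_dvd (by norm_num) h
    omega
  have hq₁0 : ¬ q₁.asIdeal ∣ A.m₀ := fun h => by
    have := G4_le h2 hr₁ hq₁r A.hm₀ h
    omega
  have hq₂0 : ¬ q₂.asIdeal ∣ m := fun h => by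
    have := G4_le h2 hr₂ hq₂r hm h
    omega
  have hs₁ : Ideal.span {(r₁ : 𝓞 K)} ≠ ⊥ := by rw [← hq₁r]; exact q₁.ne_bot
  have hs₂ : Ideal.span {(r₂ : 𝓞 K)} ≠ ⊥ := by rw [← hq₂r]; exact q₂.ne_bot
  have hmul : ∀ {I J : Ideal (𝓞 K)}, I ≠ ⊥ → J ≠ ⊥ → I * J ≠ ⊥ := fun hI hJ h => by
    rcases Ideal.mul_eq_bot.1 h with h | h
    · exact hI h
    · exact hJ h
  -- step 2
  obtain ⟨I₁, hI₁⟩ := exists_I (K := K) hr₁ (finite_dvd (hmul A.hm₀ hs₂))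
  obtain ⟨t₁, i₁, hle₁, η₀₁, η₁, hIi₁, hi₁, ht₁, ho₁, hn₁, hN₁, hX₁⟩ :=
    stepA hy hm hnm hχ hr₁ hr₁2 hq₁r hq₁ hχq₁ I₁
  obtain ⟨I₂, hI₂⟩ := exists_I (K := K) hr₂ (finite_dvd (hmul hm hs₁))
  obtain ⟨t₂, i₂, hle₂, η₀₂, η₂, hIi₂, hi₂, ht₂, ho₂, hn₂, hN₂, hX₂⟩ :=
    stepA hy A.hm₀ A.hn A.inX hr₂ hr₂2 hq₂r hq₂ hκq₂ I₂
  obtain ⟨m₁, hm₁d⟩ : ∃ m₁, m₁ = m * Ideal.span {(r₁ : 𝓞 K)} ^ t₁ := ⟨_, rfl⟩
  obtain ⟨m₂, hm₂d⟩ : ∃ m₂, m₂ = A.m₀ * Ideal.span {(r₂ : 𝓞 K)} ^ t₂ := ⟨_, rfl⟩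
  have hm₁ : m * Ideal.span {(r₁ : 𝓞 K)} ^ t₁ ≠ ⊥ := hmul hm (pow_ne_zero _ hs₁)
  have hm₂ : A.m₀ * Ideal.span {(r₂ : 𝓞 K)} ^ t₂ ≠ ⊥ := hmul A.hm₀ (pow_ne_zero _ hs₂)
  have hnm₁ : n ∣ m * Ideal.span {(r₁ : 𝓞 K)} ^ t₁ := hnm.trans (Dvd.intro _ rfl)
  have hnm₂ : n ∣ A.m₀ * Ideal.span {(r₂ : 𝓞 K)} ^ t₂ := A.hn.trans (Dvd.intro _ rfl)
  have := hy.finite_cl hm₁ hnm₁
  have := hy.finite_cl hm₂ hnm₂
  -- step 3
  obtain ⟨M, hMd⟩ : ∃ M, M = (m * Ideal.span {(r₁ : 𝓞 K)} ^ t₁) * (A.m₀ * Ideal.span {(r₂ : 𝓞 K)} ^ t₂) := ⟨_, rfl⟩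
  have hMle₁ : M ≤ m * Ideal.span {(r₁ : 𝓞 K)} ^ t₁ := by rw [hMd]; exact G4_l _ _
  have hMle₂ : M ≤ A.m₀ * Ideal.span {(r₂ : 𝓞 K)} ^ t₂ := by rw [hMd]; exact G4_r _ _
  have hM : M ≠ ⊥ := by rw [hMd]; exact hmul hm₁ hm₂
  have hnM : n ∣ M := by rw [hMd]; exact hnm₁.trans (Dvd.intro _ rfl)
  have := hy.finite_cl hM hnM
  obtain ⟨LM⟩ := hy.lv M hM hnM
  have hχo : χ ^ orderOf χ = 1 := pow_orderOf_eq_one χ
  have hχ₁ : InX (Lz σ₂ M) ((χ.comp (pr σ₂ hle₁) * η₁).comp (pr σ₂ hMle₁)) := by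
    refine InX.lift hy hm₁ hnm₁ hM hMle₁ hX₁ (fun v hv hvM => ?_)
    have h3 : v.asIdeal ∣ A.m₀ * Ideal.span {(r₂ : 𝓞 K)} := by
      rw [hMd] at hvM
      rcases v.prime.dvd_or_dvd hvM with h | h
      · exact absurd h hv
      · rcases v.prime.dvd_or_dvd h with h | h
        · exact h.trans (Dvd.intro _ rfl)
        · exact (v.prime.dvd_of_dvd_pow h).trans (Dvd.intro_left _ rfl)
    exact G4_val hr₁ hr₁2 (by omega) hle₁ hχo hr₁o ho₁ hN₁ hv (hI₁ v h3 i₁ hIi₁)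
  have hκ₁ : InX (Lz σ₂ M) ((A.κ.comp (pr σ₂ hle₂) * η₂).comp (pr σ₂ hMle₂)) := by
    refine InX.lift hy hm₂ hnm₂ hM hMle₂ hX₂ (fun v hv hvM => ?_)
    have h3 : v.asIdeal ∣ m * Ideal.span {(r₁ : 𝓞 K)} := by
      rw [hMd] at hvM
      rcases v.prime.dvd_or_dvd hvM with h | h
      · rcases v.prime.dvd_or_dvd h with h | h
        · exact h.trans (Dvd.intro _ rfl)
        · exact (v.prime.dvd_of_dvd_pow h).trans (Dvd.intro_left _ rfl)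
      · exact absurd h hv
    exact G4_val hr₂ hr₂2 (by omega) hle₂ A.sq hr₂o ho₂ hN₂ hv (hI₂ v h3 i₂ hIi₂)
  -- step 4
  have hN0 : r₂ ^ t₂ ≠ 0 := pow_ne_zero _ hr₂.ne_zero
  have hNM : M ≤ Ideal.span {((r₂ ^ t₂ : ℕ) : 𝓞 K)} := by
    rw [← G4_span]
    exact hMle₂.trans (G4_r _ _)
  have hM0 : M ≤ A.m₀ := hMle₂.trans (G4_l _ _)
  have hab : ∀ v : PrI K, (2 * d * (r₂ ^ t₂ : ℕ) : 𝓞 K) ∈ v.asIdeal → v.asIdeal ∣ M := by
    intro v hv
    have h5 : v.asIdeal ∣ A.m₀ * Ideal.span {(r₂ : 𝓞 K)} ^ t₂ := by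
      have := v.isPrime
      rcases v.isPrime.mem_or_mem hv with h | h
      · exact (A.ab v h).trans (Dvd.intro _ rfl)
      · rw [Nat.cast_pow] at h
        have h6 := v.isPrime.mem_of_pow_mem _ h
        have h7 : v.asIdeal ∣ Ideal.span {(r₂ : 𝓞 K)} := by
          rw [Ideal.dvd_iff_le, Ideal.span_singleton_le_iff_mem]
          exact h6
        exact (h7.trans (dvd_pow_self _ (by omega))).trans (Dvd.intro_left _ rfl)
    rw [hMd]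
    exact h5.trans (Dvd.intro_left _ rfl)
  have hse : se a ∈ LM.H := A.L₀.le LM hM0 hM A.mem
  have hcN : cN (r₂ ^ t₂) ∈ LM.H := cos_mem h2 hN0 hM hNM LM.rcf
  have htr : ∀ B, (∀ x ∈ Lf a (r₂ ^ t₂), act (LM.Art B) x = x) →
      ((A.κ.comp (pr σ₂ hle₂) * η₂).comp (pr σ₂ hMle₂)) B = 1 := by
    intro B hB
    have h5 : A.κ (pr σ₂ hle₂ (pr σ₂ hMle₂ B)) = 1 := by
      rw [pr_pr]
      apply A.tr
      rw [← Lv.act_art_pr A.L₀ LM hM0 hM B A.mem]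
      exact hB _ (Pool.Agent.STh.F.se_mem a _)
    have h6 : (η₂.comp (pr σ₂ hMle₂)) B = 1 := by
      refine NT.fix hN0 hM hNM hn₂ (hN₂.comp_pr hMle₂) (fun I J hJ hJB => ?_)
      have h7 := art_cos hN0 hM hNM LM.rcf hcN hJ
      have h9 : act (LM.Art B) (cN (r₂ ^ t₂)) = cN (r₂ ^ t₂) := hB _ (Pool.Agent.STh.F.cos_mem a _)
      rw [hJB, h9] at h7
      have h8 := (Pool.Agent.STh.F.cos_mod_iff hN0 ((Ideal.absNorm I : ℕ) : ℤ) 1).1 (by
        rw [show ((1 : ℤ) : ℝ) = 1 from by norm_num, mul_one]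
        unfold cN at h7
        exact_mod_cast h7.symm)
      exact h8
    rw [MonoidHom.comp_apply, MonoidHom.mul_apply, MonoidHom.comp_apply, h5, one_mul]
    exact h6
  have hl₁ : l ≠ r₁ := by omega
  have hl₂ : l ≠ r₂ := by omega
  have hp : ∀ k b : ℕ, ∃ p : ℕ, p.Prime ∧ b < p ∧ 2 * l ^ k ∣ p - 1 ∧
      ∀ (q : PrI K) (hq : ¬ q.asIdeal ∣ M), (p : 𝓞 K) ∈ q.asIdeal →
      ((χ.comp (pr σ₂ hle₁) * η₁).comp (pr σ₂ hMle₁)) (cls σ₂ M (prJ M q hq)) ≠ 1 ∧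
      ((A.κ.comp (pr σ₂ hle₂) * η₂).comp (pr σ₂ hMle₂)) (cls σ₂ M (prJ M q hq)) ≠ 1 := by
    intro k b
    obtain ⟨p, hp, hbp, hlp, hp1, hp2⟩ := exists_p (l := l) (k := k) (r₁ := r₁) (t₁ := t₁) (r₂ := r₂) (t₂ := t₂)
      hl hr₁ hr₂ hr₁2 hr₂2 (by omega) hl₁ hl₂ b
    refine ⟨p, hp, hbp, hlp, fun q hq hpq => ⟨?_, ?_⟩⟩
    · have hq' := not_dvd_of_le hMle₁ hq
      rw [G4_comp hMle₁ _ hq hq']
      exact G4_valp h2 hr₁ hr₁2 hi₁ hle₁ hχo hr₁o ho₁ hN₁ hq' hp hpq hp1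
    · have hq' := not_dvd_of_le hMle₂ hq
      rw [G4_comp hMle₂ _ hq hq']
      exact G4_valp h2 hr₂ hr₂2 hi₂ hle₂ A.sq hr₂o ho₂ hN₂ hq' hp hpq hp2
  -- step 5
  obtain ⟨M', hle', L', hM', hX', hfin⟩ := stepB hy D hM hnM LM hχ₁ hκ₁ hN0 hab hNM hse htr hl hp
  have hcomp : ((χ.comp (pr σ₂ hle₁) * η₁).comp (pr σ₂ hMle₁)).comp (pr σ₂ hle') =
      (χ.comp (pr σ₂ hle₁) * η₁).comp (pr σ₂ (hle'.trans hMle₁)) := by
    ext x
    simp only [MonoidHom.comp_apply, pr_pr]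
  rw [hcomp] at hX' hfin
  have hη : η₁ ^ (r₁ ^ i₁) = 1 := by
    have h5 : orderOf η₁ ∣ orderOf η₀₁ :=
      NT.dvd hm₁ (pow_ne_zero _ hr₁.ne_zero) (by rw [← G4_span]; exact G4_r _ _) hN₁
    rw [ho₁] at h5
    exact orderOf_dvd_iff_pow_eq_one.1 h5
  have hX : InX (Lz σ₂ (m * Ideal.span {(r₁ : 𝓞 K)} ^ t₁)) (χ.comp (pr σ₂ hle₁)) := by
    refine InX.lift hy hm hnm hm₁ hle₁ hχ (fun v hv hvM => ?_)
    have h3 : v = q₁ := by
      rcases v.prime.dvd_or_dvd hvM with h | h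
      · exact absurd h hv
      · have h4 := v.prime.dvd_of_dvd_pow h
        rw [← hq₁r] at h4
        exact eq_of_dvd_prime h4
    subst h3
    exact hχq₁
  exact descend hy hm hnm L hm₁ hle₁ hM' (hle'.trans hMle₁) L' hl hr₁ hl₁ hη hX hX' hfin

end Pool.Agent.STr
end

section

/-!
# TASK Bc2: existence of the anchor (assembly of section 9 of the paper)

PROOF. `d₀`, `a₀` by `exists_FD` (Fd), `d₀` squarefree. `P₀` = the product of the prime divisors of `2 * d₀ * absNorm n` (`≠ 0`; `Nat.primeFactors`); it is squarefree, even. `x` by `exists_x` (Ba4) for `D₀ = d₀`. `Q = 64 * d₀ * P₀ ^ 2`, `d = d₀ * x ^ 2`, `a = x * a₀`, `D := D₀.mulSq`. `U` with `U.d = d`, `U.n = Q`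
(`exists_ud`; `64 d ∣ Q` since `x ∣ P₀`). `Ram U.n U.κ` by `ram_of` (Ba5) with `UD_gc U` (Ba1): a prime number `p ∣ Q` divides `P₀` (`64`, `d₀`, `P₀`), and `exists_x` gives `u`.
`m₀ = n * Ideal.span {(Q : 𝓞 K)} ^ 3`. `L₀` a level for `m₀` (`hy.lv`). `hpr : v ∣ m₀ ↔ Q ∈ v`: if `v ∣ n` then `absNorm n ∈ v`, a prime number `p ∣ absNorm n` is in `v`, and `p ∣ P₀ ∣ Q`. `ab`: `2 d ∈ v` gives `Q ∈ v` (`2 d ∣ Q`). `se a ∈ L₀.H` by `se_mem_H` (Bb9). `κ` by `exists_kap_char` (Bb2).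
`inX`: `inX_of_sum` (Bc1) and `sum_zd_ne` (Bc1a).
-/

set_option autoImplicit false

open NumberField IsDedekindDomain nonZeroDivisors IntermediateField Filter Topology

namespace Pool.Agent.STr

open Pool.Agent.ST
open Pool.Agent.STh (UD exists_ud)
open Pool.Agent.STh.F (FD se chiI cK)

variable {K : Type*} [Field K] [NumberField K] [Algebra K ℝ] {σ₂ : K →+* ℝ} {n m : Ideal (𝓞 K)}

omit [NumberField K] [Algebra K ℝ] in
private theorem Bc2_prime_mem (v : PrI K) : ∀ N : ℕ, N ≠ 0 → (N : 𝓞 K) ∈ v.asIdeal →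
    ∃ p : ℕ, p.Prime ∧ p ∣ N ∧ (p : 𝓞 K) ∈ v.asIdeal := by
  intro N
  induction N using Nat.strong_induction_on with
  | _ N ih =>
    intro hN hv
    by_cases h1 : N = 1
    · exfalso
      rw [h1, Nat.cast_one] at hv
      exact v.isPrime.ne_top ((Ideal.eq_top_iff_one _).2 hv)
    · have hp := Nat.minFac_prime h1
      obtain ⟨k, hk⟩ := Nat.minFac_dvd N
      have hk0 : k ≠ 0 := by
        rintro rfl
        rw [mul_zero] at hk
        exact hN hk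
      have hkN : k < N := by
        have h2 := hp.two_le
        have h3 : 2 * k ≤ N.minFac * k := Nat.mul_le_mul_right k h2
        have h4 : 0 < k := Nat.pos_of_ne_zero hk0
        omega
      have hv' : ((N.minFac : ℕ) : 𝓞 K) * ((k : ℕ) : 𝓞 K) ∈ v.asIdeal := by
        rw [← Nat.cast_mul, ← hk]
        exact hv
      rcases v.isPrime.mem_or_mem hv' with h | h
      · exact ⟨N.minFac, hp, Nat.minFac_dvd N, h⟩
      · obtain ⟨p, h5, h6, h7⟩ := ih k hkN hk0 h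
        exact ⟨p, h5, h6.trans ⟨N.minFac, by rw [mul_comm]; exact hk⟩, h7⟩

theorem exists_anchor (hy : Hy σ₂ n) (hn0 : n ≠ ⊥) :
    ∃ (d : ℕ) (a : 𝓞 K), FD σ₂ d a ∧ Nonempty (Anc σ₂ n d a) := by
  obtain ⟨d₀, a₀, D₀, hsf⟩ := exists_FD hy.h2 hy.hσ
  have hnsq : ¬ IsSquare d₀ := D₀.nsq
  have hd0 : d₀ ≠ 0 := by
    rintro rfl
    exact hnsq ⟨0, rfl⟩
  have hA : Ideal.absNorm n ≠ 0 := by
    rw [Ne, Ideal.absNorm_eq_zero_iff]
    exact hn0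
  have hR0 : 2 * d₀ * Ideal.absNorm n ≠ 0 := mul_ne_zero (mul_ne_zero two_ne_zero hd0) hA
  obtain ⟨P₀, hPsf, hpP, hP0⟩ : ∃ P₀ : ℕ, Squarefree P₀ ∧
      (∀ p : ℕ, p.Prime → p ∣ 2 * d₀ * Ideal.absNorm n → p ∣ P₀) ∧ P₀ ≠ 0 := by
    have hsq : Squarefree (∏ p ∈ (2 * d₀ * Ideal.absNorm n).primeFactors, p) :=
      Finset.squarefree_prod_of_pairwise_isCoprime ?_ ?_
    · exact ⟨_, hsq, fun p hp hd => Finset.dvd_prod_of_mem _ (Nat.mem_primeFactors.2 ⟨hp, hd, hR0⟩),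
        hsq.ne_zero⟩
    · intro p hp q hq hpq
      rw [Function.onFun, ← Nat.coprime_iff_isRelPrime]
      exact (Nat.coprime_primes (Nat.prime_of_mem_primeFactors hp)
        (Nat.prime_of_mem_primeFactors hq)).2 hpq
    · intro p hp
      exact (Nat.prime_of_mem_primeFactors hp).squarefree
  have h2P : 2 ∣ P₀ := hpP 2 Nat.prime_two ⟨d₀ * Ideal.absNorm n, by ring⟩
  obtain ⟨x, hx0, hxP, hx⟩ := exists_x hnsq hPsf h2P
  have hQ0 : 64 * d₀ * P₀ ^ 2 ≠ 0 := mul_ne_zero (mul_ne_zero (by norm_num) hd0) (pow_ne_zero 2 hP0)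
  have D := FD.mulSq D₀ hx0
  have hdQ : 64 * (d₀ * x ^ 2) ∣ 64 * d₀ * P₀ ^ 2 := by
    rw [← mul_assoc]
    exact Nat.mul_dvd_mul_left _ (pow_dvd_pow_of_dvd hxP 2)
  have hxQ : x ∣ 64 * d₀ * P₀ ^ 2 := (hxP.trans (dvd_pow_self P₀ two_ne_zero)).mul_left _
  obtain ⟨U, hUd, hUn⟩ := exists_ud D.nsq hQ0 hdQ
  have hDU : FD σ₂ U.d ((x : 𝓞 K) * a₀) := by
    rw [hUd]
    exact D
  have hram : Ram U.n U.κ := by
    refine ram_of U.n0 (UD_gc U) fun p hp hpn => ?_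
    refine hx U hUd hUn p hp ?_
    rw [hUn] at hpn
    rcases (Nat.Prime.dvd_mul hp).1 hpn with h | h
    · rcases (Nat.Prime.dvd_mul hp).1 h with h | h
      · have h64 : (64 : ℕ) = 2 ^ 6 := by norm_num
        rw [h64] at h
        exact (hp.dvd_of_dvd_pow h).trans h2P
      · exact hpP p hp ((h.mul_left 2).mul_right _)
    · exact hp.dvd_of_dvd_pow h
  have hQK : ((64 * d₀ * P₀ ^ 2 : ℕ) : 𝓞 K) ≠ 0 := Nat.cast_ne_zero.2 hQ0
  have hsp : Ideal.span {((64 * d₀ * P₀ ^ 2 : ℕ) : 𝓞 K)} ≠ ⊥ := by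
    rw [Ne, Ideal.span_singleton_eq_bot]
    exact hQK
  set m₀ : Ideal (𝓞 K) := n * Ideal.span {((64 * d₀ * P₀ ^ 2 : ℕ) : 𝓞 K)} ^ 3 with hm₀def
  have hm₀ : m₀ ≠ ⊥ := mul_ne_zero hn0 (pow_ne_zero 3 hsp)
  have hnm : n ∣ m₀ := Dvd.intro _ rfl
  obtain ⟨L₀⟩ := hy.lv m₀ hm₀ hnm
  have hpr : ∀ v : PrI K, v.asIdeal ∣ m₀ ↔ (U.n : 𝓞 K) ∈ v.asIdeal := by
    intro v
    have hvp : Prime v.asIdeal := v.prime
    rw [hUn]
    constructor
    · intro h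
      rcases hvp.dvd_or_dvd h with h | h
      · have h1 : ((Ideal.absNorm n : ℕ) : 𝓞 K) ∈ v.asIdeal :=
          (Ideal.le_of_dvd h) (Ideal.absNorm_mem n)
        obtain ⟨p, hp, hpd, hpv⟩ := Bc2_prime_mem v _ hA h1
        have h2 : p ∣ 64 * d₀ * P₀ ^ 2 :=
          ((hpP p hp (hpd.mul_left _)).trans (dvd_pow_self P₀ two_ne_zero)).mul_left _
        obtain ⟨k, hk⟩ := h2
        rw [hk, Nat.cast_mul]
        exact v.asIdeal.mul_mem_right _ hpv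
      · have h1 := hvp.dvd_of_dvd_pow h
        exact (Ideal.le_of_dvd h1) (Ideal.mem_span_singleton_self _)
    · intro h
      have h1 : v.asIdeal ∣ Ideal.span {((64 * d₀ * P₀ ^ 2 : ℕ) : 𝓞 K)} := by
        rw [Ideal.dvd_span_singleton]
        exact h
      exact (h1.trans (dvd_pow_self _ three_ne_zero)).mul_left _
  have hab : ∀ v : PrI K, (2 * (U.d : 𝓞 K)) ∈ v.asIdeal → v.asIdeal ∣ m₀ := by
    intro v hv
    rw [hpr, hUn]
    obtain ⟨k, hk⟩ := hdQ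
    have e : ((64 * d₀ * P₀ ^ 2 : ℕ) : 𝓞 K) = (2 * (U.d : 𝓞 K)) * ((32 * k : ℕ) : 𝓞 K) := by
      rw [hk, hUd]
      push_cast
      ring
    rw [e]
    exact v.asIdeal.mul_mem_right _ hv
  have hse : se ((x : 𝓞 K) * a₀) ∈ L₀.H :=
    se_mem_H D₀ hsf hx0 hQ0 hxQ hdQ hm₀ (by rw [hm₀def]; exact Ideal.mul_le_right) L₀.rcf
  obtain ⟨κ, hκ2, htr, hκ⟩ := exists_kap_char hDU hm₀ L₀ hse hab
  exact ⟨U.d, (x : 𝓞 K) * a₀, hDU, ⟨
    { m₀ := m₀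
      hm₀ := hm₀
      hn := hnm
      ab := hab
      L₀ := L₀
      mem := hse
      κ := κ
      inX := inX_of_sum hy hm₀ hnm hκ2 (sum_zd_ne hy hm₀ hnm U hDU hram hpr hκ)
      sq := hκ2
      tr := htr }⟩⟩

end Pool.Agent.STr
end

section

/-!
# TASK C3: complex conjugation over the second embedding (section 10 of the paper)

PROOF of `exists_neg_norm`. Let `F` (here the intermediate field `T`) be finite over `K` such that all embeddings of `T` over `σ₂` are real. Let `ξ` be an integral generator of `T` over `K`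
(primitive element). The numbers `ρ ξ` (`ρ : T → ℝ` over `σ₂`) are real and distinct, so there is a rational number `s = u / v` such that exactly one of the differences
`ρ ξ - s` is negative, i.e. `∏_ρ (ρ ξ - s) < 0`. Let `t₀` be a positive integer in `m`; for `k` a large positive integer let `y = 1 + k t₀ (v ξ - u)`. `y ≡ 1 mod m 𝓞 T`, and `∏_ρ ρ y =
σ₂ (Norm_{T/K} y)` has the sign of `∏_ρ (k t₀ v) (ρ ξ - s)`, i.e. it is negative, if `k` is large. `x = Norm_{T/K} y ≡ 1 mod m`.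
(Templates: `MP_1ef7cf_nt_e/INRB.lean`, in particular its lemma `main` for the congruences of norms and the embeddings.)
PROOF of `art_c`. `γ` an automorphism with `IsConj σ₂ H γ`, `T` = fixed field of `γ` (lift of `fixedField (zpowers γ)`; abelian over `K`). All embeddings of `T` over `σ₂` are real (an embedding of `T` extends to
`H`, and `conj (g x) = g (γ x) = g x` for `x ∈ T`). `exists_neg_norm` gives `x = Norm y ≡ 1 mod m`, `σ₂ x < 0`. The class of `(x)` is `c` (two classes with `IsC` are equal), and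
`Art c` is trivial on `T` by `res_art_norm` (`MP_1ef7cf_nt_e/INRA.lean`; the Artin symbol of the norm of an element prime to `m` is trivial). So `Art c ∈ ⟨γ⟩ = {1, γ}` (`IsConj.sq`).
If `Art c = 1` then `c = 1`, excluded. So `Art c = γ`.
PROOF of `abs_one`. `exists_isConj`: `γ`. If `c = 1`: `ev A * ev (A * c) = 1` gives `ev A = 1` and the claim is trivial. Otherwise `γ = Art c`, `act γ (ev A) = ev (A c) = (ev A)⁻¹`
(`Hy.Lz_c`), so `conj (emb g (ev A)) = emb g (act γ (ev A)) = (emb g (ev A))⁻¹`, `‖emb g (ev A)‖ ^ 2 = 1`.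
(This file: abs_one.)
-/

set_option autoImplicit false

open NumberField IsDedekindDomain nonZeroDivisors IntermediateField

namespace Pool.Agent.STr

open Pool.Agent.ST Pool.Agent.STb
open Pool.Agent.STc (IsInt rd IsUn)

variable {K : Type*} [Field K] [NumberField K] [Algebra K ℝ] {σ₂ : K →+* ℝ} {n m : Ideal (𝓞 K)}

theorem abs_one (hy : Hy σ₂ n) (hm : m ≠ ⊥) (hnm : n ∣ m) (L : Lv σ₂ m)
    (hart : ∀ A B, act (L.Art B) (ev σ₂ m A) = ev σ₂ m (A * B)) (g : L.H →+* ℂ) (hg : Over σ₂ g)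
    (A : RayClassGroup σ₂ m) : ‖emb g (ev σ₂ m A)‖ = 1 := by
  have := L.fd
  have := L.ab
  obtain ⟨γ, hγ⟩ := exists_isConj (L := L.H) σ₂
  obtain ⟨c, hc⟩ := exists_isC (σ₂ := σ₂) hm
  have hL := hy.Lz_c hm hnm hc A
  by_cases hc1 : c = 1
  · rw [hc1, mul_one] at hL
    have h1 : Lz σ₂ m A = 0 := by linarith
    have h2 : ev σ₂ m A = 1 := by unfold ev; rw [h1, Real.exp_zero]
    rw [h2]
    have h3 : emb g 1 = 1 := by
      rw [emb_of_mem g (one_mem _)]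
      have : (⟨1, one_mem _⟩ : L.H) = 1 := rfl
      rw [this, map_one]
    rw [h3, norm_one]
  · have h1 : L.Art c = γ := art_c hy hm hnm L hc hc1 hγ
    have h2 := hγ g hg (ev σ₂ m A) (L.mem A)
    rw [← h1, hart] at h2
    have h3 : ev σ₂ m (A * c) = (ev σ₂ m A)⁻¹ := by
      unfold ev
      rw [← Real.exp_neg]
      congr 1
      linarith
    have h4 : ev σ₂ m (A * c) * ev σ₂ m A = 1 := by
      rw [h3]
      exact inv_mul_cancel₀ (ev_pos (σ₂ := σ₂) (m := m) A).ne'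
    have h5 : emb g (ev σ₂ m (A * c)) * emb g (ev σ₂ m A) = 1 := by
      rw [← emb_mul g (L.mem _) (L.mem _), h4, emb_of_mem g (one_mem _)]
      have : (⟨1, one_mem _⟩ : L.H) = 1 := rfl
      rw [this, map_one]
    rw [h2] at h5
    have h6 : Complex.normSq (emb g (ev σ₂ m A)) = 1 := by
      have := Complex.normSq_eq_conj_mul_self (z := emb g (ev σ₂ m A))
      rw [h5] at this
      exact_mod_cast this
    rw [Complex.normSq_eq_norm_sq] at h6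
    have h7 : (0:ℝ) ≤ ‖emb g (ev σ₂ m A)‖ := norm_nonneg _
    nlinarith

end Pool.Agent.STr
end

section

/-!
# The reciprocity law
-/

set_option autoImplicit false

open NumberField IsDedekindDomain nonZeroDivisors IntermediateField

namespace Pool.Agent.STr

open Pool.Agent.ST Pool.Agent.STb
open Pool.Agent.STc (IsInt rd IsUn)
open Pool.Agent.STh.F (FD Lf se)

variable {K : Type*} [Field K] [NumberField K] [Algebra K ℝ] {σ₂ : K →+* ℝ} {n m : Ideal (𝓞 K)} {d : ℕ} {a : 𝓞 K}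

/-- the goal (G) -/
theorem goal (hy : Hy σ₂ n) (D : FD σ₂ d a) (A : Anc σ₂ n d a) (hm : m ≠ ⊥) (hnm : n ∣ m) (L : Lv σ₂ m)
    {χ : RayClassGroup σ₂ m →* ℂˣ} (hχ : InX (Lz σ₂ m) χ) (C : RayClassGroup σ₂ m) : χ (L.β C) = χ C := by
  haveI := L.finite_cl
  haveI := finite_dual (RayClassGroup σ₂ m)
  obtain ⟨δ, hδ⟩ : ∃ δ, δ = χ * (χ.comp L.β.toMonoidHom)⁻¹ := ⟨_, rfl⟩
  have h1 : orderOf δ = 1 := by
    by_contra hne
    obtain ⟨l, hl, hld⟩ := Nat.exists_prime_and_dvd hne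
    exact order_free hy D A hm hnm L hχ hl (hδ ▸ hld)
  rw [orderOf_eq_one_iff] at h1
  have h2 : χ C * (χ (L.β C))⁻¹ = 1 := by
    have := DFunLike.congr_fun (hδ.symm.trans h1) C
    simpa using this
  exact (mul_inv_eq_one.1 h2).symm

/-- the reciprocity law -/
theorem reciprocity (hy : Hy σ₂ n) (D : FD σ₂ d a) (A : Anc σ₂ n d a) (hm : m ≠ ⊥) (hnm : n ∣ m) (L : Lv σ₂ m)
    (X B : RayClassGroup σ₂ m) : act (L.Art B) (ev σ₂ m X) = ev σ₂ m (X * B) := by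
  haveI := L.finite_cl
  rw [L.act_art]
  unfold ev
  rw [eq_of_X (f := Lz σ₂ m) (P := L.β B) (Q := B) (fun χ hχ => goal hy D A hm hnm L hχ B) X]

theorem ratioP (hy : Hy σ₂ n) (D : FD σ₂ d a) (A : Anc σ₂ n d a) (hm : m ≠ ⊥) (hnm : n ∣ m) : RatioP σ₂ m := by
  obtain ⟨L⟩ := hy.lv m hm hnm
  refine ⟨L.H, L.Art, L.rcf, ?_⟩
  have hrec := reciprocity hy D A hm hnm L
  have hun := isUn_ev hy hm hnm L
  have hmul : ∀ X Y : RayClassGroup σ₂ m, IsUn L.H (ev σ₂ m X / ev σ₂ m Y) := by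
    intro X Y
    rw [div_eq_mul_inv]
    exact ⟨(hun X).int.mul (hun Y).inv, by
      rw [mul_inv, inv_inv]; exact (hun X).inv.mul (hun Y).int, mul_ne_zero (hun X).ne (inv_ne_zero (hun Y).ne)⟩
  refine ⟨fun σ => Real.exp_pos _, fun σ τ => (hmul _ _).int.1, ?_, fun σ τ => (hmul _ _).int.2, ?_⟩
  · intro ρ σ τ
    have h1 : ∀ σ : L.H ≃ₐ[K] L.H, act ρ (ex σ₂ m L.Art σ) = ex σ₂ m L.Art (ρ * σ) := by
      intro σ
      have := hrec (L.Art.symm σ) (L.Art.symm ρ)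
      rw [MulEquiv.apply_symm_apply, ← map_mul, L.comm σ ρ] at this
      exact this
    have hx : ∀ σ : L.H ≃ₐ[K] L.H, ex σ₂ m L.Art σ ∈ L.H := fun σ => (hun (L.Art.symm σ)).int.1
    rw [act_div _ (hx σ) (hx τ), h1, h1]
  · intro g hg σ τ
    have h1 := abs_one hy hm hnm L hrec g hg (L.Art.symm σ)
    have h2 := abs_one hy hm hnm L hrec g hg (L.Art.symm τ)
    have h3 : emb g (ev σ₂ m (L.Art.symm σ)) = emb g (ex σ₂ m L.Art σ / ex σ₂ m L.Art τ) *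
        emb g (ev σ₂ m (L.Art.symm τ)) := by
      have h4 : ev σ₂ m (L.Art.symm σ) = (ex σ₂ m L.Art σ / ex σ₂ m L.Art τ) * ev σ₂ m (L.Art.symm τ) := by
        have : ex σ₂ m L.Art σ = ev σ₂ m (L.Art.symm σ) := rfl
        rw [this, show ex σ₂ m L.Art τ = ev σ₂ m (L.Art.symm τ) from rfl, div_mul_cancel₀ _ (hun _).ne]
      rw [h4]
      exact emb_mul g (hmul _ _).int.1 (hun _).int.1
    rw [h3, norm_mul, h2, mul_one] at h1
    exact h1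

end Pool.Agent.STr
end

section

/-!
# The conclusion, given an anchor
-/

set_option autoImplicit false

open NumberField IsDedekindDomain nonZeroDivisors IntermediateField

namespace Pool.Agent.STr

open Pool.Agent.ST
open Pool.Agent.STh.F (FD)

variable {K : Type*} [Field K] [NumberField K] [Algebra K ℝ] {σ₂ : K →+* ℝ} {n m : Ideal (𝓞 K)} {d : ℕ} {a : 𝓞 K}

theorem starkTate_all (hy : Hy σ₂ n) (D : FD σ₂ d a) (A : Anc σ₂ n d a) :
    ∀ m : Ideal (𝓞 K), m ≠ ⊥ → n ∣ m → StarkTate σ₂ m :=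
  Pool.Agent.STf.general2 hy.h2 hy.hσ hy.hn1 0 fun _ hm hnm _ _ => Or.inl (ratioP hy D A hm hnm)

/-- The level given by numbers of the ray class field with the Galois action. -/
theorem level {H : IntermediateField K ℝ} {Art θ : RayClassGroup σ₂ m ≃* (H ≃ₐ[K] H)}
    {Z : RayClassGroup σ₂ m → ℂ → ℂ} {ε : RayClassGroup σ₂ m → H}
    (hr : IsRayClassField σ₂ m H Art) (hZ : ∀ A, IsPartialZeta σ₂ m A (Z A))
    (hv : ∀ A, ((ε A : ℝ) : ℂ) = Complex.exp (-2 * deriv (Z A) 0)) (hθ : ∀ A B, θ B (ε A) = ε (A * B)) :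
    Nonempty (Lv σ₂ m) := by
  have hval : ∀ A, (ε A : ℝ) = ev σ₂ m A := by
    intro A
    have h1 := hv A
    rw [← zd_eq (hZ A)] at h1
    have h2 : ((ev σ₂ m A : ℝ) : ℂ) = Complex.exp (-2 * (zd σ₂ m A : ℂ)) := by
      unfold ev Lz
      push_cast
      rfl
    rw [← h2] at h1
    exact_mod_cast h1
  refine ⟨⟨H, Art, θ, hr, fun A => ?_, fun A B => ?_⟩⟩
  · rw [← hval]
    exact (ε A).2
  · rw [← hval, ← hval, act_coe, hθ]

end Pool.Agent.STr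
end

section

/-!
# Rationality implies the Stark-Tate assertion
-/

set_option autoImplicit false

open NumberField IsDedekindDomain nonZeroDivisors IntermediateField

namespace Pool.Agent.STr

open Pool.Agent.ST
open Pool.Agent.STh.F (FD)

variable {K : Type*} [Field K] [NumberField K] [Algebra K ℝ] {σ₂ : K →+* ℝ} {n m : Ideal (𝓞 K)}

theorem main (hy : Hy σ₂ n) : ∀ m : Ideal (𝓞 K), m ≠ ⊥ → n ∣ m → StarkTate σ₂ m := by
  intro m hm hnm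
  have hn0 : n ≠ ⊥ := by
    rintro rfl
    obtain ⟨c, hc⟩ := hnm
    exact hm (by rw [hc, Ideal.bot_mul])
  obtain ⟨d, a, D, ⟨A⟩⟩ := exists_anchor hy hn0
  exact starkTate_all hy D A m hm hnm

end Pool.Agent.STr
end

section

/-!
# TASK AN: the anchor under the hypotheses `Hx`

PROOF: mechanical. nt_r/Bb2.lean (`exists_kap_char`), Bc1.lean (`inX_of_sum`), Bc1a.lean (`sum_zd_ne`), Bc2.lean (`exists_anchor`) prove the same with a level `L : Lv σ₂ m` (only the field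
`L.H`, `L.Art`, `L.rcf` are used) and `Hy` (only `h2`, `hσ`, finiteness of the class group and the existence of ray class fields are used). Repeat the four proofs with `H`, `Art`, `hr : IsRayClassField σ₂ m H Art` and `Hx` (`Hx.finite_cl`, `Hx.rcf`).
-/

set_option autoImplicit false

open NumberField IsDedekindDomain nonZeroDivisors IntermediateField

namespace Pool.Agent.STs

open Pool.Agent.ST
open Pool.Agent.STr (Lz ev InX)
open Pool.Agent.STh.F (FD Lf se)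

variable {K : Type*} [Field K] [NumberField K] [Algebra K ℝ]

/-- the anchor -/
structure Anc (σ₂ : K →+* ℝ) (n : Ideal (𝓞 K)) (d : ℕ) (a : 𝓞 K) where
  m₀ : Ideal (𝓞 K)
  hm₀ : m₀ ≠ ⊥
  hn : n ∣ m₀
  ab : ∀ v : PrI K, (2 * d : 𝓞 K) ∈ v.asIdeal → v.asIdeal ∣ m₀
  H : IntermediateField K ℝ
  Art : RayClassGroup σ₂ m₀ ≃* (H ≃ₐ[K] H)
  rcf : IsRayClassField σ₂ m₀ H Art
  mem : se a ∈ H
  κ : RayClassGroup σ₂ m₀ →* ℂˣ
  inX : InX (Lz σ₂ m₀) κ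
  sq : κ ^ 2 = 1
  tr : ∀ B, act (Art B) (se a) = se a → κ B = 1

section

variable {σ₂ : K →+* ℝ} {n m : Ideal (𝓞 K)} {d : ℕ} {a : 𝓞 K}

open Pool.Agent.STr Pool.Agent.STh Pool.Agent.STh.F Filter Topology

omit [NumberField K] in
/-- the automorphisms map a square root to itself or its negative -/
private lemma AN_cases {H : IntermediateField K ℝ} {x : ℝ} (hx : x ∈ H) {c : K}
    (hc : x ^ 2 = algebraMap K ℝ c) (σ : H ≃ₐ[K] H) : act σ x = x ∨ act σ x = -x := by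
  have h1 : act σ x ^ 2 = x ^ 2 := by
    rw [← act_pow σ hx 2, hc, act_algebraMap]
  exact sq_eq_sq_iff_eq_or_eq_neg.1 h1

/-- the sign character -/
private lemma AN_hom {H : IntermediateField K ℝ} {x : ℝ} (hx : x ∈ H) {c : K}
    (hc : x ^ 2 = algebraMap K ℝ c) (h0 : 0 < x) :
    ∃ f : (H ≃ₐ[K] H) →* ℂˣ, (∀ σ, act σ x = x → f σ = 1) ∧ (∀ σ, act σ x = -x → f σ = -1) := by
  classical
  have hne : -x ≠ x := by
    intro h
    linarith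
  refine ⟨{ toFun := fun σ => if act σ x = x then 1 else -1, map_one' := ?_, map_mul' := ?_ },
    fun σ h => ?_, fun σ h => ?_⟩
  · rw [act_one_left hx, if_pos rfl]
  · intro σ τ
    rcases AN_cases hx hc τ with h1 | h1
    · rw [act_comp σ τ hx, h1, if_pos rfl, mul_one]
    · rcases AN_cases hx hc σ with h2 | h2
      · rw [act_comp σ τ hx, h1, act_neg σ hx, h2, if_neg hne, if_pos rfl, one_mul]
      · rw [act_comp σ τ hx, h1, act_neg σ hx, h2, neg_neg, if_pos rfl, if_neg hne]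
        simp
  · show (if act σ x = x then (1 : ℂˣ) else -1) = 1
    rw [if_pos h]
  · show (if act σ x = x then (1 : ℂˣ) else -1) = -1
    rw [h, if_neg hne]

/-- primes -/
private lemma AN_prime (D : FD σ₂ d a) (H : IntermediateField K ℝ)
    (Art : RayClassGroup σ₂ m ≃* (H ≃ₐ[K] H)) (hr : IsRayClassField σ₂ m H Art) (hse : se a ∈ H)
    (hab : ∀ v : PrI K, (2 * d : 𝓞 K) ∈ v.asIdeal → v.asIdeal ∣ m) (v : PrI K)
    (hv : ¬ v.asIdeal ∣ m) :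
    act (Art (cls σ₂ m (prJ m v hv))) (se a) =
      ((STh.F.chiP a v.asIdeal : ℤ) : ℝ) * se a := by
  have hfd := hr.finite
  have hgal := hr.galois
  have hnf := numberField_of_fd H
  obtain ⟨P, hP⟩ := exists_ovr (K := K) (L := H) v
  have := P.isPrime
  have hPv : P.asIdeal.under (𝓞 K) = v.asIdeal := by rw [← hP]; rfl
  have h2d : (2 * d : 𝓞 K) ∉ v.asIdeal := fun h => hv (hab v h)
  have h2 : (2 : 𝓞 K) ∉ v.asIdeal := fun h => h2d (v.asIdeal.mul_mem_right _ h)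
  have ha : a ∉ v.asIdeal := by
    intro h
    apply h2d
    refine v.asIdeal.mul_mem_left _ ?_
    rw [← D.sq, sq]
    exact v.asIdeal.mul_mem_left _ h
  have h3 := hr.isRCF.frob v (prJ m v hv) (by simp) (coe_prJ m v hv) P.asIdeal hPv
  exact STh.F.frob_sqrt D H hse v h2 ha P.asIdeal hPv _ h3.2

theorem AN_kap_char (D : FD σ₂ d a) (hm : m ≠ ⊥) (H : IntermediateField K ℝ)
    (Art : RayClassGroup σ₂ m ≃* (H ≃ₐ[K] H)) (hr : IsRayClassField σ₂ m H Art) (hse : se a ∈ H)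
    (hab : ∀ v : PrI K, (2 * d : 𝓞 K) ∈ v.asIdeal → v.asIdeal ∣ m) :
    ∃ κ : RayClassGroup σ₂ m →* ℂˣ, κ ^ 2 = 1 ∧ (∀ B, act (Art B) (se a) = se a → κ B = 1) ∧
      ∀ (I : Ideal (𝓞 K)) (J : primeTo (K := K) m), ((J : (FI K)ˣ) : FI K) = (I : FI K) →
        ((κ (cls σ₂ m J) : ℂˣ) : ℂ) = ((chiI a I : ℤ) : ℂ) := by
  obtain ⟨f, hf1, hf2⟩ := AN_hom hse D.se_sq D.se_pos
  refine ⟨f.comp (Art : RayClassGroup σ₂ m →* (H ≃ₐ[K] H)), ?_, ?_, ?_⟩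
  · ext B
    have h1 : (f.comp (Art : RayClassGroup σ₂ m →* (H ≃ₐ[K] H)) ^ 2) B =
        (f (Art B)) ^ 2 := rfl
    rw [h1]
    rcases AN_cases hse D.se_sq (Art B) with h | h
    · rw [hf1 _ h]; simp
    · rw [hf2 _ h]; simp
  · intro B hB
    exact hf1 _ hB
  · intro I J hJ
    have hI : I ≠ ⊥ := by
      rintro rfl
      exact J.1.ne_zero (by rw [hJ]; simp)
    refine STg.F.ideal_induction (m := m)
      (p := fun I => ∀ J : primeTo (K := K) m, ((J : (FI K)ˣ) : FI K) = (I : FI K) →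
        ((f.comp (Art : RayClassGroup σ₂ m →* (H ≃ₐ[K] H)) (cls σ₂ m J) : ℂˣ) : ℂ) =
          ((chiI a I : ℤ) : ℂ)) ?_ ?_ I hI (coprime_of_mem_primeTo hJ J.2) J hJ
    · intro J hJ
      have h1 : J = 1 := by
        apply Subtype.ext
        apply Units.ext
        rw [hJ]
        simp
      rw [h1, map_one, map_one, STh.F.chiI_top]
      simp
    · intro v I hv hI hIc ih J hJ
      set Jv := prJ (K := K) m v hv with hJv
      have hJ' : (((J * Jv⁻¹ : primeTo (K := K) m) : (FI K)ˣ) : FI K) = (I : FI K) := by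
        rw [Subgroup.coe_mul, Subgroup.coe_inv, Units.val_mul, hJ, FractionalIdeal.coeIdeal_mul,
          mul_comm (v.asIdeal : FI K), mul_assoc]
        have : (v.asIdeal : FI K) * (((Jv : (FI K)ˣ)⁻¹ : (FI K)ˣ) : FI K) = 1 := by
          have h3 : ((Jv : (FI K)ˣ) : FI K) = v.asIdeal := coe_prJ m v hv
          rw [← h3, ← Units.val_mul, mul_inv_cancel, Units.val_one]
        rw [this, mul_one]
      have hcls : cls σ₂ m J = cls σ₂ m Jv * cls σ₂ m (J * Jv⁻¹) := by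
        rw [← map_mul]
        congr 1
        rw [mul_comm J, ← mul_assoc, mul_inv_cancel, one_mul]
      rw [hcls, map_mul, Units.val_mul, ih (J * Jv⁻¹) hJ', STh.F.chiI_mul a v.ne_bot hI,
        STh.F.chiI_prime]
      have h4 := AN_prime D H Art hr hse hab v hv
      have h5 : (f.comp (Art : RayClassGroup σ₂ m →* (H ≃ₐ[K] H))) (cls σ₂ m Jv) =
          f (Art (cls σ₂ m (prJ m v hv))) := rfl
      rw [h5]
      push_cast
      congr 1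
      rcases STh.F.chiP_sq a v.asIdeal with hc | hc
      · rw [hc] at h4 ⊢
        rw [hf1 _ (by rw [h4]; simp)]
        simp
      · rw [hc] at h4 ⊢
        rw [hf2 _ (by rw [h4]; simp)]
        simp

theorem AN_inX_of_sum (hy : Hx σ₂ n) (hm : m ≠ ⊥) (hnm : n ∣ m) {κ : RayClassGroup σ₂ m →* ℂˣ} (hκ2 : κ ^ 2 = 1)
    (h : ∑ᶠ B, ((κ B : ℂˣ) : ℂ) * (zd σ₂ m B : ℂ) ≠ 0) : InX (Lz σ₂ m) κ := by
  classical
  have f0 := hy.finite_cl hm hnm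
  have := Fintype.ofFinite (RayClassGroup σ₂ m)
  have hpm : ∀ B, ∃ e : ℤ, ((κ B : ℂˣ) : ℂ) = (e : ℂ) ∧ (((κ B)⁻¹ : ℂˣ) : ℂ) = (e : ℂ) := by
    intro B
    have h1 : (κ B) ^ 2 = 1 := by
      have := DFunLike.congr_fun hκ2 B
      simpa using this
    have h2 : ((κ B : ℂˣ) : ℂ) * ((κ B : ℂˣ) : ℂ) = 1 := by
      rw [← Units.val_mul, ← sq, h1, Units.val_one]
    rcases mul_self_eq_one_iff.1 h2 with h3 | h3
    · refine ⟨1, by rw [h3]; simp, ?_⟩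
      rw [Units.val_inv_eq_inv_val, h3]
      simp
    · refine ⟨-1, by rw [h3]; simp, ?_⟩
      rw [Units.val_inv_eq_inv_val, h3]
      norm_num
  choose e he he' using hpm
  set Λ : ℝ := ∑ B, (e B : ℝ) * Lz σ₂ m B with hΛ
  have hΛ0 : Λ ≠ 0 := by
    intro h0
    apply h
    rw [finsum_eq_sum_of_fintype]
    have h1 : (Λ : ℂ) = -2 * ∑ B, ((κ B : ℂˣ) : ℂ) * (zd σ₂ m B : ℂ) := by
      rw [hΛ]
      push_cast
      rw [Finset.mul_sum]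
      refine Finset.sum_congr rfl fun B _ => ?_
      rw [he B]
      unfold Lz
      push_cast
      ring
    rw [h0, Complex.ofReal_zero] at h1
    have h2 := h1.symm
    rcases mul_eq_zero.1 h2 with h3 | h3
    · norm_num at h3
    · exact h3
  obtain ⟨c, hc⟩ : ∃ c : ℝ →ₗ[ℚ] ℚ, c Λ ≠ 0 := by
    by_contra hcon
    push Not at hcon
    exact hΛ0 ((Module.forall_dual_apply_eq_zero_iff ℚ _).1 hcon)
  refine ⟨c, ?_⟩
  rw [SS_eq]
  have h1 : ∑ B, (((κ B)⁻¹ : ℂˣ) : ℂ) * ((c (Lz σ₂ m B) : ℚ) : ℂ) = ((c Λ : ℚ) : ℂ) := by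
    rw [hΛ, map_sum, Rat.cast_sum]
    refine Finset.sum_congr rfl fun B _ => ?_
    have h2 : (e B : ℝ) * Lz σ₂ m B = e B • Lz σ₂ m B := by
      rw [zsmul_eq_mul]
    rw [h2, map_zsmul, zsmul_eq_mul, he' B]
    push_cast
    ring
  rw [h1]
  exact_mod_cast hc

theorem AN_sum_zd_ne (hy : Hx σ₂ n) (hm : m ≠ ⊥) (hnm : n ∣ m) (U : UD) (D : FD σ₂ U.d a) (hram : Ram U.n U.κ)
    (hpr : ∀ v : PrI K, v.asIdeal ∣ m ↔ (U.n : 𝓞 K) ∈ v.asIdeal) {κ : RayClassGroup σ₂ m →* ℂˣ}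
    (hκ : ∀ (I : Ideal (𝓞 K)) (J : primeTo (K := K) m), ((J : (FI K)ˣ) : FI K) = (I : FI K) →
        ((κ (cls σ₂ m J) : ℂˣ) : ℂ) = ((chiI a I : ℤ) : ℂ)) :
    ∑ᶠ B, ((κ B : ℂˣ) : ℂ) * (zd σ₂ m B : ℂ) ≠ 0 := by
  classical
  have hfin := hy.finite_cl hm hnm
  have := Fintype.ofFinite (RayClassGroup σ₂ m)
  have hm1 : m ≠ ⊤ := hy.ne_top hnm
  have h2n : 2 ∣ U.n := (Dvd.intro (32 * U.d) (by ring)).trans U.dvd
  obtain ⟨f, hf⟩ := exists_cd U.n0 h2n (UD_gc U) hram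
  obtain ⟨F, C, hC, hFd, hF0, hFd0, hFs⟩ := exists_F U.n0 (UD_gc U) hf
  choose Z hZ hZ0 using fun B : RayClassGroup σ₂ m => exists_pz hy.h2 hy.hσ hm hm1 B
  have hn0 : (U.n : 𝓞 K) ≠ 0 := by exact_mod_cast U.n0
  have hspan : Ideal.span {(U.n : 𝓞 K)} ≠ ⊥ := by
    rw [Ne, Ideal.span_singleton_eq_bot]; exact hn0
  have hc : ∀ l : ℕ, l ≠ 0 → cK a m l = cM U l := by
    intro l hl
    rw [← Pool.Agent.STh.cK_eq_cM U D hl]
    unfold cK
    refine finsum_mem_congr rfl fun I _ => ?_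
    exact Pool.Agent.STh.F.chiK_congr a hm hspan
      (fun v => by rw [hpr v, Ideal.dvd_span_singleton]) I
  have hser : ∀ s : ℂ, 1 < s.re → ∑ᶠ B, ((κ B : ℂˣ) : ℂ) * Z B s = F s / 4 := by
    intro s hs
    have h1 := L_series hm hκ hZ hs
    have h2 := hasSum_cM U hs (hFs s hs)
    refine h1.unique ?_
    have h3 : (fun l : ℕ => ((cK a m l : ℤ) : ℂ) * (l : ℂ) ^ (-s)) =
        fun l : ℕ => ((cM U l : ℤ) : ℂ) * (l : ℂ) ^ (-s) := by
      funext l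
      rcases eq_or_ne l 0 with rfl | hl
      · have hs0 : -s ≠ 0 := by
          intro h
          have : s = 0 := by simpa using h
          rw [this] at hs
          norm_num at hs
        rw [Nat.cast_zero, Complex.zero_cpow hs0, mul_zero, mul_zero]
      · rw [hc l hl]
    rw [h3]
    exact h2
  have hA : AnalyticOnNhd ℂ (fun s => ∑ᶠ B, ((κ B : ℂˣ) : ℂ) * Z B s) {1}ᶜ := by
    have : (fun s => ∑ᶠ B, ((κ B : ℂˣ) : ℂ) * Z B s) = fun s => ∑ B, ((κ B : ℂˣ) : ℂ) * Z B s := by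
      funext s
      exact finsum_eq_sum_of_fintype _
    rw [this]
    refine Finset.analyticOnNhd_fun_sum _ fun B _ => ?_
    exact analyticOnNhd_const.mul (hZ B).1
  have hA' : AnalyticOnNhd ℂ (fun s => F s / 4) {1}ᶜ := by
    have h1 : Differentiable ℂ (fun s => F s / 4) := hFd.div_const 4
    exact fun s _ => h1.analyticAt s
  have heq := eq_of_eq_right hA hA' hser
  have hder := deriv_eq_of_eqOn heq
  have h0 : (0 : ℂ) ∈ ({1}ᶜ : Set ℂ) := by simp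
  have hd1 : deriv (fun s => ∑ᶠ B, ((κ B : ℂˣ) : ℂ) * Z B s) 0 =
      ∑ᶠ B, ((κ B : ℂˣ) : ℂ) * (zd σ₂ m B : ℂ) := by
    have : (fun s => ∑ᶠ B, ((κ B : ℂˣ) : ℂ) * Z B s) = fun s => ∑ B, ((κ B : ℂˣ) : ℂ) * Z B s := by
      funext s
      exact finsum_eq_sum_of_fintype _
    rw [this, finsum_eq_sum_of_fintype, deriv_fun_sum]
    · refine Finset.sum_congr rfl fun B _ => ?_
      rw [deriv_const_mul _ ((hZ B).1 0 h0).differentiableAt, zd_eq (hZ B)]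
    · intro B _
      exact (((hZ B).1 0 h0).differentiableAt).const_mul _
  have hd2 : deriv (fun s => F s / 4) 0 = C * F 1 / 4 := by
    rw [deriv_div_const, hFd0]
  rw [← hd1, hder, hd2]
  have hF1 : F 1 ≠ 0 := by
    intro hF1
    have hab : ∀ v : PrI K, (2 * U.d : 𝓞 K) ∈ v.asIdeal → v.asIdeal ∣ m := by
      intro v hv
      rw [hpr v]
      obtain ⟨k, hk⟩ := U.dvd
      have h1 : (U.n : 𝓞 K) = (32 * k : 𝓞 K) * (2 * U.d : 𝓞 K) := by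
        rw [hk]; push_cast; ring
      rw [h1]
      exact v.asIdeal.mul_mem_left _ hv
    obtain ⟨c, hc0, hcs⟩ := nonvan D hm hab hκ
    have hcont : Tendsto (fun s : ℝ => (F (s : ℂ) / 4).re) (𝓝[>] (1 : ℝ)) (𝓝 (F 1 / 4).re) := by
      have h1 : Continuous (fun s : ℝ => (F (s : ℂ) / 4).re) :=
        Complex.continuous_re.comp ((hFd.continuous.comp Complex.continuous_ofReal).div_const 4)
      have h2 := h1.tendsto (1 : ℝ)
      rw [Complex.ofReal_one] at h2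
      exact h2.mono_left nhdsWithin_le_nhds
    have hge : c ≤ (F 1 / 4).re := by
      refine ge_of_tendsto hcont ?_
      filter_upwards [hcs, self_mem_nhdsWithin] with s hs hs1
      have hs1' : (1 : ℝ) < s := hs1
      have hs2 : 1 < (s : ℂ).re := by simpa using hs1'
      have h1 := L_series hm hκ hZ hs2
      rw [hser _ hs2] at h1
      have h2 := Complex.hasSum_re h1
      have h3 : (fun l : ℕ => (((cK a m l : ℤ) : ℂ) * (l : ℂ) ^ (-(s : ℂ))).re) =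
          fun l : ℕ => ((cK a m l : ℤ) : ℝ) * (l : ℝ) ^ (-s) := by
        funext l
        have h4 : ((l : ℂ)) ^ (-(s : ℂ)) = (((l : ℝ) ^ (-s) : ℝ) : ℂ) := by
          rw [Complex.ofReal_cpow (Nat.cast_nonneg l)]
          push_cast
          rfl
        have h5 : ((cK a m l : ℤ) : ℂ) = (((cK a m l : ℤ) : ℝ) : ℂ) := by push_cast; rfl
        rw [h4, h5, ← Complex.ofReal_mul, Complex.ofReal_re]
      rw [h3] at h2
      rw [← h2.tsum_eq]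
      exact hs
    rw [hF1] at hge
    simp at hge
    exact absurd hc0 (not_lt.2 hge)
  exact div_ne_zero (mul_ne_zero hC hF1) (by norm_num)

omit [NumberField K] [Algebra K ℝ] in
private theorem AN_prime_mem (v : PrI K) : ∀ N : ℕ, N ≠ 0 → (N : 𝓞 K) ∈ v.asIdeal →
    ∃ p : ℕ, p.Prime ∧ p ∣ N ∧ (p : 𝓞 K) ∈ v.asIdeal := by
  intro N
  induction N using Nat.strong_induction_on with
  | _ N ih =>
    intro hN hv
    by_cases h1 : N = 1
    · exfalso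
      rw [h1, Nat.cast_one] at hv
      exact v.isPrime.ne_top ((Ideal.eq_top_iff_one _).2 hv)
    · have hp := Nat.minFac_prime h1
      obtain ⟨k, hk⟩ := Nat.minFac_dvd N
      have hk0 : k ≠ 0 := by
        rintro rfl
        rw [mul_zero] at hk
        exact hN hk
      have hkN : k < N := by
        have h2 := hp.two_le
        have h3 : 2 * k ≤ N.minFac * k := Nat.mul_le_mul_right k h2
        have h4 : 0 < k := Nat.pos_of_ne_zero hk0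
        omega
      have hv' : ((N.minFac : ℕ) : 𝓞 K) * ((k : ℕ) : 𝓞 K) ∈ v.asIdeal := by
        rw [← Nat.cast_mul, ← hk]
        exact hv
      rcases v.isPrime.mem_or_mem hv' with h | h
      · exact ⟨N.minFac, hp, Nat.minFac_dvd N, h⟩
      · obtain ⟨p, h5, h6, h7⟩ := ih k hkN hk0 h
        exact ⟨p, h5, h6.trans ⟨N.minFac, by rw [mul_comm]; exact hk⟩, h7⟩

end

open Pool.Agent.STr Pool.Agent.STh Pool.Agent.STh.F in
theorem exists_anchor {σ₂ : K →+* ℝ} {n : Ideal (𝓞 K)} (hx : Hx σ₂ n) (hn0 : n ≠ ⊥) :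
    ∃ (d : ℕ) (a : 𝓞 K), FD σ₂ d a ∧ Nonempty (Anc σ₂ n d a) := by
  obtain ⟨d₀, a₀, D₀, hsf⟩ := exists_FD hx.h2 hx.hσ
  have hnsq : ¬ IsSquare d₀ := D₀.nsq
  have hd0 : d₀ ≠ 0 := by
    rintro rfl
    exact hnsq ⟨0, rfl⟩
  have hA : Ideal.absNorm n ≠ 0 := by
    rw [Ne, Ideal.absNorm_eq_zero_iff]
    exact hn0
  have hR0 : 2 * d₀ * Ideal.absNorm n ≠ 0 := mul_ne_zero (mul_ne_zero two_ne_zero hd0) hA
  obtain ⟨P₀, hPsf, hpP, hP0⟩ : ∃ P₀ : ℕ, Squarefree P₀ ∧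
      (∀ p : ℕ, p.Prime → p ∣ 2 * d₀ * Ideal.absNorm n → p ∣ P₀) ∧ P₀ ≠ 0 := by
    have hsq : Squarefree (∏ p ∈ (2 * d₀ * Ideal.absNorm n).primeFactors, p) :=
      Finset.squarefree_prod_of_pairwise_isCoprime ?_ ?_
    · exact ⟨_, hsq, fun p hp hd => Finset.dvd_prod_of_mem _ (Nat.mem_primeFactors.2 ⟨hp, hd, hR0⟩),
        hsq.ne_zero⟩
    · intro p hp q hq hpq
      rw [Function.onFun, ← Nat.coprime_iff_isRelPrime]
      exact (Nat.coprime_primes (Nat.prime_of_mem_primeFactors hp)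
        (Nat.prime_of_mem_primeFactors hq)).2 hpq
    · intro p hp
      exact (Nat.prime_of_mem_primeFactors hp).squarefree
  have h2P : 2 ∣ P₀ := hpP 2 Nat.prime_two ⟨d₀ * Ideal.absNorm n, by ring⟩
  obtain ⟨x, hx0, hxP, hx'⟩ := exists_x hnsq hPsf h2P
  have hQ0 : 64 * d₀ * P₀ ^ 2 ≠ 0 := mul_ne_zero (mul_ne_zero (by norm_num) hd0) (pow_ne_zero 2 hP0)
  have D := FD.mulSq D₀ hx0
  have hdQ : 64 * (d₀ * x ^ 2) ∣ 64 * d₀ * P₀ ^ 2 := by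
    rw [← mul_assoc]
    exact Nat.mul_dvd_mul_left _ (pow_dvd_pow_of_dvd hxP 2)
  have hxQ : x ∣ 64 * d₀ * P₀ ^ 2 := (hxP.trans (dvd_pow_self P₀ two_ne_zero)).mul_left _
  obtain ⟨U, hUd, hUn⟩ := exists_ud D.nsq hQ0 hdQ
  have hDU : FD σ₂ U.d ((x : 𝓞 K) * a₀) := by
    rw [hUd]
    exact D
  have hram : Ram U.n U.κ := by
    refine ram_of U.n0 (UD_gc U) fun p hp hpn => ?_
    refine hx' U hUd hUn p hp ?_
    rw [hUn] at hpn
    rcases (Nat.Prime.dvd_mul hp).1 hpn with h | h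
    · rcases (Nat.Prime.dvd_mul hp).1 h with h | h
      · have h64 : (64 : ℕ) = 2 ^ 6 := by norm_num
        rw [h64] at h
        exact (hp.dvd_of_dvd_pow h).trans h2P
      · exact hpP p hp ((h.mul_left 2).mul_right _)
    · exact hp.dvd_of_dvd_pow h
  have hQK : ((64 * d₀ * P₀ ^ 2 : ℕ) : 𝓞 K) ≠ 0 := Nat.cast_ne_zero.2 hQ0
  have hsp : Ideal.span {((64 * d₀ * P₀ ^ 2 : ℕ) : 𝓞 K)} ≠ ⊥ := by
    rw [Ne, Ideal.span_singleton_eq_bot]
    exact hQK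
  set m₀ : Ideal (𝓞 K) := n * Ideal.span {((64 * d₀ * P₀ ^ 2 : ℕ) : 𝓞 K)} ^ 3 with hm₀def
  have hm₀ : m₀ ≠ ⊥ := mul_ne_zero hn0 (pow_ne_zero 3 hsp)
  have hnm : n ∣ m₀ := Dvd.intro _ rfl
  obtain ⟨H, Art, hr⟩ := hx.rcf m₀ hm₀ hnm
  have hpr : ∀ v : PrI K, v.asIdeal ∣ m₀ ↔ (U.n : 𝓞 K) ∈ v.asIdeal := by
    intro v
    have hvp : Prime v.asIdeal := v.prime
    rw [hUn]
    constructor
    · intro h
      rcases hvp.dvd_or_dvd h with h | h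
      · have h1 : ((Ideal.absNorm n : ℕ) : 𝓞 K) ∈ v.asIdeal :=
          (Ideal.le_of_dvd h) (Ideal.absNorm_mem n)
        obtain ⟨p, hp, hpd, hpv⟩ := AN_prime_mem v _ hA h1
        have h2 : p ∣ 64 * d₀ * P₀ ^ 2 :=
          ((hpP p hp (hpd.mul_left _)).trans (dvd_pow_self P₀ two_ne_zero)).mul_left _
        obtain ⟨k, hk⟩ := h2
        rw [hk, Nat.cast_mul]
        exact v.asIdeal.mul_mem_right _ hpv
      · have h1 := hvp.dvd_of_dvd_pow h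
        exact (Ideal.le_of_dvd h1) (Ideal.mem_span_singleton_self _)
    · intro h
      have h1 : v.asIdeal ∣ Ideal.span {((64 * d₀ * P₀ ^ 2 : ℕ) : 𝓞 K)} := by
        rw [Ideal.dvd_span_singleton]
        exact h
      exact (h1.trans (dvd_pow_self _ three_ne_zero)).mul_left _
  have hab : ∀ v : PrI K, (2 * (U.d : 𝓞 K)) ∈ v.asIdeal → v.asIdeal ∣ m₀ := by
    intro v hv
    rw [hpr, hUn]
    obtain ⟨k, hk⟩ := hdQ
    have e : ((64 * d₀ * P₀ ^ 2 : ℕ) : 𝓞 K) = (2 * (U.d : 𝓞 K)) * ((32 * k : ℕ) : 𝓞 K) := by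
      rw [hk, hUd]
      push_cast
      ring
    rw [e]
    exact v.asIdeal.mul_mem_right _ hv
  have hse : se ((x : 𝓞 K) * a₀) ∈ H :=
    se_mem_H D₀ hsf hx0 hQ0 hxQ hdQ hm₀ (by rw [hm₀def]; exact Ideal.mul_le_right) hr
  obtain ⟨κ, hκ2, htr, hκ⟩ := AN_kap_char hDU hm₀ H Art hr hse hab
  exact ⟨U.d, (x : 𝓞 K) * a₀, hDU, ⟨
    { m₀ := m₀
      hm₀ := hm₀
      hn := hnm
      ab := hab
      H := H
      Art := Art
      rcf := hr
      mem := hse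
      κ := κ
      inX := AN_inX_of_sum hx hm₀ hnm hκ2 (AN_sum_zd_ne hx hm₀ hnm U hDU hram hpr hκ)
      sq := hκ2
      tr := htr }⟩⟩

end Pool.Agent.STs
end
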